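import Mathlib
import Pool.Graph.R_seed8.Helper386.D5V.Helper386_FF_Place

/-!
Nilpotent systems of derivations: definitions and elementary properties.
-/

set_option autoImplicit false
set_option linter.unusedSectionVars false

open FF

namespace Pool.Agent.H892

section

variable {k K ι : Type} [Field k] [Field K] [Algebra k K] [Fintype ι]

/-- `x` is killed by all products of `n` derivations of the family `D`. -/
def Kil (D : ι → Derivation k K K) : ℕ → K → Prop
  | 0, x => x = 0
  | n + 1, x => ∀ i, Kil D n (D i x)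

/-- `x` is killed by all sufficiently long products of derivations of the family `D`. -/
def Nilp (D : ι → Derivation k K K) (x : K) : Prop := ∃ n, Kil D n x

variable {D : ι → Derivation k K K}

theorem Kil.zero (n : ℕ) : Kil D n 0 := by
  induction n with
  | zero => rfl
  | succ n ih => exact fun i => by rw [map_zero]; exact ih

theorem Kil.succ {n : ℕ} : ∀ {x : K}, Kil D n x → Kil D (n + 1) x := by
  induction n with
  | zero =>
    intro x h
    rw [show x = 0 from h]
    exact Kil.zero 1
  | succ n ih => exact fun h i => ih (h i)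

theorem Kil.mono {n m : ℕ} (h : n ≤ m) {x : K} (hx : Kil D n x) : Kil D m x := by
  induction m, h using Nat.le_induction with
  | base => exact hx
  | succ m _ ih => exact ih.succ

theorem Kil.add {n : ℕ} : ∀ {x y : K}, Kil D n x → Kil D n y → Kil D n (x + y) := by
  induction n with
  | zero =>
    intro x y hx hy
    rw [show x = 0 from hx, show y = 0 from hy]
    exact add_zero 0
  | succ n ih =>
    intro x y hx hy i
    rw [map_add]
    exact ih (hx i) (hy i)

theorem Kil.sum {n : ℕ} {α : Type*} (s : Finset α) {x : α → K} (h : ∀ a ∈ s, Kil D n (x a)) :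
    Kil D n (∑ a ∈ s, x a) := by
  classical
  induction s using Finset.induction_on with
  | empty => rw [Finset.sum_empty]; exact Kil.zero n
  | insert a s ha ih =>
    rw [Finset.sum_insert ha]
    exact (h a (Finset.mem_insert_self a s)).add (ih fun b hb => h b (Finset.mem_insert_of_mem hb))

theorem Kil.mul {n m : ℕ} : ∀ {x y : K}, Kil D n x → Kil D m y → Kil D (n + m) (x * y) := by
  induction h : n + m generalizing n m with
  | zero =>
    intro x y hx hy
    have h1 : n = 0 := by omega
    subst h1
    rw [show x = 0 from hx, zero_mul]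
    exact Kil.zero 0
  | succ N ih =>
    intro x y hx hy
    rcases Nat.eq_zero_or_pos n with h1 | h1
    · subst h1
      rw [show x = 0 from hx, zero_mul]
      exact Kil.zero _
    rcases Nat.eq_zero_or_pos m with h2 | h2
    · subst h2
      rw [show y = 0 from hy, mul_zero]
      exact Kil.zero _
    obtain ⟨n, rfl⟩ : ∃ n', n = n' + 1 := ⟨n - 1, by omega⟩
    obtain ⟨m, rfl⟩ : ∃ m', m = m' + 1 := ⟨m - 1, by omega⟩
    intro i
    rw [Derivation.leibniz, smul_eq_mul, smul_eq_mul]
    refine Kil.add ?_ ?_
    · exact ih (n := n + 1) (m := m) (by omega) hx (hy i)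
    · exact ih (n := m + 1) (m := n) (by omega) hy (hx i)

theorem Kil.const {x : K} (h : ∀ i, D i x = 0) : Kil D 1 x := h

theorem nilp_const {x : K} (h : ∀ i, D i x = 0) : Nilp D x := ⟨1, h⟩

theorem Nilp.add {x y : K} (hx : Nilp D x) (hy : Nilp D y) : Nilp D (x + y) := by
  obtain ⟨n, hn⟩ := hx
  obtain ⟨m, hm⟩ := hy
  exact ⟨max n m, (hn.mono (le_max_left _ _)).add (hm.mono (le_max_right _ _))⟩

theorem Nilp.mul {x y : K} (hx : Nilp D x) (hy : Nilp D y) : Nilp D (x * y) := by
  obtain ⟨n, hn⟩ := hx
  obtain ⟨m, hm⟩ := hy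
  exact ⟨n + m, hn.mul hm⟩

theorem nilp_zero : Nilp D (0 : K) := ⟨0, rfl⟩

theorem nilp_one : Nilp D (1 : K) := nilp_const fun i => (D i).map_one_eq_zero

theorem Nilp.neg {x : K} (hx : Nilp D x) : Nilp D (-x) := by
  have h1 : Nilp D (-1 : K) := nilp_const fun i => by
    rw [map_neg, (D i).map_one_eq_zero, neg_zero]
  have := h1.mul hx
  rwa [neg_one_mul] at this

theorem Nilp.der {x : K} (hx : Nilp D x) (i : ι) : Nilp D (D i x) := by
  obtain ⟨n, hn⟩ := hx
  exact ⟨n, hn.succ i⟩

/-- the subring of the nilpotent elements -/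
def nilRing (D : ι → Derivation k K K) : Subring K where
  carrier := {x | Nilp D x}
  mul_mem' := fun h h' => h.mul h'
  one_mem' := nilp_one
  add_mem' := fun h h' => h.add h'
  zero_mem' := nilp_zero
  neg_mem' := fun h => h.neg

theorem mem_nilRing {x : K} : x ∈ nilRing D ↔ Nilp D x := Iff.rfl

/-- the last nonzero derivative of a nonzero nilpotent element is a constant -/
theorem exists_last (S : Set K) (hS : ∀ i, ∀ x ∈ S, D i x ∈ S) :
    ∀ n : ℕ, ∀ x ∈ S, x ≠ 0 → Kil D n x → ∃ c ∈ S, c ≠ 0 ∧ ∀ i, D i c = 0 := by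
  intro n
  induction n with
  | zero => exact fun x _ hx0 hx => absurd hx hx0
  | succ n ih =>
    intro x hx hx0 hk
    by_cases h : ∀ i, D i x = 0
    · exact ⟨x, hx, hx0, h⟩
    · push Not at h
      obtain ⟨i, hi⟩ := h
      exact ih _ (hS i x hx) hi (hk i)

/-- A nilpotent system of derivations over the field `F`, with weights `w`: the bracket of `D i` and
`D j` is a linear combination over `F` of derivations of weight smaller than `w j`, the common
constants are the elements of `F`, and `K` is the fraction field of the ring of nilpotent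
elements. -/
structure NilSys (F : IntermediateField k K) (D : ι → Derivation k K K) (w : ι → ℕ) : Prop where
  kills : ∀ i, ∀ f ∈ F, D i f = 0
  comm : ∀ i j, ∃ c : ι → K, (∀ l, c l ∈ F) ∧ (∀ l, w j ≤ w l → c l = 0) ∧
    ∀ x, D i (D j x) - D j (D i x) = ∑ l, c l * D l x
  const : ∀ x, (∀ i, D i x = 0) → x ∈ F
  frac : ∀ x, ∃ a b, Nilp D a ∧ Nilp D b ∧ b ≠ 0 ∧ x = a / b

variable {F : IntermediateField k K}

/-- a derivation which kills `F` as a linear map over `F` -/
def dlin (E : Derivation k K K) (h : ∀ f ∈ F, E f = 0) : K →ₗ[F] K where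
  toFun := E
  map_add' := map_add E
  map_smul' := fun c x => by
    change E ((c : K) * x) = (c : K) * E x
    rw [E.leibniz, h _ c.2, smul_zero, add_zero, smul_eq_mul]

theorem dlin_apply (E : Derivation k K K) (h : ∀ f ∈ F, E f = 0) (x : K) : dlin E h x = E x := rfl

theorem der_smul {E : Derivation k K K} (h : ∀ f ∈ F, E f = 0) {c : K} (hc : c ∈ F) (x : K) :
    E (c * x) = c * E x := by
  rw [E.leibniz, h _ hc, smul_zero, add_zero, smul_eq_mul]

end

section

/-- **The surjective part of a locally nilpotent operator.** -/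
theorem surj_part {F V : Type} [Field F] [AddCommGroup V] [Module F V] (Z : V →ₗ[F] V)
    (W : Submodule F V) (hst : ∀ x ∈ W, Z x ∈ W) (hnil : ∀ x ∈ W, ∃ n : ℕ, (Z ^ n) x = 0)
    (hker : FiniteDimensional F (W ⊓ LinearMap.ker Z : Submodule F V))
    (hinf : ¬ FiniteDimensional F W) :
    (∀ x, (∀ e : ℕ, ∃ u ∈ W, (Z ^ e) u = x) → ∃ u, (∀ e : ℕ, ∃ v ∈ W, (Z ^ e) v = u) ∧ Z u = x) ∧
    ∃ x, x ≠ 0 ∧ Z x = 0 ∧ ∀ e : ℕ, ∃ u ∈ W, (Z ^ e) u = x := by
  classical
  have hstn : ∀ (e : ℕ), ∀ x ∈ W, (Z ^ e) x ∈ W := by
    intro e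
    induction e with
    | zero => exact fun x hx => by simpa using hx
    | succ e ih =>
      intro x hx
      rw [pow_succ, Module.End.mul_apply]
      exact ih _ (hst x hx)
  -- the images
  let R : ℕ → Submodule F V := fun e => W.map (Z ^ e)
  have hR : ∀ e x, x ∈ R e ↔ ∃ u ∈ W, (Z ^ e) u = x := fun e x => Submodule.mem_map
  have hRW : ∀ e, R e ≤ W := by
    intro e x hx
    obtain ⟨u, hu, rfl⟩ := (hR e x).1 hx
    exact hstn e u hu
  have hanti : Antitone R := by
    refine antitone_nat_of_succ_le fun e x hx => ?_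
    obtain ⟨u, hu, rfl⟩ := (hR _ x).1 hx
    refine (hR _ _).2 ⟨Z u, hst u hu, ?_⟩
    rw [pow_succ, Module.End.mul_apply]
  let B : ℕ → Submodule F V := fun e => R e ⊓ LinearMap.ker Z
  have hBanti : Antitone B := fun a b h => inf_le_inf_right _ (hanti h)
  have hBfin : ∀ e, FiniteDimensional F (B e) := fun e =>
    Submodule.finiteDimensional_of_le (S₂ := W ⊓ LinearMap.ker Z) (inf_le_inf_right _ (hRW e))
  obtain ⟨e0, he0⟩ : ∃ e0, ∀ e, e0 ≤ e → B e = B e0 := by
    obtain ⟨e0, he0⟩ : ∃ e0, ∀ e, Module.finrank F (B e0) ≤ Module.finrank F (B e) := by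
      obtain ⟨e0, he0⟩ := Nat.sInf_mem (Set.range_nonempty fun e => Module.finrank F (B e))
      refine ⟨e0, fun e => ?_⟩
      have h1 : Module.finrank F (B e0) = sInf (Set.range fun e => Module.finrank F (B e)) := he0
      rw [h1]
      exact Nat.sInf_le ⟨e, rfl⟩
    exact ⟨e0, fun e he => Submodule.eq_of_le_of_finrank_le (hBanti he) (he0 e)⟩
  refine ⟨fun x hx => ?_, ?_⟩
  · obtain ⟨v, hv, hvx⟩ := hx (e0 + 1)
    rw [pow_succ', Module.End.mul_apply] at hvx
    refine ⟨(Z ^ e0) v, fun e => ?_, hvx⟩
    rcases le_total e e0 with he | he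
    · exact (hR _ _).1 (hanti he ((hR _ _).2 ⟨v, hv, rfl⟩))
    · obtain ⟨v', hv', hvx'⟩ := hx (e + 1)
      rw [pow_succ', Module.End.mul_apply] at hvx'
      have h1 : (Z ^ e0) v - (Z ^ e) v' ∈ B e0 := by
        refine ⟨(R e0).sub_mem ((hR _ _).2 ⟨v, hv, rfl⟩) (hanti he ((hR _ _).2 ⟨v', hv', rfl⟩)), ?_⟩
        rw [SetLike.mem_coe, LinearMap.mem_ker, map_sub, hvx, hvx', sub_self]
      rw [← he0 e he] at h1
      have h2 := (R e).add_mem h1.1 ((hR _ _).2 ⟨v', hv', rfl⟩)
      rw [sub_add_cancel] at h2
      exact (hR _ _).1 h2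
  · -- the kernels of the powers
    have hne : B e0 ≠ ⊥ := by
      intro hbot
      -- `Z ^ e0` kills nothing more than ker Z^e0
      apply hinf
      have hk : ∀ n : ℕ, ∀ x ∈ W, (Z ^ n) x = 0 → (Z ^ e0) x = 0 := by
        intro n
        induction n with
        | zero =>
          intro x _ h
          rw [pow_zero, Module.End.one_apply] at h
          rw [h, map_zero]
        | succ n ih =>
          intro x hx h
          rcases Nat.lt_or_ge n e0 with hn | hn
          · obtain ⟨d, hd⟩ := Nat.exists_eq_add_of_le (Nat.succ_le_of_lt hn)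
            rw [hd, add_comm, pow_add, Module.End.mul_apply]
            change (Z ^ d) ((Z ^ (n + 1)) x) = 0
            rw [h, map_zero]
          · refine ih x hx ?_
            have h1 : (Z ^ n) x ∈ B n := by
              refine ⟨(hR _ _).2 ⟨x, hx, rfl⟩, ?_⟩
              rw [SetLike.mem_coe, LinearMap.mem_ker]
              rw [pow_succ', Module.End.mul_apply] at h
              exact h
            rw [he0 n hn, hbot] at h1
            exact (Submodule.mem_bot F).1 h1
      -- the kernel of `Z ^ e0` has finite dimension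
      have hfin : ∀ e : ℕ, FiniteDimensional F (W ⊓ LinearMap.ker (Z ^ e) : Submodule F V) := by
        intro e
        induction e with
        | zero =>
          have h1 : (W ⊓ LinearMap.ker (Z ^ 0) : Submodule F V) = ⊥ := by
            rw [eq_bot_iff]
            rintro x ⟨-, hx⟩
            rw [SetLike.mem_coe, LinearMap.mem_ker, pow_zero, Module.End.one_apply] at hx
            exact (Submodule.mem_bot F).2 hx
          rw [h1]
          infer_instance
        | succ e ih =>
          let f : (W ⊓ LinearMap.ker (Z ^ (e + 1)) : Submodule F V) →ₗ[F]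
              (W ⊓ LinearMap.ker (Z ^ e) : Submodule F V) :=
            Z.restrict (p := (W ⊓ LinearMap.ker (Z ^ (e + 1)) : Submodule F V))
              (q := (W ⊓ LinearMap.ker (Z ^ e) : Submodule F V)) (by
              rintro x ⟨hx, hx'⟩
              refine ⟨hst x hx, ?_⟩
              rw [SetLike.mem_coe, LinearMap.mem_ker] at hx' ⊢
              rwa [pow_succ, Module.End.mul_apply] at hx')
          have hkf : FiniteDimensional F (LinearMap.ker f) := by
            let g : LinearMap.ker f →ₗ[F] (W ⊓ LinearMap.ker Z : Submodule F V) :=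
              { toFun := fun x => ⟨(x : _).1.1, x.1.2.1, by
                  have h1 : f x.1 = 0 := x.2
                  exact congrArg Subtype.val h1⟩
                map_add' := fun _ _ => rfl
                map_smul' := fun _ _ => rfl }
            refine FiniteDimensional.of_injective g fun a b h => ?_
            have := congrArg Subtype.val h
            exact Subtype.ext (Subtype.ext this)
          have hrf : FiniteDimensional F (LinearMap.range f) := inferInstance
          have hqf := Module.Finite.equiv f.quotKerEquivRange.symm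
          exact Module.Finite.of_submodule_quotient (LinearMap.ker f)
      have h1 : W ≤ W ⊓ LinearMap.ker (Z ^ e0) := by
        intro x hx
        obtain ⟨n, hn⟩ := hnil x hx
        exact ⟨hx, hk n x hx hn⟩
      exact Submodule.finiteDimensional_of_le h1
    obtain ⟨x, hx, hx0⟩ := (Submodule.ne_bot_iff _).1 hne
    refine ⟨x, hx0, hx.2, fun e => ?_⟩
    rcases le_total e e0 with he | he
    · exact (hR _ _).1 (hanti he hx.1)
    · rw [← he0 e he] at hx
      exact (hR _ _).1 hx.1

end

end Pool.Agent.H892
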