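import Pool.Agent.H892.A1

/-!
Nilpotent systems of derivations: central derivations on invariant subspaces, and series.
-/

set_option autoImplicit false
set_option linter.unusedSectionVars false

open FF

namespace Pool.Agent.H892

section

variable {k K ι : Type} [Field k] [Field K] [Algebra k K] [Fintype ι]
  {F : IntermediateField k K} {D : ι → Derivation k K K} {w : ι → ℕ}

open scoped Classical in
/-- the derivations which kill the subspace -/
noncomputable def kset (D : ι → Derivation k K K) (W : Submodule F K) : Finset ι :=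
  Finset.univ.filter fun l => ∀ x ∈ W, D l x = 0

theorem mem_kset {W : Submodule F K} {l : ι} : l ∈ kset D W ↔ ∀ x ∈ W, D l x = 0 := by
  simp [kset]

/-- **A central derivation.** -/
theorem exists_central (hs : NilSys F D w) (W : Submodule F K)
    (hst : ∀ i, ∀ x ∈ W, D i x ∈ W) (hinf : ¬ FiniteDimensional F W) :
    ∃ W' ≤ W, (∀ i, ∀ x ∈ W', D i x ∈ W') ∧ ¬ FiniteDimensional F W' ∧ ∃ j,
      (∀ i, ∀ x ∈ W', D i (D j x) = D j (D i x)) ∧
      FiniteDimensional F (W' ⊓ LinearMap.ker (dlin (D j) (hs.kills j)) : Submodule F K) := by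
  classical
  induction h : Fintype.card ι - (kset D W).card using Nat.strong_induction_on generalizing W with
  | _ n ih =>
    -- a derivation of minimal weight which does not kill `W`
    have hne : (kset D W)ᶜ.Nonempty := by
      rw [Finset.nonempty_iff_ne_empty]
      intro h0
      apply hinf
      have h1 : W ≤ Submodule.span F {(1 : K)} := by
        intro x hx
        have h2 : x ∈ F := hs.const x fun i => by
          have h3 : i ∈ kset D W := by
            by_contra h4
            have : i ∈ (kset D W)ᶜ := Finset.mem_compl.2 h4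
            rw [h0] at this
            exact absurd this (Finset.notMem_empty i)
          exact mem_kset.1 h3 x hx
        rw [Submodule.mem_span_singleton]
        exact ⟨⟨x, h2⟩, by rw [Algebra.smul_def, mul_one]; rfl⟩
      exact Submodule.finiteDimensional_of_le h1
    obtain ⟨l, hl, hmin⟩ := Finset.exists_min_image _ w hne
    rw [Finset.mem_compl] at hl
    have hlow : ∀ l', w l' < w l → ∀ x ∈ W, D l' x = 0 := by
      intro l' hl'
      by_contra h1
      have h2 : l' ∈ (kset D W)ᶜ := Finset.mem_compl.2 fun h3 => h1 (mem_kset.1 h3)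
      exact absurd (hmin l' h2) (by omega)
    have hcom : ∀ i, ∀ x ∈ W, D i (D l x) = D l (D i x) := by
      intro i x hx
      obtain ⟨c, -, hc0, hc⟩ := hs.comm i l
      rw [← sub_eq_zero, hc x]
      refine Finset.sum_eq_zero fun l' _ => ?_
      rcases Nat.lt_or_ge (w l') (w l) with h1 | h1
      · rw [hlow l' h1 x hx, mul_zero]
      · rw [hc0 l' h1, zero_mul]
    by_cases hf : FiniteDimensional F (W ⊓ LinearMap.ker (dlin (D l) (hs.kills l)) :
        Submodule F K)
    · exact ⟨W, le_rfl, hst, hinf, l, hcom, hf⟩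
    · have hst1 : ∀ i, ∀ x ∈ (W ⊓ LinearMap.ker (dlin (D l) (hs.kills l)) : Submodule F K),
          D i x ∈ (W ⊓ LinearMap.ker (dlin (D l) (hs.kills l)) : Submodule F K) := by
        rintro i x ⟨hx, hx'⟩
        refine ⟨hst i x hx, ?_⟩
        rw [SetLike.mem_coe, LinearMap.mem_ker, dlin_apply] at hx' ⊢
        rw [← hcom i x hx, hx', map_zero]
      have hcard : (kset D W).card < (kset D (W ⊓ LinearMap.ker (dlin (D l) (hs.kills l)) :
          Submodule F K)).card := by
        refine Finset.card_lt_card ⟨fun l' hl' => ?_, fun h1 => hl (h1 ?_)⟩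
        · rw [mem_kset] at hl' ⊢
          exact fun x hx => hl' x hx.1
        · rw [mem_kset]
          rintro x ⟨-, hx⟩
          exact hx
      have hle : (kset D (W ⊓ LinearMap.ker (dlin (D l) (hs.kills l)) :
          Submodule F K)).card ≤ Fintype.card ι := Finset.card_le_univ _
      obtain ⟨W', hW', h1, h2, h3⟩ := ih _ (by omega)
        (W ⊓ LinearMap.ker (dlin (D l) (hs.kills l)) : Submodule F K) hst1 hf rfl
      exact ⟨W', hW'.trans inf_le_left, h1, h2, h3⟩

/-- **An invariant subspace on which a central derivation is surjective with a finite dimensional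
kernel.** -/
theorem exists_surj (hs : NilSys F D w) (W : Submodule F K)
    (hst : ∀ i, ∀ x ∈ W, D i x ∈ W) (hnil : ∀ x ∈ W, Nilp D x) (hinf : ¬ FiniteDimensional F W) :
    ∃ W' ≤ W, (∀ i, ∀ x ∈ W', D i x ∈ W') ∧ ∃ j,
      (∀ i, ∀ x ∈ W', D i (D j x) = D j (D i x)) ∧
      (∀ x ∈ W', ∃ u ∈ W', D j u = x) ∧
      FiniteDimensional F (W' ⊓ LinearMap.ker (dlin (D j) (hs.kills j)) : Submodule F K) ∧
      ∃ x ∈ W', x ≠ 0 ∧ D j x = 0 := by
  obtain ⟨W1, hW1, hst1, hinf1, j, hcom, hfin⟩ := exists_central hs W hst hinf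
  obtain ⟨Z, hZ⟩ : ∃ Z, Z = dlin (D j) (hs.kills j) := ⟨_, rfl⟩
  have hZa : ∀ x, Z x = D j x := fun x => by rw [hZ, dlin_apply]
  have hkil : ∀ (n : ℕ) (x : K), Kil D n x → (Z ^ n) x = 0 := by
    intro n
    induction n with
    | zero =>
      intro x hx
      rw [pow_zero, Module.End.one_apply]
      exact hx
    | succ n ih =>
      intro x hx
      rw [pow_succ, Module.End.mul_apply, hZa]
      exact ih _ (hx j)
  obtain ⟨h1, x0, hx0, hZx0, hx0e⟩ := surj_part Z W1 (fun x hx => by rw [hZa]; exact hst1 j x hx)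
    (fun x hx => by
      obtain ⟨n, hn⟩ := hnil x (hW1 hx)
      exact ⟨n, hkil n x hn⟩) (by rw [hZ]; exact hfin) hinf1
  have hpow : ∀ i, ∀ (e : ℕ), ∀ x ∈ W1, D i ((Z ^ e) x) = (Z ^ e) (D i x) ∧ (Z ^ e) x ∈ W1 := by
    intro i e
    induction e with
    | zero =>
      intro x hx
      rw [pow_zero, Module.End.one_apply, Module.End.one_apply]
      exact ⟨rfl, hx⟩
    | succ e ih =>
      intro x hx
      obtain ⟨h2, h3⟩ := ih x hx
      rw [pow_succ', Module.End.mul_apply, Module.End.mul_apply, hZa, hZa]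
      exact ⟨by rw [hcom i _ h3, h2], hst1 j _ h3⟩
  obtain ⟨W', hW'⟩ : ∃ W' : Submodule F K, ∀ x, x ∈ W' ↔ ∀ e : ℕ, ∃ u ∈ W1, (Z ^ e) u = x := by
    refine ⟨⨅ e : ℕ, W1.map (Z ^ e), fun x => ?_⟩
    simp only [Submodule.mem_iInf, Submodule.mem_map]
  have hW'1 : W' ≤ W1 := by
    intro x hx
    obtain ⟨u, hu, hux⟩ := (hW' x).1 hx 0
    rw [pow_zero, Module.End.one_apply] at hux
    rwa [← hux]
  refine ⟨W', hW'1.trans hW1, ?_, j, fun i x hx => hcom i x (hW'1 hx), ?_, ?_, x0, ?_, hx0, ?_⟩
  · intro i x hx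
    rw [hW']
    intro e
    obtain ⟨u, hu, hux⟩ := (hW' x).1 hx e
    refine ⟨D i u, hst1 i u hu, ?_⟩
    rw [← (hpow i e u hu).1, hux]
  · intro x hx
    obtain ⟨u, hu, hux⟩ := h1 x ((hW' x).1 hx)
    exact ⟨u, (hW' u).2 hu, by rw [← hZa, hux]⟩
  · exact Submodule.finiteDimensional_of_le (S₂ := W1 ⊓ LinearMap.ker (dlin (D j) (hs.kills j)))
      (inf_le_inf_right _ hW'1)
  · exact (hW' x0).2 hx0e
  · rw [← hZa, hZx0]

end

end Pool.Agent.H892
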