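import Pool.Agent.H892.A2

/-!
Derivations acting on the coefficients of power series, words in the derivations, and semi-invariant
determinants.
-/

set_option autoImplicit false
set_option linter.unusedSectionVars false

open FF PowerSeries

namespace Pool.Agent.H892

section det

variable {R α : Type} [CommRing R]

/-- the derivative of a product -/
theorem der_prod [DecidableEq α] (d : R →+ R) (hd : ∀ a b, d (a * b) = a * d b + b * d a)
    (s : Finset α) (f : α → R) :
    d (∏ i ∈ s, f i) = ∑ i ∈ s, (∏ j ∈ s.erase i, f j) * d (f i) := by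
  induction s using Finset.induction_on with
  | empty =>
    rw [Finset.prod_empty, Finset.sum_empty]
    have h := hd 1 1
    rw [one_mul, one_mul] at h
    exact left_eq_add.1 h
  | insert a s ha ih =>
    rw [Finset.prod_insert ha, hd, ih, Finset.sum_insert ha, Finset.erase_insert ha, Finset.mul_sum,
      add_comm]
    congr 1
    refine Finset.sum_congr rfl fun i hi => ?_
    have hai : a ≠ i := fun h => ha (h ▸ hi)
    rw [Finset.erase_insert_of_ne hai, Finset.prod_insert (fun h => ha (Finset.mem_of_mem_erase h))]
    ring

/-- **The derivative of a determinant.** -/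
theorem der_det {n : ℕ} (d : R →+ R) (hd : ∀ a b, d (a * b) = a * d b + b * d a)
    (A : Matrix (Fin n) (Fin n) R) :
    d A.det = ∑ b, (A.updateCol b fun a => d (A a b)).det := by
  classical
  simp only [Matrix.det_apply']
  rw [map_sum, Finset.sum_comm]
  refine Finset.sum_congr rfl fun σ _ => ?_
  have h0 : ∀ z : ℤ, d (z : R) = 0 := by
    intro z
    have h1 : d 1 = 0 := by
      have h := hd 1 1
      rw [one_mul, one_mul] at h
      exact left_eq_add.1 h
    have h2 : (z : R) = z • (1 : R) := by simp
    rw [h2, map_zsmul, h1, smul_zero]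
  rw [hd, h0, mul_zero, add_zero, der_prod d hd, Finset.mul_sum]
  refine Finset.sum_congr rfl fun b _ => ?_
  congr 1
  rw [← Finset.mul_prod_erase Finset.univ _ (Finset.mem_univ b), Matrix.updateCol_self, mul_comm]
  congr 1
  refine Finset.prod_congr rfl fun j hj => ?_
  rw [Matrix.updateCol_ne (Finset.ne_of_mem_erase hj)]

/-- the trace formula -/
theorem sum_det_updateCol {n : ℕ} (M A : Matrix (Fin n) (Fin n) R) :
    ∑ b, (A.updateCol b fun a => (M * A) a b).det = M.trace * A.det := by
  classical
  have h1 : ∀ b, (A.updateCol b fun a => (M * A) a b).det = (A.adjugate * (M * A)) b b := by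
    intro b
    rw [← Matrix.cramer_apply, Matrix.cramer_eq_adjugate_mulVec]
    rfl
  rw [Finset.sum_congr rfl fun b _ => h1 b]
  change Matrix.trace (A.adjugate * (M * A)) = _
  rw [Matrix.trace_mul_comm, Matrix.mul_assoc, Matrix.mul_adjugate, Matrix.mul_smul, mul_one,
    Matrix.trace_smul, smul_eq_mul, mul_comm]

end det

section

variable {k K ι : Type} [Field k] [Field K] [Algebra k K] [Fintype ι]
  {F : IntermediateField k K} {D : ι → Derivation k K K} {w : ι → ℕ}

/-- a derivation on the coefficients of power series -/
noncomputable def dh (E : Derivation k K K) : PowerSeries K →+ PowerSeries K where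
  toFun f := PowerSeries.mk fun n => E (coeff n f)
  map_zero' := by
    ext n
    rw [coeff_mk, map_zero, map_zero]
  map_add' f g := by
    ext n
    rw [coeff_mk, map_add, map_add, map_add, coeff_mk, coeff_mk]

theorem coeff_dh (E : Derivation k K K) (f : PowerSeries K) (n : ℕ) :
    coeff n (dh E f) = E (coeff n f) := by
  change coeff n (PowerSeries.mk fun n => E (coeff n f)) = _
  rw [coeff_mk]

theorem dh_mul (E : Derivation k K K) (f g : PowerSeries K) :
    dh E (f * g) = f * dh E g + g * dh E f := by
  ext n
  rw [coeff_dh, map_add, mul_comm g, coeff_mul, coeff_mul, coeff_mul, map_sum,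
    ← Finset.sum_add_distrib]
  refine Finset.sum_congr rfl fun p _ => ?_
  rw [coeff_dh, coeff_dh, E.leibniz, smul_eq_mul, smul_eq_mul]
  ring

/-- power series with coefficients in `F` -/
def CF (F : IntermediateField k K) (f : PowerSeries K) : Prop := ∀ n, coeff n f ∈ F

theorem CF.add {f g : PowerSeries K} (hf : CF F f) (hg : CF F g) : CF F (f + g) := fun n => by
  rw [map_add]
  exact F.add_mem (hf n) (hg n)

theorem CF.mul {f g : PowerSeries K} (hf : CF F f) (hg : CF F g) : CF F (f * g) := fun n => by
  rw [coeff_mul]
  exact F.sum_mem fun p _ => F.mul_mem (hf _) (hg _)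

theorem CF.sum {α : Type} (s : Finset α) {f : α → PowerSeries K} (h : ∀ a ∈ s, CF F (f a)) :
    CF F (∑ a ∈ s, f a) := fun n => by
  rw [map_sum]
  exact F.sum_mem fun a ha => h a ha n

theorem CF.dh {E : Derivation k K K} (hE : ∀ f ∈ F, E f = 0) {f : PowerSeries K} (hf : CF F f) :
    dh E f = 0 := by
  ext n
  rw [coeff_dh, hE _ (hf n), map_zero]

theorem dh_smul {E : Derivation k K K} (hE : ∀ f ∈ F, E f = 0) {g : PowerSeries K} (hg : CF F g)
    (f : PowerSeries K) : Pool.Agent.H892.dh E (g * f) = g * Pool.Agent.H892.dh E f := by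
  rw [dh_mul, hg.dh hE, mul_zero, add_zero]

/-- a word in the derivations -/
noncomputable def oph (D : ι → Derivation k K K) : List ι → PowerSeries K → PowerSeries K
  | [], f => f
  | i :: u, f => dh (D i) (oph D u f)

/-- the weight of a word -/
def wt (w : ι → ℕ) : List ι → ℕ
  | [] => 0
  | i :: u => w i + 1 + wt w u

theorem oph_nil (f : PowerSeries K) : oph D [] f = f := rfl

theorem oph_cons (i : ι) (u : List ι) (f : PowerSeries K) :
    oph D (i :: u) f = dh (D i) (oph D u f) := rfl

theorem oph_add (u : List ι) (f g : PowerSeries K) :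
    oph D u (f + g) = oph D u f + oph D u g := by
  induction u with
  | nil => rfl
  | cons i u ih => rw [oph_cons, oph_cons, oph_cons, ih, map_add]

theorem oph_zero (u : List ι) : oph D u (0 : PowerSeries K) = 0 := by
  induction u with
  | nil => rfl
  | cons i u ih => rw [oph_cons, ih, map_zero]

theorem oph_sum (u : List ι) {α : Type} (s : Finset α) (f : α → PowerSeries K) :
    oph D u (∑ a ∈ s, f a) = ∑ a ∈ s, oph D u (f a) := by
  induction u with
  | nil => rfl
  | cons i u ih =>
    rw [oph_cons, ih, map_sum]
    rfl

theorem oph_smul (hk : ∀ i, ∀ f ∈ F, D i f = 0) (u : List ι) {g : PowerSeries K} (hg : CF F g)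
    (f : PowerSeries K) : oph D u (g * f) = g * oph D u f := by
  induction u with
  | nil => rfl
  | cons i u ih => rw [oph_cons, ih, dh_smul (hk i) hg, oph_cons]

/-- the operators which are combinations of words of weight less than `n` -/
noncomputable def LowSp (D : ι → Derivation k K K) (w : ι → ℕ) (n : ℕ) :
    Submodule (PowerSeries K) (PowerSeries K → PowerSeries K) :=
  Submodule.span (PowerSeries K) {T | ∃ v, wt w v < n ∧ T = oph D v}

theorem lowSp_mono {n m : ℕ} (h : n ≤ m) : LowSp D w n ≤ LowSp D w m := by
  refine Submodule.span_mono ?_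
  rintro _ ⟨v, hv, rfl⟩
  exact ⟨v, hv.trans_le h, rfl⟩

theorem low_der {n : ℕ} (i : ι) {T : PowerSeries K → PowerSeries K} (hT : T ∈ LowSp D w n) :
    (fun f => dh (D i) (T f)) ∈ LowSp D w (w i + 1 + n) := by
  induction hT using Submodule.span_induction with
  | mem T hT =>
    obtain ⟨v, hv, rfl⟩ := hT
    refine Submodule.subset_span ⟨i :: v, ?_, rfl⟩
    rw [wt]
    omega
  | zero =>
    have h1 : (fun f : PowerSeries K => dh (D i) ((0 : PowerSeries K → PowerSeries K) f)) = 0 := by
      funext f
      rw [Pi.zero_apply, map_zero]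
    rw [h1]
    exact Submodule.zero_mem _
  | add T T' _ _ h h' =>
    have h1 : (fun f : PowerSeries K => dh (D i) ((T + T') f)) =
        (fun f => dh (D i) (T f)) + fun f => dh (D i) (T' f) := by
      funext f
      rw [Pi.add_apply, map_add, Pi.add_apply]
    rw [h1]
    exact Submodule.add_mem _ h h'
  | smul a T hT h =>
    have h1 : (fun f : PowerSeries K => dh (D i) ((a • T) f)) =
        a • (fun f => dh (D i) (T f)) + dh (D i) a • T := by
      funext f
      rw [Pi.smul_apply, smul_eq_mul, dh_mul, Pi.add_apply, Pi.smul_apply, Pi.smul_apply,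
        smul_eq_mul, smul_eq_mul, mul_comm (T f)]
    rw [h1]
    exact Submodule.add_mem _ (Submodule.smul_mem _ _ h)
      (Submodule.smul_mem _ _ (lowSp_mono (by omega) hT))

/-- **The commutators of words with derivations have smaller weight.** -/
theorem comm_word (hs : NilSys F D w) (u : List ι) (i : ι) :
    (fun f => dh (D i) (oph D u f) - oph D u (dh (D i) f)) ∈ LowSp D w (wt w u) := by
  induction u with
  | nil =>
    have h1 : (fun f : PowerSeries K => dh (D i) (oph D [] f) - oph D [] (dh (D i) f)) = 0 := by
      funext f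
      rw [oph_nil, oph_nil, sub_self, Pi.zero_apply]
    rw [h1]
    exact Submodule.zero_mem _
  | cons l u ih =>
    obtain ⟨c, hcF, hc0, hc⟩ := hs.comm i l
    have h1 : (fun f : PowerSeries K => dh (D i) (oph D (l :: u) f) - oph D (l :: u) (dh (D i) f)) =
        (∑ l', (PowerSeries.C (c l')) • oph D (l' :: u)) +
          fun f => dh (D l) (dh (D i) (oph D u f) - oph D u (dh (D i) f)) := by
      funext f
      rw [Pi.add_apply, Finset.sum_apply, oph_cons, oph_cons, map_sub]
      have h2 : dh (D i) (dh (D l) (oph D u f)) - dh (D l) (dh (D i) (oph D u f)) =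
          ∑ l', (PowerSeries.C (c l') • oph D (l' :: u)) f := by
        ext n
        rw [map_sub, coeff_dh, coeff_dh, coeff_dh, coeff_dh, hc, map_sum]
        refine Finset.sum_congr rfl fun l' _ => ?_
        rw [Pi.smul_apply, smul_eq_mul, oph_cons, coeff_C_mul, coeff_dh]
      rw [← h2]
      ring
    rw [h1]
    refine Submodule.add_mem _ (Submodule.sum_mem _ fun l' _ => ?_) ?_
    · rcases Nat.lt_or_ge (w l') (w l) with h2 | h2
      · refine Submodule.smul_mem _ _ (Submodule.subset_span ⟨l' :: u, ?_, rfl⟩)
        rw [wt, wt]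
        omega
      · rw [hc0 l' h2, map_zero, zero_smul]
        exact Submodule.zero_mem _
    · have h2 := low_der l ih
      rw [wt]
      exact h2

/-- **Semi-invariance of a minimal determinant.** -/
theorem semi_det (hs : NilSys F D w) {m : ℕ} (E : Fin m → PowerSeries K)
    (u : Fin m → List ι) (hmin : ∀ v : Fin m → List ι, ∑ b, wt w (v b) < ∑ b, wt w (u b) →
      (Matrix.of fun a b => oph D (v b) (E a)).det = 0) (i : ι)
    (M : Matrix (Fin m) (Fin m) (PowerSeries K)) (hM : ∀ a c, CF F (M a c))
    (hE : ∀ a, dh (D i) (E a) = ∑ c, M a c * E c) :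
    dh (D i) (Matrix.of fun a b => oph D (u b) (E a)).det =
      M.trace * (Matrix.of fun a b => oph D (u b) (E a)).det := by
  classical
  obtain ⟨A, hA⟩ : ∃ A, A = (Matrix.of fun a b => oph D (u b) (E a)) := ⟨_, rfl⟩
  have hAab : ∀ a b, A a b = oph D (u b) (E a) := fun a b => by rw [hA]; rfl
  rw [← hA, der_det (dh (D i)) (dh_mul (D i)), ← sum_det_updateCol]
  refine Finset.sum_congr rfl fun b _ => ?_
  have h1 : (fun a => dh (D i) (A a b)) = (fun a => (M * A) a b) +
      fun a => (fun f => dh (D i) (oph D (u b) f) - oph D (u b) (dh (D i) f)) (E a) := by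
    funext a
    rw [Pi.add_apply]
    change _ = _ + (dh (D i) (oph D (u b) (E a)) - oph D (u b) (dh (D i) (E a)))
    have h2 : (M * A) a b = oph D (u b) (dh (D i) (E a)) := by
      rw [hE, oph_sum, Matrix.mul_apply]
      refine Finset.sum_congr rfl fun c _ => ?_
      rw [oph_smul hs.kills _ (hM a c), hAab]
    rw [h2, hAab]
    ring
  rw [h1, Matrix.det_updateCol_add]
  have h3 : ∀ T ∈ LowSp D w (wt w (u b)), (A.updateCol b fun a => T (E a)).det = 0 := by
    intro T hT
    induction hT using Submodule.span_induction with
    | mem T hT =>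
      obtain ⟨v, hv, rfl⟩ := hT
      have h4 : (A.updateCol b fun a => oph D v (E a)) =
          Matrix.of fun a b' => oph D (Function.update u b v b') (E a) := by
        ext1 a b'
        rw [Matrix.of_apply]
        by_cases hb : b' = b
        · subst hb
          rw [Matrix.updateCol_self, Function.update_self]
        · rw [Matrix.updateCol_ne hb, Function.update_of_ne hb, hAab]
      rw [h4]
      refine hmin _ ?_
      refine Finset.sum_lt_sum (fun b' _ => ?_) ⟨b, Finset.mem_univ b, ?_⟩
      · by_cases hb : b' = b
        · subst hb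
          rw [Function.update_self]
          exact hv.le
        · rw [Function.update_of_ne hb]
      · rw [Function.update_self]
        exact hv
    | zero =>
      refine Matrix.det_eq_zero_of_column_eq_zero b fun a => ?_
      rw [Matrix.updateCol_self]
      rfl
    | add T T' _ _ h h' =>
      have h4 : (fun a => (T + T') (E a)) = (fun a => T (E a)) + fun a => T' (E a) := rfl
      rw [h4, Matrix.det_updateCol_add, h, h', add_zero]
    | smul c T _ h =>
      have h4 : (fun a => (c • T) (E a)) = c • fun a => T (E a) := rfl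
      rw [h4, Matrix.det_updateCol_smul, h, mul_zero]
  rw [h3 _ (comm_word hs (u b) i), add_zero]

end

end Pool.Agent.H892
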