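import Pool.Agent.H892.A3

/-!
A Wronskian criterion for series over a field with a nilpotent system of derivations.
-/

set_option autoImplicit false
set_option linter.unusedSectionVars false

open FF PowerSeries

namespace Pool.Agent.H892

section

/-- a linear relation between the coordinates of vectors all of whose determinants vanish -/
theorem exists_rel {R U : Type} [CommRing R] [IsDomain R] {m : ℕ} (v : U → Fin m → R)
    (h : ∀ u : Fin m → U, (Matrix.of fun a b => v (u b) a).det = 0) :
    ∃ c : Fin m → R, c ≠ 0 ∧ ∀ u, ∑ a, c a * v u a = 0 := by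
  classical
  let L := FractionRing R
  obtain ⟨s, hs⟩ : ∃ s : Set (Fin m → L), s = Set.range fun u a => algebraMap R L (v u a) :=
    ⟨_, rfl⟩
  by_cases htop : Submodule.span L s = ⊤
  · exfalso
    obtain ⟨f, hfs, -, hfi⟩ := Submodule.exists_fun_fin_finrank_span_eq L s
    have hr : Module.finrank L (Submodule.span L s) = m := by
      rw [htop, finrank_top, Module.finrank_fin_fun]
    let e : Fin m ≃ Fin (Module.finrank L (Submodule.span L s)) := finCongr hr.symm
    have hs' : ∀ x ∈ s, ∃ u, x = fun a => algebraMap R L (v u a) := by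
      intro x hx
      rw [hs] at hx
      obtain ⟨u, hu⟩ := hx
      exact ⟨u, hu.symm⟩
    have h1 : ∀ b, ∃ u, f (e b) = fun a => algebraMap R L (v u a) := fun b => hs' _ (hfs (e b))
    choose u hu using h1
    have h2 : LinearIndependent L (fun b => f (e b)) := hfi.comp e e.injective
    obtain ⟨A, hA⟩ : ∃ A : Matrix (Fin m) (Fin m) L, A = Matrix.of fun b => f (e b) := ⟨_, rfl⟩
    have h3 : LinearIndependent L A.row := by
      have : A.row = fun b => f (e b) := by rw [hA]; rfl
      rw [this]
      exact h2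
    have h4 := Matrix.linearIndependent_rows_iff_isUnit.1 h3
    rw [Matrix.isUnit_iff_isUnit_det] at h4
    apply h4.ne_zero
    have h5 : A = Matrix.transpose ((algebraMap R L).mapMatrix
        (Matrix.of fun a b => v (u b) a)) := by
      ext b a
      rw [hA, Matrix.of_apply, hu]
      rfl
    rw [h5, Matrix.det_transpose, ← RingHom.map_det, h u, map_zero]
  · obtain ⟨φ, hφ, hker⟩ := Submodule.exists_le_ker_of_lt_top _ (lt_top_iff_ne_top.2 htop)
    obtain ⟨c, hc⟩ : ∃ c : Fin m → L, ∀ a, c a = φ (Pi.single a 1) := ⟨_, fun _ => rfl⟩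
    have hφc : ∀ x : Fin m → L, φ x = ∑ a, x a * c a := by
      intro x
      conv_lhs => rw [← Finset.univ_sum_single x]
      rw [map_sum]
      refine Finset.sum_congr rfl fun a _ => ?_
      have h1 : (Pi.single a (x a) : Fin m → L) = x a • Pi.single a 1 := by
        rw [← Pi.single_smul, smul_eq_mul, mul_one]
      rw [h1, map_smul, smul_eq_mul, hc]
    obtain ⟨b, hb⟩ := IsLocalization.exist_integer_multiples_of_finite (nonZeroDivisors R) c
    choose d hd using hb
    have hb0 : algebraMap R L (b : R) ≠ 0 := by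
      have : (b : R) ≠ 0 := nonZeroDivisors.coe_ne_zero b
      exact fun h => this ((IsFractionRing.injective R L) (by rw [h, map_zero]))
    refine ⟨d, fun h0 => hφ ?_, fun u => ?_⟩
    · have h1 : c = 0 := by
        funext a
        have h2 := hd a
        rw [h0, Pi.zero_apply, map_zero, Algebra.smul_def] at h2
        exact (mul_eq_zero.1 h2.symm).resolve_left hb0
      refine LinearMap.ext fun x => ?_
      rw [hφc]
      simp [h1]
    · apply IsFractionRing.injective R L
      rw [map_sum, map_zero]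
      have h1 : φ (fun a => algebraMap R L (v u a)) = 0 := hker (Submodule.subset_span (by
        rw [hs]
        exact ⟨u, rfl⟩))
      rw [hφc] at h1
      have h2 : ∑ a, algebraMap R L (d a * v u a) =
          algebraMap R L (b : R) * ∑ a, algebraMap R L (v u a) * c a := by
        rw [Finset.mul_sum]
        refine Finset.sum_congr rfl fun a _ => ?_
        rw [map_mul, hd a, Algebra.smul_def]
        ring
      rw [h2, h1, mul_zero]

end

section

variable {k K ι : Type} [Field k] [Field K] [Algebra k K] [Fintype ι]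
  {F : IntermediateField k K} {D : ι → Derivation k K K} {w : ι → ℕ}

/-- **The Wronskian criterion.** -/
theorem exists_wronskian (hs : NilSys F D w) {m : ℕ} (E : Fin m → PowerSeries K)
    (hind : ∀ c : Fin m → K, (∀ a, c a ∈ F) → ∑ a, c a * coeff 0 (E a) = 0 → ∀ a, c a = 0) :
    ∃ u : Fin m → List ι, (Matrix.of fun a b => oph D (u b) (E a)).det ≠ 0 := by
  classical
  by_contra hcon
  push Not at hcon
  obtain ⟨c0, hc0, hc0u⟩ := exists_rel (fun (u : List ι) a => oph D u (E a)) hcon
  obtain ⟨N, hN⟩ : ∃ N : Set (Fin m → PowerSeries K), ∀ c, c ∈ N ↔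
      ∀ u : List ι, ∑ a, c a * oph D u (E a) = 0 := ⟨{c | _}, fun _ => Iff.rfl⟩
  obtain ⟨sp, hsp⟩ : ∃ sp : (Fin m → PowerSeries K) → Finset (Fin m),
      ∀ c a, a ∈ sp c ↔ c a ≠ 0 := ⟨fun c => Finset.univ.filter fun a => c a ≠ 0, by simp⟩
  -- minimal support
  obtain ⟨c, ⟨hcN, hc⟩, hmin⟩ : ∃ c, (c ∈ N ∧ c ≠ 0) ∧
      ∀ c', c' ∈ N → c' ≠ 0 → (sp c).card ≤ (sp c').card := by
    obtain ⟨n, hn⟩ : ∃ n, n = sInf ((fun c => (sp c).card) '' {c | c ∈ N ∧ c ≠ 0}) := ⟨_, rfl⟩
    have h1 : n ∈ (fun c => (sp c).card) '' {c | c ∈ N ∧ c ≠ 0} := by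
      rw [hn]
      exact Nat.sInf_mem ⟨_, c0, ⟨(hN _).2 hc0u, hc0⟩, rfl⟩
    obtain ⟨c, hc, hcn⟩ := h1
    refine ⟨c, hc, fun c' h2 h3 => ?_⟩
    change (sp c).card = n at hcn
    rw [hcn, hn]
    exact Nat.sInf_le ⟨c', ⟨h2, h3⟩, rfl⟩
  -- normalise
  have hne : (sp c).Nonempty := by
    obtain ⟨a, ha⟩ := Function.ne_iff.1 hc
    exact ⟨a, (hsp c a).2 ha⟩
  obtain ⟨a0, ha0, ha0min⟩ := Finset.exists_min_image (sp c) (fun a => (c a).order.toNat) hne
  obtain ⟨s, hs0⟩ : ∃ s, s = (c a0).order.toNat := ⟨_, rfl⟩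
  have hdvd : ∀ a, ∃ d, c a = X ^ s * d := by
    intro a
    by_cases ha : a ∈ sp c
    · have h1 := X_pow_order_dvd (φ := c a)
      exact (pow_dvd_pow X (by rw [hs0]; exact ha0min a ha)).trans h1
    · have h1 : c a = 0 := by
        by_contra h2
        exact ha ((hsp c a).2 h2)
      exact ⟨0, by rw [h1, mul_zero]⟩
  choose d hd using hdvd
  have hX : (X : PowerSeries K) ^ s ≠ 0 := pow_ne_zero _ X_ne_zero
  have hd0 : constantCoeff (d a0) ≠ 0 := by
    have h1 : coeff s (c a0) ≠ 0 := by
      rw [hs0]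
      exact coeff_order ((hsp c a0).1 ha0)
    rw [hd a0] at h1
    have h2 : coeff s (X ^ s * d a0) = coeff 0 (d a0) := by
      have := coeff_X_pow_mul (d a0) s 0
      rwa [zero_add] at this
    rwa [h2, coeff_zero_eq_constantCoeff_apply] at h1
  obtain ⟨e, he⟩ : ∃ e : Fin m → PowerSeries K, ∀ a, e a = (d a0)⁻¹ * d a := ⟨_, fun _ => rfl⟩
  have he1 : e a0 = 1 := by
    rw [he]
    exact PowerSeries.inv_mul_cancel _ hd0
  have hdN : d ∈ N := by
    rw [hN]
    intro u
    have h1 := (hN c).1 hcN u
    have h2 : ∑ a, c a * oph D u (E a) = X ^ s * ∑ a, d a * oph D u (E a) := by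
      rw [Finset.mul_sum]
      refine Finset.sum_congr rfl fun a _ => ?_
      rw [hd a, mul_assoc]
    rw [h2] at h1
    exact (mul_eq_zero.1 h1).resolve_left hX
  have heN : e ∈ N := by
    rw [hN]
    intro u
    have h1 := (hN d).1 hdN u
    have h2 : ∑ a, e a * oph D u (E a) = (d a0)⁻¹ * ∑ a, d a * oph D u (E a) := by
      rw [Finset.mul_sum]
      refine Finset.sum_congr rfl fun a _ => ?_
      rw [he a, mul_assoc]
    rw [h2, h1, mul_zero]
  -- the derivatives vanish
  have hder : ∀ i a, dh (D i) (e a) = 0 := by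
    intro i
    have h1 : (fun a => dh (D i) (e a)) ∈ N := by
      rw [hN]
      intro u
      have h2 := (hN e).1 heN u
      have h3 := congrArg (dh (D i)) h2
      rw [map_sum, map_zero] at h3
      have h4 := (hN e).1 heN (i :: u)
      have h5 : ∑ a, dh (D i) (e a * oph D u (E a)) = ∑ a, e a * oph D (i :: u) (E a) +
          ∑ a, dh (D i) (e a) * oph D u (E a) := by
        rw [← Finset.sum_add_distrib]
        refine Finset.sum_congr rfl fun a _ => ?_
        rw [dh_mul, oph_cons]
        ring
      rw [h5, h4, zero_add] at h3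
      exact h3
    by_contra hne'
    push Not at hne'
    obtain ⟨a1, ha1⟩ := hne'
    have h2 := hmin _ h1 (fun h0 => ha1 (congrFun h0 a1))
    have h3 : sp (fun a => dh (D i) (e a)) ⊂ sp c := by
      refine ⟨fun a ha => ?_, fun h4 => ?_⟩
      · rw [hsp] at ha
        by_contra h5
        have h6 : c a = 0 := by
          by_contra h7
          exact h5 ((hsp c a).2 h7)
        apply ha
        rw [hd a] at h6
        rw [he, (mul_eq_zero.1 h6).resolve_left hX, mul_zero, map_zero]
      · have h5 := (hsp _ _).1 (h4 ha0)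
        apply h5
        rw [he1]
        have h7 : CF F (1 : PowerSeries K) := by
          intro n
          rw [coeff_one]
          split_ifs
          · exact F.one_mem
          · exact F.zero_mem
        exact h7.dh (hs.kills i)
    exact absurd h2 (not_le.2 (Finset.card_lt_card h3))
  have heF : ∀ a n, coeff n (e a) ∈ F := by
    intro a n
    refine hs.const _ fun i => ?_
    rw [← coeff_dh, hder i a, map_zero]
  have h1 := congrArg (coeff 0) ((hN e).1 heN [])
  rw [map_sum, map_zero] at h1
  have h2 := hind (fun a => coeff 0 (e a)) (fun a => heF a 0) (by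
    rw [← h1]
    refine Finset.sum_congr rfl fun a _ => ?_
    rw [oph_nil, coeff_zero_eq_constantCoeff_apply, coeff_zero_eq_constantCoeff_apply,
      coeff_zero_eq_constantCoeff_apply, map_mul]) a0
  change coeff 0 (e a0) = 0 at h2
  rw [he1, coeff_zero_one] at h2
  exact one_ne_zero h2

end

end Pool.Agent.H892
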