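import Pool.Agent.H892.A4

/-!
Bounds for the coefficients of power series, and the Gauss argument.
-/

set_option autoImplicit false
set_option linter.unusedSectionVars false

open FF PowerSeries

namespace Pool.Agent.H892

section

variable {k K ι : Type} [Field k] [Field K] [Algebra k K] [Fintype ι]
  {F : IntermediateField k K} {D : ι → Derivation k K K} {w : ι → ℕ}

/-- `x` is zero or has order at least `C` -/
def Og (v : Place k K) (C : ℤ) (x : K) : Prop := x = 0 ∨ C ≤ v.ord x

theorem Og.mono {v : Place k K} {C C' : ℤ} (h : C' ≤ C) {x : K} (hx : Og v C x) : Og v C' x :=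
  hx.imp_right h.trans

theorem og_zero {v : Place k K} {C : ℤ} : Og v C 0 := Or.inl rfl

theorem Og.add {v : Place k K} {C : ℤ} {x y : K} (hx : Og v C x) (hy : Og v C y) :
    Og v C (x + y) := by
  by_cases h1 : x = 0
  · rwa [h1, zero_add]
  by_cases h2 : y = 0
  · rwa [h2, add_zero]
  by_cases h3 : x + y = 0
  · exact Or.inl h3
  · exact Or.inr ((le_min (hx.resolve_left h1) (hy.resolve_left h2)).trans (v.ord_add h1 h2 h3))

theorem Og.mul {v : Place k K} {C C' : ℤ} {x y : K} (hx : Og v C x) (hy : Og v C' y) :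
    Og v (C + C') (x * y) := by
  by_cases h1 : x = 0
  · left; rw [h1, zero_mul]
  by_cases h2 : y = 0
  · left; rw [h2, mul_zero]
  right
  rw [v.ord_mul h1 h2]
  exact add_le_add (hx.resolve_left h1) (hy.resolve_left h2)

theorem Og.neg {v : Place k K} {C : ℤ} {x : K} (hx : Og v C x) : Og v C (-x) := by
  rcases hx with h | h
  · left; rw [h, neg_zero]
  · right; rwa [v.ord_neg]

theorem og_sum {v : Place k K} {C : ℤ} {α : Type*} (s : Finset α) {x : α → K}
    (h : ∀ a ∈ s, Og v C (x a)) : Og v C (∑ a ∈ s, x a) := by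
  classical
  induction s using Finset.induction_on with
  | empty => rw [Finset.sum_empty]; exact og_zero
  | insert a s ha ih =>
    rw [Finset.sum_insert ha]
    exact (h a (Finset.mem_insert_self a s)).add (ih fun b hb => h b (Finset.mem_insert_of_mem hb))

/-- the coefficients are zero or have order at least `C` -/
def Bs (v : Place k K) (C : ℤ) (f : PowerSeries K) : Prop := ∀ n, Og v C (coeff n f)

theorem Bs.add {v : Place k K} {C : ℤ} {f g : PowerSeries K} (hf : Bs v C f) (hg : Bs v C g) :
    Bs v C (f + g) := fun n => by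
  rw [map_add]
  exact (hf n).add (hg n)

theorem Bs.neg {v : Place k K} {C : ℤ} {f : PowerSeries K} (hf : Bs v C f) :
    Bs v C (-f) := fun n => by
  rw [map_neg]
  exact (hf n).neg

theorem bs_sum {v : Place k K} {C : ℤ} {α : Type*} (s : Finset α) {f : α → PowerSeries K}
    (h : ∀ a ∈ s, Bs v C (f a)) : Bs v C (∑ a ∈ s, f a) := fun n => by
  rw [map_sum]
  exact og_sum s fun a ha => h a ha n

theorem Bs.mul {v : Place k K} {C C' : ℤ} {f g : PowerSeries K} (hf : Bs v C f)
    (hg : Bs v C' g) : Bs v (C + C') (f * g) := fun n => by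
  rw [coeff_mul]
  exact og_sum _ fun p _ => (hf _).mul (hg _)

theorem bs_one (v : Place k K) : Bs v 0 (1 : PowerSeries K) := fun n => by
  rw [coeff_one]
  split_ifs
  · right; rw [v.ord_one]
  · exact og_zero

theorem bs_prod {v : Place k K} {C : ℤ} {α : Type*} (s : Finset α) {f : α → PowerSeries K}
    (h : ∀ a ∈ s, Bs v C (f a)) : Bs v (s.card * C) (∏ a ∈ s, f a) := by
  classical
  induction s using Finset.induction_on with
  | empty =>
    rw [Finset.prod_empty, Finset.card_empty, Nat.cast_zero, zero_mul]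
    exact bs_one v
  | insert a s ha ih =>
    rw [Finset.prod_insert ha, Finset.card_insert_of_notMem ha]
    have h1 := (h a (Finset.mem_insert_self a s)).mul
      (ih fun b hb => h b (Finset.mem_insert_of_mem hb))
    have h2 : ((s.card + 1 : ℕ) : ℤ) * C = C + s.card * C := by push_cast; ring
    rw [h2]
    exact h1

theorem bs_det {v : Place k K} {C : ℤ} {m : ℕ} (A : Matrix (Fin m) (Fin m) (PowerSeries K))
    (h : ∀ a b, Bs v C (A a b)) : Bs v (m * C) A.det := by
  rw [Matrix.det_apply]
  refine bs_sum _ fun σ _ => ?_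
  have h1 : Bs v (m * C) (∏ i, A (σ i) i) := by
    have := bs_prod (v := v) (C := C) Finset.univ (f := fun i => A (σ i) i) fun i _ => h _ _
    rwa [Finset.card_univ, Fintype.card_fin] at this
  rcases Int.units_eq_one_or (Equiv.Perm.sign σ) with h2 | h2
  · rw [h2, one_smul]
    exact h1
  · rw [h2, Units.neg_smul, one_smul]
    exact h1.neg

/-- power series with nilpotent coefficients -/
def nilSer (D : ι → Derivation k K K) : Subring (PowerSeries K) where
  carrier := {f | ∀ n, Nilp D (coeff n f)}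
  mul_mem' := fun {f g} hf hg n => by
    rw [coeff_mul]
    exact (nilRing D).sum_mem fun p _ => (hf _).mul (hg _)
  one_mem' := fun n => by
    rw [coeff_one]
    split_ifs
    · exact nilp_one
    · exact nilp_zero
  add_mem' := fun {f g} hf hg n => by
    rw [map_add]
    exact (hf n).add (hg n)
  zero_mem' := fun n => by
    rw [map_zero]
    exact nilp_zero
  neg_mem' := fun {f} hf n => by
    rw [map_neg]
    exact (hf n).neg

theorem nilSer_det {m : ℕ} (A : Matrix (Fin m) (Fin m) (PowerSeries K))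
    (h : ∀ a b, A a b ∈ nilSer D) : A.det ∈ nilSer D := by
  rw [Matrix.det_apply]
  refine (nilSer D).sum_mem fun σ _ => ?_
  have h1 : ∏ i, A (σ i) i ∈ nilSer D := (nilSer D).prod_mem fun i _ => h _ _
  rcases Int.units_eq_one_or (Equiv.Perm.sign σ) with h2 | h2
  · rw [h2, one_smul]
    exact h1
  · rw [h2, Units.neg_smul, one_smul]
    exact (nilSer D).neg_mem h1

/-- the first coefficient of minimal order -/
theorem first_min (v : Place k K) {C : ℤ} {f : PowerSeries K} (hf : Bs v C f) (h0 : f ≠ 0) :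
    ∃ n, coeff n f ≠ 0 ∧ (∀ n', Og v (v.ord (coeff n f)) (coeff n' f)) ∧
      ∀ n' < n, Og v (v.ord (coeff n f) + 1) (coeff n' f) := by
  classical
  obtain ⟨n1, hn1⟩ : ∃ n, coeff n f ≠ 0 := by
    by_contra hcon
    push Not at hcon
    exact h0 (by ext n; rw [hcon n, map_zero])
  obtain ⟨S, hS⟩ : ∃ S : Set ℕ,
      S = {z : ℕ | ∃ n, coeff n f ≠ 0 ∧ v.ord (coeff n f) = C + z} :=
    ⟨_, rfl⟩
  have hin : ∀ n, coeff n f ≠ 0 → (v.ord (coeff n f) - C).toNat ∈ S := by
    intro n hn
    have h1 := (hf n).resolve_left hn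
    rw [hS]
    exact ⟨n, hn, by rw [Int.toNat_of_nonneg (by omega)]; ring⟩
  have hne : S.Nonempty := ⟨_, hin n1 hn1⟩
  have hz0 := Nat.sInf_mem hne
  have hz1 : ∀ z ∈ S, sInf S ≤ z := fun z hz => Nat.sInf_le hz
  obtain ⟨z0, hz⟩ : ∃ z0, z0 = sInf S := ⟨_, rfl⟩
  rw [← hz] at hz0 hz1
  have hex : ∃ n, coeff n f ≠ 0 ∧ v.ord (coeff n f) = C + z0 := by
    rw [hS] at hz0
    exact hz0
  obtain ⟨hn0, hnv⟩ := Nat.find_spec hex
  refine ⟨Nat.find hex, hn0, fun n' => ?_, fun n' hn' => ?_⟩
  · by_cases h1 : coeff n' f = 0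
    · exact Or.inl h1
    · right
      rw [hnv]
      have h2 := hz1 _ (hin n' h1)
      have h3 := (hf n').resolve_left h1
      omega
  · by_cases h1 : coeff n' f = 0
    · exact Or.inl h1
    · right
      rw [hnv]
      have h2 := hz1 _ (hin n' h1)
      have h3 := (hf n').resolve_left h1
      have h4 := Nat.find_min hex hn'
      push Not at h4
      have h5 := h4 h1
      omega

/-- the Euler operator -/
noncomputable def eul : PowerSeries K →+ PowerSeries K where
  toFun f := PowerSeries.mk fun n => (n : K) * coeff n f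
  map_zero' := by
    ext n
    rw [coeff_mk, map_zero, mul_zero]
  map_add' f g := by
    ext n
    rw [coeff_mk, map_add, map_add, coeff_mk, coeff_mk, mul_add]

theorem coeff_eul (f : PowerSeries K) (n : ℕ) : coeff n (eul f) = n * coeff n f := by
  change coeff n (PowerSeries.mk fun n => (n : K) * coeff n f) = _
  rw [coeff_mk]

theorem eul_mul (f g : PowerSeries K) : eul (f * g) = f * eul g + g * eul f := by
  ext n
  rw [coeff_eul, map_add, mul_comm g, coeff_mul, coeff_mul, coeff_mul, Finset.mul_sum,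
    ← Finset.sum_add_distrib]
  refine Finset.sum_congr rfl fun p hp => ?_
  rw [Finset.HasAntidiagonal.mem_antidiagonal] at hp
  rw [coeff_eul, coeff_eul, ← hp]
  push_cast
  ring

theorem CF.eul {f : PowerSeries K} (hf : CF F f) : CF F (eul f) := fun n => by
  rw [coeff_eul]
  exact F.mul_mem (by exact_mod_cast F.natCast_mem n) (hf n)

theorem dh_eul (E : Derivation k K K) (f : PowerSeries K) : dh E (eul f) = eul (dh E f) := by
  ext n
  rw [coeff_dh, coeff_eul, coeff_eul, coeff_dh, E.leibniz, Derivation.map_natCast, smul_zero,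
    add_zero, smul_eq_mul]

/-- **The Gauss argument.** -/
theorem gauss [CharZero k] (v : Place k K) {C C' : ℤ} {f g : PowerSeries K} (hf : Bs v C f)
    (hg : Bs v C' g) (hf0 : f ≠ 0) (h : eul f = g * f) : Bs v 0 g := by
  classical
  by_cases hg0 : g = 0
  · rw [hg0]
    exact fun n => by rw [map_zero]; exact og_zero
  obtain ⟨n0, hn0, hn1, hn2⟩ := first_min v hf hf0
  obtain ⟨m0, hm0, hm1, hm2⟩ := first_min v hg hg0
  obtain ⟨a, ha⟩ : ∃ a, a = v.ord (coeff m0 g) := ⟨_, rfl⟩
  obtain ⟨b, hb⟩ : ∃ b, b = v.ord (coeff n0 f) := ⟨_, rfl⟩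
  rw [← hb] at hn1 hn2
  rw [← ha] at hm1 hm2
  suffices 0 ≤ a from fun n => (hm1 n).mono this
  have h1 : coeff (m0 + n0) (g * f) = coeff m0 g * coeff n0 f +
      ∑ p ∈ (Finset.HasAntidiagonal.antidiagonal (m0 + n0)).erase (m0, n0), coeff p.1 g * coeff p.2 f := by
    have h2 : ((m0, n0) : ℕ × ℕ) ∈ Finset.HasAntidiagonal.antidiagonal (m0 + n0) :=
      Finset.HasAntidiagonal.mem_antidiagonal.2 rfl
    rw [coeff_mul]
    exact (Finset.add_sum_erase _ (fun p : ℕ × ℕ => coeff p.1 g * coeff p.2 f) h2).symm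
  have h2 : Og v (a + b + 1) (∑ p ∈ (Finset.HasAntidiagonal.antidiagonal (m0 + n0)).erase (m0, n0),
      coeff p.1 g * coeff p.2 f) := by
    refine og_sum _ fun p hp => ?_
    rw [Finset.mem_erase, Finset.HasAntidiagonal.mem_antidiagonal] at hp
    rcases lt_trichotomy p.1 m0 with h3 | h3 | h3
    · have := (hm2 _ h3).mul (hn1 p.2)
      refine this.mono (le_of_eq (by ring))
    · exfalso
      apply hp.1
      ext
      · exact h3
      · have h4 := hp.2
        rw [h3] at h4
        exact Nat.add_left_cancel h4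
    · have h4 : p.2 < n0 := by omega
      have := (hm1 p.1).mul (hn2 _ h4)
      refine this.mono (le_of_eq (by ring))
  have h3 : coeff m0 g * coeff n0 f ≠ 0 := mul_ne_zero hm0 hn0
  have h4 : v.ord (coeff m0 g * coeff n0 f) = a + b := by rw [v.ord_mul hm0 hn0, ← ha, ← hb]
  have h5 : coeff (m0 + n0) (g * f) ≠ 0 ∧ v.ord (coeff (m0 + n0) (g * f)) = a + b := by
    rw [h1]
    rcases h2 with h2 | h2
    · rw [h2, add_zero]
      exact ⟨h3, h4⟩
    · by_cases h6 : (∑ p ∈ (Finset.HasAntidiagonal.antidiagonal (m0 + n0)).erase (m0, n0),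
        coeff p.1 g * coeff p.2 f) = 0
      · rw [h6, add_zero]
        exact ⟨h3, h4⟩
      · have := v.ord_add_eq h3 h6 (by omega)
        rw [h4] at this
        exact this
  rw [← h, coeff_eul] at h5
  obtain ⟨h6, h7⟩ := h5
  have h8 : ((m0 + n0 : ℕ) : K) ≠ 0 := left_ne_zero_of_mul h6
  have h9 : coeff (m0 + n0) f ≠ 0 := right_ne_zero_of_mul h6
  have h10 : v.ord ((m0 + n0 : ℕ) : K) = 0 := by
    have h11 : ((m0 + n0 : ℕ) : k) ≠ 0 := by
      intro h12
      apply h8
      have := congrArg (algebraMap k K) h12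
      rwa [map_natCast, map_zero] at this
    have := v.ord_const h11
    rwa [map_natCast] at this
  rw [v.ord_mul h8 h9, h10, zero_add] at h7
  have h11 := (hn1 (m0 + n0)).resolve_left h9
  omega

/-- the valuations are bounded below on finite dimensional spaces -/
theorem bdd_fd (v : Place k K) (hv : ∀ f ∈ F, f ≠ 0 → v.ord f = 0) (Y : Submodule F K)
    (hY : Y.FG) : ∃ C : ℤ, ∀ x ∈ Y, Og v C x := by
  classical
  obtain ⟨T, rfl⟩ := hY
  refine ⟨-∑ t ∈ T, |v.ord t|, fun x hx => ?_⟩
  induction hx using Submodule.span_induction with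
  | mem x hx =>
    right
    have h1 : |v.ord x| ≤ ∑ t ∈ T, |v.ord t| :=
      Finset.single_le_sum (f := fun t => |v.ord t|) (fun _ _ => abs_nonneg _) hx
    have h2 := neg_abs_le (v.ord x)
    omega
  | zero => exact og_zero
  | add x y _ _ h h' => exact h.add h'
  | smul a x _ h =>
    by_cases ha : (a : K) = 0
    · left
      rw [Algebra.smul_def]
      change (a : K) * x = 0
      rw [ha, zero_mul]
    · have h1 : Og v 0 (a : K) := Or.inr (hv _ a.2 ha).ge
      have h2 := h1.mul h
      rw [zero_add] at h2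
      rw [Algebra.smul_def]
      exact h2

end

end Pool.Agent.H892
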