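import Pool.Agent.H892.A5

/-!
The main theorem on nilpotent systems of derivations: an infinite dimensional invariant subspace of
nilpotent elements has an additive quasi-invariant without poles where the subspace has bounded
poles.
-/

set_option autoImplicit false
set_option linter.unusedSectionVars false

open FF PowerSeries

namespace Pool.Agent.H892

section

variable {k K ι : Type} [Field k] [Field K] [Algebra k K] [Fintype ι]
  {F : IntermediateField k K} {D : ι → Derivation k K K} {w : ι → ℕ}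

/-- expansion with respect to finitely many series -/
theorem exists_coeffs {m : ℕ} {𝓔 : Set (PowerSeries K)} {E : Fin m → PowerSeries K}
    (hstep : ∀ f ∈ 𝓔, ∃ c : Fin m → K, (∀ a, c a ∈ F) ∧ ∃ f' ∈ 𝓔,
      f = ∑ a, C (c a) * E a + X * f') (f : PowerSeries K) (hf : f ∈ 𝓔) :
    ∃ c : Fin m → PowerSeries K, (∀ a, CF F (c a)) ∧ f = ∑ a, c a * E a := by
  classical
  choose c hcF g hg hfg using hstep
  let sq : ℕ → {f // f ∈ 𝓔} := fun n => Nat.rec ⟨f, hf⟩ (fun _ x => ⟨g x.1 x.2, hg x.1 x.2⟩) n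
  have hsq0 : sq 0 = ⟨f, hf⟩ := rfl
  have hsq1 : ∀ n, sq (n + 1) = ⟨g (sq n).1 (sq n).2, hg (sq n).1 (sq n).2⟩ := fun n => rfl
  obtain ⟨e, he⟩ : ∃ e : ℕ → Fin m → K, ∀ n a, e n a = c (sq n).1 (sq n).2 a := ⟨_, fun _ _ => rfl⟩
  have hstep : ∀ n, (sq n).1 = ∑ a, C (e n a) * E a + X * (sq (n + 1)).1 := by
    intro n
    rw [hsq1]
    simp only [he]
    exact hfg _ _
  have hexp : ∀ n, f = ∑ i ∈ Finset.range n, X ^ i * ∑ a, C (e i a) * E a + X ^ n * (sq n).1 := by
    intro n
    induction n with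
    | zero => rw [Finset.sum_range_zero, pow_zero, one_mul, zero_add, hsq0]
    | succ n ih =>
      rw [Finset.sum_range_succ, pow_succ, add_assoc, mul_assoc, ← mul_add, ← hstep]
      exact ih
  refine ⟨fun a => PowerSeries.mk fun n => e n a, fun a n => ?_, ?_⟩
  · rw [coeff_mk, he]
    exact hcF _ _ _
  · ext n
    conv_lhs => rw [hexp (n + 1)]
    rw [map_add, coeff_X_pow_mul', if_neg (by omega), add_zero, map_sum, map_sum]
    have h1 : ∀ a, coeff n ((PowerSeries.mk fun n => e n a) * E a) =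
        ∑ i ∈ Finset.range (n + 1), e i a * coeff (n - i) (E a) := by
      intro a
      rw [coeff_mul, Finset.Nat.sum_antidiagonal_eq_sum_range_succ_mk]
      refine Finset.sum_congr rfl fun i _ => ?_
      rw [coeff_mk]
    rw [Finset.sum_congr rfl fun a _ => h1 a, Finset.sum_comm]
    refine Finset.sum_congr rfl fun i hi => ?_
    rw [Finset.mem_range] at hi
    rw [coeff_X_pow_mul', if_pos (by omega), map_sum]
    refine Finset.sum_congr rfl fun a _ => ?_
    rw [coeff_C_mul]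

theorem c0mul (f g : PowerSeries K) : coeff 0 (f * g) = coeff 0 f * coeff 0 g := by
  rw [coeff_zero_eq_constantCoeff_apply, coeff_zero_eq_constantCoeff_apply,
    coeff_zero_eq_constantCoeff_apply, map_mul]

/-- a nilpotent semi-invariant is an invariant -/
theorem semi_nilp {i : ι} {t : K} (ht : D i t = 0) :
    ∀ (n : ℕ) (x : K), Kil D n x → x ≠ 0 → D i x = t * x → t = 0 := by
  intro n
  induction n with
  | zero => exact fun x h h0 _ => absurd h h0
  | succ n ih =>
    intro x hx hx0 h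
    by_cases h1 : D i x = 0
    · rw [h1] at h
      exact (mul_eq_zero.1 h.symm).resolve_right hx0
    · refine ih (D i x) (hx i) h1 ?_
      conv_lhs => rw [h]
      rw [(D i).leibniz, ht, smul_zero, add_zero, smul_eq_mul]

/-- the quasi-invariants form a finite dimensional space -/
theorem quasi_fg (hs : NilSys F D w) (Y : Submodule F K) (hY : ∀ x ∈ Y, ∀ i, D i x ∈ F) :
    Y.FG := by
  classical
  let f : K →ₗ[F] (ι → K) := LinearMap.pi fun i => dlin (D i) (hs.kills i)
  refine Submodule.fg_of_fg_map_of_fg_inf_ker f ?_ ?_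
  · let g : (ι → F) →ₗ[F] (ι → K) := LinearMap.pi fun i =>
      (Algebra.linearMap F K).comp (LinearMap.proj i)
    have h1 : Y.map f ≤ LinearMap.range g := by
      rintro _ ⟨x, hx, rfl⟩
      refine ⟨fun i => ⟨D i x, hY x hx i⟩, ?_⟩
      funext i
      rfl
    have h2 : FiniteDimensional F (LinearMap.range g) := inferInstance
    have h3 := Submodule.finiteDimensional_of_le h1
    exact Module.Finite.iff_fg.1 h3
  · have h1 : Y ⊓ LinearMap.ker f ≤ Submodule.span F {(1 : K)} := by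
      rintro x ⟨-, hx⟩
      have h2 : x ∈ F := hs.const x fun i => congrFun (show f x = 0 from hx) i
      rw [Submodule.mem_span_singleton]
      exact ⟨⟨x, h2⟩, by rw [Algebra.smul_def, mul_one]; rfl⟩
    exact Module.Finite.iff_fg.1 (Submodule.finiteDimensional_of_le h1)

/-- **Theorem E.** -/
theorem thmE [CharZero k] (hs : NilSys F D w) (W : Submodule F K)
    (hst : ∀ i, ∀ x ∈ W, D i x ∈ W) (hnil : ∀ x ∈ W, Nilp D x) (hinf : ¬ FiniteDimensional F W) :
    ∃ l : K, l ∉ F ∧ (∀ i, D i l ∈ F) ∧ ∀ v : Place k K, (∀ f ∈ F, f ≠ 0 → v.ord f = 0) →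
      (∃ C : ℤ, ∀ x ∈ W, Og v C x) → v.Reg l := by
  classical
  obtain ⟨W', hW'W, hst', j, hcom, hsurj, hfd, x0, hx0W, hx00, hx0D⟩ := exists_surj hs W hst hnil
    hinf
  obtain ⟨B, hB⟩ : ∃ B : Submodule F K, B = W' ⊓ LinearMap.ker (dlin (D j) (hs.kills j)) :=
    ⟨_, rfl⟩
  have hBmem : ∀ x, x ∈ B ↔ x ∈ W' ∧ D j x = 0 := by
    intro x
    rw [hB, Submodule.mem_inf, LinearMap.mem_ker, dlin_apply]
  rw [← hB] at hfd
  obtain ⟨m, hm⟩ : ∃ m, m = Module.finrank F B := ⟨_, rfl⟩
  let b : Module.Basis (Fin m) F B := (Module.finBasis F B).reindex (finCongr hm.symm)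
  have hm0 : m ≠ 0 := by
    intro h0
    rw [hm] at h0
    have h1 : B = ⊥ := Submodule.finrank_eq_zero.1 h0
    have h2 : x0 ∈ B := (hBmem x0).2 ⟨hx0W, hx0D⟩
    rw [h1, Submodule.mem_bot] at h2
    exact hx00 h2
  -- the series
  choose up hupW hup using hsurj
  let sq : Fin m → ℕ → {x // x ∈ W'} := fun a n =>
    Nat.rec ⟨(b a : K), ((hBmem _).1 (b a).2).1⟩ (fun _ x => ⟨up x.1 x.2, hupW x.1 x.2⟩) n
  obtain ⟨E, hE⟩ : ∃ E : Fin m → PowerSeries K, ∀ a n, coeff n (E a) = (sq a n).1 :=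
    ⟨fun a => PowerSeries.mk fun n => (sq a n).1, fun a n => by rw [coeff_mk]⟩
  have hEW : ∀ a n, coeff n (E a) ∈ W' := fun a n => by rw [hE]; exact (sq a n).2
  have hE0 : ∀ a, coeff 0 (E a) = b a := fun a => by
    rw [hE]
    rfl
  have hED : ∀ a, dh (D j) (E a) = X * E a := by
    intro a
    ext n
    rw [coeff_dh]
    rcases n with - | n
    · rw [hE0, coeff_zero_X_mul]
      exact ((hBmem _).1 (b a).2).2
    · rw [coeff_succ_X_mul, hE, hE]
      exact hup _ _
  obtain ⟨𝓔, h𝓔⟩ : ∃ 𝓔 : Set (PowerSeries K), ∀ f, f ∈ 𝓔 ↔ (∀ n, coeff n f ∈ W') ∧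
      dh (D j) f = X * f := ⟨{f | _}, fun _ => Iff.rfl⟩
  have hstep : ∀ f ∈ 𝓔, ∃ c : Fin m → K, (∀ a, c a ∈ F) ∧ ∃ f' ∈ 𝓔,
      f = ∑ a, C (c a) * E a + X * f' := by
    intro f hf
    obtain ⟨hfW, hfD⟩ := (h𝓔 f).1 hf
    have h1 : coeff 0 f ∈ B := by
      rw [hBmem]
      refine ⟨hfW 0, ?_⟩
      rw [← coeff_dh, hfD, coeff_zero_X_mul]
    obtain ⟨c, hc⟩ : ∃ c : Fin m → F, c = b.repr ⟨_, h1⟩ := ⟨_, rfl⟩
    have h2 : ∑ a, (c a : K) * (b a : K) = coeff 0 f := by
      have h3 := b.sum_repr ⟨_, h1⟩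
      have h4 : ((∑ i, b.repr ⟨_, h1⟩ i • b i : B) : K) = coeff 0 f := congrArg Subtype.val h3
      refine Eq.trans ?_ h4
      rw [AddSubmonoidClass.coe_finsetSum]
      refine Finset.sum_congr rfl fun a _ => ?_
      rw [hc]
      rfl
    have h3 : coeff 0 (f - ∑ a, C (c a : K) * E a) = 0 := by
      rw [map_sub, map_sum, ← h2, sub_eq_zero]
      refine Finset.sum_congr rfl fun a _ => ?_
      rw [coeff_C_mul, hE0]
    rw [coeff_zero_eq_constantCoeff_apply] at h3
    obtain ⟨f', hf'⟩ := X_dvd_iff.2 h3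
    refine ⟨fun a => c a, fun a => (c a).2, f', (h𝓔 f').2 ⟨fun n => ?_, ?_⟩, ?_⟩
    · have h4 : coeff n f' = coeff (n + 1) (f - ∑ a, C (c a : K) * E a) := by
        rw [hf', coeff_succ_X_mul]
      rw [h4, map_sub, map_sum]
      refine W'.sub_mem (hfW _) (W'.sum_mem fun a _ => ?_)
      rw [coeff_C_mul]
      exact W'.smul_mem (c a) (hEW a _)
    · have h4 : dh (D j) (f - ∑ a, C (c a : K) * E a) = X * (f - ∑ a, C (c a : K) * E a) := by
        rw [map_sub, map_sum, hfD, mul_sub, Finset.mul_sum]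
        congr 1
        refine Finset.sum_congr rfl fun a _ => ?_
        have h5 : CF F (C (c a : K) : PowerSeries K) := by
          intro n
          rw [coeff_C]
          split_ifs
          · exact (c a).2
          · exact F.zero_mem
        rw [dh_smul (hs.kills j) h5, hED]
        ring
      rw [hf'] at h4
      have h5 : CF F (X : PowerSeries K) := by
        intro n
        rw [coeff_X]
        split_ifs
        · exact F.one_mem
        · exact F.zero_mem
      rw [dh_smul (hs.kills j) h5] at h4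
      exact mul_left_cancel₀ X_ne_zero h4
    · rw [← hf']
      ring
  -- the matrices
  have hM : ∀ i, ∃ M : Matrix (Fin m) (Fin m) (PowerSeries K), (∀ a c, CF F (M a c)) ∧
      ∀ a, dh (D i) (E a) = ∑ c, M a c * E c := by
    intro i
    have h1 : ∀ a, ∃ c : Fin m → PowerSeries K, (∀ b, CF F (c b)) ∧
        dh (D i) (E a) = ∑ b, c b * E b := by
      intro a
      refine exists_coeffs hstep _ ((h𝓔 _).2 ⟨fun n => ?_, ?_⟩)
      · rw [coeff_dh]
        exact hst' i _ (hEW a n)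
      · ext n
        rw [coeff_dh, coeff_dh, ← hcom i _ (hEW a n), ← coeff_dh, hED]
        rcases n with - | n
        · rw [coeff_zero_X_mul, coeff_zero_X_mul, map_zero]
        · rw [coeff_succ_X_mul, coeff_succ_X_mul, coeff_dh]
    choose M hM1 hM2 using h1
    exact ⟨Matrix.of M, fun a c => hM1 a c, fun a => hM2 a⟩
  choose M hMF hME using hM
  -- the determinant
  obtain ⟨u, hu, hmin⟩ : ∃ u : Fin m → List ι,
      (Matrix.of fun a b => oph D (u b) (E a)).det ≠ 0 ∧ ∀ v : Fin m → List ι,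
      ∑ b, wt w (v b) < ∑ b, wt w (u b) → (Matrix.of fun a b => oph D (v b) (E a)).det = 0 := by
    obtain ⟨u0, hu0⟩ := exists_wronskian hs E (by
      intro c hcF hc a
      have h1 : LinearIndependent F fun a => (b a : K) := by
        have := b.linearIndependent
        exact this.map' B.subtype (by simp)
      have h2 := Fintype.linearIndependent_iff.1 h1 (fun a => ⟨c a, hcF a⟩) (by
        rw [← hc]
        refine Finset.sum_congr rfl fun a _ => ?_
        rw [hE0]
        rfl) a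
      exact congrArg Subtype.val h2)
    obtain ⟨n, hn⟩ : ∃ n, n = sInf {n : ℕ | ∃ u : Fin m → List ι,
      (Matrix.of fun a b => oph D (u b) (E a)).det ≠ 0 ∧ ∑ b, wt w (u b) = n} := ⟨_, rfl⟩
    have h1 : n ∈ {n : ℕ | ∃ u : Fin m → List ι,
      (Matrix.of fun a b => oph D (u b) (E a)).det ≠ 0 ∧ ∑ b, wt w (u b) = n} := by
      rw [hn]
      exact Nat.sInf_mem ⟨_, u0, hu0, rfl⟩
    obtain ⟨u, hu, hun⟩ := h1
    refine ⟨u, hu, fun v hv => ?_⟩
    by_contra hcon
    have h2 : n ≤ ∑ b, wt w (v b) := by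
      rw [hn]
      exact Nat.sInf_le ⟨v, hcon, rfl⟩
    omega
  obtain ⟨Δ, hΔ⟩ : ∃ Δ, Δ = (Matrix.of fun a b => oph D (u b) (E a)).det := ⟨_, rfl⟩
  rw [← hΔ] at hu
  have hτ : ∀ i, dh (D i) Δ = (M i).trace * Δ := by
    intro i
    rw [hΔ]
    exact semi_det hs E u hmin i (M i) (hMF i) (hME i)
  have hτF : ∀ i, CF F (M i).trace := fun i => CF.sum _ fun a _ => hMF i a a
  have hτj : dh (D j) Δ = (m : PowerSeries K) * X * Δ := by
    have h1 := semi_det hs E u hmin j (Matrix.diagonal fun _ => X) (fun a c => by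
      intro n
      rw [Matrix.diagonal_apply]
      split_ifs
      · rw [coeff_X]
        split_ifs
        · exact F.one_mem
        · exact F.zero_mem
      · rw [map_zero]
        exact F.zero_mem) (fun a => by
      rw [hED, Finset.sum_eq_single a]
      · rw [Matrix.diagonal_apply_eq]
      · intro c _ hc
        rw [Matrix.diagonal_apply_ne _ hc.symm, zero_mul]
      · intro h
        exact absurd (Finset.mem_univ a) h)
    rw [← hΔ, Matrix.trace_diagonal, Finset.sum_const, Finset.card_univ, Fintype.card_fin,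
      nsmul_eq_mul] at h1
    exact h1
  -- words
  have hophW : ∀ (u : List ι) (a : Fin m) (n : ℕ), coeff n (oph D u (E a)) ∈ W' := by
    intro u a
    induction u with
    | nil => exact fun n => hEW a n
    | cons i u ih =>
      intro n
      rw [oph_cons, coeff_dh]
      exact hst' i _ (ih n)
  have hΔnil : Δ ∈ nilSer D := by
    rw [hΔ]
    exact nilSer_det _ fun a b n => hnil _ (hW'W (hophW (u b) a n))
  have hΔv : ∀ v : Place k K, (∃ C : ℤ, ∀ x ∈ W, Og v C x) → ∃ C, Bs v C Δ := by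
    rintro v ⟨C, hC⟩
    refine ⟨m * C, ?_⟩
    rw [hΔ]
    exact bs_det _ fun a b n => hC _ (hW'W (hophW (u b) a n))
  -- normalisation
  obtain ⟨Γ, hΓ⟩ := X_pow_order_dvd (φ := Δ)
  obtain ⟨q, hq⟩ : ∃ q, q = Δ.order.toNat := ⟨_, rfl⟩
  rw [← hq] at hΓ
  have hΓn : ∀ n, coeff n Γ = coeff (n + q) Δ := by
    intro n
    rw [hΓ, coeff_X_pow_mul]
  have hδ : coeff 0 Γ ≠ 0 := by
    rw [hΓn, zero_add, hq]
    exact coeff_order hu
  obtain ⟨δ, hδd⟩ : ∃ δ, δ = coeff 0 Γ := ⟨_, rfl⟩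
  rw [← hδd] at hδ
  have hXq : CF F ((X : PowerSeries K) ^ q) := by
    intro n
    rw [coeff_X_pow]
    split_ifs
    · exact F.one_mem
    · exact F.zero_mem
  have hXq0 : (X : PowerSeries K) ^ q ≠ 0 := pow_ne_zero _ X_ne_zero
  have hΓτ : ∀ i (τ : PowerSeries K), dh (D i) Δ = τ * Δ → dh (D i) Γ = τ * Γ := by
    intro i τ h
    rw [hΓ, dh_smul (hs.kills i) hXq] at h
    refine mul_left_cancel₀ hXq0 ?_
    rw [h]
    ring
  have hδnil : Nilp D δ := by
    rw [hδd, hΓn]
    exact hΔnil _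
  have hτ0 : ∀ i, coeff 0 (M i).trace = 0 := by
    intro i
    have h1 := congrArg (coeff 0) (hΓτ i _ (hτ i))
    rw [coeff_dh, c0mul, ← hδd] at h1
    obtain ⟨n, hn⟩ := hδnil
    exact semi_nilp (hs.kills i _ (hτF i 0)) n δ hn hδ h1
  have hδF : δ ∈ F := by
    refine hs.const δ fun i => ?_
    have h1 := congrArg (coeff 0) (hΓτ i _ (hτ i))
    rw [coeff_dh, c0mul, ← hδd, hτ0, zero_mul] at h1
    exact h1
  obtain ⟨Λ, hΛ⟩ : ∃ Λ : PowerSeries K, Λ = C δ⁻¹ * Γ := ⟨_, rfl⟩
  have hCF : CF F (C δ⁻¹ : PowerSeries K) := by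
    intro n
    rw [coeff_C]
    split_ifs
    · exact F.inv_mem hδF
    · exact F.zero_mem
  have hΛτ : ∀ i (τ : PowerSeries K), dh (D i) Δ = τ * Δ → dh (D i) Λ = τ * Λ := by
    intro i τ h
    rw [hΛ, dh_smul (hs.kills i) hCF, hΓτ i τ h]
    ring
  have hΛ0 : coeff 0 Λ = 1 := by
    rw [hΛ, coeff_C_mul, ← hδd, inv_mul_cancel₀ hδ]
  have hΛne : Λ ≠ 0 := by
    intro h
    rw [h, map_zero] at hΛ0
    exact zero_ne_one hΛ0
  have hΛc : constantCoeff Λ ≠ 0 := by
    rw [← coeff_zero_eq_constantCoeff_apply, hΛ0]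
    exact one_ne_zero
  obtain ⟨γ, hγ⟩ : ∃ γ : PowerSeries K, γ = eul Λ * Λ⁻¹ := ⟨_, rfl⟩
  have hγΛ : eul Λ = γ * Λ := by
    rw [hγ, mul_assoc, PowerSeries.inv_mul_cancel _ hΛc, mul_one]
  have hγD : ∀ i, dh (D i) γ = eul (M i).trace := by
    intro i
    refine mul_right_cancel₀ hΛne ?_
    have h1 := congrArg (dh (D i)) hγΛ
    rw [dh_eul, hΛτ i _ (hτ i), eul_mul, dh_mul, hΛτ i _ (hτ i), hγΛ] at h1
    have h2 : Λ * dh (D i) γ = Λ * eul (M i).trace := by
      have h3 : γ * ((M i).trace * Λ) + Λ * dh (D i) γ =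
        γ * ((M i).trace * Λ) + Λ * eul (M i).trace := by
        rw [← h1]
        ring
      exact add_left_cancel h3
    rw [mul_comm, h2, mul_comm]
  have hγF : ∀ n i, D i (coeff n γ) ∈ F := by
    intro n i
    rw [← coeff_dh, hγD]
    exact (hτF i).eul n
  obtain ⟨Y, hY⟩ : ∃ Y : Submodule F K, Y = Submodule.span F (Set.range fun n => coeff n γ) :=
    ⟨_, rfl⟩
  have hYF : ∀ x ∈ Y, ∀ i, D i x ∈ F := by
    intro x hx i
    rw [hY] at hx
    induction hx using Submodule.span_induction with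
    | mem x hx =>
      obtain ⟨n, rfl⟩ := hx
      exact hγF n i
    | zero => rw [map_zero]; exact F.zero_mem
    | add x y _ _ h h' => rw [map_add]; exact F.add_mem h h'
    | smul a x _ h =>
      rw [Algebra.smul_def]
      change D i ((a : K) * x) ∈ F
      rw [der_smul (hs.kills i) a.2]
      exact F.mul_mem a.2 h
  have hYfg := quasi_fg hs Y hYF
  obtain ⟨l, hl⟩ : ∃ l, l = coeff 1 Λ := ⟨_, rfl⟩
  have hl1 : coeff 1 γ = l := by
    have h0 := congrArg (coeff 0) hγΛ
    rw [coeff_eul, Nat.cast_zero, zero_mul, c0mul, hΛ0, mul_one] at h0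
    have h1 := congrArg (coeff 1) hγΛ
    rw [coeff_eul, Nat.cast_one, one_mul, coeff_one_mul, ← coeff_zero_eq_constantCoeff_apply,
      ← coeff_zero_eq_constantCoeff_apply, hΛ0, mul_one, ← h0, mul_zero, add_zero, ← hl] at h1
    exact h1.symm
  refine ⟨l, fun hlF => ?_, fun i => ?_, fun v hv hvW => ?_⟩
  · have h1 := congrArg (coeff 1) (hΛτ j _ hτj)
    rw [coeff_dh, ← hl, hs.kills j l hlF] at h1
    have h2 : coeff 1 ((m : PowerSeries K) * X * Λ) = (m : K) := by
      have h3 : (m : PowerSeries K) * X * Λ = X * (C (m : K) * Λ) := by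
        rw [map_natCast]
        ring
      rw [h3]
      have h4 := coeff_succ_X_mul 0 (C (m : K) * Λ)
      rw [zero_add] at h4
      rw [h4, coeff_C_mul, hΛ0, mul_one]
    rw [h2] at h1
    have hcK : CharZero K := charZero_of_injective_algebraMap (algebraMap k K).injective
    exact hm0 (by exact_mod_cast h1.symm)
  · rw [← hl1]
    exact hγF 1 i
  · obtain ⟨C1, hC1⟩ := bdd_fd v hv Y hYfg
    obtain ⟨C2, hC2⟩ := hΔv v hvW
    have h1 : Bs v C2 Λ := by
      intro n
      rw [hΛ, coeff_C_mul, hΓn]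
      have h2 : Og v 0 δ⁻¹ := Or.inr (hv _ (F.inv_mem hδF) (inv_ne_zero hδ)).ge
      have h3 := h2.mul (hC2 (n + q))
      rwa [zero_add] at h3
    have h2 : Bs v C1 γ := fun n => hC1 _ (by rw [hY]; exact Submodule.subset_span ⟨n, rfl⟩)
    have h3 := gauss v h1 h2 hΛne hγΛ
    have h4 := h3 1
    rw [hl1] at h4
    exact h4

end

end Pool.Agent.H892
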