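import Pool.Agent.H892.A6
import Pool.Graph.R_seed8.Y172.Alg

/-!
The chain of fields of a nilpotent system of derivations.
-/

set_option autoImplicit false
set_option linter.unusedSectionVars false

open FF Pool.Agent.W602.GT Pool.Agent.Y172

namespace Pool.Agent.H892

section

variable {k K : Type} [Field k] [CharZero k] [Field K] [Algebra k K]

/-- antiderivatives of polynomials -/
theorem antider {M : IntermediateField k K} {E : Derivation k K K} (hE : ∀ f ∈ M, E f = 0) {t : K}
    (hc : E t ∈ M) (hc0 : E t ≠ 0) (p : Polynomial M) :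
    ∃ P : Polynomial M, E (Polynomial.aeval t P) = Polynomial.aeval t p := by
  induction p using Polynomial.induction_on' with
  | add p q hp hq =>
    obtain ⟨P, hP⟩ := hp
    obtain ⟨Q, hQ⟩ := hq
    exact ⟨P + Q, by rw [map_add, map_add, map_add, hP, hQ]⟩
  | monomial n a =>
    have hcK : CharZero K := charZero_of_injective_algebraMap (algebraMap k K).injective
    refine ⟨Polynomial.monomial (n + 1) (a * (⟨E t, hc⟩ : M)⁻¹ * ((n : M) + 1)⁻¹), ?_⟩
    rw [Polynomial.aeval_monomial, Polynomial.aeval_monomial]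
    change E (((a * (⟨E t, hc⟩ : M)⁻¹ * ((n : M) + 1)⁻¹ : M) : K) * t ^ (n + 1)) =
      (a : K) * t ^ n
    rw [der_smul hE (a * (⟨E t, hc⟩ : M)⁻¹ * ((n : M) + 1)⁻¹ : M).2, Derivation.leibniz_pow]
    have h1 : ((a * (⟨E t, hc⟩ : M)⁻¹ * ((n : M) + 1)⁻¹ : M) : K) =
        (a : K) * (E t)⁻¹ * ((n : K) + 1)⁻¹ := by push_cast; rfl
    have h2 : ((n : K) + 1) ≠ 0 := Nat.cast_add_one_ne_zero n
    rw [h1, Nat.add_sub_cancel, nsmul_eq_mul, smul_eq_mul]
    push_cast
    field_simp

/-- elements killed by a power of a derivation are polynomials in a slice -/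
theorem poly_of_nil {E : Derivation k K K} {t : K} (hc : E (E t) = 0) (hc0 : E t ≠ 0) :
    ∀ (n : ℕ) (x : K), E^[n] x = 0 → ∃ p : Polynomial (consts E), x = Polynomial.aeval t p := by
  intro n
  induction n with
  | zero =>
    intro x hx
    exact ⟨0, by rw [map_zero]; exact hx⟩
  | succ n ih =>
    intro x hx
    rw [Function.iterate_succ_apply] at hx
    obtain ⟨p, hp⟩ := ih _ hx
    obtain ⟨P, hP⟩ := antider (M := consts E) (fun f hf => hf) hc hc0 p
    have h1 : x - Polynomial.aeval t P ∈ consts E := by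
      change E (x - Polynomial.aeval t P) = 0
      rw [map_sub, hP, ← hp, sub_self]
    refine ⟨P + Polynomial.C ⟨_, h1⟩, ?_⟩
    rw [map_add, Polynomial.aeval_C]
    change x = Polynomial.aeval t P + (x - Polynomial.aeval t P)
    ring

end

section

variable {k K ι : Type} [Field k] [CharZero k] [Field K] [Algebra k K] [Fintype ι]
  {F : IntermediateField k K} {D : ι → Derivation k K K} {w : ι → ℕ}

theorem kil_smul (hk : ∀ i, ∀ f ∈ F, D i f = 0) {c : K} (hc : c ∈ F) :
    ∀ (n : ℕ) (x : K), Kil D n x → Kil D n (c * x) := by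
  intro n
  induction n with
  | zero =>
    intro x hx
    rw [show x = 0 from hx, mul_zero]
    exact Kil.zero 0
  | succ n ih =>
    intro x hx i
    rw [der_smul (hk i) hc]
    exact ih _ (hx i)

theorem kil_of_comb {D' : ι → Derivation k K K} (hk : ∀ i, ∀ f ∈ F, D i f = 0)
    (hD' : ∀ i, ∃ c : ι → K, (∀ l, c l ∈ F) ∧ ∀ x, D' i x = ∑ l, c l * D l x) :
    ∀ (n : ℕ) (x : K), Kil D n x → Kil D' n x := by
  intro n
  induction n with
  | zero => exact fun x hx => hx
  | succ n ih =>
    intro x hx i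
    obtain ⟨c, hc, hcx⟩ := hD' i
    rw [hcx]
    exact ih _ (Kil.sum _ fun l _ => kil_smul hk (hc l) n _ (hx l))

/-- **The next field of the chain.** -/
theorem next (hs : NilSys F D w) {t : K} (htF : t ∉ F) (ht : ∀ i, D i t ∈ F) :
    ∃ D' : ι → Derivation k K K,
      NilSys (IntermediateField.adjoin k ((F : Set K) ∪ {t})) D' w ∧
      (∀ i, ∃ c : ι → K, (∀ l, c l ∈ F) ∧ ∀ x, D' i x = ∑ l, c l * D l x) ∧
      (∀ i, D i = 0 → D' i = 0) ∧ ∃ i, D i ≠ 0 ∧ D' i = 0 := by
  classical
  obtain ⟨F', hF'⟩ : ∃ F', F' = IntermediateField.adjoin k ((F : Set K) ∪ {t}) := ⟨_, rfl⟩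
  have hFF' : F ≤ F' := by
    rw [hF']
    exact fun x hx => IntermediateField.subset_adjoin k _ (Or.inl hx)
  have htF' : t ∈ F' := by
    rw [hF']
    exact IntermediateField.subset_adjoin k _ (Or.inr rfl)
  rw [← hF']
  -- the pivot
  have hne : (Finset.univ.filter fun i => D i t ≠ 0).Nonempty := by
    by_contra hcon
    rw [Finset.not_nonempty_iff_eq_empty] at hcon
    refine htF (hs.const t fun i => ?_)
    by_contra h
    have : i ∈ (Finset.univ.filter fun i => D i t ≠ 0) := by simpa using h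
    rw [hcon] at this
    exact absurd this (Finset.notMem_empty i)
  obtain ⟨i0, hi0, hmin⟩ := Finset.exists_min_image _ w hne
  have hi0' : D i0 t ≠ 0 := by simpa using hi0
  have hmin' : ∀ i, D i t ≠ 0 → w i0 ≤ w i := fun i hi => hmin i (by simpa using hi)
  obtain ⟨a, ha⟩ : ∃ a : ι → K, ∀ i, a i = D i t / D i0 t := ⟨_, fun _ => rfl⟩
  have haF : ∀ i, a i ∈ F := fun i => by rw [ha]; exact F.div_mem (ht i) (ht i0)
  have hai0 : a i0 = 1 := by rw [ha, div_self hi0']
  have ha0 : ∀ i, a i ≠ 0 → w i0 ≤ w i := fun i hi => hmin' i fun h => hi (by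
    rw [ha, h, zero_div])
  obtain ⟨D', hD'⟩ : ∃ D' : ι → Derivation k K K, ∀ i, D' i = D i - a i • D i0 :=
    ⟨_, fun _ => rfl⟩
  have hD'x : ∀ i x, D' i x = D i x - a i * D i0 x := by
    intro i x
    rw [hD', Derivation.sub_apply, Derivation.smul_apply, smul_eq_mul]
  have hcomb : ∀ i, ∃ c : ι → K, (∀ l, c l ∈ F) ∧ ∀ x, D' i x = ∑ l, c l * D l x := by
    intro i
    refine ⟨fun l => (if l = i then 1 else 0) - (if l = i0 then a i else 0), fun l => ?_,
      fun x => ?_⟩
    · refine F.sub_mem ?_ ?_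
      · split_ifs
        · exact F.one_mem
        · exact F.zero_mem
      · split_ifs
        · exact haF i
        · exact F.zero_mem
    · rw [hD'x]
      simp only [sub_mul, ite_mul, one_mul, zero_mul, Finset.sum_sub_distrib, Finset.sum_ite_eq',
        Finset.mem_univ, if_true]
  have hkil := kil_of_comb hs.kills hcomb
  have hnilp : ∀ x, Nilp D x → Nilp D' x := fun x ⟨n, hn⟩ => ⟨n, hkil n x hn⟩
  have hD't : ∀ i, D' i t = 0 := fun i => by
    rw [hD'x, ha, div_mul_cancel₀ _ hi0', sub_self]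
  have hkills' : ∀ i, ∀ f ∈ F', D' i f = 0 := by
    intro i
    have h1 : F' ≤ consts (D' i) := by
      rw [hF', IntermediateField.adjoin_le_iff]
      rintro f (hf | hf)
      · change D' i f = 0
        rw [hD'x, hs.kills i f hf, hs.kills i0 f hf, mul_zero, sub_zero]
      · rw [Set.mem_singleton_iff] at hf
        rw [hf]
        exact hD't i
    exact fun f hf => h1 hf
  -- combinations which kill `t`
  have hre : ∀ c : ι → K, ∑ l, c l * D l t = 0 → ∀ x, ∑ l, c l * D l x = ∑ l, c l * D' l x := by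
    intro c hc x
    have h1 : ∑ l, c l * a l = 0 := by
      have h2 : (∑ l, c l * a l) * D i0 t = 0 := by
        rw [Finset.sum_mul, ← hc]
        refine Finset.sum_congr rfl fun l _ => ?_
        rw [ha, mul_assoc, div_mul_cancel₀ _ hi0']
      exact (mul_eq_zero.1 h2).resolve_right hi0'
    have h2 : ∑ l, c l * D' l x = ∑ l, c l * D l x - (∑ l, c l * a l) * D i0 x := by
      rw [Finset.sum_mul, ← Finset.sum_sub_distrib]
      refine Finset.sum_congr rfl fun l _ => ?_
      rw [hD'x]
      ring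
    rw [h2, h1, zero_mul, sub_zero]
  have hbr : ∀ i j, D i (D j t) - D j (D i t) = 0 := fun i j => by
    rw [hs.kills i _ (ht j), hs.kills j _ (ht i), sub_zero]
  have hcomm : ∀ i j, ∃ c : ι → K, (∀ l, c l ∈ F) ∧ (∀ l, w j ≤ w l → c l = 0) ∧
      ∀ x, D i (D j x) - D j (D i x) = ∑ l, c l * D' l x := by
    intro i j
    obtain ⟨c, hcF, hc0, hc⟩ := hs.comm i j
    refine ⟨c, hcF, hc0, fun x => ?_⟩
    rw [hc, hre c (by rw [← hc, hbr])]
  have hnil0 : ∀ (n : ℕ) (x : K), Kil D n x → (∀ i, D' i x = 0) →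
      ∃ p : Polynomial F, x = Polynomial.aeval t p := by
    intro n
    induction n with
    | zero =>
      intro x hx _
      exact ⟨0, by rw [map_zero]; exact hx⟩
    | succ n ih =>
      intro x hx hx'
      obtain ⟨p, hp⟩ := ih (D i0 x) (hx i0) fun i => by
        obtain ⟨c, -, -, hc⟩ := hcomm i i0
        have h1 := hc x
        have h2 : D' i (D i0 x) = D i0 (D' i x) + (D i (D i0 x) - D i0 (D i x)) := by
          rw [hD'x, hD'x, map_sub, der_smul (hs.kills i0) (haF i)]
          ring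
        rw [h2, h1, hx' i, map_zero, zero_add]
        exact Finset.sum_eq_zero fun l _ => by rw [hx' l, mul_zero]
      obtain ⟨P, hP⟩ := antider (hs.kills i0) (ht i0) hi0' p
      have h1 : x - Polynomial.aeval t P ∈ F := by
        refine hs.const _ fun i => ?_
        have h2 : D i x = a i * D i0 x := by
          have := hx' i
          rw [hD'x, sub_eq_zero] at this
          exact this
        have h3 : D i (Polynomial.aeval t P) = a i * D i0 (Polynomial.aeval t P) := by
          have h4 : D' i (Polynomial.aeval t P) = 0 := by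
            refine hkills' i _ ?_
            rw [Polynomial.aeval_eq_sum_range]
            refine F'.sum_mem fun m _ => ?_
            rw [Algebra.smul_def]
            exact F'.mul_mem (hFF' (P.coeff m).2) (pow_mem htF' m)
          rw [hD'x, sub_eq_zero] at h4
          exact h4
        rw [map_sub, h2, h3, hP, ← hp, sub_self]
      refine ⟨P + Polynomial.C ⟨_, h1⟩, ?_⟩
      rw [map_add, Polynomial.aeval_C]
      change x = Polynomial.aeval t P + (x - Polynomial.aeval t P)
      ring
  refine ⟨D', ⟨hkills', fun i j => ?_, fun x hx => ?_, fun x => ?_⟩, hcomb, fun i hi => ?_,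
    i0, fun h => hi0' (by rw [h]; rfl), ?_⟩
  · obtain ⟨c1, hc1F, hc10, hc1⟩ := hcomm i j
    obtain ⟨c2, hc2F, hc20, hc2⟩ := hcomm i i0
    obtain ⟨c3, hc3F, hc30, hc3⟩ : ∃ c : ι → K, (∀ l, c l ∈ F) ∧
        (∀ l, w j ≤ w l → a i * c l = 0) ∧ ∀ x, D j (D i0 x) - D i0 (D j x) =
          ∑ l, c l * D' l x := by
      by_cases hai : a i = 0
      · obtain ⟨c, hcF, hc0, hc⟩ := hcomm j i0
        exact ⟨c, hcF, fun l _ => by rw [hai, zero_mul], hc⟩
      rcases Nat.lt_or_ge (w j) (w i0) with hw | hw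
      · obtain ⟨c, hcF, hc0, hc⟩ := hcomm i0 j
        refine ⟨fun l => - c l, fun l => F.neg_mem (hcF l), fun l hl => by
          change a i * -(c l) = 0
          rw [hc0 l hl, neg_zero, mul_zero], fun x => ?_⟩
        rw [← neg_sub, hc x, ← Finset.sum_neg_distrib]
        exact Finset.sum_congr rfl fun l _ => by ring
      · obtain ⟨c, hcF, hc0, hc⟩ := hcomm j i0
        exact ⟨c, hcF, fun l hl => by rw [hc0 l (hw.trans hl), mul_zero], hc⟩
    refine ⟨fun l => c1 l - a j * c2 l + a i * c3 l, fun l => ?_, fun l hl => ?_, fun x => ?_⟩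
    · exact F'.add_mem (F'.sub_mem (hFF' (hc1F l)) (F'.mul_mem (hFF' (haF j)) (hFF' (hc2F l))))
        (F'.mul_mem (hFF' (haF i)) (hFF' (hc3F l)))
    · change c1 l - a j * c2 l + a i * c3 l = 0
      rw [hc10 l hl, hc30 l hl]
      have h1 : a j * c2 l = 0 := by
        by_cases haj : a j = 0
        · rw [haj, zero_mul]
        · rw [hc20 l ((ha0 j haj).trans hl), mul_zero]
      rw [h1]
      ring
    · have h1 : D' i (D' j x) - D' j (D' i x) = (D i (D j x) - D j (D i x)) -
          a j * (D i (D i0 x) - D i0 (D i x)) + a i * (D j (D i0 x) - D i0 (D j x)) := by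
        simp only [hD'x, map_sub]
        rw [der_smul (hs.kills i) (haF j), der_smul (hs.kills i0) (haF j),
          der_smul (hs.kills j) (haF i), der_smul (hs.kills i0) (haF i)]
        ring
      rw [h1, hc1, hc2, hc3, Finset.mul_sum, Finset.mul_sum, ← Finset.sum_sub_distrib,
        ← Finset.sum_add_distrib]
      refine Finset.sum_congr rfl fun l _ => ?_
      ring
  · -- the constants
    obtain ⟨p, q, hp, hq, hq0, hpq⟩ := hs.frac x
    obtain ⟨S, hS⟩ : ∃ S : Set K, ∀ s, s ∈ S ↔ Nilp D s ∧ Nilp D (s * x) :=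
      ⟨{s | _}, fun _ => Iff.rfl⟩
    have hNc : ∀ c ∈ F, ∀ s, Nilp D s → Nilp D (c * s) := fun c hc s ⟨n, hn⟩ =>
      ⟨n, kil_smul hs.kills hc n s hn⟩
    have hND' : ∀ i s, Nilp D s → Nilp D (D' i s) := by
      intro i s hs'
      rw [hD'x, sub_eq_add_neg]
      exact (hs'.der i).add (hNc _ (haF i) _ (hs'.der i0)).neg
    have hSst : ∀ i, ∀ s ∈ S, D' i s ∈ S := by
      intro i s hs'
      rw [hS] at hs' ⊢
      refine ⟨hND' i s hs'.1, ?_⟩
      have h1 : D' i s * x = D' i (s * x) := by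
        rw [Derivation.leibniz, hx i, smul_zero, zero_add, smul_eq_mul, mul_comm]
      rw [h1]
      exact hND' i _ hs'.2
    have hqS : q ∈ S := by
      rw [hS]
      refine ⟨hq, ?_⟩
      rw [hpq, mul_div_cancel₀ _ hq0]
      exact hp
    obtain ⟨nq, hnq⟩ := hq
    obtain ⟨c, hcS, hc0, hcD⟩ := exists_last (D := D') S hSst nq q hqS hq0 (hkil nq q hnq)
    rw [hS] at hcS
    obtain ⟨⟨n1, hn1⟩, ⟨n2, hn2⟩⟩ := hcS
    obtain ⟨p1, hp1⟩ := hnil0 n1 c hn1 hcD
    obtain ⟨p2, hp2⟩ := hnil0 n2 (c * x) hn2 fun i => by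
      rw [Derivation.leibniz, hx i, hcD i, smul_zero, smul_zero, add_zero]
    have hpF : ∀ p : Polynomial F, Polynomial.aeval t p ∈ F' := by
      intro P
      rw [Polynomial.aeval_eq_sum_range]
      refine F'.sum_mem fun m _ => ?_
      rw [Algebra.smul_def]
      exact F'.mul_mem (hFF' (P.coeff m).2) (pow_mem htF' m)
    have h1 : x = (c * x) / c := by rw [mul_div_cancel_left₀ _ hc0]
    rw [h1]
    refine F'.div_mem ?_ ?_
    · rw [hp2]
      exact hpF p2
    · rw [hp1]
      exact hpF p1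
  · obtain ⟨p, q, hp, hq, hq0, hpq⟩ := hs.frac x
    exact ⟨p, q, hnilp p hp, hnilp q hq, hq0, hpq⟩
  · have h1 : a i = 0 := by rw [ha, hi, Derivation.zero_apply, zero_div]
    rw [hD', hi, h1, zero_smul, sub_zero]
  · rw [hD', hai0, one_smul, sub_self]

end

end Pool.Agent.H892
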