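import Pool.Agent.H892.B1

/-!
The chain of fields of a nilpotent system of derivations ends with a field over which the given
spaces have finite dimension.
-/

set_option autoImplicit false
set_option linter.unusedSectionVars false

open FF Pool.Agent.W602.GT Pool.Agent.Y172

namespace Pool.Agent.H892

section

variable {k K ι : Type} [Field k] [CharZero k] [Field K] [Algebra k K] [Fintype ι] {w : ι → ℕ}

theorem og_span {F : IntermediateField k K} {v : Place k K}
    (hv : ∀ f ∈ F, f ≠ 0 → v.ord f = 0) {W : Set K} {C : ℤ} (h : ∀ x ∈ W, Og v C x) :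
    ∀ x ∈ Submodule.span F W, Og v C x := by
  intro x hx
  induction hx using Submodule.span_induction with
  | mem x hx => exact h x hx
  | zero => exact og_zero
  | add x y _ _ h h' => exact h.add h'
  | smul a x _ h =>
    rw [Algebra.smul_def]
    change Og v C ((a : K) * x)
    by_cases ha : (a : K) = 0
    · left
      rw [ha, zero_mul]
    · have h1 : Og v 0 (a : K) := Or.inr (hv _ a.2 ha).ge
      have h2 := h1.mul h
      rwa [zero_add] at h2

theorem span_le_span {F F' : IntermediateField k K} (h : F ≤ F') {W : Set K} :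
    ∀ x ∈ Submodule.span F W, x ∈ Submodule.span F' W := by
  intro x hx
  induction hx using Submodule.span_induction with
  | mem x hx => exact Submodule.subset_span hx
  | zero => exact Submodule.zero_mem _
  | add x y _ _ h h' => exact Submodule.add_mem _ h h'
  | smul a x _ hx =>
    have h1 : a • x = (⟨a, h a.2⟩ : F') • x := rfl
    rw [h1]
    exact Submodule.smul_mem _ _ hx

/-- **The chain.** -/
theorem chain (𝔸 : IntermediateField k K) (𝒲 : Set (Set K)) :
    ∀ (n : ℕ) (F : IntermediateField k K) (D : ι → Derivation k K K), NilSys F D w → F ≤ 𝔸 →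
      (∀ W ∈ 𝒲, ∀ i, ∀ x ∈ W, D i x ∈ Submodule.span F W) →
      (∀ W ∈ 𝒲, ∀ x ∈ W, Nilp D x) →
      (∀ F' : IntermediateField k K, F ≤ F' → F' ≤ 𝔸 → ∀ W ∈ 𝒲, ∀ t : K,
        (∀ v : Place k K, (∀ f ∈ F', f ≠ 0 → v.ord f = 0) → (∃ C : ℤ, ∀ x ∈ W, Og v C x) →
          v.Reg t) → t ∈ 𝔸) →
      {i | D i ≠ 0}.ncard = n →
      ∃ F' : IntermediateField k K, F ≤ F' ∧ F' ≤ 𝔸 ∧
        ∀ W ∈ 𝒲, FiniteDimensional F' (Submodule.span F' W) := by
  classical
  intro n
  induction n using Nat.strong_induction_on with
  | _ n ih =>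
    intro F D hs hF hst hnil hcl hn
    by_cases hall : ∀ W ∈ 𝒲, FiniteDimensional F (Submodule.span F W)
    · exact ⟨F, le_rfl, hF, hall⟩
    push Not at hall
    obtain ⟨W, hW, hinf⟩ := hall
    obtain ⟨t, htF, htD, htv⟩ := thmE hs (Submodule.span F W) (by
      intro i x hx
      induction hx using Submodule.span_induction with
      | mem x hx => exact hst W hW i x hx
      | zero => rw [map_zero]; exact Submodule.zero_mem _
      | add x y _ _ h h' => rw [map_add]; exact Submodule.add_mem _ h h'
      | smul a x _ h =>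
        rw [Algebra.smul_def]
        change D i ((a : K) * x) ∈ _
        rw [der_smul (hs.kills i) a.2]
        exact Submodule.smul_mem _ a h) (by
      intro x hx
      induction hx using Submodule.span_induction with
      | mem x hx => exact hnil W hW x hx
      | zero => exact nilp_zero
      | add x y _ _ h h' => exact h.add h'
      | smul a x _ h =>
        rw [Algebra.smul_def]
        change Nilp D ((a : K) * x)
        obtain ⟨m, hm⟩ := h
        exact ⟨m, kil_smul hs.kills a.2 m x hm⟩) hinf
    have htA : t ∈ 𝔸 := hcl F le_rfl hF W hW t fun v hv ⟨C, hC⟩ =>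
      htv v hv ⟨C, og_span hv hC⟩
    obtain ⟨D', hs', hcomb, hz, i1, hi1, hi1'⟩ := next hs htF htD
    obtain ⟨F1, hF1⟩ : ∃ F1, F1 = IntermediateField.adjoin k ((F : Set K) ∪ {t}) := ⟨_, rfl⟩
    rw [← hF1] at hs'
    have hFF1 : F ≤ F1 := by
      rw [hF1]
      exact fun x hx => IntermediateField.subset_adjoin k _ (Or.inl hx)
    have hF1A : F1 ≤ 𝔸 := by
      rw [hF1, IntermediateField.adjoin_le_iff]
      rintro x (hx | hx)
      · exact hF hx
      · rw [Set.mem_singleton_iff] at hx
        rw [hx]
        exact htA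
    have hlt : {i | D' i ≠ 0}.ncard < n := by
      rw [← hn]
      refine Set.ncard_lt_ncard ⟨fun i hi h => hi (hz i h), fun h => ?_⟩ (Set.toFinite _)
      exact h hi1 hi1'
    obtain ⟨F', h1, h2, h3⟩ := ih _ hlt F1 D' hs' hF1A (by
      intro W hW i x hx
      obtain ⟨c, hc, hcx⟩ := hcomb i
      rw [hcx]
      refine Submodule.sum_mem _ fun l _ => ?_
      have h4 : c l * D l x = (⟨c l, hFF1 (hc l)⟩ : F1) • D l x := rfl
      rw [h4]
      exact Submodule.smul_mem _ _ (span_le_span hFF1 _ (hst W hW l x hx)))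
      (by
        intro W hW x hx
        obtain ⟨m, hm⟩ := hnil W hW x hx
        exact ⟨m, kil_of_comb hs.kills hcomb m x hm⟩)
      (fun F' h4 => hcl F' (hFF1.trans h4)) rfl
    exact ⟨F', hFF1.trans h1, h2, h3⟩

end

end Pool.Agent.H892
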