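import Pool.Agent.H892.B2
import Pool.Graph.R_pool_sql_team_seeded_3dad9d7b.NH31.M8

/-!
Places of a field at which a locally nilpotent derivation is regular but not logarithmic.
-/

set_option autoImplicit false
set_option linter.unusedSectionVars false

open FF Pool.Agent.W602.GT Pool.Agent.W603.LV Pool.Agent.Y172 Pool.Agent.TH122.AB

namespace Pool.Agent.H892

section

variable {k K : Type} [Field k] [CharZero k] [Field K] [Algebra k K]

/-- the logarithmic derivative decomposes -/
theorem logd_pow_mul (E : Derivation k K K) {t u : K} (ht : t ≠ 0) (hu : u ≠ 0) (N : ℤ) :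
    E (t ^ N * u) / (t ^ N * u) = (N : K) * (E t / t) + E u / u := by
  rw [logd_mul E (zpow_ne_zero _ ht) hu, der_zpow E ht]
  have h1 : t ^ N ≠ 0 := zpow_ne_zero _ ht
  field_simp

/-- **A regular derivation which is not logarithmic lowers the orders by one.** -/
theorem nonlog_ord {P : Place k K} {E : Derivation k K K} (hE : DerReg P E) (hl : ¬ DerLog P E)
    {f : K} (hf : P.ord f ≠ 0) : E f ≠ 0 ∧ P.ord (E f) = P.ord f - 1 := by
  have hcK : CharZero K := charZero_of_injective_algebraMap (algebraMap k K).injective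
  obtain ⟨t, ht0, ht⟩ := P.surj
  have hdec : ∀ g : K, g ≠ 0 → ∃ u, u ≠ 0 ∧ Ge P 0 (E u / u) ∧
      E g / g = (P.ord g : K) * (E t / t) + E u / u := by
    intro g hg
    refine ⟨g * t ^ (-P.ord g), mul_ne_zero hg (zpow_ne_zero _ ht0), ?_, ?_⟩
    · refine ge_logder_reg hE (mul_ne_zero hg (zpow_ne_zero _ ht0)) ?_
      rw [P.ord_mul hg (zpow_ne_zero _ ht0), P.ord_zpow, ht]
      ring
    · have h1 := logd_pow_mul E ht0 (u := g * t ^ (-P.ord g))
        (mul_ne_zero hg (zpow_ne_zero _ ht0)) (P.ord g)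
      have h2 : t ^ (P.ord g) * (g * t ^ (-P.ord g)) = g := by
        rw [mul_left_comm, ← zpow_add₀ ht0, add_neg_cancel, zpow_zero, mul_one]
      rw [h2] at h1
      exact h1
  have hN : ∀ N : ℤ, N ≠ 0 → (N : K) ≠ 0 ∧ P.ord (N : K) = 0 := by
    intro N hN
    refine ⟨by exact_mod_cast hN, ?_⟩
    have h1 : (N : k) ≠ 0 := by exact_mod_cast hN
    have := P.ord_const h1
    rwa [map_intCast] at this
  -- the order of `E t`
  have hEt : E t ≠ 0 ∧ P.ord (E t) = 0 := by
    unfold DerLog at hl
    push Not at hl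
    obtain ⟨f0, hf0⟩ := hl
    have hf00 : f0 ≠ 0 := by
      rintro rfl
      exact hf0 (by rw [map_zero, zero_div]; exact P.reg_zero)
    obtain ⟨u, hu0, hu, hdu⟩ := hdec f0 hf00
    have h1 : ¬ Ge P 0 (E t / t) := by
      intro h2
      apply hf0
      rw [hdu]
      have h3 := ((Ge.intCast (P := P) (P.ord f0)).mul h2).add (by rw [zero_add]; exact hu)
      rw [zero_add] at h3
      exact h3
    have h2 : E t ≠ 0 := by
      intro h3
      apply h1
      rw [h3, zero_div]
      exact Ge.zero
    refine ⟨h2, ?_⟩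
    have h3 : 0 ≤ P.ord (E t) := (P.reg_iff h2).1 (hE t (Or.inr (by omega)))
    have h4 : P.ord (E t / t) < 0 := by
      by_contra h5
      exact h1 (Or.inr (not_lt.1 h5))
    rw [P.ord_div h2 ht0, ht] at h4
    omega
  have hf0 : f ≠ 0 := by
    rintro rfl
    exact hf P.ord_zero
  obtain ⟨u, hu0, hu, hdu⟩ := hdec f hf0
  obtain ⟨h1, h2⟩ := hN _ hf
  have h3 : (P.ord f : K) * (E t / t) ≠ 0 := mul_ne_zero h1 (div_ne_zero hEt.1 ht0)
  have h4 : P.ord ((P.ord f : K) * (E t / t)) = -1 := by
    rw [P.ord_mul h1 (div_ne_zero hEt.1 ht0), h2, P.ord_div hEt.1 ht0, hEt.2, ht]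
    ring
  have h5 : E f / f ≠ 0 ∧ P.ord (E f / f) = -1 := by
    rw [hdu]
    by_cases h6 : E u / u = 0
    · rw [h6, add_zero]
      exact ⟨h3, h4⟩
    · have h7 := hu.resolve_left h6
      have := P.ord_add_eq h3 h6 (by rw [h4]; omega)
      rw [h4] at this
      exact this
  have h6 : E f ≠ 0 := fun h => h5.1 (by rw [h, zero_div])
  refine ⟨h6, ?_⟩
  have h7 := h5.2
  rw [P.ord_div h6 hf0] at h7
  omega

/-- nilpotent elements are regular -/
theorem nonlog_reg {P : Place k K} {E : Derivation k K K} (hE : DerReg P E) (hl : ¬ DerLog P E)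
    {f : K} {n : ℕ} (hn : E^[n] f = 0) : P.Reg f := by
  by_contra hcon
  have hf0 : f ≠ 0 := fun h => hcon (Or.inl h)
  have hneg : P.ord f < 0 := by
    by_contra h
    exact hcon (Or.inr (not_lt.1 h))
  have h1 : ∀ j : ℕ, E^[j] f ≠ 0 ∧ P.ord (E^[j] f) = P.ord f - j := by
    intro j
    induction j with
    | zero => exact ⟨hf0, by simp⟩
    | succ j ih =>
      rw [Function.iterate_succ_apply']
      have h2 := nonlog_ord hE hl (f := E^[j] f) (by rw [ih.2]; omega)
      refine ⟨h2.1, ?_⟩
      rw [h2.2, ih.2]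
      push_cast
      ring
  exact (h1 n).1 hn

/-- the constants have order zero -/
theorem nonlog_const {P : Place k K} {E : Derivation k K K} (hE : DerReg P E)
    (hl : ¬ DerLog P E) {f : K} (hf : E f = 0) : P.ord f = 0 := by
  by_contra h
  exact (nonlog_ord hE hl h).1 hf

end

section

variable {k K : Type} [Field k] [CharZero k] [Field K] [Algebra k K]
  {F : IntermediateField k K} {d : ℕ} {x : Fin d → K}

/-- **Identification of the places at which a locally nilpotent derivation is regular but not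
logarithmic.** -/
theorem exists_adic_of_nonlog (hG : Gens (k := F) x) {E : Derivation k K K}
    (hEx : ∀ q : MvPolynomial (Fin d) F, ∃ q' : MvPolynomial (Fin d) F,
      E (MvPolynomial.aeval x q) = MvPolynomial.aeval x q')
    (hEn : ∀ q : MvPolynomial (Fin d) F, ∃ n : ℕ, E^[n] (MvPolynomial.aeval x q) = 0)
    {P : Place k K} (hE : DerReg P E) (hl : ¬ DerLog P E) :
    ∃ p : MvPolynomial (Fin d) F, Irreducible p ∧ P.ord (MvPolynomial.aeval x p) = 1 ∧
      Adic P x p := by
  classical
  have hreg : ∀ q : MvPolynomial (Fin d) F, P.Reg (MvPolynomial.aeval x q) := by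
    intro q
    obtain ⟨n, hn⟩ := hEn q
    exact nonlog_reg hE hl hn
  have hnn : ∀ q : MvPolynomial (Fin d) F, q ≠ 0 → 0 ≤ P.ord (MvPolynomial.aeval x q) :=
    fun q hq => (P.reg_iff (hG.ne hq)).1 (hreg q)
  -- an irreducible polynomial of positive order
  obtain ⟨p, hp, hpP⟩ : ∃ p : MvPolynomial (Fin d) F, Irreducible p ∧
      0 < P.ord (MvPolynomial.aeval x p) := by
    obtain ⟨g, hg0, hgP⟩ : ∃ g : MvPolynomial (Fin d) F, g ≠ 0 ∧
        0 < P.ord (MvPolynomial.aeval x g) := by
      by_contra hcon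
      push Not at hcon
      obtain ⟨t, ht0, ht⟩ := P.surj
      obtain ⟨a, b, hb, hab⟩ := hG.gen t
      have ha : a ≠ 0 := by
        rintro rfl
        rw [map_zero, zero_div] at hab
        exact ht0 hab
      have h1 := le_antisymm (hcon a ha) (hnn a ha)
      have h2 := le_antisymm (hcon b hb) (hnn b hb)
      rw [hab, P.ord_div (hG.ne ha) (hG.ne hb), h1, h2] at ht
      norm_num at ht
    induction g using WfDvdMonoid.induction_on_irreducible with
    | zero => exact absurd rfl hg0
    | unit u hu =>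
      exfalso
      obtain ⟨u', hu'⟩ := hu.exists_right_inv
      have h1 : u' ≠ 0 := by
        rintro rfl
        rw [mul_zero] at hu'
        exact zero_ne_one hu'
      have h2 := congrArg (MvPolynomial.aeval x) hu'
      rw [map_mul, map_one] at h2
      have h3 := P.ord_mul (hG.ne hg0) (hG.ne h1)
      rw [h2, P.ord_one] at h3
      have h4 := hnn u' h1
      omega
    | mul a i ha hi ih =>
      by_cases h1 : 0 < P.ord (MvPolynomial.aeval x i)
      · exact ⟨i, hi, h1⟩
      · refine ih ha ?_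
        rw [map_mul, P.ord_mul (hG.ne hi.ne_zero) (hG.ne ha)] at hgP
        omega
  -- a local slice
  obtain ⟨s, hs1, hs2⟩ : ∃ s : MvPolynomial (Fin d) F, E (MvPolynomial.aeval x s) ≠ 0 ∧
      E (E (MvPolynomial.aeval x s)) = 0 := by
    obtain ⟨s0, hs0⟩ : ∃ s : MvPolynomial (Fin d) F, E (MvPolynomial.aeval x s) ≠ 0 :=
      ⟨p, (nonlog_ord hE hl hpP.ne').1⟩
    obtain ⟨n, hn⟩ := hEn s0
    have key : ∀ (n : ℕ) (s : MvPolynomial (Fin d) F), E^[n] (MvPolynomial.aeval x s) = 0 →
        E (MvPolynomial.aeval x s) ≠ 0 → ∃ s : MvPolynomial (Fin d) F,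
          E (MvPolynomial.aeval x s) ≠ 0 ∧ E (E (MvPolynomial.aeval x s)) = 0 := by
      intro n
      induction n with
      | zero =>
        intro s h1 h2
        exfalso
        apply h2
        rw [show MvPolynomial.aeval x s = 0 from h1, map_zero]
      | succ n ih =>
        intro s h1 h2
        by_cases h3 : E (E (MvPolynomial.aeval x s)) = 0
        · exact ⟨s, h2, h3⟩
        · obtain ⟨s', hs'⟩ := hEx s
          rw [Function.iterate_succ_apply, hs'] at h1
          rw [hs'] at h3
          exact ih s' h1 h3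
    exact key n s0 hn hs0
  obtain ⟨t, ht⟩ : ∃ t, t = MvPolynomial.aeval x s := ⟨_, rfl⟩
  rw [← ht] at hs1 hs2
  -- polynomials in the slice
  have hpoly : ∀ q : MvPolynomial (Fin d) F, ∃ f : Polynomial (consts E),
      MvPolynomial.aeval x q = Polynomial.aeval t f := by
    intro q
    obtain ⟨n, hn⟩ := hEn q
    exact poly_of_nil hs2 hs1 n _ hn
  have htr : ∀ f : Polynomial (consts E), Polynomial.aeval t f = 0 → f = 0 := by
    intro f hf
    by_contra hf0
    have h1 : IsAlgebraic (consts E) t := ⟨f, hf0, hf⟩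
    exact hs1 (kills_alg (M := consts E) (fun z hz => hz) h1)
  -- denominators of constants
  have hden : ∀ c : K, E c = 0 → ∃ m : MvPolynomial (Fin d) F, m ≠ 0 ∧
      E (MvPolynomial.aeval x m) = 0 ∧ ∃ m' : MvPolynomial (Fin d) F,
        MvPolynomial.aeval x m * c = MvPolynomial.aeval x m' := by
    intro c hc
    obtain ⟨a, b, hb, hab⟩ := hG.gen c
    have key : ∀ (n : ℕ) (b : MvPolynomial (Fin d) F), b ≠ 0 →
        E^[n] (MvPolynomial.aeval x b) = 0 → (∃ a : MvPolynomial (Fin d) F,
          MvPolynomial.aeval x b * c = MvPolynomial.aeval x a) →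
        ∃ m : MvPolynomial (Fin d) F, m ≠ 0 ∧
          E (MvPolynomial.aeval x m) = 0 ∧ ∃ m' : MvPolynomial (Fin d) F,
            MvPolynomial.aeval x m * c = MvPolynomial.aeval x m' := by
      intro n
      induction n with
      | zero =>
        intro b hb h1 _
        exact absurd h1 (hG.ne hb)
      | succ n ih =>
        intro b hb h1 h2
        by_cases h3 : E (MvPolynomial.aeval x b) = 0
        · exact ⟨b, hb, h3, h2⟩
        · obtain ⟨b', hb'⟩ := hEx b
          rw [Function.iterate_succ_apply, hb'] at h1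
          refine ih b' ?_ h1 ?_
          · rintro rfl
            rw [map_zero] at hb'
            exact h3 hb'
          · obtain ⟨a, ha⟩ := h2
            obtain ⟨a', ha'⟩ := hEx a
            refine ⟨a', ?_⟩
            rw [← ha', ← ha, E.leibniz, hc, smul_zero, zero_add, smul_eq_mul, hb', mul_comm]
    obtain ⟨n, hn⟩ := hEn b
    refine key n b hb hn ⟨a, ?_⟩
    rw [hab, mul_div_cancel₀ _ (hG.ne hb)]
  have hclear : ∀ f : Polynomial (consts E), ∃ m : MvPolynomial (Fin d) F, m ≠ 0 ∧
      E (MvPolynomial.aeval x m) = 0 ∧ ∃ m' : MvPolynomial (Fin d) F,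
        MvPolynomial.aeval x m * Polynomial.aeval t f = MvPolynomial.aeval x m' := by
    intro f
    induction f using Polynomial.induction_on' with
    | add f g hf hg =>
      obtain ⟨m, hm0, hmE, m', hm'⟩ := hf
      obtain ⟨r, hr0, hrE, r', hr'⟩ := hg
      refine ⟨m * r, mul_ne_zero hm0 hr0, ?_, r * m' + m * r', ?_⟩
      · rw [map_mul, E.leibniz, hmE, hrE, smul_zero, smul_zero, add_zero]
      · rw [map_mul, map_add, map_add, map_mul, map_mul, ← hm', ← hr']
        ring
    | monomial n a =>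
      obtain ⟨m, hm0, hmE, m', hm'⟩ := hden a a.2
      refine ⟨m, hm0, hmE, m' * s ^ n, ?_⟩
      rw [Polynomial.aeval_monomial, map_mul, map_pow, ← hm', ← ht]
      change MvPolynomial.aeval x m * ((a : K) * t ^ n) = _
      ring
  have hord0 : ∀ m : MvPolynomial (Fin d) F, E (MvPolynomial.aeval x m) = 0 →
      P.ord (MvPolynomial.aeval x m) = 0 := fun m hm => nonlog_const hE hl hm
  have hpm : ∀ m : MvPolynomial (Fin d) F, m ≠ 0 → E (MvPolynomial.aeval x m) = 0 → ¬ p ∣ m := by
    rintro m hm0 hmE ⟨r, rfl⟩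
    have h1 := hord0 _ hmE
    have hr : r ≠ 0 := right_ne_zero_of_mul hm0
    rw [map_mul, P.ord_mul (hG.ne hp.ne_zero) (hG.ne hr)] at h1
    have h2 := hnn r hr
    omega
  have hpr : Prime p := hp.prime
  -- the main point
  have hmain : ∀ q : MvPolynomial (Fin d) F, q ≠ 0 → 0 < P.ord (MvPolynomial.aeval x q) →
      p ∣ q := by
    intro q hq0 hq
    by_contra hpq
    obtain ⟨fp, hfp⟩ := hpoly p
    obtain ⟨fq, hfq⟩ := hpoly q
    by_cases hcop : IsCoprime fp fq
    · obtain ⟨α, β, hαβ⟩ := hcop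
      obtain ⟨m, hm0, hmE, m', hm'⟩ := hclear α
      obtain ⟨r, hr0, hrE, r', hr'⟩ := hclear β
      have h1 : MvPolynomial.aeval x (m * r) =
          MvPolynomial.aeval x (r * m') * MvPolynomial.aeval x p +
            MvPolynomial.aeval x (m * r') * MvPolynomial.aeval x q := by
        have h2 := congrArg (Polynomial.aeval t) hαβ
        rw [map_add, map_mul, map_mul, map_one, ← hfp, ← hfq] at h2
        rw [map_mul, map_mul, map_mul, ← hm', ← hr']
        linear_combination (-(MvPolynomial.aeval x m * MvPolynomial.aeval x r)) * h2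
      have h2 : Ge P 1 (MvPolynomial.aeval x (m * r)) := by
        rw [h1]
        refine Ge.add ?_ ?_
        · have h3 : Ge P 0 (MvPolynomial.aeval x (r * m')) := hreg _
          have h4 := h3.mul (Or.inr (by omega : (1 : ℤ) ≤ P.ord (MvPolynomial.aeval x p)))
          rwa [zero_add] at h4
        · have h3 : Ge P 0 (MvPolynomial.aeval x (m * r')) := hreg _
          have h4 := h3.mul (Or.inr (by omega : (1 : ℤ) ≤ P.ord (MvPolynomial.aeval x q)))
          rwa [zero_add] at h4
      have h3 := h2.resolve_left (hG.ne (mul_ne_zero hm0 hr0))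
      rw [hord0 (m * r) (by
        rw [map_mul, E.leibniz, hmE, hrE, smul_zero, smul_zero, add_zero])] at h3
      omega
    · -- a common factor
      obtain ⟨g, hgu, ⟨a, ha⟩, ⟨b, hb⟩⟩ : ∃ g : Polynomial (consts E), ¬ IsUnit g ∧ g ∣ fp ∧
          g ∣ fq := by
        refine ⟨EuclideanDomain.gcd fp fq, fun h => hcop ?_, EuclideanDomain.gcd_dvd_left _ _,
          EuclideanDomain.gcd_dvd_right _ _⟩
        exact (EuclideanDomain.gcd_isUnit_iff).1 h
      have hg0 : g ≠ 0 := by
        rintro rfl
        rw [zero_mul] at ha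
        rw [ha, map_zero] at hfp
        exact hG.ne hp.ne_zero hfp
      obtain ⟨m1, hm10, hm1E, m1', hm1'⟩ := hclear g
      obtain ⟨m2, hm20, hm2E, m2', hm2'⟩ := hclear a
      obtain ⟨m3, hm30, hm3E, m3', hm3'⟩ := hclear b
      have e1 : m1' * m2' = m1 * m2 * p := by
        apply hG.inj
        rw [map_mul, map_mul, map_mul, ← hm1', ← hm2', hfp, ha, map_mul]
        ring
      have e2 : m1' * m3' = m1 * m3 * q := by
        apply hG.inj
        rw [map_mul, map_mul, map_mul, ← hm1', ← hm3', hfq, hb, map_mul]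
        ring
      have hpm12 : ∀ a b : MvPolynomial (Fin d) F, a ≠ 0 → b ≠ 0 →
          E (MvPolynomial.aeval x a) = 0 → E (MvPolynomial.aeval x b) = 0 → ¬ p ∣ a * b := by
        intro a b ha0 hb0 ha hb
        exact hpm _ (mul_ne_zero ha0 hb0) (by
          rw [map_mul, E.leibniz, ha, hb, smul_zero, smul_zero, add_zero])
      rcases hpr.dvd_or_dvd (⟨m1 * m2, by rw [e1]; ring⟩ : p ∣ m1' * m2') with h1 | h1
      · have h2 : p ∣ m1 * m3 * q := by
          rw [← e2]
          exact Dvd.dvd.mul_right h1 _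
        rcases hpr.dvd_or_dvd h2 with h3 | h3
        · exact hpm12 m1 m3 hm10 hm30 hm1E hm3E h3
        · exact hpq h3
      · obtain ⟨r, hr⟩ := h1
        have e3 : m1' * r = m1 * m2 := by
          refine mul_left_cancel₀ hp.ne_zero ?_
          rw [hr] at e1
          linear_combination e1
        obtain ⟨fr, hfr⟩ := hpoly r
        obtain ⟨c, hc⟩ : ∃ c : consts E, (c : K) = MvPolynomial.aeval x m1 *
            MvPolynomial.aeval x m2 := ⟨⟨_, by
          change E _ = 0
          rw [E.leibniz, hm1E, hm2E, smul_zero, smul_zero, add_zero]⟩, rfl⟩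
        obtain ⟨c1, hc1⟩ : ∃ c : consts E, (c : K) = MvPolynomial.aeval x m1 :=
          ⟨⟨_, hm1E⟩, rfl⟩
        have e4 : Polynomial.C c1 * g * fr = Polynomial.C c := by
          have h2 : Polynomial.aeval t (Polynomial.C c1 * g * fr - Polynomial.C c) = 0 := by
            rw [map_sub, map_mul, map_mul, Polynomial.aeval_C, Polynomial.aeval_C]
            change (c1 : K) * Polynomial.aeval t g * Polynomial.aeval t fr - (c : K) = 0
            rw [hc1, hc, hm1', ← hfr, ← map_mul, e3, map_mul, sub_self]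
          exact sub_eq_zero.1 (htr _ h2)
        have hc0 : c ≠ 0 := by
          intro h
          rw [h] at hc
          exact mul_ne_zero (hG.ne hm10) (hG.ne hm20) hc.symm
        apply hgu
        have h5 : IsUnit (Polynomial.C c1 * g * fr) := by
          rw [e4]
          exact (isUnit_iff_ne_zero.2 hc0).map Polynomial.C
        exact isUnit_of_mul_isUnit_right (isUnit_of_mul_isUnit_left h5)
  have hadic : Adic P x p := by
    intro Q hQ
    refine ⟨hnn Q hQ, fun h0 hdvd => ?_, fun hdvd => ?_⟩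
    · obtain ⟨R, rfl⟩ := hdvd
      have hR : R ≠ 0 := right_ne_zero_of_mul hQ
      rw [map_mul, P.ord_mul (hG.ne hp.ne_zero) (hG.ne hR)] at h0
      have := hnn R hR
      omega
    · by_contra h1
      exact hdvd (hmain Q hQ (lt_of_le_of_ne (hnn Q hQ) (Ne.symm h1)))
  refine ⟨p, hp, ?_, hadic⟩
  -- the order of `p` is one
  have hdiv : ∀ Q : MvPolynomial (Fin d) F, Q ≠ 0 →
      P.ord (MvPolynomial.aeval x p) ∣ P.ord (MvPolynomial.aeval x Q) := by
    intro Q hQ
    have hfin : FiniteMultiplicity p Q := FiniteMultiplicity.of_not_isUnit hp.not_isUnit hQ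
    obtain ⟨c, hc, hc'⟩ := hfin.exists_eq_pow_mul_and_not_dvd
    have hc0 : c ≠ 0 := by
      rintro rfl
      exact hc' (dvd_zero _)
    rw [hc, map_mul, map_pow, P.ord_mul (pow_ne_zero _ (hG.ne hp.ne_zero)) (hG.ne hc0), P.ord_pow,
      ((hadic c hc0).2).2 hc', add_zero]
    exact dvd_mul_left _ _
  obtain ⟨z, hz0, hz⟩ := P.surj
  obtain ⟨a, b, hb, hab⟩ := hG.gen z
  have ha : a ≠ 0 := by
    rintro rfl
    rw [map_zero, zero_div] at hab
    exact hz0 hab
  have h1 : P.ord (MvPolynomial.aeval x p) ∣ 1 := by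
    rw [← hz, hab, P.ord_div (hG.ne ha) (hG.ne hb)]
    exact dvd_sub (hdiv a ha) (hdiv b hb)
  exact Int.eq_one_of_dvd_one hpP.le h1

end

end Pool.Agent.H892
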