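import Pool.Agent.H892.B3

/-!
The spaces of sections on the generic fibre of a variety over a base: finite dimensionality, and
invariance under vector fields.
-/

set_option autoImplicit false
set_option linter.unusedSectionVars false
set_option linter.overlappingInstances false

open FF Pool.Agent.W602.GT Pool.Agent.W603.LV Pool.Agent.Y172 Pool.Agent.TH122.AB Pool.Agent.NH31

namespace Pool.Agent.H892

section

variable {K : Type} [Field K] [Algebra ℂ K] {N n : ℕ} {y : Fin (N + 1) → K}
  {F : IntermediateField ℂ K}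

/-- The rational map from the variety with generic point `y` to the base with function field `F` is
regular at all points which dominate the base: every place of the function field which is trivial on
`F` has a centre whose local ring contains `F`. -/
def FibreProper (y : Fin (N + 1) → K) (F : IntermediateField ℂ K) : Prop :=
  ∀ Q : Place ℂ K, Horizontal F Q → ∀ f ∈ F, f ∈ localRing y Q

/-- the prime divisors through the centre of a horizontal place are horizontal -/
theorem through_horizontal (hFP : FibreProper y F) {P Q : Place ℂ K} (hQ : Horizontal F Q)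
    (h : Through y P Q) : Horizontal F P := by
  intro f hf hf0
  have h1 := h f (hFP Q hQ f hf)
  have h2 := h f⁻¹ (hFP Q hQ _ (F.inv_mem hf))
  rw [P.reg_iff hf0] at h1
  rw [P.reg_iff (inv_ne_zero hf0), P.ord_inv] at h2
  omega

/-- the poles of sections on the generic fibre, in a chart -/
theorem fib_chart (hy : NormalModel y) (hFP : FibreProper y F) {c : Place ℂ K → ℕ}
    (hc : {P | IsPrimeDivisor y P ∧ c P ≠ 0}.Finite) (j : Fin (N + 1)) :
    ∃ s ∈ chart y j, s ≠ 0 ∧ ∀ m : ℕ, ∀ f : K,
      (∀ P, IsPrimeDivisor y P → Horizontal F P → Og P (-((m * c P : ℕ) : ℤ)) f) →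
      ∀ Q, Horizontal F Q → Centred y j Q → f * s ^ m ∈ localRing y Q := by
  classical
  obtain ⟨s, hs, hs0, hsP⟩ := exists_high (y := y) (j := j)
    (S := {P | IsPrimeDivisor y P ∧ Centred y j P ∧ c P ≠ 0})
    (hc.subset (by
      rintro P ⟨h1, -, h2⟩
      exact ⟨h1, h2⟩)) (fun P hP => hP.2.1) (fun P hP => hP.1) c
  refine ⟨s, hs, hs0, fun m f hf Q hQF hQ => ?_⟩
  refine mem_localRing_of_reg hy fun P hP hPQ => ?_
  have hPF := through_horizontal hFP hQF hPQ
  have hPc := hPQ.centred hQ
  have h1 : (c P : ℤ) ≤ P.ord s := by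
    by_cases h0 : c P = 0
    · rw [h0]
      exact (P.reg_iff hs0).1 (hPc.reg s hs)
    · exact hsP P ⟨hP, hPc, h0⟩
  rcases hf P hP hPF with h2 | h2
  · left
    rw [h2, zero_mul]
  by_cases hf0 : f = 0
  · left
    rw [hf0, zero_mul]
  right
  rw [P.ord_mul hf0 (pow_ne_zero _ hs0), P.ord_pow]
  push_cast at h2
  nlinarith

/-- the sections of a divisor on the generic fibre -/
def LF (y : Fin (N + 1) → K) (F : IntermediateField ℂ K) (D : Place ℂ K → ℤ) :
    Submodule F K where
  carrier := {f | ∀ P, IsPrimeDivisor y P → Horizontal F P → Og P (-(D P)) f}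
  zero_mem' := fun _ _ _ => og_zero
  add_mem' := fun h h' P hP hPF => (h P hP hPF).add (h' P hP hPF)
  smul_mem' := fun a x h P hP hPF => by
    rw [Algebra.smul_def]
    change Og P _ ((a : K) * x)
    by_cases ha : (a : K) = 0
    · left
      rw [ha, zero_mul]
    · have h1 : Og P 0 (a : K) := Or.inr (hPF _ a.2 ha).ge
      have h2 := h1.mul (h P hP hPF)
      rwa [zero_add] at h2

theorem mem_LF {D : Place ℂ K → ℤ} {f : K} : f ∈ LF y F D ↔
    ∀ P, IsPrimeDivisor y P → Horizontal F P → Og P (-(D P)) f := Iff.rfl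

/-- **The spaces of sections on the generic fibre have finite dimension.** -/
theorem LF_finite (hy : NormalModel y) (hFP : FibreProper y F) {D : Place ℂ K → ℤ}
    (hD : {P | IsPrimeDivisor y P ∧ D P ≠ 0}.Finite) : FiniteDimensional F (LF y F D) := by
  classical
  have hess := hy.ess
  have hessF : Algebra.EssFiniteType F K := Algebra.EssFiniteType.of_comp ℂ F K
  obtain ⟨l, v, hv⟩ := exists_tb F K
  obtain ⟨c, hcdef⟩ : ∃ c : Place ℂ K → ℕ, ∀ P, c P = (D P).toNat := ⟨_, fun _ => rfl⟩
  have hc : {P | IsPrimeDivisor y P ∧ c P ≠ 0}.Finite := by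
    refine hD.subset ?_
    rintro P ⟨hP, hne⟩
    refine ⟨hP, fun h0 => hne ?_⟩
    rw [hcdef, h0]
    rfl
  choose s hs hs0 hsf using fun j => fib_chart hy hFP hc j
  obtain ⟨C, hC⟩ := growth (k := F) (K := K) hv (fd_basis hv) (Finset.univ.image fun j => (s j)⁻¹)
    (fun m => {f | ∀ P, IsPrimeDivisor y P → Horizontal F P → Og P (-((m * c P : ℕ) : ℤ)) f})
    (by
      intro P
      have hPF : Horizontal F (dropP F P) := fun f hf hf0 =>
        P.ord_const (c := ⟨f, hf⟩) fun h => hf0 (congrArg Subtype.val h)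
      obtain ⟨j, hj⟩ := exists_centred hy (dropP F P)
      have h0 : 0 ≤ P.ord (s j) := ((dropP F P).reg_iff (hs0 j)).1 (hj.reg _ (hs j))
      refine ⟨(P.ord (s j)).toNat, fun m _ f hf => ?_⟩
      have h1 := localRing_reg (hsf j m f hf _ hPF hj)
      by_cases hf0 : f = 0
      · exact Or.inl hf0
      right
      rw [(dropP F P).reg_iff (mul_ne_zero hf0 (pow_ne_zero _ (hs0 j)))] at h1
      have h2 : P.ord (f * s j ^ m) = P.ord f + m * P.ord (s j) := by
        rw [P.ord_mul hf0 (pow_ne_zero _ (hs0 j)), P.ord_pow]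
      have h3 : (dropP F P).ord (f * s j ^ m) = P.ord (f * s j ^ m) := rfl
      rw [h3, h2] at h1
      push_cast
      rw [Int.toNat_of_nonneg h0]
      linarith)
    (by
      intro P hP m _ f hf
      have hPF : Horizontal F (dropP F P) := fun f hf hf0 =>
        P.ord_const (c := ⟨f, hf⟩) fun h => hf0 (congrArg Subtype.val h)
      obtain ⟨j, hj⟩ := exists_centred hy (dropP F P)
      have h0 : 0 ≤ P.ord (s j) := ((dropP F P).reg_iff (hs0 j)).1 (hj.reg _ (hs j))
      have h2 := (P.reg_iff (inv_ne_zero (hs0 j))).1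
        (hP _ (Finset.mem_image_of_mem _ (Finset.mem_univ j)))
      rw [P.ord_inv] at h2
      have h3 : P.ord (s j) = 0 := by omega
      have h1 := localRing_reg (hsf j m f hf _ hPF hj)
      by_cases hf0 : f = 0
      · exact Or.inl hf0
      right
      rw [(dropP F P).reg_iff (mul_ne_zero hf0 (pow_ne_zero _ (hs0 j)))] at h1
      have h4 : P.ord (f * s j ^ m) = P.ord f + m * P.ord (s j) := by
        rw [P.ord_mul hf0 (pow_ne_zero _ (hs0 j)), P.ord_pow]
      have h5 : (dropP F P).ord (f * s j ^ m) = P.ord (f * s j ^ m) := rfl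
      rw [h5, h4, h3] at h1
      linarith)
  have hbound : ∀ (r : ℕ) (f : Fin r → K), LinearIndependent F f → (∀ i, f i ∈ LF y F D) →
      r ≤ C * 1 ^ l := by
    intro r f hf hfm
    refine hC 1 le_rfl r f hf fun i P hP hPF => ?_
    refine (hfm i P hP hPF).mono ?_
    rw [hcdef, one_mul, Int.toNat_eq_max]
    have := le_max_left (D P) 0
    omega
  by_contra hcon
  have h1 : ∃ f : Fin (C * 1 ^ l + 1) → LF y F D, LinearIndependent F f := by
    rw [FiniteDimensional, ← Module.rank_lt_aleph0_iff] at hcon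
    push Not at hcon
    have h2 : ((C * 1 ^ l + 1 : ℕ) : Cardinal) ≤ Module.rank F (LF y F D) :=
      (Cardinal.natCast_lt_aleph0).le.trans hcon
    obtain ⟨s, hs, hsi⟩ := le_rank_iff_exists_linearIndependent_finset.1 h2
    refine ⟨fun i => ((s.equivFinOfCardEq hs).symm i : LF y F D), ?_⟩
    exact hsi.comp _ (s.equivFinOfCardEq hs).symm.injective
  obtain ⟨f, hf⟩ := h1
  have h2 := hbound _ (fun i => (f i : K)) (hf.map' (LF y F D).subtype (by simp))
    fun i => (f i).2
  omega

end

section

variable {k K ι : Type} [Field k] [CharZero k] [Field K] [Algebra k K] [Fintype ι]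
  {F : IntermediateField k K} {D : ι → Derivation k K K} {w : ι → ℕ}

/-- the elements of a finite dimensional invariant space are nilpotent -/
theorem fd_nilp (hs : NilSys F D w) (V : Submodule F K) (hV : FiniteDimensional F V)
    (hst : ∀ i, ∀ x ∈ V, D i x ∈ V) : ∀ x ∈ V, Nilp D x := by
  classical
  obtain ⟨S, hS⟩ : ∃ S : Set K, ∀ s, s ∈ S ↔ Nilp D s ∧ ∀ v ∈ V, Nilp D (s * v) :=
    ⟨{s | _}, fun _ => Iff.rfl⟩
  have hNc : ∀ c ∈ F, ∀ s, Nilp D s → Nilp D (c * s) := fun c hc s ⟨n, hn⟩ =>
    ⟨n, kil_smul hs.kills hc n s hn⟩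
  have hSst : ∀ i, ∀ s ∈ S, D i s ∈ S := by
    intro i s hs'
    rw [hS] at hs' ⊢
    refine ⟨hs'.1.der i, fun v hv => ?_⟩
    have h1 : D i s * v = D i (s * v) + -(s * D i v) := by
      rw [(D i).leibniz, smul_eq_mul, smul_eq_mul]
      ring
    rw [h1]
    exact ((hs'.2 v hv).der i).add (hs'.2 _ (hst i v hv)).neg
  -- a common denominator
  obtain ⟨T, hT⟩ : V.FG := Module.Finite.iff_fg.1 hV
  choose a b ha hb hb0 hab using fun x => hs.frac x
  obtain ⟨q, hq0, hqN, hqT⟩ : ∃ q : K, q ≠ 0 ∧ Nilp D q ∧ ∀ t ∈ T, Nilp D (q * t) := by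
    refine ⟨∏ t ∈ T, b t, Finset.prod_ne_zero_iff.2 fun t _ => hb0 t,
      (nilRing D).prod_mem fun t _ => hb t, fun t ht => ?_⟩
    rw [← Finset.mul_prod_erase T b ht]
    have h1 : b t * (∏ x ∈ T.erase t, b x) * t = (∏ x ∈ T.erase t, b x) * a t := by
      have h3 : t * b t = a t := (eq_div_iff (hb0 t)).1 (hab t)
      rw [← h3]
      ring
    rw [h1]
    exact ((nilRing D).prod_mem fun t _ => hb t).mul (ha t)
  have hqS : q ∈ S := by
    rw [hS]
    refine ⟨hqN, fun v hv => ?_⟩
    rw [← hT] at hv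
    induction hv using Submodule.span_induction with
    | mem v hv => exact hqT v hv
    | zero => rw [mul_zero]; exact nilp_zero
    | add u v _ _ h h' => rw [mul_add]; exact h.add h'
    | smul c v _ h =>
      rw [Algebra.smul_def]
      change Nilp D (q * ((c : K) * v))
      have h1 : q * ((c : K) * v) = (c : K) * (q * v) := by ring
      rw [h1]
      exact hNc _ c.2 _ h
  obtain ⟨nq, hnq⟩ := hqN
  obtain ⟨c, hcS, hc0, hcD⟩ := exists_last (D := D) S hSst nq q hqS hq0 hnq
  have hcF := hs.const c hcD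
  rw [hS] at hcS
  intro x hx
  have h1 := hNc c⁻¹ (F.inv_mem hcF) _ (hcS.2 x hx)
  rwa [inv_mul_cancel_left₀ hc0] at h1

end

section

variable {K ι : Type} [Field K] [Algebra ℂ K] [Fintype ι] {N n : ℕ} {y : Fin (N + 1) → K}
  {F : IntermediateField ℂ K} {D : ι → Derivation ℂ K K} {w : ι → ℕ}

/-- the vector fields are logarithmic at `P` -/
def Stab (D : ι → Derivation ℂ K K) (P : Place ℂ K) : Prop := ∀ i, DerLog P (D i)

/-- the spaces of sections of divisors which are supported on stable primes are invariant -/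
theorem LF_stable (hreg : ∀ P, IsPrimeDivisor y P → Horizontal F P → ∀ i, DerReg P (D i))
    {A : Place ℂ K → ℤ}
    (hA : ∀ P, IsPrimeDivisor y P → Horizontal F P → ¬ Stab D P → A P = 0) (i : ι) {f : K}
    (hf : f ∈ LF y F A) : D i f ∈ LF y F A := by
  intro P hP hPF
  by_cases hst : Stab D P
  · exact DerLog.ge (hst i) (hf P hP hPF)
  · have h1 := hA P hP hPF hst
    have h2 := hf P hP hPF
    rw [h1, neg_zero] at h2 ⊢
    exact hreg P hP hPF i f h2

end

end Pool.Agent.H892
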