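import Pool.Agent.H892.B4

/-!
Varieties whose generic fibre over a base has an action of a nilpotent Lie algebra with a rational
open orbit: moving divisors to the stable prime divisors.
-/

set_option autoImplicit false
set_option linter.unusedSectionVars false
set_option linter.overlappingInstances false

open FF Pool.Agent.W602.GT Pool.Agent.W603.LV Pool.Agent.Y172 Pool.Agent.TH122.AB Pool.Agent.NH31

namespace Pool.Agent.H892

section

variable {K ι : Type} [Field K] [Algebra ℂ K] [Fintype ι] {N n d : ℕ} {y : Fin (N + 1) → K}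
  {F : IntermediateField ℂ K} {D : ι → Derivation ℂ K K} {w : ι → ℕ} {x : Fin d → K}

/-- the data of the action on the generic fibre -/
structure UniData (y : Fin (N + 1) → K) (F : IntermediateField ℂ K) (D : ι → Derivation ℂ K K)
    (w : ι → ℕ) (x : Fin d → K) : Prop where
  sys : NilSys F D w
  gens : Gens (k := F) x
  poly : ∀ i (q : MvPolynomial (Fin d) F), ∃ q' : MvPolynomial (Fin d) F,
    D i (MvPolynomial.aeval x q) = MvPolynomial.aeval x q'
  nilp : ∀ q : MvPolynomial (Fin d) F, Nilp D (MvPolynomial.aeval x q)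
  reg : ∀ P, IsPrimeDivisor y P → Horizontal F P → ∀ i, DerReg P (D i)
  proper : FibreProper y F

theorem kil_iter {i : ι} : ∀ (n : ℕ) (s : K), Kil D n s → (D i)^[n] s = 0 := by
  intro n
  induction n with
  | zero => exact fun s h => h
  | succ n ih =>
    intro s h
    rw [Function.iterate_succ_apply]
    exact ih _ (h i)

theorem adic_eq (hG : Gens (k := F) x) {p : MvPolynomial (Fin d) F} (hp : Irreducible p)
    {P P' : Place ℂ K} (h1 : P.ord (MvPolynomial.aeval x p) = 1) (hP : Adic P x p)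
    (h1' : P'.ord (MvPolynomial.aeval x p) = 1) (hP' : Adic P' x p) : P = P' := by
  have h := adic_unique hG hp (v := liftP P F hP.triv) (v' := liftP P' F hP'.triv) h1 hP h1' hP'
  have h2 : (liftP P F hP.triv).ord = (liftP P' F hP'.triv).ord := by rw [h]
  exact Place.ext h2

/-- **Moving.** There are polynomials with given orders at the prime divisors which are not
stable. -/
theorem exists_move (h : UniData y F D w x) {c : Place ℂ K → ℕ}
    (hc : {P | IsPrimeDivisor y P ∧ c P ≠ 0}.Finite) :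
    ∃ g : MvPolynomial (Fin d) F, g ≠ 0 ∧ ∀ P, IsPrimeDivisor y P → Horizontal F P →
      ¬ Stab D P → P.ord (MvPolynomial.aeval x g) = c P := by
  classical
  have hex : ∀ P : Place ℂ K, ∃ p : MvPolynomial (Fin d) F, p ≠ 0 ∧ (IsPrimeDivisor y P →
      Horizontal F P → ¬ Stab D P → Irreducible p ∧ P.ord (MvPolynomial.aeval x p) = 1 ∧
        Adic P x p) := by
    intro P
    by_cases hP : IsPrimeDivisor y P ∧ Horizontal F P ∧ ¬ Stab D P
    · obtain ⟨hP1, hP2, hP3⟩ := hP
      unfold Stab at hP3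
      push Not at hP3
      obtain ⟨i, hi⟩ := hP3
      obtain ⟨p, hp, hp1, hpa⟩ := exists_adic_of_nonlog h.gens (h.poly i) (fun q => by
        obtain ⟨m, hm⟩ := h.nilp q
        exact ⟨m, kil_iter m _ hm⟩) (h.reg P hP1 hP2 i) hi
      exact ⟨p, hp.ne_zero, fun _ _ _ => ⟨hp, hp1, hpa⟩⟩
    · exact ⟨1, one_ne_zero, fun h1 h2 h3 => absurd ⟨h1, h2, h3⟩ hP⟩
  choose p hp0 hp using hex
  have hT : {P | IsPrimeDivisor y P ∧ Horizontal F P ∧ ¬ Stab D P ∧ c P ≠ 0}.Finite :=
    hc.subset fun P hP => ⟨hP.1, hP.2.2.2⟩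
  have hne : ∀ P, MvPolynomial.aeval x (p P) ≠ 0 := fun P => h.gens.ne (hp0 P)
  have hoff : ∀ P P', IsPrimeDivisor y P → Horizontal F P → ¬ Stab D P →
      IsPrimeDivisor y P' → Horizontal F P' → ¬ Stab D P' → P ≠ P' →
      P'.ord (MvPolynomial.aeval x (p P)) = 0 := by
    intro P P' h1 h2 h3 h1' h2' h3' hPP'
    obtain ⟨hi, ho, ha⟩ := hp P h1 h2 h3
    obtain ⟨hi', ho', ha'⟩ := hp P' h1' h2' h3'
    rw [((ha' _ (hp0 P)).2)]
    intro hdvd
    apply hPP'
    have hass : Associated (p P') (p P) := hi'.associated_of_dvd hi hdvd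
    have hdvd' : p P ∣ p P' := hass.symm.dvd
    have ha2 : Adic P x (p P') := by
      intro Q hQ
      refine ⟨(ha Q hQ).1, ?_⟩
      rw [(ha Q hQ).2]
      exact not_congr ⟨fun h => hdvd.trans h, fun h => hdvd'.trans h⟩
    have ho2 : P.ord (MvPolynomial.aeval x (p P')) = 1 := by
      obtain ⟨r, hr⟩ := hdvd
      have hr0 : r ≠ 0 := by
        rintro rfl
        rw [mul_zero] at hr
        exact hp0 P hr
      have h4 := (ha2 r hr0).1
      have h5 : P.ord (MvPolynomial.aeval x (p P')) ≠ 0 := by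
        intro h0
        exact ((ha2 _ (hp0 P')).2.1 h0) dvd_rfl
      have h6 := (ha2 _ (hp0 P')).1
      have h7 := ho
      rw [hr, map_mul, P.ord_mul (hne P') (h.gens.ne hr0)] at h7
      omega
    exact adic_eq h.gens hi' ho2 ha2 ho' ha'
  refine ⟨∏ P ∈ hT.toFinset, p P ^ c P, Finset.prod_ne_zero_iff.2 fun P _ =>
    pow_ne_zero _ (hp0 P), fun P' h1 h2 h3 => ?_⟩
  rw [map_prod, Pool.Agent.W619.PQ.ord_prod _ P' _ fun P _ => by
    rw [map_pow]
    exact pow_ne_zero _ (hne P)]
  have hterm : ∀ P ∈ hT.toFinset, P ≠ P' → P'.ord (MvPolynomial.aeval x (p P ^ c P)) = 0 := by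
    intro P hP hPP'
    rw [Set.Finite.mem_toFinset] at hP
    rw [map_pow, P'.ord_pow, hoff P P' hP.1 hP.2.1 hP.2.2.1 h1 h2 h3 hPP', mul_zero]
  by_cases hP' : P' ∈ hT.toFinset
  · rw [Finset.sum_eq_single P' (fun P hP hne' => hterm P hP hne') fun h4 => absurd hP' h4,
      map_pow, P'.ord_pow, (hp P' h1 h2 h3).2.1, mul_one]
  · rw [Finset.sum_eq_zero fun P hP => hterm P hP fun h4 => hP' (h4 ▸ hP)]
    rw [Set.Finite.mem_toFinset] at hP'
    by_contra hne'
    exact hP' ⟨h1, h2, h3, fun h4 => hne' (by rw [h4]; rfl)⟩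

/-- an effective divisor on the generic fibre is linearly equivalent to an effective divisor which
is supported on stable primes -/
theorem move_effective (h : UniData y F D w x) {A : Place ℂ K → ℤ}
    (hA : {P | IsPrimeDivisor y P ∧ A P ≠ 0}.Finite)
    (hA0 : ∀ P, IsPrimeDivisor y P → Horizontal F P → 0 ≤ A P) :
    ∃ g : K, g ≠ 0 ∧ Nilp D g ∧
      (∀ P, IsPrimeDivisor y P → Horizontal F P → ¬ Stab D P → A P - P.ord g = 0) ∧
      ∀ P, IsPrimeDivisor y P → Horizontal F P → 0 ≤ A P - P.ord g := by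
  obtain ⟨G, hG0, hG⟩ := exists_move h (c := fun P => (A P).toNat) (hA.subset (by
    rintro P ⟨hP, hne⟩
    exact ⟨hP, fun h0 => hne (by rw [h0]; rfl)⟩))
  obtain ⟨g, hg⟩ : ∃ g, g = MvPolynomial.aeval x G := ⟨_, rfl⟩
  have hg0 : g ≠ 0 := hg ▸ h.gens.ne hG0
  have hgN : Nilp D g := hg ▸ h.nilp G
  rw [← hg] at hG
  have h1 : ∀ P, IsPrimeDivisor y P → Horizontal F P → ¬ Stab D P → A P - P.ord g = 0 := by
    intro P hP hPF hst
    rw [hG P hP hPF hst, Int.toNat_of_nonneg (hA0 P hP hPF), sub_self]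
  refine ⟨g, hg0, hgN, h1, fun P hP hPF => ?_⟩
  obtain ⟨n, hn⟩ := hgN
  obtain ⟨c, hcS, hc0, hcD⟩ := exists_last (D := D) (LF y F fun P => A P - P.ord g)
    (fun i f hf => LF_stable h.reg h1 i hf) n g (fun P hP hPF => by
      right
      have := hA0 P hP hPF
      change -(A P - P.ord g) ≤ P.ord g
      omega) hg0 hn
  have hcF := h.sys.const c hcD
  have h2 : -(A P - P.ord g) ≤ P.ord c := (hcS P hP hPF).resolve_left hc0
  rw [hPF c hcF hc0] at h2
  omega

end

end Pool.Agent.H892
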