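import Pool.Agent.H892.B5

/-!
Growth of the sections on varieties whose generic fibre over a base below the Iitaka fibration has an
action of a nilpotent Lie algebra with a rational open orbit.
-/

set_option autoImplicit false
set_option linter.unusedSectionVars false
set_option linter.overlappingInstances false

open FF Pool.Agent.W602.GT Pool.Agent.W603.LV Pool.Agent.Y172 Pool.Agent.TH122.AB Pool.Agent.NH31

namespace Pool.Agent.H892

section

variable {K : Type} [Field K] [Algebra ℂ K] {N n : ℕ} {y : Fin (N + 1) → K}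
  {F : IntermediateField ℂ K}

/-- quotients of sections on the generic fibre over a base below the Iitaka fibration are algebraic
over the field of the quotients of sections -/
theorem ratio_mem (hy : NormalModel y) {U : Place ℂ K → ℚ} (hU : FinSup y U)
    {a : ℕ} (ha : 1 ≤ a) {σ : K} (hσ : Fn y (a • U) σ) (hσ0 : σ ≠ 0)
    (hF : ∀ x ∈ F, IsAlgebraic (IntermediateField.adjoin ℂ (rat y U)) x) {m : ℕ} {f g : K}
    (hf : Fh y F (m • U) f) (hg : Fh y F (m • U) g) (hf0 : f ≠ 0) (hg0 : g ≠ 0) :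
    f / g ∈ acl ℂ (rat y U) := by
  classical
  have hTfin : {P | IsPrimeDivisor y P ∧ ¬ Horizontal F P ∧ (U P ≠ 0 ∨ P.ord f ≠ 0 ∨
      P.ord g ≠ 0)}.Finite := by
    refine (hU.union ((finite_ord hy hf0).union (finite_ord hy hg0))).subset ?_
    rintro P ⟨hP, -, h1 | h1 | h1⟩
    · exact Or.inl ⟨hP, h1⟩
    · exact Or.inr (Or.inl ⟨hP, h1⟩)
    · exact Or.inr (Or.inr ⟨hP, h1⟩)
  obtain ⟨c, hc⟩ : ∃ c : ℚ, ∀ P ∈ hTfin.toFinset, -((m : ℚ) * U P) - P.ord f ≤ c ∧
      -((m : ℚ) * U P) - P.ord g ≤ c := by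
    refine ⟨∑ P ∈ hTfin.toFinset, (|-((m : ℚ) * U P) - P.ord f| +
      |-((m : ℚ) * U P) - P.ord g|), fun P hP => ?_⟩
    have h1 := Finset.single_le_sum (f := fun P : Place ℂ K => |-((m : ℚ) * U P) - P.ord f| +
      |-((m : ℚ) * U P) - P.ord g|) (fun _ _ => add_nonneg (abs_nonneg _) (abs_nonneg _)) hP
    have h2 := le_abs_self (-((m : ℚ) * U P) - P.ord f)
    have h3 := le_abs_self (-((m : ℚ) * U P) - P.ord g)
    have h4 := abs_nonneg (-((m : ℚ) * U P) - P.ord f)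
    have h5 := abs_nonneg (-((m : ℚ) * U P) - P.ord g)
    exact ⟨by linarith, by linarith⟩
  obtain ⟨mt, τ, hτ0, hτ, hτT⟩ := exists_van_all ha hσ hσ0 hF c hTfin.toFinset (by
    intro P hP
    rw [Set.Finite.mem_toFinset] at hP
    exact ⟨hP.1, hP.2.1⟩)
  have key : ∀ z : K, z ≠ 0 → Fh y F (m • U) z →
      (∀ P ∈ hTfin.toFinset, -((m : ℚ) * U P) - P.ord z ≤ c) →
      (∀ P, IsPrimeDivisor y P → ¬ Horizontal F P → P ∉ hTfin.toFinset → P.ord z = 0) →
      Fn y ((a + mt + m) • U) (σ * τ * z) := by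
    intro z hz0 hz hzc hzo P hP
    right
    have h1 := (hσ P hP).resolve_left hσ0
    have h2 := (hτ P hP).resolve_left hτ0
    rw [P.ord_mul (mul_ne_zero hσ0 hτ0) hz0, P.ord_mul hσ0 hτ0]
    rw [smul_ap] at h1 h2 ⊢
    push_cast
    by_cases hPF : Horizontal F P
    · have h4 := (hz P hP hPF).resolve_left hz0
      rw [smul_ap] at h4
      linarith
    · by_cases hPT : P ∈ hTfin.toFinset
      · have h4 := hzc P hPT
        have h5 := hτT P hPT
        linarith
      · have h5 := hzo P hP hPF hPT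
        rw [Set.Finite.mem_toFinset] at hPT
        have h4 : U P = 0 := by
          by_contra h6
          exact hPT ⟨hP, hPF, Or.inl h6⟩
        rw [h4] at h1 h2 ⊢
        rw [h5]
        push_cast
        linarith
  have hs1 := key f hf0 hf (fun P hP => (hc P hP).1) fun P hP hPF hPT => by
    by_contra h6
    exact hPT (by
      rw [Set.Finite.mem_toFinset]
      exact ⟨hP, hPF, Or.inr (Or.inl h6)⟩)
  have hs2 := key g hg0 hg (fun P hP => (hc P hP).2) fun P hP hPF hPT => by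
    by_contra h6
    exact hPT (by
      rw [Set.Finite.mem_toFinset]
      exact ⟨hP, hPF, Or.inr (Or.inr h6)⟩)
  refine subset_acl _ ⟨a + mt + m, σ * τ * f, σ * τ * g, by omega, hs1, hs2,
    mul_ne_zero (mul_ne_zero hσ0 hτ0) hg0, ?_⟩
  rw [mul_div_mul_left _ _ (mul_ne_zero hσ0 hτ0)]

end

section

variable {K ι : Type} [Field K] [Algebra ℂ K] [Fintype ι] {N n d : ℕ} {y : Fin (N + 1) → K}
  {F : IntermediateField ℂ K} {D : ι → Derivation ℂ K K} {w : ι → ℕ} {x : Fin d → K}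

/-- **Growth of the sections.** -/
theorem uni_growth (hy : NormalModel y) (h : UniData y F D w x)
    {U : Place ℂ K → ℚ} (hU : FinSup y U) {a : ℕ} (ha : 1 ≤ a) {σ : K} (hσ : Fn y (a • U) σ)
    (hσ0 : σ ≠ 0) (hF : ∀ x ∈ F, IsAlgebraic (IntermediateField.adjoin ℂ (rat y U)) x) :
    ∃ (κ m0 : ℕ) (g : Fin (κ + 1) → K), 1 ≤ m0 ∧ (∀ j, Fn y (m0 • U) (g j)) ∧ g 0 ≠ 0 ∧
      AlgebraicIndependent ℂ (fun i : Fin κ => g i.succ / g 0) ∧
      ∀ A, FinSup y A → ∃ C : ℕ, ∀ m : ℕ, 1 ≤ m → ∀ (r : ℕ) (f : Fin r → K),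
        LinearIndependent ℂ f → (∀ i, Fn y (m • U + A) (f i)) → r ≤ C * m ^ κ := by
  classical
  have hess := hy.ess
  obtain ⟨d0, hd0, hden⟩ := exists_den_fin hU
  obtain ⟨N1, hN1def⟩ : ∃ N1, N1 = a * d0 := ⟨_, rfl⟩
  have hN1 : 1 ≤ N1 := by
    rw [hN1def]
    exact Nat.succ_le_of_lt (Nat.mul_pos (by omega) (by omega))
  obtain ⟨h₀, hh₀⟩ : ∃ h₀, h₀ = σ ^ d0 := ⟨_, rfl⟩
  have hh₀0 : h₀ ≠ 0 := by
    rw [hh₀]
    exact pow_ne_zero _ hσ0
  have hh₀U : Fn y (N1 • U) h₀ := by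
    rw [hh₀, hN1def, mul_comm a d0, mul_smul]
    exact hσ.pow d0
  -- the integral divisor
  obtain ⟨A0, hA0def⟩ : ∃ D : Place ℂ K → ℤ, D = fun P => ⌊(P.ord h₀ : ℚ) + N1 * U P⌋ := ⟨_, rfl⟩
  have hDeq : ∀ P, IsPrimeDivisor y P → (A0 P : ℚ) = P.ord h₀ + N1 * U P := by
    intro P hP
    obtain ⟨z, hz⟩ := hden P hP
    have h1 : (P.ord h₀ : ℚ) + N1 * U P = ((P.ord h₀ + a * z : ℤ) : ℚ) := by
      rw [hN1def]
      push_cast
      rw [← hz]
      ring
    rw [hA0def]
    change ((⌊(P.ord h₀ : ℚ) + N1 * U P⌋ : ℤ) : ℚ) = _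
    rw [h1, Int.floor_intCast]
  have hD0 : ∀ P, IsPrimeDivisor y P → 0 ≤ A0 P := by
    intro P hP
    have h1 := (hh₀U P hP).resolve_left hh₀0
    rw [smul_ap] at h1
    have h2 : (0 : ℚ) ≤ A0 P := by
      rw [hDeq P hP]
      linarith
    exact_mod_cast h2
  have hDfin : {P | IsPrimeDivisor y P ∧ A0 P ≠ 0}.Finite := by
    refine (hU.union (finite_ord hy hh₀0)).subset ?_
    rintro P ⟨hP, hne⟩
    by_contra hcon
    rw [Set.mem_union] at hcon
    push Not at hcon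
    have h1 : U P = 0 := by
      by_contra h3
      exact hcon.1 ⟨hP, h3⟩
    have h2 : P.ord h₀ = 0 := by
      by_contra h3
      exact hcon.2 ⟨hP, h3⟩
    have h3 := hDeq P hP
    rw [h1, h2, mul_zero, Int.cast_zero, add_zero] at h3
    exact hne (by exact_mod_cast h3)
  -- moving
  obtain ⟨g, hg0, hgN, hg1, hg2⟩ := move_effective h hDfin fun P hP _ => hD0 P hP
  obtain ⟨D1, hD1⟩ : ∃ D1 : Place ℂ K → ℤ, ∀ P, D1 P = A0 P - P.ord g := ⟨_, fun _ => rfl⟩
  have hD1fin : {P | IsPrimeDivisor y P ∧ D1 P ≠ 0}.Finite := by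
    refine (hDfin.union (finite_ord hy hg0)).subset ?_
    rintro P ⟨hP, hne⟩
    by_contra hcon
    rw [Set.mem_union] at hcon
    push Not at hcon
    have h1 : A0 P = 0 := by
      by_contra h3
      exact hcon.1 ⟨hP, h3⟩
    have h2 : P.ord g = 0 := by
      by_contra h3
      exact hcon.2 ⟨hP, h3⟩
    exact hne (by rw [hD1, h1, h2, sub_zero])
  have hD1s : ∀ P, IsPrimeDivisor y P → Horizontal F P → ¬ Stab D P → D1 P = 0 :=
    fun P hP hPF hst => by rw [hD1]; exact hg1 P hP hPF hst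
  have hD10 : ∀ P, IsPrimeDivisor y P → Horizontal F P → 0 ≤ D1 P :=
    fun P hP hPF => by rw [hD1]; exact hg2 P hP hPF
  -- the spaces
  obtain ⟨Wof, hWof⟩ : ∃ Wof : (Place ℂ K → ℤ) → Set K, ∀ A f, f ∈ Wof A ↔
      ∃ m : ℕ, f ∈ LF y F (m • D1 + A) := ⟨fun A => {f | _}, fun _ _ => Iff.rfl⟩
  obtain ⟨𝒲, h𝒲⟩ : ∃ 𝒲 : Set (Set K), ∀ W, W ∈ 𝒲 ↔ ∃ A : Place ℂ K → ℤ,
      {P | IsPrimeDivisor y P ∧ A P ≠ 0}.Finite ∧
      (∀ P, IsPrimeDivisor y P → Horizontal F P → ¬ Stab D P → A P = 0) ∧ W = Wof A :=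
    ⟨{W | _}, fun _ => Iff.rfl⟩
  have hLs : ∀ (A : Place ℂ K → ℤ),
      (∀ P, IsPrimeDivisor y P → Horizontal F P → ¬ Stab D P → A P = 0) → ∀ m : ℕ,
      ∀ P, IsPrimeDivisor y P → Horizontal F P → ¬ Stab D P → (m • D1 + A) P = 0 := by
    intro A hA m P hP hPF hst
    rw [Pi.add_apply, Pi.smul_apply, hD1s P hP hPF hst, hA P hP hPF hst, smul_zero, add_zero]
  have hLf : ∀ (A : Place ℂ K → ℤ), {P | IsPrimeDivisor y P ∧ A P ≠ 0}.Finite → ∀ m : ℕ,
      {P | IsPrimeDivisor y P ∧ (m • D1 + A) P ≠ 0}.Finite := by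
    intro A hA m
    refine (hD1fin.union hA).subset ?_
    rintro P ⟨hP, hne⟩
    by_contra hcon
    rw [Set.mem_union] at hcon
    push Not at hcon
    have h1 : D1 P = 0 := by
      by_contra h3
      exact hcon.1 ⟨hP, h3⟩
    have h2 : A P = 0 := by
      by_contra h3
      exact hcon.2 ⟨hP, h3⟩
    exact hne (by rw [Pi.add_apply, Pi.smul_apply, h1, h2, smul_zero, add_zero])
  obtain ⟨F', hFF', hF'A, hfd⟩ := chain (w := w) (acl ℂ (rat y U)) 𝒲 _ F D h.sys
    (fun z hz => mem_acl.2 (hF z hz))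
    (by
      intro W hW i z hz
      obtain ⟨A, -, hA, rfl⟩ := (h𝒲 W).1 hW
      obtain ⟨m, hm⟩ := (hWof A z).1 hz
      exact Submodule.subset_span ((hWof A _).2 ⟨m, LF_stable h.reg (hLs A hA m) i hm⟩))
    (by
      intro W hW z hz
      obtain ⟨A, hAf, hA, rfl⟩ := (h𝒲 W).1 hW
      obtain ⟨m, hm⟩ := (hWof A z).1 hz
      exact fd_nilp h.sys _ (LF_finite hy h.proper (hLf A hAf m))
        (fun i z hz => LF_stable h.reg (hLs A hA m) i hz) z hm)
    (by
      intro F' hFF' hF'A W hW t ht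
      obtain ⟨A, -, hA, rfl⟩ := (h𝒲 W).1 hW
      by_cases ht0 : t = 0
      · rw [ht0]
        exact zero_mem _
      have htr : ∀ P, IsPrimeDivisor y P → Horizontal F' P → D1 P = 0 → 0 ≤ P.ord t := by
        intro P hP hPF hD
        refine (P.reg_iff ht0).1 (ht P hPF ⟨-(A P), fun z hz => ?_⟩)
        obtain ⟨m, hm⟩ := (hWof A z).1 hz
        have h1 := hm P hP fun f hf => hPF f (hFF' hf)
        rw [Pi.add_apply, Pi.smul_apply, hD, smul_zero, zero_add] at h1
        exact h1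
      have hfin := finite_ord hy ht0
      obtain ⟨M, hM⟩ : ∃ M : ℕ, M = ∑ P ∈ hfin.toFinset, (P.ord t).natAbs := ⟨_, rfl⟩
      have hMt : ∀ P, IsPrimeDivisor y P → Horizontal F' P → -(M * D1 P : ℤ) ≤ P.ord t := by
        intro P hP hPF
        by_cases hD : D1 P = 0
        · rw [hD, mul_zero, neg_zero]
          exact htr P hP hPF hD
        · have h1 := hD10 P hP fun f hf => hPF f (hFF' hf)
          have h2 : 1 ≤ D1 P := by omega
          by_cases h3 : P.ord t = 0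
          · rw [h3]
            have : (0 : ℤ) ≤ M * D1 P := mul_nonneg (Int.natCast_nonneg _) h1
            omega
          · have h4 : (P.ord t).natAbs ≤ M := by
              rw [hM]
              exact Finset.single_le_sum (f := fun P : Place ℂ K => (P.ord t).natAbs)
                (fun _ _ => Nat.zero_le _) ((Set.Finite.mem_toFinset _).2 ⟨hP, h3⟩)
            have h5 : (M : ℤ) ≤ M * D1 P := by nlinarith [Int.natCast_nonneg M]
            omega
      obtain ⟨ρ, hρ⟩ : ∃ ρ, ρ = (h₀ / g) ^ M := ⟨_, rfl⟩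
      have hρ0 : ρ ≠ 0 := by
        rw [hρ]
        exact pow_ne_zero _ (div_ne_zero hh₀0 hg0)
      have hρo : ∀ P, IsPrimeDivisor y P → (P.ord ρ : ℚ) = M * D1 P - M * N1 * U P := by
        intro P hP
        rw [hρ, P.ord_pow, P.ord_div hh₀0 hg0, hD1]
        have h1 := hDeq P hP
        push_cast
        rw [h1]
        ring
      have h1 : Fh y F' ((M * N1) • U) ρ := by
        intro P hP hPF
        right
        rw [hρo P hP, smul_ap]
        have h2 : (0 : ℚ) ≤ D1 P := by exact_mod_cast hD10 P hP fun f hf => hPF f (hFF' hf)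
        have h3 : (0 : ℚ) ≤ M * D1 P := mul_nonneg (Nat.cast_nonneg _) h2
        push_cast
        linarith
      have h2 : Fh y F' ((M * N1) • U) (t * ρ) := by
        intro P hP hPF
        right
        rw [P.ord_mul ht0 hρ0, smul_ap]
        have h3 : (-(M * D1 P : ℤ) : ℚ) ≤ P.ord t := by exact_mod_cast hMt P hP hPF
        have h4 := hρo P hP
        push_cast at h3 h4 ⊢
        linarith
      have h3 := ratio_mem hy hU ha hσ hσ0 (fun z hz => mem_acl.1 (hF'A hz)) h2 h1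
        (mul_ne_zero ht0 hρ0) hρ0
      rwa [mul_div_cancel_right₀ _ hρ0] at h3)
    rfl
  -- the lower bound
  have hessF : Algebra.EssFiniteType F' K := Algebra.EssFiniteType.of_comp ℂ F' K
  obtain ⟨b, u, hu⟩ := exists_tb_sub F'
  obtain ⟨l, v, hv⟩ := exists_tb F' K
  have hF'' : ∀ x ∈ F', IsAlgebraic (IntermediateField.adjoin ℂ (rat y U)) x :=
    fun z hz => mem_acl.1 (hF'A hz)
  have hui : AlgebraicIndependent ℂ fun i => (u i : K) :=
    hu.1.map' (f := IsScalarTower.toAlgHom ℂ F' K) (algebraMap F' K).injective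
  obtain ⟨m0, G, hm0, hG, hG0, hGi⟩ := fh_lower hy hU (fun _ _ => le_rfl) ha hσ hσ0 hF''
    (z := fun i => (u i : K)) hui (m := fun _ => a) (f := fun i => (u i : K) * σ)
    (g := fun _ => σ) (fun i => by
      intro P hP hPF
      by_cases hx0 : (u i : K) = 0
      · left
        rw [hx0, zero_mul]
      · right
        rw [P.ord_mul hx0 hσ0, hPF _ (u i).2 hx0, zero_add]
        exact (hσ P hP).resolve_left hσ0) (fun i P hP _ => hσ P hP) (fun _ => hσ0)
    (fun i => by rw [mul_div_assoc, div_self hσ0, mul_one])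
  refine ⟨b, m0, G, hm0, hG, hG0, hGi, ?_⟩
  -- the upper bound
  intro A hA
  obtain ⟨A2, hA2⟩ : ∃ A2 : Place ℂ K → ℕ, ∀ P, A2 P = N1 * bnd U P + bnd A P :=
    ⟨_, fun _ => rfl⟩
  have hA2fin : {P | IsPrimeDivisor y P ∧ A2 P ≠ 0}.Finite := by
    refine ((bnd_sup hU).union (bnd_sup hA)).subset ?_
    rintro P ⟨hP, hne⟩
    by_contra hcon
    rw [Set.mem_union] at hcon
    push Not at hcon
    have h1 : bnd U P = 0 := by
      by_contra h3
      exact hcon.1 ⟨hP, h3⟩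
    have h2 : bnd A P = 0 := by
      by_contra h3
      exact hcon.2 ⟨hP, h3⟩
    exact hne (by rw [hA2, h1, h2, mul_zero])
  obtain ⟨Q, hQ0, hQ⟩ := exists_move h hA2fin
  obtain ⟨q, hq⟩ : ∃ q, q = MvPolynomial.aeval x Q := ⟨_, rfl⟩
  have hq0 : q ≠ 0 := hq ▸ h.gens.ne hQ0
  rw [← hq] at hQ
  obtain ⟨A3, hA3⟩ : ∃ A3 : Place ℂ K → ℤ, ∀ P, A3 P = A2 P - P.ord q := ⟨_, fun _ => rfl⟩
  have hA3s : ∀ P, IsPrimeDivisor y P → Horizontal F P → ¬ Stab D P → A3 P = 0 := by
    intro P hP hPF hst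
    rw [hA3, hQ P hP hPF hst, sub_self]
  have hA3fin : {P | IsPrimeDivisor y P ∧ A3 P ≠ 0}.Finite := by
    refine (hA2fin.union (finite_ord hy hq0)).subset ?_
    rintro P ⟨hP, hne⟩
    by_contra hcon
    rw [Set.mem_union] at hcon
    push Not at hcon
    have h1 : A2 P = 0 := by
      by_contra h3
      exact hcon.1 ⟨hP, h3⟩
    have h2 : P.ord q = 0 := by
      by_contra h3
      exact hcon.2 ⟨hP, h3⟩
    exact hne (by rw [hA3, h1, h2, Nat.cast_zero, sub_zero])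
  have hW3 : Wof A3 ∈ 𝒲 := (h𝒲 _).2 ⟨A3, hA3fin, hA3s, rfl⟩
  have hfd3 := hfd _ hW3
  obtain ⟨C, hC⟩ : ∃ C, C = Module.finrank F' (Submodule.span F' (Wof A3)) := ⟨_, rfl⟩
  obtain ⟨C', hC'⟩ := fn_rank_growth hy hu hv hU hA (fun _ => C) (by
    intro m hm r f hf hfm
    obtain ⟨s, hs⟩ : ∃ s : K, s = (h₀ ^ (m / N1))⁻¹ * g ^ (m / N1 + 1) * q := ⟨_, rfl⟩
    have hs0 : s ≠ 0 := by
      rw [hs]
      exact mul_ne_zero (mul_ne_zero (inv_ne_zero (pow_ne_zero _ hh₀0)) (pow_ne_zero _ hg0)) hq0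
    have h1 : LinearIndependent F' fun i => f i * s := by
      have h2 := hf.map' (LinearMap.mulRight F' s) (LinearMap.ker_eq_bot.2
        (mul_left_injective₀ hs0))
      exact h2
    have h2 : ∀ i, f i * s ∈ Submodule.span F' (Wof A3) := by
      intro i
      refine Submodule.subset_span ((hWof A3 _).2 ⟨m / N1 + 1, fun P hP hPF => ?_⟩)
      by_cases hf0 : f i = 0
      · left
        rw [hf0, zero_mul]
      right
      have h2 := (hfm i P hP).resolve_left hf0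
      rw [Pi.add_apply, smul_ap] at h2
      have h3 := hDeq P hP
      have h4 : (0 : ℚ) ≤ A0 P := by exact_mod_cast hD0 P hP
      have h5 := le_bnd U P
      have h6 := le_bnd A P
      obtain ⟨e, he⟩ : ∃ e, e = m / N1 := ⟨_, rfl⟩
      obtain ⟨ρ, hρ⟩ : ∃ ρ, ρ = m % N1 := ⟨_, rfl⟩
      rw [← he] at hs ⊢
      have h7 : (m : ℚ) = N1 * e + ρ := by
        rw [he, hρ]
        exact_mod_cast (Nat.div_add_mod m N1).symm
      have h8 : (ρ : ℚ) ≤ N1 := by
        rw [hρ]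
        exact_mod_cast (Nat.mod_lt m (by omega)).le
      have h9 : (0 : ℚ) ≤ ρ := Nat.cast_nonneg _
      have h10 : (0 : ℚ) ≤ bnd U P := Nat.cast_nonneg _
      have h11 : (ρ : ℚ) * U P ≤ N1 * bnd U P :=
        (mul_le_mul_of_nonneg_left h5 h9).trans (mul_le_mul_of_nonneg_right h8 h10)
      have h12 : P.ord (f i * s) = P.ord (f i) - e * P.ord h₀ + (e + 1) * P.ord g + P.ord q := by
        rw [hs, P.ord_mul hf0 (mul_ne_zero (mul_ne_zero (inv_ne_zero (pow_ne_zero _ hh₀0))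
          (pow_ne_zero _ hg0)) hq0), P.ord_mul (mul_ne_zero (inv_ne_zero (pow_ne_zero _ hh₀0))
          (pow_ne_zero _ hg0)) hq0, P.ord_mul (inv_ne_zero (pow_ne_zero _ hh₀0))
          (pow_ne_zero _ hg0), P.ord_inv, P.ord_pow, P.ord_pow]
        push_cast
        ring
      have h13 : (-((((e + 1) • D1 + A3) P : ℤ) : ℚ)) ≤ ((P.ord (f i * s) : ℤ) : ℚ) := by
        rw [h12, Pi.add_apply, Pi.smul_apply, nsmul_eq_mul, hA3, hD1, hA2]
        push_cast
        have h14 : (P.ord h₀ : ℚ) = A0 P - N1 * U P := by linarith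
        rw [h14]
        rw [h7] at h2
        linarith
      exact_mod_cast h13
    have h3 : LinearIndependent F' fun i => (⟨f i * s, h2 i⟩ :
        Submodule.span F' (Wof A3)) := by
      refine LinearIndependent.of_comp (Submodule.span F' (Wof A3)).subtype ?_
      exact h1
    have h4 := h3.fintype_card_le_finrank
    rwa [Fintype.card_fin, ← hC] at h4)
  exact ⟨C' * C, hC'⟩

end

end Pool.Agent.H892
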