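import Pool.Agent.H892.B6

/-!
Abundance for divisors on varieties whose generic fibre over a base below the Iitaka fibration has an
action of a nilpotent Lie algebra with a rational open orbit.
-/

set_option autoImplicit false
set_option linter.unusedSectionVars false
set_option linter.overlappingInstances false

open FF Pool.Agent.W602.GT Pool.Agent.W603.LV Pool.Agent.Y172 Pool.Agent.TH122.AB Pool.Agent.NH31

namespace Pool.Agent.H892

section

variable {K ι : Type} [Field K] [Algebra ℂ K] [Fintype ι] {N n d : ℕ} {y : Fin (N + 1) → K}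
  {F : IntermediateField ℂ K} {D : ι → Derivation ℂ K K} {w : ι → ℕ} {x : Fin d → K}

theorem rat_mono {U U' : Place ℂ K → ℚ} (h : ∀ P, IsPrimeDivisor y P → U P ≤ U' P) :
    rat y U ⊆ rat y U' := by
  have h1 : ∀ m : ℕ, ∀ P, IsPrimeDivisor y P → (m • U) P ≤ (m • U') P := by
    intro m P hP
    rw [smul_ap, smul_ap]
    exact mul_le_mul_of_nonneg_left (h P hP) (Nat.cast_nonneg m)
  rintro z ⟨m, f, g, hm, hf, hg, hg0, rfl⟩
  exact ⟨m, f, g, hm, hf.mono (h1 m), hg.mono (h1 m), hg0, rfl⟩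

/-- **Abundance.** -/
theorem uni_abund (hy : NormalModel y) (hn : Algebra.trdeg ℂ K = n) (h : UniData y F D w x)
    {B V : Place ℂ K → ℚ} (hF : BelowIitaka y n B F) (hV : FinSup y V)
    (hBV : ∀ P, IsPrimeDivisor y P → B P ≤ V P)
    {a : ℕ} (ha : 1 ≤ a) {σ : (Fin n → Derivation ℂ K K) → K} (hσ : IsSection y n a (a • B) σ)
    (hσ0 : σ ≠ 0) : Abund y n V := by
  classical
  obtain ⟨x', E, hx, hE⟩ := exists_crd hn
  obtain ⟨w', hw, hwf⟩ := exists_canon hy hn hx hE
  have hfr := frame_of_dual hx hE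
  -- sections and functions
  have hsec : ∀ (m : ℕ) (D : Place ℂ K → ℚ) (ω : (Fin n → Derivation ℂ K K) → K),
      IsPluri m ω → (IsSection y n m D ω ↔ Fn y (m • w' + D) (ω E)) := by
    intro m D ω hω
    constructor
    · rintro ⟨-, h⟩ P hP
      have h1 := (hwf P hP m ω _ hω).1 (h P hP)
      refine h1.imp_right fun h2 => le_trans (le_of_eq ?_) h2
      simp only [Pi.add_apply, smul_ap]
      ring
    · intro h
      refine ⟨hω, fun P hP => (hwf P hP m ω _ hω).2 ?_⟩
      refine (h P hP).imp_right fun h2 => le_trans (le_of_eq ?_) h2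
      simp only [Pi.add_apply, smul_ap]
      ring
  have hσE : σ E ≠ 0 := fun h => hσ0 (pluri_zero hfr hσ.1 h)
  have h1 : Fn y (a • (w' + B)) (σ E) := by
    rw [smul_add]
    exact (hsec a _ σ hσ.1).1 hσ
  have hrat : pluriRatios y n B ⊆ rat y (w' + B) := by
    rintro f ⟨m, hm, ω, ω', hω, hω', E1, hE1, rfl⟩
    have e1 := pluri_coord hx hE hω.1 E1
    have e2 := pluri_coord hx hE hω'.1 E1
    have hd : (Matrix.of fun i j => E1 i (x' j)).det ^ m ≠ 0 := by
      intro h
      rw [h, zero_mul] at e2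
      exact hE1 e2
    have h0 : ω' E ≠ 0 := by
      intro h
      rw [h, mul_zero] at e2
      exact hE1 e2
    refine ⟨m, ω E, ω' E, hm, ?_, ?_, h0, ?_⟩
    · rw [smul_add]
      exact (hsec m _ ω hω.1).1 hω
    · rw [smul_add]
      exact (hsec m _ ω' hω'.1).1 hω'
    · rw [e1, e2, mul_div_mul_left _ _ hd]
  have hle : ∀ P, IsPrimeDivisor y P → (w' + B) P ≤ (w' + V) P := fun P hP => by
    simp only [Pi.add_apply]
    linarith [hBV P hP]
  have hF' : ∀ z ∈ F, IsAlgebraic (IntermediateField.adjoin ℂ (rat y (w' + V))) z := fun z hz =>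
    isAlg_mono (IntermediateField.adjoin.mono ℂ _ _ (hrat.trans (rat_mono hle))) (hF z hz)
  have h2 : Fn y (a • (w' + V)) (σ E) := h1.mono fun P hP => by
    rw [smul_ap, smul_ap]
    exact mul_le_mul_of_nonneg_left (hle P hP) (Nat.cast_nonneg a)
  obtain ⟨κ, m0, g, hm0, hg, hg0, hind, hup⟩ := uni_growth hy h (U := w' + V) (hw.add hV)
    ha h2 hσE hF'
  refine ⟨κ, m0, fun j => frm x' m0 (g j), hm0, fun j => ?_, ⟨E, ?_, ?_⟩, ?_⟩
  · rw [hsec m0 _ _ (frm_pluri x' m0 (g j)), frm_eval hE, ← smul_add]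
    exact hg j
  · change frm x' m0 (g 0) E ≠ 0
    rw [frm_eval hE]
    exact hg0
  · simp only [frm_eval hE]
    exact hind
  · intro x1 E' hx' hE' A hA
    obtain ⟨C, hC⟩ := hup A hA
    refine ⟨C, fun m hm r f hf h => hC m hm r (fun i =>
      ((Matrix.of fun i j => E' i (x' j)).det ^ m)⁻¹ * f i) ?_ fun i => ?_⟩
    · have hd := det_ne hx' hE' hE
      exact hf.map' (LinearMap.mulLeft ℂ _) (LinearMap.ker_eq_bot.2
        (mul_right_injective₀ (inv_ne_zero (pow_ne_zero _ hd))))
    · have hd := det_ne hx' hE' hE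
      obtain ⟨ω, hω, hωf⟩ := h i
      have h2 := (hsec m _ ω hω.1).1 hω
      have h3 : ω E' = (Matrix.of fun i j => E' i (x' j)).det ^ m * ω E :=
        pluri_coord hx hE hω.1 E'
      have h4 : ((Matrix.of fun i j => E' i (x' j)).det ^ m)⁻¹ * f i = ω E := by
        rw [← hωf, h3, inv_mul_cancel_left₀ (pow_ne_zero _ hd)]
      rw [h4, smul_add, add_assoc]
      exact h2

end

end Pool.Agent.H892
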