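import Pool.Agent.H892.B7

/-!
Finite dimensional Lie algebras of triangular vector fields.
-/

set_option autoImplicit false
set_option linter.unusedSectionVars false
set_option linter.overlappingInstances false

open FF Pool.Agent.W602.GT Pool.Agent.W603.LV Pool.Agent.Y172 Pool.Agent.TH122.AB Pool.Agent.NH31

namespace Pool.Agent.H892

section

variable {K : Type} [Field K] [Algebra ℂ K] {N : ℕ}

/-- The generic fibre, over the base with function field `F`, of the normal projective variety `X`
with generic point `y` has an action of a unipotent Lie algebra with a rational open orbit: `K` is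
generated over `F` by algebraically independent functions `x 0, ..., x (d - 1)`, and there is a
finite dimensional Lie algebra `𝔫` over `F` of derivations of `K` over `F` which is triangular (`D`
maps `x i` to a polynomial in the `x j` with `j < i`, for all `D` in `𝔫`), transitive (the functions
which are killed by `𝔫` are the elements of `F`), and which is regular on the generic fibre of `X`
(the prime divisors on the generic fibre are the horizontal prime divisors of `X`). -/
def UnipotentFibre (y : Fin (N + 1) → K) (F : IntermediateField ℂ K) : Prop :=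
  ∃ (𝔫 : LieSubalgebra F (Derivation F K K)) (d : ℕ) (x : Fin d → K),
    FiniteDimensional F 𝔫 ∧ AlgebraicIndependent F x ∧
    IntermediateField.adjoin F (Set.range x) = ⊤ ∧
    (∀ D ∈ 𝔫, ∀ i, D (x i) ∈ Algebra.adjoin F (x '' {j | j < i})) ∧
    (∀ f : K, (∀ D ∈ 𝔫, D f = 0) → f ∈ F) ∧
    ∀ P, IsPrimeDivisor y P → Horizontal F P → ∀ D ∈ 𝔫, DerReg P (D.restrictScalars ℂ)

end

section

variable {k K ι ι' : Type} [Field k] [CharZero k] [Field K] [Algebra k K] [Fintype ι] [Fintype ι']
  {F : IntermediateField k K}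

/-- the derivations over `k` -/
noncomputable abbrev res (E : Derivation F K K) : Derivation k K K := E.restrictScalars k

theorem res_apply (E : Derivation F K K) (z : K) : res (k := k) E z = E z := rfl

theorem res_kills (E : Derivation F K K) : ∀ f ∈ F, res (k := k) E f = 0 := fun f hf =>
  E.map_algebraMap (⟨f, hf⟩ : F)

theorem kil_of_span {e : ι → Derivation F K K} {E : Derivation F K K}
    (hE : E ∈ Submodule.span F (Set.range e)) {n : ℕ} {z : K}
    (hz : Kil (fun i => res (k := k) (e i)) (n + 1) z) :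
    Kil (fun i => res (k := k) (e i)) n (E z) := by
  induction hE using Submodule.span_induction with
  | mem E hE =>
    obtain ⟨i, rfl⟩ := hE
    exact hz i
  | zero => exact Kil.zero n
  | add E E' _ _ h h' => exact h.add h'
  | smul a E _ h =>
    rw [Derivation.smul_apply, Algebra.smul_def]
    exact kil_smul (fun i => res_kills (e i)) a.2 n _ h

theorem kil_transfer {e : ι → Derivation F K K} {e' : ι' → Derivation F K K}
    (h : ∀ i, e' i ∈ Submodule.span F (Set.range e)) : ∀ (n : ℕ) (z : K),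
      Kil (fun i => res (k := k) (e i)) n z → Kil (fun i => res (k := k) (e' i)) n z := by
  intro n
  induction n with
  | zero => exact fun z hz => hz
  | succ n ih => exact fun z hz i => ih _ (kil_of_span (h i) hz)

/-- derivations of finite degree -/
def filt (𝔫 : LieSubalgebra F (Derivation F K K)) (e : ι → Derivation F K K) (d : ℕ) :
    Submodule F (Derivation F K K) where
  carrier := {E | E ∈ 𝔫 ∧ ∀ (j : ℕ) (z : K), Kil (fun i => res (k := k) (e i)) j z →
    Kil (fun i => res (k := k) (e i)) (j - d) (E z)}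
  zero_mem' := ⟨𝔫.zero_mem, fun _ _ _ => Kil.zero _⟩
  add_mem' := fun h h' => ⟨𝔫.add_mem h.1 h'.1, fun j z hz => (h.2 j z hz).add (h'.2 j z hz)⟩
  smul_mem' := fun a E h => ⟨𝔫.smul_mem a h.1, fun j z hz => by
    rw [Derivation.smul_apply, Algebra.smul_def]
    exact kil_smul (fun i => res_kills (e i)) a.2 _ _ (h.2 j z hz)⟩

theorem mem_filt {𝔫 : LieSubalgebra F (Derivation F K K)} {e : ι → Derivation F K K} {d : ℕ}
    {E : Derivation F K K} : E ∈ filt (k := k) 𝔫 e d ↔ E ∈ 𝔫 ∧ ∀ (j : ℕ) (z : K),
      Kil (fun i => res (k := k) (e i)) j z →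
        Kil (fun i => res (k := k) (e i)) (j - d) (E z) := Iff.rfl

theorem sum_smul_app (s : Finset ι) (c : ι → F) (v : ι → Derivation F K K) (z : K) :
    (∑ l ∈ s, c l • v l) z = ∑ l ∈ s, (c l : K) * v l z := by
  classical
  induction s using Finset.induction_on with
  | empty => rw [Finset.sum_empty, Finset.sum_empty, Derivation.zero_apply]
  | insert a s ha ih =>
    rw [Finset.sum_insert ha, Finset.sum_insert ha, Derivation.add_apply, ih,
      Derivation.smul_apply, Algebra.smul_def]
    rfl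

/-- **Triangular Lie algebras are nilpotent systems.** -/
theorem exists_sys (𝔫 : LieSubalgebra F (Derivation F K K)) (hfd : FiniteDimensional F 𝔫)
    {d : ℕ} {x : Fin d → K} (hind : AlgebraicIndependent F x)
    (htop : IntermediateField.adjoin F (Set.range x) = ⊤)
    (htri : ∀ D ∈ 𝔫, ∀ i, D (x i) ∈ Algebra.adjoin F (x '' {j | j < i}))
    (hconst : ∀ f : K, (∀ D ∈ 𝔫, D f = 0) → f ∈ F) :
    ∃ (ι : Type) (_ : Fintype ι) (D : ι → Derivation F K K) (w : ι → ℕ),
      (∀ i, D i ∈ 𝔫) ∧ NilSys F (fun i => res (k := k) (D i)) w ∧ Gens (k := F) x ∧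
      (∀ i (q : MvPolynomial (Fin d) F), ∃ q' : MvPolynomial (Fin d) F,
        D i (MvPolynomial.aeval x q) = MvPolynomial.aeval x q') ∧
      ∀ q : MvPolynomial (Fin d) F, Nilp (fun i => res (k := k) (D i))
        (MvPolynomial.aeval x q) := by
  classical
  obtain ⟨r, e, he⟩ := Submodule.fg_iff_exists_fin_generating_family.1
    ((Submodule.fg_top _).1 (Module.Finite.fg_top (R := F) (M := 𝔫)))
  have he' : ∀ E, E ∈ 𝔫 ↔ E ∈ Submodule.span F (Set.range e) := by
    intro E
    rw [he]
    exact Iff.rfl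
  have hemem : ∀ i, e i ∈ 𝔫 := fun i => (he' _).2 (Submodule.subset_span ⟨i, rfl⟩)
  obtain ⟨D0, hD0⟩ : ∃ D0 : Fin r → Derivation k K K, D0 = fun i => res (k := k) (e i) := ⟨_, rfl⟩
  have hk0 : ∀ i, ∀ f ∈ F, D0 i f = 0 := by
    intro i f hf
    rw [hD0]
    exact res_kills (e i) f hf
  -- the coordinates are nilpotent
  have hnilSub : ∀ (ι : Type) (_ : Fintype ι) (D : ι → Derivation k K K),
      (∀ i, ∀ f ∈ F, D i f = 0) → ∀ S : Set K, (∀ z ∈ S, Nilp D z) →
      ∀ z ∈ Algebra.adjoin F S, Nilp D z := by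
    intro ι _ D hk S hS z hz
    induction hz using Algebra.adjoin_induction with
    | mem z hz => exact hS z hz
    | algebraMap r => exact nilp_const fun i => hk i _ r.2
    | add a b _ _ h h' => exact h.add h'
    | mul a b _ _ h h' => exact h.mul h'
  have hxn : ∀ (m : ℕ) (i : Fin d), (i : ℕ) = m → Nilp D0 (x i) := by
    intro m
    induction m using Nat.strong_induction_on with
    | _ m ih =>
      intro i hi
      have h1 : ∀ l, Nilp D0 (D0 l (x i)) := by
        intro l
        have h2 : D0 l (x i) ∈ Algebra.adjoin F (x '' {j | j < i}) := by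
          rw [hD0]
          exact htri (e l) (hemem l) i
        refine hnilSub _ inferInstance D0 hk0 _ ?_ _ h2
        rintro _ ⟨j, hj, rfl⟩
        exact ih j (by rw [← hi]; exact hj) j rfl
      choose n hn using h1
      exact ⟨Finset.univ.sup n + 1, fun l => (hn l).mono
        (Finset.le_sup (f := n) (Finset.mem_univ l))⟩
  obtain ⟨n0, hn01, hn0⟩ : ∃ n0, 1 ≤ n0 ∧ ∀ i, Kil D0 n0 (x i) := by
    choose n hn using fun i => hxn _ i rfl
    exact ⟨Finset.univ.sup n + 1, by omega, fun i => (hn i).mono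
      ((Finset.le_sup (f := n) (Finset.mem_univ i)).trans (Nat.le_succ _))⟩
  -- the filtration
  have hf1 : ∀ E ∈ 𝔫, E ∈ filt (k := k) 𝔫 e 1 := by
    intro E hE
    refine ⟨hE, fun j z hz => ?_⟩
    rcases j with - | j
    · rw [show z = 0 from hz, map_zero]
      exact Kil.zero _
    · exact kil_of_span ((he' E).1 hE) hz
  have hbr : ∀ (a : ℕ) (E E' : Derivation F K K), E ∈ 𝔫 → E' ∈ filt (k := k) 𝔫 e a →
      ⁅E, E'⁆ ∈ filt (k := k) 𝔫 e (a + 1) := by
    intro a E E' hE hE'
    have hE1 := hf1 E hE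
    refine ⟨𝔫.lie_mem hE hE'.1, fun j z hz => ?_⟩
    rw [Derivation.commutator_apply, sub_eq_add_neg, ← map_neg, ← map_neg]
    have h1 := hE1.2 _ _ (hE'.2 j z hz)
    have h2 : Kil (fun i => res (k := k) (e i)) j (-z) := by
      have := kil_smul (D := fun i => res (k := k) (e i)) (fun i => res_kills (e i))
        (F.neg_mem F.one_mem) j z hz
      rwa [neg_one_mul] at this
    have h3 := hE'.2 _ _ (hE1.2 j _ h2)
    have e1 : j - a - 1 = j - (a + 1) := by omega
    have e2 : j - 1 - a = j - (a + 1) := by omega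
    rw [e1] at h1
    rw [e2] at h3
    exact h1.add h3
  have hfn0 : ∀ E ∈ filt (k := k) 𝔫 e n0, E = 0 := by
    intro E hE
    have h1 : ∀ i, E (x i) = 0 := by
      intro i
      have h2 := hE.2 n0 (x i) (by
        have := hn0 i
        rw [hD0] at this
        exact this)
      rw [Nat.sub_self] at h2
      exact h2
    have h2 : IntermediateField.adjoin F (Set.range x) ≤ consts E := by
      rw [IntermediateField.adjoin_le_iff]
      rintro _ ⟨i, rfl⟩
      exact h1 i
    rw [htop] at h2
    ext z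
    exact h2 (IntermediateField.mem_top (x := z))
  have hfg : ∀ a, (filt (k := k) 𝔫 e a).FG := by
    intro a
    have h1 : filt (k := k) 𝔫 e a ≤ 𝔫.toSubmodule := fun E hE => hE.1
    have h2 : FiniteDimensional F 𝔫.toSubmodule := hfd
    exact Module.Finite.iff_fg.1 (Submodule.finiteDimensional_of_le h1)
  choose rr s hs using fun a => Submodule.fg_iff_exists_fin_generating_family.1 (hfg a)
  let ι := Σ a : Fin n0, Fin (rr (a + 1))
  obtain ⟨D, hD⟩ : ∃ D : ι → Derivation F K K, ∀ a b, D ⟨a, b⟩ = s (a + 1) b :=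
    ⟨fun i => s (i.1 + 1) i.2, fun _ _ => rfl⟩
  obtain ⟨w, hw⟩ : ∃ w : ι → ℕ, ∀ a b, w ⟨a, b⟩ = n0 - ((a : ℕ) + 1) :=
    ⟨fun i => n0 - ((i.1 : ℕ) + 1), fun _ _ => rfl⟩
  have hDf : ∀ (a : Fin n0) b, D ⟨a, b⟩ ∈ filt (k := k) 𝔫 e (a + 1) := by
    intro a b
    rw [hD, ← hs]
    exact Submodule.subset_span ⟨b, rfl⟩
  have hDn : ∀ i, D i ∈ 𝔫 := fun i => (hDf i.1 i.2).1
  have hkD : ∀ i, ∀ f ∈ F, res (k := k) (D i) f = 0 := fun i => res_kills (D i)
  have hKil : ∀ n z, Kil D0 n z → Kil (fun i => res (k := k) (D i)) n z := by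
    rw [hD0]
    exact kil_transfer fun i => (he' _).1 (hDn i)
  have hnilp : ∀ q : MvPolynomial (Fin d) F, Nilp (fun i => res (k := k) (D i))
      (MvPolynomial.aeval x q) := by
    intro q
    refine hnilSub ι inferInstance _ hkD (Set.range x) ?_ _ ?_
    · rintro _ ⟨i, rfl⟩
      obtain ⟨n, hn⟩ := hxn _ i rfl
      exact ⟨n, hKil n _ hn⟩
    · rw [Algebra.adjoin_range_eq_range_aeval]
      exact ⟨q, rfl⟩
  have hG : Gens (k := F) x := by
    refine ⟨hind, fun z => ?_⟩
    have hz : z ∈ IntermediateField.adjoin F (Set.range x) := by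
      rw [htop]
      exact IntermediateField.mem_top
    rw [IntermediateField.mem_adjoin_range_iff] at hz
    obtain ⟨P, Q, hPQ⟩ := hz
    by_cases hQ : Q = 0
    · refine ⟨0, 1, one_ne_zero, ?_⟩
      rw [hPQ, hQ, map_zero, div_zero, zero_div]
    · exact ⟨P, Q, hQ, hPQ⟩
  have hpoly : ∀ E ∈ 𝔫, ∀ q : MvPolynomial (Fin d) F, ∃ q' : MvPolynomial (Fin d) F,
      E (MvPolynomial.aeval x q) = MvPolynomial.aeval x q' := by
    intro E hE q
    induction q using MvPolynomial.induction_on with
    | C a => exact ⟨0, by rw [MvPolynomial.aeval_C, E.map_algebraMap, map_zero]⟩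
    | add p q hp hq =>
      obtain ⟨p', hp'⟩ := hp
      obtain ⟨q', hq'⟩ := hq
      exact ⟨p' + q', by rw [map_add, map_add, hp', hq', map_add]⟩
    | mul_X p i hp =>
      obtain ⟨p', hp'⟩ := hp
      have h1 : E (x i) ∈ (MvPolynomial.aeval x : MvPolynomial (Fin d) F →ₐ[F] K).range := by
        rw [← Algebra.adjoin_range_eq_range_aeval]
        refine Algebra.adjoin_mono ?_ (htri E hE i)
        rintro _ ⟨j, -, rfl⟩
        exact ⟨j, rfl⟩
      obtain ⟨g, hg⟩ := h1
      have hg' : MvPolynomial.aeval x g = E (x i) := hg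
      refine ⟨p * g + MvPolynomial.X i * p', ?_⟩
      rw [map_mul, MvPolynomial.aeval_X, E.leibniz, hp', map_add, map_mul, map_mul,
        MvPolynomial.aeval_X, hg', smul_eq_mul, smul_eq_mul]
  refine ⟨ι, inferInstance, D, w, hDn, ⟨hkD, fun i j => ?_, fun z hz => ?_, fun z => ?_⟩, hG,
    fun i => hpoly (D i) (hDn i), hnilp⟩
  · -- the brackets
    obtain ⟨a, b⟩ := j
    have h1 := hbr _ _ _ (hDn i) (hDf a b)
    obtain ⟨v, hv⟩ : ∃ v : ι → Derivation F K K, ∀ l, v l = if w l < w ⟨a, b⟩ then D l else 0 :=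
      ⟨_, fun _ => rfl⟩
    have h2 : ⁅D i, D ⟨a, b⟩⁆ ∈ Submodule.span F (Set.range v) := by
      by_cases ha : (a : ℕ) + 1 < n0
      · rw [← hs] at h1
        refine Submodule.span_mono ?_ h1
        rintro _ ⟨c, rfl⟩
        refine ⟨⟨⟨a + 1, ha⟩, c⟩, ?_⟩
        rw [hv, hw, hw, if_pos, hD]
        change n0 - ((a : ℕ) + 1 + 1) < n0 - ((a : ℕ) + 1)
        omega
      · have ha' : (a : ℕ) + 1 = n0 := by
          have := a.2
          omega
        have h3 := hDf a b
        rw [ha'] at h3
        have h4 : ⁅D i, (0 : Derivation F K K)⁆ = 0 := by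
          ext z
          rw [Derivation.commutator_apply, Derivation.zero_apply, Derivation.zero_apply, map_zero,
            sub_zero]
        rw [hfn0 _ h3, h4]
        exact Submodule.zero_mem _
    obtain ⟨c, hc⟩ := (Submodule.mem_span_range_iff_exists_fun F).1 h2
    refine ⟨fun l => if w l < w ⟨a, b⟩ then (c l : K) else 0, fun l => ?_, fun l hl => ?_,
      fun z => ?_⟩
    · beta_reduce
      split_ifs
      · exact (c l).2
      · exact F.zero_mem
    · beta_reduce
      rw [if_neg (not_lt.2 hl)]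
    · have h3 : ⁅D i, D ⟨a, b⟩⁆ z = ∑ l, (c l : K) * v l z := by
        rw [← hc, sum_smul_app]
      rw [Derivation.commutator_apply] at h3
      change D i (D ⟨a, b⟩ z) - D ⟨a, b⟩ (D i z) = _
      rw [h3]
      refine Finset.sum_congr rfl fun l _ => ?_
      rw [hv]
      beta_reduce
      by_cases hl : w l < w ⟨a, b⟩
      · rw [if_pos hl, if_pos hl]
        rfl
      · rw [if_neg hl, if_neg hl, Derivation.zero_apply, mul_zero, zero_mul]
  · -- the constants
    have h0 : ∀ E ∈ Submodule.span F (Set.range (s 1)), E z = 0 := by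
      intro E hE
      induction hE using Submodule.span_induction with
      | mem E hE =>
        obtain ⟨b, rfl⟩ := hE
        have h4 := hz ⟨⟨0, by omega⟩, b⟩
        rw [res_apply, hD] at h4
        exact h4
      | zero => rfl
      | add E E' _ _ h h' => rw [Derivation.add_apply, h, h', add_zero]
      | smul a E _ h => rw [Derivation.smul_apply, h, smul_zero]
    refine hconst z fun E hE => h0 E ?_
    rw [hs]
    exact hf1 E hE
  · obtain ⟨P, Q, hQ, hPQ⟩ := hG.gen z
    exact ⟨_, _, hnilp P, hnilp Q, hG.ne hQ, hPQ⟩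

end

section

variable {K : Type} [Field K] [Algebra ℂ K] {N : ℕ} {y : Fin (N + 1) → K}
  {F : IntermediateField ℂ K}

theorem UnipotentFibre.data (h : UnipotentFibre y F) (hFP : FibreProper y F) :
    ∃ (ι : Type) (_ : Fintype ι) (D : ι → Derivation ℂ K K) (w : ι → ℕ) (d : ℕ) (x : Fin d → K),
      UniData y F D w x := by
  obtain ⟨𝔫, d, x, hfd, hind, htop, htri, hconst, hreg⟩ := h
  obtain ⟨ι, hι, D, w, hD, hs, hG, hp, hn⟩ := exists_sys (k := ℂ) 𝔫 hfd hind htop htri hconst
  exact ⟨ι, hι, fun i => res (D i), w, d, x, hs, hG, hp, hn,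
    fun P hP hPF i => hreg P hP hPF (D i) (hD i), hFP⟩

end

end Pool.Agent.H892
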