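import Pool.Agent.H892.B2

/-!
Nilpotent systems of derivations whose field of constants is larger than the field of scalars.
-/

set_option autoImplicit false
set_option linter.unusedSectionVars false

open FF PowerSeries

namespace Pool.Agent.H892

section

variable {k K ι : Type} [Field k] [Field K] [Algebra k K] [Fintype ι]
  {F F' : IntermediateField k K} {D : ι → Derivation k K K} {w : ι → ℕ}

/-- A nilpotent system of derivations over the field of scalars `F` with field of constants `F'`: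
the bracket of `D i` and `D j` is a linear combination over `F` of derivations of weight smaller
than `w j`, the common constants are the elements of `F'`, and `K` is the fraction field of the ring
of nilpotent elements. -/
structure NilSys2 (F F' : IntermediateField k K) (D : ι → Derivation k K K) (w : ι → ℕ) :
    Prop where
  le : F ≤ F'
  kills : ∀ i, ∀ f ∈ F', D i f = 0
  comm : ∀ i j, ∃ c : ι → K, (∀ l, c l ∈ F) ∧ (∀ l, w j ≤ w l → c l = 0) ∧
    ∀ x, D i (D j x) - D j (D i x) = ∑ l, c l * D l x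
  const : ∀ x, (∀ i, D i x = 0) → x ∈ F'
  frac : ∀ x, ∃ a b, Nilp D a ∧ Nilp D b ∧ b ≠ 0 ∧ x = a / b

theorem NilSys2.sys (hs : NilSys2 F F' D w) : NilSys F' D w where
  kills := hs.kills
  comm := fun i j => by
    obtain ⟨c, h1, h2, h3⟩ := hs.comm i j
    exact ⟨c, fun l => hs.le (h1 l), h2, h3⟩
  const := hs.const
  frac := hs.frac

theorem NilSys2.killsF (hs : NilSys2 F F' D w) : ∀ i, ∀ f ∈ F, D i f = 0 :=
  fun i f hf => hs.kills i f (hs.le hf)

/-- **A central derivation.** -/
theorem exists_central2 (hs : NilSys2 F F' D w) (W : Submodule F K)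
    (hst : ∀ i, ∀ x ∈ W, D i x ∈ W) (hinf : ¬ FiniteDimensional F W)
    (h0 : ∀ W0 ≤ W, (∀ x ∈ W0, x ∈ F') → FiniteDimensional F W0) :
    ∃ W' ≤ W, (∀ i, ∀ x ∈ W', D i x ∈ W') ∧ ¬ FiniteDimensional F W' ∧ ∃ j,
      (∀ i, ∀ x ∈ W', D i (D j x) = D j (D i x)) ∧
      FiniteDimensional F (W' ⊓ LinearMap.ker (dlin (D j) (hs.killsF j)) : Submodule F K) := by
  classical
  induction h : Fintype.card ι - (kset D W).card using Nat.strong_induction_on generalizing W with
  | _ n ih =>
    -- a derivation of minimal weight which does not kill `W`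
    have hne : (kset D W)ᶜ.Nonempty := by
      rw [Finset.nonempty_iff_ne_empty]
      intro h1
      apply hinf
      refine h0 W le_rfl fun x hx => hs.const x fun i => ?_
      have h3 : i ∈ kset D W := by
        by_contra h4
        have : i ∈ (kset D W)ᶜ := Finset.mem_compl.2 h4
        rw [h1] at this
        exact absurd this (Finset.notMem_empty i)
      exact mem_kset.1 h3 x hx
    obtain ⟨l, hl, hmin⟩ := Finset.exists_min_image _ w hne
    rw [Finset.mem_compl] at hl
    have hlow : ∀ l', w l' < w l → ∀ x ∈ W, D l' x = 0 := by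
      intro l' hl'
      by_contra h1
      have h2 : l' ∈ (kset D W)ᶜ := Finset.mem_compl.2 fun h3 => h1 (mem_kset.1 h3)
      exact absurd (hmin l' h2) (by omega)
    have hcom : ∀ i, ∀ x ∈ W, D i (D l x) = D l (D i x) := by
      intro i x hx
      obtain ⟨c, -, hc0, hc⟩ := hs.comm i l
      rw [← sub_eq_zero, hc x]
      refine Finset.sum_eq_zero fun l' _ => ?_
      rcases Nat.lt_or_ge (w l') (w l) with h1 | h1
      · rw [hlow l' h1 x hx, mul_zero]
      · rw [hc0 l' h1, zero_mul]
    by_cases hf : FiniteDimensional F (W ⊓ LinearMap.ker (dlin (D l) (hs.killsF l)) :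
        Submodule F K)
    · exact ⟨W, le_rfl, hst, hinf, l, hcom, hf⟩
    · have hst1 : ∀ i, ∀ x ∈ (W ⊓ LinearMap.ker (dlin (D l) (hs.killsF l)) : Submodule F K),
          D i x ∈ (W ⊓ LinearMap.ker (dlin (D l) (hs.killsF l)) : Submodule F K) := by
        rintro i x ⟨hx, hx'⟩
        refine ⟨hst i x hx, ?_⟩
        rw [SetLike.mem_coe, LinearMap.mem_ker, dlin_apply] at hx' ⊢
        rw [← hcom i x hx, hx', map_zero]
      have hcard : (kset D W).card < (kset D (W ⊓ LinearMap.ker (dlin (D l) (hs.killsF l)) :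
          Submodule F K)).card := by
        refine Finset.card_lt_card ⟨fun l' hl' => ?_, fun h1 => hl (h1 ?_)⟩
        · rw [mem_kset] at hl' ⊢
          exact fun x hx => hl' x hx.1
        · rw [mem_kset]
          rintro x ⟨-, hx⟩
          exact hx
      have hle : (kset D (W ⊓ LinearMap.ker (dlin (D l) (hs.killsF l)) :
          Submodule F K)).card ≤ Fintype.card ι := Finset.card_le_univ _
      obtain ⟨W', hW', h1, h2, h3⟩ := ih _ (by omega)
        (W ⊓ LinearMap.ker (dlin (D l) (hs.killsF l)) : Submodule F K) hst1 hf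
        (fun W0 hW0 => h0 W0 (hW0.trans inf_le_left)) rfl
      exact ⟨W', hW'.trans inf_le_left, h1, h2, h3⟩

/-- **An invariant subspace on which a central derivation is surjective with a finite dimensional
kernel.** -/
theorem exists_surj2 (hs : NilSys2 F F' D w) (W : Submodule F K)
    (hst : ∀ i, ∀ x ∈ W, D i x ∈ W) (hnil : ∀ x ∈ W, Nilp D x) (hinf : ¬ FiniteDimensional F W)
    (h0 : ∀ W0 ≤ W, (∀ x ∈ W0, x ∈ F') → FiniteDimensional F W0) :
    ∃ W' ≤ W, (∀ i, ∀ x ∈ W', D i x ∈ W') ∧ ∃ j,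
      (∀ i, ∀ x ∈ W', D i (D j x) = D j (D i x)) ∧
      (∀ x ∈ W', ∃ u ∈ W', D j u = x) ∧
      FiniteDimensional F (W' ⊓ LinearMap.ker (dlin (D j) (hs.killsF j)) : Submodule F K) ∧
      ∃ x ∈ W', x ≠ 0 ∧ D j x = 0 := by
  obtain ⟨W1, hW1, hst1, hinf1, j, hcom, hfin⟩ := exists_central2 hs W hst hinf h0
  obtain ⟨Z, hZ⟩ : ∃ Z, Z = dlin (D j) (hs.killsF j) := ⟨_, rfl⟩
  have hZa : ∀ x, Z x = D j x := fun x => by rw [hZ, dlin_apply]
  have hkil : ∀ (n : ℕ) (x : K), Kil D n x → (Z ^ n) x = 0 := by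
    intro n
    induction n with
    | zero =>
      intro x hx
      rw [pow_zero, Module.End.one_apply]
      exact hx
    | succ n ih =>
      intro x hx
      rw [pow_succ, Module.End.mul_apply, hZa]
      exact ih _ (hx j)
  obtain ⟨h1, x0, hx0, hZx0, hx0e⟩ := surj_part Z W1 (fun x hx => by rw [hZa]; exact hst1 j x hx)
    (fun x hx => by
      obtain ⟨n, hn⟩ := hnil x (hW1 hx)
      exact ⟨n, hkil n x hn⟩) (by rw [hZ]; exact hfin) hinf1
  have hpow : ∀ i, ∀ (e : ℕ), ∀ x ∈ W1, D i ((Z ^ e) x) = (Z ^ e) (D i x) ∧ (Z ^ e) x ∈ W1 := by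
    intro i e
    induction e with
    | zero =>
      intro x hx
      rw [pow_zero, Module.End.one_apply, Module.End.one_apply]
      exact ⟨rfl, hx⟩
    | succ e ih =>
      intro x hx
      obtain ⟨h2, h3⟩ := ih x hx
      rw [pow_succ', Module.End.mul_apply, Module.End.mul_apply, hZa, hZa]
      exact ⟨by rw [hcom i _ h3, h2], hst1 j _ h3⟩
  obtain ⟨W', hW'⟩ : ∃ W' : Submodule F K, ∀ x, x ∈ W' ↔ ∀ e : ℕ, ∃ u ∈ W1, (Z ^ e) u = x := by
    refine ⟨⨅ e : ℕ, W1.map (Z ^ e), fun x => ?_⟩
    simp only [Submodule.mem_iInf, Submodule.mem_map]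
  have hW'1 : W' ≤ W1 := by
    intro x hx
    obtain ⟨u, hu, hux⟩ := (hW' x).1 hx 0
    rw [pow_zero, Module.End.one_apply] at hux
    rwa [← hux]
  refine ⟨W', hW'1.trans hW1, ?_, j, fun i x hx => hcom i x (hW'1 hx), ?_, ?_, x0, ?_, hx0, ?_⟩
  · intro i x hx
    rw [hW']
    intro e
    obtain ⟨u, hu, hux⟩ := (hW' x).1 hx e
    refine ⟨D i u, hst1 i u hu, ?_⟩
    rw [← (hpow i e u hu).1, hux]
  · intro x hx
    obtain ⟨u, hu, hux⟩ := h1 x ((hW' x).1 hx)
    exact ⟨u, (hW' u).2 hu, by rw [← hZa, hux]⟩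
  · exact Submodule.finiteDimensional_of_le (S₂ := W1 ⊓ LinearMap.ker (dlin (D j) (hs.killsF j)))
      (inf_le_inf_right _ hW'1)
  · exact (hW' x0).2 hx0e
  · rw [← hZa, hZx0]

/-- **Dependence of series all of whose Wronskians vanish.** -/
theorem exists_dep (hs : NilSys F D w) {m : ℕ} (E : Fin m → PowerSeries K)
    (hcon : ∀ u : Fin m → List ι, (Matrix.of fun a b => oph D (u b) (E a)).det = 0) :
    ∃ e : Fin m → PowerSeries K, (∀ a, CF F (e a)) ∧ (∃ a, e a ≠ 0) ∧ ∑ a, e a * E a = 0 := by
  classical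
  obtain ⟨c0, hc0, hc0u⟩ := exists_rel (fun (u : List ι) a => oph D u (E a)) hcon
  obtain ⟨N, hN⟩ : ∃ N : Set (Fin m → PowerSeries K), ∀ c, c ∈ N ↔
      ∀ u : List ι, ∑ a, c a * oph D u (E a) = 0 := ⟨{c | _}, fun _ => Iff.rfl⟩
  obtain ⟨sp, hsp⟩ : ∃ sp : (Fin m → PowerSeries K) → Finset (Fin m),
      ∀ c a, a ∈ sp c ↔ c a ≠ 0 := ⟨fun c => Finset.univ.filter fun a => c a ≠ 0, by simp⟩
  -- minimal support
  obtain ⟨c, ⟨hcN, hc⟩, hmin⟩ : ∃ c, (c ∈ N ∧ c ≠ 0) ∧
      ∀ c', c' ∈ N → c' ≠ 0 → (sp c).card ≤ (sp c').card := by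
    obtain ⟨n, hn⟩ : ∃ n, n = sInf ((fun c => (sp c).card) '' {c | c ∈ N ∧ c ≠ 0}) := ⟨_, rfl⟩
    have h1 : n ∈ (fun c => (sp c).card) '' {c | c ∈ N ∧ c ≠ 0} := by
      rw [hn]
      exact Nat.sInf_mem ⟨_, c0, ⟨(hN _).2 hc0u, hc0⟩, rfl⟩
    obtain ⟨c, hc, hcn⟩ := h1
    refine ⟨c, hc, fun c' h2 h3 => ?_⟩
    change (sp c).card = n at hcn
    rw [hcn, hn]
    exact Nat.sInf_le ⟨c', ⟨h2, h3⟩, rfl⟩
  -- normalise
  have hne : (sp c).Nonempty := by
    obtain ⟨a, ha⟩ := Function.ne_iff.1 hc
    exact ⟨a, (hsp c a).2 ha⟩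
  obtain ⟨a0, ha0, ha0min⟩ := Finset.exists_min_image (sp c) (fun a => (c a).order.toNat) hne
  obtain ⟨s, hs0⟩ : ∃ s, s = (c a0).order.toNat := ⟨_, rfl⟩
  have hdvd : ∀ a, ∃ d, c a = X ^ s * d := by
    intro a
    by_cases ha : a ∈ sp c
    · have h1 := X_pow_order_dvd (φ := c a)
      exact (pow_dvd_pow X (by rw [hs0]; exact ha0min a ha)).trans h1
    · have h1 : c a = 0 := by
        by_contra h2
        exact ha ((hsp c a).2 h2)
      exact ⟨0, by rw [h1, mul_zero]⟩
  choose d hd using hdvd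
  have hX : (X : PowerSeries K) ^ s ≠ 0 := pow_ne_zero _ X_ne_zero
  have hd0 : constantCoeff (d a0) ≠ 0 := by
    have h1 : coeff s (c a0) ≠ 0 := by
      rw [hs0]
      exact coeff_order ((hsp c a0).1 ha0)
    rw [hd a0] at h1
    have h2 : coeff s (X ^ s * d a0) = coeff 0 (d a0) := by
      have := coeff_X_pow_mul (d a0) s 0
      rwa [zero_add] at this
    rwa [h2, coeff_zero_eq_constantCoeff_apply] at h1
  obtain ⟨e, he⟩ : ∃ e : Fin m → PowerSeries K, ∀ a, e a = (d a0)⁻¹ * d a := ⟨_, fun _ => rfl⟩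
  have he1 : e a0 = 1 := by
    rw [he]
    exact PowerSeries.inv_mul_cancel _ hd0
  have hdN : d ∈ N := by
    rw [hN]
    intro u
    have h1 := (hN c).1 hcN u
    have h2 : ∑ a, c a * oph D u (E a) = X ^ s * ∑ a, d a * oph D u (E a) := by
      rw [Finset.mul_sum]
      refine Finset.sum_congr rfl fun a _ => ?_
      rw [hd a, mul_assoc]
    rw [h2] at h1
    exact (mul_eq_zero.1 h1).resolve_left hX
  have heN : e ∈ N := by
    rw [hN]
    intro u
    have h1 := (hN d).1 hdN u
    have h2 : ∑ a, e a * oph D u (E a) = (d a0)⁻¹ * ∑ a, d a * oph D u (E a) := by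
      rw [Finset.mul_sum]
      refine Finset.sum_congr rfl fun a _ => ?_
      rw [he a, mul_assoc]
    rw [h2, h1, mul_zero]
  -- the derivatives vanish
  have hder : ∀ i a, dh (D i) (e a) = 0 := by
    intro i
    have h1 : (fun a => dh (D i) (e a)) ∈ N := by
      rw [hN]
      intro u
      have h2 := (hN e).1 heN u
      have h3 := congrArg (dh (D i)) h2
      rw [map_sum, map_zero] at h3
      have h4 := (hN e).1 heN (i :: u)
      have h5 : ∑ a, dh (D i) (e a * oph D u (E a)) = ∑ a, e a * oph D (i :: u) (E a) +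
          ∑ a, dh (D i) (e a) * oph D u (E a) := by
        rw [← Finset.sum_add_distrib]
        refine Finset.sum_congr rfl fun a _ => ?_
        rw [dh_mul, oph_cons]
        ring
      rw [h5, h4, zero_add] at h3
      exact h3
    by_contra hne'
    push Not at hne'
    obtain ⟨a1, ha1⟩ := hne'
    have h2 := hmin _ h1 (fun h0 => ha1 (congrFun h0 a1))
    have h3 : sp (fun a => dh (D i) (e a)) ⊂ sp c := by
      refine ⟨fun a ha => ?_, fun h4 => ?_⟩
      · rw [hsp] at ha
        by_contra h5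
        have h6 : c a = 0 := by
          by_contra h7
          exact h5 ((hsp c a).2 h7)
        apply ha
        rw [hd a] at h6
        rw [he, (mul_eq_zero.1 h6).resolve_left hX, mul_zero, map_zero]
      · have h5 := (hsp _ _).1 (h4 ha0)
        apply h5
        rw [he1]
        have h7 : CF F (1 : PowerSeries K) := by
          intro n
          rw [coeff_one]
          split_ifs
          · exact F.one_mem
          · exact F.zero_mem
        exact h7.dh (hs.kills i)
    exact absurd h2 (not_le.2 (Finset.card_lt_card h3))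
  refine ⟨e, fun a n => hs.const _ fun i => ?_, ⟨a0, by rw [he1]; exact one_ne_zero⟩,
    (hN e).1 heN []⟩
  rw [← coeff_dh, hder i a, map_zero]

/-- **Semi-invariance of a minimal determinant.** -/
theorem semi_det2 (hs : NilSys F D w) {m : ℕ} (E : Fin m → PowerSeries K)
    (u : Fin m → List ι) (hmin : ∀ v : Fin m → List ι, ∑ b, wt w (v b) < ∑ b, wt w (u b) →
      (Matrix.of fun a b => oph D (v b) (E a)).det = 0) (i : ι) {g : PowerSeries K} (hg : CF F g)
    (M : Matrix (Fin m) (Fin m) (PowerSeries K)) (hM : ∀ a c, CF F (M a c))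
    (hE : ∀ a, g * dh (D i) (E a) = ∑ c, M a c * E c) :
    g * dh (D i) (Matrix.of fun a b => oph D (u b) (E a)).det =
      M.trace * (Matrix.of fun a b => oph D (u b) (E a)).det := by
  classical
  obtain ⟨A, hA⟩ : ∃ A, A = (Matrix.of fun a b => oph D (u b) (E a)) := ⟨_, rfl⟩
  have hAab : ∀ a b, A a b = oph D (u b) (E a) := fun a b => by rw [hA]; rfl
  rw [← hA, der_det (dh (D i)) (dh_mul (D i)), ← sum_det_updateCol, Finset.mul_sum]
  refine Finset.sum_congr rfl fun b _ => ?_
  have h0 : g * (A.updateCol b fun a => dh (D i) (A a b)).det =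
      (A.updateCol b fun a => g * dh (D i) (A a b)).det := by
    have : (fun a => g * dh (D i) (A a b)) = g • fun a => dh (D i) (A a b) := rfl
    rw [this, Matrix.det_updateCol_smul]
  rw [h0]
  have h1 : (fun a => g * dh (D i) (A a b)) = (fun a => (M * A) a b) +
      g • fun a => (fun f => dh (D i) (oph D (u b) f) - oph D (u b) (dh (D i) f)) (E a) := by
    funext a
    rw [Pi.add_apply, Pi.smul_apply, smul_eq_mul]
    change _ = _ + g * (dh (D i) (oph D (u b) (E a)) - oph D (u b) (dh (D i) (E a)))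
    have h2 : (M * A) a b = g * oph D (u b) (dh (D i) (E a)) := by
      rw [← oph_smul hs.kills _ hg, hE, oph_sum, Matrix.mul_apply]
      refine Finset.sum_congr rfl fun c _ => ?_
      rw [oph_smul hs.kills _ (hM a c), hAab]
    rw [h2, hAab]
    ring
  rw [h1, Matrix.det_updateCol_add, Matrix.det_updateCol_smul]
  have h3 : ∀ T ∈ LowSp D w (wt w (u b)), (A.updateCol b fun a => T (E a)).det = 0 := by
    intro T hT
    induction hT using Submodule.span_induction with
    | mem T hT =>
      obtain ⟨v, hv, rfl⟩ := hT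
      have h4 : (A.updateCol b fun a => oph D v (E a)) =
          Matrix.of fun a b' => oph D (Function.update u b v b') (E a) := by
        ext1 a b'
        rw [Matrix.of_apply]
        by_cases hb : b' = b
        · subst hb
          rw [Matrix.updateCol_self, Function.update_self]
        · rw [Matrix.updateCol_ne hb, Function.update_of_ne hb, hAab]
      rw [h4]
      refine hmin _ ?_
      refine Finset.sum_lt_sum (fun b' _ => ?_) ⟨b, Finset.mem_univ b, ?_⟩
      · by_cases hb : b' = b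
        · subst hb
          rw [Function.update_self]
          exact hv.le
        · rw [Function.update_of_ne hb]
      · rw [Function.update_self]
        exact hv
    | zero =>
      refine Matrix.det_eq_zero_of_column_eq_zero b fun a => ?_
      rw [Matrix.updateCol_self]
      rfl
    | add T T' _ _ h h' =>
      have h4 : (fun a => (T + T') (E a)) = (fun a => T (E a)) + fun a => T' (E a) := rfl
      rw [h4, Matrix.det_updateCol_add, h, h', add_zero]
    | smul c T _ h =>
      have h4 : (fun a => (c • T) (E a)) = c • fun a => T (E a) := rfl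
      rw [h4, Matrix.det_updateCol_smul, h, mul_zero]
  rw [h3 _ (comm_word hs (u b) i), mul_zero, add_zero]

end

end Pool.Agent.H892
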