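import Pool.Agent.H892.C9

/-!
The dichotomy: a divisor has sections of a multiple, or it is not pseudo-effective.
-/

set_option autoImplicit false
set_option linter.unusedSectionVars false
set_option linter.overlappingInstances false

open FF Pool.Agent.W602.GT Pool.Agent.W603.LV Pool.Agent.Y172 Pool.Agent.TH122.AB Pool.Agent.NH31

namespace Pool.Agent.H892

section

variable {K : Type} [Field K] [Algebra ℂ K] {N : ℕ} {y : Fin (N + 1) → K}

theorem horizontal_bot (P : Place ℂ K) : Horizontal (⊥ : IntermediateField ℂ K) P := by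
  intro f hf hf0
  obtain ⟨c, rfl⟩ := IntermediateField.mem_bot.1 hf
  refine P.ord_const ?_
  rintro rfl
  exact hf0 (map_zero _)

theorem fibreProper_bot (hy : NormalModel y) : FibreProper y (⊥ : IntermediateField ℂ K) := by
  intro Q _ f hf
  obtain ⟨c, rfl⟩ := IntermediateField.mem_bot.1 hf
  obtain ⟨j, hj⟩ := exists_centred hy Q
  exact ⟨j, hj, _, (chart y j).algebraMap_mem c, 1, (chart y j).one_mem, one_ne_zero, Q.ord_one,
    mul_one _⟩

/-- a function without poles is algebraic -/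
theorem alg_of_reg (hy : NormalModel y) {f : K}
    (hf : ∀ P, IsPrimeDivisor y P → P.Reg f) : IsAlgebraic ℂ f := by
  classical
  have h1 := LF_finite hy (fibreProper_bot hy) (D := fun _ => 0) (by
    refine Set.finite_empty.subset ?_
    rintro P ⟨-, h⟩
    exact h rfl)
  have h2 : ∀ n : ℕ, f ^ n ∈ LF y (⊥ : IntermediateField ℂ K) fun _ => 0 := by
    intro n P hP _
    have h3 : Og P 0 f := hf P hP
    rw [neg_zero]
    induction n with
    | zero => rw [pow_zero]; exact Or.inr P.ord_one.ge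
    | succ n ih =>
      rw [pow_succ]
      have := ih.mul h3
      rwa [add_zero] at this
  have h3 : ¬ LinearIndependent (⊥ : IntermediateField ℂ K) fun n : ℕ => f ^ n := by
    intro h
    have h4 : LinearIndependent (⊥ : IntermediateField ℂ K) fun n : ℕ =>
        (⟨f ^ n, h2 n⟩ : LF y (⊥ : IntermediateField ℂ K) fun _ => 0) :=
      LinearIndependent.of_comp (LF y (⊥ : IntermediateField ℂ K) fun _ => 0).subtype h
    have h5 := h4.finite
    exact not_finite ℕ
  have h4 : IsAlgebraic (⊥ : IntermediateField ℂ K) f := by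
    rw [linearIndependent_iff'] at h3
    push Not at h3
    obtain ⟨s, g, hs, i, hi, hgi⟩ := h3
    refine ⟨∑ j ∈ s, Polynomial.monomial j (g j), ?_, ?_⟩
    · intro h0
      apply hgi
      have h5 := congrArg (fun p : Polynomial (⊥ : IntermediateField ℂ K) => p.coeff i) h0
      simp only [Polynomial.finsetSum_coeff, Polynomial.coeff_monomial, Polynomial.coeff_zero,
        Finset.sum_ite_eq', if_pos hi] at h5
      exact h5
    · rw [map_sum, ← hs]
      exact Finset.sum_congr rfl fun j _ => by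
        rw [Polynomial.aeval_monomial, Algebra.smul_def]
  have h5 : Algebra.IsAlgebraic ℂ (⊥ : IntermediateField ℂ K) := by
    refine ⟨fun z => ?_⟩
    obtain ⟨c, hc⟩ := IntermediateField.mem_bot.1 z.2
    have hz : z = algebraMap ℂ (⊥ : IntermediateField ℂ K) c := Subtype.ext hc.symm
    rw [hz]
    exact isAlgebraic_algebraMap c
  exact h4.restrictScalars ℂ

/-- a function which is not constant has zeros -/
theorem exists_zero (hy : NormalModel y) {t : K} (ht : Transcendental ℂ t) :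
    ∃ P, IsPrimeDivisor y P ∧ 0 < P.ord t := by
  by_contra hcon
  push Not at hcon
  have ht0 : t ≠ 0 := fun h0 => ht (by rw [h0]; exact isAlgebraic_zero)
  have h1 : IsAlgebraic ℂ t⁻¹ := alg_of_reg hy fun P hP => by
    rw [P.reg_iff (inv_ne_zero ht0), P.ord_inv]
    have := hcon P hP
    omega
  exact ht (by simpa using h1.inv)

end

section

variable {K ι : Type} [Field K] [Algebra ℂ K] [Fintype ι] {N n d : ℕ} {y : Fin (N + 1) → K}
  {F' : IntermediateField ℂ K} {D : ι → Derivation ℂ K K} {w : ι → ℕ} {x : Fin d → K}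

/-- **The dichotomy.** -/
theorem tame (hy : NormalModel y) (h : UniData2 y (⊥ : IntermediateField ℂ K) F' D w x)
    {U : Place ℂ K → ℚ} (hU : FinSup y U) :
    (∃ a : ℕ, 1 ≤ a ∧ ∃ σ : K, Fn y (a • U) σ ∧ σ ≠ 0) ∨
      ∀ A, FinSup y A → ∃ m0 : ℕ, ∀ m, m0 ≤ m → ∀ f, Fn y (m • U + A) f → f = 0 := by
  classical
  obtain ⟨d0, hd0, hden⟩ := exists_den_fin hU
  -- the integral divisor
  obtain ⟨D0, hD0def⟩ : ∃ D0 : Place ℂ K → ℤ, D0 = fun P => ⌊(d0 : ℚ) * U P⌋ := ⟨_, rfl⟩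
  have hDeq : ∀ P, IsPrimeDivisor y P → (D0 P : ℚ) = d0 * U P := by
    intro P hP
    obtain ⟨z, hz⟩ := hden P hP
    rw [hD0def]
    change ((⌊(d0 : ℚ) * U P⌋ : ℤ) : ℚ) = _
    rw [hz, Int.floor_intCast]
  have hDfin : {P | IsPrimeDivisor y P ∧ D0 P ≠ 0}.Finite := by
    refine hU.subset ?_
    rintro P ⟨hP, hne⟩
    refine ⟨hP, fun h0 => hne ?_⟩
    have h1 := hDeq P hP
    rw [h0, mul_zero] at h1
    exact_mod_cast h1
  -- moving
  obtain ⟨G1, hG10, hG1⟩ := exists_move2 h (c := fun P => (D0 P).toNat) (hDfin.subset (by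
    rintro P ⟨hP, hne⟩
    exact ⟨hP, fun h0 => hne (by rw [h0]; rfl)⟩))
  obtain ⟨G2, hG20, hG2⟩ := exists_move2 h (c := fun P => (-(D0 P)).toNat) (hDfin.subset (by
    rintro P ⟨hP, hne⟩
    exact ⟨hP, fun h0 => hne (by rw [h0]; rfl)⟩))
  obtain ⟨g1, hg1⟩ : ∃ g, g = MvPolynomial.aeval x G1 := ⟨_, rfl⟩
  obtain ⟨g2, hg2⟩ : ∃ g, g = MvPolynomial.aeval x G2 := ⟨_, rfl⟩
  have hg10 : g1 ≠ 0 := hg1 ▸ h.gens.ne hG10
  have hg20 : g2 ≠ 0 := hg2 ▸ h.gens.ne hG20
  rw [← hg1] at hG1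
  rw [← hg2] at hG2
  obtain ⟨g, hg⟩ : ∃ g, g = g1 / g2 := ⟨_, rfl⟩
  have hg0 : g ≠ 0 := hg ▸ div_ne_zero hg10 hg20
  obtain ⟨D1, hD1⟩ : ∃ D1 : Place ℂ K → ℤ, ∀ P, D1 P = D0 P - P.ord g := ⟨_, fun _ => rfl⟩
  have hD1s : ∀ P, IsPrimeDivisor y P → Horizontal (⊥ : IntermediateField ℂ K) P →
      ¬ Stab D P → D1 P = 0 := by
    intro P hP hPF hst
    rw [hD1, hg, P.ord_div hg10 hg20, hG1 P hP hPF hst, hG2 P hP hPF hst]
    omega
  have hD1fin : {P | IsPrimeDivisor y P ∧ D1 P ≠ 0}.Finite := by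
    refine (hDfin.union (finite_ord hy hg0)).subset ?_
    rintro P ⟨hP, hne⟩
    by_contra hcon
    rw [Set.mem_union] at hcon
    push Not at hcon
    have h1 : D0 P = 0 := by
      by_contra h3
      exact hcon.1 ⟨hP, h3⟩
    have h2 : P.ord g = 0 := by
      by_contra h3
      exact hcon.2 ⟨hP, h3⟩
    exact hne (by rw [hD1, h1, h2, sub_zero])
  -- the case of sections
  by_cases hE : ∃ k : ℕ, 1 ≤ k ∧ ∃ c : K, c ≠ 0 ∧ ∀ P, IsPrimeDivisor y P →
      -(k * D1 P) ≤ P.ord c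
  · left
    obtain ⟨k, hk, c, hc0, hc⟩ := hE
    refine ⟨d0 * k, Nat.succ_le_of_lt (Nat.mul_pos (by omega) (by omega)), c / g ^ k,
      fun P hP => ?_, div_ne_zero hc0 (pow_ne_zero _ hg0)⟩
    right
    rw [P.ord_div hc0 (pow_ne_zero _ hg0), P.ord_pow, smul_ap]
    have h1 : ((-(k * D1 P) : ℤ) : ℚ) ≤ P.ord c := by exact_mod_cast hc P hP
    rw [hD1] at h1
    have h2 := hDeq P hP
    push_cast at h1 ⊢
    rw [h2] at h1
    linarith
  right
  intro A hA
  obtain ⟨A2, hA2⟩ : ∃ A2 : Place ℂ K → ℕ, ∀ P, A2 P = d0 * bnd U P + bnd A P :=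
    ⟨_, fun _ => rfl⟩
  have hA2fin : {P | IsPrimeDivisor y P ∧ A2 P ≠ 0}.Finite := by
    refine ((bnd_sup hU).union (bnd_sup hA)).subset ?_
    rintro P ⟨hP, hne⟩
    by_contra hcon
    rw [Set.mem_union] at hcon
    push Not at hcon
    have h1 : bnd U P = 0 := by
      by_contra h3
      exact hcon.1 ⟨hP, h3⟩
    have h2 : bnd A P = 0 := by
      by_contra h3
      exact hcon.2 ⟨hP, h3⟩
    exact hne (by rw [hA2, h1, h2, mul_zero])
  obtain ⟨Q, hQ0, hQ⟩ := exists_move2 h hA2fin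
  obtain ⟨q, hq⟩ : ∃ q, q = MvPolynomial.aeval x Q := ⟨_, rfl⟩
  have hq0 : q ≠ 0 := hq ▸ h.gens.ne hQ0
  rw [← hq] at hQ
  obtain ⟨A3, hA3⟩ : ∃ A3 : Place ℂ K → ℤ, ∀ P, A3 P = A2 P - P.ord q := ⟨_, fun _ => rfl⟩
  have hA3s : ∀ P, IsPrimeDivisor y P → Horizontal (⊥ : IntermediateField ℂ K) P →
      ¬ Stab D P → A3 P = 0 := by
    intro P hP hPF hst
    rw [hA3, hQ P hP hPF hst, sub_self]
  have hA3fin : {P | IsPrimeDivisor y P ∧ A3 P ≠ 0}.Finite := by
    refine (hA2fin.union (finite_ord hy hq0)).subset ?_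
    rintro P ⟨hP, hne⟩
    by_contra hcon
    rw [Set.mem_union] at hcon
    push Not at hcon
    have h1 : A2 P = 0 := by
      by_contra h3
      exact hcon.1 ⟨hP, h3⟩
    have h2 : P.ord q = 0 := by
      by_contra h3
      exact hcon.2 ⟨hP, h3⟩
    exact hne (by rw [hA3, h1, h2, Nat.cast_zero, sub_zero])
  -- invariant sections
  have hinv : ∀ k : ℕ, ∀ f : K, f ≠ 0 →
      f ∈ LF y (⊥ : IntermediateField ℂ K) (fun P => k * D1 P + A3 P) →
      ∃ c ∈ F', c ≠ 0 ∧ ∀ P, IsPrimeDivisor y P → -(k * D1 P + A3 P) ≤ P.ord c := by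
    intro k f hf0 hf
    have hs : ∀ P, IsPrimeDivisor y P → Horizontal (⊥ : IntermediateField ℂ K) P →
        ¬ Stab D P → k * D1 P + A3 P = 0 := by
      intro P hP hPF hst
      rw [hD1s P hP hPF hst, hA3s P hP hPF hst, mul_zero, add_zero]
    have hfin : {P | IsPrimeDivisor y P ∧ k * D1 P + A3 P ≠ 0}.Finite := by
      refine (hD1fin.union hA3fin).subset ?_
      rintro P ⟨hP, hne⟩
      by_contra hcon
      rw [Set.mem_union] at hcon
      push Not at hcon
      have h1 : D1 P = 0 := by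
        by_contra h3
        exact hcon.1 ⟨hP, h3⟩
      have h2 : A3 P = 0 := by
        by_contra h3
        exact hcon.2 ⟨hP, h3⟩
      exact hne (by rw [h1, h2, mul_zero, add_zero])
    have hst : ∀ i, ∀ f ∈ LF y (⊥ : IntermediateField ℂ K) (fun P => k * D1 P + A3 P),
        D i f ∈ LF y (⊥ : IntermediateField ℂ K) (fun P => k * D1 P + A3 P) :=
      fun i f hf => LF_stable h.reg hs i hf
    obtain ⟨m, hm⟩ := fd_nilp2 h.sys _ (LF_finite hy h.proper hfin) hst f hf
    obtain ⟨c, hcS, hc0, hcD⟩ := exists_last (D := D)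
      (LF y (⊥ : IntermediateField ℂ K) (fun P => k * D1 P + A3 P)) hst m f hf hf0 hm
    exact ⟨c, h.sys.const c hcD, hc0, fun P hP =>
      (hcS P hP (horizontal_bot P)).resolve_left hc0⟩
  -- there are no invariant sections for large multiples
  have hnot : ¬ ∃ᶠ k : ℕ in Filter.atTop, ∃ c ∈ F', c ≠ 0 ∧ ∀ P, IsPrimeDivisor y P →
      -(k * D1 P + A3 P) ≤ P.ord c := by
    intro hinf
    apply hE
    rcases h.base with hF | ⟨t, hR⟩
    · refine ⟨1, le_rfl, 1, one_ne_zero, fun P hP => ?_⟩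
      rw [P.ord_one, Nat.cast_one, one_mul]
      by_contra hneg
      push Not at hneg
      rw [Filter.frequently_atTop] at hinf
      obtain ⟨k, hk, c, hc, hc0, hcP⟩ := hinf ((A3 P).toNat + 1)
      have h1 := hcP P hP
      rw [← hF] at hc
      rw [horizontal_bot P c hc hc0] at h1
      have h2 : ((A3 P).toNat : ℤ) + 1 ≤ k := by exact_mod_cast hk
      have h3 := Int.self_le_toNat (A3 P)
      nlinarith
    · have ht : Transcendental ℂ t := by
        rintro ⟨p, hp, hp0⟩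
        refine hR.tr (p.map (algebraMap ℂ (⊥ : IntermediateField ℂ K))) ?_ ?_
        · rw [Ne, Polynomial.map_eq_zero]
          exact hp
        · rw [Polynomial.aeval_map_algebraMap]
          exact hp0
      refine line_sections hy ht hR (fun α => exists_zero hy ?_) hD1fin hA3fin hinf
      intro h1
      apply ht
      have h2 := h1.add (isAlgebraic_algebraMap (A := K) α)
      rwa [sub_add_cancel] at h2
  rw [Filter.not_frequently, Filter.eventually_atTop] at hnot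
  obtain ⟨k0, hk0⟩ := hnot
  refine ⟨d0 * k0, fun m hm f hf => ?_⟩
  by_contra hf0
  obtain ⟨e, he⟩ : ∃ e, e = m / d0 := ⟨_, rfl⟩
  obtain ⟨ρ, hρ⟩ : ∃ ρ, ρ = m % d0 := ⟨_, rfl⟩
  have hek : k0 ≤ e := by
    rw [he, Nat.le_div_iff_mul_le (by omega), mul_comm]
    exact hm
  refine hk0 e hek (hinv e (f * g ^ e * q)
    (mul_ne_zero (mul_ne_zero hf0 (pow_ne_zero _ hg0)) hq0) fun P hP _ => ?_)
  right
  have h2 := (hf P hP).resolve_left hf0
  rw [Pi.add_apply, smul_ap] at h2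
  have h3 := hDeq P hP
  have h5 := le_bnd U P
  have h6 := le_bnd A P
  have h7 : (m : ℚ) = d0 * e + ρ := by
    rw [he, hρ]
    exact_mod_cast (Nat.div_add_mod m d0).symm
  have h8 : (ρ : ℚ) ≤ d0 := by
    rw [hρ]
    exact_mod_cast (Nat.mod_lt m (by omega)).le
  have h9 : (0 : ℚ) ≤ ρ := Nat.cast_nonneg _
  have h10 : (0 : ℚ) ≤ bnd U P := Nat.cast_nonneg _
  have h11 : (ρ : ℚ) * U P ≤ d0 * bnd U P :=
    (mul_le_mul_of_nonneg_left h5 h9).trans (mul_le_mul_of_nonneg_right h8 h10)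
  have h12 : P.ord (f * g ^ e * q) = P.ord f + e * P.ord g + P.ord q := by
    rw [P.ord_mul (mul_ne_zero hf0 (pow_ne_zero _ hg0)) hq0, P.ord_mul hf0 (pow_ne_zero _ hg0),
      P.ord_pow]
  have h13 : ((-(e * D1 P + A3 P) : ℤ) : ℚ) ≤ ((P.ord (f * g ^ e * q) : ℤ) : ℚ) := by
    rw [h12, hA3, hD1, hA2]
    push_cast
    rw [h3]
    rw [h7] at h2
    linarith
  exact_mod_cast h13

end

end Pool.Agent.H892
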