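import Pool.Agent.H892.C10

/-!
Varieties with an action of a unipotent group with a rational quotient of dimension at most one:
abundance for all divisors.
-/

set_option autoImplicit false
set_option linter.unusedSectionVars false
set_option linter.overlappingInstances false

open FF Pool.Agent.W602.GT Pool.Agent.W603.LV Pool.Agent.Y172 Pool.Agent.TH122.AB Pool.Agent.NH31

namespace Pool.Agent.H892

section

variable {L : Type} [Field L] [Algebra ℂ L] {N : ℕ}

/-- The normal projective variety with generic point `z` and function field `L` has an action of a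
unipotent Lie algebra with a rational quotient of dimension at most one: there is a finite
dimensional complex Lie algebra `𝔫` of derivations of `L` over `ℂ` such that
* the field `E` of the functions which are killed by `𝔫` is `ℂ` or a field `ℂ(t)` of rational
  functions in one variable;
* `L` is generated over `E` by algebraically independent functions `x 0, ..., x (d - 1)`, and `𝔫` is
  triangular: `D` maps `x i` to a polynomial over `E` in the `x j` with `j < i`, for all `D` in `𝔫`;
* `𝔫` is regular in codimension one: `D` maps the local rings of the prime divisors to themselves,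
  for all `D` in `𝔫`. -/
def UnipotentOne (z : Fin (N + 1) → L) : Prop :=
  ∃ (𝔫 : LieSubalgebra ℂ (Derivation ℂ L L)) (E : IntermediateField ℂ L) (d : ℕ)
    (x : Fin d → L),
    FiniteDimensional ℂ 𝔫 ∧ (∀ f : L, f ∈ E ↔ ∀ D ∈ 𝔫, D f = 0) ∧
    (E = ⊥ ∨ ∃ t : L, Transcendental ℂ t ∧ E = IntermediateField.adjoin ℂ {t}) ∧
    AlgebraicIndependent E x ∧ IntermediateField.adjoin E (Set.range x) = ⊤ ∧
    (∀ D ∈ 𝔫, ∀ i, D (x i) ∈ Algebra.adjoin E (x '' {j | j < i})) ∧
    ∀ P, IsPrimeDivisor z P → ∀ D ∈ 𝔫, DerReg P D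

/-- complex derivations are derivations over the trivial intermediate field -/
noncomputable def lft (D : Derivation ℂ L L) :
    Derivation (⊥ : IntermediateField ℂ L) L L where
  toFun := D
  map_add' := map_add D
  map_smul' := by
    intro c z
    obtain ⟨b, hb⟩ := IntermediateField.mem_bot.1 c.2
    have h1 : ∀ z : L, c • z = b • z := by
      intro z
      rw [Algebra.smul_def, Algebra.smul_def, hb]
      rfl
    rw [h1, D.map_smul, RingHom.id_apply, h1]
  map_one_eq_zero' := D.map_one_eq_zero
  leibniz' := D.leibniz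

theorem lft_apply (D : Derivation ℂ L L) (z : L) : lft D z = D z := rfl

theorem res_lft (D : Derivation ℂ L L) : (lft D).restrictScalars ℂ = D := rfl

theorem UnipotentOne.data {z : Fin (N + 1) → L} (hz : NormalModel z) (h : UnipotentOne z) :
    ∃ (F' : IntermediateField ℂ L) (ι : Type) (_ : Fintype ι) (D : ι → Derivation ℂ L L)
      (w : ι → ℕ) (d : ℕ) (x : Fin d → L),
      UniData2 z (⊥ : IntermediateField ℂ L) F' D w x := by
  classical
  obtain ⟨𝔫, F', d, x, hfd, hconst, hbase, hind, htop, htri, hreg⟩ := h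
  -- the Lie algebra over the trivial intermediate field
  obtain ⟨𝔪, h𝔪⟩ : ∃ 𝔪 : LieSubalgebra (⊥ : IntermediateField ℂ L)
      (Derivation (⊥ : IntermediateField ℂ L) L L), ∀ D, D ∈ 𝔪 ↔ D.restrictScalars ℂ ∈ 𝔫 := by
    refine ⟨{
      carrier := {D | D.restrictScalars ℂ ∈ 𝔫}
      add_mem' := ?_
      zero_mem' := ?_
      smul_mem' := ?_
      lie_mem' := ?_ }, fun D => Iff.rfl⟩
    · intro a b ha hb
      exact 𝔫.add_mem ha hb
    · exact 𝔫.zero_mem
    · intro c D hD
      obtain ⟨b, hb⟩ := IntermediateField.mem_bot.1 c.2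
      have h1 : (c • D).restrictScalars ℂ = b • D.restrictScalars ℂ := by
        ext z
        change c • D z = b • D z
        rw [Algebra.smul_def, Algebra.smul_def, hb]
        rfl
      change (c • D).restrictScalars ℂ ∈ 𝔫
      rw [h1]
      exact 𝔫.smul_mem b hD
    · intro a b ha hb
      have h1 : (⁅a, b⁆).restrictScalars ℂ = ⁅a.restrictScalars ℂ, b.restrictScalars ℂ⁆ := rfl
      change (⁅a, b⁆).restrictScalars ℂ ∈ 𝔫
      rw [h1]
      exact 𝔫.lie_mem ha hb
  have hfd' : FiniteDimensional (⊥ : IntermediateField ℂ L) 𝔪 := by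
    obtain ⟨r, e, he⟩ := Submodule.fg_iff_exists_fin_generating_family.1
      ((Submodule.fg_top _).1 (Module.Finite.fg_top (R := ℂ) (M := 𝔫)))
    have he' : ∀ E, E ∈ 𝔫 ↔ E ∈ Submodule.span ℂ (Set.range e) := by
      intro E
      rw [he]
      exact Iff.rfl
    have h1 : 𝔪.toSubmodule = Submodule.span (⊥ : IntermediateField ℂ L)
        (Set.range fun i => lft (e i)) := by
      apply le_antisymm
      · intro D hD
        have h2 : D.restrictScalars ℂ ∈ 𝔫 := (h𝔪 D).1 hD
        obtain ⟨c, hc⟩ := (Submodule.mem_span_range_iff_exists_fun ℂ).1 ((he' _).1 h2)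
        rw [Submodule.mem_span_range_iff_exists_fun]
        refine ⟨fun i => algebraMap ℂ (⊥ : IntermediateField ℂ L) (c i), ?_⟩
        ext z
        have h3 : D z = (∑ i, c i • e i) z := by
          rw [hc]
          rfl
        have h4 : ∀ s : Finset (Fin r), (∑ i ∈ s, c i • e i) z = ∑ i ∈ s, c i • e i z := by
          intro s
          induction s using Finset.induction_on with
          | empty => simp
          | insert a s ha ih =>
            rw [Finset.sum_insert ha, Finset.sum_insert ha, Derivation.add_apply, ih,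
              Derivation.smul_apply]
        rw [h3, sum_smul_app, h4]
        exact Finset.sum_congr rfl fun i _ => by
          rw [Algebra.smul_def]
          rfl
      · rw [Submodule.span_le]
        rintro _ ⟨i, rfl⟩
        refine (h𝔪 _).2 ?_
        rw [res_lft]
        exact (he' _).2 (Submodule.subset_span ⟨i, rfl⟩)
    have h2 : 𝔪.toSubmodule.FG := by
      rw [h1]
      exact Submodule.fg_span (Set.finite_range _)
    exact Module.Finite.iff_fg.2 h2
  have hm : ∀ D : Derivation ℂ L L, D ∈ 𝔫 → lft D ∈ 𝔪 := fun D hD => (h𝔪 _).2 hD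
  obtain ⟨ι, hι, D, w, hD, hs, hG, hp, hn⟩ := exists_sys2 (k := ℂ) (F := ⊥) (F' := F') bot_le 𝔪
    hfd' hind htop (fun D hD i => htri _ ((h𝔪 D).1 hD) i)
    (fun D hD f hf => (hconst f).1 hf _ ((h𝔪 D).1 hD)) fun f hf => (hconst f).2 fun D hD =>
      hf (lft D) (hm D hD)
  refine ⟨F', ι, hι, fun i => res (D i), w, d, x, hs, ?_, hG, hp, hn,
    fun P hP _ i => hreg P hP _ ((h𝔪 _).1 (hD i)), fibreProper_bot hz⟩
  rcases hbase with h | ⟨t, ht, h⟩
  · exact Or.inl h.symm
  · right
    refine ⟨t, ?_⟩
    have ht' : Transcendental (⊥ : IntermediateField ℂ L) t := by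
      intro h1
      apply ht
      have h5 : Algebra.IsAlgebraic ℂ (⊥ : IntermediateField ℂ L) := by
        refine ⟨fun z => ?_⟩
        obtain ⟨c, hc⟩ := IntermediateField.mem_bot.1 z.2
        have hz : z = algebraMap ℂ (⊥ : IntermediateField ℂ L) c := Subtype.ext hc.symm
        rw [hz]
        exact isAlgebraic_algebraMap c
      exact h1.restrictScalars ℂ
    have h2 := ratBase_adjoin (k := ℂ) (F := (⊥ : IntermediateField ℂ L)) ht'
    have h3 : IntermediateField.adjoin ℂ (((⊥ : IntermediateField ℂ L) : Set L) ∪ {t}) = F' := by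
      rw [h]
      apply le_antisymm
      · rw [IntermediateField.adjoin_le_iff]
        rintro a (ha | ha)
        · exact (bot_le : (⊥ : IntermediateField ℂ L) ≤ _) ha
        · exact IntermediateField.subset_adjoin ℂ _ ha
      · exact IntermediateField.adjoin.mono _ _ _ Set.subset_union_right
    rwa [h3] at h2

end

section

variable {L ι : Type} [Field L] [Algebra ℂ L] [Fintype ι] {N n d : ℕ} {z : Fin (N + 1) → L}
  {F' : IntermediateField ℂ L} {D : ι → Derivation ℂ L L} {w : ι → ℕ} {x : Fin d → L}

/-- **Abundance for all divisors.** -/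
theorem abs_abund (hz : NormalModel z) (hn : Algebra.trdeg ℂ L = n)
    (h : UniData2 z (⊥ : IntermediateField ℂ L) F' D w x) {V : Place ℂ L → ℚ}
    (hV : FinSup z V) : Abund z n V ∨ ∀ A, FinSup z A → ∃ m0 : ℕ, ∀ m, m0 ≤ m →
      ∀ ω, IsSection z n m (m • V + A) ω → ω = 0 := by
  classical
  obtain ⟨x', E, hx, hE⟩ := exists_crd hn
  obtain ⟨w', hw, hwf⟩ := exists_canon hz hn hx hE
  have hfr := frame_of_dual hx hE
  -- sections and functions
  have hsec : ∀ (m : ℕ) (D : Place ℂ L → ℚ) (ω : (Fin n → Derivation ℂ L L) → L),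
      IsPluri m ω → (IsSection z n m D ω ↔ Fn z (m • w' + D) (ω E)) := by
    intro m D ω hω
    constructor
    · rintro ⟨-, h⟩ P hP
      have h1 := (hwf P hP m ω _ hω).1 (h P hP)
      refine h1.imp_right fun h2 => le_trans (le_of_eq ?_) h2
      simp only [Pi.add_apply, smul_ap]
      ring
    · intro h
      refine ⟨hω, fun P hP => (hwf P hP m ω _ hω).2 ?_⟩
      refine (h P hP).imp_right fun h2 => le_trans (le_of_eq ?_) h2
      simp only [Pi.add_apply, smul_ap]
      ring
  rcases tame hz h (hw.add hV) with ⟨a, ha, σ, hσ, hσ0⟩ | hN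
  · left
    obtain ⟨κ, m0, g, hm0, hg, hg0, hind, hup⟩ := uni_growth2 hz h (U := w' + V) (hw.add hV)
      ha hσ hσ0 (by
        intro f hf
        obtain ⟨c, rfl⟩ := IntermediateField.mem_bot.1 hf
        have h1 := isAlgebraic_algebraMap (A := L) (algebraMap ℂ
          (IntermediateField.adjoin ℂ (rat z (w' + V))) c)
        exact h1)
    refine ⟨κ, m0, fun j => frm x' m0 (g j), hm0, fun j => ?_, ⟨E, ?_, ?_⟩, ?_⟩
    · rw [hsec m0 _ _ (frm_pluri x' m0 (g j)), frm_eval hE, ← smul_add]
      exact hg j
    · change frm x' m0 (g 0) E ≠ 0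
      rw [frm_eval hE]
      exact hg0
    · simp only [frm_eval hE]
      exact hind
    · intro x1 E' hx' hE' A hA
      obtain ⟨C, hC⟩ := hup A hA
      refine ⟨C, fun m hm r f hf h => hC m hm r (fun i =>
        ((Matrix.of fun i j => E' i (x' j)).det ^ m)⁻¹ * f i) ?_ fun i => ?_⟩
      · have hd := det_ne hx' hE' hE
        exact hf.map' (LinearMap.mulLeft ℂ _) (LinearMap.ker_eq_bot.2
          (mul_right_injective₀ (inv_ne_zero (pow_ne_zero _ hd))))
      · have hd := det_ne hx' hE' hE
        obtain ⟨ω, hω, hωf⟩ := h i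
        have h2 := (hsec m _ ω hω.1).1 hω
        have h3 : ω E' = (Matrix.of fun i j => E' i (x' j)).det ^ m * ω E :=
          pluri_coord hx hE hω.1 E'
        have h4 : ((Matrix.of fun i j => E' i (x' j)).det ^ m)⁻¹ * f i = ω E := by
          rw [← hωf, h3, inv_mul_cancel_left₀ (pow_ne_zero _ hd)]
        rw [h4, smul_add, add_assoc]
        exact h2
  · right
    intro A hA
    obtain ⟨m0, hm0⟩ := hN A hA
    refine ⟨m0, fun m hm ω hω => ?_⟩
    have h1 := (hsec m _ ω hω.1).1 hω
    rw [← add_assoc, ← smul_add] at h1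
    exact pluri_zero hfr hω.1 (hm0 m hm _ h1)

end

end Pool.Agent.H892
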