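import Pool.Agent.H892.C11
import Pool.Graph.R_seed8.Y172.Dim3

/-!
The reduction of abundance on the variety `X` to all divisors on a variety `Z` which dominates `X`.
-/

set_option autoImplicit false
set_option linter.unusedSectionVars false
set_option linter.overlappingInstances false

open FF Pool.Agent.W602.GT Pool.Agent.W603.LV Pool.Agent.W619.PQ Pool.Agent.Y172
open Pool.Agent.TH122.AB Pool.Agent.NH31
open Pool.Agent.R887 (pull pull_pluri pull_ord)

namespace Pool.Agent.H892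

section

variable {K L : Type} [Field K] [Field L] [Algebra ℂ K] [Algebra ℂ L]
  [Algebra K L] [IsScalarTower ℂ K L] [FiniteDimensional K L] {N N0 n : ℕ}
  {y : Fin (N + 1) → K} {y0 : Fin (N0 + 1) → L} {Δ : Place ℂ K → ℚ}

/-- **The ramified prime divisors are finite in number.** -/
theorem finite_ram (hy : NormalModel y) (hn : Algebra.trdeg ℂ K = n) (hy0 : NormalModel y0) :
    {Q : Place ℂ L | IsPrimeDivisor y0 Q ∧ IsPrimeDivisor y (bel K Q) ∧ ram K Q ≠ 1}.Finite := by
  classical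
  have hess := hy.ess
  have hnL : Algebra.trdeg ℂ L = n := trdeg_up (K := K) hn
  obtain ⟨x, E, hx, hE⟩ := exists_crd hn
  obtain ⟨w, hw, hwf⟩ := exists_canon hy hn hx hE
  choose E' hE' using fun i => exists_lift (L := L) hn (E i)
  have hxL : IsTranscendenceBasis ℂ (fun j => algebraMap K L (x j)) := hx.algebraMap_comp
  have hEL := lift_dual hE hE'
  obtain ⟨w', hw', hwf'⟩ := exists_canon hy0 hnL hxL hEL
  refine (hw'.union (finite_bel K (L := L) (T := {P | IsPrimeDivisor y P ∧ w P ≠ 0}) hw)).subset ?_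
  rintro Q ⟨hQ, hP, hne⟩
  by_contra hcon
  rw [Set.mem_union] at hcon
  push Not at hcon
  have h1 : w' Q = 0 := by
    by_contra h3
    exact hcon.1 ⟨hQ, h3⟩
  have h2 : w (bel K Q) = 0 := by
    by_contra h3
    exact hcon.2 ⟨hP, h3⟩
  apply hne
  have hover := over_bel K Q
  have hPd : Divisorial n (bel K Q) := hP.divisorial hy hn
  obtain ⟨ω, hω⟩ : ∃ ω, ω = frm x 1 1 := ⟨_, rfl⟩
  have hωp : IsPluri 1 ω := hω ▸ frm_pluri x 1 1
  have hωE : ω E = 1 := by rw [hω, frm_eval hE]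
  have h3 : OrdGe (bel K Q) ω ((0 : ℤ) : ℚ) := by
    rw [hwf _ hP 1 ω _ hωp]
    right
    rw [h2, hωE, (bel K Q).ord_one]
    simp
  have h4 : OrdGe Q (pull L x E 1 ω) ((ram K Q : ℚ) - 1) := by
    intro G hG
    have h5 := pull_ord hn hx hE hover hPd hωp h3 hG
    refine h5.imp_right fun h6 => ?_
    have h7 : (((1 : ℕ) : ℤ) * ((ram K Q : ℤ) - 1) + ram K Q * 0 : ℤ) ≤
      Q.ord (pull L x E 1 ω G) := h6
    have h8 : ((((1 : ℕ) : ℤ) * ((ram K Q : ℤ) - 1) + ram K Q * 0 : ℤ) : ℚ) ≤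
      Q.ord (pull L x E 1 ω G) := by exact_mod_cast h7
    push_cast at h8
    linarith
  rw [hwf' Q hQ 1 _ _ (pull_pluri x E 1 ω)] at h4
  have h5 : pull L x E 1 ω E' = 1 := by
    have h6 : (Matrix.of fun i j => E' i (algebraMap K L (x j))) =
        (1 : Matrix (Fin n) (Fin n) L) := by
      ext i j
      rw [Matrix.of_apply, hEL, Matrix.one_apply]
    change (Matrix.of fun i j => E' i (algebraMap K L (x j))).det ^ 1 *
      algebraMap K L (ω E) = _
    rw [h6, Matrix.det_one, one_pow, one_mul, hωE, map_one]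
  rw [h5, Q.ord_one, h1] at h4
  have h6 := h4.resolve_left one_ne_zero
  have h7 : (ram K Q : ℚ) ≤ 1 := by
    push_cast at h6
    linarith
  have h8 : ram K Q ≤ 1 := by exact_mod_cast h7
  have h9 : 0 < ram K Q := hover.1
  omega

/-- **The reduction.** -/
theorem reduction_abs (hy : NormalModel y) (hn : Algebra.trdeg ℂ K = n) (hy0 : NormalModel y0)
    (hΔ : {P | IsPrimeDivisor y P ∧ Δ P ≠ 0}.Finite) (hLC : LogCanonical y n Δ)
    (hdom : ∀ P, IsPrimeDivisor y P → ∀ (Q : Place ℂ L) (e : ℕ), LiesOver Q P e →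
      IsPrimeDivisor y0 Q)
    (hab : ∀ V : Place ℂ L → ℚ, FinSup y0 V → Abund y0 n V ∨ ∀ A, FinSup y0 A → ∃ m0 : ℕ,
      ∀ m, m0 ≤ m → ∀ ω, IsSection y0 n m (m • V + A) ω → ω = 0) :
    (kodairaDim y n Δ = ⊥ ∧ ∀ A, Effective y A → numericalDim y n Δ A = ⊥) ∨
    ∃ κ : ℕ, kodairaDim y n Δ = (κ : WithBot ℕ) ∧
      ∀ A, Effective y A → Integral y A → numericalDim y n Δ A = (κ : EReal) := by
  classical
  have hess := hy.ess
  have hessL : Algebra.EssFiniteType ℂ L := ess_up hess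
  have hnL : Algebra.trdeg ℂ L = n := trdeg_up (K := K) hn
  -- the divisor
  obtain ⟨V, hVdef⟩ : ∃ V : Place ℂ L → ℚ, ∀ Q, V Q = lpb y Δ Q := ⟨_, fun _ => rfl⟩
  have hVeq : ∀ Q, IsPrimeDivisor y (bel K Q) →
      V Q = 1 - ram K Q * (1 - Δ (bel K Q)) := by
    intro Q hP
    rw [hVdef, lpb, if_pos hP]
  have hVfin : FinSup y0 V := by
    refine (((finite_exc1 hy hn hy0).union (finite_bel K (L := L)
      (T := {P | IsPrimeDivisor y P ∧ Δ P ≠ 0}) hΔ)).union (finite_ram hy hn hy0)).subset ?_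
    rintro Q ⟨hQ, hne⟩
    by_cases h1 : IsPrimeDivisor y (bel K Q)
    · by_cases h2 : Δ (bel K Q) = 0
      · right
        refine ⟨hQ, h1, fun h3 => hne ?_⟩
        rw [hVeq Q h1, h2, h3]
        norm_num
      · left
        right
        exact ⟨h1, h2⟩
    · left
      left
      exact ⟨hQ, h1⟩
  obtain ⟨x, E, hx, hE⟩ := exists_crd hn
  choose E' hE' using fun i => exists_lift (L := L) hn (E i)
  have hxL : IsTranscendenceBasis ℂ (fun j => algebraMap K L (x j)) := hx.algebraMap_comp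
  have hEL := lift_dual hE hE'
  have hfr := frame_of_dual hx hE
  have hpE : ∀ (m : ℕ) (ω : (Fin n → Derivation ℂ K K) → K),
      pull L x E m ω E' = algebraMap K L (ω E) := by
    intro m ω
    have h2 : (Matrix.of fun i j => E' i (algebraMap K L (x j))) =
        (1 : Matrix (Fin n) (Fin n) L) := by
      ext i j
      rw [Matrix.of_apply, hEL, Matrix.one_apply]
    change (Matrix.of fun i j => E' i (algebraMap K L (x j))).det ^ m *
      algebraMap K L (ω E) = _
    rw [h2, Matrix.det_one, one_pow, one_mul]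
  rcases hab V hVfin with ⟨κ, m0, Ω, hm0, hΩ, ⟨G, hG0, hGi⟩, hup⟩ | hN
  · -- the case of sections
    right
    refine ⟨κ, ?_⟩
    have hupper : ∀ A, Effective y A → ∃ C : ℕ, ∀ m : ℕ, 1 ≤ m → ∀ (r : ℕ) (f : Fin r → K),
        LinearIndependent ℂ f → (∀ i, ∃ ω, IsSection y n m (m • Δ + A) ω ∧ ω E = f i) →
        r ≤ C * m ^ κ := by
      intro A hA
      obtain ⟨A', hA', hsec⟩ := pull_section hy hn hy0 hLC
        (fun Q _ => (hVdef Q).ge) hx hE hA
      obtain ⟨C, hC⟩ := hup _ E' hxL hEL A' hA'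
      refine ⟨C, fun m hm r f hf h => hC m hm r (fun i => algebraMap K L (f i)) ?_ fun i => ?_⟩
      · exact hf.map' ((IsScalarTower.toAlgHom ℂ K L).toLinearMap) (LinearMap.ker_eq_bot.2
          (algebraMap K L).injective)
      · obtain ⟨ω, hω, hωf⟩ := h i
        exact ⟨_, hsec m hm ω hω, by rw [hpE, hωf]⟩
    -- the forms on the extension
    obtain ⟨d0, hd0, hden⟩ := exists_den_fin (y := y) (U := Δ) hΔ
    obtain ⟨c0, hc0⟩ : ∃ c0, d0 = c0 + 1 := ⟨d0 - 1, by omega⟩
    obtain ⟨M, hM⟩ : ∃ M : ℕ, M = d0 * m0 := ⟨_, rfl⟩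
    obtain ⟨W, hW⟩ : ∃ W : Fin (κ + 1) → (Fin n → Derivation ℂ L L) → L,
        ∀ j D, W j D = Ω j D * Ω 0 D ^ c0 := ⟨fun j D => Ω j D * Ω 0 D ^ c0, fun _ _ => rfl⟩
    have hWs : ∀ j, IsSection y0 n M (M • V) (W j) := by
      intro j
      have h1 := (hΩ j).mul ((hΩ 0).pow c0)
      have e1 : m0 + c0 * m0 = M := by
        rw [hM, hc0]
        ring
      rw [e1] at h1
      have e2 : m0 • V + c0 • (m0 • V) = M • V := by
        rw [hM, hc0]
        ext Q
        simp only [Pi.add_apply, smul_ap]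
        push_cast
        ring
      rw [e2] at h1
      have e3 : W j = fun D => Ω j D * Ω 0 D ^ c0 := funext (hW j)
      rw [e3]
      exact h1
    have hWG : W 0 G ≠ 0 := by
      rw [hW]
      exact mul_ne_zero hG0 (pow_ne_zero _ hG0)
    have hWi : AlgebraicIndependent ℂ fun i : Fin κ => W i.succ G / W 0 G := by
      have e1 : (fun i : Fin κ => W i.succ G / W 0 G) = fun i : Fin κ => Ω i.succ G / Ω 0 G := by
        funext i
        rw [hW, hW, mul_div_mul_right _ _ (pow_ne_zero _ hG0)]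
      rw [e1]
      exact hGi
    have hord : ∀ P ∈ {P | IsPrimeDivisor y P}, ∀ (Q : Place ℂ L) (e : ℕ), Over Q P e → ∀ j,
        ∀ D : Fin n → Derivation ℂ L L, (∀ i, DerReg Q (D i)) →
          W j D = 0 ∨ -(M * (1 - e * (1 - (Δ P : ℝ)))) ≤ (Q.ord (W j D) : ℝ) := by
      intro P hP Q e hQ j D hD
      obtain ⟨hbel, hram⟩ := bel_eq K hQ
      have hQ0 : IsPrimeDivisor y0 Q := hdom P hP Q e hQ
      have key : W j D = 0 ∨ -(M * (1 - e * (1 - Δ P))) ≤ (Q.ord (W j D) : ℚ) := by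
        refine ((hWs j).2 Q hQ0 D hD).imp_right fun h1 => le_trans ?_ h1
        have h2 : V Q = 1 - e * (1 - Δ P) := by
          rw [hVeq Q (by rw [hbel]; exact hP), hbel, hram]
        rw [smul_ap, h2]
      refine key.imp_right fun h1 => ?_
      have h2 : ((-(M * (1 - e * (1 - Δ P))) : ℚ) : ℝ) ≤ ((Q.ord (W j D) : ℚ) : ℝ) := by
        exact_mod_cast h1
      push_cast at h2
      exact h2
    obtain ⟨R, Ω', hR, hΩ', hΩ'P, E0, hE00, hE0i⟩ := descend1 (K := K) (L := L) hn
      (X := {P | IsPrimeDivisor y P}) (fun P hP => IsPrimeDivisor.divisorial hy hn hP)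
      (Δ := Δ) (M := M) (by
        intro P hP
        obtain ⟨z, hz⟩ := hden P hP
        refine ⟨m0 * z, ?_⟩
        rw [hM]
        push_cast
        rw [← hz]
        ring) (fun j => (hWs j).1) hord hWG hWi
    have hMR : 1 ≤ M * R := by
      have h1 : 1 ≤ M := by
        rw [hM]
        exact Nat.succ_le_of_lt (Nat.mul_pos (by omega) (by omega))
      exact Nat.succ_le_of_lt (Nat.mul_pos (by omega) (by omega))
    exact dims3 hΔ hfr hupper hMR (ω := Ω') (fun j => ⟨hΩ' j, fun P hP G hG => by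
      have h1 := hΩ'P P hP j G hG
      refine h1.imp_right fun h2 => le_trans (le_of_eq ?_) h2
      simp only [smul_ap]⟩) hE00 hE0i
  · -- the case without sections
    left
    have hnone : ∀ A, Effective y A →
        ¬ ∀ m1 : ℕ, ∃ m' : ℕ, m1 ≤ m' ∧ ∃ s', IsSection y n m' (m' • Δ + A) s' ∧ s' ≠ 0 := by
      intro A hA hcon
      obtain ⟨A', hA', hsec⟩ := pull_section hy hn hy0 hLC
        (fun Q _ => (hVdef Q).ge) hx hE hA
      obtain ⟨m0, hm0⟩ := hN A' hA'
      obtain ⟨m, hm, s, hs, hs0⟩ := hcon (m0 + 1)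
      have h1 := hm0 m (by omega) _ (hsec m (by omega) s hs)
      apply hs0
      have h2 : s E = 0 := by
        have h3 := congrFun h1 E'
        rw [hpE, Pi.zero_apply, map_eq_zero] at h3
        exact h3
      exact pluri_zero hfr hs.1 h2
    have hz : Effective y (0 : Place ℂ K → ℚ) := ⟨fun _ _ => le_rfl, by
      refine Set.finite_empty.subset ?_
      rintro P ⟨-, h⟩
      exact h rfl⟩
    exact ⟨(not_psef hz (hnone 0 hz)).1, fun A hA => (not_psef hA (hnone A hA)).2⟩

end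

end Pool.Agent.H892
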