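import Pool.Agent.H892.C1

/-!
A semi-invariant power series attached to an infinite dimensional invariant space.
-/

set_option autoImplicit false
set_option linter.unusedSectionVars false

open FF PowerSeries

namespace Pool.Agent.H892

section

variable {k K ι : Type} [Field k] [Field K] [Algebra k K] [Fintype ι]
  {F F' : IntermediateField k K} {D : ι → Derivation k K K} {w : ι → ℕ}

theorem cf_of_const (hs : NilSys F D w) {f : PowerSeries K} (h : ∀ i, dh (D i) f = 0) :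
    CF F f := fun n => hs.const _ fun i => by rw [← coeff_dh, h i, map_zero]

theorem cf_zero : CF F (0 : PowerSeries K) := fun n => by
  rw [map_zero]
  exact F.zero_mem

theorem cf_C {a : K} (ha : a ∈ F) : CF F (C a : PowerSeries K) := fun n => by
  rw [coeff_C]
  split_ifs
  · exact ha
  · exact F.zero_mem

theorem cf_X : CF F (X : PowerSeries K) := fun n => by
  rw [coeff_X]
  split_ifs
  · exact F.one_mem
  · exact F.zero_mem

theorem cf_one : CF F (1 : PowerSeries K) := fun n => by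
  rw [coeff_one]
  split_ifs
  · exact F.one_mem
  · exact F.zero_mem

theorem CF.neg {f : PowerSeries K} (hf : CF F f) : CF F (-f) := fun n => by
  rw [map_neg]
  exact F.neg_mem (hf n)

theorem CF.mono {F₁ F₂ : IntermediateField k K} (h : F₁ ≤ F₂) {f : PowerSeries K} (hf : CF F₁ f) :
    CF F₂ f := fun n => h (hf n)

theorem CF.prod {α : Type} (s : Finset α) {f : α → PowerSeries K} (h : ∀ a ∈ s, CF F (f a)) :
    CF F (∏ a ∈ s, f a) := by
  classical
  induction s using Finset.induction_on with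
  | empty => rw [Finset.prod_empty]; exact cf_one
  | insert a s ha ih =>
    rw [Finset.prod_insert ha]
    exact (h a (Finset.mem_insert_self a s)).mul (ih fun b hb => h b (Finset.mem_insert_of_mem hb))

theorem CF.pow {f : PowerSeries K} (hf : CF F f) (n : ℕ) : CF F (f ^ n) := by
  induction n with
  | zero => rw [pow_zero]; exact cf_one
  | succ n ih => rw [pow_succ]; exact ih.mul hf

/-- **A semi-invariant series.** -/
theorem exists_semi [CharZero k] (hs : NilSys2 F F' D w) (W : Submodule F K)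
    (hst : ∀ i, ∀ x ∈ W, D i x ∈ W) (hnil : ∀ x ∈ W, Nilp D x) (hinf : ¬ FiniteDimensional F W)
    (h0 : ∀ W0 ≤ W, (∀ x ∈ W0, x ∈ F') → FiniteDimensional F W0) :
    ∃ Λ : PowerSeries K, coeff 0 Λ = 1 ∧ (∀ i, ∃ τ, CF F' τ ∧ dh (D i) Λ = τ * Λ) ∧
      (∃ (j : ι) (r : ℕ), r ≠ 0 ∧ dh (D j) Λ = (r : PowerSeries K) * X * Λ) ∧
      ∀ v : Place k K, (∃ C : ℤ, ∀ x ∈ W, Og v C x) → ∃ C, Bs v C Λ := by
  classical
  obtain ⟨W', hW'W, hst', j, hcom, hsurj, hfd, x0, hx0W, hx00, hx0D⟩ := exists_surj2 hs W hst hnil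
    hinf h0
  obtain ⟨B, hB⟩ : ∃ B : Submodule F K, B = W' ⊓ LinearMap.ker (dlin (D j) (hs.killsF j)) :=
    ⟨_, rfl⟩
  have hBmem : ∀ x, x ∈ B ↔ x ∈ W' ∧ D j x = 0 := by
    intro x
    rw [hB, Submodule.mem_inf, LinearMap.mem_ker, dlin_apply]
  rw [← hB] at hfd
  obtain ⟨m, hm⟩ : ∃ m, m = Module.finrank F B := ⟨_, rfl⟩
  let b : Module.Basis (Fin m) F B := (Module.finBasis F B).reindex (finCongr hm.symm)
  have hm0 : m ≠ 0 := by
    intro h0
    rw [hm] at h0
    have h1 : B = ⊥ := Submodule.finrank_eq_zero.1 h0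
    have h2 : x0 ∈ B := (hBmem x0).2 ⟨hx0W, hx0D⟩
    rw [h1, Submodule.mem_bot] at h2
    exact hx00 h2
  -- the series
  choose up hupW hup using hsurj
  let sq : Fin m → ℕ → {x // x ∈ W'} := fun a n =>
    Nat.rec ⟨(b a : K), ((hBmem _).1 (b a).2).1⟩ (fun _ x => ⟨up x.1 x.2, hupW x.1 x.2⟩) n
  obtain ⟨E, hE⟩ : ∃ E : Fin m → PowerSeries K, ∀ a n, coeff n (E a) = (sq a n).1 :=
    ⟨fun a => PowerSeries.mk fun n => (sq a n).1, fun a n => by rw [coeff_mk]⟩
  have hEW : ∀ a n, coeff n (E a) ∈ W' := fun a n => by rw [hE]; exact (sq a n).2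
  have hE0 : ∀ a, coeff 0 (E a) = b a := fun a => by
    rw [hE]
    rfl
  have hED : ∀ a, dh (D j) (E a) = X * E a := by
    intro a
    ext n
    rw [coeff_dh]
    rcases n with - | n
    · rw [hE0, coeff_zero_X_mul]
      exact ((hBmem _).1 (b a).2).2
    · rw [coeff_succ_X_mul, hE, hE]
      exact hup _ _
  obtain ⟨𝓔, h𝓔⟩ : ∃ 𝓔 : Set (PowerSeries K), ∀ f, f ∈ 𝓔 ↔ (∀ n, coeff n f ∈ W') ∧
      dh (D j) f = X * f := ⟨{f | _}, fun _ => Iff.rfl⟩
  have hstep : ∀ f ∈ 𝓔, ∃ c : Fin m → K, (∀ a, c a ∈ F) ∧ ∃ f' ∈ 𝓔,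
      f = ∑ a, C (c a) * E a + X * f' := by
    intro f hf
    obtain ⟨hfW, hfD⟩ := (h𝓔 f).1 hf
    have h1 : coeff 0 f ∈ B := by
      rw [hBmem]
      refine ⟨hfW 0, ?_⟩
      rw [← coeff_dh, hfD, coeff_zero_X_mul]
    obtain ⟨c, hc⟩ : ∃ c : Fin m → F, c = b.repr ⟨_, h1⟩ := ⟨_, rfl⟩
    have h2 : ∑ a, (c a : K) * (b a : K) = coeff 0 f := by
      have h3 := b.sum_repr ⟨_, h1⟩
      have h4 : ((∑ i, b.repr ⟨_, h1⟩ i • b i : B) : K) = coeff 0 f := congrArg Subtype.val h3
      refine Eq.trans ?_ h4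
      rw [AddSubmonoidClass.coe_finsetSum]
      refine Finset.sum_congr rfl fun a _ => ?_
      rw [hc]
      rfl
    have h3 : coeff 0 (f - ∑ a, C (c a : K) * E a) = 0 := by
      rw [map_sub, map_sum, ← h2, sub_eq_zero]
      refine Finset.sum_congr rfl fun a _ => ?_
      rw [coeff_C_mul, hE0]
    rw [coeff_zero_eq_constantCoeff_apply] at h3
    obtain ⟨f', hf'⟩ := X_dvd_iff.2 h3
    refine ⟨fun a => c a, fun a => (c a).2, f', (h𝓔 f').2 ⟨fun n => ?_, ?_⟩, ?_⟩
    · have h4 : coeff n f' = coeff (n + 1) (f - ∑ a, C (c a : K) * E a) := by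
        rw [hf', coeff_succ_X_mul]
      rw [h4, map_sub, map_sum]
      refine W'.sub_mem (hfW _) (W'.sum_mem fun a _ => ?_)
      rw [coeff_C_mul]
      exact W'.smul_mem (c a) (hEW a _)
    · have h4 : dh (D j) (f - ∑ a, C (c a : K) * E a) = X * (f - ∑ a, C (c a : K) * E a) := by
        rw [map_sub, map_sum, hfD, mul_sub, Finset.mul_sum]
        congr 1
        refine Finset.sum_congr rfl fun a _ => ?_
        rw [dh_smul (hs.killsF j) (cf_C (c a).2), hED]
        ring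
      rw [hf'] at h4
      rw [dh_smul (hs.killsF j) cf_X] at h4
      exact mul_left_cancel₀ X_ne_zero h4
    · rw [← hf']
      ring
  -- the matrices over the scalars
  have hM : ∀ i, ∃ M : Fin m → Fin m → PowerSeries K, (∀ a c, CF F (M a c)) ∧
      ∀ a, dh (D i) (E a) = ∑ c, M a c * E c := by
    intro i
    have h1 : ∀ a, ∃ c : Fin m → PowerSeries K, (∀ b, CF F (c b)) ∧
        dh (D i) (E a) = ∑ b, c b * E b := by
      intro a
      refine exists_coeffs hstep _ ((h𝓔 _).2 ⟨fun n => ?_, ?_⟩)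
      · rw [coeff_dh]
        exact hst' i _ (hEW a n)
      · ext n
        rw [coeff_dh, coeff_dh, ← hcom i _ (hEW a n), ← coeff_dh, hED]
        rcases n with - | n
        · rw [coeff_zero_X_mul, coeff_zero_X_mul, map_zero]
        · rw [coeff_succ_X_mul, coeff_succ_X_mul, coeff_dh]
    choose M hM1 hM2 using h1
    exact ⟨M, fun a c => hM1 a c, fun a => hM2 a⟩
  choose M hMF hME using hM
  -- a maximal independent subfamily
  obtain ⟨Pr, hPr⟩ : ∃ Pr : ℕ → Prop, ∀ r, Pr r ↔ ∃ (α : Fin r → Fin m) (u : Fin r → List ι),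
      (Matrix.of fun a b => oph D (u b) (E (α a))).det ≠ 0 := ⟨fun r => _, fun _ => Iff.rfl⟩
  have hPr1 : Pr 1 := by
    rw [hPr]
    refine ⟨fun _ => ⟨0, by omega⟩, fun _ => [], ?_⟩
    rw [Matrix.det_unique]
    change oph D [] (E ⟨0, _⟩) ≠ 0
    rw [oph_nil]
    intro h
    have h1 := hE0 ⟨0, by omega⟩
    rw [h, map_zero] at h1
    exact b.ne_zero ⟨0, by omega⟩ (Subtype.ext h1.symm)
  have hPrm : ∀ r, Pr r → r ≤ m := by
    intro r hr
    obtain ⟨α, u, hu⟩ := (hPr r).1 hr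
    have hinj : Function.Injective α := by
      intro a b hab
      by_contra hne
      exact hu (Matrix.det_zero_of_row_eq hne (by
        funext c
        rw [Matrix.of_apply, Matrix.of_apply, hab]))
    have := Fintype.card_le_of_injective α hinj
    rwa [Fintype.card_fin, Fintype.card_fin] at this
  obtain ⟨r, hr1, hrP, hrmax⟩ : ∃ r, 1 ≤ r ∧ Pr r ∧ ¬ Pr (r + 1) := by
    by_contra hcon
    push Not at hcon
    have h1 : ∀ r, 1 ≤ r → Pr r := by
      intro r hr
      induction r, hr using Nat.le_induction with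
      | base => exact hPr1
      | succ r hr ih => exact hcon r hr ih
    have := hPrm (m + 1) (h1 _ (by omega))
    omega
  obtain ⟨α, hα⟩ := (hPr r).1 hrP
  obtain ⟨u, hu, hmin⟩ : ∃ u : Fin r → List ι,
      (Matrix.of fun a b => oph D (u b) (E (α a))).det ≠ 0 ∧ ∀ v : Fin r → List ι,
      ∑ b, wt w (v b) < ∑ b, wt w (u b) →
        (Matrix.of fun a b => oph D (v b) (E (α a))).det = 0 := by
    obtain ⟨u0, hu0⟩ := hα
    obtain ⟨n, hn⟩ : ∃ n, n = sInf {n : ℕ | ∃ u : Fin r → List ι,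
      (Matrix.of fun a b => oph D (u b) (E (α a))).det ≠ 0 ∧ ∑ b, wt w (u b) = n} := ⟨_, rfl⟩
    have h1 : n ∈ {n : ℕ | ∃ u : Fin r → List ι,
      (Matrix.of fun a b => oph D (u b) (E (α a))).det ≠ 0 ∧ ∑ b, wt w (u b) = n} := by
      rw [hn]
      exact Nat.sInf_mem ⟨_, u0, hu0, rfl⟩
    obtain ⟨u, hu, hun⟩ := h1
    refine ⟨u, hu, fun v hv => ?_⟩
    by_contra hcon
    have h2 : n ≤ ∑ b, wt w (v b) := by
      rw [hn]
      exact Nat.sInf_le ⟨v, hcon, rfl⟩
    omega
  -- the other series are dependent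
  have hdep : ∀ c : Fin m, ∃ (g : PowerSeries K) (e : Fin r → PowerSeries K), CF F' g ∧ g ≠ 0 ∧
      (∀ a, CF F' (e a)) ∧ g * E c = ∑ a, e a * E (α a) := by
    intro c
    obtain ⟨e, heF, ⟨a1, ha1⟩, he⟩ := exists_dep hs.sys (Fin.cons (E c) fun a => E (α a)) (by
      intro v
      by_contra hcon
      apply hrmax
      rw [hPr]
      refine ⟨Fin.cons c α, v, ?_⟩
      have h1 : (Matrix.of fun a b => oph D (v b) (E ((Fin.cons c α : Fin (r + 1) → Fin m) a))) =
          Matrix.of fun a b => oph D (v b)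
            ((Fin.cons (E c) (fun a => E (α a)) : Fin (r + 1) → PowerSeries K) a) := by
        ext1 a b'
        rw [Matrix.of_apply, Matrix.of_apply]
        refine Fin.cases ?_ (fun a => ?_) a
        · rfl
        · rfl
      rw [h1]
      exact hcon)
    rw [Fin.sum_univ_succ] at he
    simp only [Fin.cons_zero, Fin.cons_succ] at he
    refine ⟨e 0, fun a => - e a.succ, heF 0, ?_, fun a => (heF _).neg, ?_⟩
    · intro he0
      rw [he0, zero_mul, zero_add] at he
      apply hu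
      refine Matrix.exists_vecMul_eq_zero_iff.1 ⟨fun a => e a.succ, ?_, ?_⟩
      · intro h
        refine Fin.cases (fun h2 => h2 he0) (fun a h2 => h2 (congrFun h a)) a1 ha1
      · funext b'
        rw [Matrix.vecMul, dotProduct, Pi.zero_apply]
        have h2 := congrArg (oph D (u b')) he
        rw [oph_zero, oph_sum] at h2
        rw [← h2]
        refine Finset.sum_congr rfl fun a _ => ?_
        rw [Matrix.of_apply, oph_smul hs.kills _ (heF _)]
    · simp only [neg_mul, Finset.sum_neg_distrib]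
      linear_combination he
  choose g e hgF hg0 heF hge using hdep
  obtain ⟨G, hG⟩ : ∃ G : PowerSeries K, G = ∏ c, g c := ⟨_, rfl⟩
  have hGF : CF F' G := by
    rw [hG]
    exact CF.prod _ fun c _ => hgF c
  have hG0 : G ≠ 0 := by
    rw [hG]
    exact Finset.prod_ne_zero_iff.2 fun c _ => hg0 c
  have hGE : ∀ c, ∃ e : Fin r → PowerSeries K, (∀ a, CF F' (e a)) ∧
      G * E c = ∑ a, e a * E (α a) := by
    intro c
    refine ⟨fun a => (∏ x ∈ Finset.univ.erase c, g x) * e c a, fun a =>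
      (CF.prod _ fun x _ => hgF x).mul (heF c a), ?_⟩
    rw [hG, ← Finset.mul_prod_erase _ _ (Finset.mem_univ c), mul_comm (g c), mul_assoc, hge,
      Finset.mul_sum]
    refine Finset.sum_congr rfl fun a _ => ?_
    rw [mul_assoc]
  choose e' he'F he'E using hGE
  have hsemi : ∀ (i : ι) (μ : Fin m → Fin m → PowerSeries K), (∀ a c, CF F' (μ a c)) →
      (∀ a, dh (D i) (E a) = ∑ c, μ a c * E c) → ∃ τ, CF F' τ ∧
      G * dh (D i) (Matrix.of fun a b => oph D (u b) (E (α a))).det =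
        τ * (Matrix.of fun a b => oph D (u b) (E (α a))).det := by
    intro i μ hμF hμ
    have hN : ∀ a c', CF F' (∑ c, μ (α a) c * e' c c') := fun a c' =>
      CF.sum _ fun c _ => (hμF _ _).mul (he'F _ _)
    refine ⟨_, ?_, semi_det2 hs.sys (fun a => E (α a)) u hmin i hGF
      (Matrix.of fun a c' => ∑ c, μ (α a) c * e' c c') (fun a c' => hN a c') fun a => ?_⟩
    · exact CF.sum _ fun a _ => hN a a
    · rw [hμ, Finset.mul_sum]
      have h1 : ∀ c, G * (μ (α a) c * E c) = ∑ c', μ (α a) c * e' c c' * E (α c') := by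
        intro c
        rw [mul_left_comm, he'E, Finset.mul_sum]
        refine Finset.sum_congr rfl fun c' _ => ?_
        rw [mul_assoc]
      rw [Finset.sum_congr rfl fun c _ => h1 c, Finset.sum_comm]
      refine Finset.sum_congr rfl fun c' _ => ?_
      rw [Matrix.of_apply, Finset.sum_mul]
  obtain ⟨Δ, hΔ⟩ : ∃ Δ, Δ = (Matrix.of fun a b => oph D (u b) (E (α a))).det := ⟨_, rfl⟩
  -- the central derivation
  have hτj : dh (D j) Δ = (r : PowerSeries K) * X * Δ := by
    have h1 := semi_det2 hs.sys (fun a => E (α a)) u hmin j cf_one (Matrix.diagonal fun _ => X)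
      (fun a c => by
        intro n
        rw [Matrix.diagonal_apply]
        split_ifs
        · exact cf_X n
        · exact cf_zero n) (fun a => by
      rw [hED, one_mul, Finset.sum_eq_single a]
      · rw [Matrix.diagonal_apply_eq]
      · intro c _ hc
        rw [Matrix.diagonal_apply_ne _ hc.symm, zero_mul]
      · intro h
        exact absurd (Finset.mem_univ a) h)
    rw [← hΔ, Matrix.trace_diagonal, Finset.sum_const, Finset.card_univ, Fintype.card_fin,
      nsmul_eq_mul, one_mul] at h1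
    exact h1
  rw [← hΔ] at hu hsemi
  -- words
  have hophW : ∀ (u : List ι) (a : Fin m) (n : ℕ), coeff n (oph D u (E a)) ∈ W' := by
    intro u a
    induction u with
    | nil => exact fun n => hEW a n
    | cons i u ih =>
      intro n
      rw [oph_cons, coeff_dh]
      exact hst' i _ (ih n)
  have hΔnil : Δ ∈ nilSer D := by
    rw [hΔ]
    exact nilSer_det _ fun a b n => hnil _ (hW'W (hophW (u b) (α a) n))
  have hΔv : ∀ v : Place k K, (∃ C : ℤ, ∀ x ∈ W, Og v C x) → ∃ C, Bs v C Δ := by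
    rintro v ⟨C, hC⟩
    refine ⟨r * C, ?_⟩
    rw [hΔ]
    exact bs_det _ fun a b n => hC _ (hW'W (hophW (u b) (α a) n))
  -- normalisation
  obtain ⟨Γ, hΓ⟩ := X_pow_order_dvd (φ := Δ)
  obtain ⟨q, hq⟩ : ∃ q, q = Δ.order.toNat := ⟨_, rfl⟩
  rw [← hq] at hΓ
  have hΓn : ∀ n, coeff n Γ = coeff (n + q) Δ := by
    intro n
    rw [hΓ, coeff_X_pow_mul]
  have hδ : coeff 0 Γ ≠ 0 := by
    rw [hΓn, zero_add, hq]
    exact coeff_order hu
  obtain ⟨δ, hδd⟩ : ∃ δ, δ = coeff 0 Γ := ⟨_, rfl⟩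
  rw [← hδd] at hδ
  have hXq : CF F' ((X : PowerSeries K) ^ q) := cf_X.pow q
  have hXq0 : (X : PowerSeries K) ^ q ≠ 0 := pow_ne_zero _ X_ne_zero
  have hΓc : constantCoeff Γ ≠ 0 := by
    rw [← coeff_zero_eq_constantCoeff_apply, ← hδd]
    exact hδ
  have hΓτ : ∀ i, ∃ τ, CF F' τ ∧ dh (D i) Γ = τ * Γ := by
    intro i
    obtain ⟨σ, hσF, hσ⟩ := hsemi i (M i) (fun a c => (hMF i a c).mono hs.le) (hME i)
    rw [hΓ, dh_smul (hs.kills i) hXq] at hσ
    have h1 : G * dh (D i) Γ = σ * Γ := by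
      refine mul_left_cancel₀ hXq0 ?_
      linear_combination hσ
    obtain ⟨τ, hτ⟩ : ∃ τ, τ = dh (D i) Γ * Γ⁻¹ := ⟨_, rfl⟩
    have hτΓ : dh (D i) Γ = τ * Γ := by
      rw [hτ, mul_assoc, PowerSeries.inv_mul_cancel _ hΓc, mul_one]
    have hΓ0 : Γ ≠ 0 := by
      rintro rfl
      exact hΓc (map_zero _)
    have h2 : G * τ = σ := by
      refine mul_right_cancel₀ hΓ0 ?_
      rw [mul_assoc, ← hτΓ, h1]
    refine ⟨τ, cf_of_const hs.sys fun l => ?_, hτΓ⟩
    have h3 : G * dh (D l) τ = 0 := by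
      rw [← dh_smul (hs.kills l) hGF, h2, hσF.dh (hs.kills l)]
    exact (mul_eq_zero.1 h3).resolve_left hG0
  choose τ hτF hτ using hΓτ
  have hΓj : dh (D j) Γ = (r : PowerSeries K) * X * Γ := by
    rw [hΓ, dh_smul (hs.kills j) hXq] at hτj
    refine mul_left_cancel₀ hXq0 ?_
    linear_combination hτj
  have hδnil : Nilp D δ := by
    rw [hδd, hΓn]
    exact hΔnil _
  have hτ0 : ∀ i, coeff 0 (τ i) = 0 := by
    intro i
    have h1 := congrArg (coeff 0) (hτ i)
    rw [coeff_dh, c0mul, ← hδd] at h1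
    obtain ⟨n, hn⟩ := hδnil
    exact semi_nilp (hs.kills i _ (hτF i 0)) n δ hn hδ h1
  have hδF : δ ∈ F' := by
    refine hs.const δ fun i => ?_
    have h1 := congrArg (coeff 0) (hτ i)
    rw [coeff_dh, c0mul, ← hδd, hτ0, zero_mul] at h1
    exact h1
  have hCF : CF F' (C δ⁻¹ : PowerSeries K) := cf_C (F'.inv_mem hδF)
  refine ⟨C δ⁻¹ * Γ, ?_, fun i => ⟨τ i, hτF i, ?_⟩, ⟨j, r, by omega, ?_⟩, fun v hv => ?_⟩
  · rw [coeff_C_mul, ← hδd, inv_mul_cancel₀ hδ]
  · rw [dh_smul (hs.kills i) hCF, hτ i]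
    ring
  · rw [dh_smul (hs.kills j) hCF, hΓj]
    ring
  · obtain ⟨C2, hC2⟩ := hΔv v hv
    refine ⟨-v.ord δ + C2, fun n => ?_⟩
    rw [coeff_C_mul, hΓn]
    have h2 : Og v (-v.ord δ) δ⁻¹ := Or.inr (by rw [v.ord_inv])
    exact h2.mul (hC2 (n + q))

end

end Pool.Agent.H892
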