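import Pool.Agent.H892.C2

/-!
Integrality of power series at places which are not trivial on the constants.
-/

set_option autoImplicit false
set_option linter.unusedSectionVars false

open FF PowerSeries

namespace Pool.Agent.H892

section

variable {k K : Type} [Field k] [Field K] [Algebra k K] {F' : IntermediateField k K}

theorem Og.reg {v : Place k K} {x : K} (h : Og v 0 x) : v.Reg x := h

theorem Bs.mono {v : Place k K} {C C' : ℤ} (h : C' ≤ C) {f : PowerSeries K} (hf : Bs v C f) :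
    Bs v C' f := fun n => (hf n).mono h

theorem Bs.C_mul {v : Place k K} {C₀ C₁ : ℤ} {a : K} (ha : Og v C₀ a) {f : PowerSeries K}
    (hf : Bs v C₁ f) : Bs v (C₀ + C₁) (PowerSeries.C a * f) := fun n => by
  rw [coeff_C_mul]
  exact ha.mul (hf n)

theorem Bs.sub {v : Place k K} {C : ℤ} {f g : PowerSeries K} (hf : Bs v C f) (hg : Bs v C g) :
    Bs v C (f - g) := by
  rw [sub_eq_add_neg]
  exact hf.add hg.neg

theorem og_nat [CharZero k] (v : Place k K) (n : ℕ) : Og v 0 (n : K) := by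
  by_cases h : (n : k) = 0
  · left
    have := congrArg (algebraMap k K) h
    rwa [map_natCast, map_zero] at this
  · right
    have := v.ord_const h
    rw [map_natCast] at this
    rw [this]

theorem Bs.eul [CharZero k] {v : Place k K} {C : ℤ} {f : PowerSeries K} (hf : Bs v C f) :
    Bs v C (eul f) := fun n => by
  rw [coeff_eul]
  have := (og_nat v n).mul (hf n)
  rwa [zero_add] at this

theorem ci0 (v : Place k K) {C₀ : ℤ} {A : PowerSeries K} (hA : A ≠ 0) (B : PowerSeries K)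
    (h : ∀ n : ℕ, Bs v C₀ (B ^ n * A)) : Og v 0 (coeff 0 B) := by
  by_cases hB : coeff 0 B = 0
  · exact Or.inl hB
  right
  by_contra hneg
  push Not at hneg
  obtain ⟨q, hq⟩ : ∃ q, q = A.order.toNat := ⟨_, rfl⟩
  obtain ⟨Γ, hΓ⟩ := X_pow_order_dvd (φ := A)
  rw [← hq] at hΓ
  have ha : coeff q A ≠ 0 := by
    rw [hq]
    exact coeff_order hA
  have hco : ∀ n : ℕ, coeff q (B ^ n * A) = (coeff 0 B) ^ n * coeff q A := by
    intro n
    have h1 : coeff q A = coeff 0 Γ := by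
      rw [hΓ]
      have := coeff_X_pow_mul Γ q 0
      rwa [zero_add] at this
    have h2 : B ^ n * A = X ^ q * (B ^ n * Γ) := by
      rw [hΓ]
      ring
    rw [h1, h2]
    have := coeff_X_pow_mul (B ^ n * Γ) q 0
    rw [zero_add] at this
    rw [this, c0mul, coeff_zero_eq_constantCoeff_apply, coeff_zero_eq_constantCoeff_apply,
      coeff_zero_eq_constantCoeff_apply, map_pow]
  have h1 : ∀ n : ℕ, C₀ ≤ n * v.ord (coeff 0 B) + v.ord (coeff q A) := by
    intro n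
    have h2 := (h n q).resolve_left (by
      rw [hco]
      exact mul_ne_zero (pow_ne_zero _ hB) ha)
    rwa [hco, v.ord_mul (pow_ne_zero _ hB) ha, v.ord_pow] at h2
  obtain ⟨n, hn⟩ : ∃ n : ℕ, (n : ℤ) > v.ord (coeff q A) - C₀ := by
    refine ⟨(v.ord (coeff q A) - C₀).toNat + 1, ?_⟩
    have := Int.self_le_toNat (v.ord (coeff q A) - C₀)
    push_cast
    omega
  have h2 := h1 n
  have h3 : (n : ℤ) * v.ord (coeff 0 B) ≤ n * (-1) :=
    mul_le_mul_of_nonneg_left (by omega) (Int.natCast_nonneg n)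
  omega

/-- **Complete integral closedness.** -/
theorem ci (v : Place k K) {C₀ : ℤ} {A : PowerSeries K} (hA : A ≠ 0) :
    ∀ (N : ℕ) (B : PowerSeries K), (∀ n : ℕ, Bs v C₀ (B ^ n * A)) → Og v 0 (coeff N B) := by
  intro N
  induction N with
  | zero => exact fun B h => ci0 v hA B h
  | succ N ih =>
    intro B h
    have h0 : Og v 0 (coeff 0 B) := ci0 v hA B h
    obtain ⟨b, hb⟩ : ∃ b, b = coeff 0 B := ⟨_, rfl⟩
    have h1 : coeff 0 (B - C b) = 0 := by
      rw [map_sub, coeff_zero_C, hb, sub_self]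
    rw [coeff_zero_eq_constantCoeff_apply] at h1
    obtain ⟨B', hB'⟩ := X_dvd_iff.2 h1
    have h2 : ∀ n m : ℕ, Bs v C₀ ((B - C b) ^ n * (B ^ m * A)) := by
      intro n
      induction n with
      | zero =>
        intro m
        rw [pow_zero, one_mul]
        exact h m
      | succ n ihn =>
        intro m
        have e1 : (B - C b) ^ (n + 1) * (B ^ m * A) = (B - C b) ^ n * (B ^ (m + 1) * A) -
            C b * ((B - C b) ^ n * (B ^ m * A)) := by ring
        rw [e1]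
        refine (ihn (m + 1)).sub ?_
        have := Bs.C_mul (hb ▸ h0) (ihn m)
        rwa [zero_add] at this
    have h3 : coeff (N + 1) B = coeff N B' := by
      have h4 : B = C b + X * B' := by
        rw [← hB']
        ring
      rw [h4, map_add, coeff_C, if_neg (Nat.succ_ne_zero N), zero_add, coeff_succ_X_mul]
    rw [h3]
    refine ih B' fun n l => ?_
    have h4 := h2 n 0 (l + n)
    have h5 : (B - C b) ^ n * (B ^ 0 * A) = X ^ n * (B' ^ n * A) := by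
      rw [hB', pow_zero]
      ring
    rwa [h5, coeff_X_pow_mul] at h4

/-- **Local modification.** -/
theorem loc [CharZero k] {V₀ : Finset (Place k K)} {π : K} (hπF : π ∈ F') (hπ0 : π ≠ 0)
    (hπv : ∀ v ∈ V₀, 0 < v.ord π)
    (hdec : ∀ f ∈ F', f ≠ 0 → ∃ (n : ℤ) (u : K), u ∈ F' ∧ u ≠ 0 ∧ f = π ^ n * u ∧
      ∀ v ∈ V₀, v.ord u = 0) (hne : V₀.Nonempty)
    {Λ γ g : PowerSeries K} (hΛ0 : coeff 0 Λ = 1) (hγF : CF F' γ) (hΛ : eul Λ = (γ + g) * Λ)
    (hbd : ∀ v ∈ V₀, ∃ C, Bs v C Λ) (hbg : ∀ v ∈ V₀, ∃ C, Bs v C g) :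
    ∃ q ∈ F', ∀ v ∈ V₀, v.Reg (coeff 1 (γ + g) - q) := by
  classical
  have hΛne : Λ ≠ 0 := by
    rintro rfl
    rw [map_zero] at hΛ0
    exact zero_ne_one hΛ0
  have hunif : ∀ h : PowerSeries K, (∀ v ∈ V₀, ∃ C, Bs v C h) →
      ∃ n : ℕ, ∀ v ∈ V₀, Bs v (-(n * v.ord π)) h := by
    intro h hh
    choose! c hc using hh
    refine ⟨∑ v ∈ V₀, (c v).natAbs, fun v hv => (hc v hv).mono ?_⟩
    have h1 : (c v).natAbs ≤ ∑ v ∈ V₀, (c v).natAbs :=
      Finset.single_le_sum (f := fun v => (c v).natAbs) (fun _ _ => Nat.zero_le _) hv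
    have h2 : ((c v).natAbs : ℤ) ≤ ((∑ v ∈ V₀, (c v).natAbs : ℕ) : ℤ) * v.ord π := by
      have h3 := hπv v hv
      have h4 : (((c v).natAbs : ℕ) : ℤ) ≤ ((∑ v ∈ V₀, (c v).natAbs : ℕ) : ℤ) := by
        exact_mod_cast h1
      nlinarith [Int.natCast_nonneg (∑ v ∈ V₀, (c v).natAbs)]
    have h3 := abs_le.1 (le_of_eq (Int.abs_eq_natAbs (c v)))
    omega
  obtain ⟨n0, hn0⟩ := hunif Λ hbd
  obtain ⟨G, hG⟩ := hunif g hbg
  obtain ⟨𝓛, h𝓛⟩ : ∃ 𝓛 : ℤ → PowerSeries K → Prop, ∀ n c, 𝓛 n c ↔ CF F' c ∧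
      ∀ v ∈ V₀, Bs v (-(n * v.ord π)) (c * Λ) := ⟨fun n c => _, fun _ _ => Iff.rfl⟩
  have h0mul : ∀ c : PowerSeries K, coeff 0 (c * Λ) = coeff 0 c := fun c => by
    rw [c0mul, hΛ0, mul_one]
  have hlow : ∀ (n : ℤ) (c : PowerSeries K), 𝓛 n c → ∀ (a : ℤ) (u : K), u ≠ 0 →
      coeff 0 c = π ^ a * u → (∀ v ∈ V₀, v.ord u = 0) → 0 ≤ a + n := by
    intro n c hc a u hu0 hcu hu
    obtain ⟨v, hv⟩ := hne
    have h1 := ((h𝓛 n c).1 hc).2 v hv 0
    rw [h0mul, hcu] at h1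
    have h2 := h1.resolve_left (mul_ne_zero (zpow_ne_zero _ hπ0) hu0)
    rw [v.ord_mul (zpow_ne_zero _ hπ0) hu0, v.ord_zpow, hu v hv] at h2
    have h3 := hπv v hv
    by_contra hcon
    push Not at hcon
    nlinarith
  -- scaling
  have hscale : ∀ (n : ℤ) (c : PowerSeries K), 𝓛 n c → ∀ l : ℤ, 𝓛 (n + l) (C (π ^ (-l)) * c) := by
    intro n c hc l
    rw [h𝓛] at hc ⊢
    refine ⟨(cf_C (zpow_mem hπF _)).mul hc.1, fun v hv => ?_⟩
    rw [mul_assoc]
    have h1 : Og v (-l * v.ord π) (π ^ (-l)) := Or.inr (by rw [v.ord_zpow])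
    refine (Bs.C_mul h1 (hc.2 v hv)).mono (le_of_eq ?_)
    ring
  -- the optimal element
  obtain ⟨n1, c1, a1, u1, hc1, hc1u, hu1F, hu10, hu1, hmin⟩ : ∃ (n1 : ℤ) (c1 : PowerSeries K)
      (a1 : ℤ) (u1 : K), 𝓛 n1 c1 ∧ coeff 0 c1 = π ^ a1 * u1 ∧ u1 ∈ F' ∧ u1 ≠ 0 ∧
      (∀ v ∈ V₀, v.ord u1 = 0) ∧ ∀ (n : ℤ) (c : PowerSeries K) (a : ℤ) (u : K), 𝓛 n c →
        coeff 0 c = π ^ a * u → u ≠ 0 → (∀ v ∈ V₀, v.ord u = 0) → a1 + n1 ≤ a + n := by
    obtain ⟨S, hS⟩ : ∃ S : Set ℕ, ∀ z, z ∈ S ↔ ∃ (n : ℤ) (c : PowerSeries K) (a : ℤ) (u : K),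
        𝓛 n c ∧ coeff 0 c = π ^ a * u ∧ u ∈ F' ∧ u ≠ 0 ∧ (∀ v ∈ V₀, v.ord u = 0) ∧
        a + n = z := ⟨{z | _}, fun _ => Iff.rfl⟩
    have hSne : S.Nonempty := by
      refine ⟨n0, (hS _).2 ⟨n0, 1, 0, 1, (h𝓛 _ _).2 ⟨cf_one, fun v hv => ?_⟩, ?_, F'.one_mem,
        one_ne_zero, fun v _ => v.ord_one, by ring⟩⟩
      · rw [one_mul]
        exact hn0 v hv
      · rw [coeff_zero_one, zpow_zero, one_mul]
    have h1 := Nat.sInf_mem hSne
    have h2 : ∀ z ∈ S, sInf S ≤ z := fun z hz => Nat.sInf_le hz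
    obtain ⟨n, c, a, u, hc, hcu, huF, hu0, hu, haz⟩ := (hS _).1 h1
    refine ⟨n, c, a, u, hc, hcu, huF, hu0, hu, fun n' c' a' u' hc' hcu' hu0' hu' => ?_⟩
    have h3 := hlow n' c' hc' a' u' hu0' hcu' hu'
    have huF' : u' ∈ F' := by
      have h4 : u' = (π ^ a')⁻¹ * coeff 0 c' := by
        rw [hcu', inv_mul_cancel_left₀ (zpow_ne_zero _ hπ0)]
      rw [h4]
      exact F'.mul_mem (F'.inv_mem (zpow_mem hπF _)) (((h𝓛 _ _).1 hc').1 0)
    have h4 := h2 (a' + n').toNat ((hS _).2 ⟨n', c', a', u', hc', hcu', huF', hu0', hu', by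
      rw [Int.toNat_of_nonneg h3]⟩)
    rw [haz]
    omega
  have hc10 : constantCoeff c1 ≠ 0 := by
    rw [← coeff_zero_eq_constantCoeff_apply, hc1u]
    exact mul_ne_zero (zpow_ne_zero _ hπ0) hu10
  have hc1F : CF F' c1 := ((h𝓛 _ _).1 hc1).1
  -- the connection
  obtain ⟨c2, hc2⟩ : ∃ c2, c2 = eul c1 + c1 * γ := ⟨_, rfl⟩
  have hc2L : 𝓛 (n1 + G) c2 := by
    rw [h𝓛]
    refine ⟨?_, fun v hv => ?_⟩
    · rw [hc2]
      exact hc1F.eul.add (hc1F.mul hγF)
    · have h1 : c2 * Λ = eul (c1 * Λ) - g * (c1 * Λ) := by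
        rw [eul_mul, hΛ, hc2]
        ring
      rw [h1]
      have h2 := ((h𝓛 _ _).1 hc1).2 v hv
      have h3 := (hG v hv).mul h2
      have h4 : (0 : ℤ) ≤ G * v.ord π := mul_nonneg (Int.natCast_nonneg _) (hπv v hv).le
      refine Bs.sub ((h2.eul).mono ?_) (h3.mono (le_of_eq (by ring)))
      linarith
  -- divisibility by the optimal element
  obtain ⟨cs, hcs⟩ : ∃ cs, cs = C (π ^ (-(G : ℤ))) * c1 := ⟨_, rfl⟩
  have hcsL : 𝓛 (n1 + G) cs := by
    rw [hcs]
    exact hscale n1 c1 hc1 G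
  have hcs0 : coeff 0 cs = π ^ (a1 - G) * u1 := by
    rw [hcs, coeff_C_mul, hc1u, sub_eq_add_neg, zpow_add₀ hπ0]
    ring
  have hcsne : coeff 0 cs ≠ 0 := by
    rw [hcs0]
    exact mul_ne_zero (zpow_ne_zero _ hπ0) hu10
  have hcsc : constantCoeff cs ≠ 0 := by
    rwa [← coeff_zero_eq_constantCoeff_apply]
  have hdiv : ∀ (N : ℕ) (c : PowerSeries K), 𝓛 (n1 + G) c →
      coeff N (c * cs⁻¹) ∈ F' ∧ ∀ v ∈ V₀, Og v 0 (coeff N (c * cs⁻¹)) := by
    intro N
    induction N with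
    | zero =>
      intro c hc
      have h1 : coeff 0 (c * cs⁻¹) = coeff 0 c / coeff 0 cs := by
        have h2 := congrArg (coeff 0) (PowerSeries.inv_mul_cancel cs hcsc)
        rw [c0mul, coeff_zero_one] at h2
        rw [c0mul, eq_div_iff hcsne, mul_assoc, h2, mul_one]
      have hcF := ((h𝓛 _ _).1 hc).1 0
      rw [h1]
      refine ⟨F'.div_mem hcF (((h𝓛 _ _).1 hcsL).1 0), fun v hv => ?_⟩
      by_cases hc0 : coeff 0 c = 0
      · left
        rw [hc0, zero_div]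
      · right
        obtain ⟨a, u, huF, hu0, hcu, hu⟩ := hdec _ hcF hc0
        have h2 := hmin _ c a u hc hcu hu0 hu
        have h3 := hπv v hv
        rw [v.ord_div hc0 hcsne, hcu, hcs0, v.ord_mul (zpow_ne_zero _ hπ0) hu0,
          v.ord_mul (zpow_ne_zero _ hπ0) hu10, v.ord_zpow, v.ord_zpow, hu v hv, hu1 v hv]
        have h4 : a1 - G ≤ a := by omega
        nlinarith
    | succ N ih =>
      intro c hc
      obtain ⟨t, ht⟩ : ∃ t, t = coeff 0 c / coeff 0 cs := ⟨_, rfl⟩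
      have hcF := ((h𝓛 _ _).1 hc).1 0
      have htF : t ∈ F' := by
        rw [ht]
        exact F'.div_mem hcF (((h𝓛 _ _).1 hcsL).1 0)
      have htv : ∀ v ∈ V₀, Og v 0 t := by
        intro v hv
        by_cases hc0 : coeff 0 c = 0
        · left
          rw [ht, hc0, zero_div]
        · right
          obtain ⟨a, u, huF, hu0, hcu, hu⟩ := hdec _ hcF hc0
          have h2 := hmin _ c a u hc hcu hu0 hu
          have h3 := hπv v hv
          rw [ht, v.ord_div hc0 hcsne, hcu, hcs0, v.ord_mul (zpow_ne_zero _ hπ0) hu0,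
            v.ord_mul (zpow_ne_zero _ hπ0) hu10, v.ord_zpow, v.ord_zpow, hu v hv, hu1 v hv]
          have h4 : a1 - G ≤ a := by omega
          nlinarith
      have h1 : coeff 0 (c - C t * cs) = 0 := by
        rw [map_sub, coeff_C_mul, ht, div_mul_cancel₀ _ hcsne, sub_self]
      rw [coeff_zero_eq_constantCoeff_apply] at h1
      obtain ⟨c', hc'⟩ := X_dvd_iff.2 h1
      have hc'L : 𝓛 (n1 + G) c' := by
        rw [h𝓛]
        have hc'n : ∀ n, coeff n c' = coeff (n + 1) (c - C t * cs) := fun n => by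
          rw [hc', coeff_succ_X_mul]
        refine ⟨fun n => ?_, fun v hv n => ?_⟩
        · rw [hc'n, map_sub, coeff_C_mul]
          exact F'.sub_mem (((h𝓛 _ _).1 hc).1 _) (F'.mul_mem htF (((h𝓛 _ _).1 hcsL).1 _))
        · have h2 : coeff n (c' * Λ) = coeff (n + 1) (c * Λ - C t * (cs * Λ)) := by
            have h3 : c * Λ - C t * (cs * Λ) = X * (c' * Λ) := by
              linear_combination Λ * hc'
            rw [h3, coeff_succ_X_mul]
          rw [h2]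
          refine Bs.sub (((h𝓛 _ _).1 hc).2 v hv) ?_ (n + 1)
          have h3 := Bs.C_mul (htv v hv) (((h𝓛 _ _).1 hcsL).2 v hv)
          rwa [zero_add] at h3
      have h2 : coeff (N + 1) (c * cs⁻¹) = coeff N (c' * cs⁻¹) := by
        have h3 : c * cs⁻¹ = C t + X * (c' * cs⁻¹) := by
          have h4 : c = C t * cs + X * c' := by
            rw [← hc']
            ring
          conv_lhs => rw [h4]
          have h5 := PowerSeries.mul_inv_cancel cs hcsc
          linear_combination (C t) * h5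
        rw [h3, map_add, coeff_C, if_neg (Nat.succ_ne_zero N), zero_add, coeff_succ_X_mul]
      rw [h2]
      exact ih c' hc'L
  obtain ⟨b, hb⟩ : ∃ b, b = C (π ^ (-(G : ℤ))) * (c2 * cs⁻¹) := ⟨_, rfl⟩
  have hbF : CF F' b := by
    rw [hb]
    exact (cf_C (zpow_mem hπF _)).mul fun n => (hdiv n c2 hc2L).1
  have hbv : ∀ v ∈ V₀, Bs v (-(G * v.ord π)) b := by
    intro v hv
    rw [hb]
    have h1 : Og v (-(G * v.ord π)) (π ^ (-(G : ℤ))) := Or.inr (by
      rw [v.ord_zpow]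
      exact le_of_eq (by ring))
    have h2 : Bs v 0 (c2 * cs⁻¹) := fun n => (hdiv n c2 hc2L).2 v hv
    have h3 := Bs.C_mul h1 h2
    rwa [add_zero] at h3
  have hbc : c2 = b * c1 := by
    have h1 := PowerSeries.inv_mul_cancel cs hcsc
    have h2 : b * c1 = c2 * (cs⁻¹ * cs) := by
      rw [hb, hcs]
      ring
    rw [h2, h1, mul_one]
  have hf : eul (c1 * Λ) = (b + g) * (c1 * Λ) := by
    have h1 : eul (c1 * Λ) = (c2 + g * c1) * Λ := by
      rw [eul_mul, hΛ, hc2]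
      ring
    rw [h1, hbc]
    ring
  have hfne : c1 * Λ ≠ 0 := by
    refine mul_ne_zero ?_ hΛne
    rintro rfl
    exact hc10 (map_zero _)
  refine ⟨coeff 1 γ - coeff 1 b, F'.sub_mem (hγF 1) (hbF 1), fun v hv => ?_⟩
  have h1 := gauss v (((h𝓛 _ _).1 hc1).2 v hv) ((hbv v hv).add (hG v hv)) hfne hf 1
  have h2 : coeff 1 (γ + g) - (coeff 1 γ - coeff 1 b) = coeff 1 (b + g) := by
    rw [map_add, map_add]
    ring
  rw [h2]
  exact h1

end

end Pool.Agent.H892
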