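import Pool.Agent.H892.C3

/-!
Purely transcendental extensions of degree one: partial fractions.
-/

set_option autoImplicit false
set_option linter.unusedSectionVars false

open FF Polynomial

namespace Pool.Agent.H892

section

variable {k K : Type} [Field k] [Field K] [Algebra k K]

/-- the place is trivial on `F` -/
def Triv (F : IntermediateField k K) (v : Place k K) : Prop := ∀ f ∈ F, f ≠ 0 → v.ord f = 0

/-- a closed point of the base: `π` is a uniformizer -/
structure BaseLoc (F F' : IntermediateField k K) (π : K) : Prop where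
  mem : π ∈ F'
  ne : π ≠ 0
  dec : ∀ f ∈ F', f ≠ 0 → ∃ (n : ℤ) (u : K), u ∈ F' ∧ u ≠ 0 ∧ f = π ^ n * u ∧
    ∀ v : Place k K, Triv F v → 0 < v.ord π → v.ord u = 0
  pf : ∀ C₀ : ℕ, ∃ H : Submodule F K, H.FG ∧ (∀ h ∈ H, h ∈ F') ∧
    (∀ f ∈ F', ∀ v₀ : Place k K, Triv F v₀ → 0 < v₀.ord π → Og v₀ (-C₀) f →
      ∃ h ∈ H, ∀ v : Place k K, Triv F v → 0 < v.ord π → v.Reg (f - h)) ∧
    ∀ v : Place k K, Triv F v → ¬ 0 < v.ord π → ∀ h ∈ H, v.Reg h

/-- every place which is trivial on `F` and not trivial on `F'` lies over a closed point -/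
def Base (F F' : IntermediateField k K) : Prop :=
  ∀ v₀ : Place k K, Triv F v₀ → (∃ f ∈ F', f ≠ 0 ∧ v₀.ord f ≠ 0) →
    ∃ π, BaseLoc F F' π ∧ 0 < v₀.ord π

/-- `F'` is the field of rational functions in `t` over `F` -/
structure RatBase (F F' : IntermediateField k K) (t : K) : Prop where
  le : F ≤ F'
  mem : t ∈ F'
  tr : ∀ p : F[X], p ≠ 0 → aeval t p ≠ 0
  gen : ∀ f ∈ F', ∃ a b : F[X], b ≠ 0 ∧ f = aeval t a / aeval t b

variable {F F' : IntermediateField k K} {t : K}

theorem Triv.og {v : Place k K} (hv : Triv F v) (a : F) : Og v 0 (a : K) := by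
  by_cases h : (a : K) = 0
  · exact Or.inl h
  · exact Or.inr (hv _ a.2 h).ge

/-- polynomials in a regular element are regular -/
theorem og_poly {v : Place k K} (hv : Triv F v) (ht : 0 ≤ v.ord t) (q : F[X]) :
    Og v 0 (aeval t q) := by
  rw [aeval_eq_sum_range]
  refine og_sum _ fun i _ => ?_
  rw [Algebra.smul_def]
  have h1 : Og v 0 (t ^ i) := by
    by_cases h0 : t ^ i = 0
    · exact Or.inl h0
    · right
      rw [v.ord_pow]
      exact mul_nonneg (Int.natCast_nonneg i) ht
  have h2 := (hv.og (q.coeff i)).mul h1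
  rwa [zero_add] at h2

/-- polynomials in an element with a pole -/
theorem og_poly_deg {v : Place k K} (hv : Triv F v) (ht : v.ord t ≤ 0) {q : F[X]} {n : ℕ}
    (hn : q.natDegree ≤ n) : Og v (n * v.ord t) (aeval t q) := by
  rw [aeval_eq_sum_range]
  refine og_sum _ fun i hi => ?_
  rw [Finset.mem_range] at hi
  rw [Algebra.smul_def]
  have h1 : Og v (n * v.ord t) (t ^ i) := by
    by_cases h0 : t ^ i = 0
    · exact Or.inl h0
    · right
      rw [v.ord_pow]
      have h2 : (i : ℤ) ≤ n := by exact_mod_cast (by omega : i ≤ n)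
      nlinarith
  have h2 := (hv.og (q.coeff i)).mul h1
  rwa [zero_add] at h2

theorem ord_poly_deg {v : Place k K} (hv : Triv F v) (ht : v.ord t < 0) {q : F[X]}
    (hq : q ≠ 0) : aeval t q ≠ 0 ∧ v.ord (aeval t q) = q.natDegree * v.ord t := by
  have ht0 : t ≠ 0 := by
    rintro rfl
    rw [v.ord_zero] at ht
    exact lt_irrefl _ ht
  have hl : ((q.leadingCoeff : F) : K) ≠ 0 := by
    intro h
    exact hq (leadingCoeff_eq_zero.1 (Subtype.ext h))
  have hlt : ((q.leadingCoeff : F) : K) * t ^ q.natDegree ≠ 0 := mul_ne_zero hl (pow_ne_zero _ ht0)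
  have hlo : v.ord (((q.leadingCoeff : F) : K) * t ^ q.natDegree) = q.natDegree * v.ord t := by
    rw [v.ord_mul hl (pow_ne_zero _ ht0), v.ord_pow, hv _ (q.leadingCoeff).2 hl, zero_add]
  have hdec : aeval t q = ((q.leadingCoeff : F) : K) * t ^ q.natDegree + aeval t q.eraseLead := by
    conv_lhs => rw [← q.eraseLead_add_C_mul_X_pow]
    rw [map_add, map_mul, aeval_C, map_pow, aeval_X, add_comm]
    rfl
  by_cases h0 : aeval t q.eraseLead = 0
  · rw [hdec, h0, add_zero]
    exact ⟨hlt, hlo⟩
  have hel : q.eraseLead ≠ 0 := by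
    intro h
    rw [h, map_zero] at h0
    exact h0 rfl
  have hd : q.eraseLead.natDegree + 1 ≤ q.natDegree := by
    rcases eraseLead_natDegree_lt_or_eraseLead_eq_zero q with h | h
    · exact h
    · exact absurd h hel
  have h1 := (og_poly_deg hv ht.le (le_refl q.eraseLead.natDegree)).resolve_left h0
  have h2 := v.ord_add_eq hlt h0 (by
    rw [hlo]
    have h3 : ((q.eraseLead.natDegree : ℕ) : ℤ) + 1 ≤ q.natDegree := by exact_mod_cast hd
    nlinarith)
  rw [hdec]
  rw [hlo] at h2
  exact h2

theorem fg_span_image {α : Type} (s : Finset α) (f : α → K) :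
    (Submodule.span F ((s : Set α).image f)).FG :=
  Submodule.fg_span (s.finite_toSet.image f)

/-- **The point at infinity.** -/
theorem base_inf (hR : RatBase F F' t) {v₀ : Place k K} (ht₀ : v₀.ord t < 0) :
    BaseLoc F F' t⁻¹ := by
  classical
  have ht0 : t ≠ 0 := by
    rintro rfl
    rw [v₀.ord_zero] at ht₀
    exact lt_irrefl _ ht₀
  have hcls : ∀ v : Place k K, 0 < v.ord t⁻¹ ↔ v.ord t < 0 := by
    intro v
    rw [v.ord_inv]
    omega
  refine ⟨F'.inv_mem hR.mem, inv_ne_zero ht0, fun f hf hf0 => ?_, fun C₀ => ?_⟩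
  · obtain ⟨a, b, hb, hab⟩ := hR.gen f hf
    have ha : a ≠ 0 := by
      rintro rfl
      rw [map_zero, zero_div] at hab
      exact hf0 hab
    refine ⟨(b.natDegree : ℤ) - a.natDegree, t ^ ((b.natDegree : ℤ) - a.natDegree) * f,
      F'.mul_mem (zpow_mem hR.mem _) hf, mul_ne_zero (zpow_ne_zero _ ht0) hf0, ?_,
      fun v hv hvt => ?_⟩
    · rw [← mul_assoc, inv_zpow, inv_mul_cancel₀ (zpow_ne_zero _ ht0), one_mul]
    · have hvt' := (hcls v).1 hvt
      obtain ⟨ha1, ha2⟩ := ord_poly_deg hv hvt' ha
      obtain ⟨hb1, hb2⟩ := ord_poly_deg hv hvt' hb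
      rw [v.ord_mul (zpow_ne_zero _ ht0) hf0, v.ord_zpow, hab, v.ord_div ha1 hb1, ha2, hb2]
      ring
  · refine ⟨Submodule.span F (((Finset.range (C₀ + 1) : Finset ℕ) : Set ℕ).image fun i => t ^ i),
      fg_span_image _ _, fun h hh => ?_, fun f hf v hv hvt hfo => ?_, fun v hv hvt h hh => ?_⟩
    · induction hh using Submodule.span_induction with
      | mem x hx =>
        obtain ⟨i, -, rfl⟩ := hx
        exact pow_mem hR.mem i
      | zero => exact F'.zero_mem
      | add x y _ _ h h' => exact F'.add_mem h h'
      | smul a x _ h =>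
        rw [Algebra.smul_def]
        exact F'.mul_mem (hR.le a.2) h
    · obtain ⟨a, b, hb, hab⟩ := hR.gen f hf
      have hvt' := (hcls v).1 hvt
      obtain ⟨q, r, hqr, hr⟩ : ∃ q r : F[X], a = q * b + r ∧ (r = 0 ∨ r.natDegree < b.natDegree) := by
        refine ⟨a / b, a % b, ?_, ?_⟩
        · rw [mul_comm]
          exact (EuclideanDomain.div_add_mod a b).symm
        · by_cases h0 : a % b = 0
          · exact Or.inl h0
          · right
            have h1 := EuclideanDomain.mod_lt a hb
            have h2 : (a % b).degree < b.degree := h1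
            exact natDegree_lt_natDegree h0 h2
      have hfq : f - aeval t q = aeval t r / aeval t b := by
        rw [hab, hqr, map_add, map_mul, add_div, mul_div_cancel_right₀ _ (hR.tr b hb)]
        ring
      refine ⟨aeval t q, ?_, fun v' hv' hvt' => ?_⟩
      · -- the degree of `q`
        have hqd : q = 0 ∨ q.natDegree ≤ C₀ := by
          by_cases hq0 : q = 0
          · exact Or.inl hq0
          right
          obtain ⟨hq1, hq2⟩ := ord_poly_deg hv hvt' hq0
          by_contra hcon
          push Not at hcon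
          have h3 : Og v 1 (f - aeval t q) := by
            rw [hfq]
            rcases hr with hr | hr
            · left
              rw [hr, map_zero, zero_div]
            · by_cases hr0 : r = 0
              · left
                rw [hr0, map_zero, zero_div]
              · right
                obtain ⟨hr1, hr2⟩ := ord_poly_deg hv hvt' hr0
                obtain ⟨hb1, hb2⟩ := ord_poly_deg hv hvt' hb
                rw [v.ord_div hr1 hb1, hr2, hb2]
                have h4 : (r.natDegree : ℤ) + 1 ≤ b.natDegree := by exact_mod_cast hr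
                nlinarith
          have h4 : Og v (-C₀) (aeval t q) := by
            have h5 : aeval t q = f + -(f - aeval t q) := by ring
            rw [h5]
            exact hfo.add (h3.neg.mono (by omega))
          have h5 := h4.resolve_left hq1
          rw [hq2] at h5
          have h6 : ((C₀ : ℕ) : ℤ) + 1 ≤ q.natDegree := by exact_mod_cast hcon
          nlinarith
        rcases hqd with hq0 | hqd
        · rw [hq0, map_zero]
          exact Submodule.zero_mem _
        · rw [aeval_eq_sum_range]
          refine Submodule.sum_mem _ fun i hi => Submodule.smul_mem _ _ (Submodule.subset_span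
            ⟨i, ?_, rfl⟩)
          rw [Finset.coe_range, Set.mem_Iio]
          rw [Finset.mem_range] at hi
          omega
      · have hvt'' := (hcls v').1 hvt'
        rw [hfq]
        rcases hr with hr | hr
        · rw [hr, map_zero, zero_div]
          exact v'.reg_zero
        · by_cases hr0 : r = 0
          · rw [hr0, map_zero, zero_div]
            exact v'.reg_zero
          · obtain ⟨hr1, hr2⟩ := ord_poly_deg hv' hvt'' hr0
            obtain ⟨hb1, hb2⟩ := ord_poly_deg hv' hvt'' hb
            right
            rw [v'.ord_div hr1 hb1, hr2, hb2]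
            have h4 : (r.natDegree : ℤ) + 1 ≤ b.natDegree := by exact_mod_cast hr
            nlinarith
    · have hvt' : 0 ≤ v.ord t := by
        by_contra h0
        push Not at h0
        exact hvt ((hcls v).2 h0)
      change Og v 0 h
      induction hh using Submodule.span_induction with
      | mem x hx =>
        obtain ⟨i, -, rfl⟩ := hx
        right
        change 0 ≤ v.ord (t ^ i)
        rw [v.ord_pow]
        exact mul_nonneg (Int.natCast_nonneg i) hvt'
      | zero => exact og_zero
      | add x y _ _ h h' => exact h.add h'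
      | smul a x _ h =>
        rw [Algebra.smul_def]
        have h2 := (hv.og a).mul h
        rwa [zero_add] at h2

/-- the order of polynomials at a place over an irreducible polynomial -/
theorem ord_poly_irr {v : Place k K} (hv : Triv F v) (ht : 0 ≤ v.ord t) {p : F[X]}
    (hpp : 0 < v.ord (aeval t p)) {q : F[X]} (hq : IsCoprime p q) :
    v.ord (aeval t q) = 0 := by
  obtain ⟨α, β, h⟩ := hq
  have h1 := congrArg (aeval t) h
  rw [map_add, map_mul, map_mul, map_one] at h1
  by_contra hne
  have hq0 : aeval t q ≠ 0 := by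
    intro h0
    rw [h0, v.ord_zero] at hne
    exact hne rfl
  have h2 : 0 < v.ord (aeval t q) := by
    have := (og_poly hv ht q).resolve_left hq0
    omega
  have h3 : Og v 1 (1 : K) := by
    rw [← h1]
    refine Og.add ?_ ?_
    · have := (og_poly hv ht α).mul (Or.inr (by omega) : Og v 1 (aeval t p))
      rwa [zero_add] at this
    · have := (og_poly hv ht β).mul (Or.inr (by omega) : Og v 1 (aeval t q))
      rwa [zero_add] at this
  have h4 := h3.resolve_left one_ne_zero
  rw [v.ord_one] at h4
  omega

/-- **The finite points.** -/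
theorem base_fin (hR : RatBase F F' t) {p : F[X]} (hp : Irreducible p) {v₀ : Place k K}
    (hv₀ : Triv F v₀) (ht₀ : 0 ≤ v₀.ord t) (hp₀ : 0 < v₀.ord (aeval t p)) :
    BaseLoc F F' (aeval t p) := by
  classical
  have hpF : ∀ q : F[X], aeval t q ∈ F' := by
    intro q
    rw [aeval_eq_sum_range]
    refine F'.sum_mem fun i _ => ?_
    rw [Algebra.smul_def]
    exact F'.mul_mem (hR.le (q.coeff i).2) (pow_mem hR.mem i)
  have hp0 : aeval t p ≠ 0 := hR.tr p hp.ne_zero
  have hpd : 0 < p.natDegree := by
    by_contra h
    have h1 : p.natDegree = 0 := by omega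
    exact hp.not_isUnit (by
      rw [eq_C_of_natDegree_eq_zero h1]
      refine (isUnit_iff_ne_zero.2 fun h2 => hp.ne_zero ?_).map C
      rw [eq_C_of_natDegree_eq_zero h1, h2, C_0])
  -- places over the point
  have hcls : ∀ v : Place k K, Triv F v → 0 < v.ord (aeval t p) → 0 ≤ v.ord t := by
    intro v hv hvp
    by_contra h
    push Not at h
    have := (ord_poly_deg hv h hp.ne_zero).2
    rw [this] at hvp
    have h3 : (0 : ℤ) < p.natDegree := by exact_mod_cast hpd
    nlinarith
  have hco : ∀ q : F[X], ¬ p ∣ q → IsCoprime p q := fun q hq =>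
    (EuclideanDomain.dvd_or_coprime p q hp).resolve_left hq
  have hmul : ∀ q : F[X], q ≠ 0 → ∃ (n : ℕ) (q' : F[X]), q = p ^ n * q' ∧ IsCoprime p q' ∧
      q' ≠ 0 := by
    intro q hq
    have hfin : FiniteMultiplicity p q := FiniteMultiplicity.of_not_isUnit hp.not_isUnit hq
    obtain ⟨q', hq', hnd⟩ := hfin.exists_eq_pow_mul_and_not_dvd
    refine ⟨_, q', hq', hco q' hnd, ?_⟩
    rintro rfl
    rw [mul_zero] at hq'
    exact hq hq'
  refine ⟨hpF p, hp0, fun f hf hf0 => ?_, fun C₀ => ?_⟩
  · obtain ⟨a, b, hb, hab⟩ := hR.gen f hf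
    have ha : a ≠ 0 := by
      rintro rfl
      rw [map_zero, zero_div] at hab
      exact hf0 hab
    obtain ⟨na, a', ha', hca, ha'0⟩ := hmul a ha
    obtain ⟨nb, b', hb', hcb, hb'0⟩ := hmul b hb
    refine ⟨(na : ℤ) - nb, aeval t a' / aeval t b', F'.div_mem (hpF _) (hpF _),
      div_ne_zero (hR.tr _ ha'0) (hR.tr _ hb'0), ?_, fun v hv hvp => ?_⟩
    · rw [hab, ha', hb', map_mul, map_mul, map_pow, map_pow, zpow_sub₀ hp0, zpow_natCast,
        zpow_natCast]
      have h1 := hR.tr _ hb'0
      field_simp
    · rw [v.ord_div (hR.tr _ ha'0) (hR.tr _ hb'0), ord_poly_irr hv (hcls v hv hvp) hvp hca,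
        ord_poly_irr hv (hcls v hv hvp) hvp hcb, sub_zero]
  · refine ⟨Submodule.span F (((Finset.range (C₀ * p.natDegree) : Finset ℕ) : Set ℕ).image
      fun i => t ^ i / aeval t p ^ C₀), fg_span_image _ _, fun h hh => ?_,
      fun f hf v hv hvp hfo => ?_, fun v hv hvp h hh => ?_⟩
    · induction hh using Submodule.span_induction with
      | mem x hx =>
        obtain ⟨i, -, rfl⟩ := hx
        exact F'.div_mem (pow_mem hR.mem i) (pow_mem (hpF p) _)
      | zero => exact F'.zero_mem
      | add x y _ _ h h' => exact F'.add_mem h h'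
      | smul a x _ h =>
        rw [Algebra.smul_def]
        exact F'.mul_mem (hR.le a.2) h
    · by_cases hf0 : f = 0
      · refine ⟨0, Submodule.zero_mem _, fun v' _ _ => ?_⟩
        rw [hf0, sub_zero]
        exact v'.reg_zero
      obtain ⟨a, b, hb, hab⟩ := hR.gen f hf
      have ha : a ≠ 0 := by
        rintro rfl
        rw [map_zero, zero_div] at hab
        exact hf0 hab
      obtain ⟨na, a', ha', hca, ha'0⟩ := hmul a ha
      obtain ⟨nb, b', hb', hcb, hb'0⟩ := hmul b hb
      -- the order of `f`
      have hle : (nb : ℤ) - na ≤ C₀ := by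
        have h1 := hfo.resolve_left hf0
        rw [hab, v.ord_div (hR.tr a ha) (hR.tr b hb), ha', hb', map_mul, map_mul, map_pow,
          map_pow, v.ord_mul (pow_ne_zero _ hp0) (hR.tr _ ha'0),
          v.ord_mul (pow_ne_zero _ hp0) (hR.tr _ hb'0), v.ord_pow, v.ord_pow,
          ord_poly_irr hv (hcls v hv hvp) hvp hca, ord_poly_irr hv (hcls v hv hvp) hvp hcb] at h1
        nlinarith
      obtain ⟨a'', ha''⟩ : ∃ a'' : F[X], aeval t p ^ C₀ * f = aeval t a'' / aeval t b' := by
        obtain ⟨s, hs⟩ : ∃ s : ℕ, C₀ + na = nb + s := ⟨C₀ + na - nb, by omega⟩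
        refine ⟨p ^ s * a', ?_⟩
        rw [hab, ha', hb', map_mul, map_mul, map_mul, map_pow, map_pow, map_pow]
        have h1 := hR.tr _ hb'0
        have h2 : aeval t p ^ C₀ * aeval t p ^ na = aeval t p ^ nb * aeval t p ^ s := by
          rw [← pow_add, hs, pow_add]
        field_simp
        linear_combination (aeval t a') * h2
      obtain ⟨α, β, hαβ⟩ := hcb.pow_left (m := C₀)
      obtain ⟨q, r, hqr, hr⟩ : ∃ q r : F[X], a'' * β = q * p ^ C₀ + r ∧
          (r = 0 ∨ r.natDegree < (p ^ C₀).natDegree) := by
        refine ⟨(a'' * β) / p ^ C₀, (a'' * β) % p ^ C₀, ?_, ?_⟩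
        · rw [mul_comm ((a'' * β) / p ^ C₀)]
          exact (EuclideanDomain.div_add_mod _ _).symm
        · by_cases h0 : (a'' * β) % p ^ C₀ = 0
          · exact Or.inl h0
          · right
            have h1 := EuclideanDomain.mod_lt (a'' * β) (pow_ne_zero C₀ hp.ne_zero)
            have h2 : ((a'' * β) % p ^ C₀).degree < (p ^ C₀).degree := h1
            exact natDegree_lt_natDegree h0 h2
      have hfr : f - aeval t r / aeval t p ^ C₀ =
          aeval t (a'' * α) / aeval t b' + aeval t q := by
        have h1 := hR.tr _ hb'0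
        have h2 : aeval t p ^ C₀ ≠ 0 := pow_ne_zero _ hp0
        have h3 : f = aeval t a'' / aeval t b' / aeval t p ^ C₀ := by
          rw [← ha'', mul_div_cancel_left₀ _ h2]
        have h4 := congrArg (aeval t) hαβ
        rw [map_add, map_mul, map_mul, map_one, map_pow] at h4
        have h5 := congrArg (aeval t) hqr
        rw [map_add, map_mul, map_mul, map_pow] at h5
        rw [h3, map_mul]
        field_simp
        linear_combination (-(aeval t a'')) * h4 + (aeval t b') * h5
      refine ⟨aeval t r / aeval t p ^ C₀, ?_, fun v' hv' hvp' => ?_⟩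
      · rcases hr with hr | hr
        · rw [hr, map_zero, zero_div]
          exact Submodule.zero_mem _
        · rw [aeval_eq_sum_range (p := r), Finset.sum_div]
          refine Submodule.sum_mem _ fun i hi => ?_
          have h1 : (r.coeff i • t ^ i) / aeval t p ^ C₀ =
              r.coeff i • (t ^ i / aeval t p ^ C₀) := by
            rw [Algebra.smul_def, Algebra.smul_def, mul_div_assoc]
          rw [h1]
          refine Submodule.smul_mem _ _ (Submodule.subset_span ⟨i, ?_, rfl⟩)
          rw [Finset.coe_range, Set.mem_Iio]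
          rw [Finset.mem_range] at hi
          rw [natDegree_pow] at hr
          omega
      · rw [hfr]
        have ht' := hcls v' hv' hvp'
        refine Og.add ?_ (og_poly hv' ht' q)
        have h1 := og_poly hv' ht' (a'' * α)
        have h2 := ord_poly_irr hv' ht' hvp' hcb
        by_cases h3 : aeval t (a'' * α) = 0
        · left
          rw [h3, zero_div]
        · right
          rw [v'.ord_div h3 (hR.tr _ hb'0), h2, sub_zero]
          exact h1.resolve_left h3
    · change Og v 0 h
      induction hh using Submodule.span_induction with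
      | mem x hx =>
        obtain ⟨i, hi, rfl⟩ := hx
        rw [Finset.coe_range, Set.mem_Iio] at hi
        change Og v 0 (t ^ i / aeval t p ^ C₀)
        by_cases ht0 : t ^ i = 0
        · left
          rw [ht0, zero_div]
        right
        rw [v.ord_div ht0 (pow_ne_zero _ hp0), v.ord_pow, v.ord_pow]
        by_cases hvt : 0 ≤ v.ord t
        · have h1 : v.ord (aeval t p) = 0 := by
            have := (og_poly hv hvt p).resolve_left hp0
            omega
          rw [h1, mul_zero, sub_zero]
          exact mul_nonneg (Int.natCast_nonneg i) hvt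
        · push Not at hvt
          rw [(ord_poly_deg hv hvt hp.ne_zero).2]
          have h1 : (i : ℤ) ≤ C₀ * p.natDegree := by exact_mod_cast hi.le
          nlinarith
      | zero => exact og_zero
      | add x y _ _ h h' => exact h.add h'
      | smul a x _ h =>
        rw [Algebra.smul_def]
        have h2 := (hv.og a).mul h
        rwa [zero_add] at h2

/-- **Rational function fields.** -/
theorem RatBase.base (hR : RatBase F F' t) : Base F F' := by
  classical
  rintro v₀ hv₀ ⟨f, hf, hf0, hfv⟩
  by_cases ht : v₀.ord t < 0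
  · refine ⟨t⁻¹, base_inf hR ht, ?_⟩
    rw [v₀.ord_inv]
    omega
  · push Not at ht
    obtain ⟨a, b, hb, hab⟩ := hR.gen f hf
    have ha : a ≠ 0 := by
      rintro rfl
      rw [map_zero, zero_div] at hab
      exact hf0 hab
    obtain ⟨g, hg0, hgv⟩ : ∃ g : F[X], g ≠ 0 ∧ 0 < v₀.ord (aeval t g) := by
      by_contra hcon
      push Not at hcon
      have h1 := hcon a ha
      have h2 := hcon b hb
      have h3 := (og_poly hv₀ ht a).resolve_left (hR.tr a ha)
      have h4 := (og_poly hv₀ ht b).resolve_left (hR.tr b hb)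
      apply hfv
      rw [hab, v₀.ord_div (hR.tr a ha) (hR.tr b hb)]
      omega
    obtain ⟨p, hp, hpv⟩ : ∃ p : F[X], Irreducible p ∧ 0 < v₀.ord (aeval t p) := by
      induction g using WfDvdMonoid.induction_on_irreducible with
      | zero => exact absurd rfl hg0
      | unit u hu =>
        exfalso
        obtain ⟨u', hu'⟩ := hu.exists_right_inv
        have h1 : u' ≠ 0 := by
          rintro rfl
          rw [mul_zero] at hu'
          exact zero_ne_one hu'
        have h2 := congrArg (aeval t) hu'
        rw [map_mul, map_one] at h2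
        have h3 := v₀.ord_mul (hR.tr u hg0) (hR.tr u' h1)
        rw [h2, v₀.ord_one] at h3
        have h4 := (og_poly hv₀ ht u').resolve_left (hR.tr u' h1)
        omega
      | mul a i ha hi ih =>
        by_cases h1 : 0 < v₀.ord (aeval t i)
        · exact ⟨i, hi, h1⟩
        · refine ih ha ?_
          rw [map_mul, v₀.ord_mul (hR.tr i hi.ne_zero) (hR.tr a ha)] at hgv
          omega
    exact ⟨aeval t p, base_fin hR hp hv₀ ht hpv, hpv⟩

/-- the trivial base -/
theorem base_self : Base F F := fun v₀ hv₀ ⟨f, hf, hf0, hfv⟩ => absurd (hv₀ f hf hf0) hfv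

end

end Pool.Agent.H892
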