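import Pool.Agent.H892.B3
import Pool.Agent.H892.C4

/-!
The main theorem on nilpotent systems of derivations whose constants are a rational function field
over the scalars.
-/

set_option autoImplicit false
set_option linter.unusedSectionVars false

open FF PowerSeries Pool.Agent.W602.GT Pool.Agent.W603.LV Pool.Agent.Y172 Pool.Agent.TH122.AB

namespace Pool.Agent.H892

section

variable {k K ι : Type} [Field k] [Field K] [Algebra k K] [Fintype ι]
  {F F' : IntermediateField k K} {D : ι → Derivation k K K} {w : ι → ℕ}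

/-- constants with bounded poles -/
def Lsub (F' : IntermediateField k K) {F : IntermediateField k K} {V : Set (Place k K)}
    (hVt : ∀ v ∈ V, Triv F v) (hle : F ≤ F') (T : Finset (Place k K)) (c : Place k K → ℕ) :
    Submodule F K where
  carrier := {x | x ∈ F' ∧ ∀ v ∈ V, Og v (-(c v)) x ∧ (v ∉ T → Og v 0 x)}
  zero_mem' := ⟨F'.zero_mem, fun _ _ => ⟨og_zero, fun _ => og_zero⟩⟩
  add_mem' := fun h h' => ⟨F'.add_mem h.1 h'.1, fun v hv => ⟨(h.2 v hv).1.add (h'.2 v hv).1,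
    fun hT => ((h.2 v hv).2 hT).add ((h'.2 v hv).2 hT)⟩⟩
  smul_mem' := fun a x h => by
    rw [Algebra.smul_def]
    refine ⟨F'.mul_mem (hle a.2) h.1, fun v hv => ⟨?_, fun hT => ?_⟩⟩
    · have h1 := ((hVt v hv).og a).mul (h.2 v hv).1
      rwa [zero_add] at h1
    · have h1 := ((hVt v hv).og a).mul ((h.2 v hv).2 hT)
      rwa [zero_add] at h1

theorem mem_Lsub {V : Set (Place k K)} {hVt : ∀ v ∈ V, Triv F v} {hle : F ≤ F'}
    {T : Finset (Place k K)} {c : Place k K → ℕ} {x : K} :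
    x ∈ Lsub F' hVt hle T c ↔ x ∈ F' ∧ ∀ v ∈ V, Og v (-(c v)) x ∧ (v ∉ T → Og v 0 x) :=
  Iff.rfl

/-- constants with bounded poles form spaces of finite dimension -/
theorem Lsub_fg (hle : F ≤ F') (hB : Base F F') {V : Set (Place k K)}
    (hVt : ∀ v ∈ V, Triv F v) (h2 : ∀ f ∈ F', (∀ v ∈ V, v.Reg f) → f ∈ F) :
    ∀ (n : ℕ) (T : Finset (Place k K)) (c : Place k K → ℕ), T.card = n →
      (Lsub F' hVt hle T c).FG := by
  classical
  intro n
  induction n with
  | zero =>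
    intro T c hT
    rw [Finset.card_eq_zero] at hT
    subst hT
    have h1 : Lsub F' hVt hle ∅ c ≤ Submodule.span F {(1 : K)} := by
      intro x hx
      have h3 : x ∈ F := h2 x hx.1 fun v hv => (hx.2 v hv).2 (Finset.notMem_empty v)
      rw [Submodule.mem_span_singleton]
      exact ⟨⟨x, h3⟩, by rw [Algebra.smul_def, mul_one]; rfl⟩
    exact Module.Finite.iff_fg.1 (Submodule.finiteDimensional_of_le h1)
  | succ n ih =>
    intro T c hT
    obtain ⟨v₀, hv₀⟩ : T.Nonempty := by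
      rw [← Finset.card_pos]
      omega
    have hcard : (T.erase v₀).card = n := by
      rw [Finset.card_erase_of_mem hv₀]
      omega
    by_cases hv₀V : v₀ ∈ V
    swap
    · have h1 : Lsub F' hVt hle T c ≤ Lsub F' hVt hle (T.erase v₀) c := by
        intro x hx
        refine ⟨hx.1, fun v hv => ⟨(hx.2 v hv).1, fun hvT => (hx.2 v hv).2 fun h => hvT ?_⟩⟩
        rw [Finset.mem_erase]
        exact ⟨fun h3 => hv₀V (h3 ▸ hv), h⟩
      have h3 : FiniteDimensional F (Lsub F' hVt hle (T.erase v₀) c) :=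
        Module.Finite.iff_fg.2 (ih _ c hcard)
      exact Module.Finite.iff_fg.1 (Submodule.finiteDimensional_of_le h1)
    by_cases hnt : ∃ f ∈ F', f ≠ 0 ∧ v₀.ord f ≠ 0
    swap
    · push Not at hnt
      have h1 : Lsub F' hVt hle T c ≤ Lsub F' hVt hle (T.erase v₀) c := by
        intro x hx
        refine ⟨hx.1, fun v hv => ⟨(hx.2 v hv).1, fun hvT => ?_⟩⟩
        by_cases hvv : v = v₀
        · rw [hvv]
          by_cases hx0 : x = 0
          · exact Or.inl hx0
          · right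
            rw [hnt x hx.1 hx0]
        · refine (hx.2 v hv).2 fun h => hvT ?_
          rw [Finset.mem_erase]
          exact ⟨hvv, h⟩
      have h3 : FiniteDimensional F (Lsub F' hVt hle (T.erase v₀) c) :=
        Module.Finite.iff_fg.2 (ih _ c hcard)
      exact Module.Finite.iff_fg.1 (Submodule.finiteDimensional_of_le h1)
    obtain ⟨π, hπ, hπv⟩ := hB v₀ (hVt v₀ hv₀V) hnt
    obtain ⟨H, hHfg, hHF, hH1, hH2⟩ := hπ.pf (c v₀)
    have hle' : Lsub F' hVt hle T c ≤ H ⊔ Lsub F' hVt hle (T.erase v₀) c := by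
      intro x hx
      obtain ⟨h, hh, hhx⟩ := hH1 x hx.1 v₀ (hVt v₀ hv₀V) hπv (hx.2 v₀ hv₀V).1
      have h1 : x = h + (x - h) := by ring
      rw [h1]
      refine Submodule.add_mem_sup hh ⟨F'.sub_mem hx.1 (hHF h hh), fun v hv => ?_⟩
      by_cases hvπ : 0 < v.ord π
      · have h3 : Og v 0 (x - h) := hhx v (hVt v hv) hvπ
        exact ⟨h3.mono (by omega), fun _ => h3⟩
      · have h3 : Og v 0 h := hH2 v (hVt v hv) hvπ h hh
        rw [sub_eq_add_neg]
        refine ⟨(hx.2 v hv).1.add (h3.neg.mono (by omega)), fun hvT => ?_⟩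
        refine ((hx.2 v hv).2 fun h4 => hvT ?_).add h3.neg
        rw [Finset.mem_erase]
        exact ⟨fun h5 => hvπ (h5 ▸ hπv), h4⟩
    have h3 : FiniteDimensional F (H ⊔ Lsub F' hVt hle (T.erase v₀) c : Submodule F K) :=
      Module.Finite.iff_fg.2 (hHfg.sup (ih _ c hcard))
    exact Module.Finite.iff_fg.1 (Submodule.finiteDimensional_of_le hle')

/-- a decomposition of a sequence modulo constants -/
theorem decomp (hs : NilSys2 F F' D w) (x : ℕ → K) (hx : ∀ n i, D i (x n) ∈ F) :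
    ∃ (a b : ℕ → K) (Y : Submodule F K), Y.FG ∧ (∀ n, a n ∈ F') ∧ (∀ n, b n ∈ Y) ∧
      ∀ n, x n = a n + b n := by
  classical
  obtain ⟨Y, hY⟩ : ∃ Y : Submodule F K, Y = Submodule.span F (Set.range x) := ⟨_, rfl⟩
  have hYF : ∀ z ∈ Y, ∀ i, D i z ∈ F := by
    intro z hz i
    rw [hY] at hz
    induction hz using Submodule.span_induction with
    | mem z hz =>
      obtain ⟨n, rfl⟩ := hz
      exact hx n i
    | zero => rw [map_zero]; exact F.zero_mem
    | add x y _ _ h h' => rw [map_add]; exact F.add_mem h h'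
    | smul a x _ h =>
      rw [Algebra.smul_def]
      change D i ((a : K) * x) ∈ F
      rw [der_smul (hs.killsF i) a.2]
      exact F.mul_mem a.2 h
  let f : Y →ₗ[F] (ι → F) :=
    { toFun := fun z i => ⟨D i z, hYF z z.2 i⟩
      map_add' := fun a b => by
        funext i
        exact Subtype.ext (map_add (D i) (a : K) b)
      map_smul' := fun c a => by
        funext i
        refine Subtype.ext ?_
        change D i (c • (a : K)) = (c : K) * D i a
        rw [Algebra.smul_def]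
        exact der_smul (hs.killsF i) c.2 _ }
  obtain ⟨Q, hQ⟩ := (LinearMap.ker f).exists_isCompl
  have hQfd : FiniteDimensional F Q := by
    let g : Q →ₗ[F] (ι → F) := f.comp Q.subtype
    refine FiniteDimensional.of_injective g fun z z' hz => ?_
    have h3 : ∀ i, D i (((z : Y) : K) - ((z' : Y) : K)) = 0 := by
      intro i
      have h4 : f z = f z' := hz
      have h5 : D i ((z : Y) : K) = D i ((z' : Y) : K) := congrArg Subtype.val (congrFun h4 i)
      rw [map_sub, h5, sub_self]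
    have h1 : ((z - z' : Q) : Y) ∈ LinearMap.ker f ⊓ Q := by
      refine ⟨?_, (z - z').2⟩
      change f (z - z' : Q) = 0
      funext i
      exact Subtype.ext (h3 i)
    rw [hQ.inf_eq_bot, Submodule.mem_bot] at h1
    exact sub_eq_zero.1 (Subtype.ext h1)
  have hdec : ∀ n, ∃ a ∈ LinearMap.ker f, ∃ b ∈ Q, a + b =
      (⟨x n, by rw [hY]; exact Submodule.subset_span ⟨n, rfl⟩⟩ : Y) := by
    intro n
    have h1 : (⟨x n, by rw [hY]; exact Submodule.subset_span ⟨n, rfl⟩⟩ : Y) ∈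
        LinearMap.ker f ⊔ Q := by
      rw [hQ.sup_eq_top]
      exact Submodule.mem_top
    exact Submodule.mem_sup.1 h1
  choose a ha b hb hab using hdec
  refine ⟨fun n => a n, fun n => b n, Q.map Y.subtype, ?_, fun n => ?_, fun n =>
    ⟨b n, hb n, rfl⟩, fun n => ?_⟩
  · exact (Module.Finite.iff_fg.1 hQfd).map _
  · refine hs.const _ fun i => ?_
    have h1 := congrFun (show f (a n) = 0 from ha n) i
    exact congrArg Subtype.val h1
  · exact (congrArg Subtype.val (hab n)).symm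

/-- **Theorem E in complexity one.** -/
theorem thmE2 [CharZero k] (hs : NilSys2 F F' D w) (hB : Base F F') {V : Set (Place k K)}
    (hVt : ∀ v ∈ V, Triv F v) (hVl : ∀ v ∈ V, ∀ i, DerLog v (D i))
    (hVf : ∀ x : K, x ≠ 0 → {v | v ∈ V ∧ v.ord x ≠ 0}.Finite) (W : Submodule F K)
    (hst : ∀ i, ∀ x ∈ W, D i x ∈ W) (hnil : ∀ x ∈ W, Nilp D x) (hinf : ¬ FiniteDimensional F W)
    (hWb : ∃ c : Place k K → ℕ, {v | v ∈ V ∧ c v ≠ 0}.Finite ∧
      ∀ v ∈ V, ∀ x ∈ W, Og v (-(c v)) x) :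
    ∃ l : K, l ∉ F ∧ (∀ i, D i l ∈ F) ∧ ∀ v ∈ V, v.Reg l := by
  classical
  by_cases h2 : ∀ f ∈ F', (∀ v ∈ V, v.Reg f) → f ∈ F
  swap
  · push Not at h2
    obtain ⟨f, hf, hfV, hfF⟩ := h2
    exact ⟨f, hfF, fun i => by rw [hs.kills i f hf]; exact F.zero_mem, hfV⟩
  obtain ⟨c, hcf, hc⟩ := hWb
  have h0 : ∀ W0 ≤ W, (∀ x ∈ W0, x ∈ F') → FiniteDimensional F W0 := by
    intro W0 hW0 hW0F
    have h1 : W0 ≤ Lsub F' hVt hs.le hcf.toFinset c := by
      intro x hx
      refine ⟨hW0F x hx, fun v hv => ⟨hc v hv x (hW0 hx), fun hvT => ?_⟩⟩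
      rw [Set.Finite.mem_toFinset] at hvT
      have h3 : c v = 0 := by
        by_contra h4
        exact hvT ⟨hv, h4⟩
      have h4 := hc v hv x (hW0 hx)
      rw [h3] at h4
      exact h4
    have h3 : FiniteDimensional F (Lsub F' hVt hs.le hcf.toFinset c) :=
      Module.Finite.iff_fg.2 (Lsub_fg hs.le hB hVt h2 _ _ c rfl)
    exact Submodule.finiteDimensional_of_le h1
  obtain ⟨Λ, hΛ0, hτ, ⟨j, r, hr, hΛj⟩, hΛv⟩ := exists_semi hs W hst hnil hinf h0
  choose τ hτF hτΛ using hτ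
  have hΛne : Λ ≠ 0 := by
    rintro rfl
    rw [map_zero] at hΛ0
    exact zero_ne_one hΛ0
  have hΛbd : ∀ v ∈ V, ∃ C, Bs v C Λ := fun v hv => hΛv v ⟨_, hc v hv⟩
  -- integrality of the semi-invariance factors
  have hdhv : ∀ v ∈ V, ∀ (C : ℤ) (f : PowerSeries K) (i : ι), Bs v C f → Bs v C (dh (D i) f) := by
    intro v hv C f i hf n
    rw [coeff_dh]
    exact DerLog.ge (hVl v hv i) (hf n)
  have hτv : ∀ i, CF F (τ i) := by
    intro i N
    refine h2 _ (hτF i N) fun v hv => ?_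
    obtain ⟨C, hC⟩ := hΛbd v hv
    refine ci v hΛne N (τ i) (C₀ := C) fun n => ?_
    induction n with
    | zero =>
      rw [pow_zero, one_mul]
      exact hC
    | succ n ih =>
      have h3 : τ i ^ (n + 1) * Λ = dh (D i) (τ i ^ n * Λ) := by
        rw [dh_smul (hs.kills i) ((hτF i).pow n), hτΛ, pow_succ]
        ring
      rw [h3]
      exact hdhv v hv C _ i ih
  -- the logarithmic derivative
  have hΛc : constantCoeff Λ ≠ 0 := by
    rw [← coeff_zero_eq_constantCoeff_apply, hΛ0]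
    exact one_ne_zero
  obtain ⟨γ, hγ⟩ : ∃ γ : PowerSeries K, γ = eul Λ * Λ⁻¹ := ⟨_, rfl⟩
  have hγΛ : eul Λ = γ * Λ := by
    rw [hγ, mul_assoc, PowerSeries.inv_mul_cancel _ hΛc, mul_one]
  have hder : ∀ (i : ι) (σ : PowerSeries K), dh (D i) Λ = σ * Λ → dh (D i) γ = eul σ := by
    intro i σ hσ
    refine mul_right_cancel₀ hΛne ?_
    have h1 := congrArg (dh (D i)) hγΛ
    rw [dh_eul, hσ, eul_mul, dh_mul, hσ, hγΛ] at h1
    have h3 : Λ * dh (D i) γ = Λ * eul σ := by
      have h3 : γ * (σ * Λ) + Λ * dh (D i) γ = γ * (σ * Λ) + Λ * eul σ := by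
        rw [← h1]
        ring
      exact add_left_cancel h3
    rw [mul_comm, h3, mul_comm]
  have hγD : ∀ i, dh (D i) γ = eul (τ i) := fun i => hder i _ (hτΛ i)
  have hγF : ∀ n i, D i (coeff n γ) ∈ F := by
    intro n i
    rw [← coeff_dh, hγD]
    exact (hτv i).eul n
  obtain ⟨a, b, Y, hYfg, haF, hbY, hab⟩ := decomp hs (fun n => coeff n γ) hγF
  obtain ⟨α, hα⟩ : ∃ α : PowerSeries K, α = PowerSeries.mk a := ⟨_, rfl⟩
  obtain ⟨β, hβ⟩ : ∃ β : PowerSeries K, β = PowerSeries.mk b := ⟨_, rfl⟩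
  have hγαβ : γ = α + β := by
    ext n
    rw [map_add, hα, hβ, coeff_mk, coeff_mk]
    exact hab n
  have hαF : CF F' α := fun n => by
    rw [hα, coeff_mk]
    exact haF n
  have hβv : ∀ v ∈ V, ∃ C, Bs v C β := by
    intro v hv
    obtain ⟨C, hC⟩ := bdd_fd v (hVt v hv) Y hYfg
    refine ⟨C, fun n => ?_⟩
    rw [hβ, coeff_mk]
    exact hC _ (hbY n)
  have hΛαβ : eul Λ = (α + β) * Λ := by rw [← hγαβ]; exact hγΛ
  obtain ⟨x1, hx1⟩ : ∃ x1, x1 = coeff 1 γ := ⟨_, rfl⟩
  have hx1j : D j x1 = (r : K) := by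
    rw [hx1, ← coeff_dh, hder j _ hΛj, coeff_eul, Nat.cast_one, one_mul]
    have h3 : (r : PowerSeries K) * X = X * C (r : K) := by
      rw [map_natCast]
      ring
    have h4 := coeff_succ_X_mul 0 (C (r : K))
    rw [zero_add] at h4
    rw [h3, h4, coeff_C, if_pos rfl]
  -- gluing
  have hglue : ∀ (n : ℕ) (q : K), q ∈ F' → {v | v ∈ V ∧ ¬ v.Reg (x1 - q)}.ncard = n →
      ∃ q' ∈ F', ∀ v ∈ V, v.Reg (x1 - q') := by
    intro n
    induction n using Nat.strong_induction_on with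
    | _ n ih =>
      intro q hq hn
      by_cases hall : ∀ v ∈ V, v.Reg (x1 - q)
      · exact ⟨q, hq, hall⟩
      push Not at hall
      obtain ⟨v₀, hv₀, hbad⟩ := hall
      have hne : x1 - q ≠ 0 := fun h => hbad (by rw [h]; exact v₀.reg_zero)
      have hfin : {v | v ∈ V ∧ ¬ v.Reg (x1 - q)}.Finite := by
        refine (hVf _ hne).subset ?_
        rintro v ⟨hv, hv'⟩
        exact ⟨hv, fun h => hv' (Or.inr h.ge)⟩
      by_cases hnt : ∃ f ∈ F', f ≠ 0 ∧ v₀.ord f ≠ 0
      swap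
      · exfalso
        push Not at hnt
        obtain ⟨C1, hC1⟩ := hΛbd v₀ hv₀
        obtain ⟨C2, hC2⟩ := hβv v₀ hv₀
        have hα0 : Bs v₀ 0 α := by
          intro m
          by_cases h3 : coeff m α = 0
          · exact Or.inl h3
          · exact Or.inr (hnt _ (hαF m) h3).ge
        have h3 := gauss v₀ hC1 ((hα0.mono (min_le_left 0 C2)).add (hC2.mono (min_le_right 0 C2)))
          hΛne hΛαβ 1
        rw [← hγαβ, ← hx1] at h3
        apply hbad
        by_cases hq0 : q = 0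
        · rw [hq0, sub_zero]
          exact h3
        · rw [sub_eq_add_neg]
          have h4 : Og v₀ 0 q := Or.inr (hnt q hq hq0).ge
          exact Og.add h3 h4.neg
      obtain ⟨π, hπ, hπv⟩ := hB v₀ (hVt v₀ hv₀) hnt
      have hπfin : {v | v ∈ V ∧ 0 < v.ord π}.Finite := by
        refine (hVf π hπ.ne).subset ?_
        rintro v ⟨hv, hv'⟩
        exact ⟨hv, hv'.ne'⟩
      have hVm : ∀ v, v ∈ hπfin.toFinset ↔ v ∈ V ∧ 0 < v.ord π := fun v => by
        rw [Set.Finite.mem_toFinset]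
        rfl
      obtain ⟨q1, hq1F, hq1⟩ := loc (V₀ := hπfin.toFinset) hπ.mem hπ.ne
        (fun v hv => ((hVm v).1 hv).2) (fun f hf hf0 => by
          obtain ⟨n, u, huF, hu0, hfu, hu⟩ := hπ.dec f hf hf0
          exact ⟨n, u, huF, hu0, hfu, fun v hv => hu v (hVt v ((hVm v).1 hv).1)
            ((hVm v).1 hv).2⟩) ⟨v₀, (hVm v₀).2 ⟨hv₀, hπv⟩⟩ hΛ0 hαF hΛαβ
        (fun v hv => hΛbd v ((hVm v).1 hv).1) (fun v hv => hβv v ((hVm v).1 hv).1)
      rw [← hγαβ, ← hx1] at hq1
      obtain ⟨H, -, hHF, hH1, hH2⟩ := hπ.pf (v₀.ord (q1 - q)).natAbs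
      obtain ⟨h, hh, hhq⟩ := hH1 (q1 - q) (F'.sub_mem hq1F hq) v₀ (hVt v₀ hv₀) hπv (by
        right
        have := abs_le.1 (le_of_eq (Int.abs_eq_natAbs (v₀.ord (q1 - q))))
        omega)
      have hnew : ∀ v ∈ V, 0 < v.ord π → v.Reg (x1 - (q + h)) := by
        intro v hv hvπ
        have e1 : x1 - (q + h) = (x1 - q1) + (q1 - q - h) := by ring
        rw [e1]
        exact Og.add (hq1 v ((hVm v).2 ⟨hv, hvπ⟩)) (hhq v (hVt v hv) hvπ)
      have hold : ∀ v ∈ V, ¬ 0 < v.ord π → v.Reg (x1 - q) → v.Reg (x1 - (q + h)) := by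
        intro v hv hvπ hreg
        have e1 : x1 - (q + h) = (x1 - q) + -h := by ring
        rw [e1]
        exact Og.add hreg (Og.neg (hH2 v (hVt v hv) hvπ h hh))
      have hlt : {v | v ∈ V ∧ ¬ v.Reg (x1 - (q + h))}.ncard < n := by
        rw [← hn]
        refine Set.ncard_lt_ncard ⟨?_, fun hsub => ?_⟩ hfin
        · rintro v ⟨hv, hvb⟩
          refine ⟨hv, fun hreg => hvb ?_⟩
          by_cases hvπ : 0 < v.ord π
          · exact hnew v hv hvπ
          · exact hold v hv hvπ hreg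
        · exact (hsub ⟨hv₀, hbad⟩).2 (hnew v₀ hv₀ hπv)
      exact ih _ hlt (q + h) (F'.add_mem hq (hHF h hh)) rfl
  obtain ⟨q, hqF, hq⟩ := hglue _ 0 F'.zero_mem rfl
  have hDl : ∀ i, D i (x1 - q) = D i x1 := fun i => by rw [map_sub, hs.kills i q hqF, sub_zero]
  refine ⟨x1 - q, fun hlF => ?_, fun i => ?_, hq⟩
  · have h3 := hDl j
    rw [hs.killsF j _ hlF, hx1j] at h3
    have hcK : CharZero K := charZero_of_injective_algebraMap (algebraMap k K).injective
    exact hr (by exact_mod_cast h3.symm)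
  · rw [hDl, hx1]
    exact hγF 1 i

end

end Pool.Agent.H892
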