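import Pool.Agent.H892.C5

/-!
The chain of fields of a nilpotent system of derivations with a larger field of constants.
-/

set_option autoImplicit false
set_option linter.unusedSectionVars false

open FF Pool.Agent.W602.GT Pool.Agent.W603.LV Pool.Agent.Y172 Pool.Agent.TH122.AB

namespace Pool.Agent.H892

section

variable {k K ι : Type} [Field k] [CharZero k] [Field K] [Algebra k K] [Fintype ι]
  {F F' : IntermediateField k K} {D : ι → Derivation k K K} {w : ι → ℕ}

/-- **The next fields of the chain.** -/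
theorem next2 (hs : NilSys2 F F' D w) {t : K} (htF : t ∉ F') (ht : ∀ i, D i t ∈ F) :
    ∃ D' : ι → Derivation k K K,
      NilSys2 (IntermediateField.adjoin k ((F : Set K) ∪ {t}))
        (IntermediateField.adjoin k ((F' : Set K) ∪ {t})) D' w ∧
      (∀ i, ∃ c : ι → K, (∀ l, c l ∈ F) ∧ ∀ x, D' i x = ∑ l, c l * D l x) ∧
      (∀ i, D i = 0 → D' i = 0) ∧ ∃ i, D i ≠ 0 ∧ D' i = 0 := by
  classical
  obtain ⟨G, hG⟩ : ∃ G, G = IntermediateField.adjoin k ((F : Set K) ∪ {t}) := ⟨_, rfl⟩
  obtain ⟨G', hG'⟩ : ∃ G', G' = IntermediateField.adjoin k ((F' : Set K) ∪ {t}) := ⟨_, rfl⟩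
  have hFG : F ≤ G := by
    rw [hG]
    exact fun x hx => IntermediateField.subset_adjoin k _ (Or.inl hx)
  have hFG' : F' ≤ G' := by
    rw [hG']
    exact fun x hx => IntermediateField.subset_adjoin k _ (Or.inl hx)
  have htG : t ∈ G := by
    rw [hG]
    exact IntermediateField.subset_adjoin k _ (Or.inr rfl)
  have htG' : t ∈ G' := by
    rw [hG']
    exact IntermediateField.subset_adjoin k _ (Or.inr rfl)
  have hGG' : G ≤ G' := by
    rw [hG, IntermediateField.adjoin_le_iff]
    rintro z (hz | hz)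
    · exact hFG' (hs.le hz)
    · rw [Set.mem_singleton_iff] at hz
      rw [hz]
      exact htG'
  rw [← hG, ← hG']
  -- the pivot
  have hne : (Finset.univ.filter fun i => D i t ≠ 0).Nonempty := by
    by_contra hcon
    rw [Finset.not_nonempty_iff_eq_empty] at hcon
    refine htF (hs.const t fun i => ?_)
    by_contra h
    have : i ∈ (Finset.univ.filter fun i => D i t ≠ 0) := by simpa using h
    rw [hcon] at this
    exact absurd this (Finset.notMem_empty i)
  obtain ⟨i0, hi0, hmin⟩ := Finset.exists_min_image _ w hne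
  have hi0' : D i0 t ≠ 0 := by simpa using hi0
  have hmin' : ∀ i, D i t ≠ 0 → w i0 ≤ w i := fun i hi => hmin i (by simpa using hi)
  obtain ⟨a, ha⟩ : ∃ a : ι → K, ∀ i, a i = D i t / D i0 t := ⟨_, fun _ => rfl⟩
  have haF : ∀ i, a i ∈ F := fun i => by rw [ha]; exact F.div_mem (ht i) (ht i0)
  have hai0 : a i0 = 1 := by rw [ha, div_self hi0']
  have ha0 : ∀ i, a i ≠ 0 → w i0 ≤ w i := fun i hi => hmin' i fun h => hi (by
    rw [ha, h, zero_div])
  obtain ⟨D', hD'⟩ : ∃ D' : ι → Derivation k K K, ∀ i, D' i = D i - a i • D i0 :=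
    ⟨_, fun _ => rfl⟩
  have hD'x : ∀ i x, D' i x = D i x - a i * D i0 x := by
    intro i x
    rw [hD', Derivation.sub_apply, Derivation.smul_apply, smul_eq_mul]
  have hcomb : ∀ i, ∃ c : ι → K, (∀ l, c l ∈ F) ∧ ∀ x, D' i x = ∑ l, c l * D l x := by
    intro i
    refine ⟨fun l => (if l = i then 1 else 0) - (if l = i0 then a i else 0), fun l => ?_,
      fun x => ?_⟩
    · refine F.sub_mem ?_ ?_
      · split_ifs
        · exact F.one_mem
        · exact F.zero_mem
      · split_ifs
        · exact haF i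
        · exact F.zero_mem
    · rw [hD'x]
      simp only [sub_mul, ite_mul, one_mul, zero_mul, Finset.sum_sub_distrib, Finset.sum_ite_eq',
        Finset.mem_univ, if_true]
  have hkil := kil_of_comb hs.killsF hcomb
  have hnilp : ∀ x, Nilp D x → Nilp D' x := fun x ⟨n, hn⟩ => ⟨n, hkil n x hn⟩
  have hD't : ∀ i, D' i t = 0 := fun i => by
    rw [hD'x, ha, div_mul_cancel₀ _ hi0', sub_self]
  have hkills' : ∀ i, ∀ f ∈ G', D' i f = 0 := by
    intro i
    have h1 : G' ≤ consts (D' i) := by
      rw [hG', IntermediateField.adjoin_le_iff]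
      rintro f (hf | hf)
      · change D' i f = 0
        rw [hD'x, hs.kills i f hf, hs.kills i0 f hf, mul_zero, sub_zero]
      · rw [Set.mem_singleton_iff] at hf
        rw [hf]
        exact hD't i
    exact fun f hf => h1 hf
  -- combinations which kill `t`
  have hre : ∀ c : ι → K, ∑ l, c l * D l t = 0 → ∀ x, ∑ l, c l * D l x = ∑ l, c l * D' l x := by
    intro c hc x
    have h1 : ∑ l, c l * a l = 0 := by
      have h2 : (∑ l, c l * a l) * D i0 t = 0 := by
        rw [Finset.sum_mul, ← hc]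
        refine Finset.sum_congr rfl fun l _ => ?_
        rw [ha, mul_assoc, div_mul_cancel₀ _ hi0']
      exact (mul_eq_zero.1 h2).resolve_right hi0'
    have h2 : ∑ l, c l * D' l x = ∑ l, c l * D l x - (∑ l, c l * a l) * D i0 x := by
      rw [Finset.sum_mul, ← Finset.sum_sub_distrib]
      refine Finset.sum_congr rfl fun l _ => ?_
      rw [hD'x]
      ring
    rw [h2, h1, zero_mul, sub_zero]
  have hbr : ∀ i j, D i (D j t) - D j (D i t) = 0 := fun i j => by
    rw [hs.killsF i _ (ht j), hs.killsF j _ (ht i), sub_zero]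
  have hcomm : ∀ i j, ∃ c : ι → K, (∀ l, c l ∈ F) ∧ (∀ l, w j ≤ w l → c l = 0) ∧
      ∀ x, D i (D j x) - D j (D i x) = ∑ l, c l * D' l x := by
    intro i j
    obtain ⟨c, hcF, hc0, hc⟩ := hs.comm i j
    refine ⟨c, hcF, hc0, fun x => ?_⟩
    rw [hc, hre c (by rw [← hc, hbr])]
  have hnil0 : ∀ (n : ℕ) (x : K), Kil D n x → (∀ i, D' i x = 0) →
      ∃ p : Polynomial F', x = Polynomial.aeval t p := by
    intro n
    induction n with
    | zero =>
      intro x hx _
      exact ⟨0, by rw [map_zero]; exact hx⟩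
    | succ n ih =>
      intro x hx hx'
      obtain ⟨p, hp⟩ := ih (D i0 x) (hx i0) fun i => by
        obtain ⟨c, -, -, hc⟩ := hcomm i i0
        have h1 := hc x
        have h2 : D' i (D i0 x) = D i0 (D' i x) + (D i (D i0 x) - D i0 (D i x)) := by
          rw [hD'x, hD'x, map_sub, der_smul (hs.killsF i0) (haF i)]
          ring
        rw [h2, h1, hx' i, map_zero, zero_add]
        exact Finset.sum_eq_zero fun l _ => by rw [hx' l, mul_zero]
      obtain ⟨P, hP⟩ := antider (hs.kills i0) (hs.le (ht i0)) hi0' p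
      have h1 : x - Polynomial.aeval t P ∈ F' := by
        refine hs.const _ fun i => ?_
        have h2 : D i x = a i * D i0 x := by
          have := hx' i
          rw [hD'x, sub_eq_zero] at this
          exact this
        have h3 : D i (Polynomial.aeval t P) = a i * D i0 (Polynomial.aeval t P) := by
          have h4 : D' i (Polynomial.aeval t P) = 0 := by
            refine hkills' i _ ?_
            rw [Polynomial.aeval_eq_sum_range]
            refine G'.sum_mem fun m _ => ?_
            rw [Algebra.smul_def]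
            exact G'.mul_mem (hFG' (P.coeff m).2) (pow_mem htG' m)
          rw [hD'x, sub_eq_zero] at h4
          exact h4
        rw [map_sub, h2, h3, hP, ← hp, sub_self]
      refine ⟨P + Polynomial.C ⟨_, h1⟩, ?_⟩
      rw [map_add, Polynomial.aeval_C]
      change x = Polynomial.aeval t P + (x - Polynomial.aeval t P)
      ring
  refine ⟨D', ⟨hGG', hkills', fun i j => ?_, fun x hx => ?_, fun x => ?_⟩, hcomb, fun i hi => ?_,
    i0, fun h => hi0' (by rw [h]; rfl), ?_⟩
  · obtain ⟨c1, hc1F, hc10, hc1⟩ := hcomm i j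
    obtain ⟨c2, hc2F, hc20, hc2⟩ := hcomm i i0
    obtain ⟨c3, hc3F, hc30, hc3⟩ : ∃ c : ι → K, (∀ l, c l ∈ F) ∧
        (∀ l, w j ≤ w l → a i * c l = 0) ∧ ∀ x, D j (D i0 x) - D i0 (D j x) =
          ∑ l, c l * D' l x := by
      by_cases hai : a i = 0
      · obtain ⟨c, hcF, hc0, hc⟩ := hcomm j i0
        exact ⟨c, hcF, fun l _ => by rw [hai, zero_mul], hc⟩
      rcases Nat.lt_or_ge (w j) (w i0) with hw | hw
      · obtain ⟨c, hcF, hc0, hc⟩ := hcomm i0 j
        refine ⟨fun l => - c l, fun l => F.neg_mem (hcF l), fun l hl => by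
          change a i * -(c l) = 0
          rw [hc0 l hl, neg_zero, mul_zero], fun x => ?_⟩
        rw [← neg_sub, hc x, ← Finset.sum_neg_distrib]
        exact Finset.sum_congr rfl fun l _ => by ring
      · obtain ⟨c, hcF, hc0, hc⟩ := hcomm j i0
        exact ⟨c, hcF, fun l hl => by rw [hc0 l (hw.trans hl), mul_zero], hc⟩
    refine ⟨fun l => c1 l - a j * c2 l + a i * c3 l, fun l => ?_, fun l hl => ?_, fun x => ?_⟩
    · exact G.add_mem (G.sub_mem (hFG (hc1F l)) (G.mul_mem (hFG (haF j)) (hFG (hc2F l))))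
        (G.mul_mem (hFG (haF i)) (hFG (hc3F l)))
    · change c1 l - a j * c2 l + a i * c3 l = 0
      rw [hc10 l hl, hc30 l hl]
      have h1 : a j * c2 l = 0 := by
        by_cases haj : a j = 0
        · rw [haj, zero_mul]
        · rw [hc20 l ((ha0 j haj).trans hl), mul_zero]
      rw [h1]
      ring
    · have h1 : D' i (D' j x) - D' j (D' i x) = (D i (D j x) - D j (D i x)) -
          a j * (D i (D i0 x) - D i0 (D i x)) + a i * (D j (D i0 x) - D i0 (D j x)) := by
        simp only [hD'x, map_sub]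
        rw [der_smul (hs.killsF i) (haF j), der_smul (hs.killsF i0) (haF j),
          der_smul (hs.killsF j) (haF i), der_smul (hs.killsF i0) (haF i)]
        ring
      rw [h1, hc1, hc2, hc3, Finset.mul_sum, Finset.mul_sum, ← Finset.sum_sub_distrib,
        ← Finset.sum_add_distrib]
      refine Finset.sum_congr rfl fun l _ => ?_
      ring
  · -- the constants
    obtain ⟨p, q, hp, hq, hq0, hpq⟩ := hs.frac x
    obtain ⟨S, hS⟩ : ∃ S : Set K, ∀ s, s ∈ S ↔ Nilp D s ∧ Nilp D (s * x) :=
      ⟨{s | _}, fun _ => Iff.rfl⟩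
    have hNc : ∀ c ∈ F, ∀ s, Nilp D s → Nilp D (c * s) := fun c hc s ⟨n, hn⟩ =>
      ⟨n, kil_smul hs.killsF hc n s hn⟩
    have hND' : ∀ i s, Nilp D s → Nilp D (D' i s) := by
      intro i s hs'
      rw [hD'x, sub_eq_add_neg]
      exact (hs'.der i).add (hNc _ (haF i) _ (hs'.der i0)).neg
    have hSst : ∀ i, ∀ s ∈ S, D' i s ∈ S := by
      intro i s hs'
      rw [hS] at hs' ⊢
      refine ⟨hND' i s hs'.1, ?_⟩
      have h1 : D' i s * x = D' i (s * x) := by
        rw [Derivation.leibniz, hx i, smul_zero, zero_add, smul_eq_mul, mul_comm]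
      rw [h1]
      exact hND' i _ hs'.2
    have hqS : q ∈ S := by
      rw [hS]
      refine ⟨hq, ?_⟩
      rw [hpq, mul_div_cancel₀ _ hq0]
      exact hp
    obtain ⟨nq, hnq⟩ := hq
    obtain ⟨c, hcS, hc0, hcD⟩ := exists_last (D := D') S hSst nq q hqS hq0 (hkil nq q hnq)
    rw [hS] at hcS
    obtain ⟨⟨n1, hn1⟩, ⟨n2, hn2⟩⟩ := hcS
    obtain ⟨p1, hp1⟩ := hnil0 n1 c hn1 hcD
    obtain ⟨p2, hp2⟩ := hnil0 n2 (c * x) hn2 fun i => by
      rw [Derivation.leibniz, hx i, hcD i, smul_zero, smul_zero, add_zero]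
    have hpF : ∀ p : Polynomial F', Polynomial.aeval t p ∈ G' := by
      intro P
      rw [Polynomial.aeval_eq_sum_range]
      refine G'.sum_mem fun m _ => ?_
      rw [Algebra.smul_def]
      exact G'.mul_mem (hFG' (P.coeff m).2) (pow_mem htG' m)
    have h1 : x = (c * x) / c := by rw [mul_div_cancel_left₀ _ hc0]
    rw [h1]
    refine G'.div_mem ?_ ?_
    · rw [hp2]
      exact hpF p2
    · rw [hp1]
      exact hpF p1
  · obtain ⟨p, q, hp, hq, hq0, hpq⟩ := hs.frac x
    exact ⟨p, q, hnilp p hp, hnilp q hq, hq0, hpq⟩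
  · have h1 : a i = 0 := by rw [ha, hi, Derivation.zero_apply, zero_div]
    rw [hD', hi, h1, zero_smul, sub_zero]
  · rw [hD', hai0, one_smul, sub_self]

/-- the base of the next system is rational -/
theorem RatBase.next {s : K} (hR : RatBase F F' s) {E : Derivation k K K}
    (hE : ∀ f ∈ F', E f = 0) {t : K} (ht : E t ≠ 0) :
    RatBase (IntermediateField.adjoin k ((F : Set K) ∪ {t}))
      (IntermediateField.adjoin k ((F' : Set K) ∪ {t})) s := by
  classical
  obtain ⟨G, hG⟩ : ∃ G, G = IntermediateField.adjoin k ((F : Set K) ∪ {t}) := ⟨_, rfl⟩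
  obtain ⟨G', hG'⟩ : ∃ G', G' = IntermediateField.adjoin k ((F' : Set K) ∪ {t}) := ⟨_, rfl⟩
  have hFG : F ≤ G := by
    rw [hG]
    exact fun x hx => IntermediateField.subset_adjoin k _ (Or.inl hx)
  have hFG' : F' ≤ G' := by
    rw [hG']
    exact fun x hx => IntermediateField.subset_adjoin k _ (Or.inl hx)
  have htG : t ∈ G := by
    rw [hG]
    exact IntermediateField.subset_adjoin k _ (Or.inr rfl)
  have htG' : t ∈ G' := by
    rw [hG']
    exact IntermediateField.subset_adjoin k _ (Or.inr rfl)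
  have hGG' : G ≤ G' := by
    rw [hG, IntermediateField.adjoin_le_iff]
    rintro z (hz | hz)
    · exact hFG' (hR.le hz)
    · rw [Set.mem_singleton_iff] at hz
      rw [hz]
      exact htG'
  rw [← hG, ← hG']
  refine ⟨hGG', hFG' hR.mem, fun p hp h0 => ?_, fun f hf => ?_⟩
  · -- a derivation which kills `F` and `t` but not `s`
    have hsF : s ∉ acl k (F : Set K) := by
      intro h
      rw [mem_acl] at h
      have h1 : IntermediateField.adjoin k (F : Set K) = F := by
        refine le_antisymm (IntermediateField.adjoin_le_iff.2 fun x hx => hx) ?_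
        exact fun x hx => IntermediateField.subset_adjoin k _ hx
      rw [h1] at h
      obtain ⟨q, hq0, hq⟩ := h
      exact hR.tr q hq0 hq
    obtain ⟨E1, hE1, hE1s⟩ := exists_der_ne (acl_closed (k := k) (F : Set K)) hsF
    obtain ⟨E2, hE2⟩ : ∃ E2 : Derivation k K K, E2 = E1 - (E1 t / E t) • E := ⟨_, rfl⟩
    have hE2x : ∀ x, E2 x = E1 x - E1 t / E t * E x := by
      intro x
      rw [hE2, Derivation.sub_apply, Derivation.smul_apply, smul_eq_mul]
    have hkill : ∀ f ∈ G, E2 f = 0 := by
      have h1 : G ≤ consts E2 := by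
        rw [hG, IntermediateField.adjoin_le_iff]
        rintro f (hf | hf)
        · change E2 f = 0
          rw [hE2x, hE1 f (subset_acl _ hf), hE f (hR.le hf), mul_zero, sub_zero]
        · rw [Set.mem_singleton_iff] at hf
          change E2 f = 0
          rw [hf, hE2x, div_mul_cancel₀ _ ht, sub_self]
      exact fun f hf => h1 hf
    have h2 := kills_alg (M := G) hkill (x := s) ⟨p, hp, h0⟩
    rw [hE2x, hE s hR.mem, mul_zero, sub_zero] at h2
    exact one_ne_zero (hE1s.symm.trans h2)
  · -- generation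
    have h1 : G' ≤ (IntermediateField.adjoin G {s}).restrictScalars k := by
      rw [hG', IntermediateField.adjoin_le_iff]
      have hGle : ∀ z ∈ G, z ∈ IntermediateField.adjoin G {s} := fun z hz =>
        (IntermediateField.adjoin G {s}).algebraMap_mem ⟨z, hz⟩
      have hs1 : s ∈ IntermediateField.adjoin G {s} :=
        IntermediateField.mem_adjoin_simple_self G s
      rintro z (hz | hz)
      · obtain ⟨a, b, hb, hab⟩ := hR.gen z hz
        have hpoly : ∀ q : Polynomial F, Polynomial.aeval s q ∈ IntermediateField.adjoin G {s} := by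
          intro q
          rw [Polynomial.aeval_eq_sum_range]
          refine sum_mem fun m _ => ?_
          rw [Algebra.smul_def]
          exact mul_mem (hGle _ (hFG (q.coeff m).2)) (pow_mem hs1 m)
        change z ∈ IntermediateField.adjoin G {s}
        rw [hab]
        exact div_mem (hpoly a) (hpoly b)
      · rw [Set.mem_singleton_iff] at hz
        rw [hz]
        exact hGle _ htG
    have h2 : f ∈ IntermediateField.adjoin G {s} := h1 hf
    rw [IntermediateField.mem_adjoin_simple_iff] at h2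
    obtain ⟨a, b, hab⟩ := h2
    by_cases hb : b = 0
    · refine ⟨0, 1, one_ne_zero, ?_⟩
      rw [hab, hb]
      simp
    · exact ⟨a, b, hb, hab⟩

theorem RatBase.le_of_mem {s : K} (hR : RatBase F F' s) {𝔸 : IntermediateField k K}
    (h𝔸 : Closed 𝔸) (hF : F ≤ 𝔸) {l : K} (hlF' : l ∈ F') (hlF : l ∉ F) (hl : l ∈ 𝔸) :
    F' ≤ 𝔸 := by
  classical
  have hs : s ∈ 𝔸 := by
    refine h𝔸 s ?_
    obtain ⟨a, b, hb, hab⟩ := hR.gen l hlF'
    obtain ⟨φ, hφ⟩ : ∃ φ : F →+* 𝔸, ∀ x, ((φ x : 𝔸) : K) = x :=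
      ⟨(IntermediateField.inclusion hF).toRingHom, fun _ => rfl⟩
    obtain ⟨q, hq⟩ : ∃ q : Polynomial 𝔸, q = a.map φ - Polynomial.C ⟨l, hl⟩ * b.map φ :=
      ⟨_, rfl⟩
    have hev : ∀ c : Polynomial F, Polynomial.aeval s (c.map φ) = Polynomial.aeval s c := by
      intro c
      rw [Polynomial.aeval_def, Polynomial.aeval_def, Polynomial.eval₂_map]
      congr 1
      exact RingHom.ext fun x => hφ x
    refine ⟨q, fun hq0 => ?_, ?_⟩
    · rw [hq, sub_eq_zero] at hq0
      have hb' : ∃ i, b.coeff i ≠ 0 := by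
        by_contra hcon
        push Not at hcon
        exact hb (Polynomial.ext hcon)
      obtain ⟨i, hi⟩ := hb'
      have h1 := congrArg (fun c : Polynomial 𝔸 => ((c.coeff i : 𝔸) : K)) hq0
      simp only [Polynomial.coeff_map, Polynomial.coeff_C_mul] at h1
      have h2 : ((a.coeff i : F) : K) = l * ((b.coeff i : F) : K) := by
        rw [← hφ, h1, ← hφ]
        rfl
      have h3 : ((b.coeff i : F) : K) ≠ 0 := fun h => hi (Subtype.ext h)
      apply hlF
      rw [show l = ((a.coeff i : F) : K) / ((b.coeff i : F) : K) by rw [h2, mul_div_cancel_right₀ _ h3]]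
      exact F.div_mem (a.coeff i).2 (b.coeff i).2
    · rw [hq, map_sub, map_mul, hev, hev, Polynomial.aeval_C]
      change Polynomial.aeval s a - l * Polynomial.aeval s b = 0
      rw [hab, div_mul_cancel₀ _ (hR.tr b hb), sub_self]
  intro z hz
  obtain ⟨a, b, hb, hab⟩ := hR.gen z hz
  have hpoly : ∀ q : Polynomial F, Polynomial.aeval s q ∈ 𝔸 := by
    intro q
    rw [Polynomial.aeval_eq_sum_range]
    refine sum_mem fun m _ => ?_
    rw [Algebra.smul_def]
    exact mul_mem (hF (q.coeff m).2) (pow_mem hs m)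
  rw [hab]
  exact div_mem (hpoly a) (hpoly b)

/-- **The chain.** -/
theorem chain2 {𝔸 : IntermediateField k K} (h𝔸 : Closed 𝔸) {Pl : Set (Place k K)}
    (hPlf : ∀ x : K, x ≠ 0 → {v | v ∈ Pl ∧ v.ord x ≠ 0}.Finite) (𝒲 : Set (Set K)) :
    ∀ (n : ℕ) (F F' : IntermediateField k K) (D : ι → Derivation k K K) (e : ℕ),
      NilSys2 F F' D w → (F = F' ∧ e = 0 ∨ (∃ s, RatBase F F' s) ∧ e = 1) → F ≤ 𝔸 →
      (∀ W ∈ 𝒲, ∀ i, ∀ x ∈ W, D i x ∈ Submodule.span F W) →
      (∀ W ∈ 𝒲, ∀ x ∈ W, Nilp D x) →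
      (∀ v ∈ Pl, Triv F v → ∀ i, DerReg v (D i)) →
      (∀ W ∈ 𝒲, ∃ c : Place k K → ℕ, {v | v ∈ Pl ∧ c v ≠ 0}.Finite ∧
        ∀ v ∈ Pl, Triv F v → ∀ x ∈ W, Og v (-(c v)) x) →
      (∀ F₁ : IntermediateField k K, F ≤ F₁ → F₁ ≤ 𝔸 → ∀ t : K,
        (∀ v ∈ Pl, Triv F₁ v → v.Reg t) → t ∈ 𝔸) →
      {i | D i ≠ 0}.ncard + e = n →
      ∃ F₁ : IntermediateField k K, F ≤ F₁ ∧ F₁ ≤ 𝔸 ∧
        ∀ W ∈ 𝒲, FiniteDimensional F₁ (Submodule.span F₁ W) := by
  classical
  intro n
  induction n using Nat.strong_induction_on with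
  | _ n ih =>
    intro F F' D e hs hbase hF hst hnil hreg hbd hcl hn
    by_cases hall : ∀ W ∈ 𝒲, FiniteDimensional F (Submodule.span F W)
    · exact ⟨F, le_rfl, hF, hall⟩
    push Not at hall
    obtain ⟨W, hW, hinf⟩ := hall
    have hB : Base F F' := by
      rcases hbase with ⟨h, -⟩ | ⟨⟨s, hs'⟩, -⟩
      · rw [← h]
        exact base_self
      · exact hs'.base
    obtain ⟨c, hcf, hc⟩ := hbd W hW
    obtain ⟨t, htF, htD, htv⟩ := thmE2 hs hB
      (V := {v | v ∈ Pl ∧ Triv F v ∧ ∀ i, DerLog v (D i)}) (fun v hv => hv.2.1)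
      (fun v hv => hv.2.2) (fun x hx => (hPlf x hx).subset (by
        rintro v ⟨hv, hvx⟩
        exact ⟨hv.1, hvx⟩)) (Submodule.span F W) (by
      intro i x hx
      induction hx using Submodule.span_induction with
      | mem x hx => exact hst W hW i x hx
      | zero => rw [map_zero]; exact Submodule.zero_mem _
      | add x y _ _ h h' => rw [map_add]; exact Submodule.add_mem _ h h'
      | smul a x _ h =>
        rw [Algebra.smul_def]
        change D i ((a : K) * x) ∈ _
        rw [der_smul (hs.killsF i) a.2]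
        exact Submodule.smul_mem _ a h) (by
      intro x hx
      induction hx using Submodule.span_induction with
      | mem x hx => exact hnil W hW x hx
      | zero => exact nilp_zero
      | add x y _ _ h h' => exact h.add h'
      | smul a x _ h =>
        rw [Algebra.smul_def]
        change Nilp D ((a : K) * x)
        obtain ⟨m, hm⟩ := h
        exact ⟨m, kil_smul hs.killsF a.2 m x hm⟩) hinf
      ⟨c, hcf.subset (by
        rintro v ⟨hv, hvc⟩
        exact ⟨hv.1, hvc⟩), fun v hv x hx => og_span hv.2.1 (hc v hv.1 hv.2.1) x hx⟩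
    have htall : ∀ v ∈ Pl, Triv F v → v.Reg t := by
      intro v hv hvF
      by_cases hlog : ∀ i, DerLog v (D i)
      · exact htv v ⟨hv, hvF, hlog⟩
      · push Not at hlog
        obtain ⟨i, hi⟩ := hlog
        refine nonlog_reg (hreg v hv hvF i) hi (n := 2) ?_
        change D i (D i t) = 0
        exact hs.killsF i _ (htD i)
    have htA : t ∈ 𝔸 := hcl F le_rfl hF t htall
    by_cases htF' : t ∈ F'
    · -- the base is swallowed
      rcases hbase with ⟨h, -⟩ | ⟨⟨s, hR⟩, he⟩
      · exact absurd (h ▸ htF') htF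
      have hF'A : F' ≤ 𝔸 := hR.le_of_mem h𝔸 hF htF' htF htA
      have htr : ∀ v : Place k K, Triv F' v → Triv F v := fun v hv f hf => hv f (hs.le hf)
      obtain ⟨F₁, h1, h2, h3⟩ := ih (n - 1) (by omega) F' F' D 0
        ⟨le_rfl, hs.kills, hs.sys.comm, hs.const, hs.frac⟩ (Or.inl ⟨rfl, rfl⟩) hF'A
        (fun W hW i x hx => span_le_span hs.le _ (hst W hW i x hx)) hnil
        (fun v hv hvF => hreg v hv (htr v hvF)) (fun W hW => by
          obtain ⟨c, hcf, hc⟩ := hbd W hW
          exact ⟨c, hcf, fun v hv hvF => hc v hv (htr v hvF)⟩)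
        (fun F₁ h4 => hcl F₁ (hs.le.trans h4)) (by omega)
      exact ⟨F₁, hs.le.trans h1, h2, h3⟩
    · obtain ⟨D', hs', hcomb, hz, i1, hi1, hi1'⟩ := next2 hs htF' htD
      obtain ⟨G, hG⟩ : ∃ G, G = IntermediateField.adjoin k ((F : Set K) ∪ {t}) := ⟨_, rfl⟩
      obtain ⟨G', hG'⟩ : ∃ G', G' = IntermediateField.adjoin k ((F' : Set K) ∪ {t}) := ⟨_, rfl⟩
      have hbase' : G = G' ∧ e = 0 ∨ (∃ s, RatBase G G' s) ∧ e = 1 := by
        rcases hbase with ⟨h, he⟩ | ⟨⟨s, hR⟩, he⟩
        · left
          exact ⟨by rw [hG, hG', h], he⟩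
        · right
          obtain ⟨i0, hi0⟩ : ∃ i, D i t ≠ 0 := by
            by_contra hcon
            push Not at hcon
            exact htF' (hs.const t hcon)
          refine ⟨⟨s, ?_⟩, he⟩
          rw [hG, hG']
          exact hR.next (hs.kills i0) hi0
      rw [← hG, ← hG'] at hs'
      have hFG : F ≤ G := by
        rw [hG]
        exact fun x hx => IntermediateField.subset_adjoin k _ (Or.inl hx)
      have hGA : G ≤ 𝔸 := by
        rw [hG, IntermediateField.adjoin_le_iff]
        rintro x (hx | hx)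
        · exact hF hx
        · rw [Set.mem_singleton_iff] at hx
          rw [hx]
          exact htA
      have hlt : {i | D' i ≠ 0}.ncard < {i | D i ≠ 0}.ncard := by
        refine Set.ncard_lt_ncard ⟨fun i hi h => hi (hz i h), fun h => ?_⟩ (Set.toFinite _)
        exact h hi1 hi1'
      have htr : ∀ v : Place k K, Triv G v → Triv F v := fun v hv f hf => hv f (hFG hf)
      obtain ⟨F₁, h1, h2, h3⟩ := ih _ (by omega) G G' D' e hs' hbase' hGA (by
        intro W hW i x hx
        obtain ⟨c, hc, hcx⟩ := hcomb i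
        rw [hcx]
        refine Submodule.sum_mem _ fun l _ => ?_
        have h4 : c l * D l x = (⟨c l, hFG (hc l)⟩ : G) • D l x := rfl
        rw [h4]
        exact Submodule.smul_mem _ _ (span_le_span hFG _ (hst W hW l x hx)))
        (by
          intro W hW x hx
          obtain ⟨m, hm⟩ := hnil W hW x hx
          exact ⟨m, kil_of_comb hs.killsF hcomb m x hm⟩)
        (by
          intro v hv hvG i f hf
          obtain ⟨c, hc, hcx⟩ := hcomb i
          rw [hcx]
          change Og v 0 _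
          refine og_sum _ fun l _ => ?_
          have h4 : Og v 0 (c l) := (htr v hvG).og ⟨c l, hc l⟩
          have h5 : Og v 0 (D l f) := hreg v hv (htr v hvG) l f hf
          have h6 := h4.mul h5
          rwa [zero_add] at h6)
        (fun W hW => by
          obtain ⟨c, hcf, hc⟩ := hbd W hW
          exact ⟨c, hcf, fun v hv hvF => hc v hv (htr v hvF)⟩)
        (fun F₁ h4 => hcl F₁ (hFG.trans h4)) rfl
      exact ⟨F₁, hFG.trans h1, h2, h3⟩

end

end Pool.Agent.H892
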