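import Pool.Agent.H892.B7
import Pool.Agent.H892.C6

/-!
Varieties whose generic fibre over a base has an action of a nilpotent Lie algebra with a rational
quotient of dimension at most one: moving divisors, and growth of the sections.
-/

set_option autoImplicit false
set_option linter.unusedSectionVars false
set_option linter.overlappingInstances false

open FF Pool.Agent.W602.GT Pool.Agent.W603.LV Pool.Agent.Y172 Pool.Agent.TH122.AB Pool.Agent.NH31

namespace Pool.Agent.H892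

section

variable {k K ι : Type} [Field k] [CharZero k] [Field K] [Algebra k K] [Fintype ι]
  {F F' : IntermediateField k K} {D : ι → Derivation k K K} {w : ι → ℕ}

/-- the elements of a finite dimensional invariant space are nilpotent -/
theorem fd_nilp2 (hs : NilSys2 F F' D w) (V : Submodule F K) (hV : FiniteDimensional F V)
    (hst : ∀ i, ∀ x ∈ V, D i x ∈ V) : ∀ x ∈ V, Nilp D x := by
  classical
  obtain ⟨S, hS⟩ : ∃ S : Set K, ∀ s, s ∈ S ↔ Nilp D s ∧ ∀ v ∈ V, Nilp D (s * v) :=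
    ⟨{s | _}, fun _ => Iff.rfl⟩
  have hNc : ∀ c ∈ F', ∀ s, Nilp D s → Nilp D (c * s) := fun c hc s ⟨n, hn⟩ =>
    ⟨n, kil_smul hs.kills hc n s hn⟩
  have hSst : ∀ i, ∀ s ∈ S, D i s ∈ S := by
    intro i s hs'
    rw [hS] at hs' ⊢
    refine ⟨hs'.1.der i, fun v hv => ?_⟩
    have h1 : D i s * v = D i (s * v) + -(s * D i v) := by
      rw [(D i).leibniz, smul_eq_mul, smul_eq_mul]
      ring
    rw [h1]
    exact ((hs'.2 v hv).der i).add (hs'.2 _ (hst i v hv)).neg
  -- a common denominator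
  obtain ⟨T, hT⟩ : V.FG := Module.Finite.iff_fg.1 hV
  choose a b ha hb hb0 hab using fun x => hs.frac x
  obtain ⟨q, hq0, hqN, hqT⟩ : ∃ q : K, q ≠ 0 ∧ Nilp D q ∧ ∀ t ∈ T, Nilp D (q * t) := by
    refine ⟨∏ t ∈ T, b t, Finset.prod_ne_zero_iff.2 fun t _ => hb0 t,
      (nilRing D).prod_mem fun t _ => hb t, fun t ht => ?_⟩
    rw [← Finset.mul_prod_erase T b ht]
    have h1 : b t * (∏ x ∈ T.erase t, b x) * t = (∏ x ∈ T.erase t, b x) * a t := by
      have h3 : t * b t = a t := (eq_div_iff (hb0 t)).1 (hab t)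
      rw [← h3]
      ring
    rw [h1]
    exact ((nilRing D).prod_mem fun t _ => hb t).mul (ha t)
  have hqS : q ∈ S := by
    rw [hS]
    refine ⟨hqN, fun v hv => ?_⟩
    rw [← hT] at hv
    induction hv using Submodule.span_induction with
    | mem v hv => exact hqT v hv
    | zero => rw [mul_zero]; exact nilp_zero
    | add u v _ _ h h' => rw [mul_add]; exact h.add h'
    | smul c v _ h =>
      rw [Algebra.smul_def]
      change Nilp D (q * ((c : K) * v))
      have h1 : q * ((c : K) * v) = (c : K) * (q * v) := by ring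
      rw [h1]
      exact hNc _ (hs.le c.2) _ h
  obtain ⟨nq, hnq⟩ := hqN
  obtain ⟨c, hcS, hc0, hcD⟩ := exists_last (D := D) S hSst nq q hqS hq0 hnq
  have hcF := hs.const c hcD
  rw [hS] at hcS
  intro x hx
  have h1 := hNc c⁻¹ (F'.inv_mem hcF) _ (hcS.2 x hx)
  rwa [inv_mul_cancel_left₀ hc0] at h1

end

section

variable {K ι : Type} [Field K] [Algebra ℂ K] [Fintype ι] {N n d : ℕ} {y : Fin (N + 1) → K}
  {F F' : IntermediateField ℂ K} {D : ι → Derivation ℂ K K} {w : ι → ℕ} {x : Fin d → K}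

/-- the data of the action on the generic fibre -/
structure UniData2 (y : Fin (N + 1) → K) (F F' : IntermediateField ℂ K)
    (D : ι → Derivation ℂ K K) (w : ι → ℕ) (x : Fin d → K) : Prop where
  sys : NilSys2 F F' D w
  base : F = F' ∨ ∃ s, RatBase F F' s
  gens : Gens (k := F') x
  poly : ∀ i (q : MvPolynomial (Fin d) F'), ∃ q' : MvPolynomial (Fin d) F',
    D i (MvPolynomial.aeval x q) = MvPolynomial.aeval x q'
  nilp : ∀ q : MvPolynomial (Fin d) F', Nilp D (MvPolynomial.aeval x q)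
  reg : ∀ P, IsPrimeDivisor y P → Horizontal F P → ∀ i, DerReg P (D i)
  proper : FibreProper y F

/-- **Moving.** There are polynomials with given orders at the prime divisors which are not
stable. -/
theorem exists_move2 (h : UniData2 y F F' D w x) {c : Place ℂ K → ℕ}
    (hc : {P | IsPrimeDivisor y P ∧ c P ≠ 0}.Finite) :
    ∃ g : MvPolynomial (Fin d) F', g ≠ 0 ∧ ∀ P, IsPrimeDivisor y P → Horizontal F P →
      ¬ Stab D P → P.ord (MvPolynomial.aeval x g) = c P := by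
  classical
  have hex : ∀ P : Place ℂ K, ∃ p : MvPolynomial (Fin d) F', p ≠ 0 ∧ (IsPrimeDivisor y P →
      Horizontal F P → ¬ Stab D P → Irreducible p ∧ P.ord (MvPolynomial.aeval x p) = 1 ∧
        Adic P x p) := by
    intro P
    by_cases hP : IsPrimeDivisor y P ∧ Horizontal F P ∧ ¬ Stab D P
    · obtain ⟨hP1, hP2, hP3⟩ := hP
      unfold Stab at hP3
      push Not at hP3
      obtain ⟨i, hi⟩ := hP3
      obtain ⟨p, hp, hp1, hpa⟩ := exists_adic_of_nonlog h.gens (h.poly i) (fun q => by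
        obtain ⟨m, hm⟩ := h.nilp q
        exact ⟨m, kil_iter m _ hm⟩) (h.reg P hP1 hP2 i) hi
      exact ⟨p, hp.ne_zero, fun _ _ _ => ⟨hp, hp1, hpa⟩⟩
    · exact ⟨1, one_ne_zero, fun h1 h2 h3 => absurd ⟨h1, h2, h3⟩ hP⟩
  choose p hp0 hp using hex
  have hT : {P | IsPrimeDivisor y P ∧ Horizontal F P ∧ ¬ Stab D P ∧ c P ≠ 0}.Finite :=
    hc.subset fun P hP => ⟨hP.1, hP.2.2.2⟩
  have hne : ∀ P, MvPolynomial.aeval x (p P) ≠ 0 := fun P => h.gens.ne (hp0 P)
  have hoff : ∀ P P', IsPrimeDivisor y P → Horizontal F P → ¬ Stab D P →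
      IsPrimeDivisor y P' → Horizontal F P' → ¬ Stab D P' → P ≠ P' →
      P'.ord (MvPolynomial.aeval x (p P)) = 0 := by
    intro P P' h1 h2 h3 h1' h2' h3' hPP'
    obtain ⟨hi, ho, ha⟩ := hp P h1 h2 h3
    obtain ⟨hi', ho', ha'⟩ := hp P' h1' h2' h3'
    rw [((ha' _ (hp0 P)).2)]
    intro hdvd
    apply hPP'
    have hass : Associated (p P') (p P) := hi'.associated_of_dvd hi hdvd
    have hdvd' : p P ∣ p P' := hass.symm.dvd
    have ha2 : Adic P x (p P') := by
      intro Q hQ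
      refine ⟨(ha Q hQ).1, ?_⟩
      rw [(ha Q hQ).2]
      exact not_congr ⟨fun h => hdvd.trans h, fun h => hdvd'.trans h⟩
    have ho2 : P.ord (MvPolynomial.aeval x (p P')) = 1 := by
      obtain ⟨r, hr⟩ := hdvd
      have hr0 : r ≠ 0 := by
        rintro rfl
        rw [mul_zero] at hr
        exact hp0 P hr
      have h4 := (ha2 r hr0).1
      have h5 : P.ord (MvPolynomial.aeval x (p P')) ≠ 0 := by
        intro h0
        exact ((ha2 _ (hp0 P')).2.1 h0) dvd_rfl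
      have h6 := (ha2 _ (hp0 P')).1
      have h7 := ho
      rw [hr, map_mul, P.ord_mul (hne P') (h.gens.ne hr0)] at h7
      omega
    exact adic_eq h.gens hi' ho2 ha2 ho' ha'
  refine ⟨∏ P ∈ hT.toFinset, p P ^ c P, Finset.prod_ne_zero_iff.2 fun P _ =>
    pow_ne_zero _ (hp0 P), fun P' h1 h2 h3 => ?_⟩
  rw [map_prod, Pool.Agent.W619.PQ.ord_prod _ P' _ fun P _ => by
    rw [map_pow]
    exact pow_ne_zero _ (hne P)]
  have hterm : ∀ P ∈ hT.toFinset, P ≠ P' → P'.ord (MvPolynomial.aeval x (p P ^ c P)) = 0 := by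
    intro P hP hPP'
    rw [Set.Finite.mem_toFinset] at hP
    rw [map_pow, P'.ord_pow, hoff P P' hP.1 hP.2.1 hP.2.2.1 h1 h2 h3 hPP', mul_zero]
  by_cases hP' : P' ∈ hT.toFinset
  · rw [Finset.sum_eq_single P' (fun P hP hne' => hterm P hP hne') fun h4 => absurd hP' h4,
      map_pow, P'.ord_pow, (hp P' h1 h2 h3).2.1, mul_one]
  · rw [Finset.sum_eq_zero fun P hP => hterm P hP fun h4 => hP' (h4 ▸ hP)]
    rw [Set.Finite.mem_toFinset] at hP'
    by_contra hne'
    exact hP' ⟨h1, h2, h3, fun h4 => hne' (by rw [h4]; rfl)⟩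

/-- an effective divisor on the generic fibre is linearly equivalent to an effective divisor which
is supported on stable primes -/
theorem move_effective2 (h : UniData2 y F F' D w x) {A : Place ℂ K → ℤ}
    (hA : {P | IsPrimeDivisor y P ∧ A P ≠ 0}.Finite)
    (hA0 : ∀ P, IsPrimeDivisor y P → Horizontal F P → 0 ≤ A P) :
    ∃ g : K, g ≠ 0 ∧
      (∀ P, IsPrimeDivisor y P → Horizontal F P → ¬ Stab D P → A P - P.ord g = 0) ∧
      ∀ P, IsPrimeDivisor y P → Horizontal F P → 0 ≤ A P - P.ord g := by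
  obtain ⟨G, hG0, hG⟩ := exists_move2 h (c := fun P => (A P).toNat) (hA.subset (by
    rintro P ⟨hP, hne⟩
    exact ⟨hP, fun h0 => hne (by rw [h0]; rfl)⟩))
  obtain ⟨g, hg⟩ : ∃ g, g = MvPolynomial.aeval x G := ⟨_, rfl⟩
  have hg0 : g ≠ 0 := hg ▸ h.gens.ne hG0
  have hgN : Nilp D g := hg ▸ h.nilp G
  rw [← hg] at hG
  have h1 : ∀ P, IsPrimeDivisor y P → Horizontal F P → ¬ Stab D P → A P - P.ord g = 0 := by
    intro P hP hPF hst
    rw [hG P hP hPF hst, Int.toNat_of_nonneg (hA0 P hP hPF), sub_self]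
  obtain ⟨n, hn⟩ := hgN
  obtain ⟨c, hcS, hc0, hcD⟩ := exists_last (D := D) (LF y F fun P => A P - P.ord g)
    (fun i f hf => LF_stable h.reg h1 i hf) n g (fun P hP hPF => by
      right
      have := hA0 P hP hPF
      change -(A P - P.ord g) ≤ P.ord g
      omega) hg0 hn
  refine ⟨g / c, div_ne_zero hg0 hc0, fun P hP hPF hst => ?_, fun P hP hPF => ?_⟩
  · unfold Stab at hst
    have hst' := hst
    push Not at hst
    obtain ⟨i, hi⟩ := hst
    rw [P.ord_div hg0 hc0, nonlog_const (h.reg P hP hPF i) hi (hcD i), sub_zero]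
    exact h1 P hP hPF hst'
  · have h2 : -(A P - P.ord g) ≤ P.ord c := (hcS P hP hPF).resolve_left hc0
    rw [P.ord_div hg0 hc0]
    omega

/-- **Growth of the sections.** -/
theorem uni_growth2 (hy : NormalModel y) (h : UniData2 y F F' D w x)
    {U : Place ℂ K → ℚ} (hU : FinSup y U) {a : ℕ} (ha : 1 ≤ a) {σ : K} (hσ : Fn y (a • U) σ)
    (hσ0 : σ ≠ 0) (hF : ∀ x ∈ F, IsAlgebraic (IntermediateField.adjoin ℂ (rat y U)) x) :
    ∃ (κ m0 : ℕ) (g : Fin (κ + 1) → K), 1 ≤ m0 ∧ (∀ j, Fn y (m0 • U) (g j)) ∧ g 0 ≠ 0 ∧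
      AlgebraicIndependent ℂ (fun i : Fin κ => g i.succ / g 0) ∧
      ∀ A, FinSup y A → ∃ C : ℕ, ∀ m : ℕ, 1 ≤ m → ∀ (r : ℕ) (f : Fin r → K),
        LinearIndependent ℂ f → (∀ i, Fn y (m • U + A) (f i)) → r ≤ C * m ^ κ := by
  classical
  have hess := hy.ess
  obtain ⟨d0, hd0, hden⟩ := exists_den_fin hU
  obtain ⟨N1, hN1def⟩ : ∃ N1, N1 = a * d0 := ⟨_, rfl⟩
  have hN1 : 1 ≤ N1 := by
    rw [hN1def]
    exact Nat.succ_le_of_lt (Nat.mul_pos (by omega) (by omega))
  obtain ⟨h₀, hh₀⟩ : ∃ h₀, h₀ = σ ^ d0 := ⟨_, rfl⟩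
  have hh₀0 : h₀ ≠ 0 := by
    rw [hh₀]
    exact pow_ne_zero _ hσ0
  have hh₀U : Fn y (N1 • U) h₀ := by
    rw [hh₀, hN1def, mul_comm a d0, mul_smul]
    exact hσ.pow d0
  -- the integral divisor
  obtain ⟨A0, hA0def⟩ : ∃ D : Place ℂ K → ℤ, D = fun P => ⌊(P.ord h₀ : ℚ) + N1 * U P⌋ := ⟨_, rfl⟩
  have hDeq : ∀ P, IsPrimeDivisor y P → (A0 P : ℚ) = P.ord h₀ + N1 * U P := by
    intro P hP
    obtain ⟨z, hz⟩ := hden P hP
    have h1 : (P.ord h₀ : ℚ) + N1 * U P = ((P.ord h₀ + a * z : ℤ) : ℚ) := by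
      rw [hN1def]
      push_cast
      rw [← hz]
      ring
    rw [hA0def]
    change ((⌊(P.ord h₀ : ℚ) + N1 * U P⌋ : ℤ) : ℚ) = _
    rw [h1, Int.floor_intCast]
  have hD0 : ∀ P, IsPrimeDivisor y P → 0 ≤ A0 P := by
    intro P hP
    have h1 := (hh₀U P hP).resolve_left hh₀0
    rw [smul_ap] at h1
    have h2 : (0 : ℚ) ≤ A0 P := by
      rw [hDeq P hP]
      linarith
    exact_mod_cast h2
  have hDfin : {P | IsPrimeDivisor y P ∧ A0 P ≠ 0}.Finite := by
    refine (hU.union (finite_ord hy hh₀0)).subset ?_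
    rintro P ⟨hP, hne⟩
    by_contra hcon
    rw [Set.mem_union] at hcon
    push Not at hcon
    have h1 : U P = 0 := by
      by_contra h3
      exact hcon.1 ⟨hP, h3⟩
    have h2 : P.ord h₀ = 0 := by
      by_contra h3
      exact hcon.2 ⟨hP, h3⟩
    have h3 := hDeq P hP
    rw [h1, h2, mul_zero, Int.cast_zero, add_zero] at h3
    exact hne (by exact_mod_cast h3)
  -- moving
  obtain ⟨g, hg0, hg1, hg2⟩ := move_effective2 h hDfin fun P hP _ => hD0 P hP
  obtain ⟨D1, hD1⟩ : ∃ D1 : Place ℂ K → ℤ, ∀ P, D1 P = A0 P - P.ord g := ⟨_, fun _ => rfl⟩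
  have hD1fin : {P | IsPrimeDivisor y P ∧ D1 P ≠ 0}.Finite := by
    refine (hDfin.union (finite_ord hy hg0)).subset ?_
    rintro P ⟨hP, hne⟩
    by_contra hcon
    rw [Set.mem_union] at hcon
    push Not at hcon
    have h1 : A0 P = 0 := by
      by_contra h3
      exact hcon.1 ⟨hP, h3⟩
    have h2 : P.ord g = 0 := by
      by_contra h3
      exact hcon.2 ⟨hP, h3⟩
    exact hne (by rw [hD1, h1, h2, sub_zero])
  have hD1s : ∀ P, IsPrimeDivisor y P → Horizontal F P → ¬ Stab D P → D1 P = 0 :=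
    fun P hP hPF hst => by rw [hD1]; exact hg1 P hP hPF hst
  have hD10 : ∀ P, IsPrimeDivisor y P → Horizontal F P → 0 ≤ D1 P :=
    fun P hP hPF => by rw [hD1]; exact hg2 P hP hPF
  -- the spaces
  obtain ⟨Wof, hWof⟩ : ∃ Wof : (Place ℂ K → ℤ) → Set K, ∀ A f, f ∈ Wof A ↔
      ∃ m : ℕ, f ∈ LF y F (m • D1 + A) := ⟨fun A => {f | _}, fun _ _ => Iff.rfl⟩
  obtain ⟨𝒲, h𝒲⟩ : ∃ 𝒲 : Set (Set K), ∀ W, W ∈ 𝒲 ↔ ∃ A : Place ℂ K → ℤ,
      {P | IsPrimeDivisor y P ∧ A P ≠ 0}.Finite ∧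
      (∀ P, IsPrimeDivisor y P → Horizontal F P → ¬ Stab D P → A P = 0) ∧ W = Wof A :=
    ⟨{W | _}, fun _ => Iff.rfl⟩
  have hLs : ∀ (A : Place ℂ K → ℤ),
      (∀ P, IsPrimeDivisor y P → Horizontal F P → ¬ Stab D P → A P = 0) → ∀ m : ℕ,
      ∀ P, IsPrimeDivisor y P → Horizontal F P → ¬ Stab D P → (m • D1 + A) P = 0 := by
    intro A hA m P hP hPF hst
    rw [Pi.add_apply, Pi.smul_apply, hD1s P hP hPF hst, hA P hP hPF hst, smul_zero, add_zero]
  have hLf : ∀ (A : Place ℂ K → ℤ), {P | IsPrimeDivisor y P ∧ A P ≠ 0}.Finite → ∀ m : ℕ,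
      {P | IsPrimeDivisor y P ∧ (m • D1 + A) P ≠ 0}.Finite := by
    intro A hA m
    refine (hD1fin.union hA).subset ?_
    rintro P ⟨hP, hne⟩
    by_contra hcon
    rw [Set.mem_union] at hcon
    push Not at hcon
    have h1 : D1 P = 0 := by
      by_contra h3
      exact hcon.1 ⟨hP, h3⟩
    have h2 : A P = 0 := by
      by_contra h3
      exact hcon.2 ⟨hP, h3⟩
    exact hne (by rw [Pi.add_apply, Pi.smul_apply, h1, h2, smul_zero, add_zero])
  obtain ⟨F₁, hFF₁, hF₁A, hfd⟩ := chain2 (w := w) (𝔸 := acl ℂ (rat y U)) (acl_closed _)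
    (Pl := {P | IsPrimeDivisor y P ∧ D1 P = 0}) (fun z hz => (finite_ord hy hz).subset (by
      rintro P ⟨⟨hP, -⟩, hPz⟩
      exact ⟨hP, hPz⟩)) 𝒲 _ F F' D (if F = F' then 0 else 1) h.sys
    (by
      by_cases hFF : F = F'
      · exact Or.inl ⟨hFF, if_pos hFF⟩
      · exact Or.inr ⟨h.base.resolve_left hFF, if_neg hFF⟩)
    (fun z hz => mem_acl.2 (hF z hz))
    (by
      intro W hW i z hz
      obtain ⟨A, -, hA, rfl⟩ := (h𝒲 W).1 hW
      obtain ⟨m, hm⟩ := (hWof A z).1 hz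
      exact Submodule.subset_span ((hWof A _).2 ⟨m, LF_stable h.reg (hLs A hA m) i hm⟩))
    (by
      intro W hW z hz
      obtain ⟨A, hAf, hA, rfl⟩ := (h𝒲 W).1 hW
      obtain ⟨m, hm⟩ := (hWof A z).1 hz
      exact fd_nilp2 h.sys _ (LF_finite hy h.proper (hLf A hAf m))
        (fun i z hz => LF_stable h.reg (hLs A hA m) i hz) z hm)
    (fun P hP hPF => h.reg P hP.1 hPF)
    (by
      intro W hW
      obtain ⟨A, hAf, hA, rfl⟩ := (h𝒲 W).1 hW
      refine ⟨fun P => (A P).natAbs, hAf.subset (by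
        rintro P ⟨⟨hP, -⟩, hPA⟩
        exact ⟨hP, fun h0 => hPA (Int.natAbs_eq_zero.2 h0)⟩), fun P hP hPF z hz => ?_⟩
      obtain ⟨m, hm⟩ := (hWof A z).1 hz
      have h1 := hm P hP.1 hPF
      rw [Pi.add_apply, Pi.smul_apply, hP.2, smul_zero, zero_add] at h1
      refine h1.mono ?_
      have h2 := abs_le.1 (le_of_eq (Int.abs_eq_natAbs (A P)))
      change -((A P).natAbs : ℤ) ≤ -(A P)
      omega)
    (by
      intro F₁ hFF₁ hF₁A t ht
      by_cases ht0 : t = 0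
      · rw [ht0]
        exact zero_mem _
      have htr : ∀ P, IsPrimeDivisor y P → Horizontal F₁ P → D1 P = 0 → 0 ≤ P.ord t := by
        intro P hP hPF hD
        exact (P.reg_iff ht0).1 (ht P ⟨hP, hD⟩ hPF)
      have hfin := finite_ord hy ht0
      obtain ⟨M, hM⟩ : ∃ M : ℕ, M = ∑ P ∈ hfin.toFinset, (P.ord t).natAbs := ⟨_, rfl⟩
      have hMt : ∀ P, IsPrimeDivisor y P → Horizontal F₁ P → -(M * D1 P : ℤ) ≤ P.ord t := by
        intro P hP hPF
        by_cases hD : D1 P = 0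
        · rw [hD, mul_zero, neg_zero]
          exact htr P hP hPF hD
        · have h1 := hD10 P hP fun f hf => hPF f (hFF₁ hf)
          have h2 : 1 ≤ D1 P := by omega
          by_cases h3 : P.ord t = 0
          · rw [h3]
            have : (0 : ℤ) ≤ M * D1 P := mul_nonneg (Int.natCast_nonneg _) h1
            omega
          · have h4 : (P.ord t).natAbs ≤ M := by
              rw [hM]
              exact Finset.single_le_sum (f := fun P : Place ℂ K => (P.ord t).natAbs)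
                (fun _ _ => Nat.zero_le _) ((Set.Finite.mem_toFinset _).2 ⟨hP, h3⟩)
            have h5 : (M : ℤ) ≤ M * D1 P := by nlinarith [Int.natCast_nonneg M]
            omega
      obtain ⟨ρ, hρ⟩ : ∃ ρ, ρ = (h₀ / g) ^ M := ⟨_, rfl⟩
      have hρ0 : ρ ≠ 0 := by
        rw [hρ]
        exact pow_ne_zero _ (div_ne_zero hh₀0 hg0)
      have hρo : ∀ P, IsPrimeDivisor y P → (P.ord ρ : ℚ) = M * D1 P - M * N1 * U P := by
        intro P hP
        rw [hρ, P.ord_pow, P.ord_div hh₀0 hg0, hD1]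
        have h1 := hDeq P hP
        push_cast
        rw [h1]
        ring
      have h1 : Fh y F₁ ((M * N1) • U) ρ := by
        intro P hP hPF
        right
        rw [hρo P hP, smul_ap]
        have h2 : (0 : ℚ) ≤ D1 P := by exact_mod_cast hD10 P hP fun f hf => hPF f (hFF₁ hf)
        have h3 : (0 : ℚ) ≤ M * D1 P := mul_nonneg (Nat.cast_nonneg _) h2
        push_cast
        linarith
      have h2 : Fh y F₁ ((M * N1) • U) (t * ρ) := by
        intro P hP hPF
        right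
        rw [P.ord_mul ht0 hρ0, smul_ap]
        have h3 : (-(M * D1 P : ℤ) : ℚ) ≤ P.ord t := by exact_mod_cast hMt P hP hPF
        have h4 := hρo P hP
        push_cast at h3 h4 ⊢
        linarith
      have h3 := ratio_mem hy hU ha hσ hσ0 (fun z hz => mem_acl.1 (hF₁A hz)) h2 h1
        (mul_ne_zero ht0 hρ0) hρ0
      rwa [mul_div_cancel_right₀ _ hρ0] at h3)
    rfl
  -- the lower bound
  have hessF : Algebra.EssFiniteType F₁ K := Algebra.EssFiniteType.of_comp ℂ F₁ K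
  obtain ⟨b, u, hu⟩ := exists_tb_sub F₁
  obtain ⟨l, v, hv⟩ := exists_tb F₁ K
  have hF₁'' : ∀ x ∈ F₁, IsAlgebraic (IntermediateField.adjoin ℂ (rat y U)) x :=
    fun z hz => mem_acl.1 (hF₁A hz)
  have hui : AlgebraicIndependent ℂ fun i => (u i : K) :=
    hu.1.map' (f := IsScalarTower.toAlgHom ℂ F₁ K) (algebraMap F₁ K).injective
  obtain ⟨m0, G, hm0, hG, hG0, hGi⟩ := fh_lower hy hU (fun _ _ => le_rfl) ha hσ hσ0 hF₁''
    (z := fun i => (u i : K)) hui (m := fun _ => a) (f := fun i => (u i : K) * σ)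
    (g := fun _ => σ) (fun i => by
      intro P hP hPF
      by_cases hx0 : (u i : K) = 0
      · left
        rw [hx0, zero_mul]
      · right
        rw [P.ord_mul hx0 hσ0, hPF _ (u i).2 hx0, zero_add]
        exact (hσ P hP).resolve_left hσ0) (fun i P hP _ => hσ P hP) (fun _ => hσ0)
    (fun i => by rw [mul_div_assoc, div_self hσ0, mul_one])
  refine ⟨b, m0, G, hm0, hG, hG0, hGi, ?_⟩
  -- the upper bound
  intro A hA
  obtain ⟨A2, hA2⟩ : ∃ A2 : Place ℂ K → ℕ, ∀ P, A2 P = N1 * bnd U P + bnd A P :=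
    ⟨_, fun _ => rfl⟩
  have hA2fin : {P | IsPrimeDivisor y P ∧ A2 P ≠ 0}.Finite := by
    refine ((bnd_sup hU).union (bnd_sup hA)).subset ?_
    rintro P ⟨hP, hne⟩
    by_contra hcon
    rw [Set.mem_union] at hcon
    push Not at hcon
    have h1 : bnd U P = 0 := by
      by_contra h3
      exact hcon.1 ⟨hP, h3⟩
    have h2 : bnd A P = 0 := by
      by_contra h3
      exact hcon.2 ⟨hP, h3⟩
    exact hne (by rw [hA2, h1, h2, mul_zero])
  obtain ⟨Q, hQ0, hQ⟩ := exists_move2 h hA2fin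
  obtain ⟨q, hq⟩ : ∃ q, q = MvPolynomial.aeval x Q := ⟨_, rfl⟩
  have hq0 : q ≠ 0 := hq ▸ h.gens.ne hQ0
  rw [← hq] at hQ
  obtain ⟨A3, hA3⟩ : ∃ A3 : Place ℂ K → ℤ, ∀ P, A3 P = A2 P - P.ord q := ⟨_, fun _ => rfl⟩
  have hA3s : ∀ P, IsPrimeDivisor y P → Horizontal F P → ¬ Stab D P → A3 P = 0 := by
    intro P hP hPF hst
    rw [hA3, hQ P hP hPF hst, sub_self]
  have hA3fin : {P | IsPrimeDivisor y P ∧ A3 P ≠ 0}.Finite := by
    refine (hA2fin.union (finite_ord hy hq0)).subset ?_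
    rintro P ⟨hP, hne⟩
    by_contra hcon
    rw [Set.mem_union] at hcon
    push Not at hcon
    have h1 : A2 P = 0 := by
      by_contra h3
      exact hcon.1 ⟨hP, h3⟩
    have h2 : P.ord q = 0 := by
      by_contra h3
      exact hcon.2 ⟨hP, h3⟩
    exact hne (by rw [hA3, h1, h2, Nat.cast_zero, sub_zero])
  have hW3 : Wof A3 ∈ 𝒲 := (h𝒲 _).2 ⟨A3, hA3fin, hA3s, rfl⟩
  have hfd3 := hfd _ hW3
  obtain ⟨C, hC⟩ : ∃ C, C = Module.finrank F₁ (Submodule.span F₁ (Wof A3)) := ⟨_, rfl⟩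
  obtain ⟨C', hC'⟩ := fn_rank_growth hy hu hv hU hA (fun _ => C) (by
    intro m hm r f hf hfm
    obtain ⟨s, hs⟩ : ∃ s : K, s = (h₀ ^ (m / N1))⁻¹ * g ^ (m / N1 + 1) * q := ⟨_, rfl⟩
    have hs0 : s ≠ 0 := by
      rw [hs]
      exact mul_ne_zero (mul_ne_zero (inv_ne_zero (pow_ne_zero _ hh₀0)) (pow_ne_zero _ hg0)) hq0
    have h1 : LinearIndependent F₁ fun i => f i * s := by
      have h2 := hf.map' (LinearMap.mulRight F₁ s) (LinearMap.ker_eq_bot.2
        (mul_left_injective₀ hs0))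
      exact h2
    have h2 : ∀ i, f i * s ∈ Submodule.span F₁ (Wof A3) := by
      intro i
      refine Submodule.subset_span ((hWof A3 _).2 ⟨m / N1 + 1, fun P hP hPF => ?_⟩)
      by_cases hf0 : f i = 0
      · left
        rw [hf0, zero_mul]
      right
      have h2 := (hfm i P hP).resolve_left hf0
      rw [Pi.add_apply, smul_ap] at h2
      have h3 := hDeq P hP
      have h4 : (0 : ℚ) ≤ A0 P := by exact_mod_cast hD0 P hP
      have h5 := le_bnd U P
      have h6 := le_bnd A P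
      obtain ⟨e, he⟩ : ∃ e, e = m / N1 := ⟨_, rfl⟩
      obtain ⟨ρ, hρ⟩ : ∃ ρ, ρ = m % N1 := ⟨_, rfl⟩
      rw [← he] at hs ⊢
      have h7 : (m : ℚ) = N1 * e + ρ := by
        rw [he, hρ]
        exact_mod_cast (Nat.div_add_mod m N1).symm
      have h8 : (ρ : ℚ) ≤ N1 := by
        rw [hρ]
        exact_mod_cast (Nat.mod_lt m (by omega)).le
      have h9 : (0 : ℚ) ≤ ρ := Nat.cast_nonneg _
      have h10 : (0 : ℚ) ≤ bnd U P := Nat.cast_nonneg _
      have h11 : (ρ : ℚ) * U P ≤ N1 * bnd U P :=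
        (mul_le_mul_of_nonneg_left h5 h9).trans (mul_le_mul_of_nonneg_right h8 h10)
      have h12 : P.ord (f i * s) = P.ord (f i) - e * P.ord h₀ + (e + 1) * P.ord g + P.ord q := by
        rw [hs, P.ord_mul hf0 (mul_ne_zero (mul_ne_zero (inv_ne_zero (pow_ne_zero _ hh₀0))
          (pow_ne_zero _ hg0)) hq0), P.ord_mul (mul_ne_zero (inv_ne_zero (pow_ne_zero _ hh₀0))
          (pow_ne_zero _ hg0)) hq0, P.ord_mul (inv_ne_zero (pow_ne_zero _ hh₀0))
          (pow_ne_zero _ hg0), P.ord_inv, P.ord_pow, P.ord_pow]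
        push_cast
        ring
      have h13 : (-((((e + 1) • D1 + A3) P : ℤ) : ℚ)) ≤ ((P.ord (f i * s) : ℤ) : ℚ) := by
        rw [h12, Pi.add_apply, Pi.smul_apply, nsmul_eq_mul, hA3, hD1, hA2]
        push_cast
        have h14 : (P.ord h₀ : ℚ) = A0 P - N1 * U P := by linarith
        rw [h14]
        rw [h7] at h2
        linarith
      exact_mod_cast h13
    have h3 : LinearIndependent F₁ fun i => (⟨f i * s, h2 i⟩ :
        Submodule.span F₁ (Wof A3)) := by
      refine LinearIndependent.of_comp (Submodule.span F₁ (Wof A3)).subtype ?_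
      exact h1
    have h4 := h3.fintype_card_le_finrank
    rwa [Fintype.card_fin, ← hC] at h4)
  exact ⟨C' * C, hC'⟩

end

end Pool.Agent.H892
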