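import Pool.Agent.H892.B8
import Pool.Agent.H892.C7

/-!
Finite dimensional Lie algebras of triangular vector fields with a rational quotient of dimension at
most one.
-/

set_option autoImplicit false
set_option linter.unusedSectionVars false
set_option linter.overlappingInstances false

open FF Pool.Agent.W602.GT Pool.Agent.W603.LV Pool.Agent.Y172 Pool.Agent.TH122.AB Pool.Agent.NH31

namespace Pool.Agent.H892

section

variable {K : Type} [Field K] [Algebra ℂ K] {N : ℕ}

/-- The generic fibre, over the base with function field `F`, of the normal projective variety `X`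
with generic point `y` has an action of a unipotent Lie algebra with a rational quotient of dimension
at most one: there is a finite dimensional Lie algebra `𝔫` over `F` of derivations of `K` over `F`
such that
* the field `F'` of the functions which are killed by `𝔫` is `F` or a field `F(t)` of rational
  functions in one variable over `F`;
* `K` is generated over `F'` by algebraically independent functions `x 0, ..., x (d - 1)`, and `𝔫` is
  triangular: `D` maps `x i` to a polynomial over `F'` in the `x j` with `j < i`, for all `D` in `𝔫`;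
* `𝔫` is regular on the generic fibre of `X` (the prime divisors on the generic fibre are the
  horizontal prime divisors of `X`). -/
def UnipotentFibreOne (y : Fin (N + 1) → K) (F : IntermediateField ℂ K) : Prop :=
  ∃ (𝔫 : LieSubalgebra F (Derivation F K K)) (F' : IntermediateField ℂ K) (d : ℕ)
    (x : Fin d → K),
    FiniteDimensional F 𝔫 ∧ (∀ f : K, f ∈ F' ↔ ∀ D ∈ 𝔫, D f = 0) ∧
    (F' = F ∨ ∃ t : K, Transcendental F t ∧
      F' = IntermediateField.adjoin ℂ ((F : Set K) ∪ {t})) ∧
    AlgebraicIndependent F' x ∧ IntermediateField.adjoin F' (Set.range x) = ⊤ ∧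
    (∀ D ∈ 𝔫, ∀ i, D (x i) ∈ Algebra.adjoin F' (x '' {j | j < i})) ∧
    ∀ P, IsPrimeDivisor y P → Horizontal F P → ∀ D ∈ 𝔫, DerReg P (D.restrictScalars ℂ)

end

section

variable {k K ι ι' : Type} [Field k] [CharZero k] [Field K] [Algebra k K] [Fintype ι] [Fintype ι']
  {F F' : IntermediateField k K}

/-- rational function fields in one variable -/
theorem ratBase_adjoin {t : K} (ht : Transcendental F t) :
    RatBase F (IntermediateField.adjoin k ((F : Set K) ∪ {t})) t := by
  classical
  obtain ⟨G, hG⟩ : ∃ G, G = IntermediateField.adjoin k ((F : Set K) ∪ {t}) := ⟨_, rfl⟩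
  rw [← hG]
  have hFG : F ≤ G := by
    rw [hG]
    exact fun x hx => IntermediateField.subset_adjoin k _ (Or.inl hx)
  have htG : t ∈ G := by
    rw [hG]
    exact IntermediateField.subset_adjoin k _ (Or.inr rfl)
  refine ⟨hFG, htG, fun p hp h0 => ht ⟨p, hp, h0⟩, fun f hf => ?_⟩
  have h1 : G ≤ (IntermediateField.adjoin F {t}).restrictScalars k := by
    rw [hG, IntermediateField.adjoin_le_iff]
    rintro z (hz | hz)
    · exact (IntermediateField.adjoin F {t}).algebraMap_mem ⟨z, hz⟩
    · rw [Set.mem_singleton_iff] at hz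
      rw [hz]
      exact IntermediateField.mem_adjoin_simple_self F t
  have h2 : f ∈ IntermediateField.adjoin F {t} := h1 hf
  rw [IntermediateField.mem_adjoin_simple_iff] at h2
  obtain ⟨a, b, hab⟩ := h2
  by_cases hb : b = 0
  · refine ⟨0, 1, one_ne_zero, ?_⟩
    rw [hab, hb]
    simp
  · exact ⟨a, b, hb, hab⟩

/-- **Triangular Lie algebras are nilpotent systems.** -/
theorem exists_sys2 (hle : F ≤ F') (𝔫 : LieSubalgebra F (Derivation F K K))
    (hfd : FiniteDimensional F 𝔫)
    {d : ℕ} {x : Fin d → K} (hind : AlgebraicIndependent F' x)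
    (htop : IntermediateField.adjoin F' (Set.range x) = ⊤)
    (htri : ∀ D ∈ 𝔫, ∀ i, D (x i) ∈ Algebra.adjoin F' (x '' {j | j < i}))
    (hk : ∀ D ∈ 𝔫, ∀ f ∈ F', D f = 0)
    (hconst : ∀ f : K, (∀ D ∈ 𝔫, D f = 0) → f ∈ F') :
    ∃ (ι : Type) (_ : Fintype ι) (D : ι → Derivation F K K) (w : ι → ℕ),
      (∀ i, D i ∈ 𝔫) ∧ NilSys2 F F' (fun i => res (k := k) (D i)) w ∧ Gens (k := F') x ∧
      (∀ i (q : MvPolynomial (Fin d) F'), ∃ q' : MvPolynomial (Fin d) F',
        D i (MvPolynomial.aeval x q) = MvPolynomial.aeval x q') ∧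
      ∀ q : MvPolynomial (Fin d) F', Nilp (fun i => res (k := k) (D i))
        (MvPolynomial.aeval x q) := by
  classical
  obtain ⟨r, e, he⟩ := Submodule.fg_iff_exists_fin_generating_family.1
    ((Submodule.fg_top _).1 (Module.Finite.fg_top (R := F) (M := 𝔫)))
  have he' : ∀ E, E ∈ 𝔫 ↔ E ∈ Submodule.span F (Set.range e) := by
    intro E
    rw [he]
    exact Iff.rfl
  have hemem : ∀ i, e i ∈ 𝔫 := fun i => (he' _).2 (Submodule.subset_span ⟨i, rfl⟩)
  obtain ⟨D0, hD0⟩ : ∃ D0 : Fin r → Derivation k K K, D0 = fun i => res (k := k) (e i) := ⟨_, rfl⟩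
  have hk0 : ∀ i, ∀ f ∈ F', D0 i f = 0 := by
    intro i f hf
    rw [hD0]
    exact hk (e i) (hemem i) f hf
  -- the coordinates are nilpotent
  have hnilSub : ∀ (ι : Type) (_ : Fintype ι) (D : ι → Derivation k K K),
      (∀ i, ∀ f ∈ F', D i f = 0) → ∀ S : Set K, (∀ z ∈ S, Nilp D z) →
      ∀ z ∈ Algebra.adjoin F' S, Nilp D z := by
    intro ι _ D hk S hS z hz
    induction hz using Algebra.adjoin_induction with
    | mem z hz => exact hS z hz
    | algebraMap r => exact nilp_const fun i => hk i _ r.2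
    | add a b _ _ h h' => exact h.add h'
    | mul a b _ _ h h' => exact h.mul h'
  have hxn : ∀ (m : ℕ) (i : Fin d), (i : ℕ) = m → Nilp D0 (x i) := by
    intro m
    induction m using Nat.strong_induction_on with
    | _ m ih =>
      intro i hi
      have h1 : ∀ l, Nilp D0 (D0 l (x i)) := by
        intro l
        have h2 : D0 l (x i) ∈ Algebra.adjoin F' (x '' {j | j < i}) := by
          rw [hD0]
          exact htri (e l) (hemem l) i
        refine hnilSub _ inferInstance D0 hk0 _ ?_ _ h2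
        rintro _ ⟨j, hj, rfl⟩
        exact ih j (by rw [← hi]; exact hj) j rfl
      choose n hn using h1
      exact ⟨Finset.univ.sup n + 1, fun l => (hn l).mono
        (Finset.le_sup (f := n) (Finset.mem_univ l))⟩
  obtain ⟨n0, hn01, hn0⟩ : ∃ n0, 1 ≤ n0 ∧ ∀ i, Kil D0 n0 (x i) := by
    choose n hn using fun i => hxn _ i rfl
    exact ⟨Finset.univ.sup n + 1, by omega, fun i => (hn i).mono
      ((Finset.le_sup (f := n) (Finset.mem_univ i)).trans (Nat.le_succ _))⟩
  -- the filtration
  have hf1 : ∀ E ∈ 𝔫, E ∈ filt (k := k) 𝔫 e 1 := by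
    intro E hE
    refine ⟨hE, fun j z hz => ?_⟩
    rcases j with - | j
    · rw [show z = 0 from hz, map_zero]
      exact Kil.zero _
    · exact kil_of_span ((he' E).1 hE) hz
  have hbr : ∀ (a : ℕ) (E E' : Derivation F K K), E ∈ 𝔫 → E' ∈ filt (k := k) 𝔫 e a →
      ⁅E, E'⁆ ∈ filt (k := k) 𝔫 e (a + 1) := by
    intro a E E' hE hE'
    have hE1 := hf1 E hE
    refine ⟨𝔫.lie_mem hE hE'.1, fun j z hz => ?_⟩
    rw [Derivation.commutator_apply, sub_eq_add_neg, ← map_neg, ← map_neg]
    have h1 := hE1.2 _ _ (hE'.2 j z hz)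
    have h2 : Kil (fun i => res (k := k) (e i)) j (-z) := by
      have := kil_smul (D := fun i => res (k := k) (e i)) (fun i => res_kills (e i))
        (F.neg_mem F.one_mem) j z hz
      rwa [neg_one_mul] at this
    have h3 := hE'.2 _ _ (hE1.2 j _ h2)
    have e1 : j - a - 1 = j - (a + 1) := by omega
    have e2 : j - 1 - a = j - (a + 1) := by omega
    rw [e1] at h1
    rw [e2] at h3
    exact h1.add h3
  have hfn0 : ∀ E ∈ filt (k := k) 𝔫 e n0, E = 0 := by
    intro E hE
    have h1 : ∀ i, E (x i) = 0 := by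
      intro i
      have h2 := hE.2 n0 (x i) (by
        have := hn0 i
        rw [hD0] at this
        exact this)
      rw [Nat.sub_self] at h2
      exact h2
    have h2 : ∀ z ∈ IntermediateField.adjoin F' (Set.range x), E z = 0 := by
      intro z hz
      rw [IntermediateField.mem_adjoin_range_iff] at hz
      obtain ⟨P, Q, hPQ⟩ := hz
      have h3 : ∀ q : MvPolynomial (Fin d) F', E (MvPolynomial.aeval x q) = 0 := by
        intro q
        induction q using MvPolynomial.induction_on with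
        | C a =>
          rw [MvPolynomial.aeval_C]
          exact hk E hE.1 _ a.2
        | add p q hp hq => rw [map_add, map_add, hp, hq, add_zero]
        | mul_X p i hp =>
          rw [map_mul, MvPolynomial.aeval_X, E.leibniz, hp, h1, smul_zero, smul_zero, add_zero]
      have h4 : MvPolynomial.aeval x P ∈ consts E := h3 P
      have h5 : MvPolynomial.aeval x Q ∈ consts E := h3 Q
      rw [hPQ]
      exact (consts E).div_mem h4 h5
    rw [htop] at h2
    ext z
    exact h2 z IntermediateField.mem_top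
  have hfg : ∀ a, (filt (k := k) 𝔫 e a).FG := by
    intro a
    have h1 : filt (k := k) 𝔫 e a ≤ 𝔫.toSubmodule := fun E hE => hE.1
    have h2 : FiniteDimensional F 𝔫.toSubmodule := hfd
    exact Module.Finite.iff_fg.1 (Submodule.finiteDimensional_of_le h1)
  choose rr s hs using fun a => Submodule.fg_iff_exists_fin_generating_family.1 (hfg a)
  let ι := Σ a : Fin n0, Fin (rr (a + 1))
  obtain ⟨D, hD⟩ : ∃ D : ι → Derivation F K K, ∀ a b, D ⟨a, b⟩ = s (a + 1) b :=
    ⟨fun i => s (i.1 + 1) i.2, fun _ _ => rfl⟩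
  obtain ⟨w, hw⟩ : ∃ w : ι → ℕ, ∀ a b, w ⟨a, b⟩ = n0 - ((a : ℕ) + 1) :=
    ⟨fun i => n0 - ((i.1 : ℕ) + 1), fun _ _ => rfl⟩
  have hDf : ∀ (a : Fin n0) b, D ⟨a, b⟩ ∈ filt (k := k) 𝔫 e (a + 1) := by
    intro a b
    rw [hD, ← hs]
    exact Submodule.subset_span ⟨b, rfl⟩
  have hDn : ∀ i, D i ∈ 𝔫 := fun i => (hDf i.1 i.2).1
  have hkD : ∀ i, ∀ f ∈ F', res (k := k) (D i) f = 0 := fun i => hk (D i) (hDn i)
  have hKil : ∀ n z, Kil D0 n z → Kil (fun i => res (k := k) (D i)) n z := by
    rw [hD0]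
    exact kil_transfer fun i => (he' _).1 (hDn i)
  have hnilp : ∀ q : MvPolynomial (Fin d) F', Nilp (fun i => res (k := k) (D i))
      (MvPolynomial.aeval x q) := by
    intro q
    refine hnilSub ι inferInstance _ hkD (Set.range x) ?_ _ ?_
    · rintro _ ⟨i, rfl⟩
      obtain ⟨n, hn⟩ := hxn _ i rfl
      exact ⟨n, hKil n _ hn⟩
    · rw [Algebra.adjoin_range_eq_range_aeval]
      exact ⟨q, rfl⟩
  have hG : Gens (k := F') x := by
    refine ⟨hind, fun z => ?_⟩
    have hz : z ∈ IntermediateField.adjoin F' (Set.range x) := by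
      rw [htop]
      exact IntermediateField.mem_top
    rw [IntermediateField.mem_adjoin_range_iff] at hz
    obtain ⟨P, Q, hPQ⟩ := hz
    by_cases hQ : Q = 0
    · refine ⟨0, 1, one_ne_zero, ?_⟩
      rw [hPQ, hQ, map_zero, div_zero, zero_div]
    · exact ⟨P, Q, hQ, hPQ⟩
  have hpoly : ∀ E ∈ 𝔫, ∀ q : MvPolynomial (Fin d) F', ∃ q' : MvPolynomial (Fin d) F',
      E (MvPolynomial.aeval x q) = MvPolynomial.aeval x q' := by
    intro E hE q
    induction q using MvPolynomial.induction_on with
    | C a => exact ⟨0, by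
        rw [MvPolynomial.aeval_C, map_zero]
        exact hk E hE _ a.2⟩
    | add p q hp hq =>
      obtain ⟨p', hp'⟩ := hp
      obtain ⟨q', hq'⟩ := hq
      exact ⟨p' + q', by rw [map_add, map_add, hp', hq', map_add]⟩
    | mul_X p i hp =>
      obtain ⟨p', hp'⟩ := hp
      have h1 : E (x i) ∈ (MvPolynomial.aeval x : MvPolynomial (Fin d) F' →ₐ[F'] K).range := by
        rw [← Algebra.adjoin_range_eq_range_aeval]
        refine Algebra.adjoin_mono ?_ (htri E hE i)
        rintro _ ⟨j, -, rfl⟩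
        exact ⟨j, rfl⟩
      obtain ⟨g, hg⟩ := h1
      have hg' : MvPolynomial.aeval x g = E (x i) := hg
      refine ⟨p * g + MvPolynomial.X i * p', ?_⟩
      rw [map_mul, MvPolynomial.aeval_X, E.leibniz, hp', map_add, map_mul, map_mul,
        MvPolynomial.aeval_X, hg', smul_eq_mul, smul_eq_mul]
  refine ⟨ι, inferInstance, D, w, hDn, ⟨hle, hkD, fun i j => ?_, fun z hz => ?_, fun z => ?_⟩, hG,
    fun i => hpoly (D i) (hDn i), hnilp⟩
  · -- the brackets
    obtain ⟨a, b⟩ := j
    have h1 := hbr _ _ _ (hDn i) (hDf a b)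
    obtain ⟨v, hv⟩ : ∃ v : ι → Derivation F K K, ∀ l, v l = if w l < w ⟨a, b⟩ then D l else 0 :=
      ⟨_, fun _ => rfl⟩
    have h2 : ⁅D i, D ⟨a, b⟩⁆ ∈ Submodule.span F (Set.range v) := by
      by_cases ha : (a : ℕ) + 1 < n0
      · rw [← hs] at h1
        refine Submodule.span_mono ?_ h1
        rintro _ ⟨c, rfl⟩
        refine ⟨⟨⟨a + 1, ha⟩, c⟩, ?_⟩
        rw [hv, hw, hw, if_pos, hD]
        change n0 - ((a : ℕ) + 1 + 1) < n0 - ((a : ℕ) + 1)
        omega
      · have ha' : (a : ℕ) + 1 = n0 := by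
          have := a.2
          omega
        have h3 := hDf a b
        rw [ha'] at h3
        have h4 : ⁅D i, (0 : Derivation F K K)⁆ = 0 := by
          ext z
          rw [Derivation.commutator_apply, Derivation.zero_apply, Derivation.zero_apply, map_zero,
            sub_zero]
        rw [hfn0 _ h3, h4]
        exact Submodule.zero_mem _
    obtain ⟨c, hc⟩ := (Submodule.mem_span_range_iff_exists_fun F).1 h2
    refine ⟨fun l => if w l < w ⟨a, b⟩ then (c l : K) else 0, fun l => ?_, fun l hl => ?_,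
      fun z => ?_⟩
    · beta_reduce
      split_ifs
      · exact (c l).2
      · exact F.zero_mem
    · beta_reduce
      rw [if_neg (not_lt.2 hl)]
    · have h3 : ⁅D i, D ⟨a, b⟩⁆ z = ∑ l, (c l : K) * v l z := by
        rw [← hc, sum_smul_app]
      rw [Derivation.commutator_apply] at h3
      change D i (D ⟨a, b⟩ z) - D ⟨a, b⟩ (D i z) = _
      rw [h3]
      refine Finset.sum_congr rfl fun l _ => ?_
      rw [hv]
      beta_reduce
      by_cases hl : w l < w ⟨a, b⟩
      · rw [if_pos hl, if_pos hl]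
        rfl
      · rw [if_neg hl, if_neg hl, Derivation.zero_apply, mul_zero, zero_mul]
  · -- the constants
    have h0 : ∀ E ∈ Submodule.span F (Set.range (s 1)), E z = 0 := by
      intro E hE
      induction hE using Submodule.span_induction with
      | mem E hE =>
        obtain ⟨b, rfl⟩ := hE
        have h4 := hz ⟨⟨0, by omega⟩, b⟩
        rw [res_apply, hD] at h4
        exact h4
      | zero => rfl
      | add E E' _ _ h h' => rw [Derivation.add_apply, h, h', add_zero]
      | smul a E _ h => rw [Derivation.smul_apply, h, smul_zero]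
    refine hconst z fun E hE => h0 E ?_
    rw [hs]
    exact hf1 E hE
  · obtain ⟨P, Q, hQ, hPQ⟩ := hG.gen z
    exact ⟨_, _, hnilp P, hnilp Q, hG.ne hQ, hPQ⟩

end

section

variable {K : Type} [Field K] [Algebra ℂ K] {N : ℕ} {y : Fin (N + 1) → K}
  {F : IntermediateField ℂ K}

theorem UnipotentFibreOne.data (h : UnipotentFibreOne y F) (hFP : FibreProper y F) :
    ∃ (F' : IntermediateField ℂ K) (ι : Type) (_ : Fintype ι) (D : ι → Derivation ℂ K K)
      (w : ι → ℕ) (d : ℕ) (x : Fin d → K), UniData2 y F F' D w x := by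
  obtain ⟨𝔫, F', d, x, hfd, hconst, hbase, hind, htop, htri, hreg⟩ := h
  have hle : F ≤ F' := fun f hf => (hconst f).2 fun D _ => D.map_algebraMap (⟨f, hf⟩ : F)
  obtain ⟨ι, hι, D, w, hD, hs, hG, hp, hn⟩ := exists_sys2 (k := ℂ) hle 𝔫 hfd hind htop htri
    (fun D hD f hf => (hconst f).1 hf D hD) fun f hf => (hconst f).2 hf
  refine ⟨F', ι, hι, fun i => res (D i), w, d, x, hs, ?_, hG, hp, hn,
    fun P hP hPF i => hreg P hP hPF (D i) (hD i), hFP⟩
  rcases hbase with h | ⟨t, ht, h⟩
  · exact Or.inl h.symm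
  · right
    refine ⟨t, ?_⟩
    rw [h]
    exact ratBase_adjoin ht

end

section

variable {K ι : Type} [Field K] [Algebra ℂ K] [Fintype ι] {N n d : ℕ} {y : Fin (N + 1) → K}
  {F F' : IntermediateField ℂ K} {D : ι → Derivation ℂ K K} {w : ι → ℕ} {x : Fin d → K}

/-- **Abundance.** -/
theorem uni_abund2 (hy : NormalModel y) (hn : Algebra.trdeg ℂ K = n) (h : UniData2 y F F' D w x)
    {B V : Place ℂ K → ℚ} (hF : BelowIitaka y n B F) (hV : FinSup y V)
    (hBV : ∀ P, IsPrimeDivisor y P → B P ≤ V P)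
    {a : ℕ} (ha : 1 ≤ a) {σ : (Fin n → Derivation ℂ K K) → K} (hσ : IsSection y n a (a • B) σ)
    (hσ0 : σ ≠ 0) : Abund y n V := by
  classical
  obtain ⟨x', E, hx, hE⟩ := exists_crd hn
  obtain ⟨w', hw, hwf⟩ := exists_canon hy hn hx hE
  have hfr := frame_of_dual hx hE
  -- sections and functions
  have hsec : ∀ (m : ℕ) (D : Place ℂ K → ℚ) (ω : (Fin n → Derivation ℂ K K) → K),
      IsPluri m ω → (IsSection y n m D ω ↔ Fn y (m • w' + D) (ω E)) := by
    intro m D ω hω
    constructor
    · rintro ⟨-, h⟩ P hP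
      have h1 := (hwf P hP m ω _ hω).1 (h P hP)
      refine h1.imp_right fun h2 => le_trans (le_of_eq ?_) h2
      simp only [Pi.add_apply, smul_ap]
      ring
    · intro h
      refine ⟨hω, fun P hP => (hwf P hP m ω _ hω).2 ?_⟩
      refine (h P hP).imp_right fun h2 => le_trans (le_of_eq ?_) h2
      simp only [Pi.add_apply, smul_ap]
      ring
  have hσE : σ E ≠ 0 := fun h => hσ0 (pluri_zero hfr hσ.1 h)
  have h1 : Fn y (a • (w' + B)) (σ E) := by
    rw [smul_add]
    exact (hsec a _ σ hσ.1).1 hσ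
  have hrat : pluriRatios y n B ⊆ rat y (w' + B) := by
    rintro f ⟨m, hm, ω, ω', hω, hω', E1, hE1, rfl⟩
    have e1 := pluri_coord hx hE hω.1 E1
    have e2 := pluri_coord hx hE hω'.1 E1
    have hd : (Matrix.of fun i j => E1 i (x' j)).det ^ m ≠ 0 := by
      intro h
      rw [h, zero_mul] at e2
      exact hE1 e2
    have h0 : ω' E ≠ 0 := by
      intro h
      rw [h, mul_zero] at e2
      exact hE1 e2
    refine ⟨m, ω E, ω' E, hm, ?_, ?_, h0, ?_⟩
    · rw [smul_add]
      exact (hsec m _ ω hω.1).1 hω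
    · rw [smul_add]
      exact (hsec m _ ω' hω'.1).1 hω'
    · rw [e1, e2, mul_div_mul_left _ _ hd]
  have hle : ∀ P, IsPrimeDivisor y P → (w' + B) P ≤ (w' + V) P := fun P hP => by
    simp only [Pi.add_apply]
    linarith [hBV P hP]
  have hFV : ∀ z ∈ F, IsAlgebraic (IntermediateField.adjoin ℂ (rat y (w' + V))) z := fun z hz =>
    isAlg_mono (IntermediateField.adjoin.mono ℂ _ _ (hrat.trans (rat_mono hle))) (hF z hz)
  have h2 : Fn y (a • (w' + V)) (σ E) := h1.mono fun P hP => by
    rw [smul_ap, smul_ap]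
    exact mul_le_mul_of_nonneg_left (hle P hP) (Nat.cast_nonneg a)
  obtain ⟨κ, m0, g, hm0, hg, hg0, hind, hup⟩ := uni_growth2 hy h (U := w' + V) (hw.add hV)
    ha h2 hσE hFV
  refine ⟨κ, m0, fun j => frm x' m0 (g j), hm0, fun j => ?_, ⟨E, ?_, ?_⟩, ?_⟩
  · rw [hsec m0 _ _ (frm_pluri x' m0 (g j)), frm_eval hE, ← smul_add]
    exact hg j
  · change frm x' m0 (g 0) E ≠ 0
    rw [frm_eval hE]
    exact hg0
  · simp only [frm_eval hE]
    exact hind
  · intro x1 E' hx' hE' A hA
    obtain ⟨C, hC⟩ := hup A hA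
    refine ⟨C, fun m hm r f hf h => hC m hm r (fun i =>
      ((Matrix.of fun i j => E' i (x' j)).det ^ m)⁻¹ * f i) ?_ fun i => ?_⟩
    · have hd := det_ne hx' hE' hE
      exact hf.map' (LinearMap.mulLeft ℂ _) (LinearMap.ker_eq_bot.2
        (mul_right_injective₀ (inv_ne_zero (pow_ne_zero _ hd))))
    · have hd := det_ne hx' hE' hE
      obtain ⟨ω, hω, hωf⟩ := h i
      have h2 := (hsec m _ ω hω.1).1 hω
      have h3 : ω E' = (Matrix.of fun i j => E' i (x' j)).det ^ m * ω E :=
        pluri_coord hx hE hω.1 E'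
      have h4 : ((Matrix.of fun i j => E' i (x' j)).det ^ m)⁻¹ * f i = ω E := by
        rw [← hωf, h3, inv_mul_cancel_left₀ (pow_ne_zero _ hd)]
      rw [h4, smul_add, add_assoc]
      exact h2

end

end Pool.Agent.H892
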