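import Pool.Agent.H892.C8

/-!
Divisors on varieties with an action of a nilpotent Lie algebra with a rational quotient of dimension
at most one: they are pseudo-effective only if they have sections.
-/

set_option autoImplicit false
set_option linter.unusedSectionVars false
set_option linter.overlappingInstances false

open FF Pool.Agent.W602.GT Pool.Agent.W603.LV Pool.Agent.Y172 Pool.Agent.TH122.AB Pool.Agent.NH31

namespace Pool.Agent.H892

section

variable {K : Type} [Field K] [Algebra ℂ K]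

/-- products of linear factors -/
noncomputable def lin (t : K) (n : ℂ →₀ ℤ) : K := n.prod fun α k => (t - algebraMap ℂ K α) ^ k

variable {t : K}

theorem sub_ne (ht : Transcendental ℂ t) (α : ℂ) : t - algebraMap ℂ K α ≠ 0 := by
  intro h
  exact ht (by
    rw [sub_eq_zero.1 h]
    exact isAlgebraic_algebraMap α)

theorem lin_ne (ht : Transcendental ℂ t) (n : ℂ →₀ ℤ) : lin t n ≠ 0 := by
  unfold lin Finsupp.prod
  exact Finset.prod_ne_zero_iff.2 fun α _ => zpow_ne_zero _ (sub_ne ht α)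

theorem lin_add (ht : Transcendental ℂ t) (n m : ℂ →₀ ℤ) : lin t (n + m) = lin t n * lin t m := by
  unfold lin
  exact Finsupp.prod_add_index' (fun α => zpow_zero _) fun α b c => zpow_add₀ (sub_ne ht α) b c

theorem lin_single (α : ℂ) (k : ℤ) : lin t (Finsupp.single α k) = (t - algebraMap ℂ K α) ^ k := by
  unfold lin
  exact Finsupp.prod_single_index (zpow_zero _)

theorem lin_zero : lin t (0 : ℂ →₀ ℤ) = 1 := Finsupp.prod_zero_index

theorem lin_neg (ht : Transcendental ℂ t) (n : ℂ →₀ ℤ) : lin t (-n) = (lin t n)⁻¹ := by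
  have h1 := lin_add ht n (-n)
  rw [add_neg_cancel, lin_zero] at h1
  exact (eq_inv_of_mul_eq_one_right h1.symm)

/-- polynomials are products of linear factors -/
theorem poly_lin (ht : Transcendental ℂ t) {p : Polynomial ℂ} (hp : p ≠ 0) :
    ∃ (c : ℂ) (n : ℂ →₀ ℤ), c ≠ 0 ∧ Polynomial.aeval t p = algebraMap ℂ K c * lin t n := by
  classical
  have h1 := (IsAlgClosed.splits p).eq_prod_roots
  have h2 : ∀ s : Multiset ℂ, ∃ n : ℂ →₀ ℤ, Polynomial.aeval t
      (Multiset.map (fun x => Polynomial.X - Polynomial.C x) s).prod = lin t n := by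
    intro s
    induction s using Multiset.induction with
    | empty => exact ⟨0, by simp [lin_zero]⟩
    | cons a s ih =>
      obtain ⟨n, hn⟩ := ih
      refine ⟨Finsupp.single a 1 + n, ?_⟩
      rw [Multiset.map_cons, Multiset.prod_cons, map_mul, hn, lin_add ht, lin_single, zpow_one,
        map_sub, Polynomial.aeval_X, Polynomial.aeval_C]
  obtain ⟨n, hn⟩ := h2 p.roots
  refine ⟨p.leadingCoeff, n, Polynomial.leadingCoeff_ne_zero.2 hp, ?_⟩
  conv_lhs => rw [h1]
  rw [map_mul, Polynomial.aeval_C, hn]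

theorem exists_lin (ht : Transcendental ℂ t) {F' : IntermediateField ℂ K}
    (hR : RatBase (⊥ : IntermediateField ℂ K) F' t) {f : K} (hf : f ∈ F') (hf0 : f ≠ 0) :
    ∃ (c : ℂ) (n : ℂ →₀ ℤ), c ≠ 0 ∧ f = algebraMap ℂ K c * lin t n := by
  obtain ⟨a, b, hb, hab⟩ := hR.gen f hf
  have ha : a ≠ 0 := by
    rintro rfl
    rw [map_zero, zero_div] at hab
    exact hf0 hab
  have hconv : ∀ p : Polynomial (⊥ : IntermediateField ℂ K), p ≠ 0 → ∃ q : Polynomial ℂ, q ≠ 0 ∧
      Polynomial.aeval t p = Polynomial.aeval t q := by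
    intro p hp
    refine ⟨p.map (IntermediateField.botEquiv ℂ K : (⊥ : IntermediateField ℂ K) →+* ℂ), ?_, ?_⟩
    · rw [Ne, Polynomial.map_eq_zero]
      exact hp
    · rw [Polynomial.aeval_def, Polynomial.aeval_def, Polynomial.eval₂_map]
      congr 1
      ext z
      obtain ⟨c, hc⟩ := IntermediateField.mem_bot.1 z.2
      have hz : z = algebraMap ℂ (⊥ : IntermediateField ℂ K) c := Subtype.ext hc.symm
      rw [hz]
      simp
  obtain ⟨a', ha', haa⟩ := hconv a ha
  obtain ⟨b', hb', hbb⟩ := hconv b hb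
  obtain ⟨c, n, hc, hn⟩ := poly_lin ht ha'
  obtain ⟨d, m, hd, hm⟩ := poly_lin ht hb'
  refine ⟨c / d, n + -m, div_ne_zero hc hd, ?_⟩
  rw [hab, haa, hbb, hn, hm, lin_add ht, lin_neg ht, map_div₀]
  have h1 := lin_ne ht m
  have h2 : algebraMap ℂ K d ≠ 0 := by
    rw [Ne, map_eq_zero]
    exact hd
  field_simp

theorem ord_lin (ht : Transcendental ℂ t) (P : Place ℂ K) (n : ℂ →₀ ℤ) :
    P.ord (lin t n) = n.sum fun α k => k * P.ord (t - algebraMap ℂ K α) := by
  unfold lin Finsupp.prod Finsupp.sum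
  rw [Pool.Agent.W619.PQ.ord_prod _ P _ fun α _ => zpow_ne_zero _ (sub_ne ht α)]
  exact Finset.sum_congr rfl fun α _ => P.ord_zpow _ _

theorem ord_lin_one (ht : Transcendental ℂ t) {P : Place ℂ K} {n : ℂ →₀ ℤ} {α : ℂ}
    (h : ∀ β ≠ α, P.ord (t - algebraMap ℂ K β) = 0) :
    P.ord (lin t n) = n α * P.ord (t - algebraMap ℂ K α) := by
  rw [ord_lin ht, Finsupp.sum]
  by_cases hα : α ∈ n.support
  · rw [Finset.sum_eq_single α (fun β _ hβ => by rw [h β hβ, mul_zero]) fun h1 => absurd hα h1]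
  · rw [Finset.sum_eq_zero fun β hβ => by
      rw [h β (by rintro rfl; exact hα hβ), mul_zero], Finsupp.notMem_support_iff.1 hα, zero_mul]

theorem ord_lin_zero (ht : Transcendental ℂ t) {P : Place ℂ K} {n : ℂ →₀ ℤ}
    (h : ∀ β ∈ n.support, P.ord (t - algebraMap ℂ K β) = 0) : P.ord (lin t n) = 0 := by
  rw [ord_lin ht, Finsupp.sum]
  exact Finset.sum_eq_zero fun β hβ => by rw [h β hβ, mul_zero]

theorem ord_sub_neg (ht : Transcendental ℂ t) {P : Place ℂ K} (h : P.ord t < 0) (β : ℂ) :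
    P.ord (t - algebraMap ℂ K β) = P.ord t := by
  have ht0 : t ≠ 0 := by
    rintro rfl
    rw [P.ord_zero] at h
    exact lt_irrefl _ h
  by_cases hβ : β = 0
  · rw [hβ, map_zero, sub_zero]
  rw [sub_eq_add_neg, ← map_neg]
  have h1 : algebraMap ℂ K (-β) ≠ 0 := by
    rw [Ne, map_eq_zero]
    exact neg_ne_zero.2 hβ
  refine (P.ord_add_eq ht0 h1 ?_).2
  rw [P.ord_const (neg_ne_zero.2 hβ)]
  exact h

theorem ord_sub_nonneg (ht : Transcendental ℂ t) {P : Place ℂ K} (h : 0 ≤ P.ord t) (β : ℂ) :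
    0 ≤ P.ord (t - algebraMap ℂ K β) := by
  have ht0 : t ≠ 0 := fun h0 => ht (by rw [h0]; exact isAlgebraic_zero)
  have h1 : Og P 0 t := Or.inr h
  have h2 : Og P 0 (algebraMap ℂ K β) := by
    by_cases hβ : β = 0
    · left
      rw [hβ, map_zero]
    · right
      rw [P.ord_const hβ]
  have h3 := h1.add h2.neg
  rw [← sub_eq_add_neg] at h3
  exact h3.resolve_left (sub_ne ht β)

theorem ord_sub_ne (ht : Transcendental ℂ t) {P : Place ℂ K} {α β : ℂ} (hne : β ≠ α)
    (h : 0 < P.ord (t - algebraMap ℂ K α)) : P.ord (t - algebraMap ℂ K β) = 0 := by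
  have h1 : t - algebraMap ℂ K β = algebraMap ℂ K (α - β) + (t - algebraMap ℂ K α) := by
    rw [map_sub]
    ring
  have h2 : α - β ≠ 0 := sub_ne_zero.2 (Ne.symm hne)
  have h3 : algebraMap ℂ K (α - β) ≠ 0 := by
    rw [Ne, map_eq_zero]
    exact h2
  rw [h1, (P.ord_add_eq h3 (sub_ne ht α) (by rw [P.ord_const h2]; exact h)).2, P.ord_const h2]

end

section

variable {K : Type} [Field K] [Algebra ℂ K] {N : ℕ} {y : Fin (N + 1) → K}

/-- **Divisors over a projective line.** -/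
theorem line_sections (hy : NormalModel y) {t : K} (ht : Transcendental ℂ t)
    {F' : IntermediateField ℂ K} (hR : RatBase (⊥ : IntermediateField ℂ K) F' t)
    (hzero : ∀ α : ℂ, ∃ P, IsPrimeDivisor y P ∧ 0 < P.ord (t - algebraMap ℂ K α))
    {D A : Place ℂ K → ℤ} (hD : {P | IsPrimeDivisor y P ∧ D P ≠ 0}.Finite)
    (hA : {P | IsPrimeDivisor y P ∧ A P ≠ 0}.Finite)
    (hinf : ∃ᶠ k : ℕ in Filter.atTop, ∃ c ∈ F', c ≠ 0 ∧ ∀ P, IsPrimeDivisor y P →
      -(k * D P + A P) ≤ P.ord c) :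
    ∃ j : ℕ, 1 ≤ j ∧ ∃ c : K, c ≠ 0 ∧ ∀ P, IsPrimeDivisor y P → -(j * D P) ≤ P.ord c := by
  classical
  have ht0 : t ≠ 0 := fun h0 => ht (by rw [h0]; exact isAlgebraic_zero)
  obtain ⟨𝒯, h𝒯⟩ : ∃ 𝒯 : Set (Place ℂ K), 𝒯 = {P | IsPrimeDivisor y P ∧ D P ≠ 0} ∪
    {P | IsPrimeDivisor y P ∧ A P ≠ 0} := ⟨_, rfl⟩
  have h𝒯fin : 𝒯.Finite := h𝒯 ▸ hD.union hA
  have h𝒯D : ∀ P, IsPrimeDivisor y P → P ∉ 𝒯 → D P = 0 ∧ A P = 0 := by
    intro P hP hPT
    rw [h𝒯] at hPT
    constructor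
    · by_contra h
      exact hPT (Or.inl ⟨hP, h⟩)
    · by_contra h
      exact hPT (Or.inr ⟨hP, h⟩)
  obtain ⟨T, hT⟩ : ∃ T : Set ℂ, T = ⋃ P ∈ 𝒯, {α | 0 < P.ord (t - algebraMap ℂ K α)} := ⟨_, rfl⟩
  have hTfin : T.Finite := by
    rw [hT]
    refine h𝒯fin.biUnion fun P _ => Set.Subsingleton.finite ?_
    intro α hα β hβ
    by_contra hne
    have h1 := ord_sub_ne ht (Ne.symm hne) hα
    have h2 : 0 < P.ord (t - algebraMap ℂ K β) := hβ
    omega
  have hTm : ∀ α P, P ∈ 𝒯 → 0 < P.ord (t - algebraMap ℂ K α) → α ∈ T := by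
    intro α P hP h
    rw [hT, Set.mem_iUnion₂]
    exact ⟨P, hP, h⟩
  -- the finite set of places
  have hSfin : (𝒯 ∪ ({P | IsPrimeDivisor y P ∧ P.ord t ≠ 0} ∪
      ⋃ α ∈ T, {P | IsPrimeDivisor y P ∧ P.ord (t - algebraMap ℂ K α) ≠ 0})).Finite :=
    h𝒯fin.union ((finite_ord hy ht0).union (hTfin.biUnion fun α _ => finite_ord hy (sub_ne ht α)))
  obtain ⟨S, hS⟩ : ∃ S : Finset (Place ℂ K), S = hSfin.toFinset := ⟨_, rfl⟩
  have hSm : ∀ P, IsPrimeDivisor y P → P ∉ S → P ∉ 𝒯 ∧ P.ord t = 0 ∧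
      ∀ α ∈ T, P.ord (t - algebraMap ℂ K α) = 0 := by
    intro P hP hPS
    rw [hS, Set.Finite.mem_toFinset, Set.mem_union, Set.mem_union] at hPS
    push Not at hPS
    refine ⟨hPS.1, ?_, fun α hα => ?_⟩
    · by_contra h
      exact hPS.2.1 ⟨hP, h⟩
    · by_contra h
      exact hPS.2.2 (Set.mem_biUnion hα ⟨hP, h⟩)
  -- modified functions
  have hmod : ∀ k : ℕ, (∃ c ∈ F', c ≠ 0 ∧ ∀ P, IsPrimeDivisor y P →
      -(k * D P + A P) ≤ P.ord c) → ∃ c : K, c ≠ 0 ∧ (∀ P, IsPrimeDivisor y P →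
      -(k * D P + A P) ≤ P.ord c) ∧ ∀ P, IsPrimeDivisor y P → P ∉ S → P.ord c = 0 := by
    rintro k ⟨c, hcF, hc0, hc⟩
    obtain ⟨lam, n, hlam, hn⟩ := exists_lin ht hR hcF hc0
    have hord : ∀ P : Place ℂ K, P.ord c = P.ord (lin t n) := by
      intro P
      rw [hn, P.ord_mul (by rw [Ne, map_eq_zero]; exact hlam) (lin_ne ht n), P.ord_const hlam,
        zero_add]
    have hnn : ∀ α, α ∉ T → 0 ≤ n α := by
      intro α hα
      obtain ⟨P, hP, hPα⟩ := hzero α
      have hPT : P ∉ 𝒯 := fun h => hα (hTm α P h hPα)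
      obtain ⟨h1, h2⟩ := h𝒯D P hP hPT
      have h3 := hc P hP
      rw [h1, h2, mul_zero, add_zero, neg_zero, hord,
        ord_lin_one ht (fun β hβ => ord_sub_ne ht hβ hPα)] at h3
      by_contra h4
      push Not at h4
      nlinarith
    obtain ⟨n', hn'⟩ : ∃ n' : ℂ →₀ ℤ, n' = n.filter (· ∈ T) := ⟨_, rfl⟩
    have hn'm : ∀ α ∈ n'.support, α ∈ T := by
      intro α hα
      rw [hn', Finsupp.support_filter, Finset.mem_filter] at hα
      exact hα.2
    have hn'a : ∀ α ∈ T, n' α = n α := fun α hα => by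
      rw [hn', Finsupp.filter_apply_pos _ _ hα]
    refine ⟨lin t n', lin_ne ht n', fun P hP => ?_, fun P hP hPS => ?_⟩
    · by_cases hPt : P.ord t < 0
      · refine (hc P hP).trans ?_
        rw [hord, ord_lin ht, ord_lin ht, Finsupp.sum, Finsupp.sum]
        simp only [ord_sub_neg ht hPt]
        rw [← Finset.sum_mul, ← Finset.sum_mul]
        have h1 : ∑ α ∈ n'.support, n' α ≤ ∑ α ∈ n.support, n α := by
          have h2 : ∑ α ∈ n'.support, n' α = ∑ α ∈ n.support.filter (· ∈ T), n α := by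
            rw [hn', Finsupp.support_filter]
            exact Finset.sum_congr rfl fun α hα =>
              Finsupp.filter_apply_pos _ _ (Finset.mem_filter.1 hα).2
          rw [h2]
          refine Finset.sum_le_sum_of_subset_of_nonneg (Finset.filter_subset _ _)
            fun α hα hα' => ?_
          exact hnn α fun h => hα' (Finset.mem_filter.2 ⟨hα, h⟩)
        exact mul_le_mul_of_nonpos_right h1 hPt.le
      · push Not at hPt
        by_cases hα : ∃ α, 0 < P.ord (t - algebraMap ℂ K α)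
        · obtain ⟨α, hα⟩ := hα
          rw [ord_lin_one ht (α := α) fun β hβ => ord_sub_ne ht hβ hα]
          by_cases hαT : α ∈ T
          · rw [hn'a α hαT]
            have h1 := hc P hP
            rwa [hord, ord_lin_one ht (α := α) fun β hβ => ord_sub_ne ht hβ hα] at h1
          · have hPT : P ∉ 𝒯 := fun h => hαT (hTm α P h hα)
            obtain ⟨h1, h2⟩ := h𝒯D P hP hPT
            have h3 : n' α = 0 := by
              rw [hn', Finsupp.filter_apply_neg _ _ hαT]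
            rw [h1, h2, h3, mul_zero, add_zero, neg_zero, zero_mul]
        · push Not at hα
          have h0 : ∀ β, P.ord (t - algebraMap ℂ K β) = 0 := fun β =>
            le_antisymm (hα β) (ord_sub_nonneg ht hPt β)
          rw [ord_lin_zero ht fun β _ => h0 β]
          have h1 := hc P hP
          rwa [hord, ord_lin_zero ht fun β _ => h0 β] at h1
    · exact ord_lin_zero ht fun β hβ => (hSm P hP hPS).2.2 β (hn'm β hβ)
  -- Dickson
  obtain ⟨φ, hφ, hφP⟩ := Filter.extraction_of_frequently_atTop hinf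
  choose c hc0 hc hcS using fun j => hmod (φ j) (hφP j)
  obtain ⟨v, hv⟩ : ∃ v : ℕ → S → ℕ, ∀ j P, v j P =
      (P.1.ord (c j) + φ j * D P.1 + A P.1).toNat := ⟨_, fun _ _ => rfl⟩
  obtain ⟨i, j, hij, hle⟩ := (wellQuasiOrdered_le (α := S → ℕ)) v
  have hφij := hφ hij
  refine ⟨φ j - φ i, by omega, c j / c i, div_ne_zero (hc0 j) (hc0 i), fun P hP => ?_⟩
  rw [P.ord_div (hc0 j) (hc0 i)]
  by_cases hPS : P ∈ S
  · have h1 := hle ⟨P, hPS⟩
    rw [hv, hv] at h1
    have h2 := hc i P hP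
    have h3 := hc j P hP
    have h4 : ((φ j - φ i : ℕ) : ℤ) = φ j - φ i := by
      rw [Nat.cast_sub hφij.le]
    rw [h4]
    have h5 : (0 : ℤ) ≤ P.ord (c i) + φ i * D P + A P := by linarith
    have h6 : (0 : ℤ) ≤ P.ord (c j) + φ j * D P + A P := by linarith
    have h7 : P.ord (c i) + φ i * D P + A P ≤ P.ord (c j) + φ j * D P + A P := by
      have h8 : ((P.ord (c i) + φ i * D P + A P).toNat : ℤ) ≤
        ((P.ord (c j) + φ j * D P + A P).toNat : ℤ) := by exact_mod_cast h1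
      rwa [Int.toNat_of_nonneg h5, Int.toNat_of_nonneg h6] at h8
    linarith
  · rw [hcS i P hP hPS, hcS j P hP hPS, (h𝒯D P hP (hSm P hP hPS).1).1]
    simp

end

end Pool.Agent.H892
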