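import Pool.Agent.H892.C6

/-!
Weight vectors of commuting families of operators with integral weights.
-/

set_option autoImplicit false
set_option linter.unusedSectionVars false

open FF

namespace Pool.Agent.H892

section

variable {F V κ : Type} [Field F] [CharZero F] [AddCommGroup V] [Module F V]

/-- weight vectors -/
def Wv (A : κ → V →ₗ[F] V) (μ : κ → ℤ) (v : V) : Prop := ∀ a, A a v = (μ a : F) • v

variable {A : κ → V →ₗ[F] V}

theorem wv_zero (μ : κ → ℤ) : Wv A μ 0 := fun a => by rw [map_zero, smul_zero]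

theorem Wv.add {μ : κ → ℤ} {v v' : V} (h : Wv A μ v) (h' : Wv A μ v') : Wv A μ (v + v') :=
  fun a => by rw [map_add, h a, h' a, smul_add]

theorem Wv.smul {μ : κ → ℤ} {v : V} (h : Wv A μ v) (c : F) : Wv A μ (c • v) :=
  fun a => by rw [map_smul, h a, smul_comm]

/-- **The components of an element of an invariant subspace belong to the subspace.** -/
theorem comp_mem (I : Submodule F V) (hI : ∀ a, ∀ v ∈ I, A a v ∈ I) :
    ∀ (n : ℕ) (s : Finset (κ → ℤ)) (c : (κ → ℤ) → V), s.card = n → (∀ μ ∈ s, Wv A μ (c μ)) →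
      ∑ μ ∈ s, c μ ∈ I → ∀ μ ∈ s, c μ ∈ I := by
  classical
  intro n
  induction n with
  | zero =>
    intro s c hs _ _ μ hμ
    rw [Finset.card_eq_zero] at hs
    rw [hs] at hμ
    exact absurd hμ (Finset.notMem_empty μ)
  | succ n ih =>
    intro s c hs hc hsum μ0 hμ0
    by_cases h : ∃ ν ∈ s, ν ≠ μ0
    · obtain ⟨ν, hν, hne⟩ := h
      obtain ⟨a, ha⟩ := Function.ne_iff.1 hne
      have h1 : ∑ μ ∈ s.erase ν, ((μ a - ν a : ℤ) : F) • c μ ∈ I := by
        have h2 : A a (∑ μ ∈ s, c μ) - (ν a : F) • ∑ μ ∈ s, c μ =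
            ∑ μ ∈ s, ((μ a - ν a : ℤ) : F) • c μ := by
          rw [map_sum, Finset.smul_sum, ← Finset.sum_sub_distrib]
          refine Finset.sum_congr rfl fun μ hμ => ?_
          rw [hc μ hμ a, ← sub_smul]
          push_cast
          rfl
        have h3 : ∑ μ ∈ s, ((μ a - ν a : ℤ) : F) • c μ =
            ∑ μ ∈ s.erase ν, ((μ a - ν a : ℤ) : F) • c μ := by
          rw [← Finset.add_sum_erase s _ hν, sub_self, Int.cast_zero, zero_smul, zero_add]
        rw [← h3, ← h2]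
        exact I.sub_mem (hI a _ hsum) (I.smul_mem _ hsum)
      have h2 := ih (s.erase ν) (fun μ => ((μ a - ν a : ℤ) : F) • c μ)
        (by rw [Finset.card_erase_of_mem hν, hs, Nat.add_sub_cancel])
        (fun μ hμ => (hc μ (Finset.mem_of_mem_erase hμ)).smul _) h1 μ0
        (Finset.mem_erase.2 ⟨fun h => hne h.symm, hμ0⟩)
      have h3 : ((μ0 a - ν a : ℤ) : F) ≠ 0 := by
        rw [Ne, Int.cast_eq_zero, sub_eq_zero]
        exact fun h => ha h.symm
      have h4 := I.smul_mem (((μ0 a - ν a : ℤ) : F)⁻¹) h2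
      rwa [smul_smul, inv_mul_cancel₀ h3, one_smul] at h4
    · push Not at h
      have h1 : s = {μ0} := by
        ext μ
        rw [Finset.mem_singleton]
        exact ⟨h μ, fun h2 => h2 ▸ hμ0⟩
      rw [h1, Finset.sum_singleton] at hsum
      exact hsum

/-- the components are unique -/
theorem comp_zero {s : Finset (κ → ℤ)} {c : (κ → ℤ) → V} (hc : ∀ μ ∈ s, Wv A μ (c μ))
    (hsum : ∑ μ ∈ s, c μ = 0) : ∀ μ ∈ s, c μ = 0 := fun μ hμ =>
  (Submodule.mem_bot F).1 (comp_mem (A := A) ⊥ (fun a v hv => by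
    rw [(Submodule.mem_bot F).1 hv, map_zero]
    exact Submodule.zero_mem _) _ s c rfl hc (by rw [hsum]; exact Submodule.zero_mem _) μ hμ)

variable (A) in
/-- the sums of weight vectors -/
def Hv : Submodule F V := Submodule.span F {v | ∃ μ, Wv A μ v}

theorem Wv.mem {μ : κ → ℤ} {v : V} (h : Wv A μ v) : v ∈ Hv A := Submodule.subset_span ⟨μ, h⟩

theorem exists_comp {v : V} (hv : v ∈ Hv A) : ∃ (s : Finset (κ → ℤ)) (c : (κ → ℤ) → V),
    (∀ μ, Wv A μ (c μ)) ∧ v = ∑ μ ∈ s, c μ := by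
  classical
  unfold Hv at hv
  induction hv using Submodule.span_induction with
  | mem v hv =>
    obtain ⟨μ, hμ⟩ := hv
    refine ⟨{μ}, fun ν => if ν = μ then v else 0, fun ν => ?_, ?_⟩
    · beta_reduce
      split_ifs with h
      · rw [h]
        exact hμ
      · exact wv_zero ν
    · rw [Finset.sum_singleton, if_pos rfl]
  | zero => exact ⟨∅, fun _ => 0, fun μ => wv_zero μ, by rw [Finset.sum_empty]⟩
  | add u v _ _ hu hv =>
    obtain ⟨s, c, hc, rfl⟩ := hu
    obtain ⟨s', c', hc', rfl⟩ := hv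
    refine ⟨s ∪ s', fun μ => (if μ ∈ s then c μ else 0) + (if μ ∈ s' then c' μ else 0),
      fun μ => ?_, ?_⟩
    · refine Wv.add ?_ ?_
      · split_ifs
        · exact hc μ
        · exact wv_zero μ
      · split_ifs
        · exact hc' μ
        · exact wv_zero μ
    · rw [Finset.sum_add_distrib, ← Finset.sum_filter, ← Finset.sum_filter]
      congr 1
      · refine Finset.sum_congr ?_ fun _ _ => rfl
        ext μ
        simp only [Finset.mem_filter, Finset.mem_union]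
        tauto
      · refine Finset.sum_congr ?_ fun _ _ => rfl
        ext μ
        simp only [Finset.mem_filter, Finset.mem_union]
        tauto
  | smul a v _ hv =>
    obtain ⟨s, c, hc, rfl⟩ := hv
    exact ⟨s, fun μ => a • c μ, fun μ => (hc μ).smul a, by rw [Finset.smul_sum]⟩

theorem exists_comp_mem (I : Submodule F V) (hI : ∀ a, ∀ v ∈ I, A a v ∈ I) {v : V} (hvI : v ∈ I)
    (hv : v ∈ Hv A) : ∃ (s : Finset (κ → ℤ)) (c : (κ → ℤ) → V),
      (∀ μ, Wv A μ (c μ) ∧ c μ ∈ I) ∧ v = ∑ μ ∈ s, c μ := by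
  classical
  obtain ⟨s, c, hc, hcv⟩ := exists_comp hv
  have h1 := comp_mem I hI _ s c rfl (fun μ _ => hc μ) (by rw [← hcv]; exact hvI)
  refine ⟨s, fun μ => if μ ∈ s then c μ else 0, fun μ => ?_, ?_⟩
  · beta_reduce
    split_ifs with h
    · exact ⟨hc μ, h1 μ h⟩
    · exact ⟨wv_zero μ, I.zero_mem⟩
  · rw [hcv]
    exact Finset.sum_congr rfl fun μ hμ => (if_pos hμ).symm

/-- invariant subspaces are spanned by weight vectors -/
theorem le_span_wv (I : Submodule F V) (hI : ∀ a, ∀ v ∈ I, A a v ∈ I) (hIH : I ≤ Hv A) :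
    I ≤ Submodule.span F {v | v ∈ I ∧ ∃ μ, Wv A μ v} := by
  intro v hv
  obtain ⟨s, c, hc, rfl⟩ := exists_comp_mem I hI hv (hIH hv)
  exact Submodule.sum_mem _ fun μ _ => Submodule.subset_span ⟨(hc μ).2, μ, (hc μ).1⟩

end

section

variable {k K κ : Type} [Field k] [CharZero k] [Field K] [Algebra k K]
  {F : IntermediateField k K} {T : κ → Derivation k K K}

/-- `x` is an eigenvector of the derivations `T a` with the integral eigenvalues `μ a`. -/
def Wt (T : κ → Derivation k K K) (μ : κ → ℤ) (x : K) : Prop := ∀ a, T a x = (μ a : K) * x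

theorem wt_zero (μ : κ → ℤ) : Wt T μ 0 := fun a => by rw [map_zero, mul_zero]

theorem wt_one : Wt T 0 (1 : K) := fun a => by
  rw [(T a).map_one_eq_zero, Pi.zero_apply, Int.cast_zero, zero_mul]

theorem Wt.add {μ : κ → ℤ} {x y : K} (hx : Wt T μ x) (hy : Wt T μ y) : Wt T μ (x + y) :=
  fun a => by rw [map_add, hx a, hy a, mul_add]

theorem Wt.neg {μ : κ → ℤ} {x : K} (hx : Wt T μ x) : Wt T μ (-x) :=
  fun a => by rw [map_neg, hx a, mul_neg]

theorem Wt.mul {μ ν : κ → ℤ} {x y : K} (hx : Wt T μ x) (hy : Wt T ν y) :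
    Wt T (μ + ν) (x * y) := fun a => by
  rw [(T a).leibniz, hx a, hy a, smul_eq_mul, smul_eq_mul, Pi.add_apply]
  push_cast
  ring

theorem Wt.inv {μ : κ → ℤ} {x : K} (hx : Wt T μ x) : Wt T (-μ) x⁻¹ := fun a => by
  by_cases h : x = 0
  · rw [h, inv_zero, map_zero, mul_zero]
  · rw [(T a).leibniz_inv, hx a, smul_eq_mul, Pi.neg_apply]
    push_cast
    field_simp

theorem Wt.div {μ ν : κ → ℤ} {x y : K} (hx : Wt T μ x) (hy : Wt T ν y) :
    Wt T (μ - ν) (x / y) := by
  rw [div_eq_mul_inv, sub_eq_add_neg]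
  exact hx.mul hy.inv

theorem Wt.pow {μ : κ → ℤ} {x : K} (hx : Wt T μ x) (n : ℕ) : Wt T (n • μ) (x ^ n) := by
  induction n with
  | zero =>
    rw [pow_zero, zero_smul]
    exact wt_one
  | succ n ih =>
    rw [pow_succ, succ_nsmul]
    exact ih.mul hx

theorem Wt.zpow {μ : κ → ℤ} {x : K} (hx : Wt T μ x) (n : ℤ) : Wt T (n • μ) (x ^ n) := by
  rcases Int.le_total 0 n with h | h
  · obtain ⟨m, rfl⟩ := Int.eq_ofNat_of_zero_le h
    rw [zpow_natCast, natCast_zsmul]
    exact hx.pow m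
  · obtain ⟨m, hm⟩ := Int.eq_ofNat_of_zero_le (Int.neg_nonneg.2 h)
    have hn : n = -(m : ℤ) := by omega
    rw [hn, zpow_neg, zpow_natCast, neg_smul, natCast_zsmul]
    exact (hx.pow m).inv

theorem Wt.prod {α : Type} (s : Finset α) {μ : α → κ → ℤ} {x : α → K}
    (h : ∀ i ∈ s, Wt T (μ i) (x i)) : Wt T (∑ i ∈ s, μ i) (∏ i ∈ s, x i) := by
  classical
  induction s using Finset.induction_on with
  | empty =>
    rw [Finset.sum_empty, Finset.prod_empty]
    exact wt_one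
  | insert a s ha ih =>
    rw [Finset.sum_insert ha, Finset.prod_insert ha]
    exact (h a (Finset.mem_insert_self a s)).mul (ih fun b hb => h b (Finset.mem_insert_of_mem hb))

theorem Wt.uniq {μ ν : κ → ℤ} {x : K} (hx : Wt T μ x) (hx' : Wt T ν x) (h0 : x ≠ 0) : μ = ν := by
  have hcK : CharZero K := charZero_of_injective_algebraMap (algebraMap k K).injective
  funext a
  have h1 := (hx a).symm.trans (hx' a)
  have h2 := mul_right_cancel₀ h0 h1
  exact_mod_cast h2

theorem wt_const (hT : ∀ a, ∀ f ∈ F, T a f = 0) {x : K} (hx : x ∈ F) : Wt T 0 x := fun a => by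
  rw [hT a x hx, Pi.zero_apply, Int.cast_zero, zero_mul]

theorem Wt.cmul (hT : ∀ a, ∀ f ∈ F, T a f = 0) {μ : κ → ℤ} {c x : K} (hc : c ∈ F)
    (hx : Wt T μ x) : Wt T μ (c * x) := by
  have := (wt_const hT hc).mul hx
  rwa [zero_add] at this

/-- the derivations as linear maps -/
noncomputable def tl (T : κ → Derivation k K K) (hT : ∀ a, ∀ f ∈ F, T a f = 0) :
    κ → K →ₗ[F] K := fun a => dlin (T a) (hT a)

theorem wv_iff (hT : ∀ a, ∀ f ∈ F, T a f = 0) {μ : κ → ℤ} {x : K} :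
    Wv (tl T hT) μ x ↔ Wt T μ x := by
  have h1 : ∀ a, ((μ a : F) • x : K) = (μ a : K) * x := fun a => by
    rw [Algebra.smul_def]
    congr 1
  refine forall_congr' fun a => ?_
  rw [h1]
  exact Iff.rfl

variable (F T) in
/-- the sums of eigenvectors -/
def Hs : Submodule F K := Submodule.span F {x | ∃ μ, Wt T μ x}

theorem hs_eq (hT : ∀ a, ∀ f ∈ F, T a f = 0) : Hs F T = Hv (tl T hT) := by
  unfold Hs Hv
  have h1 : {x | ∃ μ, Wt T μ x} = {v | ∃ μ, Wv (tl T hT) μ v} := by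
    ext x
    exact exists_congr fun μ => (wv_iff hT).symm
  rw [h1]

theorem Wt.mem {μ : κ → ℤ} {x : K} (h : Wt T μ x) : x ∈ Hs F T := Submodule.subset_span ⟨μ, h⟩

theorem hs_one : (1 : K) ∈ Hs F T := wt_one.mem

theorem hs_mul (_hT : ∀ a, ∀ f ∈ F, T a f = 0) {x y : K} (hx : x ∈ Hs F T) (hy : y ∈ Hs F T) :
    x * y ∈ Hs F T := by
  have h1 : ∀ (μ : κ → ℤ) (z : K), Wt T μ z → ∀ y ∈ Hs F T, z * y ∈ Hs F T := by
    intro μ z hz y hy
    unfold Hs at hy
    induction hy using Submodule.span_induction with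
    | mem y hy =>
      obtain ⟨ν, hν⟩ := hy
      exact (hz.mul hν).mem
    | zero => rw [mul_zero]; exact Submodule.zero_mem _
    | add u v _ _ hu hv => rw [mul_add]; exact Submodule.add_mem _ hu hv
    | smul a u _ hu => rw [mul_smul_comm]; exact Submodule.smul_mem _ a hu
  unfold Hs at hx
  induction hx using Submodule.span_induction with
  | mem x hx =>
    obtain ⟨μ, hμ⟩ := hx
    exact h1 μ x hμ y hy
  | zero => rw [zero_mul]; exact Submodule.zero_mem _
  | add u v _ _ hu hv => rw [add_mul]; exact Submodule.add_mem _ hu hv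
  | smul a u _ hu => rw [smul_mul_assoc]; exact Submodule.smul_mem _ a hu

theorem hs_F (hT : ∀ a, ∀ f ∈ F, T a f = 0) {x : K} (hx : x ∈ F) : x ∈ Hs F T :=
  (wt_const hT hx).mem

theorem hs_T (hT : ∀ a, ∀ f ∈ F, T a f = 0) (a : κ) {x : K} (hx : x ∈ Hs F T) :
    T a x ∈ Hs F T := by
  unfold Hs at hx
  induction hx using Submodule.span_induction with
  | mem x hx =>
    obtain ⟨μ, hμ⟩ := hx
    rw [hμ a]
    exact (hμ.cmul hT (F.intCast_mem _)).mem
  | zero => rw [map_zero]; exact Submodule.zero_mem _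
  | add u v _ _ hu hv => rw [map_add]; exact Submodule.add_mem _ hu hv
  | smul b u _ hu =>
    rw [Algebra.smul_def]
    change T a ((b : K) * u) ∈ _
    rw [der_smul (hT a) b.2]
    exact Submodule.smul_mem _ b hu

theorem hs_comp (hT : ∀ a, ∀ f ∈ F, T a f = 0) (I : Submodule F K)
    (hI : ∀ a, ∀ v ∈ I, T a v ∈ I) {x : K} (hxI : x ∈ I)
    (hx : x ∈ Hs F T) : ∃ (s : Finset (κ → ℤ)) (c : (κ → ℤ) → K),
      (∀ μ, Wt T μ (c μ) ∧ c μ ∈ I) ∧ x = ∑ μ ∈ s, c μ := by
  rw [hs_eq hT] at hx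
  obtain ⟨s, c, hc, h⟩ := exists_comp_mem I hI hxI hx
  exact ⟨s, c, fun μ => ⟨(wv_iff hT).1 (hc μ).1, (hc μ).2⟩, h⟩

theorem wt_comp_zero (hT : ∀ a, ∀ f ∈ F, T a f = 0) {s : Finset (κ → ℤ)} {c : (κ → ℤ) → K}
    (hc : ∀ μ ∈ s, Wt T μ (c μ)) (hsum : ∑ μ ∈ s, c μ = 0) : ∀ μ ∈ s, c μ = 0 :=
  comp_zero (A := tl T hT) (fun μ hμ => (wv_iff hT).2 (hc μ hμ)) hsum

/-- a nonzero eigenvector in a nonzero invariant subspace -/
theorem exists_wt_ne (hT : ∀ a, ∀ f ∈ F, T a f = 0) (I : Submodule F K)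
    (hI : ∀ a, ∀ v ∈ I, T a v ∈ I) {x : K} (hxI : x ∈ I) (hx : x ∈ Hs F T) (hx0 : x ≠ 0) :
    ∃ y ∈ I, y ≠ 0 ∧ ∃ μ, Wt T μ y := by
  obtain ⟨s, c, hc, rfl⟩ := hs_comp hT I hI hxI hx
  by_contra hcon
  push Not at hcon
  apply hx0
  refine Finset.sum_eq_zero fun μ _ => ?_
  by_contra h
  exact hcon _ (hc μ).2 h μ (hc μ).1

/-- **Invariant subspaces of finite dimension are spanned by eigenvectors.** -/
theorem fd_hs (hT : ∀ a, ∀ f ∈ F, T a f = 0)
    (hfr : ∀ z : K, ∃ a ∈ Hs F T, ∃ b ∈ Hs F T, b ≠ 0 ∧ z = a / b)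
    (Y : Submodule F K) (hY : Y.FG) (hst : ∀ a, ∀ x ∈ Y, T a x ∈ Y) : Y ≤ Hs F T := by
  classical
  obtain ⟨Z, rfl⟩ := hY
  choose p hp q hq hq0 hpq using hfr
  obtain ⟨I, hI⟩ : ∃ I : Submodule F K, ∀ s, s ∈ I ↔ s ∈ Hs F T ∧
      ∀ y ∈ Submodule.span F (Z : Set K), s * y ∈ Hs F T := by
    refine ⟨{
      carrier := {s | s ∈ Hs F T ∧ ∀ y ∈ Submodule.span F (Z : Set K), s * y ∈ Hs F T}
      add_mem' := fun ha hb => ⟨Submodule.add_mem _ ha.1 hb.1, fun y hy => by
        rw [add_mul]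
        exact Submodule.add_mem _ (ha.2 y hy) (hb.2 y hy)⟩
      zero_mem' := ⟨Submodule.zero_mem _, fun y _ => by
        rw [zero_mul]
        exact Submodule.zero_mem _⟩
      smul_mem' := fun c x hx => ⟨Submodule.smul_mem _ c hx.1, fun y hy => by
        rw [smul_mul_assoc]
        exact Submodule.smul_mem _ c (hx.2 y hy)⟩ }, fun s => Iff.rfl⟩
  have hIst : ∀ a, ∀ s ∈ I, T a s ∈ I := by
    intro a s hs
    rw [hI] at hs ⊢
    refine ⟨hs_T hT a hs.1, fun y hy => ?_⟩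
    have h1 : T a s * y = T a (s * y) - s * T a y := by
      rw [(T a).leibniz, smul_eq_mul, smul_eq_mul]
      ring
    rw [h1]
    exact Submodule.sub_mem _ (hs_T hT a (hs.2 y hy)) (hs.2 _ (hst a y hy))
  have hprod : ∀ s : Finset K, (∏ z ∈ s, q z) ∈ Hs F T := by
    intro s
    induction s using Finset.induction_on with
    | empty => rw [Finset.prod_empty]; exact hs_one
    | insert a s ha ih =>
      rw [Finset.prod_insert ha]
      exact hs_mul hT (hq a) ih
  have hqI : (∏ z ∈ Z, q z) ∈ I := by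
    rw [hI]
    refine ⟨hprod Z, fun y hy => ?_⟩
    induction hy using Submodule.span_induction with
    | mem y hy =>
      rw [← Finset.mul_prod_erase Z q hy]
      have h1 : q y * (∏ x ∈ Z.erase y, q x) * y = (∏ x ∈ Z.erase y, q x) * p y := by
        have h2 : y * q y = p y := by
          have h3 := hpq y
          rw [eq_div_iff (hq0 y)] at h3
          exact h3
        rw [← h2]
        ring
      rw [h1]
      exact hs_mul hT (hprod _) (hp y)
    | zero => rw [mul_zero]; exact Submodule.zero_mem _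
    | add u v _ _ hu hv => rw [mul_add]; exact Submodule.add_mem _ hu hv
    | smul a u _ hu => rw [mul_smul_comm]; exact Submodule.smul_mem _ a hu
  obtain ⟨s, hsI, hs0, μ, hμ⟩ := exists_wt_ne hT I hIst hqI (hprod Z)
    (Finset.prod_ne_zero_iff.2 fun z _ => hq0 z)
  intro y hy
  have h1 := ((hI s).1 hsI).2 y hy
  have h2 : y = s⁻¹ * (s * y) := by rw [inv_mul_cancel_left₀ hs0]
  rw [h2]
  exact hs_mul hT hμ.inv.mem h1

end

end Pool.Agent.H892
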