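import Pool.Agent.H892.S8

/-!
Places of a field at which a diagonalisable derivation is regular but not logarithmic.
-/

set_option autoImplicit false
set_option linter.unusedSectionVars false

open FF Pool.Agent.W602.GT Pool.Agent.W603.LV Pool.Agent.Y172 Pool.Agent.TH122.AB

namespace Pool.Agent.H892

section

variable {k K : Type} [Field k] [CharZero k] [Field K] [Algebra k K]
  {F : IntermediateField k K} {d : ℕ} {x : Fin d → K}

/-- eigenvectors with an integral eigenvalue -/
def Ev (E : Derivation k K K) (z : K) : Prop := ∃ n : ℤ, E z = (n : K) * z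

theorem Ev.mul {E : Derivation k K K} {y z : K} (hy : Ev E y) (hz : Ev E z) : Ev E (y * z) := by
  obtain ⟨n, hn⟩ := hy
  obtain ⟨m, hm⟩ := hz
  refine ⟨n + m, ?_⟩
  rw [E.leibniz, hn, hm, smul_eq_mul, smul_eq_mul]
  push_cast
  ring

theorem Ev.inv {E : Derivation k K K} {z : K} (hz : Ev E z) : Ev E z⁻¹ := by
  obtain ⟨m, hm⟩ := hz
  refine ⟨-m, ?_⟩
  by_cases h : z = 0
  · rw [h, inv_zero, map_zero, mul_zero]
  · rw [E.leibniz_inv, hm, smul_eq_mul]
    push_cast
    field_simp

theorem ev_one {E : Derivation k K K} : Ev E (1 : K) := ⟨0, by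
  rw [E.map_one_eq_zero, Int.cast_zero, zero_mul]⟩

theorem Ev.pow {E : Derivation k K K} {z : K} (hz : Ev E z) (n : ℕ) : Ev E (z ^ n) := by
  induction n with
  | zero => rw [pow_zero]; exact ev_one
  | succ n ih => rw [pow_succ]; exact ih.mul hz

theorem Ev.zpow {E : Derivation k K K} {z : K} (hz : Ev E z) (n : ℤ) : Ev E (z ^ n) := by
  rcases n with n | n
  · rw [Int.ofNat_eq_natCast, zpow_natCast]
    exact hz.pow n
  · rw [zpow_negSucc]
    exact (hz.pow _).inv

/-- **Identification of the places at which a diagonalisable derivation is regular but not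
logarithmic.** -/
theorem exists_adic_of_nonlogT (hG : Gens (k := F) x) {E : Derivation k K K}
    (hEF : ∀ f ∈ F, E f = 0) (hEx : ∀ i, Ev E (x i))
    {P : Place k K} (hE : DerReg P E) (hl : ¬ DerLog P E) :
    ∃ p : MvPolynomial (Fin d) F, Irreducible p ∧ P.ord (MvPolynomial.aeval x p) = 1 ∧
      Adic P x p := by
  classical
  have hcK : CharZero K := charZero_of_injective_algebraMap (algebraMap k K).injective
  have hev0 : ∀ z, Ev E z → P.ord z = 0 := by
    rintro z ⟨n, hn⟩
    exact nonlog_wt hE hl hn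
  have hevF : ∀ f ∈ F, Ev E f := fun f hf => ⟨0, by rw [hEF f hf, Int.cast_zero, zero_mul]⟩
  have hx0 : ∀ i, x i ≠ 0 := by
    intro i
    have := hG.ne (MvPolynomial.X_ne_zero (R := F) i)
    rwa [MvPolynomial.aeval_X] at this
  have hmono : ∀ (s : Fin d →₀ ℕ) (a : F), Ev E (MvPolynomial.aeval x
      (MvPolynomial.monomial s a)) := by
    intro s a
    rw [MvPolynomial.aeval_monomial]
    refine Ev.mul (hevF _ a.2) ?_
    rw [Finsupp.prod]
    have : ∀ t : Finset (Fin d), Ev E (∏ i ∈ t, x i ^ s i) := by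
      intro t
      induction t using Finset.induction_on with
      | empty => rw [Finset.prod_empty]; exact ev_one
      | insert b t hb ih =>
        rw [Finset.prod_insert hb]
        exact ((hEx b).pow _).mul ih
    exact this _
  have hreg : ∀ q : MvPolynomial (Fin d) F, P.Reg (MvPolynomial.aeval x q) := by
    intro q
    induction q using MvPolynomial.induction_on' with
    | monomial s a => exact Or.inr (hev0 _ (hmono s a)).ge
    | add p q hp hq => rw [map_add]; exact Og.add hp hq
  have hnn : ∀ q : MvPolynomial (Fin d) F, q ≠ 0 → 0 ≤ P.ord (MvPolynomial.aeval x q) :=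
    fun q hq => (P.reg_iff (hG.ne hq)).1 (hreg q)
  -- an irreducible polynomial of positive order
  obtain ⟨p, hp, hpP⟩ : ∃ p : MvPolynomial (Fin d) F, Irreducible p ∧
      0 < P.ord (MvPolynomial.aeval x p) := by
    obtain ⟨g, hg0, hgP⟩ : ∃ g : MvPolynomial (Fin d) F, g ≠ 0 ∧
        0 < P.ord (MvPolynomial.aeval x g) := by
      by_contra hcon
      push Not at hcon
      obtain ⟨t, ht0, ht⟩ := P.surj
      obtain ⟨a, b, hb, hab⟩ := hG.gen t
      have ha : a ≠ 0 := by
        rintro rfl
        rw [map_zero, zero_div] at hab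
        exact ht0 hab
      have h1 := le_antisymm (hcon a ha) (hnn a ha)
      have h2 := le_antisymm (hcon b hb) (hnn b hb)
      rw [hab, P.ord_div (hG.ne ha) (hG.ne hb), h1, h2] at ht
      norm_num at ht
    induction g using WfDvdMonoid.induction_on_irreducible with
    | zero => exact absurd rfl hg0
    | unit u hu =>
      exfalso
      obtain ⟨u', hu'⟩ := hu.exists_right_inv
      have h1 : u' ≠ 0 := by
        rintro rfl
        rw [mul_zero] at hu'
        exact zero_ne_one hu'
      have h2 := congrArg (MvPolynomial.aeval x) hu'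
      rw [map_mul, map_one] at h2
      have h3 := P.ord_mul (hG.ne hg0) (hG.ne h1)
      rw [h2, P.ord_one] at h3
      have h4 := hnn u' h1
      omega
    | mul a i ha hi ih =>
      by_cases h1 : 0 < P.ord (MvPolynomial.aeval x i)
      · exact ⟨i, hi, h1⟩
      · refine ih ha ?_
        rw [map_mul, P.ord_mul (hG.ne hi.ne_zero) (hG.ne ha)] at hgP
        omega
  have hpr : Prime p := hp.prime
  -- homogeneous polynomials
  obtain ⟨H, hH⟩ : ∃ H : Set (MvPolynomial (Fin d) F), ∀ q, q ∈ H ↔ q ≠ 0 ∧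
      Ev E (MvPolynomial.aeval x q) := ⟨{q | _}, fun _ => Iff.rfl⟩
  have hHmul : ∀ a ∈ H, ∀ b ∈ H, a * b ∈ H := by
    intro a ha b hb
    rw [hH] at ha hb ⊢
    exact ⟨mul_ne_zero ha.1 hb.1, by rw [map_mul]; exact ha.2.mul hb.2⟩
  have hH1 : (1 : MvPolynomial (Fin d) F) ∈ H := (hH _).2 ⟨one_ne_zero, by
    rw [map_one]
    exact ev_one⟩
  have hHpow : ∀ a ∈ H, ∀ n : ℕ, a ^ n ∈ H := by
    intro a ha n
    induction n with
    | zero => rw [pow_zero]; exact hH1
    | succ n ih => rw [pow_succ]; exact hHmul _ ih _ ha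
  have hpH : ∀ m ∈ H, ¬ p ∣ m := by
    rintro m hm ⟨r, rfl⟩
    have h1 := hev0 _ ((hH _).1 hm).2
    have hr : r ≠ 0 := right_ne_zero_of_mul ((hH _).1 hm).1
    rw [map_mul, P.ord_mul (hG.ne hp.ne_zero) (hG.ne hr)] at h1
    have h2 := hnn r hr
    omega
  -- an eigenvector of minimal positive weight
  obtain ⟨Wt', hWt'⟩ : ∃ Wt' : ℤ → Prop, ∀ n, Wt' n ↔ ∃ a ∈ H, ∃ b ∈ H,
      E (MvPolynomial.aeval x a / MvPolynomial.aeval x b) =
        (n : K) * (MvPolynomial.aeval x a / MvPolynomial.aeval x b) := ⟨fun n => _, fun _ => Iff.rfl⟩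
  have hevdiv : ∀ {y z : K} {n m : ℤ}, z ≠ 0 → E y = (n : K) * y → E z = (m : K) * z →
      E (y / z) = ((n - m : ℤ) : K) * (y / z) := by
    intro y z n m hz hy hzm
    rw [E.leibniz_div, hy, hzm, smul_eq_mul, smul_eq_mul, smul_eq_mul]
    push_cast
    field_simp
  have hWsub : ∀ n m, Wt' n → Wt' m → Wt' (n - m) := by
    intro n m hn hm
    rw [hWt'] at hn hm ⊢
    obtain ⟨a, ha, b, hb, hab⟩ := hn
    obtain ⟨a', ha', b', hb', hab'⟩ := hm
    have h1 := hG.ne ((hH _).1 ha).1
    have h2 := hG.ne ((hH _).1 hb).1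
    have h3 := hG.ne ((hH _).1 ha').1
    have h4 := hG.ne ((hH _).1 hb').1
    refine ⟨a * b', hHmul _ ha _ hb', b * a', hHmul _ hb _ ha', ?_⟩
    have h5 : MvPolynomial.aeval x (a * b') / MvPolynomial.aeval x (b * a') =
        (MvPolynomial.aeval x a / MvPolynomial.aeval x b) /
          (MvPolynomial.aeval x a' / MvPolynomial.aeval x b') := by
      rw [map_mul, map_mul]
      field_simp
    rw [h5]
    exact hevdiv (div_ne_zero h3 h4) hab hab'
  have hXH : ∀ i, MvPolynomial.X i ∈ H := fun i => (hH _).2 ⟨MvPolynomial.X_ne_zero i, by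
    rw [MvPolynomial.aeval_X]
    exact hEx i⟩
  obtain ⟨g, hg0, hgW, hgmin⟩ : ∃ g : ℕ, g ≠ 0 ∧ Wt' g ∧ ∀ n : ℤ, Wt' n → (g : ℤ) ∣ n := by
    have h0 : Wt' 0 := by
      rw [hWt']
      refine ⟨1, hH1, 1, hH1, ?_⟩
      rw [map_one, div_one, E.map_one_eq_zero, Int.cast_zero, zero_mul]
    have hex : ∃ n : ℕ, n ≠ 0 ∧ Wt' n := by
      obtain ⟨i, m, hm0, hm⟩ : ∃ (i : Fin d) (m : ℤ), m ≠ 0 ∧ E (x i) = (m : K) * x i := by
        by_contra hcon
        push Not at hcon
        have h1 : ∀ i, E (x i) = 0 := by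
          intro i
          obtain ⟨m, hm⟩ := hEx i
          by_cases hm0 : m = 0
          · rw [hm, hm0, Int.cast_zero, zero_mul]
          · exact absurd hm (hcon i m hm0)
        have h2 : ∀ q : MvPolynomial (Fin d) F, E (MvPolynomial.aeval x q) = 0 := by
          intro q
          induction q using MvPolynomial.induction_on with
          | C a => rw [MvPolynomial.aeval_C]; exact hEF _ a.2
          | add p q hp hq => rw [map_add, map_add, hp, hq, add_zero]
          | mul_X p i hp =>
            rw [map_mul, MvPolynomial.aeval_X, E.leibniz, hp, h1, smul_zero, smul_zero, add_zero]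
        apply (nonlog_ord hE hl hpP.ne').1
        exact h2 p
      have h2 : Wt' m := by
        rw [hWt']
        refine ⟨_, hXH i, 1, hH1, ?_⟩
        rw [map_one, div_one, MvPolynomial.aeval_X, hm]
      have h3 : Wt' (-m) := by
        have := hWsub 0 m h0 h2
        rwa [zero_sub] at this
      rcases Int.lt_or_gt_of_ne hm0 with h4 | h4
      · refine ⟨(-m).toNat, by omega, ?_⟩
        rwa [Int.toNat_of_nonneg (by omega)]
      · refine ⟨m.toNat, by omega, ?_⟩
        rwa [Int.toNat_of_nonneg (by omega)]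
    obtain ⟨hg0, hgW⟩ := Nat.find_spec hex
    refine ⟨Nat.find hex, hg0, hgW, fun n hn => ?_⟩
    obtain ⟨g, hg⟩ : ∃ g, g = Nat.find hex := ⟨_, rfl⟩
    rw [← hg] at hg0 hgW ⊢
    have hmul : ∀ q : ℕ, Wt' (n - q * g) ∧ Wt' (-(q * g : ℤ)) := by
      intro q
      induction q with
      | zero =>
        rw [Nat.cast_zero, zero_mul, sub_zero, neg_zero]
        exact ⟨hn, h0⟩
      | succ q ih =>
        have h1 := hWsub _ _ ih.1 hgW
        have h2 := hWsub _ _ ih.2 hgW
        have e1 : n - q * g - g = n - ((q + 1 : ℕ) : ℤ) * g := by push_cast; ring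
        have e2 : -(q * g : ℤ) - g = -(((q + 1 : ℕ) : ℤ) * g) := by push_cast; ring
        rw [e1] at h1
        rw [e2] at h2
        exact ⟨h1, h2⟩
    have hmul' : ∀ q : ℤ, Wt' (n - q * g) := by
      intro q
      rcases Int.le_total 0 q with h | h
      · obtain ⟨m, rfl⟩ := Int.eq_ofNat_of_zero_le h
        exact (hmul m).1
      · obtain ⟨m, hm⟩ := Int.eq_ofNat_of_zero_le (Int.neg_nonneg.2 h)
        have h1 := hWsub _ _ hn (hmul m).2
        have e1 : n - -(m * g : ℤ) = n - q * g := by
          have : q = -(m : ℤ) := by omega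
          rw [this]
          ring
        rwa [e1] at h1
    have h1 := hmul' (n / g)
    have h2 : n - n / g * g = n % g := by
      have := Int.emod_add_mul_ediv n g
      linarith
    rw [h2] at h1
    have hgp : (0 : ℤ) < g := by
      have : 0 < g := Nat.pos_of_ne_zero hg0
      exact_mod_cast this
    have h3 := Int.emod_nonneg n hgp.ne'
    have h4 := Int.emod_lt_of_pos n hgp
    by_contra h5
    have h6 : n % g ≠ 0 := fun h => h5 (Int.dvd_of_emod_eq_zero h)
    have h7 : (n % g).toNat < Nat.find hex := by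
      rw [← hg]
      omega
    refine Nat.find_min hex h7 ⟨by omega, ?_⟩
    rwa [Int.toNat_of_nonneg h3]
  obtain ⟨hn, hnH, hd, hdH, hhE⟩ := (hWt' _).1 hgW
  obtain ⟨h, hhd⟩ : ∃ h, h = MvPolynomial.aeval x hn / MvPolynomial.aeval x hd := ⟨_, rfl⟩
  rw [← hhd] at hhE
  have hhn0 := hG.ne ((hH _).1 hnH).1
  have hhd0 := hG.ne ((hH _).1 hdH).1
  have hh0 : h ≠ 0 := by
    rw [hhd]
    exact div_ne_zero hhn0 hhd0
  have hhP : P.ord h = 0 := hev0 h ⟨_, hhE⟩
  have hgK : (g : K) ≠ 0 := by exact_mod_cast hg0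
  have hEh : E h = (g : K) * h := by
    rw [hhE]
    norm_cast
  have hEzp : ∀ r : ℤ, E (h ^ r) = ((r * g : ℤ) : K) * h ^ r := by
    intro r
    rw [der_zpow E hh0, hEh]
    push_cast
    field_simp
  -- elements whose eigenvalue is a multiple of `g`
  have hdecomp : ∀ z : K, z ≠ 0 → (∃ a ∈ H, ∃ b ∈ H, z = MvPolynomial.aeval x a /
      MvPolynomial.aeval x b) → ∃ (r : ℤ) (c : K), E c = 0 ∧ z = c * h ^ r := by
    rintro z hz0 ⟨a, ha, b, hb, hz⟩
    obtain ⟨n, hn⟩ := ((hH _).1 ha).2
    obtain ⟨m, hm⟩ := ((hH _).1 hb).2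
    have h1 := hevdiv (hG.ne ((hH _).1 hb).1) hn hm
    obtain ⟨r, hr⟩ := hgmin _ ((hWt' (n - m)).2 ⟨a, ha, b, hb, h1⟩)
    rw [← hz, hr] at h1
    refine ⟨r, z / h ^ r, ?_, by rw [div_mul_cancel₀ _ (zpow_ne_zero _ hh0)]⟩
    have h2 := hevdiv (zpow_ne_zero r hh0) h1 (hEzp r)
    rw [h2]
    have h3 : (g : ℤ) * r - r * g = 0 := by ring
    rw [h3, Int.cast_zero, zero_mul]
  -- polynomials in `h`
  have htr : ∀ f : Polynomial (consts E), Polynomial.aeval h f = 0 → f = 0 := by
    intro f hf
    by_contra hf0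
    have h1 : IsAlgebraic (consts E) h := ⟨f, hf0, hf⟩
    have h2 := kills_alg (M := consts E) (fun z hz => hz) h1
    rw [hEh] at h2
    exact mul_ne_zero hgK hh0 h2
  have hpoly0 : ∀ q : MvPolynomial (Fin d) F, ∃ (N : ℕ) (f : Polynomial (consts E)),
      MvPolynomial.aeval x q * h ^ N = Polynomial.aeval h f := by
    intro q
    induction q using MvPolynomial.induction_on' with
    | monomial s a =>
      by_cases ha : a = 0
      · refine ⟨0, 0, ?_⟩
        rw [ha, map_zero, map_zero, zero_mul, map_zero]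
      have hmH : MvPolynomial.monomial s a ∈ H := (hH _).2 ⟨by
        rw [Ne, MvPolynomial.monomial_eq_zero]
        exact ha, hmono s a⟩
      obtain ⟨r, c, hc, hz⟩ := hdecomp _ (hG.ne ((hH _).1 hmH).1) ⟨_, hmH, 1, hH1, by
        rw [map_one, div_one]⟩
      refine ⟨r.natAbs, Polynomial.monomial (r + r.natAbs).toNat (⟨c, hc⟩ : consts E), ?_⟩
      rw [hz, Polynomial.aeval_monomial]
      change c * h ^ r * h ^ r.natAbs = c * h ^ (r + r.natAbs).toNat
      have h1 : (0 : ℤ) ≤ r + r.natAbs := by omega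
      rw [mul_assoc, ← zpow_natCast h (r + r.natAbs).toNat, Int.toNat_of_nonneg h1,
        zpow_add₀ hh0, zpow_natCast]
    | add p q hp hq =>
      obtain ⟨N, f, hf⟩ := hp
      obtain ⟨N', f', hf'⟩ := hq
      refine ⟨N + N', f * Polynomial.X ^ N' + f' * Polynomial.X ^ N, ?_⟩
      rw [map_add, map_add, map_mul, map_mul, map_pow, map_pow, Polynomial.aeval_X, ← hf, ← hf']
      ring
  have hform : ∀ q : MvPolynomial (Fin d) F, q ≠ 0 → ∃ (z : ℤ) (f : Polynomial (consts E)),
      f.coeff 0 ≠ 0 ∧ MvPolynomial.aeval x q = h ^ z * Polynomial.aeval h f := by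
    intro q hq
    obtain ⟨N, f, hf⟩ := hpoly0 q
    have hf0 : f ≠ 0 := by
      rintro rfl
      rw [map_zero] at hf
      exact mul_ne_zero (hG.ne hq) (pow_ne_zero _ hh0) hf
    obtain ⟨f1, hf1, hnd⟩ := (FiniteMultiplicity.of_not_isUnit Polynomial.not_isUnit_X
      hf0).exists_eq_pow_mul_and_not_dvd
    refine ⟨(multiplicity Polynomial.X f : ℤ) - N, f1, ?_, ?_⟩
    · rwa [Polynomial.X_dvd_iff] at hnd
    · rw [hf1, map_mul, map_pow, Polynomial.aeval_X] at hf
      rw [zpow_sub₀ hh0, zpow_natCast, zpow_natCast, div_mul_eq_mul_div, ← hf,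
        mul_div_cancel_right₀ _ (pow_ne_zero _ hh0)]
  -- denominators of constants
  have hrange : ∀ z : K, z ∈ (MvPolynomial.aeval x : MvPolynomial (Fin d) F →ₐ[F] K).range ↔
      ∃ q : MvPolynomial (Fin d) F, MvPolynomial.aeval x q = z := fun z => Iff.rfl
  have hErange : ∀ q : MvPolynomial (Fin d) F, ∃ q' : MvPolynomial (Fin d) F,
      MvPolynomial.aeval x q' = E (MvPolynomial.aeval x q) := by
    intro q
    induction q using MvPolynomial.induction_on' with
    | monomial s a =>
      obtain ⟨n, hn⟩ := hmono s a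
      refine ⟨MvPolynomial.C ((n : ℤ) : F) * MvPolynomial.monomial s a, ?_⟩
      rw [hn, map_mul, MvPolynomial.aeval_C]
      congr 1
    | add p q hp hq =>
      obtain ⟨p', hp'⟩ := hp
      obtain ⟨q', hq'⟩ := hq
      exact ⟨p' + q', by rw [map_add, hp', hq', map_add, map_add]⟩
  have hden : ∀ c : K, E c = 0 → ∃ m ∈ H, ∃ m' : MvPolynomial (Fin d) F,
        MvPolynomial.aeval x m * c = MvPolynomial.aeval x m' := by
    intro c hc
    obtain ⟨a, b, hb, hab⟩ := hG.gen c
    obtain ⟨I, hI⟩ : ∃ I : Submodule F K, ∀ s, s ∈ I ↔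
        (∃ q : MvPolynomial (Fin d) F, MvPolynomial.aeval x q = s) ∧
        ∃ q : MvPolynomial (Fin d) F, MvPolynomial.aeval x q = s * c := by
      refine ⟨{
        carrier := {s | (∃ q : MvPolynomial (Fin d) F, MvPolynomial.aeval x q = s) ∧
          ∃ q : MvPolynomial (Fin d) F, MvPolynomial.aeval x q = s * c}
        add_mem' := ?_
        zero_mem' := ⟨⟨0, map_zero _⟩, ⟨0, by rw [map_zero, zero_mul]⟩⟩
        smul_mem' := ?_ }, fun s => Iff.rfl⟩
      · rintro s s' ⟨⟨q1, h1⟩, ⟨q2, h2⟩⟩ ⟨⟨q1', h1'⟩, ⟨q2', h2'⟩⟩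
        exact ⟨⟨q1 + q1', by rw [map_add, h1, h1']⟩, ⟨q2 + q2', by
          rw [map_add, h2, h2', add_mul]⟩⟩
      · rintro r s ⟨⟨q1, h1⟩, ⟨q2, h2⟩⟩
        refine ⟨⟨MvPolynomial.C r * q1, ?_⟩, ⟨MvPolynomial.C r * q2, ?_⟩⟩
        · rw [map_mul, MvPolynomial.aeval_C, h1, Algebra.smul_def]
        · rw [map_mul, MvPolynomial.aeval_C, h2, Algebra.smul_def, mul_assoc]
    have hIE : ∀ a : Unit, ∀ s ∈ I, (fun _ : Unit => E) a s ∈ I := by
      intro a s hs
      rw [hI] at hs ⊢
      obtain ⟨⟨q1, h1⟩, ⟨q2, h2⟩⟩ := hs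
      obtain ⟨q1', h1'⟩ := hErange q1
      obtain ⟨q2', h2'⟩ := hErange q2
      refine ⟨⟨q1', by rw [h1', h1]⟩, ⟨q2', ?_⟩⟩
      change MvPolynomial.aeval x q2' = E s * c
      rw [h2', h2, E.leibniz, hc, smul_zero, zero_add, smul_eq_mul, mul_comm]
    have hHs : ∀ q : MvPolynomial (Fin d) F, MvPolynomial.aeval x q ∈ Hs F (fun _ : Unit => E) := by
      intro q
      induction q using MvPolynomial.induction_on' with
      | monomial s a =>
        obtain ⟨n, hn⟩ := hmono s a
        exact Wt.mem (μ := fun _ => n) fun _ => hn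
      | add p q hp hq => rw [map_add]; exact Submodule.add_mem _ hp hq
    obtain ⟨y, hyI, hy0, μ, hμ⟩ := exists_wt_ne (F := F) (T := fun _ : Unit => E)
      (fun _ => hEF) I hIE
      ((hI (MvPolynomial.aeval x b)).2 ⟨⟨b, rfl⟩, ⟨a, by
        rw [hab, mul_div_cancel₀ _ (hG.ne hb)]⟩⟩) (hHs b) (hG.ne hb)
    obtain ⟨⟨q1, h1⟩, ⟨q2, h2⟩⟩ := (hI y).1 hyI
    refine ⟨q1, (hH q1).2 ⟨?_, μ (), ?_⟩, q2, by rw [h1, h2]⟩
    · rintro rfl
      rw [map_zero] at h1
      exact hy0 h1.symm
    · rw [h1]
      exact hμ ()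
  have hclear : ∀ f : Polynomial (consts E), ∃ m ∈ H, ∃ m' : MvPolynomial (Fin d) F,
        MvPolynomial.aeval x m * Polynomial.aeval h f = MvPolynomial.aeval x m' := by
    intro f
    induction f using Polynomial.induction_on' with
    | add f g hf hg =>
      obtain ⟨m, hm0, m', hm'⟩ := hf
      obtain ⟨r, hr0, r', hr'⟩ := hg
      refine ⟨m * r, hHmul _ hm0 _ hr0, r * m' + m * r', ?_⟩
      rw [map_mul, map_add, map_add, map_mul, map_mul, ← hm', ← hr']
      ring
    | monomial n a =>
      obtain ⟨m, hm0, m', hm'⟩ := hden a a.2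
      refine ⟨m * hd ^ n, hHmul _ hm0 _ (hHpow _ hdH n), m' * hn ^ n, ?_⟩
      rw [Polynomial.aeval_monomial, map_mul, map_mul, map_pow, map_pow, ← hm']
      change MvPolynomial.aeval x m * MvPolynomial.aeval x hd ^ n * ((a : K) * h ^ n) = _
      have h1 : MvPolynomial.aeval x hd * h = MvPolynomial.aeval x hn := by
        rw [hhd, mul_div_cancel₀ _ hhd0]
      rw [← h1]
      ring
  have hzfrac : ∀ z : ℤ, ∃ u ∈ H, ∃ v ∈ H, MvPolynomial.aeval x v * h ^ z =
      MvPolynomial.aeval x u := by
    intro z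
    have h1 : MvPolynomial.aeval x hd * h = MvPolynomial.aeval x hn := by
      rw [hhd, mul_div_cancel₀ _ hhd0]
    rcases z with n | n
    · refine ⟨hn ^ n, hHpow _ hnH n, hd ^ n, hHpow _ hdH n, ?_⟩
      rw [Int.ofNat_eq_natCast, zpow_natCast, map_pow, map_pow, ← h1]
      ring
    · refine ⟨hd ^ (n + 1), hHpow _ hdH _, hn ^ (n + 1), hHpow _ hnH _, ?_⟩
      rw [zpow_negSucc, map_pow, map_pow, ← h1, mul_pow, mul_assoc,
        mul_inv_cancel₀ (pow_ne_zero _ hh0), mul_one]
  have hTrivE : Triv (consts E) P := fun f hf _ => nonlog_const hE hl hf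
  have hregh : ∀ f : Polynomial (consts E), Og P 0 (Polynomial.aeval h f) := fun f =>
    og_poly hTrivE hhP.ge f
  -- the main point
  have hmain : ∀ q : MvPolynomial (Fin d) F, q ≠ 0 → 0 < P.ord (MvPolynomial.aeval x q) →
      p ∣ q := by
    intro q hq0 hq
    by_contra hpq
    obtain ⟨zp, fp, hfp0, hfp⟩ := hform p hp.ne_zero
    obtain ⟨zq, fq, hfq0, hfq⟩ := hform q hq0
    have hordp : ∀ (z : ℤ) (f : Polynomial (consts E)) (r : MvPolynomial (Fin d) F),
        0 < P.ord (MvPolynomial.aeval x r) → MvPolynomial.aeval x r =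
          h ^ z * Polynomial.aeval h f → Og P 1 (Polynomial.aeval h f) := by
      intro z f r hr hrf
      have h1 : Polynomial.aeval h f = h ^ (-z) * MvPolynomial.aeval x r := by
        rw [hrf, ← mul_assoc, ← zpow_add₀ hh0, neg_add_cancel, zpow_zero, one_mul]
      rw [h1]
      have h2 : Og P 0 (h ^ (-z)) := Or.inr (by rw [P.ord_zpow, hhP, mul_zero])
      have h3 : Og P 1 (MvPolynomial.aeval x r) := Or.inr hr
      have h4 := h2.mul h3
      rwa [zero_add] at h4
    by_cases hcop : IsCoprime fp fq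
    · obtain ⟨α, β, hαβ⟩ := hcop
      have h2 := congrArg (Polynomial.aeval h) hαβ
      rw [map_add, map_mul, map_mul, map_one] at h2
      have h3 : Og P 1 (1 : K) := by
        rw [← h2]
        refine Og.add ?_ ?_
        · have := (hregh α).mul (hordp zp fp p hpP hfp)
          rwa [zero_add] at this
        · have := (hregh β).mul (hordp zq fq q hq hfq)
          rwa [zero_add] at this
      have h4 := h3.resolve_left one_ne_zero
      rw [P.ord_one] at h4
      omega
    · -- a common factor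
      obtain ⟨g0, hgu, ⟨a, ha⟩, ⟨b, hb⟩⟩ : ∃ g0 : Polynomial (consts E), ¬ IsUnit g0 ∧
          g0 ∣ fp ∧ g0 ∣ fq := by
        refine ⟨EuclideanDomain.gcd fp fq, fun h => hcop ?_, EuclideanDomain.gcd_dvd_left _ _,
          EuclideanDomain.gcd_dvd_right _ _⟩
        exact (EuclideanDomain.gcd_isUnit_iff).1 h
      have hg00 : g0.coeff 0 ≠ 0 := by
        intro h0
        apply hfp0
        rw [ha, Polynomial.mul_coeff_zero, h0, zero_mul]
      obtain ⟨m1, hm1, m1', hm1'⟩ := hclear g0
      obtain ⟨m2, hm2, m2', hm2'⟩ := hclear a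
      obtain ⟨m3, hm3, m3', hm3'⟩ := hclear b
      obtain ⟨u, hu, v, hv, huv⟩ := hzfrac zp
      obtain ⟨u', hu', v', hv', huv'⟩ := hzfrac zq
      have e1 : m1' * m2' * u = m1 * m2 * v * p := by
        apply hG.inj
        rw [map_mul, map_mul, map_mul, map_mul, map_mul, ← hm1', ← hm2', hfp, ha, map_mul, ← huv]
        ring
      have e2 : m1' * m3' * u' = m1 * m3 * v' * q := by
        apply hG.inj
        rw [map_mul, map_mul, map_mul, map_mul, map_mul, ← hm1', ← hm3', hfq, hb, map_mul, ← huv']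
        ring
      have hd1 : p ∣ m1' * m2' := by
        refine (hpr.dvd_or_dvd (⟨m1 * m2 * v, by rw [e1]; ring⟩ : p ∣ m1' * m2' * u)).resolve_right
          (hpH u hu)
      rcases hpr.dvd_or_dvd hd1 with h1 | h1
      · have h2 : p ∣ m1 * m3 * v' * q := by
          rw [← e2]
          exact (h1.mul_right _).mul_right _
        rcases hpr.dvd_or_dvd h2 with h3 | h3
        · exact hpH _ (hHmul _ (hHmul _ hm1 _ hm3) _ hv') h3
        · exact hpq h3
      · obtain ⟨r, hr⟩ := h1
        have e3 : m1' * r * u = m1 * m2 * v := by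
          refine mul_left_cancel₀ hp.ne_zero ?_
          rw [hr] at e1
          linear_combination e1
        have hr0 : r ≠ 0 := by
          rintro rfl
          rw [mul_zero, zero_mul] at e3
          exact ((hH _).1 (hHmul _ (hHmul _ hm1 _ hm2) _ hv)).1 e3.symm
        obtain ⟨zr, fr, hfr0, hfr⟩ := hform r hr0
        obtain ⟨GG, hGG⟩ : ∃ GG, GG = g0 * fr := ⟨_, rfl⟩
        have hGG0 : GG.coeff 0 ≠ 0 := by
          rw [hGG, Polynomial.mul_coeff_zero]
          exact mul_ne_zero hg00 hfr0
        have hm1K := hG.ne ((hH _).1 hm1).1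
        have huK := hG.ne ((hH _).1 hu).1
        have e4 : Polynomial.aeval h GG = MvPolynomial.aeval x m2 * MvPolynomial.aeval x v *
            (MvPolynomial.aeval x u)⁻¹ * (h ^ zr)⁻¹ := by
          have h2 := congrArg (MvPolynomial.aeval x) e3
          rw [map_mul, map_mul, map_mul, map_mul, ← hm1', hfr] at h2
          rw [hGG, map_mul]
          have h3 := zpow_ne_zero zr hh0
          field_simp
          refine mul_left_cancel₀ hm1K ?_
          linear_combination h2
        obtain ⟨n, hn'⟩ : Ev E (Polynomial.aeval h GG) := by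
          rw [e4]
          exact (((((hH _).1 hm2).2).mul ((hH _).1 hv).2).mul ((hH _).1 hu).2.inv).mul
            (Ev.zpow ⟨_, hhE⟩ zr).inv
        have hgc : E (g : K) = 0 := by rw [Derivation.map_natCast]
        have hnc : E (n : K) = 0 := by rw [Derivation.map_intCast]
        have hEder : ∀ f : Polynomial (consts E), E (Polynomial.aeval h f) =
            Polynomial.aeval h (Polynomial.C (⟨(g : K), hgc⟩ : consts E) * (Polynomial.X *
              Polynomial.derivative f)) := by
          intro f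
          induction f using Polynomial.induction_on' with
          | add f g hf hg => rw [map_add, map_add, hf, hg, map_add, mul_add, mul_add, map_add]
          | monomial N c =>
            rw [Polynomial.aeval_monomial, Polynomial.derivative_monomial,
              map_mul (Polynomial.aeval h), map_mul (Polynomial.aeval h),
              Polynomial.aeval_C, Polynomial.aeval_X, Polynomial.aeval_monomial]
            change E ((c : K) * h ^ N) = (g : K) * (h * ((c : K) * (N : K) * h ^ (N - 1)))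
            have hcE : E (c : K) = 0 := c.2
            rw [E.leibniz, hcE, smul_zero, add_zero, E.leibniz_pow, hEh, smul_eq_mul,
              nsmul_eq_mul, smul_eq_mul]
            rcases N with - | N
            · simp
            · rw [Nat.add_sub_cancel]
              ring
        have hz : Polynomial.C (⟨(g : K), hgc⟩ : consts E) * (Polynomial.X *
            Polynomial.derivative GG) - Polynomial.C (⟨(n : K), hnc⟩ : consts E) * GG = 0 := by
          apply htr
          rw [map_sub, ← hEder, hn', map_mul, Polynomial.aeval_C]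
          exact sub_self _
        have hcoef : ∀ i : ℕ, ((g : K) * i - n) * ((GG.coeff i : consts E) : K) = 0 := by
          intro i
          have h2 := congrArg (fun f : Polynomial (consts E) => ((f.coeff i : consts E) : K)) hz
          simp only [Polynomial.coeff_sub, Polynomial.coeff_C_mul, Polynomial.coeff_zero] at h2
          rcases i with - | i
          · rw [Polynomial.mul_coeff_zero, Polynomial.coeff_X_zero, zero_mul, mul_zero] at h2
            have h3 : (0 : K) - (n : K) * ((GG.coeff 0 : consts E) : K) = 0 := h2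
            rw [Nat.cast_zero, mul_zero, sub_mul, zero_mul]
            exact h3
          · rw [Polynomial.coeff_X_mul, Polynomial.coeff_derivative] at h2
            have h3 : (g : K) * (((GG.coeff (i + 1) : consts E) : K) * ((i : K) + 1)) -
              (n : K) * ((GG.coeff (i + 1) : consts E) : K) = 0 := h2
            push_cast
            linear_combination h3
        have hn0 : (n : K) = 0 := by
          have h2 := hcoef 0
          rw [Nat.cast_zero, mul_zero, zero_sub] at h2
          have h3 := (mul_eq_zero.1 h2).resolve_right fun h3 => hGG0 (Subtype.ext h3)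
          exact neg_eq_zero.1 h3
        have hGC : GG = Polynomial.C (GG.coeff 0) := by
          ext1 i
          rcases i with - | i
          · rw [Polynomial.coeff_C_zero]
          · rw [Polynomial.coeff_C_succ]
            have h2 := hcoef (i + 1)
            rw [hn0, sub_zero] at h2
            exact Subtype.ext ((mul_eq_zero.1 h2).resolve_left (mul_ne_zero hgK (by
              exact_mod_cast Nat.succ_ne_zero i)))
        apply hgu
        have h5 : IsUnit GG := by
          rw [hGC]
          exact (isUnit_iff_ne_zero.2 hGG0).map Polynomial.C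
        rw [hGG] at h5
        exact isUnit_of_mul_isUnit_left h5
  have hadic : Adic P x p := by
    intro Q hQ
    refine ⟨hnn Q hQ, fun h0 hdvd => ?_, fun hdvd => ?_⟩
    · obtain ⟨R, rfl⟩ := hdvd
      have hR : R ≠ 0 := right_ne_zero_of_mul hQ
      rw [map_mul, P.ord_mul (hG.ne hp.ne_zero) (hG.ne hR)] at h0
      have := hnn R hR
      omega
    · by_contra h1
      exact hdvd (hmain Q hQ (lt_of_le_of_ne (hnn Q hQ) (Ne.symm h1)))
  refine ⟨p, hp, ?_, hadic⟩
  -- the order of `p` is one
  have hdiv : ∀ Q : MvPolynomial (Fin d) F, Q ≠ 0 →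
      P.ord (MvPolynomial.aeval x p) ∣ P.ord (MvPolynomial.aeval x Q) := by
    intro Q hQ
    have hfin : FiniteMultiplicity p Q := FiniteMultiplicity.of_not_isUnit hp.not_isUnit hQ
    obtain ⟨c, hc, hc'⟩ := hfin.exists_eq_pow_mul_and_not_dvd
    have hc0 : c ≠ 0 := by
      rintro rfl
      exact hc' (dvd_zero _)
    rw [hc, map_mul, map_pow, P.ord_mul (pow_ne_zero _ (hG.ne hp.ne_zero)) (hG.ne hc0), P.ord_pow,
      ((hadic c hc0).2).2 hc', add_zero]
    exact dvd_mul_left _ _
  obtain ⟨z, hz0, hz⟩ := P.surj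
  obtain ⟨a, b, hb, hab⟩ := hG.gen z
  have ha : a ≠ 0 := by
    rintro rfl
    rw [map_zero, zero_div] at hab
    exact hz0 hab
  have h1 : P.ord (MvPolynomial.aeval x p) ∣ 1 := by
    rw [← hz, hab, P.ord_div (hG.ne ha) (hG.ne hb)]
    exact dvd_sub (hdiv a ha) (hdiv b hb)
  exact Int.eq_one_of_dvd_one hpP.le h1

end

end Pool.Agent.H892
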