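import Pool.Agent.H892.S10

/-!
The dichotomy and abundance for varieties with an action of a Lie algebra of solvable type.
-/

set_option autoImplicit false
set_option linter.unusedSectionVars false
set_option linter.overlappingInstances false

open FF Pool.Agent.W602.GT Pool.Agent.W603.LV Pool.Agent.Y172 Pool.Agent.TH122.AB Pool.Agent.NH31

namespace Pool.Agent.H892

section

variable {K ι κ : Type} [Field K] [Algebra ℂ K] [Fintype ι] [Fintype κ] {N n d : ℕ}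
  {y : Fin (N + 1) → K} {F : IntermediateField ℂ K} {D : ι → Derivation ℂ K K} {w : ι → ℕ}
  {T : κ → Derivation ℂ K K} {x : Fin d → K}

/-- **The dichotomy.** -/
theorem tame3 (hy : NormalModel y) (h : SolData y (⊥ : IntermediateField ℂ K) D w T x)
    {U : Place ℂ K → ℚ} (hU : FinSup y U) :
    (∃ a : ℕ, 1 ≤ a ∧ ∃ σ : K, Fn y (a • U) σ ∧ σ ≠ 0) ∨
      ∀ A, FinSup y A → ∃ m0 : ℕ, ∀ m, m0 ≤ m → ∀ f, Fn y (m • U + A) f → f = 0 := by
  classical
  obtain ⟨d0, hd0, hden⟩ := exists_den_fin hU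
  -- the integral divisor
  obtain ⟨D0, hD0def⟩ : ∃ D0 : Place ℂ K → ℤ, D0 = fun P => ⌊(d0 : ℚ) * U P⌋ := ⟨_, rfl⟩
  have hDeq : ∀ P, IsPrimeDivisor y P → (D0 P : ℚ) = d0 * U P := by
    intro P hP
    obtain ⟨z, hz⟩ := hden P hP
    rw [hD0def]
    change ((⌊(d0 : ℚ) * U P⌋ : ℤ) : ℚ) = _
    rw [hz, Int.floor_intCast]
  have hDfin : {P | IsPrimeDivisor y P ∧ D0 P ≠ 0}.Finite := by
    refine hU.subset ?_
    rintro P ⟨hP, hne⟩
    refine ⟨hP, fun h0 => hne ?_⟩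
    have h1 := hDeq P hP
    rw [h0, mul_zero] at h1
    exact_mod_cast h1
  -- moving
  obtain ⟨G1, hG10, hG1⟩ := exists_move3 h (c := fun P => (D0 P).toNat) (hDfin.subset (by
    rintro P ⟨hP, hne⟩
    exact ⟨hP, fun h0 => hne (by rw [h0]; rfl)⟩))
  obtain ⟨G2, hG20, hG2⟩ := exists_move3 h (c := fun P => (-(D0 P)).toNat) (hDfin.subset (by
    rintro P ⟨hP, hne⟩
    exact ⟨hP, fun h0 => hne (by rw [h0]; rfl)⟩))
  obtain ⟨g1, hg1⟩ : ∃ g, g = MvPolynomial.aeval x G1 := ⟨_, rfl⟩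
  obtain ⟨g2, hg2⟩ : ∃ g, g = MvPolynomial.aeval x G2 := ⟨_, rfl⟩
  have hg10 : g1 ≠ 0 := hg1 ▸ h.gens.ne hG10
  have hg20 : g2 ≠ 0 := hg2 ▸ h.gens.ne hG20
  rw [← hg1] at hG1
  rw [← hg2] at hG2
  obtain ⟨g, hg⟩ : ∃ g, g = g1 / g2 := ⟨_, rfl⟩
  have hg0 : g ≠ 0 := hg ▸ div_ne_zero hg10 hg20
  obtain ⟨D1, hD1⟩ : ∃ D1 : Place ℂ K → ℤ, ∀ P, D1 P = D0 P - P.ord g := ⟨_, fun _ => rfl⟩
  have hD1s : ∀ P, IsPrimeDivisor y P → Horizontal (⊥ : IntermediateField ℂ K) P →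
      ¬ Stab (Sum.elim D T) P → D1 P = 0 := by
    intro P hP hPF hst
    rw [hD1, hg, P.ord_div hg10 hg20, hG1 P hP hPF hst, hG2 P hP hPF hst]
    omega
  have hD1fin : {P | IsPrimeDivisor y P ∧ D1 P ≠ 0}.Finite := by
    refine (hDfin.union (finite_ord hy hg0)).subset ?_
    rintro P ⟨hP, hne⟩
    by_contra hcon
    rw [Set.mem_union] at hcon
    push Not at hcon
    have h1 : D0 P = 0 := by
      by_contra h3
      exact hcon.1 ⟨hP, h3⟩
    have h2 : P.ord g = 0 := by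
      by_contra h3
      exact hcon.2 ⟨hP, h3⟩
    exact hne (by rw [hD1, h1, h2, sub_zero])
  -- the case of sections
  by_cases hE : ∃ k : ℕ, 1 ≤ k ∧ ∃ c : K, c ≠ 0 ∧ ∀ P, IsPrimeDivisor y P →
      -(k * D1 P) ≤ P.ord c
  · left
    obtain ⟨k, hk, c, hc0, hc⟩ := hE
    refine ⟨d0 * k, Nat.succ_le_of_lt (Nat.mul_pos (by omega) (by omega)), c / g ^ k,
      fun P hP => ?_, div_ne_zero hc0 (pow_ne_zero _ hg0)⟩
    right
    rw [P.ord_div hc0 (pow_ne_zero _ hg0), P.ord_pow, smul_ap]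
    have h1 : ((-(k * D1 P) : ℤ) : ℚ) ≤ P.ord c := by exact_mod_cast hc P hP
    rw [hD1] at h1
    have h2 := hDeq P hP
    push_cast at h1 ⊢
    rw [h2] at h1
    linarith
  right
  intro A hA
  obtain ⟨A2, hA2⟩ : ∃ A2 : Place ℂ K → ℕ, ∀ P, A2 P = d0 * bnd U P + bnd A P :=
    ⟨_, fun _ => rfl⟩
  have hA2fin : {P | IsPrimeDivisor y P ∧ A2 P ≠ 0}.Finite := by
    refine ((bnd_sup hU).union (bnd_sup hA)).subset ?_
    rintro P ⟨hP, hne⟩
    by_contra hcon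
    rw [Set.mem_union] at hcon
    push Not at hcon
    have h1 : bnd U P = 0 := by
      by_contra h3
      exact hcon.1 ⟨hP, h3⟩
    have h2 : bnd A P = 0 := by
      by_contra h3
      exact hcon.2 ⟨hP, h3⟩
    exact hne (by rw [hA2, h1, h2, mul_zero])
  obtain ⟨Q, hQ0, hQ⟩ := exists_move3 h hA2fin
  obtain ⟨q, hq⟩ : ∃ q, q = MvPolynomial.aeval x Q := ⟨_, rfl⟩
  have hq0 : q ≠ 0 := hq ▸ h.gens.ne hQ0
  rw [← hq] at hQ
  obtain ⟨A3, hA3⟩ : ∃ A3 : Place ℂ K → ℤ, ∀ P, A3 P = A2 P - P.ord q := ⟨_, fun _ => rfl⟩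
  have hA3s : ∀ P, IsPrimeDivisor y P → Horizontal (⊥ : IntermediateField ℂ K) P →
      ¬ Stab (Sum.elim D T) P → A3 P = 0 := by
    intro P hP hPF hst
    rw [hA3, hQ P hP hPF hst, sub_self]
  have hA3fin : {P | IsPrimeDivisor y P ∧ A3 P ≠ 0}.Finite := by
    refine (hA2fin.union (finite_ord hy hq0)).subset ?_
    rintro P ⟨hP, hne⟩
    by_contra hcon
    rw [Set.mem_union] at hcon
    push Not at hcon
    have h1 : A2 P = 0 := by
      by_contra h3
      exact hcon.1 ⟨hP, h3⟩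
    have h2 : P.ord q = 0 := by
      by_contra h3
      exact hcon.2 ⟨hP, h3⟩
    exact hne (by rw [hA3, h1, h2, Nat.cast_zero, sub_zero])
  -- invariant sections
  have hinv : ∀ k : ℕ, ∀ f : K, f ≠ 0 →
      f ∈ LF y (⊥ : IntermediateField ℂ K) (fun P => k * D1 P + A3 P) →
      ∃ c ∈ Cst D, (∃ μ, Wt T μ c) ∧ c ≠ 0 ∧
        ∀ P, IsPrimeDivisor y P → -(k * D1 P + A3 P) ≤ P.ord c := by
    intro k f hf0 hf
    have hs : ∀ P, IsPrimeDivisor y P → Horizontal (⊥ : IntermediateField ℂ K) P →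
        ¬ Stab (Sum.elim D T) P → k * D1 P + A3 P = 0 := by
      intro P hP hPF hst
      rw [hD1s P hP hPF hst, hA3s P hP hPF hst, mul_zero, add_zero]
    have hfin : {P | IsPrimeDivisor y P ∧ k * D1 P + A3 P ≠ 0}.Finite := by
      refine (hD1fin.union hA3fin).subset ?_
      rintro P ⟨hP, hne⟩
      by_contra hcon
      rw [Set.mem_union] at hcon
      push Not at hcon
      have h1 : D1 P = 0 := by
        by_contra h3
        exact hcon.1 ⟨hP, h3⟩
      have h2 : A3 P = 0 := by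
        by_contra h3
        exact hcon.2 ⟨hP, h3⟩
      exact hne (by rw [h1, h2, mul_zero, add_zero])
    obtain ⟨c, hcS, hc0, hcC, hcμ⟩ := h.inv hy hfin hs hf hf0
    exact ⟨c, hcC, hcμ, hc0, fun P hP => (hcS P hP (horizontal_bot P)).resolve_left hc0⟩
  -- there are no invariant sections for large multiples
  have hnot : ¬ ∃ᶠ k : ℕ in Filter.atTop, ∃ c ∈ Cst D, (∃ μ, Wt T μ c) ∧ c ≠ 0 ∧
      ∀ P, IsPrimeDivisor y P → -(k * D1 P + A3 P) ≤ P.ord c := by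
    intro hinf
    apply hE
    obtain ⟨φ, hφ, hc⟩ := Filter.extraction_of_frequently_atTop hinf
    choose c hcC hcμ hc0 hc using hc
    obtain ⟨S, hS⟩ := h.sys.supp (V := {P | IsPrimeDivisor y P}) (fun P _ => horizontal_bot P)
      (fun z hz => finite_ord hy hz)
    obtain ⟨S', hS'⟩ : ∃ S' : Finset (Place ℂ K), ∀ P, P ∈ S' ↔ (P ∈ S ∨
        (IsPrimeDivisor y P ∧ D1 P ≠ 0) ∨ (IsPrimeDivisor y P ∧ A3 P ≠ 0)) ∧
          IsPrimeDivisor y P := by
      refine ⟨(S ∪ (hD1fin.toFinset ∪ hA3fin.toFinset)).filter fun P => IsPrimeDivisor y P,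
        fun P => ?_⟩
      rw [Finset.mem_filter, Finset.mem_union, Finset.mem_union, Set.Finite.mem_toFinset,
        Set.Finite.mem_toFinset]
      rfl
    obtain ⟨n, m, hnm, hle⟩ := dickson S' (fun n P => φ n * D1 P + A3 P + P.ord (c n))
      (fun _ => 0) (fun n P hP => by
        have := hc n P ((hS' P).1 hP).2
        linarith)
    have hφnm := hφ hnm
    refine ⟨φ m - φ n, by omega, c m / c n, div_ne_zero (hc0 m) (hc0 n), fun P hP => ?_⟩
    rw [P.ord_div (hc0 m) (hc0 n), Nat.cast_sub hφnm.le]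
    by_cases hPS : P ∈ S'
    · have := hle P hPS
      linarith
    · have hPS2 : ¬ (P ∈ S ∨ (IsPrimeDivisor y P ∧ D1 P ≠ 0) ∨
          (IsPrimeDivisor y P ∧ A3 P ≠ 0)) := fun h => hPS ((hS' P).2 ⟨h, hP⟩)
      push Not at hPS2
      obtain ⟨h1, h2, -⟩ := hPS2
      rw [h2 hP, hS P hP h1 _ (hcC m) (hcμ m), hS P hP h1 _ (hcC n) (hcμ n)]
      simp
  rw [Filter.not_frequently, Filter.eventually_atTop] at hnot
  obtain ⟨k0, hk0⟩ := hnot
  refine ⟨d0 * k0, fun m hm f hf => ?_⟩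
  by_contra hf0
  obtain ⟨e, he⟩ : ∃ e, e = m / d0 := ⟨_, rfl⟩
  obtain ⟨ρ, hρ⟩ : ∃ ρ, ρ = m % d0 := ⟨_, rfl⟩
  have hek : k0 ≤ e := by
    rw [he, Nat.le_div_iff_mul_le (by omega), mul_comm]
    exact hm
  refine hk0 e hek (hinv e (f * g ^ e * q)
    (mul_ne_zero (mul_ne_zero hf0 (pow_ne_zero _ hg0)) hq0) fun P hP _ => ?_)
  right
  have h2 := (hf P hP).resolve_left hf0
  rw [Pi.add_apply, smul_ap] at h2
  have h3 := hDeq P hP
  have h5 := le_bnd U P
  have h6 := le_bnd A P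
  have h7 : (m : ℚ) = d0 * e + ρ := by
    rw [he, hρ]
    exact_mod_cast (Nat.div_add_mod m d0).symm
  have h8 : (ρ : ℚ) ≤ d0 := by
    rw [hρ]
    exact_mod_cast (Nat.mod_lt m (by omega)).le
  have h9 : (0 : ℚ) ≤ ρ := Nat.cast_nonneg _
  have h10 : (0 : ℚ) ≤ bnd U P := Nat.cast_nonneg _
  have h11 : (ρ : ℚ) * U P ≤ d0 * bnd U P :=
    (mul_le_mul_of_nonneg_left h5 h9).trans (mul_le_mul_of_nonneg_right h8 h10)
  have h12 : P.ord (f * g ^ e * q) = P.ord f + e * P.ord g + P.ord q := by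
    rw [P.ord_mul (mul_ne_zero hf0 (pow_ne_zero _ hg0)) hq0, P.ord_mul hf0 (pow_ne_zero _ hg0),
      P.ord_pow]
  have h13 : ((-(e * D1 P + A3 P) : ℤ) : ℚ) ≤ ((P.ord (f * g ^ e * q) : ℤ) : ℚ) := by
    rw [h12, hA3, hD1, hA2]
    push_cast
    rw [h3]
    rw [h7] at h2
    linarith
  exact_mod_cast h13

/-- **Abundance.** -/
theorem sol_abund (hy : NormalModel y) (hn : Algebra.trdeg ℂ K = n) (h : SolData y F D w T x)
    {B V : Place ℂ K → ℚ} (hF : BelowIitaka y n B F) (hV : FinSup y V)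
    (hBV : ∀ P, IsPrimeDivisor y P → B P ≤ V P)
    {a : ℕ} (ha : 1 ≤ a) {σ : (Fin n → Derivation ℂ K K) → K} (hσ : IsSection y n a (a • B) σ)
    (hσ0 : σ ≠ 0) : Abund y n V := by
  classical
  obtain ⟨x', E, hx, hE⟩ := exists_crd hn
  obtain ⟨w', hw, hwf⟩ := exists_canon hy hn hx hE
  have hfr := frame_of_dual hx hE
  -- sections and functions
  have hsec : ∀ (m : ℕ) (D : Place ℂ K → ℚ) (ω : (Fin n → Derivation ℂ K K) → K),
      IsPluri m ω → (IsSection y n m D ω ↔ Fn y (m • w' + D) (ω E)) := by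
    intro m D ω hω
    constructor
    · rintro ⟨-, h⟩ P hP
      have h1 := (hwf P hP m ω _ hω).1 (h P hP)
      refine h1.imp_right fun h2 => le_trans (le_of_eq ?_) h2
      simp only [Pi.add_apply, smul_ap]
      ring
    · intro h
      refine ⟨hω, fun P hP => (hwf P hP m ω _ hω).2 ?_⟩
      refine (h P hP).imp_right fun h2 => le_trans (le_of_eq ?_) h2
      simp only [Pi.add_apply, smul_ap]
      ring
  have hσE : σ E ≠ 0 := fun h => hσ0 (pluri_zero hfr hσ.1 h)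
  have h1 : Fn y (a • (w' + B)) (σ E) := by
    rw [smul_add]
    exact (hsec a _ σ hσ.1).1 hσ
  have hrat : pluriRatios y n B ⊆ rat y (w' + B) := by
    rintro f ⟨m, hm, ω, ω', hω, hω', E1, hE1, rfl⟩
    have e1 := pluri_coord hx hE hω.1 E1
    have e2 := pluri_coord hx hE hω'.1 E1
    have hd : (Matrix.of fun i j => E1 i (x' j)).det ^ m ≠ 0 := by
      intro h
      rw [h, zero_mul] at e2
      exact hE1 e2
    have h0 : ω' E ≠ 0 := by
      intro h
      rw [h, mul_zero] at e2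
      exact hE1 e2
    refine ⟨m, ω E, ω' E, hm, ?_, ?_, h0, ?_⟩
    · rw [smul_add]
      exact (hsec m _ ω hω.1).1 hω
    · rw [smul_add]
      exact (hsec m _ ω' hω'.1).1 hω'
    · rw [e1, e2, mul_div_mul_left _ _ hd]
  have hle : ∀ P, IsPrimeDivisor y P → (w' + B) P ≤ (w' + V) P := fun P hP => by
    simp only [Pi.add_apply]
    linarith [hBV P hP]
  have hFV : ∀ z ∈ F, IsAlgebraic (IntermediateField.adjoin ℂ (rat y (w' + V))) z := fun z hz =>
    isAlg_mono (IntermediateField.adjoin.mono ℂ _ _ (hrat.trans (rat_mono hle))) (hF z hz)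
  have h2 : Fn y (a • (w' + V)) (σ E) := h1.mono fun P hP => by
    rw [smul_ap, smul_ap]
    exact mul_le_mul_of_nonneg_left (hle P hP) (Nat.cast_nonneg a)
  obtain ⟨κ, m0, g, hm0, hg, hg0, hind, hup⟩ := sol_growth hy h (U := w' + V) (hw.add hV)
    ha h2 hσE hFV
  refine ⟨κ, m0, fun j => frm x' m0 (g j), hm0, fun j => ?_, ⟨E, ?_, ?_⟩, ?_⟩
  · rw [hsec m0 _ _ (frm_pluri x' m0 (g j)), frm_eval hE, ← smul_add]
    exact hg j
  · change frm x' m0 (g 0) E ≠ 0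
    rw [frm_eval hE]
    exact hg0
  · simp only [frm_eval hE]
    exact hind
  · intro x1 E' hx' hE' A hA
    obtain ⟨C, hC⟩ := hup A hA
    refine ⟨C, fun m hm r f hf h => hC m hm r (fun i =>
      ((Matrix.of fun i j => E' i (x' j)).det ^ m)⁻¹ * f i) ?_ fun i => ?_⟩
    · have hd := det_ne hx' hE' hE
      exact hf.map' (LinearMap.mulLeft ℂ _) (LinearMap.ker_eq_bot.2
        (mul_right_injective₀ (inv_ne_zero (pow_ne_zero _ hd))))
    · have hd := det_ne hx' hE' hE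
      obtain ⟨ω, hω, hωf⟩ := h i
      have h2 := (hsec m _ ω hω.1).1 hω
      have h3 : ω E' = (Matrix.of fun i j => E' i (x' j)).det ^ m * ω E :=
        pluri_coord hx hE hω.1 E'
      have h4 : ((Matrix.of fun i j => E' i (x' j)).det ^ m)⁻¹ * f i = ω E := by
        rw [← hωf, h3, inv_mul_cancel_left₀ (pow_ne_zero _ hd)]
      rw [h4, smul_add, add_assoc]
      exact h2

end

end Pool.Agent.H892
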