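import Pool.Agent.H892.C11
import Pool.Agent.H892.S11

/-!
Lie algebras of vector fields of solvable type.
-/

set_option autoImplicit false
set_option linter.unusedSectionVars false
set_option linter.overlappingInstances false

open FF Pool.Agent.W602.GT Pool.Agent.W603.LV Pool.Agent.Y172 Pool.Agent.TH122.AB Pool.Agent.NH31

namespace Pool.Agent.H892

section

variable {k K κ : Type} [Field k] [CharZero k] [Field K] [Algebra k K]
  {F : IntermediateField k K}

theorem fact_span {e : κ → Derivation F K K} {E : Derivation F K K} [Fintype κ]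
    (hE : E ∈ Submodule.span F (Set.range e)) : ∃ c : κ → K, (∀ l, c l ∈ F) ∧
      ∀ z, E z = ∑ l, c l * e l z := by
  obtain ⟨c, hc⟩ := (Submodule.mem_span_range_iff_exists_fun F).1 hE
  exact ⟨fun l => c l, fun l => (c l).2, fun z => by rw [← hc, sum_smul_app]⟩

/-- **Lie algebras of solvable type are systems of solvable type.** -/
theorem exists_sys3 (𝔫 : LieSubalgebra F (Derivation F K K)) (hfd : FiniteDimensional F 𝔫)
    (T : κ → Derivation F K K) (hTn : ∀ a, ∀ D ∈ 𝔫, ⁅T a, D⁆ ∈ 𝔫)
    {d e0 : ℕ} {x : Fin d → K} (hind : AlgebraicIndependent F x)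
    (htop : IntermediateField.adjoin F (Set.range x) = ⊤)
    (hTx : ∀ a i, ∃ m : ℤ, T a (x i) = (m : K) * x i)
    (hx0 : ∀ D ∈ 𝔫, ∀ i : Fin d, (i : ℕ) < e0 → D (x i) = 0)
    (htri : ∀ D ∈ 𝔫, ∀ i, D (x i) ∈ Algebra.adjoin F (x '' {j | j < i} ∪
      (fun j => (x j)⁻¹) '' {j | (j : ℕ) < e0}))
    (hconst : ∀ f : K, (∀ D ∈ 𝔫, D f = 0) → (∀ a, T a f = 0) → f ∈ F) :
    ∃ (ι : Type) (_ : Fintype ι) (D : ι → Derivation F K K) (w : ι → ℕ),
      (∀ i, D i ∈ 𝔫) ∧ SolSys F (fun i => res (k := k) (D i)) w (fun a => res (k := k) (T a)) ∧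
      Gens (k := F) x ∧
      (∀ i, ∃ u : K, u ≠ 0 ∧ D i u = 0 ∧ ∀ q : MvPolynomial (Fin d) F,
        ∃ q' : MvPolynomial (Fin d) F, u * D i (MvPolynomial.aeval x q) =
          MvPolynomial.aeval x q') ∧
      ∀ q : MvPolynomial (Fin d) F, Nilp (fun i => res (k := k) (D i))
        (MvPolynomial.aeval x q) := by
  classical
  obtain ⟨r, e, he⟩ := Submodule.fg_iff_exists_fin_generating_family.1
    ((Submodule.fg_top _).1 (Module.Finite.fg_top (R := F) (M := 𝔫)))
  have he' : ∀ E, E ∈ 𝔫 ↔ E ∈ Submodule.span F (Set.range e) := by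
    intro E
    rw [he]
    exact Iff.rfl
  have hemem : ∀ i, e i ∈ 𝔫 := fun i => (he' _).2 (Submodule.subset_span ⟨i, rfl⟩)
  obtain ⟨D0, hD0⟩ : ∃ D0 : Fin r → Derivation k K K, D0 = fun i => res (k := k) (e i) := ⟨_, rfl⟩
  have hk0 : ∀ i, ∀ f ∈ F, D0 i f = 0 := by
    intro i f hf
    rw [hD0]
    exact res_kills (e i) f hf
  have hG : Gens (k := F) x := by
    refine ⟨hind, fun z => ?_⟩
    have hz : z ∈ IntermediateField.adjoin F (Set.range x) := by
      rw [htop]
      exact IntermediateField.mem_top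
    rw [IntermediateField.mem_adjoin_range_iff] at hz
    obtain ⟨P, Q, hPQ⟩ := hz
    by_cases hQ : Q = 0
    · refine ⟨0, 1, one_ne_zero, ?_⟩
      rw [hPQ, hQ, map_zero, div_zero, zero_div]
    · exact ⟨P, Q, hQ, hPQ⟩
  have hxne : ∀ i, x i ≠ 0 := by
    intro i
    have := hG.ne (MvPolynomial.X_ne_zero (R := F) i)
    rwa [MvPolynomial.aeval_X] at this
  -- the coordinates are nilpotent
  have hnilSub : ∀ (ι : Type) (_ : Fintype ι) (D : ι → Derivation k K K),
      (∀ i, ∀ f ∈ F, D i f = 0) → ∀ S : Set K, (∀ z ∈ S, Nilp D z) →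
      ∀ z ∈ Algebra.adjoin F S, Nilp D z := by
    intro ι _ D hk S hS z hz
    induction hz using Algebra.adjoin_induction with
    | mem z hz => exact hS z hz
    | algebraMap r => exact nilp_const fun i => hk i _ r.2
    | add a b _ _ h h' => exact h.add h'
    | mul a b _ _ h h' => exact h.mul h'
  have hxn : ∀ (m : ℕ) (i : Fin d), (i : ℕ) = m → Nilp D0 (x i) := by
    intro m
    induction m using Nat.strong_induction_on with
    | _ m ih =>
      intro i hi
      have h1 : ∀ l, Nilp D0 (D0 l (x i)) := by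
        intro l
        have h2 : D0 l (x i) ∈ Algebra.adjoin F (x '' {j | j < i} ∪
            (fun j => (x j)⁻¹) '' {j | (j : ℕ) < e0}) := by
          rw [hD0]
          exact htri (e l) (hemem l) i
        refine hnilSub _ inferInstance D0 hk0 _ ?_ _ h2
        rintro _ (⟨j, hj, rfl⟩ | ⟨j, hj, rfl⟩)
        · exact ih j (by rw [← hi]; exact hj) j rfl
        · refine nilp_const fun l => ?_
          rw [hD0]
          change e l ((x j)⁻¹) = 0
          rw [(e l).leibniz_inv, hx0 (e l) (hemem l) j hj, smul_zero]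
      choose n hn using h1
      exact ⟨Finset.univ.sup n + 1, fun l => (hn l).mono
        (Finset.le_sup (f := n) (Finset.mem_univ l))⟩
  obtain ⟨n0, hn01, hn0⟩ : ∃ n0, 1 ≤ n0 ∧ ∀ i, Kil D0 n0 (x i) := by
    choose n hn using fun i => hxn _ i rfl
    exact ⟨Finset.univ.sup n + 1, by omega, fun i => (hn i).mono
      ((Finset.le_sup (f := n) (Finset.mem_univ i)).trans (Nat.le_succ _))⟩
  -- the filtration
  have hf1 : ∀ E ∈ 𝔫, E ∈ filt (k := k) 𝔫 e 1 := by
    intro E hE
    refine ⟨hE, fun j z hz => ?_⟩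
    rcases j with - | j
    · rw [show z = 0 from hz, map_zero]
      exact Kil.zero _
    · exact kil_of_span ((he' E).1 hE) hz
  have hbr : ∀ (a : ℕ) (E E' : Derivation F K K), E ∈ 𝔫 → E' ∈ filt (k := k) 𝔫 e a →
      ⁅E, E'⁆ ∈ filt (k := k) 𝔫 e (a + 1) := by
    intro a E E' hE hE'
    have hE1 := hf1 E hE
    refine ⟨𝔫.lie_mem hE hE'.1, fun j z hz => ?_⟩
    rw [Derivation.commutator_apply, sub_eq_add_neg, ← map_neg, ← map_neg]
    have h1 := hE1.2 _ _ (hE'.2 j z hz)
    have h2 : Kil (fun i => res (k := k) (e i)) j (-z) := by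
      have := kil_smul (D := fun i => res (k := k) (e i)) (fun i => res_kills (e i))
        (F.neg_mem F.one_mem) j z hz
      rwa [neg_one_mul] at this
    have h3 := hE'.2 _ _ (hE1.2 j _ h2)
    have e1 : j - a - 1 = j - (a + 1) := by omega
    have e2 : j - 1 - a = j - (a + 1) := by omega
    rw [e1] at h1
    rw [e2] at h3
    exact h1.add h3
  -- the filtration is stable under `T`
  have hTk : ∀ (a : κ) (n : ℕ) (z : K), Kil (fun i => res (k := k) (e i)) n z →
      Kil (fun i => res (k := k) (e i)) n (T a z) := by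
    intro a n
    induction n with
    | zero =>
      intro z hz
      rw [show z = 0 from hz, map_zero]
      exact Kil.zero _
    | succ n ih =>
      intro z hz i
      obtain ⟨c, hc, hcz⟩ := fact_span ((he' _).1 (hTn a (e i) (hemem i)))
      have h1 : e i (T a z) = T a (e i z) + ∑ l, (-c l) * e l z := by
        have h2 := hcz z
        rw [Derivation.commutator_apply] at h2
        rw [Finset.sum_congr rfl fun l _ => neg_mul (c l) (e l z), Finset.sum_neg_distrib, ← h2]
        ring
      change Kil _ n (e i (T a z))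
      rw [h1]
      exact (ih _ (hz i)).add (Kil.sum _ fun l _ => kil_smul (fun i => res_kills (e i))
        (F.neg_mem (hc l)) n _ (hz l))
  have hbrT : ∀ (a : κ) (n : ℕ) (E : Derivation F K K), E ∈ filt (k := k) 𝔫 e n →
      ⁅T a, E⁆ ∈ filt (k := k) 𝔫 e n := by
    intro a n E hE
    refine ⟨hTn a E hE.1, fun j z hz => ?_⟩
    rw [Derivation.commutator_apply, sub_eq_add_neg, ← map_neg, ← map_neg]
    have h1 := hTk a _ _ (hE.2 j z hz)
    have h2 : Kil (fun i => res (k := k) (e i)) j (-z) := by
      have := kil_smul (D := fun i => res (k := k) (e i)) (fun i => res_kills (e i))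
        (F.neg_mem F.one_mem) j z hz
      rwa [neg_one_mul] at this
    exact h1.add (hE.2 _ _ (hTk a j _ h2))
  have hfn0 : ∀ E ∈ filt (k := k) 𝔫 e n0, E = 0 := by
    intro E hE
    have h1 : ∀ i, E (x i) = 0 := by
      intro i
      have h2 := hE.2 n0 (x i) (by
        have := hn0 i
        rw [hD0] at this
        exact this)
      rw [Nat.sub_self] at h2
      exact h2
    have h2 : ∀ z ∈ IntermediateField.adjoin F (Set.range x), E z = 0 := by
      intro z hz
      rw [IntermediateField.mem_adjoin_range_iff] at hz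
      obtain ⟨P, Q, hPQ⟩ := hz
      have h3 : ∀ q : MvPolynomial (Fin d) F, E (MvPolynomial.aeval x q) = 0 := by
        intro q
        induction q using MvPolynomial.induction_on with
        | C a =>
          rw [MvPolynomial.aeval_C]
          exact E.map_algebraMap a
        | add p q hp hq => rw [map_add, map_add, hp, hq, add_zero]
        | mul_X p i hp =>
          rw [map_mul, MvPolynomial.aeval_X, E.leibniz, hp, h1, smul_zero, smul_zero, add_zero]
      have h4 : MvPolynomial.aeval x P ∈ consts E := h3 P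
      have h5 : MvPolynomial.aeval x Q ∈ consts E := h3 Q
      rw [hPQ]
      exact (consts E).div_mem h4 h5
    rw [htop] at h2
    ext z
    exact h2 z IntermediateField.mem_top
  have hfg : ∀ a, (filt (k := k) 𝔫 e a).FG := by
    intro a
    have h1 : filt (k := k) 𝔫 e a ≤ 𝔫.toSubmodule := fun E hE => hE.1
    have h2 : FiniteDimensional F 𝔫.toSubmodule := hfd
    exact Module.Finite.iff_fg.1 (Submodule.finiteDimensional_of_le h1)
  choose rr s hs using fun a => Submodule.fg_iff_exists_fin_generating_family.1 (hfg a)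
  let ι := Σ a : Fin n0, Fin (rr (a + 1))
  obtain ⟨D, hD⟩ : ∃ D : ι → Derivation F K K, ∀ (a : Fin n0) b, D ⟨a, b⟩ = s (a + 1) b :=
    ⟨fun i => s (i.1 + 1) i.2, fun _ _ => rfl⟩
  obtain ⟨w, hw⟩ : ∃ w : ι → ℕ, ∀ (a : Fin n0) b, w ⟨a, b⟩ = n0 - ((a : ℕ) + 1) :=
    ⟨fun i => n0 - ((i.1 : ℕ) + 1), fun _ _ => rfl⟩
  have hDf : ∀ (a : Fin n0) b, D ⟨a, b⟩ ∈ filt (k := k) 𝔫 e (a + 1) := by
    intro a b
    rw [hD, ← hs]
    exact Submodule.subset_span ⟨b, rfl⟩
  have hDn : ∀ i, D i ∈ 𝔫 := fun i => (hDf i.1 i.2).1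
  have hkD : ∀ i, ∀ f ∈ F, res (k := k) (D i) f = 0 := fun i => res_kills (D i)
  have hKil : ∀ n z, Kil D0 n z → Kil (fun i => res (k := k) (D i)) n z := by
    rw [hD0]
    exact kil_transfer fun i => (he' _).1 (hDn i)
  have hxnD : ∀ i, Nilp (fun i => res (k := k) (D i)) (x i) := fun i => by
    obtain ⟨n, hn⟩ := hxn _ i rfl
    exact ⟨n, hKil n _ hn⟩
  have hnilp : ∀ q : MvPolynomial (Fin d) F, Nilp (fun i => res (k := k) (D i))
      (MvPolynomial.aeval x q) := by
    intro q
    refine hnilSub ι inferInstance _ hkD (Set.range x) ?_ _ ?_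
    · rintro _ ⟨i, rfl⟩
      exact hxnD i
    · rw [Algebra.adjoin_range_eq_range_aeval]
      exact ⟨q, rfl⟩
  -- the filtration in terms of the family
  have hLw : ∀ (a : ℕ) (n : ℕ), n0 ≤ a + n → ∀ E ∈ filt (k := k) 𝔫 e (a + 1),
      res (k := k) E ∈ Lw F (fun i => res (k := k) (D i)) w n := by
    intro a n han E hE
    by_cases ha : a < n0
    · rw [← hs] at hE
      obtain ⟨c, hc, hcE⟩ := fact_span hE
      rw [← show ∑ b, (⟨c b, hc b⟩ : F) • res (k := k) (s (a + 1) b) = res (k := k) E from by
        ext z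
        have h5 : ∀ t : Finset (Fin (rr (a + 1))),
            (∑ l ∈ t, (⟨c l, hc l⟩ : F) • res (k := k) (s (a + 1) l)) z =
              ∑ l ∈ t, c l * s (a + 1) l z := by
          intro t
          induction t using Finset.induction_on with
          | empty => rw [Finset.sum_empty, Finset.sum_empty]; rfl
          | insert a s ha ih =>
            rw [Finset.sum_insert ha, Finset.sum_insert ha, Derivation.add_apply, ih]
            rfl
        rw [h5, res_apply, hcE]]
      refine Submodule.sum_mem _ fun b _ => Submodule.smul_mem _ _ (Submodule.subset_span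
        ⟨⟨⟨a, ha⟩, b⟩, ?_, ?_⟩)
      · change w _ < n
        rw [hw]
        change n0 - (a + 1) < n
        omega
      · beta_reduce
        rw [hD]
    · -- the filtration vanishes
      have h1 : E ∈ filt (k := k) 𝔫 e n0 := by
        refine ⟨hE.1, fun j z hz => ?_⟩
        exact (hE.2 j z hz).mono (by omega)
      rw [hfn0 E h1]
      have h2 : res (k := k) (0 : Derivation F K K) = 0 := rfl
      rw [h2]
      exact Submodule.zero_mem _
  have hbrres : ∀ E E' : Derivation F K K, ⁅res (k := k) E, res (k := k) E'⁆ =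
      res (k := k) ⁅E, E'⁆ := fun E E' => rfl
  have hTT : ∀ a b z, T a (T b z) = T b (T a z) := by
    intro a b
    have h1 : ∀ i, ⁅T a, T b⁆ (x i) = 0 := by
      intro i
      obtain ⟨m, hm⟩ := hTx a i
      obtain ⟨m', hm'⟩ := hTx b i
      rw [Derivation.commutator_apply, hm, hm']
      simp only [Derivation.leibniz, Derivation.map_intCast, smul_zero, add_zero, smul_eq_mul, hm,
        hm']
      ring
    have h3 : ∀ q : MvPolynomial (Fin d) F, ⁅T a, T b⁆ (MvPolynomial.aeval x q) = 0 := by
      intro q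
      induction q using MvPolynomial.induction_on with
      | C a =>
        rw [MvPolynomial.aeval_C]
        exact Derivation.map_algebraMap _ a
      | add p q hp hq => rw [map_add, map_add, hp, hq, add_zero]
      | mul_X p i hp =>
        rw [map_mul, MvPolynomial.aeval_X, Derivation.leibniz, hp, h1, smul_zero, smul_zero,
          add_zero]
    intro z
    obtain ⟨P, Q, hQ, hPQ⟩ := hG.gen z
    have h4 : MvPolynomial.aeval x P ∈ consts ⁅T a, T b⁆ := h3 P
    have h5 : MvPolynomial.aeval x Q ∈ consts ⁅T a, T b⁆ := h3 Q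
    have h6 : z ∈ consts ⁅T a, T b⁆ := by
      rw [hPQ]
      exact (consts ⁅T a, T b⁆).div_mem h4 h5
    have h7 : ⁅T a, T b⁆ z = 0 := h6
    rw [Derivation.commutator_apply] at h7
    exact sub_eq_zero.1 h7
  refine ⟨ι, inferInstance, D, w, hDn, ⟨hkD, fun a => res_kills (T a), fun i j => ?_,
    fun a b z => hTT a b z, fun a i => ?_, fun z hz hz' => ?_, ?_⟩, hG, fun i => ?_, hnilp⟩
  · -- the brackets
    obtain ⟨a, b⟩ := j
    rw [hbrres]
    have h1 := hbr _ _ _ (hDn i) (hDf a b)
    refine hLw (a + 1) _ ?_ _ h1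
    rw [hw]
    omega
  · obtain ⟨a', b⟩ := i
    rw [hbrres]
    have h1 := hbrT a _ _ (hDf a' b)
    refine hLw a' _ ?_ _ h1
    rw [hw]
    have := a'.2
    omega
  · -- the constants
    have h0 : ∀ E ∈ Submodule.span F (Set.range (s 1)), E z = 0 := by
      intro E hE
      induction hE using Submodule.span_induction with
      | mem E hE =>
        obtain ⟨b, rfl⟩ := hE
        have h4 := hz ⟨⟨0, by omega⟩, b⟩
        rw [res_apply, hD] at h4
        exact h4
      | zero => rfl
      | add E E' _ _ h h' => rw [Derivation.add_apply, h, h', add_zero]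
      | smul a E _ h => rw [Derivation.smul_apply, h, smul_zero]
    refine hconst z (fun E hE => h0 E ?_) hz'
    rw [hs]
    exact hf1 E hE
  · -- the generators
    refine ⟨Finset.univ.image x, fun z hz => ?_, ?_⟩
    · obtain ⟨i, -, rfl⟩ := Finset.mem_image.1 hz
      refine ⟨hxnD i, ?_⟩
      choose m hm using fun a => hTx a i
      exact ⟨m, fun a => hm a⟩
    · rw [eq_top_iff]
      intro z _
      obtain ⟨M, hM⟩ : ∃ M : IntermediateField k K, M = IntermediateField.adjoin k ((F : Set K) ∪
        ((Finset.univ.image x : Finset K) : Set K)) := ⟨_, rfl⟩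
      rw [← hM]
      have hFM : F ≤ M := by
        rw [hM]
        exact fun x hx => IntermediateField.subset_adjoin k _ (Or.inl hx)
      have hxM : ∀ i, x i ∈ M := by
        intro i
        rw [hM]
        refine IntermediateField.subset_adjoin k _ (Or.inr ?_)
        rw [Finset.mem_coe]
        exact Finset.mem_image_of_mem _ (Finset.mem_univ i)
      have hq : ∀ q : MvPolynomial (Fin d) F, MvPolynomial.aeval x q ∈ M := by
        intro q
        induction q using MvPolynomial.induction_on with
        | C a => rw [MvPolynomial.aeval_C]; exact hFM a.2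
        | add p q hp hq => rw [map_add]; exact M.add_mem hp hq
        | mul_X p i hp => rw [map_mul, MvPolynomial.aeval_X]; exact M.mul_mem hp (hxM i)
      obtain ⟨P, Q, hQ, hPQ⟩ := hG.gen z
      rw [hPQ]
      exact M.div_mem (hq P) (hq Q)
  · -- denominators
    obtain ⟨t, ht⟩ : ∃ t : MvPolynomial (Fin d) F, t = ∏ j ∈ Finset.univ.filter
      (fun j : Fin d => (j : ℕ) < e0), MvPolynomial.X j := ⟨_, rfl⟩
    obtain ⟨τ, hτ⟩ : ∃ τ, τ = MvPolynomial.aeval x t := ⟨_, rfl⟩
    have hτe : τ = ∏ j ∈ Finset.univ.filter (fun j : Fin d => (j : ℕ) < e0), x j := by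
      rw [hτ, ht, map_prod]
      exact Finset.prod_congr rfl fun j _ => MvPolynomial.aeval_X x j
    have hτ0 : τ ≠ 0 := by
      rw [hτe]
      exact Finset.prod_ne_zero_iff.2 fun j _ => hxne j
    have hDτ : D i τ = 0 := by
      have h1 : ∀ S : Finset (Fin d), (∀ j ∈ S, (j : ℕ) < e0) → D i (∏ j ∈ S, x j) = 0 := by
        intro S
        induction S using Finset.induction_on with
        | empty => intro _; rw [Finset.prod_empty, (D i).map_one_eq_zero]
        | insert b S hb ih =>
          intro hS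
          rw [Finset.prod_insert hb, (D i).leibniz, ih fun j hj => hS j
            (Finset.mem_insert_of_mem hj), hx0 (D i) (hDn i) b (hS b (Finset.mem_insert_self b S)),
            smul_zero, smul_zero, add_zero]
      rw [hτe]
      exact h1 _ fun j hj => (Finset.mem_filter.1 hj).2
    -- denominators of the elements of the algebra
    have hadj : ∀ (j : Fin d) (z : K), z ∈ Algebra.adjoin F (x '' {l | l < j} ∪
        (fun l => (x l)⁻¹) '' {l | (l : ℕ) < e0}) → ∃ (N : ℕ) (q : MvPolynomial (Fin d) F),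
          τ ^ N * z = MvPolynomial.aeval x q := by
      intro j z hz
      induction hz using Algebra.adjoin_induction with
      | mem z hz =>
        rcases hz with ⟨l, -, rfl⟩ | ⟨l, hl, rfl⟩
        · exact ⟨0, MvPolynomial.X l, by rw [pow_zero, one_mul, MvPolynomial.aeval_X]⟩
        · refine ⟨1, ∏ j ∈ (Finset.univ.filter (fun j : Fin d => (j : ℕ) < e0)).erase l,
            MvPolynomial.X j, ?_⟩
          have hl' : l ∈ Finset.univ.filter (fun j : Fin d => (j : ℕ) < e0) :=
            Finset.mem_filter.2 ⟨Finset.mem_univ l, hl⟩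
          rw [pow_one, hτe, ← Finset.mul_prod_erase _ _ hl', map_prod]
          have h1 : ∏ j ∈ (Finset.univ.filter (fun j : Fin d => (j : ℕ) < e0)).erase l,
              MvPolynomial.aeval x (MvPolynomial.X j : MvPolynomial (Fin d) F) =
              ∏ j ∈ (Finset.univ.filter (fun j : Fin d => (j : ℕ) < e0)).erase l, x j :=
            Finset.prod_congr rfl fun j _ => MvPolynomial.aeval_X x j
          rw [h1, mul_comm (x l), mul_assoc, mul_inv_cancel₀ (hxne l), mul_one]
      | algebraMap r => exact ⟨0, MvPolynomial.C r, by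
          rw [pow_zero, one_mul, MvPolynomial.aeval_C]⟩
      | add a b _ _ h h' =>
        obtain ⟨N, q, hq⟩ := h
        obtain ⟨N', q', hq'⟩ := h'
        refine ⟨N + N', t ^ N' * q + t ^ N * q', ?_⟩
        rw [map_add, map_mul, map_mul, map_pow, map_pow, ← hq, ← hq', ← hτ]
        ring
      | mul a b _ _ h h' =>
        obtain ⟨N, q, hq⟩ := h
        obtain ⟨N', q', hq'⟩ := h'
        refine ⟨N + N', q * q', ?_⟩
        rw [map_mul, ← hq, ← hq']
        ring
    choose Nj qj hqj using fun j : Fin d => hadj j _ (htri (D i) (hDn i) j)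
    obtain ⟨N, hN⟩ : ∃ N : ℕ, ∀ j, Nj j ≤ N := ⟨Finset.univ.sup Nj, fun j =>
      Finset.le_sup (Finset.mem_univ j)⟩
    have hqj' : ∀ j, ∃ q' : MvPolynomial (Fin d) F, τ ^ N * D i (x j) =
        MvPolynomial.aeval x q' := by
      intro j
      refine ⟨t ^ (N - Nj j) * qj j, ?_⟩
      rw [map_mul, map_pow, ← hτ, ← hqj, ← mul_assoc, ← pow_add, Nat.sub_add_cancel (hN j)]
    refine ⟨τ ^ N, pow_ne_zero _ hτ0, ?_, fun q => ?_⟩
    · rw [(D i).leibniz_pow, hDτ, smul_zero, smul_zero]
    · induction q using MvPolynomial.induction_on with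
      | C a =>
        refine ⟨0, ?_⟩
        rw [MvPolynomial.aeval_C, map_zero, (D i).map_algebraMap, mul_zero]
      | add p q hp hq =>
        obtain ⟨p', hp'⟩ := hp
        obtain ⟨q', hq'⟩ := hq
        exact ⟨p' + q', by rw [map_add, map_add, mul_add, hp', hq', map_add]⟩
      | mul_X p j hp =>
        obtain ⟨p', hp'⟩ := hp
        obtain ⟨g, hg⟩ := hqj' j
        refine ⟨p * g + MvPolynomial.X j * p', ?_⟩
        rw [map_mul, MvPolynomial.aeval_X, (D i).leibniz, map_add, map_mul, map_mul,
          MvPolynomial.aeval_X, ← hg, ← hp', smul_eq_mul, smul_eq_mul]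
        ring

end

end Pool.Agent.H892
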