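import Pool.Agent.H892.S12

/-!
Varieties with an action of a connected solvable group with an open orbit.
-/

set_option autoImplicit false
set_option linter.unusedSectionVars false
set_option linter.overlappingInstances false

open FF Pool.Agent.W602.GT Pool.Agent.W603.LV Pool.Agent.Y172 Pool.Agent.TH122.AB Pool.Agent.NH31

namespace Pool.Agent.H892

section

variable {K : Type} [Field K] [Algebra ℂ K] {N : ℕ}

/-- The generic fibre, over the base with function field `F`, of the normal projective variety `X`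
with generic point `y` has an action of a connected solvable group with an open orbit, on the level of
Lie algebras: there are commuting derivations `T 0, ..., T (r - 1)` of `K` over `F` (the torus), a
finite dimensional Lie algebra `𝔫` over `F` of derivations of `K` over `F` which is normalised by the
`T a` (the unipotent radical), and algebraically independent generators `x 0, ..., x (d - 1)` of `K`
over `F` such that
* every `x i` is an eigenvector of every `T a` with an integral eigenvalue;
* the `x i` with `i < e` are invariants of `𝔫` (they are characters), and `D` maps `x i` to a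
  polynomial in the `x j` with `j < i` and the inverses of the characters, for all `D` in `𝔫`;
* the functions which are killed by `𝔫` and by the `T a` are the elements of `F` (the orbit is open);
* `𝔫` and the `T a` are regular on the generic fibre of `X` (the prime divisors on the generic fibre
  are the horizontal prime divisors of `X`). -/
def SolvableFibre (y : Fin (N + 1) → K) (F : IntermediateField ℂ K) : Prop :=
  ∃ (𝔫 : LieSubalgebra F (Derivation F K K)) (r e d : ℕ) (T : Fin r → Derivation F K K)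
    (x : Fin d → K),
    FiniteDimensional F 𝔫 ∧ (∀ a, ∀ D ∈ 𝔫, ⁅T a, D⁆ ∈ 𝔫) ∧
    (∀ f : K, (∀ D ∈ 𝔫, D f = 0) → (∀ a, T a f = 0) → f ∈ F) ∧
    AlgebraicIndependent F x ∧ IntermediateField.adjoin F (Set.range x) = ⊤ ∧
    (∀ a i, ∃ m : ℤ, T a (x i) = (m : K) * x i) ∧
    (∀ D ∈ 𝔫, ∀ i : Fin d, (i : ℕ) < e → D (x i) = 0) ∧
    (∀ D ∈ 𝔫, ∀ i, D (x i) ∈ Algebra.adjoin F (x '' {j | j < i} ∪
      (fun j => (x j)⁻¹) '' {j | (j : ℕ) < e})) ∧
    ∀ P, IsPrimeDivisor y P → Horizontal F P →
      (∀ D ∈ 𝔫, DerReg P (D.restrictScalars ℂ)) ∧ ∀ a, DerReg P ((T a).restrictScalars ℂ)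

/-- The normal projective variety with generic point `z` and function field `L` has an action of a
connected solvable group with an open orbit, on the level of Lie algebras: there are commuting
derivations `T 0, ..., T (r - 1)` of `L` over `ℂ` (the torus), a finite dimensional complex Lie
algebra `𝔫` of derivations of `L` which is normalised by the `T a` (the unipotent radical), and
algebraically independent generators `x 0, ..., x (d - 1)` of `L` over `ℂ` such that
* every `x i` is an eigenvector of every `T a` with an integral eigenvalue;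
* the `x i` with `i < e` are invariants of `𝔫` (they are characters), and `D` maps `x i` to a
  polynomial in the `x j` with `j < i` and the inverses of the characters, for all `D` in `𝔫`;
* the functions which are killed by `𝔫` and by the `T a` are constant (the orbit is open);
* `𝔫` and the `T a` are regular in codimension one: they map the local rings of the prime divisors to
  themselves. -/
def SolvableOpen (z : Fin (N + 1) → K) : Prop :=
  ∃ (𝔫 : LieSubalgebra ℂ (Derivation ℂ K K)) (r e d : ℕ) (T : Fin r → Derivation ℂ K K)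
    (x : Fin d → K),
    FiniteDimensional ℂ 𝔫 ∧ (∀ a, ∀ D ∈ 𝔫, ⁅T a, D⁆ ∈ 𝔫) ∧
    (∀ f : K, (∀ D ∈ 𝔫, D f = 0) → (∀ a, T a f = 0) → ∃ c : ℂ, f = algebraMap ℂ K c) ∧
    AlgebraicIndependent ℂ x ∧ IntermediateField.adjoin ℂ (Set.range x) = ⊤ ∧
    (∀ a i, ∃ m : ℤ, T a (x i) = (m : K) * x i) ∧
    (∀ D ∈ 𝔫, ∀ i : Fin d, (i : ℕ) < e → D (x i) = 0) ∧
    (∀ D ∈ 𝔫, ∀ i, D (x i) ∈ Algebra.adjoin ℂ (x '' {j | j < i} ∪
      (fun j => (x j)⁻¹) '' {j | (j : ℕ) < e})) ∧
    ∀ P, IsPrimeDivisor z P → (∀ D ∈ 𝔫, DerReg P D) ∧ ∀ a, DerReg P (T a)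

end

section

variable {K : Type} [Field K] [Algebra ℂ K] {N : ℕ} {y : Fin (N + 1) → K}
  {F : IntermediateField ℂ K}

theorem SolvableFibre.data (h : SolvableFibre y F) (hFP : FibreProper y F) :
    ∃ (ι κ : Type) (_ : Fintype ι) (_ : Fintype κ) (D : ι → Derivation ℂ K K) (w : ι → ℕ)
      (T : κ → Derivation ℂ K K) (d : ℕ) (x : Fin d → K), SolData y F D w T x := by
  obtain ⟨𝔫, r, e, d, T, x, hfd, hTn, hconst, hind, htop, hTx, hx0, htri, hreg⟩ := h
  obtain ⟨ι, hι, D, w, hD, hs, hG, hp, hn⟩ := exists_sys3 (k := ℂ) 𝔫 hfd T hTn hind htop hTx hx0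
    htri hconst
  refine ⟨ι, Fin r, hι, inferInstance, fun i => res (D i), w, fun a => res (T a), d, x, hs, hG,
    fun j => ?_, hp, hn, fun P hP hPF i => (hreg P hP hPF).1 (D i) (hD i),
    fun P hP hPF a => (hreg P hP hPF).2 a, hFP⟩
  choose m hm using fun a => hTx a j
  exact ⟨m, fun a => hm a⟩

end

section

variable {L : Type} [Field L] [Algebra ℂ L] {N : ℕ}

/-- Lie algebras over the trivial intermediate field -/
theorem exists_bot_alg (𝔫 : LieSubalgebra ℂ (Derivation ℂ L L)) (hfd : FiniteDimensional ℂ 𝔫) :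
    ∃ 𝔪 : LieSubalgebra (⊥ : IntermediateField ℂ L)
      (Derivation (⊥ : IntermediateField ℂ L) L L),
      (∀ D, D ∈ 𝔪 ↔ D.restrictScalars ℂ ∈ 𝔫) ∧
        FiniteDimensional (⊥ : IntermediateField ℂ L) 𝔪 := by
  classical
  -- the Lie algebra over the trivial intermediate field
  obtain ⟨𝔪, h𝔪⟩ : ∃ 𝔪 : LieSubalgebra (⊥ : IntermediateField ℂ L)
      (Derivation (⊥ : IntermediateField ℂ L) L L), ∀ D, D ∈ 𝔪 ↔ D.restrictScalars ℂ ∈ 𝔫 := by
    refine ⟨{
      carrier := {D | D.restrictScalars ℂ ∈ 𝔫}
      add_mem' := ?_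
      zero_mem' := ?_
      smul_mem' := ?_
      lie_mem' := ?_ }, fun D => Iff.rfl⟩
    · intro a b ha hb
      exact 𝔫.add_mem ha hb
    · exact 𝔫.zero_mem
    · intro c D hD
      obtain ⟨b, hb⟩ := IntermediateField.mem_bot.1 c.2
      have h1 : (c • D).restrictScalars ℂ = b • D.restrictScalars ℂ := by
        ext z
        change c • D z = b • D z
        rw [Algebra.smul_def, Algebra.smul_def, hb]
        rfl
      change (c • D).restrictScalars ℂ ∈ 𝔫
      rw [h1]
      exact 𝔫.smul_mem b hD
    · intro a b ha hb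
      have h1 : (⁅a, b⁆).restrictScalars ℂ = ⁅a.restrictScalars ℂ, b.restrictScalars ℂ⁆ := rfl
      change (⁅a, b⁆).restrictScalars ℂ ∈ 𝔫
      rw [h1]
      exact 𝔫.lie_mem ha hb
  have hfd' : FiniteDimensional (⊥ : IntermediateField ℂ L) 𝔪 := by
    obtain ⟨r, e, he⟩ := Submodule.fg_iff_exists_fin_generating_family.1
      ((Submodule.fg_top _).1 (Module.Finite.fg_top (R := ℂ) (M := 𝔫)))
    have he' : ∀ E, E ∈ 𝔫 ↔ E ∈ Submodule.span ℂ (Set.range e) := by
      intro E
      rw [he]
      exact Iff.rfl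
    have h1 : 𝔪.toSubmodule = Submodule.span (⊥ : IntermediateField ℂ L)
        (Set.range fun i => lft (e i)) := by
      apply le_antisymm
      · intro D hD
        have h2 : D.restrictScalars ℂ ∈ 𝔫 := (h𝔪 D).1 hD
        obtain ⟨c, hc⟩ := (Submodule.mem_span_range_iff_exists_fun ℂ).1 ((he' _).1 h2)
        rw [Submodule.mem_span_range_iff_exists_fun]
        refine ⟨fun i => algebraMap ℂ (⊥ : IntermediateField ℂ L) (c i), ?_⟩
        ext z
        have h3 : D z = (∑ i, c i • e i) z := by
          rw [hc]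
          rfl
        have h4 : ∀ s : Finset (Fin r), (∑ i ∈ s, c i • e i) z = ∑ i ∈ s, c i • e i z := by
          intro s
          induction s using Finset.induction_on with
          | empty => simp
          | insert a s ha ih =>
            rw [Finset.sum_insert ha, Finset.sum_insert ha, Derivation.add_apply, ih,
              Derivation.smul_apply]
        rw [h3, sum_smul_app, h4]
        exact Finset.sum_congr rfl fun i _ => by
          rw [Algebra.smul_def]
          rfl
      · rw [Submodule.span_le]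
        rintro _ ⟨i, rfl⟩
        refine (h𝔪 _).2 ?_
        rw [res_lft]
        exact (he' _).2 (Submodule.subset_span ⟨i, rfl⟩)
    have h2 : 𝔪.toSubmodule.FG := by
      rw [h1]
      exact Submodule.fg_span (Set.finite_range _)
    exact Module.Finite.iff_fg.2 h2
  exact ⟨𝔪, h𝔪, hfd'⟩

theorem SolvableOpen.data {z : Fin (N + 1) → L} (hz : NormalModel z) (h : SolvableOpen z) :
    ∃ (ι κ : Type) (_ : Fintype ι) (_ : Fintype κ) (D : ι → Derivation ℂ L L) (w : ι → ℕ)
      (T : κ → Derivation ℂ L L) (d : ℕ) (x : Fin d → L),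
      SolData z (⊥ : IntermediateField ℂ L) D w T x := by
  classical
  obtain ⟨𝔫, r, e, d, T, x, hfd, hTn, hconst, hind, htop, hTx, hx0, htri, hreg⟩ := h
  obtain ⟨𝔪, h𝔪, hfd'⟩ := exists_bot_alg 𝔫 hfd
  have h5 : Algebra.IsAlgebraic ℂ (⊥ : IntermediateField ℂ L) := by
    refine ⟨fun z => ?_⟩
    obtain ⟨c, hc⟩ := IntermediateField.mem_bot.1 z.2
    have hz : z = algebraMap ℂ (⊥ : IntermediateField ℂ L) c := Subtype.ext hc.symm
    rw [hz]
    exact isAlgebraic_algebraMap c
  refine SolvableFibre.data ⟨𝔪, r, e, d, fun a => lft (T a), x, hfd', fun a D hD => ?_,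
    fun f hf hf' => ?_, hind.extendScalars _, ?_, hTx, fun D hD i hi => hx0 _ ((h𝔪 D).1 hD) i hi,
    fun D hD i => ?_, fun P hP _ => ⟨fun D hD => (hreg P hP).1 _ ((h𝔪 D).1 hD),
      fun a => (hreg P hP).2 a⟩⟩ (fibreProper_bot hz)
  · have h1 : (⁅lft (T a), D⁆).restrictScalars ℂ = ⁅T a, D.restrictScalars ℂ⁆ := rfl
    rw [h𝔪, h1]
    exact hTn a _ ((h𝔪 D).1 hD)
  · obtain ⟨c, hc⟩ := hconst f (fun D hD => hf (lft D) ((h𝔪 _).2 hD)) hf'
    exact IntermediateField.mem_bot.2 ⟨c, hc.symm⟩
  · rw [eq_top_iff]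
    intro z _
    have h1 : IntermediateField.adjoin ℂ (Set.range x) ≤
        (IntermediateField.adjoin (⊥ : IntermediateField ℂ L)
          (Set.range x)).restrictScalars ℂ := by
      rw [IntermediateField.adjoin_le_iff]
      exact IntermediateField.subset_adjoin _ _
    rw [htop] at h1
    exact h1 IntermediateField.mem_top
  · have h1 := htri _ ((h𝔪 D).1 hD) i
    have h2 : ∀ (S : Set L), ∀ z ∈ Algebra.adjoin ℂ S,
        z ∈ Algebra.adjoin (⊥ : IntermediateField ℂ L) S := by
      intro S z hz
      induction hz using Algebra.adjoin_induction with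
      | mem z hz => exact Algebra.subset_adjoin hz
      | algebraMap r =>
        exact (Algebra.adjoin (⊥ : IntermediateField ℂ L) S).algebraMap_mem
          (algebraMap ℂ (⊥ : IntermediateField ℂ L) r)
      | add a b _ _ h h' => exact add_mem h h'
      | mul a b _ _ h h' => exact mul_mem h h'
    exact h2 _ _ h1

end

section

variable {L ι κ : Type} [Field L] [Algebra ℂ L] [Fintype ι] [Fintype κ] {N n d : ℕ}
  {z : Fin (N + 1) → L} {D : ι → Derivation ℂ L L} {w : ι → ℕ} {T : κ → Derivation ℂ L L}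
  {x : Fin d → L}

/-- **Abundance for all divisors.** -/
theorem abs_abund3 (hz : NormalModel z) (hn : Algebra.trdeg ℂ L = n)
    (h : SolData z (⊥ : IntermediateField ℂ L) D w T x) {V : Place ℂ L → ℚ}
    (hV : FinSup z V) : Abund z n V ∨ ∀ A, FinSup z A → ∃ m0 : ℕ, ∀ m, m0 ≤ m →
      ∀ ω, IsSection z n m (m • V + A) ω → ω = 0 := by
  classical
  obtain ⟨x', E, hx, hE⟩ := exists_crd hn
  obtain ⟨w', hw, hwf⟩ := exists_canon hz hn hx hE
  have hfr := frame_of_dual hx hE
  -- sections and functions
  have hsec : ∀ (m : ℕ) (D : Place ℂ L → ℚ) (ω : (Fin n → Derivation ℂ L L) → L),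
      IsPluri m ω → (IsSection z n m D ω ↔ Fn z (m • w' + D) (ω E)) := by
    intro m D ω hω
    constructor
    · rintro ⟨-, h⟩ P hP
      have h1 := (hwf P hP m ω _ hω).1 (h P hP)
      refine h1.imp_right fun h2 => le_trans (le_of_eq ?_) h2
      simp only [Pi.add_apply, smul_ap]
      ring
    · intro h
      refine ⟨hω, fun P hP => (hwf P hP m ω _ hω).2 ?_⟩
      refine (h P hP).imp_right fun h2 => le_trans (le_of_eq ?_) h2
      simp only [Pi.add_apply, smul_ap]
      ring
  rcases tame3 hz h (hw.add hV) with ⟨a, ha, σ, hσ, hσ0⟩ | hN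
  · left
    obtain ⟨κ, m0, g, hm0, hg, hg0, hind, hup⟩ := sol_growth hz h (U := w' + V) (hw.add hV)
      ha hσ hσ0 (by
        intro f hf
        obtain ⟨c, rfl⟩ := IntermediateField.mem_bot.1 hf
        have h1 := isAlgebraic_algebraMap (A := L) (algebraMap ℂ
          (IntermediateField.adjoin ℂ (rat z (w' + V))) c)
        exact h1)
    refine ⟨κ, m0, fun j => frm x' m0 (g j), hm0, fun j => ?_, ⟨E, ?_, ?_⟩, ?_⟩
    · rw [hsec m0 _ _ (frm_pluri x' m0 (g j)), frm_eval hE, ← smul_add]
      exact hg j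
    · change frm x' m0 (g 0) E ≠ 0
      rw [frm_eval hE]
      exact hg0
    · simp only [frm_eval hE]
      exact hind
    · intro x1 E' hx' hE' A hA
      obtain ⟨C, hC⟩ := hup A hA
      refine ⟨C, fun m hm r f hf h => hC m hm r (fun i =>
        ((Matrix.of fun i j => E' i (x' j)).det ^ m)⁻¹ * f i) ?_ fun i => ?_⟩
      · have hd := det_ne hx' hE' hE
        exact hf.map' (LinearMap.mulLeft ℂ _) (LinearMap.ker_eq_bot.2
          (mul_right_injective₀ (inv_ne_zero (pow_ne_zero _ hd))))
      · have hd := det_ne hx' hE' hE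
        obtain ⟨ω, hω, hωf⟩ := h i
        have h2 := (hsec m _ ω hω.1).1 hω
        have h3 : ω E' = (Matrix.of fun i j => E' i (x' j)).det ^ m * ω E :=
          pluri_coord hx hE hω.1 E'
        have h4 : ((Matrix.of fun i j => E' i (x' j)).det ^ m)⁻¹ * f i = ω E := by
          rw [← hωf, h3, inv_mul_cancel_left₀ (pow_ne_zero _ hd)]
        rw [h4, smul_add, add_assoc]
        exact h2
  · right
    intro A hA
    obtain ⟨m0, hm0⟩ := hN A hA
    refine ⟨m0, fun m hm ω hω => ?_⟩
    have h1 := (hsec m _ ω hω.1).1 hω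
    rw [← add_assoc, ← smul_add] at h1
    exact pluri_zero hfr hω.1 (hm0 m hm _ h1)

end

end Pool.Agent.H892
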