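import Pool.Agent.H892.S1

/-!
Systems of derivations of solvable type: a nilpotent system which is normalised by commuting
diagonalisable derivations.
-/

set_option autoImplicit false
set_option linter.unusedSectionVars false

open FF Pool.Agent.W602.GT Pool.Agent.Y172

namespace Pool.Agent.H892

section

variable {k K κ : Type} [Field k] [CharZero k] [Field K] [Algebra k K]
  {F : IntermediateField k K} {T : κ → Derivation k K K}

theorem fsmul_apply (c : F) (D : Derivation k K K) (x : K) : (c • D) x = (c : K) * D x := rfl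

theorem brk_apply (D E : Derivation k K K) (x : K) : ⁅D, E⁆ x = D (E x) - E (D x) :=
  Derivation.commutator_apply ..

theorem brk_smul {D E : Derivation k K K} (hD : ∀ f ∈ F, D f = 0) (c : F) :
    ⁅D, c • E⁆ = c • ⁅D, E⁆ := by
  ext x
  rw [brk_apply, fsmul_apply, fsmul_apply, fsmul_apply, brk_apply, der_smul hD c.2]
  ring

theorem smul_brk {D E : Derivation k K K} (hE : ∀ f ∈ F, E f = 0) (c : F) :
    ⁅c • D, E⁆ = c • ⁅D, E⁆ := by
  ext x
  rw [brk_apply, fsmul_apply, fsmul_apply, fsmul_apply, brk_apply, der_smul hE c.2]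
  ring

theorem kill_span {s : Set (Derivation k K K)} (hs : ∀ D ∈ s, ∀ f ∈ F, D f = 0)
    {D : Derivation k K K} (hD : D ∈ Submodule.span F s) : ∀ f ∈ F, D f = 0 := by
  induction hD using Submodule.span_induction with
  | mem D hD => exact hs D hD
  | zero => exact fun f _ => rfl
  | add D E _ _ h h' => exact fun f hf => by rw [Derivation.add_apply, h f hf, h' f hf, add_zero]
  | smul c D _ h => exact fun f hf => by rw [fsmul_apply, h f hf, mul_zero]

theorem brk_mem {s t : Set (Derivation k K K)} (hs : ∀ D ∈ s, ∀ f ∈ F, D f = 0)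
    (ht : ∀ D ∈ t, ∀ f ∈ F, D f = 0) {N : Submodule F (Derivation k K K)}
    (h : ∀ D ∈ s, ∀ E ∈ t, ⁅D, E⁆ ∈ N) {D E : Derivation k K K}
    (hD : D ∈ Submodule.span F s) (hE : E ∈ Submodule.span F t) : ⁅D, E⁆ ∈ N := by
  have h1 : ∀ D ∈ s, ∀ E ∈ Submodule.span F t, ⁅D, E⁆ ∈ N := by
    intro D hD E hE
    induction hE using Submodule.span_induction with
    | mem E hE => exact h D hD E hE
    | zero => rw [lie_zero]; exact N.zero_mem
    | add E E' _ _ h h' => rw [lie_add]; exact N.add_mem h h'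
    | smul c E _ h => rw [brk_smul (hs D hD)]; exact N.smul_mem c h
  induction hD using Submodule.span_induction with
  | mem D hD => exact h1 D hD E hE
  | zero => rw [zero_lie]; exact N.zero_mem
  | add D D' _ _ h h' => rw [add_lie]; exact N.add_mem h h'
  | smul c D _ h => rw [smul_brk (kill_span ht hE)]; exact N.smul_mem c h

/-- the derivation `D` is an eigenvector of the derivations `T a` -/
def Wd (T : κ → Derivation k K K) (ν : κ → ℤ) (D : Derivation k K K) : Prop :=
  ∀ a x, T a (D x) - D (T a x) = (ν a : K) * D x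

theorem Wd.wt {ν μ : κ → ℤ} {D : Derivation k K K} (hD : Wd T ν D) {x : K} (hx : Wt T μ x) :
    Wt T (ν + μ) (D x) := fun a => by
  have h1 := hD a x
  rw [hx a, D.leibniz, Derivation.map_intCast, smul_zero, add_zero, smul_eq_mul] at h1
  rw [Pi.add_apply]
  push_cast
  linear_combination h1

/-- a derivation which kills generators vanishes -/
theorem der_zero {X : Set K} (hX : IntermediateField.adjoin k ((F : Set K) ∪ X) = ⊤)
    {D : Derivation k K K} (hF : ∀ f ∈ F, D f = 0) (hD : ∀ x ∈ X, D x = 0) : D = 0 := by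
  have h1 : IntermediateField.adjoin k ((F : Set K) ∪ X) ≤ consts D := by
    rw [IntermediateField.adjoin_le_iff]
    rintro x (hx | hx)
    · exact hF x hx
    · exact hD x hx
  rw [hX] at h1
  ext x
  exact h1 IntermediateField.mem_top

theorem frac_hs (hT : ∀ a, ∀ f ∈ F, T a f = 0) {X : Set K} (hXw : ∀ x ∈ X, ∃ μ, Wt T μ x)
    (hX : IntermediateField.adjoin k ((F : Set K) ∪ X) = ⊤) (z : K) :
    ∃ a ∈ Hs F T, ∃ b ∈ Hs F T, b ≠ 0 ∧ z = a / b := by
  have hz : z ∈ IntermediateField.adjoin k ((F : Set K) ∪ X) := by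
    rw [hX]
    exact IntermediateField.mem_top
  rw [IntermediateField.mem_adjoin_iff_div] at hz
  obtain ⟨r, hr, s, hs, hrs⟩ := hz
  have h1 : ∀ z ∈ Algebra.adjoin k ((F : Set K) ∪ X), z ∈ Hs F T := by
    intro z hz
    induction hz using Algebra.adjoin_induction with
    | mem z hz =>
      rcases hz with hz | hz
      · exact hs_F hT hz
      · obtain ⟨μ, hμ⟩ := hXw z hz
        exact hμ.mem
    | algebraMap r => exact hs_F hT (F.algebraMap_mem r)
    | add a b _ _ h h' => exact Submodule.add_mem _ h h'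
    | mul a b _ _ h h' => exact hs_mul hT h h'
  by_cases hs0 : s = 0
  · exact ⟨0, Submodule.zero_mem _, 1, hs_one, one_ne_zero, by rw [hrs, hs0, div_zero, zero_div]⟩
  · exact ⟨r, h1 r hr, s, h1 s hs, hs0, hrs⟩

/-- **Components of Lie algebras of derivations.** -/
theorem der_comp (hT : ∀ a, ∀ f ∈ F, T a f = 0) {X : Finset K} (hXw : ∀ x ∈ X, ∃ μ, Wt T μ x)
    (hX : IntermediateField.adjoin k ((F : Set K) ∪ X) = ⊤)
    (𝔪 : Submodule F (Derivation k K K)) (hfg : 𝔪.FG) (hk : ∀ D ∈ 𝔪, ∀ f ∈ F, D f = 0)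
    (hst : ∀ a, ∀ D ∈ 𝔪, ⁅T a, D⁆ ∈ 𝔪) :
    𝔪 ≤ Submodule.span F {D | D ∈ 𝔪 ∧ ∃ ν, Wd T ν D} := by
  classical
  have hfr := frac_hs hT hXw hX
  choose! μ hμ using hXw
  -- evaluation
  obtain ⟨ev, hev⟩ : ∃ ev : K → Derivation k K K →ₗ[F] K, ∀ x D, ev x D = D x :=
    ⟨fun x => ⟨⟨fun D => D x, fun _ _ => rfl⟩, fun _ _ => rfl⟩, fun _ _ => rfl⟩
  let Φ : Derivation k K K →ₗ[F] (X → K) := LinearMap.pi fun x => ev x
  have hΦ : ∀ D x, Φ D x = D x := fun D x => by
    rw [LinearMap.pi_apply, hev]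
  let B : κ → (X → K) →ₗ[F] (X → K) := fun a => LinearMap.pi fun x =>
    (dlin (T a) (hT a)).comp (LinearMap.proj x) - ((μ x a : ℤ) : F) • LinearMap.proj x
  have hB : ∀ a v x, B a v x = T a (v x) - (μ x a : K) * v x := by
    intro a v x
    change T a (v x) - ((μ x a : ℤ) : F) • v x = _
    rw [Algebra.smul_def]
    congr 1
  have hinj : ∀ D : Derivation k K K, (∀ f ∈ F, D f = 0) → Φ D = 0 → D = 0 := by
    intro D hDF hD
    refine der_zero hX hDF fun x hx => ?_
    have := congrFun hD ⟨x, hx⟩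
    rwa [hΦ, Pi.zero_apply] at this
  have hΦB : ∀ a, ∀ D ∈ 𝔪, Φ ⁅T a, D⁆ = B a (Φ D) := by
    intro a D hD
    funext x
    rw [hΦ, hB, hΦ, brk_apply, hμ x x.2 a, D.leibniz, Derivation.map_intCast, smul_zero, add_zero,
      smul_eq_mul]
  -- the values
  have hval : ∀ D ∈ 𝔪, ∀ x : X, D x ∈ Hs F T := by
    intro D hD x
    refine fd_hs hT hfr (𝔪.map (ev x)) (hfg.map _) ?_ ⟨D, hD, hev _ _⟩
    rintro a _ ⟨E, hE, rfl⟩
    rw [hev]
    refine ⟨⁅T a, E⁆ + ((μ x a : ℤ) : F) • E, 𝔪.add_mem (hst a E hE) (𝔪.smul_mem _ hE), ?_⟩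
    rw [hev, Derivation.add_apply, brk_apply, hμ x x.2 a, E.leibniz, Derivation.map_intCast,
      smul_zero, add_zero, smul_eq_mul, fsmul_apply]
    have : (((μ x a : ℤ) : F) : K) = (μ x a : K) := by push_cast; rfl
    rw [this]
    ring
  have hHv : ∀ D ∈ 𝔪, Φ D ∈ Hv B := by
    intro D hD
    have h1 : Φ D = ∑ x : X, (Pi.single x (D x) : X → K) := by
      rw [Finset.univ_sum_single (fun x : X => D x)]
      funext x
      exact hΦ D x
    rw [h1]
    refine Submodule.sum_mem _ fun x _ => ?_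
    have h2 : ∀ z ∈ Hs F T, (Pi.single x z : X → K) ∈ Hv B := by
      intro z hz
      unfold Hs at hz
      induction hz using Submodule.span_induction with
      | mem z hz =>
        obtain ⟨lam, hlam⟩ := hz
        refine Wv.mem (μ := lam - μ x) fun a => ?_
        funext x'
        rw [hB, Pi.smul_apply]
        by_cases hx : x' = x
        · subst hx
          rw [Pi.single_eq_same, hlam a, Algebra.smul_def]
          change _ = (((((lam - μ x') a : ℤ) : F)) : K) * z
          rw [Pi.sub_apply]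
          push_cast
          ring
        · rw [Pi.single_eq_of_ne hx, map_zero, mul_zero, sub_zero, smul_zero]
      | zero => rw [Pi.single_zero]; exact Submodule.zero_mem _
      | add u v _ _ hu hv => rw [Pi.single_add]; exact Submodule.add_mem _ hu hv
      | smul c u _ hu => rw [Pi.single_smul]; exact Submodule.smul_mem _ c hu
    exact h2 _ (hval D hD x)
  intro D hD
  obtain ⟨s, c, hc, hcs⟩ := exists_comp_mem (A := B) (𝔪.map Φ) (by
    rintro a _ ⟨E, hE, rfl⟩
    exact ⟨⁅T a, E⁆, hst a E hE, hΦB a E hE⟩) ⟨D, hD, rfl⟩ (hHv D hD)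
  choose E hE hEc using fun ν => (hc ν).2
  have h1 : D = ∑ ν ∈ s, E ν := by
    rw [← sub_eq_zero]
    refine hinj _ (hk _ (𝔪.sub_mem hD (𝔪.sum_mem fun ν _ => hE ν))) ?_
    rw [map_sub, map_sum, hcs, sub_eq_zero]
    exact Finset.sum_congr rfl fun ν _ => (hEc ν).symm
  rw [h1]
  refine Submodule.sum_mem _ fun ν _ => Submodule.subset_span ⟨hE ν, ν, fun a x => ?_⟩
  have h2 : ⁅T a, E ν⁆ - ((ν a : ℤ) : F) • E ν = 0 := by
    refine hinj _ (hk _ (𝔪.sub_mem (hst a _ (hE ν)) (𝔪.smul_mem _ (hE ν)))) ?_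
    rw [map_sub, map_smul, hΦB a _ (hE ν), hEc, (hc ν).1 a, sub_self]
  have h3 := congrArg (fun D : Derivation k K K => D x) (sub_eq_zero.1 h2)
  change ⁅T a, E ν⁆ x = (((ν a : ℤ) : F) : K) * E ν x at h3
  rw [brk_apply] at h3
  rw [h3]
  push_cast
  rfl

end

section

variable {k K ι κ : Type} [Field k] [CharZero k] [Field K] [Algebra k K] [Fintype ι]
  {F : IntermediateField k K} {D : ι → Derivation k K K} {w : ι → ℕ}
  {T : κ → Derivation k K K}

variable (F D w) in
/-- the combinations of the derivations of weight less than `n` -/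
def Lw (n : ℕ) : Submodule F (Derivation k K K) := Submodule.span F (D '' {l | w l < n})

theorem lw_mono {n m : ℕ} (h : n ≤ m) : Lw F D w n ≤ Lw F D w m :=
  Submodule.span_mono (Set.image_mono fun _ hl => lt_of_lt_of_le hl h)

theorem mem_lw {n : ℕ} {E : Derivation k K K} : E ∈ Lw F D w n ↔ ∃ c : ι → K, (∀ l, c l ∈ F) ∧
    (∀ l, n ≤ w l → c l = 0) ∧ ∀ x, E x = ∑ l, c l * D l x := by
  classical
  constructor
  · intro hE
    unfold Lw at hE
    induction hE using Submodule.span_induction with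
    | mem E hE =>
      obtain ⟨l, hl, rfl⟩ := hE
      refine ⟨fun l' => if l' = l then 1 else 0, fun l' => ?_, fun l' hl' => ?_, fun x => ?_⟩
      · beta_reduce
        split_ifs
        · exact F.one_mem
        · exact F.zero_mem
      · beta_reduce
        rw [if_neg]
        rintro rfl
        exact absurd hl (not_lt.2 hl')
      · simp
    | zero => exact ⟨fun _ => 0, fun _ => F.zero_mem, fun _ _ => rfl, fun x => by simp⟩
    | add E E' _ _ h h' =>
      obtain ⟨c, h1, h2, h3⟩ := h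
      obtain ⟨c', h1', h2', h3'⟩ := h'
      refine ⟨fun l => c l + c' l, fun l => F.add_mem (h1 l) (h1' l), fun l hl => by
        beta_reduce
        rw [h2 l hl, h2' l hl, add_zero], fun x => ?_⟩
      rw [Derivation.add_apply, h3, h3', ← Finset.sum_add_distrib]
      exact Finset.sum_congr rfl fun l _ => by ring
    | smul a E _ h =>
      obtain ⟨c, h1, h2, h3⟩ := h
      refine ⟨fun l => a * c l, fun l => F.mul_mem a.2 (h1 l), fun l hl => by
        beta_reduce
        rw [h2 l hl, mul_zero], fun x => ?_⟩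
      rw [fsmul_apply, h3, Finset.mul_sum]
      exact Finset.sum_congr rfl fun l _ => by ring
  · rintro ⟨c, h1, h2, h3⟩
    have h4 : E = ∑ l, (⟨c l, h1 l⟩ : F) • D l := by
      ext x
      rw [h3]
      have h5 : ∀ s : Finset ι, (∑ l ∈ s, (⟨c l, h1 l⟩ : F) • D l) x =
          ∑ l ∈ s, c l * D l x := by
        intro s
        induction s using Finset.induction_on with
        | empty => rw [Finset.sum_empty, Finset.sum_empty]; rfl
        | insert a s ha ih =>
          rw [Finset.sum_insert ha, Finset.sum_insert ha, Derivation.add_apply, ih]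
          rfl
      exact (h5 Finset.univ).symm
    rw [h4]
    refine Submodule.sum_mem _ fun l _ => ?_
    by_cases hl : n ≤ w l
    · have h5 : (⟨c l, h1 l⟩ : F) = 0 := Subtype.ext (h2 l hl)
      rw [h5, zero_smul]
      exact Submodule.zero_mem _
    · exact Submodule.smul_mem _ _ (Submodule.subset_span ⟨l, not_le.1 hl, rfl⟩)

theorem kil_of_comb' {ι' : Type} {D' : ι' → Derivation k K K} (hk : ∀ i, ∀ f ∈ F, D i f = 0)
    (hD' : ∀ i, ∃ c : ι → K, (∀ l, c l ∈ F) ∧ ∀ x, D' i x = ∑ l, c l * D l x) :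
    ∀ (n : ℕ) (x : K), Kil D n x → Kil D' n x := by
  intro n
  induction n with
  | zero => exact fun x hx => hx
  | succ n ih =>
    intro x hx i
    obtain ⟨c, hc, hcx⟩ := hD' i
    rw [hcx]
    exact ih _ (Kil.sum _ fun l _ => kil_smul hk (hc l) n _ (hx l))

/-- A system of derivations of solvable type over the field `F`: a nilpotent system `D` with weights
`w` which is normalised by commuting derivations `T`; the common constants are the elements of `F`,
and `K` is generated over `F` by finitely many nilpotent elements which are eigenvectors of the `T a`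
with integral eigenvalues. -/
structure SolSys (F : IntermediateField k K) (D : ι → Derivation k K K) (w : ι → ℕ)
    (T : κ → Derivation k K K) : Prop where
  kD : ∀ i, ∀ f ∈ F, D i f = 0
  kT : ∀ a, ∀ f ∈ F, T a f = 0
  comm : ∀ i j, ⁅D i, D j⁆ ∈ Lw F D w (w j)
  tt : ∀ a b x, T a (T b x) = T b (T a x)
  tD : ∀ a i, ⁅T a, D i⁆ ∈ Lw F D w (w i + 1)
  const : ∀ x, (∀ i, D i x = 0) → (∀ a, T a x = 0) → x ∈ F
  gen : ∃ X : Finset K, (∀ x ∈ X, Nilp D x ∧ ∃ μ, Wt T μ x) ∧
    IntermediateField.adjoin k ((F : Set K) ∪ X) = ⊤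

variable (D) in
/-- the common constants -/
def Cst : IntermediateField k K where
  carrier := {x | ∀ i, D i x = 0}
  mul_mem' := fun ha hb i => (consts (D i)).mul_mem (ha i) (hb i)
  one_mem' := fun i => (consts (D i)).one_mem
  add_mem' := fun ha hb i => (consts (D i)).add_mem (ha i) (hb i)
  zero_mem' := fun i => (consts (D i)).zero_mem
  algebraMap_mem' := fun r i => (consts (D i)).algebraMap_mem r
  inv_mem' := fun _ ha i => (consts (D i)).inv_mem (ha i)

theorem mem_cst {x : K} : x ∈ Cst D ↔ ∀ i, D i x = 0 := Iff.rfl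

theorem lw_kill (h : ∀ i, ∀ f ∈ F, D i f = 0) {n : ℕ} {E : Derivation k K K}
    (hE : E ∈ Lw F D w n) : ∀ f ∈ F, E f = 0 :=
  kill_span (by
    rintro _ ⟨l, -, rfl⟩
    exact h l) hE

/-- the nilpotent elements are stable under `T` -/
theorem kil_T (hkD : ∀ i, ∀ f ∈ F, D i f = 0) {n0 : ℕ} {E : Derivation k K K}
    (hE : ∀ i, ⁅E, D i⁆ ∈ Lw F D w n0) : ∀ (n : ℕ) (x : K), Kil D n x → Kil D n (E x) := by
  intro n
  induction n with
  | zero =>
    intro x hx
    rw [show x = 0 from hx, map_zero]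
    exact Kil.zero 0
  | succ n ih =>
    intro x hx i
    obtain ⟨c, hc, -, hcx⟩ := mem_lw.1 (hE i)
    have h1 : D i (E x) = E (D i x) + ∑ l, (-c l) * D l x := by
      have := hcx x
      rw [brk_apply] at this
      rw [Finset.sum_congr rfl fun l _ => neg_mul (c l) (D l x), Finset.sum_neg_distrib, ← this]
      ring
    rw [h1]
    exact (ih _ (hx i)).add (Kil.sum _ fun l _ => kil_smul hkD (F.neg_mem (hc l)) n _ (hx l))

theorem SolSys.nilpT (hs : SolSys F D w T) (a : κ) {x : K} (hx : Nilp D x) : Nilp D (T a x) := by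
  obtain ⟨n, hn⟩ := hx
  obtain ⟨n0, hn0⟩ : ∃ n0, ∀ l, w l < n0 := ⟨Finset.univ.sup w + 1, fun l =>
    Nat.lt_succ_of_le (Finset.le_sup (Finset.mem_univ l))⟩
  exact ⟨n, kil_T hs.kD (fun i => lw_mono (Nat.succ_le_of_lt (hn0 i)) (hs.tD a i)) n x hn⟩

theorem SolSys.cstT (hs : SolSys F D w T) (a : κ) {x : K} (hx : x ∈ Cst D) : T a x ∈ Cst D := by
  rw [mem_cst] at hx ⊢
  obtain ⟨n0, hn0⟩ : ∃ n0, ∀ l, w l < n0 := ⟨Finset.univ.sup w + 1, fun l =>
    Nat.lt_succ_of_le (Finset.le_sup (Finset.mem_univ l))⟩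
  exact kil_T hs.kD (fun i => lw_mono (Nat.succ_le_of_lt (hn0 i)) (hs.tD a i)) 1 x hx

theorem SolSys.le (hs : SolSys F D w T) : F ≤ Cst D := fun f hf => mem_cst.2 fun i => hs.kD i f hf

/-- nilpotent elements are closed under multiplication by `F` -/
theorem SolSys.nilpF (hs : SolSys F D w T) {c x : K} (hc : c ∈ F) (hx : Nilp D x) :
    Nilp D (c * x) := by
  obtain ⟨n, hn⟩ := hx
  exact ⟨n, kil_smul hs.kD hc n x hn⟩

theorem SolSys.frac (hs : SolSys F D w T) (z : K) :
    ∃ a b, (Nilp D a ∧ a ∈ Hs F T) ∧ (Nilp D b ∧ b ∈ Hs F T) ∧ b ≠ 0 ∧ z = a / b := by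
  obtain ⟨X, hX, htop⟩ := hs.gen
  have hz : z ∈ IntermediateField.adjoin k ((F : Set K) ∪ X) := by
    rw [htop]
    exact IntermediateField.mem_top
  rw [IntermediateField.mem_adjoin_iff_div] at hz
  obtain ⟨r, hr, s, hs', hrs⟩ := hz
  have h1 : ∀ z ∈ Algebra.adjoin k ((F : Set K) ∪ X), Nilp D z ∧ z ∈ Hs F T := by
    intro z hz
    induction hz using Algebra.adjoin_induction with
    | mem z hz =>
      rcases hz with hz | hz
      · exact ⟨nilp_const fun i => hs.kD i z hz, hs_F hs.kT hz⟩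
      · obtain ⟨hn, μ, hμ⟩ := hX z hz
        exact ⟨hn, hμ.mem⟩
    | algebraMap r => exact ⟨nilp_const fun i => (D i).map_algebraMap r,
        hs_F hs.kT (F.algebraMap_mem r)⟩
    | add a b _ _ h h' => exact ⟨h.1.add h'.1, Submodule.add_mem _ h.2 h'.2⟩
    | mul a b _ _ h h' => exact ⟨h.1.mul h'.1, hs_mul hs.kT h.2 h'.2⟩
  by_cases hs0 : s = 0
  · exact ⟨0, 1, ⟨nilp_zero, Submodule.zero_mem _⟩, ⟨nilp_one, hs_one⟩, one_ne_zero, by
      rw [hrs, hs0, div_zero, zero_div]⟩
  · exact ⟨r, s, h1 r hr, h1 s hs', hs0, hrs⟩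

theorem SolSys.fracH (hs : SolSys F D w T) (z : K) :
    ∃ a ∈ Hs F T, ∃ b ∈ Hs F T, b ≠ 0 ∧ z = a / b := by
  obtain ⟨a, b, ha, hb, h0, h⟩ := hs.frac z
  exact ⟨a, ha.2, b, hb.2, h0, h⟩

/-- the nilpotent part is a nilpotent system over the field of constants -/
theorem SolSys.nil (hs : SolSys F D w T) : NilSys2 F (Cst D) D w where
  le := hs.le
  kills := fun i f hf => mem_cst.1 hf i
  comm := fun i j => by
    obtain ⟨c, h1, h2, h3⟩ := mem_lw.1 (hs.comm i j)
    exact ⟨c, h1, h2, fun x => by rw [← brk_apply]; exact h3 x⟩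
  const := fun x hx => mem_cst.2 hx
  frac := fun x => by
    obtain ⟨a, b, ha, hb, h0, h⟩ := hs.frac x
    exact ⟨a, b, ha.1, hb.1, h0, h⟩

/-- **Homogeneous systems.** -/
theorem SolSys.hom (hs : SolSys F D w T) : ∃ (ι' : Type) (_ : Fintype ι')
    (D' : ι' → Derivation k K K) (w' : ι' → ℕ) (al : ι' → κ → ℤ),
      SolSys F D' w' T ∧ (∀ i, Wd T (al i) (D' i)) ∧
      (∀ i, D' i ∈ Submodule.span F (Set.range D)) ∧
      ∀ i, D i ∈ Submodule.span F (Set.range D') := by
  classical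
  obtain ⟨n0, hn0⟩ : ∃ n0, ∀ l, w l < n0 := ⟨Finset.univ.sup w + 1, fun l =>
    Nat.lt_succ_of_le (Finset.le_sup (Finset.mem_univ l))⟩
  obtain ⟨X, hX, htop⟩ := hs.gen
  have hfgL : ∀ n, (Lw F D w n).FG := fun n => Submodule.fg_span ((Set.toFinite _).image _)
  have hstL : ∀ n a, ∀ E ∈ Lw F D w n, ⁅T a, E⁆ ∈ Lw F D w n := by
    intro n a E hE
    refine brk_mem (s := {T a}) (t := D '' {l | w l < n}) (F := F) ?_ ?_ ?_
      (Submodule.subset_span rfl) hE
    · rintro _ rfl
      exact hs.kT a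
    · rintro _ ⟨l, -, rfl⟩
      exact hs.kD l
    · rintro _ rfl _ ⟨l, hl, rfl⟩
      exact lw_mono (Nat.succ_le_of_lt hl) (hs.tD a l)
  have hbrL : ∀ n m, ∀ E ∈ Lw F D w n, ∀ E' ∈ Lw F D w (m + 1), ⁅E, E'⁆ ∈ Lw F D w m := by
    intro n m E hE E' hE'
    refine brk_mem (s := D '' {l | w l < n}) (t := D '' {l | w l < m + 1}) (F := F) ?_ ?_ ?_
      hE hE'
    · rintro _ ⟨l, -, rfl⟩
      exact hs.kD l
    · rintro _ ⟨l, -, rfl⟩
      exact hs.kD l
    · rintro _ ⟨l, -, rfl⟩ _ ⟨l', hl', rfl⟩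
      exact lw_mono (Nat.lt_succ_iff.1 hl') (hs.comm l l')
  -- homogeneous generators of the levels
  have hgen : ∀ n, ∃ (r : ℕ) (f : Fin r → Derivation k K K),
      (∀ i, f i ∈ Lw F D w n ∧ ∃ ν, Wd T ν (f i)) ∧ Submodule.span F (Set.range f) =
        Lw F D w n := by
    intro n
    have h1 : Submodule.span F {E | E ∈ Lw F D w n ∧ ∃ ν, Wd T ν E} = Lw F D w n :=
      le_antisymm (Submodule.span_le.2 fun E hE => hE.1)
        (der_comp hs.kT (fun x hx => (hX x hx).2) htop _ (hfgL n)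
          (fun E hE => lw_kill hs.kD hE) (hstL n))
    have hfd : FiniteDimensional F (Submodule.span F {E | E ∈ Lw F D w n ∧ ∃ ν, Wd T ν E}) := by
      rw [h1]
      exact Module.Finite.iff_fg.2 (hfgL n)
    obtain ⟨f, hf, hsp, -⟩ := Submodule.exists_fun_fin_finrank_span_eq F
      {E | E ∈ Lw F D w n ∧ ∃ ν, Wd T ν E}
    exact ⟨_, f, hf, by rw [hsp, h1]⟩
  choose r f hf hsp using hgen
  choose hfL ν hν using fun n i => hf n i
  let ι' := Σ n : Fin n0, Fin (r (n + 1))
  obtain ⟨D', hD'⟩ : ∃ D' : ι' → Derivation k K K, ∀ (n : Fin n0) b,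
      D' ⟨n, b⟩ = f (n + 1) b :=
    ⟨fun i => f (i.1 + 1) i.2, fun _ _ => rfl⟩
  obtain ⟨w', hw'⟩ : ∃ w' : ι' → ℕ, ∀ (n : Fin n0) b, w' ⟨n, b⟩ = n :=
    ⟨fun i => i.1, fun _ _ => rfl⟩
  have hD'L : ∀ (n : Fin n0) b, D' ⟨n, b⟩ ∈ Lw F D w (n + 1) := fun n b => by
    rw [hD']
    exact hfL _ b
  have hLn0 : ∀ n, Lw F D w n ≤ Submodule.span F (Set.range D) := fun n =>
    Submodule.span_mono (Set.image_subset_range _ _)
  have hD'D : ∀ i, D' i ∈ Submodule.span F (Set.range D) := fun i => hLn0 _ (hD'L i.1 i.2)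
  -- comparison of the levels
  have hle : ∀ n, n ≤ n0 → Lw F D w n ≤ Lw F D' w' n := by
    intro n hn
    rcases n with - | n
    · have h1 : Lw F D w 0 = ⊥ := by
        unfold Lw
        have : {l | w l < 0} = (∅ : Set ι) := by
          ext l
          simp
        rw [this, Set.image_empty, Submodule.span_empty]
      rw [h1]
      exact bot_le
    · rw [← hsp (n + 1), Submodule.span_le]
      rintro _ ⟨b, rfl⟩
      refine Submodule.subset_span ⟨⟨⟨n, by omega⟩, b⟩, ?_, hD' _ _⟩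
      change w' _ < n + 1
      rw [hw']
      exact Nat.lt_succ_self n
  have hDall : ∀ i, D i ∈ Submodule.span F (Set.range D') := by
    intro i
    have h1 : D i ∈ Lw F D w (w i + 1) := Submodule.subset_span ⟨i, Nat.lt_succ_self _, rfl⟩
    exact (Submodule.span_mono (Set.image_subset_range _ _)) (hle _ (hn0 i) h1)
  have hcomb : ∀ i, ∃ c : ι → K, (∀ l, c l ∈ F) ∧ ∀ x, D' i x = ∑ l, c l * D l x := by
    rintro ⟨n, b⟩
    obtain ⟨c, h1, -, h3⟩ := mem_lw.1 (hD'L n b)
    exact ⟨c, h1, h3⟩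
  have hkD' : ∀ i, ∀ f ∈ F, D' i f = 0 := by
    rintro ⟨n, b⟩
    exact lw_kill hs.kD (hD'L n b)
  have hvan : ∀ x, (∀ i, D' i x = 0) → ∀ i, D i x = 0 := by
    intro x hx i
    have h1 := hDall i
    generalize D i = E at h1
    induction h1 using Submodule.span_induction with
    | mem E hE =>
      obtain ⟨l, rfl⟩ := hE
      exact hx l
    | zero => rfl
    | add E E' _ _ h h' => rw [Derivation.add_apply, h, h', add_zero]
    | smul c E _ h => rw [fsmul_apply, h, mul_zero]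
  refine ⟨ι', inferInstance, D', w', fun i => ν (i.1 + 1) i.2, ⟨hkD', hs.kT, ?_, hs.tt, ?_,
    fun x hx hx' => hs.const x (hvan x hx) hx', ⟨X, fun x hx => ⟨?_, (hX x hx).2⟩, htop⟩⟩, ?_,
    hD'D, hDall⟩
  · rintro ⟨n, b⟩ ⟨m, c⟩
    have h1 := hbrL _ _ _ (hD'L n b) _ (hD'L m c)
    have h2 := hle m m.2.le h1
    have h3 : w' ⟨m, c⟩ = m := hw' _ _
    rw [h3]
    exact h2
  · rintro a ⟨n, b⟩
    have h1 := hstL _ a _ (hD'L n b)
    have h2 := hle (n + 1) n.2 h1
    have h3 : w' ⟨n, b⟩ = n := hw' _ _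
    rw [h3]
    exact h2
  · obtain ⟨m, hm⟩ := (hX x hx).1
    exact ⟨m, kil_of_comb' hs.kD hcomb m x hm⟩
  · rintro ⟨n, b⟩
    rw [hD']
    exact hν _ b

end

end Pool.Agent.H892
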