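import Pool.Agent.H892.S2

/-!
Central derivations and homogeneous power series for systems of solvable type.
-/

set_option autoImplicit false
set_option linter.unusedSectionVars false

open FF PowerSeries

namespace Pool.Agent.H892

section

variable {k K ι κ : Type} [Field k] [CharZero k] [Field K] [Algebra k K] [Fintype ι]
  {F F' : IntermediateField k K} {D : ι → Derivation k K K} {w : ι → ℕ}
  {T : κ → Derivation k K K} {al : ι → κ → ℤ}

theorem Wd.app {ν : κ → ℤ} {E : Derivation k K K} (hE : Wd T ν E) (a : κ) (x : K) :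
    E (T a x) = T a (E x) - (ν a : K) * E x := by
  have := hE a x
  linear_combination -this

/-- **A central derivation.** -/
theorem exists_central3 (hs : NilSys2 F F' D w)
    (hal : ∀ i, Wd T (al i) (D i)) (W : Submodule F K)
    (hst : ∀ i, ∀ x ∈ W, D i x ∈ W) (hstT : ∀ a, ∀ x ∈ W, T a x ∈ W)
    (hinf : ¬ FiniteDimensional F W)
    (h0 : ∀ W0 ≤ W, (∀ x ∈ W0, x ∈ F') → FiniteDimensional F W0) :
    ∃ W' ≤ W, (∀ i, ∀ x ∈ W', D i x ∈ W') ∧ (∀ a, ∀ x ∈ W', T a x ∈ W') ∧
      ¬ FiniteDimensional F W' ∧ ∃ j,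
      (∀ i, ∀ x ∈ W', D i (D j x) = D j (D i x)) ∧
      FiniteDimensional F (W' ⊓ LinearMap.ker (dlin (D j) (hs.killsF j)) : Submodule F K) := by
  classical
  induction h : Fintype.card ι - (kset D W).card using Nat.strong_induction_on generalizing W with
  | _ n ih =>
    -- a derivation of minimal weight which does not kill `W`
    have hne : (kset D W)ᶜ.Nonempty := by
      rw [Finset.nonempty_iff_ne_empty]
      intro h1
      apply hinf
      refine h0 W le_rfl fun x hx => hs.const x fun i => ?_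
      have h3 : i ∈ kset D W := by
        by_contra h4
        have : i ∈ (kset D W)ᶜ := Finset.mem_compl.2 h4
        rw [h1] at this
        exact absurd this (Finset.notMem_empty i)
      exact mem_kset.1 h3 x hx
    obtain ⟨l, hl, hmin⟩ := Finset.exists_min_image _ w hne
    rw [Finset.mem_compl] at hl
    have hlow : ∀ l', w l' < w l → ∀ x ∈ W, D l' x = 0 := by
      intro l' hl'
      by_contra h1
      have h2 : l' ∈ (kset D W)ᶜ := Finset.mem_compl.2 fun h3 => h1 (mem_kset.1 h3)
      exact absurd (hmin l' h2) (by omega)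
    have hcom : ∀ i, ∀ x ∈ W, D i (D l x) = D l (D i x) := by
      intro i x hx
      obtain ⟨c, -, hc0, hc⟩ := hs.comm i l
      rw [← sub_eq_zero, hc x]
      refine Finset.sum_eq_zero fun l' _ => ?_
      rcases Nat.lt_or_ge (w l') (w l) with h1 | h1
      · rw [hlow l' h1 x hx, mul_zero]
      · rw [hc0 l' h1, zero_mul]
    by_cases hf : FiniteDimensional F (W ⊓ LinearMap.ker (dlin (D l) (hs.killsF l)) :
        Submodule F K)
    · exact ⟨W, le_rfl, hst, hstT, hinf, l, hcom, hf⟩
    · have hst1 : ∀ i, ∀ x ∈ (W ⊓ LinearMap.ker (dlin (D l) (hs.killsF l)) : Submodule F K),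
          D i x ∈ (W ⊓ LinearMap.ker (dlin (D l) (hs.killsF l)) : Submodule F K) := by
        rintro i x ⟨hx, hx'⟩
        refine ⟨hst i x hx, ?_⟩
        rw [SetLike.mem_coe, LinearMap.mem_ker, dlin_apply] at hx' ⊢
        rw [← hcom i x hx, hx', map_zero]
      have hst2 : ∀ a, ∀ x ∈ (W ⊓ LinearMap.ker (dlin (D l) (hs.killsF l)) : Submodule F K),
          T a x ∈ (W ⊓ LinearMap.ker (dlin (D l) (hs.killsF l)) : Submodule F K) := by
        rintro a x ⟨hx, hx'⟩
        refine ⟨hstT a x hx, ?_⟩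
        rw [SetLike.mem_coe, LinearMap.mem_ker, dlin_apply] at hx' ⊢
        rw [(hal l).app, hx', map_zero, mul_zero, sub_zero]
      have hcard : (kset D W).card < (kset D (W ⊓ LinearMap.ker (dlin (D l) (hs.killsF l)) :
          Submodule F K)).card := by
        refine Finset.card_lt_card ⟨fun l' hl' => ?_, fun h1 => hl (h1 ?_)⟩
        · rw [mem_kset] at hl' ⊢
          exact fun x hx => hl' x hx.1
        · rw [mem_kset]
          rintro x ⟨-, hx⟩
          exact hx
      have hle : (kset D (W ⊓ LinearMap.ker (dlin (D l) (hs.killsF l)) :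
          Submodule F K)).card ≤ Fintype.card ι := Finset.card_le_univ _
      obtain ⟨W', hW', h1, h1', h2, h3⟩ := ih _ (by omega)
        (W ⊓ LinearMap.ker (dlin (D l) (hs.killsF l)) : Submodule F K) hst1 hst2 hf
        (fun W0 hW0 => h0 W0 (hW0.trans inf_le_left)) rfl
      exact ⟨W', hW'.trans inf_le_left, h1, h1', h2, h3⟩

/-- **An invariant subspace on which a central derivation is surjective with a finite dimensional
kernel.** -/
theorem exists_surj3 (hs : NilSys2 F F' D w)
    (hal : ∀ i, Wd T (al i) (D i)) (W : Submodule F K)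
    (hst : ∀ i, ∀ x ∈ W, D i x ∈ W) (hstT : ∀ a, ∀ x ∈ W, T a x ∈ W)
    (hnil : ∀ x ∈ W, Nilp D x) (hinf : ¬ FiniteDimensional F W)
    (h0 : ∀ W0 ≤ W, (∀ x ∈ W0, x ∈ F') → FiniteDimensional F W0) :
    ∃ W' ≤ W, (∀ i, ∀ x ∈ W', D i x ∈ W') ∧ (∀ a, ∀ x ∈ W', T a x ∈ W') ∧ ∃ j,
      (∀ i, ∀ x ∈ W', D i (D j x) = D j (D i x)) ∧
      (∀ x ∈ W', ∃ u ∈ W', D j u = x) ∧
      FiniteDimensional F (W' ⊓ LinearMap.ker (dlin (D j) (hs.killsF j)) : Submodule F K) ∧
      ∃ x ∈ W', x ≠ 0 ∧ D j x = 0 := by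
  obtain ⟨W1, hW1, hst1, hstT1, hinf1, j, hcom, hfin⟩ := exists_central3 hs hal W hst hstT
    hinf h0
  obtain ⟨Z, hZ⟩ : ∃ Z, Z = dlin (D j) (hs.killsF j) := ⟨_, rfl⟩
  have hZa : ∀ x, Z x = D j x := fun x => by rw [hZ, dlin_apply]
  have hkil : ∀ (n : ℕ) (x : K), Kil D n x → (Z ^ n) x = 0 := by
    intro n
    induction n with
    | zero =>
      intro x hx
      rw [pow_zero, Module.End.one_apply]
      exact hx
    | succ n ih =>
      intro x hx
      rw [pow_succ, Module.End.mul_apply, hZa]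
      exact ih _ (hx j)
  obtain ⟨h1, x0, hx0, hZx0, hx0e⟩ := surj_part Z W1 (fun x hx => by rw [hZa]; exact hst1 j x hx)
    (fun x hx => by
      obtain ⟨n, hn⟩ := hnil x (hW1 hx)
      exact ⟨n, hkil n x hn⟩) (by rw [hZ]; exact hfin) hinf1
  have hpow : ∀ i, ∀ (e : ℕ), ∀ x ∈ W1, D i ((Z ^ e) x) = (Z ^ e) (D i x) ∧ (Z ^ e) x ∈ W1 := by
    intro i e
    induction e with
    | zero =>
      intro x hx
      rw [pow_zero, Module.End.one_apply, Module.End.one_apply]
      exact ⟨rfl, hx⟩
    | succ e ih =>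
      intro x hx
      obtain ⟨h2, h3⟩ := ih x hx
      rw [pow_succ', Module.End.mul_apply, Module.End.mul_apply, hZa, hZa]
      exact ⟨by rw [hcom i _ h3, h2], hst1 j _ h3⟩
  have hpowT : ∀ a, ∀ (e : ℕ) (x : K), T a ((Z ^ e) x) =
      (Z ^ e) (T a x + (e * al j a : ℤ) * x) := by
    intro a e
    induction e with
    | zero =>
      intro x
      rw [pow_zero, Module.End.one_apply, Module.End.one_apply, Nat.cast_zero, zero_mul,
        Int.cast_zero, zero_mul, add_zero]
    | succ e ih =>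
      intro x
      have h2 : (Z ^ (e + 1)) x = (Z ^ e) (D j x) := by
        rw [pow_succ, Module.End.mul_apply, hZa]
      have h3 : ∀ y, (Z ^ (e + 1)) y = (Z ^ e) (D j y) := fun y => by
        rw [pow_succ, Module.End.mul_apply, hZa]
      have h4 : D j ((((e + 1 : ℕ) * al j a : ℤ) : K) * x) =
          (((e + 1 : ℕ) * al j a : ℤ) : K) * D j x := by
        rw [(D j).leibniz, Derivation.map_intCast, smul_zero, add_zero, smul_eq_mul]
      rw [h2, ih, h3]
      congr 1
      rw [map_add, h4, (hal j).app]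
      push_cast
      ring
  obtain ⟨W', hW'⟩ : ∃ W' : Submodule F K, ∀ x, x ∈ W' ↔ ∀ e : ℕ, ∃ u ∈ W1, (Z ^ e) u = x := by
    refine ⟨⨅ e : ℕ, W1.map (Z ^ e), fun x => ?_⟩
    simp only [Submodule.mem_iInf, Submodule.mem_map]
  have hW'1 : W' ≤ W1 := by
    intro x hx
    obtain ⟨u, hu, hux⟩ := (hW' x).1 hx 0
    rw [pow_zero, Module.End.one_apply] at hux
    rwa [← hux]
  have hsm : ∀ (n : ℤ) (x : K), x ∈ W1 → (n : K) * x ∈ W1 := by
    intro n x hx
    have := W1.smul_mem ((n : ℤ) : F) hx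
    have h2 : (((n : ℤ) : F) • x : K) = (n : K) * x := by
      rw [Algebra.smul_def]
      congr 1
    rwa [h2] at this
  refine ⟨W', hW'1.trans hW1, ?_, ?_, j, fun i x hx => hcom i x (hW'1 hx), ?_, ?_, x0, ?_, hx0, ?_⟩
  · intro i x hx
    rw [hW']
    intro e
    obtain ⟨u, hu, hux⟩ := (hW' x).1 hx e
    refine ⟨D i u, hst1 i u hu, ?_⟩
    rw [← (hpow i e u hu).1, hux]
  · intro a x hx
    rw [hW']
    intro e
    obtain ⟨u, hu, hux⟩ := (hW' x).1 hx e
    refine ⟨T a u + (e * al j a : ℤ) * u, W1.add_mem (hstT1 a u hu) (hsm _ u hu), ?_⟩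
    rw [← hpowT, hux]
  · intro x hx
    obtain ⟨u, hu, hux⟩ := h1 x ((hW' x).1 hx)
    exact ⟨u, (hW' u).2 hu, by rw [← hZa, hux]⟩
  · exact Submodule.finiteDimensional_of_le (S₂ := W1 ⊓ LinearMap.ker (dlin (D j) (hs.killsF j)))
      (inf_le_inf_right _ hW'1)
  · exact (hW' x0).2 hx0e
  · rw [← hZa, hZx0]

/-! ### Homogeneous series -/

/-- the coefficient of degree `n` is an eigenvector with eigenvalue `μ - n • α` -/
def Wts (T : κ → Derivation k K K) (α μ : κ → ℤ) (f : PowerSeries K) : Prop :=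
  ∀ n : ℕ, Wt T (μ - (n : ℤ) • α) (coeff n f)

variable {α μ ν : κ → ℤ}

theorem wts_zero : Wts T α μ 0 := fun n => by
  rw [map_zero]
  exact wt_zero _

theorem wts_one : Wts T α 0 1 := fun n => by
  rw [coeff_one]
  split_ifs with h
  · rw [h, Nat.cast_zero, zero_smul, sub_zero]
    exact wt_one
  · exact wt_zero _

theorem Wts.add {f g : PowerSeries K} (hf : Wts T α μ f) (hg : Wts T α μ g) :
    Wts T α μ (f + g) := fun n => by
  rw [map_add]
  exact (hf n).add (hg n)

theorem Wts.neg {f : PowerSeries K} (hf : Wts T α μ f) : Wts T α μ (-f) := fun n => by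
  rw [map_neg]
  exact (hf n).neg

theorem wts_sum {β : Type} (s : Finset β) {f : β → PowerSeries K}
    (h : ∀ b ∈ s, Wts T α μ (f b)) : Wts T α μ (∑ b ∈ s, f b) := by
  classical
  induction s using Finset.induction_on with
  | empty => rw [Finset.sum_empty]; exact wts_zero
  | insert a s ha ih =>
    rw [Finset.sum_insert ha]
    exact (h a (Finset.mem_insert_self a s)).add (ih fun b hb => h b (Finset.mem_insert_of_mem hb))

theorem wt_sum {β : Type} (s : Finset β) {f : β → K}
    (h : ∀ b ∈ s, Wt T μ (f b)) : Wt T μ (∑ b ∈ s, f b) := by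
  classical
  induction s using Finset.induction_on with
  | empty => rw [Finset.sum_empty]; exact wt_zero _
  | insert a s ha ih =>
    rw [Finset.sum_insert ha]
    exact (h a (Finset.mem_insert_self a s)).add (ih fun b hb => h b (Finset.mem_insert_of_mem hb))

theorem Wts.mul {f g : PowerSeries K} (hf : Wts T α μ f) (hg : Wts T α ν g) :
    Wts T α (μ + ν) (f * g) := fun n => by
  rw [coeff_mul]
  refine wt_sum _ fun p hp => ?_
  have h1 := (hf p.1).mul (hg p.2)
  have h2 : (μ - (p.1 : ℤ) • α) + (ν - (p.2 : ℤ) • α) = μ + ν - (n : ℤ) • α := by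
    have h3 : (n : ℤ) = p.1 + p.2 := by
      exact_mod_cast (Finset.HasAntidiagonal.mem_antidiagonal.1 hp).symm
    rw [h3, add_smul]
    abel
  rwa [h2] at h1

theorem wts_prod {β : Type} (s : Finset β) {ν : β → κ → ℤ} {f : β → PowerSeries K}
    (h : ∀ b ∈ s, Wts T α (ν b) (f b)) : Wts T α (∑ b ∈ s, ν b) (∏ b ∈ s, f b) := by
  classical
  induction s using Finset.induction_on with
  | empty => rw [Finset.sum_empty, Finset.prod_empty]; exact wts_one
  | insert a s ha ih =>
    rw [Finset.sum_insert ha, Finset.prod_insert ha]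
    exact (h a (Finset.mem_insert_self a s)).mul (ih fun b hb => h b (Finset.mem_insert_of_mem hb))

theorem Wts.dh {E : Derivation k K K} (hE : Wd T ν E) {f : PowerSeries K} (hf : Wts T α μ f) :
    Wts T α (ν + μ) (dh E f) := fun n => by
  rw [coeff_dh]
  have := hE.wt (hf n)
  rwa [← add_sub_assoc] at this

theorem Wts.eul {f : PowerSeries K} (hf : Wts T α μ f) : Wts T α μ (eul f) := fun n => by
  rw [coeff_eul]
  intro a
  rw [(T a).leibniz, Derivation.map_natCast, smul_zero, add_zero, smul_eq_mul, hf n a]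
  ring

theorem Wts.inv {f : PowerSeries K} (hf : Wts T α μ f) :
    Wts T α (-μ) f⁻¹ := by
  intro n
  induction n using Nat.strong_induction_on with
  | _ n ih =>
    have h0 : Wt T μ (constantCoeff f) := by
      have := hf 0
      rwa [Nat.cast_zero, zero_smul, sub_zero, coeff_zero_eq_constantCoeff_apply] at this
    rw [PowerSeries.coeff_inv]
    split_ifs with hn
    · rw [hn, Nat.cast_zero, zero_smul, sub_zero]
      exact h0.inv
    · rw [neg_mul]
      refine Wt.neg ?_
      have h1 : Wt T (μ + (-μ - (n : ℤ) • α)) (∑ x ∈ Finset.HasAntidiagonal.antidiagonal n,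
          if x.2 < n then coeff x.1 f * coeff x.2 f⁻¹ else 0) := by
        refine wt_sum _ fun p hp => ?_
        split_ifs with h
        · have h2 := (hf p.1).mul (ih p.2 h)
          have h3 : (μ - (p.1 : ℤ) • α) + (-μ - (p.2 : ℤ) • α) = μ + (-μ - (n : ℤ) • α) := by
            have h3 : (n : ℤ) = p.1 + p.2 := by
              exact_mod_cast (Finset.HasAntidiagonal.mem_antidiagonal.1 hp).symm
            rw [h3, add_smul]
            abel
          rwa [h3] at h2
        · exact wt_zero _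
      have h2 := h0.inv.mul h1
      have h3 : -μ + (μ + (-μ - (n : ℤ) • α)) = -μ - (n : ℤ) • α := by abel
      rwa [h3] at h2

theorem wts_det {m : ℕ} {r c : Fin m → κ → ℤ} (A : Matrix (Fin m) (Fin m) (PowerSeries K))
    (hA : ∀ a b, Wts T α (r a + c b) (A a b)) :
    Wts T α (∑ a, r a + ∑ b, c b) A.det := by
  rw [Matrix.det_apply]
  refine wts_sum _ fun σ _ => ?_
  have h1 : Wts T α (∑ b, (r (σ b) + c b)) (∏ b, A (σ b) b) := wts_prod _ fun b _ => hA _ _
  have h2 : ∑ b, (r (σ b) + c b) = ∑ a, r a + ∑ b, c b := by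
    rw [Finset.sum_add_distrib, Equiv.sum_comp σ r]
  rw [h2] at h1
  rcases Int.units_eq_one_or (Equiv.Perm.sign σ) with h | h
  · rw [h, one_smul]
    exact h1
  · rw [h, Units.neg_smul, one_smul]
    exact h1.neg

/-- the weight of a word -/
def ws (al : ι → κ → ℤ) (u : List ι) : κ → ℤ := (u.map al).sum

theorem Wts.oph (hal : ∀ i, Wd T (al i) (D i)) {f : PowerSeries K} (hf : Wts T α μ f) :
    ∀ u : List ι, Wts T α (ws al u + μ) (oph D u f) := by
  intro u
  induction u with
  | nil =>
    rw [oph_nil]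
    unfold ws
    rw [List.map_nil, List.sum_nil, zero_add]
    exact hf
  | cons i u ih =>
    rw [oph_cons]
    have h1 := ih.dh (hal i)
    unfold ws at h1 ⊢
    rw [List.map_cons, List.sum_cons, add_assoc]
    exact h1

end

end Pool.Agent.H892
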