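import Pool.Agent.H892.S3

/-!
A homogeneous semi-invariant power series attached to an infinite dimensional invariant space.
-/

set_option autoImplicit false
set_option linter.unusedSectionVars false

open FF PowerSeries

namespace Pool.Agent.H892

section

variable {k K ι κ : Type} [Field k] [CharZero k] [Field K] [Algebra k K] [Fintype ι]
  {F F' : IntermediateField k K} {D : ι → Derivation k K K} {w : ι → ℕ}
  {T : κ → Derivation k K K} {al : ι → κ → ℤ}

/-- **A homogeneous semi-invariant series.** -/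
theorem exists_semi3 (hs : NilSys2 F F' D w) (hT : ∀ a, ∀ f ∈ F, T a f = 0)
    (hal : ∀ i, Wd T (al i) (D i)) (W : Submodule F K)
    (hst : ∀ i, ∀ x ∈ W, D i x ∈ W) (hstT : ∀ a, ∀ x ∈ W, T a x ∈ W) (hH : W ≤ Hs F T)
    (hnil : ∀ x ∈ W, Nilp D x) (hinf : ¬ FiniteDimensional F W)
    (h0 : ∀ W0 ≤ W, (∀ x ∈ W0, x ∈ F') → FiniteDimensional F W0) :
    ∃ Λ : PowerSeries K, coeff 0 Λ = 1 ∧ (∀ i, ∃ τ, CF F' τ ∧ dh (D i) Λ = τ * Λ) ∧
      (∃ (j : ι) (r : ℕ), r ≠ 0 ∧ dh (D j) Λ = (r : PowerSeries K) * X * Λ ∧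
        Wts T (al j) 0 Λ) ∧
      ∀ v : Place k K, (∃ C : ℤ, ∀ x ∈ W, Og v C x) → ∃ C, Bs v C Λ := by
  classical
  obtain ⟨W', hW'W, hst', hstT', j, hcom, hsurj, hfd, x0, hx0W, hx00, hx0D⟩ := exists_surj3 hs hal
    W hst hstT hnil hinf h0
  have hH' : W' ≤ Hs F T := hW'W.trans hH
  obtain ⟨B, hB⟩ : ∃ B : Submodule F K, B = W' ⊓ LinearMap.ker (dlin (D j) (hs.killsF j)) :=
    ⟨_, rfl⟩
  have hBmem : ∀ x, x ∈ B ↔ x ∈ W' ∧ D j x = 0 := by
    intro x
    rw [hB, Submodule.mem_inf, LinearMap.mem_ker, dlin_apply]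
  rw [← hB] at hfd
  have hBT : ∀ a, ∀ x ∈ B, T a x ∈ B := by
    intro a x hx
    rw [hBmem] at hx ⊢
    refine ⟨hstT' a x hx.1, ?_⟩
    rw [(hal j).app, hx.2, map_zero, mul_zero, sub_zero]
  have hBH : B ≤ Hs F T := fun x hx => hH' ((hBmem x).1 hx).1
  -- a homogeneous basis
  obtain ⟨m, b, μ, hbB, hbμ, hbspan, hbli⟩ : ∃ (m : ℕ) (b : Fin m → K) (μ : Fin m → κ → ℤ),
      (∀ a, b a ∈ B) ∧ (∀ a, Wt T (μ a) (b a)) ∧ Submodule.span F (Set.range b) = B ∧
      LinearIndependent F b := by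
    have h1 : Submodule.span F {x | x ∈ B ∧ ∃ μ, Wt T μ x} = B := by
      refine le_antisymm (Submodule.span_le.2 fun x hx => hx.1) fun x hx => ?_
      obtain ⟨s, c, hc, rfl⟩ := hs_comp hT B hBT hx (hBH hx)
      exact Submodule.sum_mem _ fun μ _ => Submodule.subset_span ⟨(hc μ).2, μ, (hc μ).1⟩
    have hfd' : FiniteDimensional F (Submodule.span F {x | x ∈ B ∧ ∃ μ, Wt T μ x}) := by
      rw [h1]
      exact hfd
    obtain ⟨b, hb, hbs, hbi⟩ := Submodule.exists_fun_fin_finrank_span_eq F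
      {x | x ∈ B ∧ ∃ μ, Wt T μ x}
    choose hb1 μ hb2 using hb
    exact ⟨_, b, μ, hb1, hb2, by rw [hbs, h1], hbi⟩
  have hm0 : m ≠ 0 := by
    rintro rfl
    have h2 : x0 ∈ B := (hBmem x0).2 ⟨hx0W, hx0D⟩
    rw [← hbspan, Set.range_eq_empty, Submodule.span_empty, Submodule.mem_bot] at h2
    exact hx00 h2
  have hb0 : ∀ a, b a ≠ 0 := fun a => hbli.ne_zero a
  -- homogeneous lifts
  have hlift : ∀ (ν : κ → ℤ) (x : K), x ∈ W' ∧ Wt T ν x → ∃ u, (u ∈ W' ∧ Wt T (ν - al j) u) ∧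
      D j u = x := by
    rintro ν x ⟨hx, hxν⟩
    obtain ⟨u, hu, hux⟩ := hsurj x hx
    obtain ⟨s, c, hc, hcu⟩ := hs_comp hT W' hstT' hu (hH' hu)
    refine ⟨if ν - al j ∈ s then c (ν - al j) else 0, ?_, ?_⟩
    · split_ifs
      · exact ⟨(hc _).2, (hc _).1⟩
      · exact ⟨W'.zero_mem, wt_zero _⟩
    · -- the components of `x`
      have h1 : ∀ ρ, Wt T ρ (D j (c (ρ - al j))) := fun ρ => by
        have := (hal j).wt (hc (ρ - al j)).1
        rwa [add_sub_cancel] at this
      obtain ⟨s', hs'⟩ : ∃ s', s' = insert ν (s.image fun μ => μ + al j) := ⟨_, rfl⟩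
      have hxsum : x = ∑ μ ∈ s, D j (c μ) := by
        rw [← hux, hcu, map_sum]
      have h2 : ∑ ρ ∈ s', ((if ρ - al j ∈ s then D j (c (ρ - al j)) else 0) -
          (if ρ = ν then x else 0)) = 0 := by
        rw [Finset.sum_sub_distrib, Finset.sum_ite_eq' s' ν fun _ => x, if_pos (by
          rw [hs']
          exact Finset.mem_insert_self _ _), sub_eq_zero, hxsum, ← Finset.sum_filter]
        refine Finset.sum_nbij' (fun ρ => ρ - al j) (fun μ => μ + al j) ?_ ?_ ?_ ?_ ?_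
        · intro ρ hρ
          exact (Finset.mem_filter.1 hρ).2
        · intro μ hμ
          rw [Finset.mem_filter, add_sub_cancel_right]
          refine ⟨?_, hμ⟩
          rw [hs']
          exact Finset.mem_insert_of_mem (Finset.mem_image_of_mem _ hμ)
        · intro ρ _
          rw [sub_add_cancel]
        · intro μ _
          rw [add_sub_cancel_right]
        · intro ρ _
          rfl
      have h3 := wt_comp_zero (T := T) hT (s := s') (c := fun ρ =>
        ((if ρ - al j ∈ s then D j (c (ρ - al j)) else 0) - (if ρ = ν then x else 0)))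
        (fun ρ _ => by
          beta_reduce
          rw [sub_eq_add_neg]
          refine Wt.add ?_ (Wt.neg ?_)
          · split_ifs
            · exact h1 ρ
            · exact wt_zero _
          · split_ifs with h
            · rw [h]
              exact hxν
            · exact wt_zero _) h2 ν (by
          rw [hs']
          exact Finset.mem_insert_self _ _)
      beta_reduce at h3
      rw [if_pos rfl, sub_eq_zero] at h3
      rw [← h3]
      split_ifs
      · rfl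
      · rw [map_zero]
  -- the series
  choose up hup1 hup2 using hlift
  have hseq : ∀ a, ∃ e : ℕ → K, e 0 = b a ∧ (∀ n, e n ∈ W' ∧ Wt T (μ a - (n : ℤ) • al j) (e n)) ∧
      ∀ n, D j (e (n + 1)) = e n := by
    intro a
    let st : ℕ → {p : (κ → ℤ) × K // p.2 ∈ W' ∧ Wt T p.1 p.2} := fun n =>
      Nat.rec ⟨(μ a, b a), ((hBmem _).1 (hbB a)).1, hbμ a⟩
        (fun _ p => ⟨(p.1.1 - al j, up p.1.1 p.1.2 p.2), hup1 _ _ p.2⟩) n
    have hst1 : ∀ n, (st n).1.1 = μ a - (n : ℤ) • al j := by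
      intro n
      induction n with
      | zero =>
        rw [Nat.cast_zero, zero_smul, sub_zero]
        rfl
      | succ n ih =>
        have h1 : (st (n + 1)).1.1 = (st n).1.1 - al j := rfl
        rw [h1, ih, Nat.cast_succ, add_smul, one_smul]
        abel
    refine ⟨fun n => (st n).1.2, rfl, fun n => ⟨(st n).2.1, ?_⟩, fun n => ?_⟩
    · rw [← hst1]
      exact (st n).2.2
    · exact hup2 _ _ (st n).2
  choose sq hsq0 hsq1 hsq2 using hseq
  obtain ⟨E, hE⟩ : ∃ E : Fin m → PowerSeries K, ∀ a n, coeff n (E a) = sq a n :=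
    ⟨fun a => PowerSeries.mk fun n => sq a n, fun a n => by rw [coeff_mk]⟩
  have hEW : ∀ a n, coeff n (E a) ∈ W' := fun a n => by rw [hE]; exact (hsq1 a n).1
  have hEwt : ∀ a, Wts T (al j) (μ a) (E a) := fun a n => by rw [hE]; exact (hsq1 a n).2
  have hE0 : ∀ a, coeff 0 (E a) = b a := fun a => by
    rw [hE, hsq0]
  have hED : ∀ a, dh (D j) (E a) = X * E a := by
    intro a
    ext n
    rw [coeff_dh]
    rcases n with - | n
    · rw [hE0, coeff_zero_X_mul]
      exact ((hBmem _).1 (hbB a)).2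
    · rw [coeff_succ_X_mul, hE, hE]
      exact hsq2 a n
  obtain ⟨𝓔, h𝓔⟩ : ∃ 𝓔 : Set (PowerSeries K), ∀ f, f ∈ 𝓔 ↔ (∀ n, coeff n f ∈ W') ∧
      dh (D j) f = X * f := ⟨{f | _}, fun _ => Iff.rfl⟩
  have hstep : ∀ f ∈ 𝓔, ∃ c : Fin m → K, (∀ a, c a ∈ F) ∧ ∃ f' ∈ 𝓔,
      f = ∑ a, C (c a) * E a + X * f' := by
    intro f hf
    obtain ⟨hfW, hfD⟩ := (h𝓔 f).1 hf
    have h1 : coeff 0 f ∈ B := by
      rw [hBmem]
      refine ⟨hfW 0, ?_⟩
      rw [← coeff_dh, hfD, coeff_zero_X_mul]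
    rw [← hbspan] at h1
    obtain ⟨c, hc⟩ := (Submodule.mem_span_range_iff_exists_fun F).1 h1
    have h2 : ∑ a, (c a : K) * b a = coeff 0 f := by
      rw [← hc]
      exact Finset.sum_congr rfl fun a _ => rfl
    have h3 : coeff 0 (f - ∑ a, C (c a : K) * E a) = 0 := by
      rw [map_sub, map_sum, ← h2, sub_eq_zero]
      refine Finset.sum_congr rfl fun a _ => ?_
      rw [coeff_C_mul, hE0]
    rw [coeff_zero_eq_constantCoeff_apply] at h3
    obtain ⟨f', hf'⟩ := X_dvd_iff.2 h3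
    refine ⟨fun a => c a, fun a => (c a).2, f', (h𝓔 f').2 ⟨fun n => ?_, ?_⟩, ?_⟩
    · have h4 : coeff n f' = coeff (n + 1) (f - ∑ a, C (c a : K) * E a) := by
        rw [hf', coeff_succ_X_mul]
      rw [h4, map_sub, map_sum]
      refine W'.sub_mem (hfW _) (W'.sum_mem fun a _ => ?_)
      rw [coeff_C_mul]
      exact W'.smul_mem (c a) (hEW a _)
    · have h4 : dh (D j) (f - ∑ a, C (c a : K) * E a) = X * (f - ∑ a, C (c a : K) * E a) := by
        rw [map_sub, map_sum, hfD, mul_sub, Finset.mul_sum]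
        congr 1
        refine Finset.sum_congr rfl fun a _ => ?_
        rw [dh_smul (hs.killsF j) (cf_C (c a).2), hED]
        ring
      rw [hf'] at h4
      rw [dh_smul (hs.killsF j) cf_X] at h4
      exact mul_left_cancel₀ X_ne_zero h4
    · rw [← hf']
      ring
  -- the matrices over the scalars
  have hM : ∀ i, ∃ M : Fin m → Fin m → PowerSeries K, (∀ a c, CF F (M a c)) ∧
      ∀ a, dh (D i) (E a) = ∑ c, M a c * E c := by
    intro i
    have h1 : ∀ a, ∃ c : Fin m → PowerSeries K, (∀ b, CF F (c b)) ∧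
        dh (D i) (E a) = ∑ b, c b * E b := by
      intro a
      refine exists_coeffs hstep _ ((h𝓔 _).2 ⟨fun n => ?_, ?_⟩)
      · rw [coeff_dh]
        exact hst' i _ (hEW a n)
      · ext n
        rw [coeff_dh, coeff_dh, ← hcom i _ (hEW a n), ← coeff_dh, hED]
        rcases n with - | n
        · rw [coeff_zero_X_mul, coeff_zero_X_mul, map_zero]
        · rw [coeff_succ_X_mul, coeff_succ_X_mul, coeff_dh]
    choose M hM1 hM2 using h1
    exact ⟨M, fun a c => hM1 a c, fun a => hM2 a⟩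
  choose M hMF hME using hM
  -- a maximal independent subfamily
  obtain ⟨Pr, hPr⟩ : ∃ Pr : ℕ → Prop, ∀ r, Pr r ↔ ∃ (α : Fin r → Fin m) (u : Fin r → List ι),
      (Matrix.of fun a b => oph D (u b) (E (α a))).det ≠ 0 := ⟨fun r => _, fun _ => Iff.rfl⟩
  have hPr1 : Pr 1 := by
    rw [hPr]
    refine ⟨fun _ => ⟨0, by omega⟩, fun _ => [], ?_⟩
    rw [Matrix.det_unique]
    change oph D [] (E ⟨0, _⟩) ≠ 0
    rw [oph_nil]
    intro h
    have h1 := hE0 ⟨0, by omega⟩
    rw [h, map_zero] at h1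
    exact hb0 ⟨0, by omega⟩ h1.symm
  have hPrm : ∀ r, Pr r → r ≤ m := by
    intro r hr
    obtain ⟨α, u, hu⟩ := (hPr r).1 hr
    have hinj : Function.Injective α := by
      intro a b hab
      by_contra hne
      exact hu (Matrix.det_zero_of_row_eq hne (by
        funext c
        rw [Matrix.of_apply, Matrix.of_apply, hab]))
    have := Fintype.card_le_of_injective α hinj
    rwa [Fintype.card_fin, Fintype.card_fin] at this
  obtain ⟨r, hr1, hrP, hrmax⟩ : ∃ r, 1 ≤ r ∧ Pr r ∧ ¬ Pr (r + 1) := by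
    by_contra hcon
    push Not at hcon
    have h1 : ∀ r, 1 ≤ r → Pr r := by
      intro r hr
      induction r, hr using Nat.le_induction with
      | base => exact hPr1
      | succ r hr ih => exact hcon r hr ih
    have := hPrm (m + 1) (h1 _ (by omega))
    omega
  obtain ⟨α, hα⟩ := (hPr r).1 hrP
  obtain ⟨u, hu, hmin⟩ : ∃ u : Fin r → List ι,
      (Matrix.of fun a b => oph D (u b) (E (α a))).det ≠ 0 ∧ ∀ v : Fin r → List ι,
      ∑ b, wt w (v b) < ∑ b, wt w (u b) →
        (Matrix.of fun a b => oph D (v b) (E (α a))).det = 0 := by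
    obtain ⟨u0, hu0⟩ := hα
    obtain ⟨n, hn⟩ : ∃ n, n = sInf {n : ℕ | ∃ u : Fin r → List ι,
      (Matrix.of fun a b => oph D (u b) (E (α a))).det ≠ 0 ∧ ∑ b, wt w (u b) = n} := ⟨_, rfl⟩
    have h1 : n ∈ {n : ℕ | ∃ u : Fin r → List ι,
      (Matrix.of fun a b => oph D (u b) (E (α a))).det ≠ 0 ∧ ∑ b, wt w (u b) = n} := by
      rw [hn]
      exact Nat.sInf_mem ⟨_, u0, hu0, rfl⟩
    obtain ⟨u, hu, hun⟩ := h1
    refine ⟨u, hu, fun v hv => ?_⟩
    by_contra hcon
    have h2 : n ≤ ∑ b, wt w (v b) := by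
      rw [hn]
      exact Nat.sInf_le ⟨v, hcon, rfl⟩
    omega
  -- the other series are dependent
  have hdep : ∀ c : Fin m, ∃ (g : PowerSeries K) (e : Fin r → PowerSeries K), CF F' g ∧ g ≠ 0 ∧
      (∀ a, CF F' (e a)) ∧ g * E c = ∑ a, e a * E (α a) := by
    intro c
    obtain ⟨e, heF, ⟨a1, ha1⟩, he⟩ := exists_dep hs.sys (Fin.cons (E c) fun a => E (α a)) (by
      intro v
      by_contra hcon
      apply hrmax
      rw [hPr]
      refine ⟨Fin.cons c α, v, ?_⟩
      have h1 : (Matrix.of fun a b => oph D (v b) (E ((Fin.cons c α : Fin (r + 1) → Fin m) a))) =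
          Matrix.of fun a b => oph D (v b)
            ((Fin.cons (E c) (fun a => E (α a)) : Fin (r + 1) → PowerSeries K) a) := by
        ext1 a b'
        rw [Matrix.of_apply, Matrix.of_apply]
        refine Fin.cases ?_ (fun a => ?_) a
        · rfl
        · rfl
      rw [h1]
      exact hcon)
    rw [Fin.sum_univ_succ] at he
    simp only [Fin.cons_zero, Fin.cons_succ] at he
    refine ⟨e 0, fun a => - e a.succ, heF 0, ?_, fun a => (heF _).neg, ?_⟩
    · intro he0
      rw [he0, zero_mul, zero_add] at he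
      apply hu
      refine Matrix.exists_vecMul_eq_zero_iff.1 ⟨fun a => e a.succ, ?_, ?_⟩
      · intro h
        refine Fin.cases (fun h2 => h2 he0) (fun a h2 => h2 (congrFun h a)) a1 ha1
      · funext b'
        rw [Matrix.vecMul, dotProduct, Pi.zero_apply]
        have h2 := congrArg (oph D (u b')) he
        rw [oph_zero, oph_sum] at h2
        rw [← h2]
        refine Finset.sum_congr rfl fun a _ => ?_
        rw [Matrix.of_apply, oph_smul hs.kills _ (heF _)]
    · simp only [neg_mul, Finset.sum_neg_distrib]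
      linear_combination he
  choose g e hgF hg0 heF hge using hdep
  obtain ⟨G, hG⟩ : ∃ G : PowerSeries K, G = ∏ c, g c := ⟨_, rfl⟩
  have hGF : CF F' G := by
    rw [hG]
    exact CF.prod _ fun c _ => hgF c
  have hG0 : G ≠ 0 := by
    rw [hG]
    exact Finset.prod_ne_zero_iff.2 fun c _ => hg0 c
  have hGE : ∀ c, ∃ e : Fin r → PowerSeries K, (∀ a, CF F' (e a)) ∧
      G * E c = ∑ a, e a * E (α a) := by
    intro c
    refine ⟨fun a => (∏ x ∈ Finset.univ.erase c, g x) * e c a, fun a =>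
      (CF.prod _ fun x _ => hgF x).mul (heF c a), ?_⟩
    rw [hG, ← Finset.mul_prod_erase _ _ (Finset.mem_univ c), mul_comm (g c), mul_assoc, hge,
      Finset.mul_sum]
    refine Finset.sum_congr rfl fun a _ => ?_
    rw [mul_assoc]
  choose e' he'F he'E using hGE
  have hsemi : ∀ (i : ι) (μ : Fin m → Fin m → PowerSeries K), (∀ a c, CF F' (μ a c)) →
      (∀ a, dh (D i) (E a) = ∑ c, μ a c * E c) → ∃ τ, CF F' τ ∧
      G * dh (D i) (Matrix.of fun a b => oph D (u b) (E (α a))).det =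
        τ * (Matrix.of fun a b => oph D (u b) (E (α a))).det := by
    intro i μ hμF hμ
    have hN : ∀ a c', CF F' (∑ c, μ (α a) c * e' c c') := fun a c' =>
      CF.sum _ fun c _ => (hμF _ _).mul (he'F _ _)
    refine ⟨_, ?_, semi_det2 hs.sys (fun a => E (α a)) u hmin i hGF
      (Matrix.of fun a c' => ∑ c, μ (α a) c * e' c c') (fun a c' => hN a c') fun a => ?_⟩
    · exact CF.sum _ fun a _ => hN a a
    · rw [hμ, Finset.mul_sum]
      have h1 : ∀ c, G * (μ (α a) c * E c) = ∑ c', μ (α a) c * e' c c' * E (α c') := by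
        intro c
        rw [mul_left_comm, he'E, Finset.mul_sum]
        refine Finset.sum_congr rfl fun c' _ => ?_
        rw [mul_assoc]
      rw [Finset.sum_congr rfl fun c _ => h1 c, Finset.sum_comm]
      refine Finset.sum_congr rfl fun c' _ => ?_
      rw [Matrix.of_apply, Finset.sum_mul]
  obtain ⟨Δ, hΔ⟩ : ∃ Δ, Δ = (Matrix.of fun a b => oph D (u b) (E (α a))).det := ⟨_, rfl⟩
  -- homogeneity
  obtain ⟨μΔ, hΔwt⟩ : ∃ μΔ, Wts T (al j) μΔ Δ := by
    refine ⟨∑ a, μ (α a) + ∑ b, ws al (u b), ?_⟩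
    rw [hΔ]
    refine wts_det (r := fun a => μ (α a)) (c := fun b => ws al (u b)) _ fun a b => ?_
    rw [Matrix.of_apply, add_comm]
    exact (hEwt (α a)).oph hal (u b)
  -- the central derivation
  have hτj : dh (D j) Δ = (r : PowerSeries K) * X * Δ := by
    have h1 := semi_det2 hs.sys (fun a => E (α a)) u hmin j cf_one (Matrix.diagonal fun _ => X)
      (fun a c => by
        intro n
        rw [Matrix.diagonal_apply]
        split_ifs
        · exact cf_X n
        · exact cf_zero n) (fun a => by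
      rw [hED, one_mul, Finset.sum_eq_single a]
      · rw [Matrix.diagonal_apply_eq]
      · intro c _ hc
        rw [Matrix.diagonal_apply_ne _ hc.symm, zero_mul]
      · intro h
        exact absurd (Finset.mem_univ a) h)
    rw [← hΔ, Matrix.trace_diagonal, Finset.sum_const, Finset.card_univ, Fintype.card_fin,
      nsmul_eq_mul, one_mul] at h1
    exact h1
  rw [← hΔ] at hu hsemi
  -- words
  have hophW : ∀ (u : List ι) (a : Fin m) (n : ℕ), coeff n (oph D u (E a)) ∈ W' := by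
    intro u a
    induction u with
    | nil => exact fun n => hEW a n
    | cons i u ih =>
      intro n
      rw [oph_cons, coeff_dh]
      exact hst' i _ (ih n)
  have hΔnil : Δ ∈ nilSer D := by
    rw [hΔ]
    exact nilSer_det _ fun a b n => hnil _ (hW'W (hophW (u b) (α a) n))
  have hΔv : ∀ v : Place k K, (∃ C : ℤ, ∀ x ∈ W, Og v C x) → ∃ C, Bs v C Δ := by
    rintro v ⟨C, hC⟩
    refine ⟨r * C, ?_⟩
    rw [hΔ]
    exact bs_det _ fun a b n => hC _ (hW'W (hophW (u b) (α a) n))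
  -- normalisation
  obtain ⟨Γ, hΓ⟩ := X_pow_order_dvd (φ := Δ)
  obtain ⟨q, hq⟩ : ∃ q, q = Δ.order.toNat := ⟨_, rfl⟩
  rw [← hq] at hΓ
  have hΓn : ∀ n, coeff n Γ = coeff (n + q) Δ := by
    intro n
    rw [hΓ, coeff_X_pow_mul]
  have hΓwt : Wts T (al j) (μΔ - (q : ℤ) • al j) Γ := by
    intro n
    rw [hΓn]
    have h1 := hΔwt (n + q)
    have h2 : μΔ - ((n + q : ℕ) : ℤ) • al j = μΔ - (q : ℤ) • al j - (n : ℤ) • al j := by
      rw [Nat.cast_add, add_smul]
      abel
    rwa [h2] at h1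
  have hδ : coeff 0 Γ ≠ 0 := by
    rw [hΓn, zero_add, hq]
    exact coeff_order hu
  obtain ⟨δ, hδd⟩ : ∃ δ, δ = coeff 0 Γ := ⟨_, rfl⟩
  rw [← hδd] at hδ
  have hXq : CF F' ((X : PowerSeries K) ^ q) := cf_X.pow q
  have hXq0 : (X : PowerSeries K) ^ q ≠ 0 := pow_ne_zero _ X_ne_zero
  have hΓc : constantCoeff Γ ≠ 0 := by
    rw [← coeff_zero_eq_constantCoeff_apply, ← hδd]
    exact hδ
  have hΓτ : ∀ i, ∃ τ, CF F' τ ∧ dh (D i) Γ = τ * Γ := by
    intro i
    obtain ⟨σ, hσF, hσ⟩ := hsemi i (M i) (fun a c => (hMF i a c).mono hs.le) (hME i)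
    rw [hΓ, dh_smul (hs.kills i) hXq] at hσ
    have h1 : G * dh (D i) Γ = σ * Γ := by
      refine mul_left_cancel₀ hXq0 ?_
      linear_combination hσ
    obtain ⟨τ, hτ⟩ : ∃ τ, τ = dh (D i) Γ * Γ⁻¹ := ⟨_, rfl⟩
    have hτΓ : dh (D i) Γ = τ * Γ := by
      rw [hτ, mul_assoc, PowerSeries.inv_mul_cancel _ hΓc, mul_one]
    have hΓ0 : Γ ≠ 0 := by
      rintro rfl
      exact hΓc (map_zero _)
    have h2 : G * τ = σ := by
      refine mul_right_cancel₀ hΓ0 ?_
      rw [mul_assoc, ← hτΓ, h1]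
    refine ⟨τ, cf_of_const hs.sys fun l => ?_, hτΓ⟩
    have h3 : G * dh (D l) τ = 0 := by
      rw [← dh_smul (hs.kills l) hGF, h2, hσF.dh (hs.kills l)]
    exact (mul_eq_zero.1 h3).resolve_left hG0
  choose τ hτF hτ using hΓτ
  have hΓj : dh (D j) Γ = (r : PowerSeries K) * X * Γ := by
    rw [hΓ, dh_smul (hs.kills j) hXq] at hτj
    refine mul_left_cancel₀ hXq0 ?_
    linear_combination hτj
  have hδnil : Nilp D δ := by
    rw [hδd, hΓn]
    exact hΔnil _
  have hτ0 : ∀ i, coeff 0 (τ i) = 0 := by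
    intro i
    have h1 := congrArg (coeff 0) (hτ i)
    rw [coeff_dh, c0mul, ← hδd] at h1
    obtain ⟨n, hn⟩ := hδnil
    exact semi_nilp (hs.kills i _ (hτF i 0)) n δ hn hδ h1
  have hδF : δ ∈ F' := by
    refine hs.const δ fun i => ?_
    have h1 := congrArg (coeff 0) (hτ i)
    rw [coeff_dh, c0mul, ← hδd, hτ0, zero_mul] at h1
    exact h1
  have hCF : CF F' (C δ⁻¹ : PowerSeries K) := cf_C (F'.inv_mem hδF)
  refine ⟨C δ⁻¹ * Γ, ?_, fun i => ⟨τ i, hτF i, ?_⟩, ⟨j, r, by omega, ?_, fun n => ?_⟩,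
    fun v hv => ?_⟩
  · rw [coeff_C_mul, ← hδd, inv_mul_cancel₀ hδ]
  · rw [dh_smul (hs.kills i) hCF, hτ i]
    ring
  · rw [dh_smul (hs.kills j) hCF, hΓj]
    ring
  · rw [coeff_C_mul]
    have h1 : Wt T (μΔ - (q : ℤ) • al j) δ := by
      have := hΓwt 0
      rwa [Nat.cast_zero, zero_smul, sub_zero, ← hδd] at this
    have h2 := h1.inv.mul (hΓwt n)
    have h3 : -(μΔ - (q : ℤ) • al j) + (μΔ - (q : ℤ) • al j - (n : ℤ) • al j) =
        0 - (n : ℤ) • al j := by abel
    rwa [h3] at h2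
  · obtain ⟨C2, hC2⟩ := hΔv v hv
    refine ⟨-v.ord δ + C2, fun n => ?_⟩
    rw [coeff_C_mul, hΓn]
    have h2 : Og v (-v.ord δ) δ⁻¹ := Or.inr (by rw [v.ord_inv])
    exact h2.mul (hC2 (n + q))

end

end Pool.Agent.H892
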