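import Pool.Agent.H892.C8
import Pool.Agent.H892.S4

/-!
The main theorem on homogeneous systems of solvable type.
-/

set_option autoImplicit false
set_option linter.unusedSectionVars false

open FF PowerSeries Pool.Agent.W602.GT Pool.Agent.W603.LV Pool.Agent.Y172 Pool.Agent.TH122.AB

namespace Pool.Agent.H892

section

variable {k K ι κ : Type} [Field k] [CharZero k] [Field K] [Algebra k K] [Fintype ι]
  {F : IntermediateField k K} {D : ι → Derivation k K K} {w : ι → ℕ}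
  {T : κ → Derivation k K K} {al : ι → κ → ℤ}

theorem SolSys.ratio (hs : SolSys F D w T) {μ : κ → ℤ} {c c' : K} (hc : c ∈ Cst D)
    (hcμ : Wt T μ c) (hc' : c' ∈ Cst D) (hc'μ : Wt T μ c') : c / c' ∈ F := by
  refine hs.const _ (mem_cst.1 ((Cst D).div_mem hc hc')) fun a => ?_
  have := (hcμ.div hc'μ) a
  rwa [sub_self, Pi.zero_apply, Int.cast_zero, zero_mul] at this

theorem SolSys.wt0 (hs : SolSys F D w T) {c : K} (hc : c ∈ Cst D) (hc0 : Wt T 0 c) : c ∈ F := by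
  refine hs.const _ (mem_cst.1 hc) fun a => ?_
  have := hc0 a
  rwa [Pi.zero_apply, Int.cast_zero, zero_mul] at this

/-- **The homogeneous invariants have zeros and poles only at finitely many places.** -/
theorem SolSys.supp [Finite κ] (hs : SolSys F D w T) {V : Set (Place k K)}
    (hVt : ∀ v ∈ V, Triv F v) (hVf : ∀ x : K, x ≠ 0 → {v | v ∈ V ∧ v.ord x ≠ 0}.Finite) :
    ∃ S : Finset (Place k K), ∀ v ∈ V, v ∉ S → ∀ c ∈ Cst D, (∃ μ, Wt T μ c) → v.ord c = 0 := by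
  classical
  obtain ⟨Γ, hΓ⟩ : ∃ Γ : Submodule ℤ (κ → ℤ), ∀ μ, μ ∈ Γ ↔ ∃ c ∈ Cst D, c ≠ 0 ∧ Wt T μ c := by
    refine ⟨{
      carrier := {μ | ∃ c ∈ Cst D, c ≠ 0 ∧ Wt T μ c}
      add_mem' := ?_
      zero_mem' := ⟨1, (Cst D).one_mem, one_ne_zero, wt_one⟩
      smul_mem' := ?_ }, fun μ => Iff.rfl⟩
    · rintro μ ν ⟨c, hc, hc0, hcμ⟩ ⟨c', hc', hc'0, hc'μ⟩
      exact ⟨c * c', (Cst D).mul_mem hc hc', mul_ne_zero hc0 hc'0, hcμ.mul hc'μ⟩
    · rintro n μ ⟨c, hc, hc0, hcμ⟩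
      exact ⟨c ^ n, zpow_mem hc n, zpow_ne_zero n hc0, hcμ.zpow n⟩
  obtain ⟨t, ht⟩ : Γ.FG := IsNoetherian.noetherian Γ
  have hex : ∀ μ : κ → ℤ, ∃ c : K, c ≠ 0 ∧ (μ ∈ t → c ∈ Cst D ∧ Wt T μ c) := by
    intro μ
    by_cases hμ : μ ∈ t
    · have h1 : μ ∈ Γ := by
        rw [← ht]
        exact Submodule.subset_span hμ
      obtain ⟨c, hc, hc0, hcμ⟩ := (hΓ μ).1 h1
      exact ⟨c, hc0, fun _ => ⟨hc, hcμ⟩⟩
    · exact ⟨1, one_ne_zero, fun h => absurd h hμ⟩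
  choose c hc0 hc using hex
  refine ⟨t.biUnion fun μ => (hVf (c μ) (hc0 μ)).toFinset, fun v hv hvS x hx hxμ => ?_⟩
  have hvc : ∀ μ ∈ t, v.ord (c μ) = 0 := by
    intro μ hμ
    by_contra h
    apply hvS
    rw [Finset.mem_biUnion]
    exact ⟨μ, hμ, (Set.Finite.mem_toFinset _).2 ⟨hv, h⟩⟩
  have key : ∀ μ ∈ Γ, ∃ z ∈ Cst D, z ≠ 0 ∧ Wt T μ z ∧ v.ord z = 0 := by
    intro μ hμ
    rw [← ht] at hμ
    induction hμ using Submodule.span_induction with
    | mem μ hμ => exact ⟨c μ, (hc μ hμ).1, hc0 μ, (hc μ hμ).2, hvc μ hμ⟩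
    | zero => exact ⟨1, (Cst D).one_mem, one_ne_zero, wt_one, v.ord_one⟩
    | add μ ν _ _ h h' =>
      obtain ⟨z, hz, hz0, hzμ, hzv⟩ := h
      obtain ⟨z', hz', hz'0, hz'μ, hz'v⟩ := h'
      exact ⟨z * z', (Cst D).mul_mem hz hz', mul_ne_zero hz0 hz'0, hzμ.mul hz'μ, by
        rw [v.ord_mul hz0 hz'0, hzv, hz'v, add_zero]⟩
    | smul n μ _ h =>
      obtain ⟨z, hz, hz0, hzμ, hzv⟩ := h
      exact ⟨z ^ n, zpow_mem hz n, zpow_ne_zero n hz0, hzμ.zpow n, by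
        rw [v.ord_zpow, hzv, mul_zero]⟩
  by_cases hx0 : x = 0
  · rw [hx0, v.ord_zero]
  obtain ⟨μ, hμ⟩ := hxμ
  obtain ⟨z, hz, hz0, hzμ, hzv⟩ := key μ ((hΓ μ).2 ⟨x, hx, hx0, hμ⟩)
  have h1 := hVt v hv _ (hs.ratio hx hμ hz hzμ) (div_ne_zero hx0 hz0)
  rw [v.ord_div hx0 hz0, hzv] at h1
  omega

/-- **Dickson's lemma.** -/
theorem dickson (S : Finset (Place k K)) (f : ℕ → Place k K → ℤ) (C : Place k K → ℤ)
    (hC : ∀ n, ∀ v ∈ S, C v ≤ f n v) : ∃ n m, n < m ∧ ∀ v ∈ S, f n v ≤ f m v := by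
  obtain ⟨n, m, hnm, h⟩ := wellQuasiOrdered_le (α := S → ℕ) fun n v => (f n v - C v).toNat
  refine ⟨n, m, hnm, fun v hv => ?_⟩
  have h1 : (f n v - C v).toNat ≤ (f m v - C v).toNat := h ⟨v, hv⟩
  have h2 := hC n v hv
  have h3 := hC m v hv
  omega

/-- spaces of invariants with bounded poles have finite dimension -/
theorem SolSys.cst_fd [Finite κ] (hs : SolSys F D w T) {V : Set (Place k K)}
    (hVt : ∀ v ∈ V, Triv F v) (hVf : ∀ x : K, x ≠ 0 → {v | v ∈ V ∧ v.ord x ≠ 0}.Finite)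
    (h2 : ∀ c ∈ Cst D, (∃ μ, Wt T μ c) → (∀ v ∈ V, v.Reg c) → c ∈ F)
    (W : Submodule F K) (hstT : ∀ a, ∀ x ∈ W, T a x ∈ W) (hH : W ≤ Hs F T)
    (hWC : ∀ x ∈ W, x ∈ Cst D) (c : Place k K → ℤ) (hc : ∀ v ∈ V, ∀ x ∈ W, Og v (c v) x) :
    FiniteDimensional F W := by
  classical
  obtain ⟨S, hS⟩ := hs.supp hVt hVf
  obtain ⟨Ω, hΩ⟩ : ∃ Ω : Set (κ → ℤ), ∀ μ, μ ∈ Ω ↔ ∃ x ∈ W, x ≠ 0 ∧ Wt T μ x :=
    ⟨{μ | _}, fun _ => Iff.rfl⟩
  choose! x hxW hx0 hxμ using fun μ => (hΩ μ).1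
  by_cases hfin : Ω.Finite
  · have h1 : W ≤ Submodule.span F (x '' Ω) := by
      intro y hy
      obtain ⟨s, c, hc, rfl⟩ := hs_comp hs.kT W hstT hy (hH hy)
      refine Submodule.sum_mem _ fun μ _ => ?_
      by_cases h0 : c μ = 0
      · rw [h0]
        exact Submodule.zero_mem _
      have hμ : μ ∈ Ω := (hΩ μ).2 ⟨c μ, (hc μ).2, h0, (hc μ).1⟩
      have h3 := hs.ratio (hWC _ (hc μ).2) (hc μ).1 (hWC _ (hxW μ hμ)) (hxμ μ hμ)
      have h4 : c μ = (⟨_, h3⟩ : F) • x μ := by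
        change c μ = c μ / x μ * x μ
        rw [div_mul_cancel₀ _ (hx0 μ hμ)]
      rw [h4]
      exact Submodule.smul_mem _ _ (Submodule.subset_span ⟨μ, hμ, rfl⟩)
    have h3 : (Submodule.span F (x '' Ω)).FG := Submodule.fg_span (hfin.image x)
    have h4 : FiniteDimensional F (Submodule.span F (x '' Ω)) := Module.Finite.iff_fg.2 h3
    exact Submodule.finiteDimensional_of_le h1
  · exfalso
    have hinf : Ω.Infinite := hfin
    obtain ⟨f, hf⟩ : ∃ f : ℕ → (κ → ℤ), Function.Injective f ∧ ∀ n, f n ∈ Ω :=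
      ⟨fun n => hinf.natEmbedding Ω n, fun n m h => (hinf.natEmbedding Ω).injective
        (Subtype.ext h), fun n => (hinf.natEmbedding Ω n).2⟩
    obtain ⟨hfi, hfΩ⟩ := hf
    obtain ⟨n, m, hnm, h⟩ := dickson (S.filter fun v => v ∈ V) (fun n v => v.ord (x (f n))) c
      (fun n v hv => (hc v (Finset.mem_filter.1 hv).2 _ (hxW _ (hfΩ n))).resolve_left
        (hx0 _ (hfΩ n)))
    have h3 : x (f m) / x (f n) ∈ F := by
      refine h2 _ ((Cst D).div_mem (hWC _ (hxW _ (hfΩ m))) (hWC _ (hxW _ (hfΩ n))))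
        ⟨_, (hxμ _ (hfΩ m)).div (hxμ _ (hfΩ n))⟩ fun v hv => ?_
      rw [v.reg_iff (div_ne_zero (hx0 _ (hfΩ m)) (hx0 _ (hfΩ n))),
        v.ord_div (hx0 _ (hfΩ m)) (hx0 _ (hfΩ n))]
      by_cases hvS : v ∈ S
      · have := h v (Finset.mem_filter.2 ⟨hvS, hv⟩)
        omega
      · rw [hS v hv hvS _ (hWC _ (hxW _ (hfΩ m))) ⟨_, hxμ _ (hfΩ m)⟩,
          hS v hv hvS _ (hWC _ (hxW _ (hfΩ n))) ⟨_, hxμ _ (hfΩ n)⟩]
        omega
    have h4 := ((hxμ _ (hfΩ m)).div (hxμ _ (hfΩ n))).uniq (wt_const hs.kT h3)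
      (div_ne_zero (hx0 _ (hfΩ m)) (hx0 _ (hfΩ n)))
    have h5 := hfi (sub_eq_zero.1 h4)
    omega

/-- the components of the values of a homogeneous derivation -/
theorem comp_der (hT : ∀ a, ∀ f ∈ F, T a f = 0) {ν μ0 : κ → ℤ} {E : Derivation k K K}
    (hE : Wd T ν E) {s : Finset (κ → ℤ)} {c : (κ → ℤ) → K} (hc : ∀ μ, Wt T μ (c μ)) {y : K}
    (hy : Wt T (ν + μ0) y) (h : E (∑ μ ∈ s, c μ) = y) [Decidable (μ0 ∈ s)] :
    E (if μ0 ∈ s then c μ0 else 0) = y := by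
  classical
  obtain ⟨s', hs'⟩ : ∃ s', s' = insert μ0 s := ⟨_, rfl⟩
  have hμ0 : μ0 ∈ s' := by
    rw [hs']
    exact Finset.mem_insert_self _ _
  obtain ⟨g, hg⟩ : ∃ g : (κ → ℤ) → K, ∀ μ, g μ = (if μ ∈ s then E (c μ) else 0) -
    (if μ = μ0 then y else 0) := ⟨_, fun _ => rfl⟩
  have hgw : ∀ μ, Wt T (ν + μ) (g μ) := by
    intro μ
    rw [hg, sub_eq_add_neg]
    refine Wt.add ?_ (Wt.neg ?_)
    · split_ifs
      · exact hE.wt (hc μ)
      · exact wt_zero _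
    · split_ifs with h
      · rw [h]
        exact hy
      · exact wt_zero _
  have hsum : ∑ μ ∈ s', g μ = 0 := by
    rw [Finset.sum_congr rfl fun μ _ => hg μ, Finset.sum_sub_distrib,
      Finset.sum_ite_eq' s' μ0 fun _ => y, if_pos hμ0, sub_eq_zero, ← h, map_sum,
      ← Finset.sum_filter]
    refine Finset.sum_congr ?_ fun _ _ => rfl
    ext μ
    rw [Finset.mem_filter, hs', Finset.mem_insert]
    exact ⟨fun h => h.2, fun h => ⟨Or.inr h, h⟩⟩
  have h3 := wt_comp_zero (T := T) hT (s := s'.image fun μ => ν + μ) (c := fun ρ => g (ρ - ν))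
    (fun ρ _ => by
      have := hgw (ρ - ν)
      rwa [add_sub_cancel] at this) (by
      rw [Finset.sum_image fun a _ b _ hab => add_left_cancel hab, ← hsum]
      exact Finset.sum_congr rfl fun μ _ => by rw [add_sub_cancel_left]) (ν + μ0)
    (Finset.mem_image_of_mem _ hμ0)
  beta_reduce at h3
  rw [add_sub_cancel_left, hg, if_pos rfl, sub_eq_zero] at h3
  rw [← h3]
  split_ifs
  · rfl
  · rw [map_zero]

/-- the quasi-invariants without invariants form a finite dimensional space -/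
theorem quasi_fg3 (hk : ∀ i, ∀ f ∈ F, D i f = 0) (Y : Submodule F K)
    (hY : ∀ x ∈ Y, ∀ i, D i x ∈ F) (hYc : ∀ x ∈ Y, (∀ i, D i x = 0) → x ∈ F) :
    Y.FG := by
  classical
  let f : K →ₗ[F] (ι → K) := LinearMap.pi fun i => dlin (D i) (hk i)
  refine Submodule.fg_of_fg_map_of_fg_inf_ker f ?_ ?_
  · let g : (ι → F) →ₗ[F] (ι → K) := LinearMap.pi fun i =>
      (Algebra.linearMap F K).comp (LinearMap.proj i)
    have h1 : Y.map f ≤ LinearMap.range g := by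
      rintro _ ⟨x, hx, rfl⟩
      refine ⟨fun i => ⟨D i x, hY x hx i⟩, ?_⟩
      funext i
      rfl
    have h2 : FiniteDimensional F (LinearMap.range g) := inferInstance
    have h3 := Submodule.finiteDimensional_of_le h1
    exact Module.Finite.iff_fg.1 h3
  · have h1 : Y ⊓ LinearMap.ker f ≤ Submodule.span F {(1 : K)} := by
      rintro x ⟨hxY, hx⟩
      have h2 : x ∈ F := hYc x hxY fun i => congrFun (show f x = 0 from hx) i
      rw [Submodule.mem_span_singleton]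
      exact ⟨⟨x, h2⟩, by rw [Algebra.smul_def, mul_one]; rfl⟩
    exact Module.Finite.iff_fg.1 (Submodule.finiteDimensional_of_le h1)

/-- the polynomial part of a rational function -/
theorem poly_part {F' : IntermediateField k K} {t : K} (hR : RatBase F F' t) {f : K}
    (hf : f ∈ F') : ∃ q : Polynomial F, ∀ v : Place k K, Triv F v → v.ord t < 0 →
      v.Reg (f - Polynomial.aeval t q) := by
  obtain ⟨a, b, hb, hab⟩ := hR.gen f hf
  obtain ⟨q, r, hqr, hr⟩ : ∃ q r : Polynomial F, a = q * b + r ∧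
      (r = 0 ∨ r.natDegree < b.natDegree) := by
    refine ⟨a / b, a % b, ?_, ?_⟩
    · rw [mul_comm]
      exact (EuclideanDomain.div_add_mod a b).symm
    · by_cases h0 : a % b = 0
      · exact Or.inl h0
      · right
        have h1 := EuclideanDomain.mod_lt a hb
        have h2 : (a % b).degree < b.degree := h1
        exact Polynomial.natDegree_lt_natDegree h0 h2
  have hfq : f - Polynomial.aeval t q = Polynomial.aeval t r / Polynomial.aeval t b := by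
    rw [hab, hqr, map_add, map_mul, add_div, mul_div_cancel_right₀ _ (hR.tr b hb)]
    ring
  refine ⟨q, fun v hv hvt => ?_⟩
  rw [hfq]
  rcases hr with hr | hr
  · rw [hr, map_zero, zero_div]
    exact v.reg_zero
  · by_cases hr0 : r = 0
    · rw [hr0, map_zero, zero_div]
      exact v.reg_zero
    · obtain ⟨hr1, hr2⟩ := ord_poly_deg hv hvt hr0
      obtain ⟨hb1, hb2⟩ := ord_poly_deg hv hvt hb
      right
      rw [v.ord_div hr1 hb1, hr2, hb2]
      have h4 : (r.natDegree : ℤ) + 1 ≤ b.natDegree := by exact_mod_cast hr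
      nlinarith

/-- **Theorem E for systems of solvable type.** -/
theorem thmE3 [Finite κ] (hs : SolSys F D w T) (hal : ∀ i, Wd T (al i) (D i))
    {V : Set (Place k K)} (hVt : ∀ v ∈ V, Triv F v) (hVl : ∀ v ∈ V, ∀ i, DerLog v (D i))
    (hVT : ∀ v ∈ V, ∀ a, DerLog v (T a))
    (hVf : ∀ x : K, x ≠ 0 → {v | v ∈ V ∧ v.ord x ≠ 0}.Finite) (W : Submodule F K)
    (hst : ∀ i, ∀ x ∈ W, D i x ∈ W) (hstT : ∀ a, ∀ x ∈ W, T a x ∈ W) (hH : W ≤ Hs F T)
    (hnil : ∀ x ∈ W, Nilp D x) (hinf : ¬ FiniteDimensional F W)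
    (hWb : ∃ c : Place k K → ℤ, ∀ v ∈ V, ∀ x ∈ W, Og v (c v) x) :
    ∃ l : K, l ∉ F ∧ (∃ μ, Wt T μ l) ∧ (∀ i, D i l ∈ F) ∧ ∀ v ∈ V, v.Reg l := by
  classical
  have hcK : CharZero K := charZero_of_injective_algebraMap (algebraMap k K).injective
  by_cases h2 : ∀ c ∈ Cst D, (∃ μ, Wt T μ c) → (∀ v ∈ V, v.Reg c) → c ∈ F
  swap
  · push Not at h2
    obtain ⟨f, hf, hfμ, hfV, hfF⟩ := h2
    exact ⟨f, hfF, hfμ, fun i => by rw [mem_cst.1 hf i]; exact F.zero_mem, hfV⟩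
  obtain ⟨c, hc⟩ := hWb
  have h0 : ∀ W0 ≤ W, (∀ x ∈ W0, x ∈ Cst D) → FiniteDimensional F W0 := by
    intro W0 hW0 hW0F
    obtain ⟨WC, hWC⟩ : ∃ WC : Submodule F K, ∀ x, x ∈ WC ↔ x ∈ W ∧ x ∈ Cst D := by
      refine ⟨{
        carrier := {x | x ∈ W ∧ x ∈ Cst D}
        add_mem' := fun ha hb => ⟨W.add_mem ha.1 hb.1, (Cst D).add_mem ha.2 hb.2⟩
        zero_mem' := ⟨W.zero_mem, (Cst D).zero_mem⟩
        smul_mem' := fun a x hx => ⟨W.smul_mem a hx.1, by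
          rw [Algebra.smul_def]
          exact (Cst D).mul_mem (hs.le a.2) hx.2⟩ }, fun x => Iff.rfl⟩
    have h3 : FiniteDimensional F WC := hs.cst_fd hVt hVf h2 WC
      (fun a x hx => (hWC _).2 ⟨hstT a x ((hWC x).1 hx).1, hs.cstT a ((hWC x).1 hx).2⟩)
      (fun x hx => hH ((hWC x).1 hx).1) (fun x hx => ((hWC x).1 hx).2) c
      fun v hv x hx => hc v hv x ((hWC x).1 hx).1
    have h4 : W0 ≤ WC := fun x hx => (hWC x).2 ⟨hW0 hx, hW0F x hx⟩
    exact Submodule.finiteDimensional_of_le h4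
  obtain ⟨Λ, hΛ0, hτ, ⟨j, r, hr, hΛj, hΛwt⟩, hΛv⟩ := exists_semi3 hs.nil hs.kT hal W hst hstT hH
    hnil hinf h0
  choose τ hτF hτΛ using hτ
  have hΛne : Λ ≠ 0 := by
    rintro rfl
    rw [map_zero] at hΛ0
    exact zero_ne_one hΛ0
  have hΛc : constantCoeff Λ ≠ 0 := by
    rw [← coeff_zero_eq_constantCoeff_apply, hΛ0]
    exact one_ne_zero
  have hΛbd : ∀ v ∈ V, ∃ C, Bs v C Λ := fun v hv => hΛv v ⟨_, hc v hv⟩
  have hτwt : ∀ i, Wts T (al j) (al i) (τ i) := by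
    intro i
    have h1 : τ i = dh (D i) Λ * Λ⁻¹ := by
      rw [hτΛ, mul_assoc, PowerSeries.mul_inv_cancel _ hΛc, mul_one]
    have h3 := (hΛwt.dh (hal i)).mul hΛwt.inv
    rw [← h1, neg_zero, add_zero, add_zero] at h3
    exact h3
  -- integrality of the semi-invariance factors
  have hdhv : ∀ v ∈ V, ∀ (C : ℤ) (f : PowerSeries K) (i : ι), Bs v C f → Bs v C (dh (D i) f) := by
    intro v hv C f i hf n
    rw [coeff_dh]
    exact DerLog.ge (hVl v hv i) (hf n)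
  have hkC : ∀ i, ∀ f ∈ Cst D, D i f = 0 := fun i f hf => mem_cst.1 hf i
  have hτv : ∀ i, CF F (τ i) := by
    intro i N
    refine h2 _ (hτF i N) ⟨_, hτwt i N⟩ fun v hv => ?_
    obtain ⟨C, hC⟩ := hΛbd v hv
    refine ci v hΛne N (τ i) (C₀ := C) fun n => ?_
    induction n with
    | zero =>
      rw [pow_zero, one_mul]
      exact hC
    | succ n ih =>
      have h3 : τ i ^ (n + 1) * Λ = dh (D i) (τ i ^ n * Λ) := by
        rw [dh_smul (hkC i) ((hτF i).pow n), hτΛ, pow_succ]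
        ring
      rw [h3]
      exact hdhv v hv C _ i ih
  -- the logarithmic derivative
  obtain ⟨γ, hγ⟩ : ∃ γ : PowerSeries K, γ = eul Λ * Λ⁻¹ := ⟨_, rfl⟩
  have hγΛ : eul Λ = γ * Λ := by
    rw [hγ, mul_assoc, PowerSeries.inv_mul_cancel _ hΛc, mul_one]
  have hγwt : Wts T (al j) 0 γ := by
    have h3 := hΛwt.eul.mul hΛwt.inv
    rwa [← hγ, neg_zero, add_zero] at h3
  have hder : ∀ (i : ι) (σ : PowerSeries K), dh (D i) Λ = σ * Λ → dh (D i) γ = eul σ := by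
    intro i σ hσ
    refine mul_right_cancel₀ hΛne ?_
    have h1 := congrArg (dh (D i)) hγΛ
    rw [dh_eul, hσ, eul_mul, dh_mul, hσ, hγΛ] at h1
    have h3 : Λ * dh (D i) γ = Λ * eul σ := by
      have h3 : γ * (σ * Λ) + Λ * dh (D i) γ = γ * (σ * Λ) + Λ * eul σ := by
        rw [← h1]
        ring
      exact add_left_cancel h3
    rw [mul_comm, h3, mul_comm]
  have hγD : ∀ i, dh (D i) γ = eul (τ i) := fun i => hder i _ (hτΛ i)
  have hγF : ∀ n i, D i (coeff n γ) ∈ F := by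
    intro n i
    rw [← coeff_dh, hγD]
    exact (hτv i).eul n
  obtain ⟨x1, hx1⟩ : ∃ x1, x1 = coeff 1 γ := ⟨_, rfl⟩
  have hx1w : Wt T (-al j) x1 := by
    have := hγwt 1
    rwa [Nat.cast_one, one_smul, zero_sub, ← hx1] at this
  have hx1F : ∀ i, D i x1 ∈ F := fun i => by rw [hx1]; exact hγF 1 i
  have hx1j : D j x1 = (r : K) := by
    rw [hx1, ← coeff_dh, hder j _ hΛj, coeff_eul, Nat.cast_one, one_mul]
    have h3 : (r : PowerSeries K) * X = X * C (r : K) := by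
      rw [map_natCast]
      ring
    have h4 := coeff_succ_X_mul 0 (C (r : K))
    rw [zero_add] at h4
    rw [h3, h4, coeff_C, if_pos rfl]
  have hr0 : (r : K) ≠ 0 := by exact_mod_cast hr
  have hgood : (∀ v ∈ V, v.Reg x1) → ∃ l : K, l ∉ F ∧ (∃ μ, Wt T μ l) ∧ (∀ i, D i l ∈ F) ∧
      ∀ v ∈ V, v.Reg l := fun h => ⟨x1, fun hF => hr0 (by rw [← hx1j, hs.kD j _ hF]),
    ⟨_, hx1w⟩, hx1F, h⟩
  have hreg1 : ∀ v ∈ V, (∃ C, Bs v C γ) → v.Reg x1 := by
    rintro v hv ⟨C', hC'⟩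
    obtain ⟨C, hC⟩ := hΛbd v hv
    have := gauss v hC hC' hΛne hγΛ 1
    rwa [← hx1] at this
  by_cases hα : al j = 0
  · -- the weight is zero
    refine hgood fun v hv => hreg1 v hv ?_
    obtain ⟨Y, hY⟩ : ∃ Y : Submodule F K, Y = Submodule.span F (Set.range fun n => coeff n γ) :=
      ⟨_, rfl⟩
    have hYp : ∀ x ∈ Y, Wt T 0 x ∧ ∀ i, D i x ∈ F := by
      intro x hx
      rw [hY] at hx
      induction hx using Submodule.span_induction with
      | mem x hx =>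
        obtain ⟨n, rfl⟩ := hx
        have := hγwt n
        rw [hα, smul_zero, sub_zero] at this
        exact ⟨this, hγF n⟩
      | zero => exact ⟨wt_zero _, fun i => by rw [map_zero]; exact F.zero_mem⟩
      | add x y _ _ h h' => exact ⟨h.1.add h'.1, fun i => by
          rw [map_add]
          exact F.add_mem (h.2 i) (h'.2 i)⟩
      | smul a x _ h =>
        rw [Algebra.smul_def]
        refine ⟨h.1.cmul hs.kT a.2, fun i => ?_⟩
        change D i ((a : K) * x) ∈ F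
        rw [der_smul (hs.kD i) a.2]
        exact F.mul_mem a.2 (h.2 i)
    have hYfg : Y.FG := quasi_fg3 hs.kD Y (fun x hx => (hYp x hx).2) fun x hx h =>
      hs.wt0 (mem_cst.2 h) (hYp x hx).1
    obtain ⟨C, hC⟩ := bdd_fd v (hVt v hv) Y hYfg
    exact ⟨C, fun n => hC _ (by rw [hY]; exact Submodule.subset_span ⟨n, rfl⟩)⟩
  -- all but finitely many coefficients are invariants
  obtain ⟨a0, ha0⟩ := Function.ne_iff.1 hα
  rw [Pi.zero_apply] at ha0
  obtain ⟨N0, hN0⟩ : ∃ N0 : ℕ, ∀ n, N0 < n → coeff n γ ∈ Cst D := by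
    refine ⟨Finset.univ.sup fun i => (al i a0).natAbs, fun n hn => mem_cst.2 fun i => ?_⟩
    by_contra hne
    have h1 := (hal i).wt (hγwt n)
    have h3 := h1.uniq (wt_const hs.kT (hγF n i)) hne
    have h4 := congrFun h3 a0
    rw [Pi.add_apply, Pi.sub_apply, Pi.zero_apply, Pi.smul_apply, smul_eq_mul] at h4
    have h5 : al i a0 = n * al j a0 := by linarith
    have h6 : (al i a0).natAbs ≤ Finset.univ.sup fun i => (al i a0).natAbs :=
      Finset.le_sup (f := fun i => (al i a0).natAbs) (Finset.mem_univ i)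
    rw [h5, Int.natAbs_mul, Int.natAbs_natCast] at h6
    have h7 : 1 ≤ (al j a0).natAbs := Nat.one_le_iff_ne_zero.2 fun h => ha0 (Int.natAbs_eq_zero.1 h)
    nlinarith
  obtain ⟨β, hβ⟩ : ∃ β : PowerSeries K, ∀ n, coeff n β =
      if coeff n γ ∈ Cst D then 0 else coeff n γ :=
    ⟨PowerSeries.mk fun n => if coeff n γ ∈ Cst D then 0 else coeff n γ, fun n => by
      rw [coeff_mk]⟩
  obtain ⟨α, hαd⟩ : ∃ α : PowerSeries K, ∀ n, coeff n α =
      if coeff n γ ∈ Cst D then coeff n γ else 0 :=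
    ⟨PowerSeries.mk fun n => if coeff n γ ∈ Cst D then coeff n γ else 0, fun n => by
      rw [coeff_mk]⟩
  have hγαβ : γ = α + β := by
    ext n
    rw [map_add, hαd, hβ]
    split_ifs
    · rw [add_zero]
    · rw [zero_add]
  have hαC : ∀ n, coeff n α ∈ Cst D := by
    intro n
    rw [hαd]
    split_ifs with h
    · exact h
    · exact (Cst D).zero_mem
  have hαw : Wts T (al j) 0 α := by
    intro n
    rw [hαd]
    split_ifs with h
    · exact hγwt n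
    · exact wt_zero _
  have hβv : ∀ v ∈ V, ∃ C, Bs v C β := by
    intro v hv
    obtain ⟨C, hC⟩ := bdd_fd v (hVt v hv) (Submodule.span F
      (((Finset.range (N0 + 1) : Finset ℕ) : Set ℕ).image fun n => coeff n β)) (fg_span_image _ _)
    refine ⟨C, fun n => ?_⟩
    by_cases hn : n < N0 + 1
    · exact hC _ (Submodule.subset_span ⟨n, by rw [Finset.coe_range]; exact hn, rfl⟩)
    · left
      rw [hβ, if_pos (hN0 n (by omega))]
  have hΛαβ : eul Λ = (α + β) * Λ := by rw [← hγαβ]; exact hγΛ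
  have hregα : ∀ v ∈ V, Bs v 0 α → v.Reg x1 := by
    intro v hv hα0
    obtain ⟨C2, hC2⟩ := hβv v hv
    refine hreg1 v hv ⟨min 0 C2, ?_⟩
    rw [hγαβ]
    exact (hα0.mono (min_le_left 0 C2)).add (hC2.mono (min_le_right 0 C2))
  have hαz : coeff 0 α ∈ F := by
    refine hs.wt0 (hαC 0) ?_
    have := hαw 0
    rwa [Nat.cast_zero, zero_smul, sub_zero] at this
  by_cases hΘ : ∃ n : ℕ, 1 ≤ n ∧ ∃ c ∈ Cst D, c ≠ 0 ∧ Wt T (0 - (n : ℤ) • al j) c
  swap
  · push Not at hΘ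
    refine hgood fun v hv => hregα v hv fun n => ?_
    rcases n with - | n
    · exact (hVt v hv).og ⟨_, hαz⟩
    · left
      by_contra h
      exact hΘ (n + 1) (by omega) _ (hαC _) h (hαw _)
  obtain ⟨k0, ⟨hk0, θ, hθC, hθ0, hθw⟩, hk0min⟩ : ∃ k0 : ℕ, (1 ≤ k0 ∧ ∃ c ∈ Cst D, c ≠ 0 ∧
      Wt T (0 - (k0 : ℤ) • al j) c) ∧ ∀ m < k0, ¬ (1 ≤ m ∧ ∃ c ∈ Cst D, c ≠ 0 ∧
        Wt T (0 - (m : ℤ) • al j) c) :=
    ⟨Nat.find hΘ, Nat.find_spec hΘ, fun m hm => Nat.find_min hΘ hm⟩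
  have hform : ∀ n : ℕ, ∀ c ∈ Cst D, Wt T (0 - (n : ℤ) • al j) c →
      ∃ f ∈ F, ∃ q : ℕ, c = f * θ ^ q := by
    intro n c hc hcw
    by_cases hc0 : c = 0
    · exact ⟨0, F.zero_mem, 0, by rw [hc0, zero_mul]⟩
    have h1 : Wt T (0 - ((n % k0 : ℕ) : ℤ) • al j) (c / θ ^ (n / k0)) := by
      have h3 := hcw.div (hθw.pow (n / k0))
      have h4 : (0 - (n : ℤ) • al j) - (n / k0) • (0 - (k0 : ℤ) • al j) =
          0 - ((n % k0 : ℕ) : ℤ) • al j := by
        funext a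
        have h5 : ((n : ℕ) : ℤ) = k0 * (n / k0 : ℕ) + (n % k0 : ℕ) := by
          exact_mod_cast (Nat.div_add_mod n k0).symm
        simp only [Pi.sub_apply, Pi.smul_apply, Pi.zero_apply, smul_eq_mul]
        rw [h5, nsmul_eq_mul]
        ring
      rwa [h4] at h3
    have hcC : c / θ ^ (n / k0) ∈ Cst D := (Cst D).div_mem hc (pow_mem hθC _)
    have h3 : n % k0 = 0 := by
      by_contra h4
      exact hk0min _ (Nat.mod_lt n hk0) ⟨Nat.one_le_iff_ne_zero.2 h4, _, hcC,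
        div_ne_zero hc0 (pow_ne_zero _ hθ0), h1⟩
    rw [h3, Nat.cast_zero, zero_smul, sub_zero] at h1
    exact ⟨_, hs.wt0 hcC h1, n / k0, by rw [div_mul_cancel₀ _ (pow_ne_zero _ hθ0)]⟩
  have hpos : ∀ v ∈ V, 0 ≤ v.ord θ → v.Reg x1 := by
    intro v hv hvθ
    refine hregα v hv fun n => ?_
    obtain ⟨f, hf, q, hfq⟩ := hform n _ (hαC n) (hαw n)
    rw [hfq]
    have h1 := (hVt v hv).og ⟨f, hf⟩
    have h3 : Og v 0 (θ ^ q) := Or.inr (by
      rw [v.ord_pow]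
      exact mul_nonneg (Int.natCast_nonneg q) hvθ)
    have h4 := h1.mul h3
    rwa [zero_add] at h4
  have hVm : ∀ v, v ∈ ((hVf θ hθ0).toFinset.filter fun v => v.ord θ < 0) ↔ v ∈ V ∧ v.ord θ < 0 := by
    intro v
    rw [Finset.mem_filter, Set.Finite.mem_toFinset]
    exact ⟨fun h => ⟨h.1.1, h.2⟩, fun h => ⟨⟨h.1, h.2.ne⟩, h.2⟩⟩
  obtain ⟨V₀, hV₀⟩ : ∃ V₀ : Finset (Place k K), ∀ v, v ∈ V₀ ↔ v ∈ V ∧ v.ord θ < 0 := ⟨_, hVm⟩
  by_cases hne : V₀.Nonempty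
  swap
  · refine hgood fun v hv => hpos v hv ?_
    by_contra h
    exact hne ⟨v, (hV₀ v).2 ⟨hv, not_le.1 h⟩⟩
  obtain ⟨v₀, hv₀⟩ := id hne
  have hv₀' := (hV₀ v₀).1 hv₀
  -- the field of rational functions in `θ`
  have hθtr : Transcendental F θ := by
    intro halg
    have h1 := kills_alg (M := F) (hs.kT a0) halg
    have h3 := hθw a0
    rw [h1] at h3
    have h4 := (mul_eq_zero.1 h3.symm).resolve_right hθ0
    have h5 : (0 - (k0 : ℤ) • al j) a0 = 0 := by exact_mod_cast h4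
    rw [Pi.sub_apply, Pi.zero_apply, Pi.smul_apply, smul_eq_mul, zero_sub, neg_eq_zero,
      mul_eq_zero] at h5
    rcases h5 with h5 | h5
    · have : k0 = 0 := by exact_mod_cast h5
      omega
    · exact ha0 h5
  have hR := ratBase_adjoin (F := F) hθtr
  obtain ⟨F', hF'⟩ : ∃ F', F' = IntermediateField.adjoin k ((F : Set K) ∪ {θ}) := ⟨_, rfl⟩
  rw [← hF'] at hR
  have hB := base_inf hR hv₀'.2
  have hαF' : CF F' α := by
    intro n
    obtain ⟨f, hf, q, hfq⟩ := hform n _ (hαC n) (hαw n)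
    rw [hfq]
    exact F'.mul_mem (hR.le hf) (pow_mem hR.mem q)
  have hπv : ∀ v ∈ V₀, 0 < v.ord θ⁻¹ := by
    intro v hv
    rw [v.ord_inv]
    have := ((hV₀ v).1 hv).2
    omega
  obtain ⟨q1, hq1F, hq1⟩ := loc (V₀ := V₀) hB.mem hB.ne hπv (fun f hf hf0 => by
      obtain ⟨n, u, huF, hu0, hfu, hu⟩ := hB.dec f hf hf0
      exact ⟨n, u, huF, hu0, hfu, fun v hv => hu v (hVt v ((hV₀ v).1 hv).1) (hπv v hv)⟩)
    hne hΛ0 hαF' hΛαβ (fun v hv => hΛbd v ((hV₀ v).1 hv).1) (fun v hv => hβv v ((hV₀ v).1 hv).1)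
  rw [← hγαβ, ← hx1] at hq1
  obtain ⟨p, hp⟩ := poly_part hR hq1F
  obtain ⟨I, hI⟩ : ∃ I : Submodule F K, ∀ x, x ∈ I ↔ ∀ v ∈ V, Og v 0 x := by
    refine ⟨{
      carrier := {x | ∀ v ∈ V, Og v 0 x}
      add_mem' := fun ha hb v hv => (ha v hv).add (hb v hv)
      zero_mem' := fun v _ => og_zero
      smul_mem' := fun a x hx v hv => by
        rw [Algebra.smul_def]
        have := ((hVt v hv).og a).mul (hx v hv)
        rwa [zero_add] at this }, fun x => Iff.rfl⟩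
  have hl' : x1 - Polynomial.aeval θ p ∈ I := by
    rw [hI]
    intro v hv
    by_cases hvθ : v.ord θ < 0
    · have e1 : x1 - Polynomial.aeval θ p = (x1 - q1) + (q1 - Polynomial.aeval θ p) := by ring
      rw [e1]
      exact Og.add (hq1 v ((hV₀ v).2 ⟨hv, hvθ⟩)) (hp v (hVt v hv) hvθ)
    · have hvθ' : 0 ≤ v.ord θ := not_lt.1 hvθ
      rw [sub_eq_add_neg]
      exact Og.add (hpos v hv hvθ') (og_poly (hVt v hv) hvθ' p).neg
  have hpH : Polynomial.aeval θ p ∈ Hs F T := by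
    rw [Polynomial.aeval_eq_sum_range]
    exact Submodule.sum_mem _ fun i _ => Submodule.smul_mem _ _ (hθw.pow i).mem
  have hpC : Polynomial.aeval θ p ∈ Cst D := by
    rw [Polynomial.aeval_eq_sum_range]
    refine (Cst D).sum_mem fun i _ => ?_
    rw [Algebra.smul_def]
    exact (Cst D).mul_mem (hs.le (p.coeff i).2) (pow_mem hθC i)
  obtain ⟨s, e, he, hsum⟩ := hs_comp hs.kT I (fun a x hx => by
    rw [hI] at hx ⊢
    exact fun v hv => DerLog.ge (hVT v hv a) (hx v hv)) hl'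
    (Submodule.sub_mem _ hx1w.mem hpH)
  obtain ⟨l, hl⟩ : ∃ l, l = if -al j ∈ s then e (-al j) else 0 := ⟨_, rfl⟩
  have hlD : ∀ i, D i l = D i x1 := by
    intro i
    rw [hl]
    refine comp_der hs.kT (hal i) (fun μ => (he μ).1) ((hal i).wt hx1w) ?_
    rw [← hsum, map_sub, mem_cst.1 hpC i, sub_zero]
  have hlI : l ∈ I := by
    rw [hl]
    split_ifs
    · exact (he _).2
    · exact I.zero_mem
  refine ⟨l, fun hF => hr0 (by rw [← hx1j, ← hlD, hs.kD j _ hF]), ⟨-al j, ?_⟩, fun i => ?_,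
    (hI l).1 hlI⟩
  · rw [hl]
    split_ifs
    · exact (he _).1
    · exact wt_zero _
  · rw [hlD]
    exact hx1F i

end

end Pool.Agent.H892
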