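import Pool.Agent.H892.S5

/-!
The constants of derived systems of solvable type.
-/

set_option autoImplicit false
set_option linter.unusedSectionVars false

open FF Pool.Agent.W602.GT Pool.Agent.W603.LV Pool.Agent.Y172 Pool.Agent.TH122.AB

namespace Pool.Agent.H892

section

variable {k K ι κ : Type} [Field k] [CharZero k] [Field K] [Algebra k K] [Fintype ι]
  {F G : IntermediateField k K} {D : ι → Derivation k K K} {w : ι → ℕ}
  {T : κ → Derivation k K K} {al : ι → κ → ℤ}

theorem lw_le (h : F ≤ G) {n : ℕ} {E : Derivation k K K} (hE : E ∈ Lw F D w n) :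
    E ∈ Lw G D w n := by
  obtain ⟨c, h1, h2, h3⟩ := mem_lw.1 hE
  exact mem_lw.2 ⟨c, fun l => h (h1 l), h2, h3⟩

theorem hs_der (hk : ∀ f ∈ F, ∀ i, D i f = 0) (hal : ∀ i, Wd T (al i) (D i)) (i : ι) {x : K}
    (hx : x ∈ Hs F T) : D i x ∈ Hs F T := by
  unfold Hs at hx
  induction hx using Submodule.span_induction with
  | mem x hx =>
    obtain ⟨μ, hμ⟩ := hx
    exact ((hal i).wt hμ).mem
  | zero => rw [map_zero]; exact Submodule.zero_mem _
  | add x y _ _ h h' => rw [map_add]; exact Submodule.add_mem _ h h'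
  | smul a x _ h =>
    rw [Algebra.smul_def]
    change D i ((a : K) * x) ∈ _
    rw [der_smul (fun f hf => hk f hf i) a.2]
    exact Submodule.smul_mem _ a h

/-- a homogeneous element of a place at which a diagonalisable derivation is regular but not
logarithmic has order zero -/
theorem nonlog_wt {P : Place k K} {E : Derivation k K K} (hE : DerReg P E) (hl : ¬ DerLog P E)
    {f : K} {m : ℤ} (hf : E f = (m : K) * f) : P.ord f = 0 := by
  have hcK : CharZero K := charZero_of_injective_algebraMap (algebraMap k K).injective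
  by_contra h
  obtain ⟨h1, h2⟩ := nonlog_ord hE hl h
  have hm : m ≠ 0 := by
    rintro rfl
    rw [Int.cast_zero, zero_mul] at hf
    exact h1 hf
  have hf0 : f ≠ 0 := by
    rintro rfl
    exact h P.ord_zero
  have hmK : (m : K) ≠ 0 := by exact_mod_cast hm
  have hmo : P.ord (m : K) = 0 := by
    have h3 : (m : k) ≠ 0 := by exact_mod_cast hm
    have := P.ord_const h3
    rwa [map_intCast] at this
  rw [hf, P.ord_mul hmK hf0, hmo] at h2
  omega

/-- elements a power of which belongs to a closed field -/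
theorem closed_zpow {𝔸 : IntermediateField k K} (h𝔸 : Closed 𝔸) {u : K} {n : ℤ} (hn : n ≠ 0)
    (hu : u ^ n ∈ 𝔸) : u ∈ 𝔸 := by
  have key : ∀ m : ℕ, m ≠ 0 → u ^ m ∈ 𝔸 → u ∈ 𝔸 := by
    intro m hm h
    refine h𝔸 u ?_
    refine ⟨Polynomial.X ^ m - Polynomial.C ⟨_, h⟩, ?_, ?_⟩
    · exact (Polynomial.monic_X_pow_sub_C _ hm).ne_zero
    · rw [map_sub, map_pow, Polynomial.aeval_X, Polynomial.aeval_C]
      exact sub_self _
  rcases Int.le_total 0 n with h | h
  · obtain ⟨m, rfl⟩ := Int.eq_ofNat_of_zero_le h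
    rw [zpow_natCast] at hu
    exact key m (by exact_mod_cast hn) hu
  · obtain ⟨m, hm⟩ := Int.eq_ofNat_of_zero_le (Int.neg_nonneg.2 h)
    have hn' : n = -(m : ℤ) := by omega
    rw [hn', zpow_neg, zpow_natCast] at hu
    have h1 := 𝔸.inv_mem hu
    rw [inv_inv] at h1
    exact key m (by omega) h1

/-- **Step A: the new constants are algebraic.** -/
theorem SolSys.algA (hs : SolSys F D w T) (hal : ∀ i, Wd T (al i) (D i))
    {𝔸 : IntermediateField k K} (h𝔸 : Closed 𝔸) (hF𝔸 : F ≤ 𝔸) {l : K} (hlC : l ∈ Cst D)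
    (hl0 : l ≠ 0) (hl𝔸 : l ∈ 𝔸) {μ : κ → ℤ} (hμ : Wt T μ l) {a1 : κ} (ha1 : μ a1 ≠ 0)
    {T' : κ → Derivation k K K}
    (hT' : ∀ a x, T' a x = (μ a1 : K) * T a x - (μ a : K) * T a1 x) {x : K} (hx : x ∈ Cst D)
    (hxT : ∀ a, T' a x = 0) : x ∈ 𝔸 := by
  classical
  have hcK : CharZero K := charZero_of_injective_algebraMap (algebraMap k K).injective
  have hT'F : ∀ a, ∀ f ∈ F, T' a f = 0 := fun a f hf => by
    rw [hT', hs.kT a f hf, hs.kT a1 f hf, mul_zero, mul_zero, sub_zero]
  have hφ : ∀ {ν : κ → ℤ} {z : K}, Wt T ν z → Wt T' (fun a => μ a1 * ν a - μ a * ν a1) z := by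
    intro ν z hz a
    rw [hT', hz a, hz a1]
    push_cast
    ring
  have hHs : ∀ z ∈ Hs F T, z ∈ Hs F T' := by
    intro z hz
    unfold Hs at hz
    induction hz using Submodule.span_induction with
    | mem z hz =>
      obtain ⟨ν, hν⟩ := hz
      exact (hφ hν).mem
    | zero => exact Submodule.zero_mem _
    | add x y _ _ h h' => exact Submodule.add_mem _ h h'
    | smul a x _ h => exact Submodule.smul_mem _ a h
  have hxD := mem_cst.1 hx
  -- a denominator which is an invariant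
  obtain ⟨S, hS⟩ : ∃ S : Set K, ∀ s, s ∈ S ↔ s ∈ Hs F T ∧ s * x ∈ Hs F T :=
    ⟨{s | _}, fun _ => Iff.rfl⟩
  have hSD : ∀ i, ∀ s ∈ S, D i s ∈ S := by
    intro i s hs'
    rw [hS] at hs' ⊢
    refine ⟨hs_der (fun f hf i => hs.kD i f hf) hal i hs'.1, ?_⟩
    have h1 : D i s * x = D i (s * x) := by
      rw [(D i).leibniz, hxD i, smul_zero, zero_add, smul_eq_mul, mul_comm]
    rw [h1]
    exact hs_der (fun f hf i => hs.kD i f hf) hal i hs'.2
  obtain ⟨p, q, hp, hq, hq0, hpq⟩ := hs.frac x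
  obtain ⟨nq, hnq⟩ := hq.1
  obtain ⟨c, hcS, hc0, hcD⟩ := exists_last (D := D) S hSD nq q ((hS q).2 ⟨hq.2, by
    rw [hpq, mul_div_cancel₀ _ hq0]
    exact hp.2⟩) hq0 hnq
  obtain ⟨I, hI⟩ : ∃ I : Submodule F K, ∀ s, s ∈ I ↔ s ∈ Cst D ∧ s ∈ Hs F T ∧
      s * x ∈ Hs F T := by
    refine ⟨{
      carrier := {s | s ∈ Cst D ∧ s ∈ Hs F T ∧ s * x ∈ Hs F T}
      add_mem' := fun ha hb => ⟨(Cst D).add_mem ha.1 hb.1, Submodule.add_mem _ ha.2.1 hb.2.1, by
        rw [add_mul]
        exact Submodule.add_mem _ ha.2.2 hb.2.2⟩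
      zero_mem' := ⟨(Cst D).zero_mem, Submodule.zero_mem _, by
        rw [zero_mul]
        exact Submodule.zero_mem _⟩
      smul_mem' := fun a s hs' => ⟨by
        rw [Algebra.smul_def]
        exact (Cst D).mul_mem (hs.le a.2) hs'.1, Submodule.smul_mem _ a hs'.2.1, by
        rw [smul_mul_assoc]
        exact Submodule.smul_mem _ a hs'.2.2⟩ }, fun s => Iff.rfl⟩
  have hIT' : ∀ a, ∀ s ∈ I, T' a s ∈ I := by
    intro a s hs'
    rw [hI] at hs' ⊢
    have h1 : T' a s * x = T' a (s * x) := by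
      rw [(T' a).leibniz, hxT a, smul_zero, zero_add, smul_eq_mul, mul_comm]
    have h2 : ∀ z ∈ Hs F T, T' a z ∈ Hs F T := by
      intro z hz
      rw [hT', sub_eq_add_neg]
      have h3 : ∀ (m : ℤ) (z : K), z ∈ Hs F T → (m : K) * z ∈ Hs F T := by
        intro m z hz
        have h4 : (m : K) * z = ((m : ℤ) : F) • z := by
          rw [Algebra.smul_def]
          congr 1
        rw [h4]
        exact Submodule.smul_mem _ _ hz
      exact Submodule.add_mem _ (h3 _ _ (hs_T hs.kT a hz))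
        (Submodule.neg_mem _ (h3 _ _ (hs_T hs.kT a1 hz)))
    refine ⟨?_, h2 s hs'.2.1, by rw [h1]; exact h2 _ hs'.2.2⟩
    rw [hT']
    exact (Cst D).sub_mem ((Cst D).mul_mem ((Cst D).intCast_mem _) (hs.cstT a hs'.1))
      ((Cst D).mul_mem ((Cst D).intCast_mem _) (hs.cstT a1 hs'.1))
  obtain ⟨y, hyI, hy0, ρ, hyρ⟩ := exists_wt_ne hT'F I hIT'
    ((hI c).2 ⟨mem_cst.2 hcD, ((hS c).1 hcS).1, ((hS c).1 hcS).2⟩)
    (hHs _ ((hS c).1 hcS).1) hc0
  obtain ⟨hyC, hyH, hyxH⟩ := (hI y).1 hyI
  have hyxρ : Wt T' ρ (y * x) := by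
    intro a
    rw [(T' a).leibniz, hxT a, smul_zero, zero_add, smul_eq_mul, hyρ a]
    ring
  -- the components of an invariant with a given eigenvalue for `T'`
  have hcompt : ∀ z ∈ Cst D, z ∈ Hs F T → Wt T' ρ z → ∃ (s : Finset (κ → ℤ)) (e : (κ → ℤ) → K),
      (∀ ν, Wt T ν (e ν) ∧ e ν ∈ Cst D) ∧ z = ∑ ν ∈ s, e ν ∧
      ∀ ν ∈ s, e ν ≠ 0 → ∀ a, μ a1 * ν a - μ a * ν a1 = ρ a := by
    intro z hzC hzH hzρ
    obtain ⟨CC, hCC⟩ : ∃ CC : Submodule F K, ∀ s, s ∈ CC ↔ s ∈ Cst D := by
      refine ⟨{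
        carrier := {s | s ∈ Cst D}
        add_mem' := fun ha hb => (Cst D).add_mem ha hb
        zero_mem' := (Cst D).zero_mem
        smul_mem' := fun a s hs' => by
          rw [Algebra.smul_def]
          exact (Cst D).mul_mem (hs.le a.2) hs' }, fun s => Iff.rfl⟩
    obtain ⟨s, e, he, hz⟩ := hs_comp hs.kT CC (fun a v hv => (hCC _).2 (hs.cstT a ((hCC v).1 hv)))
      ((hCC z).2 hzC) hzH
    refine ⟨s, e, fun ν => ⟨(he ν).1, (hCC _).1 (he ν).2⟩, hz, fun ν hν hne a => ?_⟩
    have h1 : ∑ ν ∈ s, (((μ a1 * ν a - μ a * ν a1 - ρ a : ℤ) : K)) * e ν = 0 := by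
      have h2 := hzρ a
      rw [hz, map_sum, Finset.mul_sum, ← sub_eq_zero, ← Finset.sum_sub_distrib] at h2
      rw [← h2]
      refine Finset.sum_congr rfl fun ν _ => ?_
      rw [hφ (he ν).1 a]
      push_cast
      ring
    have h3 := wt_comp_zero (T := T) hs.kT (s := s)
      (c := fun ν => (((μ a1 * ν a - μ a * ν a1 - ρ a : ℤ) : K)) * e ν)
      (fun ν _ => (he ν).1.cmul hs.kT (F.intCast_mem _)) h1 ν hν
    have h4 := (mul_eq_zero.1 h3).resolve_right hne
    have h5 : μ a1 * ν a - μ a * ν a1 - ρ a = 0 := by exact_mod_cast h4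
    omega
  obtain ⟨s, e, he, hye, hes⟩ := hcompt y hyC hyH hyρ
  obtain ⟨s', e', he', hye', hes'⟩ := hcompt (y * x) ((Cst D).mul_mem hyC hx) hyxH hyxρ
  obtain ⟨ν0, hν0, hν0e⟩ : ∃ ν ∈ s, e ν ≠ 0 := by
    by_contra hcon
    push Not at hcon
    exact hy0 (by rw [hye]; exact Finset.sum_eq_zero hcon)
  -- the quotients of the components are algebraic
  have hquot : ∀ (ν : κ → ℤ) (z : K), z ∈ Cst D → Wt T ν z →
      (z ≠ 0 → ∀ a, μ a1 * ν a - μ a * ν a1 = ρ a) → z / e ν0 ∈ 𝔸 := by
    intro ν z hzC hzν hzρ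
    by_cases hz0 : z = 0
    · rw [hz0, zero_div]
      exact 𝔸.zero_mem
    have h1 := hzρ hz0
    have h2 := hes ν0 hν0 hν0e
    have huC : z / e ν0 ∈ Cst D := (Cst D).div_mem hzC (he ν0).2
    have huw := hzν.div (he ν0).1
    refine closed_zpow h𝔸 ha1 ?_
    have h3 : (z / e ν0) ^ (μ a1) / l ^ (ν a1 - ν0 a1) ∈ F := by
      refine hs.wt0 ((Cst D).div_mem (zpow_mem huC _) (zpow_mem hlC _)) ?_
      have h4 := (huw.zpow (μ a1)).div (hμ.zpow (ν a1 - ν0 a1))
      have h5 : μ a1 • (ν - ν0) - (ν a1 - ν0 a1) • μ = 0 := by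
        funext a
        simp only [Pi.sub_apply, Pi.smul_apply, Pi.zero_apply, smul_eq_mul]
        have h6 := h1 a
        have h7 := h2 a
        linear_combination h6 - h7
      rwa [h5] at h4
    have h4 : (z / e ν0) ^ (μ a1) = (z / e ν0) ^ (μ a1) / l ^ (ν a1 - ν0 a1) *
        l ^ (ν a1 - ν0 a1) := by rw [div_mul_cancel₀ _ (zpow_ne_zero _ hl0)]
    rw [h4]
    exact 𝔸.mul_mem (hF𝔸 h3) (zpow_mem hl𝔸 _)
  have h1 : y / e ν0 ∈ 𝔸 := by
    rw [hye, Finset.sum_div]
    exact 𝔸.sum_mem fun ν hν => hquot ν _ (he ν).2 (he ν).1 fun hne => hes ν hν hne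
  have h2 : y * x / e ν0 ∈ 𝔸 := by
    rw [hye', Finset.sum_div]
    exact 𝔸.sum_mem fun ν hν => hquot ν _ (he' ν).2 (he' ν).1 fun hne => hes' ν hν hne
  have h3 : x = (y * x / e ν0) / (y / e ν0) := by
    field_simp
  rw [h3]
  exact 𝔸.div_mem h2 h1

/-- **Step B: the new constants are rational functions.** -/
theorem constB {C : IntermediateField k K} (hFC : F ≤ C) {l : K} {T' : κ → Derivation k K K}
    (hl : Transcendental C l) (hC : ∀ a, ∀ c ∈ C, T' a c ∈ C) (hCF : ∀ c ∈ C,
      (∀ a, T' a c = 0) → c ∈ F) (hTl : ∀ a, T' a l = 0) {x : K}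
    (hx : x ∈ IntermediateField.adjoin k ((C : Set K) ∪ {l})) (hxT : ∀ a, T' a x = 0) :
    x ∈ IntermediateField.adjoin k ((F : Set K) ∪ {l}) := by
  classical
  have hR := ratBase_adjoin (F := C) hl
  have hinj : ∀ p : Polynomial C, Polynomial.aeval l p = 0 → p = 0 := by
    intro p hp
    by_contra h
    exact hR.tr p h hp
  -- derivations act on the coefficients
  have hact : ∀ (a : κ) (p : Polynomial C), ∃ p' : Polynomial C,
      (∀ n, ((p'.coeff n : C) : K) = T' a (p.coeff n)) ∧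
      Polynomial.aeval l p' = T' a (Polynomial.aeval l p) := by
    intro a p
    refine ⟨∑ i ∈ Finset.range (p.natDegree + 1),
      Polynomial.monomial i (⟨T' a (p.coeff i), hC a _ (p.coeff i).2⟩ : C), fun n => ?_, ?_⟩
    · rw [Polynomial.finsetSum_coeff]
      simp only [Polynomial.coeff_monomial]
      rw [Finset.sum_ite_eq' (Finset.range (p.natDegree + 1)) n]
      split_ifs with h
      · rfl
      · rw [Finset.mem_range, not_lt] at h
        rw [Polynomial.coeff_eq_zero_of_natDegree_lt (by omega)]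
        change (0 : K) = T' a 0
        rw [map_zero]
    · rw [map_sum, Polynomial.aeval_eq_sum_range, map_sum]
      refine Finset.sum_congr rfl fun i _ => ?_
      rw [Polynomial.aeval_monomial, Algebra.smul_def]
      change T' a (p.coeff i) * l ^ i = T' a (((p.coeff i : C) : K) * l ^ i)
      rw [(T' a).leibniz, (T' a).leibniz_pow, hTl, smul_zero, smul_zero, smul_zero, zero_add,
        smul_eq_mul, mul_comm]
  have hG1F : ∀ z ∈ F, z ∈ IntermediateField.adjoin k ((F : Set K) ∪ {l}) := fun z hz =>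
    IntermediateField.subset_adjoin k _ (Or.inl hz)
  have hG1l : l ∈ IntermediateField.adjoin k ((F : Set K) ∪ {l}) :=
    IntermediateField.subset_adjoin k _ (Or.inr rfl)
  have hpol : ∀ p : Polynomial C, (∀ a n, T' a (p.coeff n) = 0) →
      Polynomial.aeval l p ∈ IntermediateField.adjoin k ((F : Set K) ∪ {l}) := by
    intro p hp
    rw [Polynomial.aeval_eq_sum_range]
    refine sum_mem fun i _ => ?_
    rw [Algebra.smul_def]
    exact mul_mem (hG1F _ (hCF _ (p.coeff i).2 fun a => hp a i)) (pow_mem hG1l i)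
  obtain ⟨a0, b0, hb0, hab0⟩ := hR.gen x hx
  -- a monic denominator of minimal degree
  obtain ⟨Q, hQ⟩ : ∃ Q : ℕ → Prop, ∀ n, Q n ↔ ∃ q p : Polynomial C, q.Monic ∧ q.natDegree = n ∧
      x * Polynomial.aeval l q = Polynomial.aeval l p := ⟨fun n => _, fun _ => Iff.rfl⟩
  have hmon : ∀ q p : Polynomial C, q ≠ 0 → x * Polynomial.aeval l q = Polynomial.aeval l p →
      Q q.natDegree := by
    intro q p hq0 hqp
    rw [hQ]
    refine ⟨Polynomial.C q.leadingCoeff⁻¹ * q, Polynomial.C q.leadingCoeff⁻¹ * p, ?_, ?_, ?_⟩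
    · rw [mul_comm]
      exact Polynomial.monic_mul_leadingCoeff_inv hq0
    · rw [Polynomial.natDegree_C_mul (inv_ne_zero (Polynomial.leadingCoeff_ne_zero.2 hq0))]
    · rw [map_mul, map_mul, ← hqp]
      ring
  have hex : ∃ n, Q n := ⟨_, hmon b0 a0 hb0 (by rw [hab0, div_mul_cancel₀ _ (hR.tr b0 hb0)])⟩
  obtain ⟨q, p, hqm, hqn, hqp⟩ := (hQ _).1 (Nat.find_spec hex)
  have hq0 : ∀ a n, T' a (q.coeff n) = 0 := by
    intro a
    obtain ⟨q', hq', hq'l⟩ := hact a q
    obtain ⟨p', hp', hp'l⟩ := hact a p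
    have h1 : x * Polynomial.aeval l q' = Polynomial.aeval l p' := by
      rw [hq'l, hp'l, ← hqp, (T' a).leibniz, hxT a, smul_zero, add_zero, smul_eq_mul]
    have h2 : q' = 0 := by
      by_contra h0
      have h3 := hmon q' p' h0 h1
      have h4 : q'.natDegree < q.natDegree := by
        have h5 : ∀ n, q.natDegree ≤ n → q'.coeff n = 0 := by
          intro n hn
          refine Subtype.ext ?_
          rw [hq']
          rcases Nat.eq_or_lt_of_le hn with h6 | h6
          · rw [← h6, hqm.coeff_natDegree]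
            exact (T' a).map_one_eq_zero
          · rw [Polynomial.coeff_eq_zero_of_natDegree_lt h6]
            exact map_zero (T' a)
        by_contra h6
        push Not at h6
        exact h0 (Polynomial.leadingCoeff_eq_zero.1 (h5 _ h6))
      rw [hqn] at h4
      exact Nat.find_min hex h4 h3
    intro n
    rw [← hq', h2]
    rfl
  have hp0 : ∀ a n, T' a (p.coeff n) = 0 := by
    intro a
    obtain ⟨q', hq', hq'l⟩ := hact a q
    obtain ⟨p', hp', hp'l⟩ := hact a p
    have h1 : q' = 0 := by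
      ext n
      rw [hq', hq0]
      rfl
    have h2 : p' = 0 := by
      apply hinj
      rw [hp'l, ← hqp, (T' a).leibniz, hxT a, smul_zero, add_zero, smul_eq_mul, ← hq'l, h1,
        map_zero, mul_zero]
    intro n
    rw [← hp', h2]
    rfl
  have h1 : x = Polynomial.aeval l p / Polynomial.aeval l q := by
    rw [← hqp, mul_div_cancel_right₀ _ (hR.tr q hqm.ne_zero)]
  rw [h1]
  exact div_mem (hpol p hp0) (hpol q hq0)

/-- the projection onto the kernel of a derivation with a slice -/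
noncomputable def pj (E : Derivation k K K) (l : K) (N : ℕ) (y : K) : K :=
  ∑ p ∈ Finset.range N, ((-1 : K) ^ p / (p.factorial : K)) * (l ^ p * E^[p] y)

theorem pj_kill {E : Derivation k K K} {l : K} (hl : E l = 1) (N : ℕ) (y : K)
    (hy : E^[N] y = 0) : E (pj E l N y) = 0 := by
  have hcK : CharZero K := charZero_of_injective_algebraMap (algebraMap k K).injective
  have hc : ∀ p : ℕ, E ((-1 : K) ^ p / (p.factorial : K)) = 0 := by
    intro p
    have h1 : (-1 : K) ^ p / (p.factorial : K) = algebraMap k K ((-1) ^ p / (p.factorial : k)) := by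
      rw [map_div₀, map_pow, map_neg, map_one, map_natCast]
    rw [h1]
    exact E.map_algebraMap _
  have key : ∀ M : ℕ, E (∑ p ∈ Finset.range M, ((-1 : K) ^ p / (p.factorial : K)) *
      (l ^ p * E^[p] y)) = -(((-1 : K) ^ M / (M.factorial : K)) * (M * (l ^ (M - 1) * E^[M] y))) := by
    intro M
    induction M with
    | zero => simp
    | succ M ih =>
      rw [Finset.sum_range_succ, map_add, ih, E.leibniz, hc, smul_zero, add_zero, smul_eq_mul,
        E.leibniz, E.leibniz_pow, hl, ← Function.iterate_succ_apply' E M y]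
      simp only [smul_eq_mul, nsmul_eq_mul, mul_one, Nat.add_sub_cancel]
      have hM : ((M.factorial : ℕ) : K) ≠ 0 := by exact_mod_cast M.factorial_ne_zero
      have hM1 : ((M : K) + 1) ≠ 0 := by exact_mod_cast Nat.succ_ne_zero M
      rw [Nat.factorial_succ, pow_succ]
      push_cast
      field_simp
      ring
  unfold pj
  rw [key, hy]
  simp

/-- **Recovering an element from its projections.** -/
theorem pj_mem {E : Derivation k K K} {l : K} {N : ℕ} {M : Submodule G K} (hlG : l ∈ G) {y : K}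
    (hM : ∀ m, pj E l N (E^[m] y) ∈ M) (hN : N ≠ 0) {n0 : ℕ} (hy : E^[n0] y = 0) : y ∈ M := by
  have key : ∀ n m : ℕ, E^[m + n] y = 0 → E^[m] y ∈ M := by
    intro n
    induction n using Nat.strong_induction_on with
    | _ n ih =>
      intro m h
      rcases n with - | n
      · rw [show E^[m] y = 0 from h]
        exact M.zero_mem
      have h1 := hM m
      unfold pj at h1
      obtain ⟨N', rfl⟩ : ∃ N', N = N' + 1 := ⟨N - 1, by omega⟩
      rw [Finset.sum_range_succ'] at h1
      simp only [pow_zero, Nat.factorial_zero, Nat.cast_one, div_one, one_mul,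
        Function.iterate_zero, id] at h1
      refine (M.add_mem_iff_right (M.sum_mem fun p _ => ?_)).1 h1
      rw [← Function.iterate_add_apply]
      have h2 : E^[p + 1 + m] y ∈ M := by
        have h3 := ih n (Nat.lt_succ_self n) (p + 1 + m) (by
          have h4 : p + 1 + m + n = p + (m + (n + 1)) := by omega
          have h5 : ∀ q : ℕ, E^[q] (0 : K) = 0 := by
            intro q
            induction q with
            | zero => rfl
            | succ q ihq => rw [Function.iterate_succ_apply', ihq, map_zero]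
          rw [h4, Function.iterate_add_apply, h, h5])
        exact h3
      have h3 : (-1 : K) ^ (p + 1) / ((p + 1).factorial : K) * l ^ (p + 1) ∈ G :=
        G.mul_mem (G.div_mem (pow_mem (G.neg_mem G.one_mem) _) (G.natCast_mem _)) (pow_mem hlG _)
      have h4 := M.smul_mem ⟨_, h3⟩ h2
      rw [← mul_assoc]
      exact h4
  have := key n0 0 (by rwa [zero_add])
  exact this

end

end Pool.Agent.H892
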