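import Pool.Agent.H892.S6

/-!
The chain of fields of a system of solvable type.
-/

set_option autoImplicit false
set_option linter.unusedSectionVars false

open FF Pool.Agent.W602.GT Pool.Agent.W603.LV Pool.Agent.Y172 Pool.Agent.TH122.AB

namespace Pool.Agent.H892

section

variable {k K ι : Type} [Field k] [CharZero k] [Field K] [Algebra k K] [Fintype ι]
  {F F' : IntermediateField k K} {D : ι → Derivation k K K} {w : ι → ℕ}

/-- the next fields of the chain, with more information on the derivations -/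
theorem next2x (hs : NilSys2 F F' D w) {t : K} (htF : t ∉ F') (ht : ∀ i, D i t ∈ F) :
    ∃ D' : ι → Derivation k K K,
      NilSys2 (IntermediateField.adjoin k ((F : Set K) ∪ {t}))
        (IntermediateField.adjoin k ((F' : Set K) ∪ {t})) D' w ∧
      (∀ i, ∃ c : ι → K, (∀ l, c l ∈ F) ∧ ∀ x, D' i x = ∑ l, c l * D l x) ∧
      (∀ i, D i = 0 → D' i = 0) ∧ (∃ i, D i ≠ 0 ∧ D' i = 0) ∧
      ∃ (i0 : ι) (a : ι → K), (∀ i, a i ∈ F) ∧ (∀ i, a i ≠ 0 → w i0 ≤ w i) ∧
        (∀ i x, D' i x = D i x - a i * D i0 x) ∧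
        ∀ c : ι → K, ∑ l, c l * D l t = 0 → ∀ x, ∑ l, c l * D l x = ∑ l, c l * D' l x := by
  classical
  obtain ⟨G, hG⟩ : ∃ G, G = IntermediateField.adjoin k ((F : Set K) ∪ {t}) := ⟨_, rfl⟩
  obtain ⟨G', hG'⟩ : ∃ G', G' = IntermediateField.adjoin k ((F' : Set K) ∪ {t}) := ⟨_, rfl⟩
  have hFG : F ≤ G := by
    rw [hG]
    exact fun x hx => IntermediateField.subset_adjoin k _ (Or.inl hx)
  have hFG' : F' ≤ G' := by
    rw [hG']
    exact fun x hx => IntermediateField.subset_adjoin k _ (Or.inl hx)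
  have htG : t ∈ G := by
    rw [hG]
    exact IntermediateField.subset_adjoin k _ (Or.inr rfl)
  have htG' : t ∈ G' := by
    rw [hG']
    exact IntermediateField.subset_adjoin k _ (Or.inr rfl)
  have hGG' : G ≤ G' := by
    rw [hG, IntermediateField.adjoin_le_iff]
    rintro z (hz | hz)
    · exact hFG' (hs.le hz)
    · rw [Set.mem_singleton_iff] at hz
      rw [hz]
      exact htG'
  rw [← hG, ← hG']
  -- the pivot
  have hne : (Finset.univ.filter fun i => D i t ≠ 0).Nonempty := by
    by_contra hcon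
    rw [Finset.not_nonempty_iff_eq_empty] at hcon
    refine htF (hs.const t fun i => ?_)
    by_contra h
    have : i ∈ (Finset.univ.filter fun i => D i t ≠ 0) := by simpa using h
    rw [hcon] at this
    exact absurd this (Finset.notMem_empty i)
  obtain ⟨i0, hi0, hmin⟩ := Finset.exists_min_image _ w hne
  have hi0' : D i0 t ≠ 0 := by simpa using hi0
  have hmin' : ∀ i, D i t ≠ 0 → w i0 ≤ w i := fun i hi => hmin i (by simpa using hi)
  obtain ⟨a, ha⟩ : ∃ a : ι → K, ∀ i, a i = D i t / D i0 t := ⟨_, fun _ => rfl⟩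
  have haF : ∀ i, a i ∈ F := fun i => by rw [ha]; exact F.div_mem (ht i) (ht i0)
  have hai0 : a i0 = 1 := by rw [ha, div_self hi0']
  have ha0 : ∀ i, a i ≠ 0 → w i0 ≤ w i := fun i hi => hmin' i fun h => hi (by
    rw [ha, h, zero_div])
  obtain ⟨D', hD'⟩ : ∃ D' : ι → Derivation k K K, ∀ i, D' i = D i - a i • D i0 :=
    ⟨_, fun _ => rfl⟩
  have hD'x : ∀ i x, D' i x = D i x - a i * D i0 x := by
    intro i x
    rw [hD', Derivation.sub_apply, Derivation.smul_apply, smul_eq_mul]
  have hcomb : ∀ i, ∃ c : ι → K, (∀ l, c l ∈ F) ∧ ∀ x, D' i x = ∑ l, c l * D l x := by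
    intro i
    refine ⟨fun l => (if l = i then 1 else 0) - (if l = i0 then a i else 0), fun l => ?_,
      fun x => ?_⟩
    · refine F.sub_mem ?_ ?_
      · split_ifs
        · exact F.one_mem
        · exact F.zero_mem
      · split_ifs
        · exact haF i
        · exact F.zero_mem
    · rw [hD'x]
      simp only [sub_mul, ite_mul, one_mul, zero_mul, Finset.sum_sub_distrib, Finset.sum_ite_eq',
        Finset.mem_univ, if_true]
  have hkil := kil_of_comb hs.killsF hcomb
  have hnilp : ∀ x, Nilp D x → Nilp D' x := fun x ⟨n, hn⟩ => ⟨n, hkil n x hn⟩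
  have hD't : ∀ i, D' i t = 0 := fun i => by
    rw [hD'x, ha, div_mul_cancel₀ _ hi0', sub_self]
  have hkills' : ∀ i, ∀ f ∈ G', D' i f = 0 := by
    intro i
    have h1 : G' ≤ consts (D' i) := by
      rw [hG', IntermediateField.adjoin_le_iff]
      rintro f (hf | hf)
      · change D' i f = 0
        rw [hD'x, hs.kills i f hf, hs.kills i0 f hf, mul_zero, sub_zero]
      · rw [Set.mem_singleton_iff] at hf
        rw [hf]
        exact hD't i
    exact fun f hf => h1 hf
  -- combinations which kill `t`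
  have hre : ∀ c : ι → K, ∑ l, c l * D l t = 0 → ∀ x, ∑ l, c l * D l x = ∑ l, c l * D' l x := by
    intro c hc x
    have h1 : ∑ l, c l * a l = 0 := by
      have h2 : (∑ l, c l * a l) * D i0 t = 0 := by
        rw [Finset.sum_mul, ← hc]
        refine Finset.sum_congr rfl fun l _ => ?_
        rw [ha, mul_assoc, div_mul_cancel₀ _ hi0']
      exact (mul_eq_zero.1 h2).resolve_right hi0'
    have h2 : ∑ l, c l * D' l x = ∑ l, c l * D l x - (∑ l, c l * a l) * D i0 x := by
      rw [Finset.sum_mul, ← Finset.sum_sub_distrib]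
      refine Finset.sum_congr rfl fun l _ => ?_
      rw [hD'x]
      ring
    rw [h2, h1, zero_mul, sub_zero]
  have hbr : ∀ i j, D i (D j t) - D j (D i t) = 0 := fun i j => by
    rw [hs.killsF i _ (ht j), hs.killsF j _ (ht i), sub_zero]
  have hcomm : ∀ i j, ∃ c : ι → K, (∀ l, c l ∈ F) ∧ (∀ l, w j ≤ w l → c l = 0) ∧
      ∀ x, D i (D j x) - D j (D i x) = ∑ l, c l * D' l x := by
    intro i j
    obtain ⟨c, hcF, hc0, hc⟩ := hs.comm i j
    refine ⟨c, hcF, hc0, fun x => ?_⟩
    rw [hc, hre c (by rw [← hc, hbr])]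
  have hnil0 : ∀ (n : ℕ) (x : K), Kil D n x → (∀ i, D' i x = 0) →
      ∃ p : Polynomial F', x = Polynomial.aeval t p := by
    intro n
    induction n with
    | zero =>
      intro x hx _
      exact ⟨0, by rw [map_zero]; exact hx⟩
    | succ n ih =>
      intro x hx hx'
      obtain ⟨p, hp⟩ := ih (D i0 x) (hx i0) fun i => by
        obtain ⟨c, -, -, hc⟩ := hcomm i i0
        have h1 := hc x
        have h2 : D' i (D i0 x) = D i0 (D' i x) + (D i (D i0 x) - D i0 (D i x)) := by
          rw [hD'x, hD'x, map_sub, der_smul (hs.killsF i0) (haF i)]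
          ring
        rw [h2, h1, hx' i, map_zero, zero_add]
        exact Finset.sum_eq_zero fun l _ => by rw [hx' l, mul_zero]
      obtain ⟨P, hP⟩ := antider (hs.kills i0) (hs.le (ht i0)) hi0' p
      have h1 : x - Polynomial.aeval t P ∈ F' := by
        refine hs.const _ fun i => ?_
        have h2 : D i x = a i * D i0 x := by
          have := hx' i
          rw [hD'x, sub_eq_zero] at this
          exact this
        have h3 : D i (Polynomial.aeval t P) = a i * D i0 (Polynomial.aeval t P) := by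
          have h4 : D' i (Polynomial.aeval t P) = 0 := by
            refine hkills' i _ ?_
            rw [Polynomial.aeval_eq_sum_range]
            refine G'.sum_mem fun m _ => ?_
            rw [Algebra.smul_def]
            exact G'.mul_mem (hFG' (P.coeff m).2) (pow_mem htG' m)
          rw [hD'x, sub_eq_zero] at h4
          exact h4
        rw [map_sub, h2, h3, hP, ← hp, sub_self]
      refine ⟨P + Polynomial.C ⟨_, h1⟩, ?_⟩
      rw [map_add, Polynomial.aeval_C]
      change x = Polynomial.aeval t P + (x - Polynomial.aeval t P)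
      ring
  refine ⟨D', ⟨hGG', hkills', fun i j => ?_, fun x hx => ?_, fun x => ?_⟩, hcomb, fun i hi => ?_,
    ⟨i0, fun h => hi0' (by rw [h]; rfl), ?_⟩, i0, a, haF, ha0, hD'x, hre⟩
  · obtain ⟨c1, hc1F, hc10, hc1⟩ := hcomm i j
    obtain ⟨c2, hc2F, hc20, hc2⟩ := hcomm i i0
    obtain ⟨c3, hc3F, hc30, hc3⟩ : ∃ c : ι → K, (∀ l, c l ∈ F) ∧
        (∀ l, w j ≤ w l → a i * c l = 0) ∧ ∀ x, D j (D i0 x) - D i0 (D j x) =
          ∑ l, c l * D' l x := by
      by_cases hai : a i = 0
      · obtain ⟨c, hcF, hc0, hc⟩ := hcomm j i0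
        exact ⟨c, hcF, fun l _ => by rw [hai, zero_mul], hc⟩
      rcases Nat.lt_or_ge (w j) (w i0) with hw | hw
      · obtain ⟨c, hcF, hc0, hc⟩ := hcomm i0 j
        refine ⟨fun l => - c l, fun l => F.neg_mem (hcF l), fun l hl => by
          change a i * -(c l) = 0
          rw [hc0 l hl, neg_zero, mul_zero], fun x => ?_⟩
        rw [← neg_sub, hc x, ← Finset.sum_neg_distrib]
        exact Finset.sum_congr rfl fun l _ => by ring
      · obtain ⟨c, hcF, hc0, hc⟩ := hcomm j i0
        exact ⟨c, hcF, fun l hl => by rw [hc0 l (hw.trans hl), mul_zero], hc⟩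
    refine ⟨fun l => c1 l - a j * c2 l + a i * c3 l, fun l => ?_, fun l hl => ?_, fun x => ?_⟩
    · exact G.add_mem (G.sub_mem (hFG (hc1F l)) (G.mul_mem (hFG (haF j)) (hFG (hc2F l))))
        (G.mul_mem (hFG (haF i)) (hFG (hc3F l)))
    · change c1 l - a j * c2 l + a i * c3 l = 0
      rw [hc10 l hl, hc30 l hl]
      have h1 : a j * c2 l = 0 := by
        by_cases haj : a j = 0
        · rw [haj, zero_mul]
        · rw [hc20 l ((ha0 j haj).trans hl), mul_zero]
      rw [h1]
      ring
    · have h1 : D' i (D' j x) - D' j (D' i x) = (D i (D j x) - D j (D i x)) -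
          a j * (D i (D i0 x) - D i0 (D i x)) + a i * (D j (D i0 x) - D i0 (D j x)) := by
        simp only [hD'x, map_sub]
        rw [der_smul (hs.killsF i) (haF j), der_smul (hs.killsF i0) (haF j),
          der_smul (hs.killsF j) (haF i), der_smul (hs.killsF i0) (haF i)]
        ring
      rw [h1, hc1, hc2, hc3, Finset.mul_sum, Finset.mul_sum, ← Finset.sum_sub_distrib,
        ← Finset.sum_add_distrib]
      refine Finset.sum_congr rfl fun l _ => ?_
      ring
  · -- the constants
    obtain ⟨p, q, hp, hq, hq0, hpq⟩ := hs.frac x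
    obtain ⟨S, hS⟩ : ∃ S : Set K, ∀ s, s ∈ S ↔ Nilp D s ∧ Nilp D (s * x) :=
      ⟨{s | _}, fun _ => Iff.rfl⟩
    have hNc : ∀ c ∈ F, ∀ s, Nilp D s → Nilp D (c * s) := fun c hc s ⟨n, hn⟩ =>
      ⟨n, kil_smul hs.killsF hc n s hn⟩
    have hND' : ∀ i s, Nilp D s → Nilp D (D' i s) := by
      intro i s hs'
      rw [hD'x, sub_eq_add_neg]
      exact (hs'.der i).add (hNc _ (haF i) _ (hs'.der i0)).neg
    have hSst : ∀ i, ∀ s ∈ S, D' i s ∈ S := by
      intro i s hs'
      rw [hS] at hs' ⊢
      refine ⟨hND' i s hs'.1, ?_⟩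
      have h1 : D' i s * x = D' i (s * x) := by
        rw [Derivation.leibniz, hx i, smul_zero, zero_add, smul_eq_mul, mul_comm]
      rw [h1]
      exact hND' i _ hs'.2
    have hqS : q ∈ S := by
      rw [hS]
      refine ⟨hq, ?_⟩
      rw [hpq, mul_div_cancel₀ _ hq0]
      exact hp
    obtain ⟨nq, hnq⟩ := hq
    obtain ⟨c, hcS, hc0, hcD⟩ := exists_last (D := D') S hSst nq q hqS hq0 (hkil nq q hnq)
    rw [hS] at hcS
    obtain ⟨⟨n1, hn1⟩, ⟨n2, hn2⟩⟩ := hcS
    obtain ⟨p1, hp1⟩ := hnil0 n1 c hn1 hcD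
    obtain ⟨p2, hp2⟩ := hnil0 n2 (c * x) hn2 fun i => by
      rw [Derivation.leibniz, hx i, hcD i, smul_zero, smul_zero, add_zero]
    have hpF : ∀ p : Polynomial F', Polynomial.aeval t p ∈ G' := by
      intro P
      rw [Polynomial.aeval_eq_sum_range]
      refine G'.sum_mem fun m _ => ?_
      rw [Algebra.smul_def]
      exact G'.mul_mem (hFG' (P.coeff m).2) (pow_mem htG' m)
    have h1 : x = (c * x) / c := by rw [mul_div_cancel_left₀ _ hc0]
    rw [h1]
    refine G'.div_mem ?_ ?_
    · rw [hp2]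
      exact hpF p2
    · rw [hp1]
      exact hpF p1
  · obtain ⟨p, q, hp, hq, hq0, hpq⟩ := hs.frac x
    exact ⟨p, q, hnilp p hp, hnilp q hq, hq0, hpq⟩
  · have h1 : a i = 0 := by rw [ha, hi, Derivation.zero_apply, zero_div]
    rw [hD', hi, h1, zero_smul, sub_zero]
  · rw [hD', hai0, one_smul, sub_self]

end

section

variable {k K ι κ : Type} [Field k] [CharZero k] [Field K] [Algebra k K] [Fintype ι]
  {F : IntermediateField k K} {D : ι → Derivation k K K} {w : ι → ℕ}
  {T : κ → Derivation k K K}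

/-- **Step A of the chain.** -/
theorem SolSys.nextA (hs : SolSys F D w T) {l : K} {μ : κ → ℤ} (hμ : Wt T μ l) (hl0 : l ≠ 0)
    {a1 : κ} (ha1 : μ a1 ≠ 0) :
    ∃ (T' : κ → Derivation k K K) (G : IntermediateField k K), SolSys G D w T' ∧ F ≤ G ∧
      (∀ a x, T' a x = (μ a1 : K) * T a x - (μ a : K) * T a1 x) ∧
      (∀ x, x ∈ G ↔ x ∈ Cst D ∧ ∀ a, T' a x = 0) ∧
      (∀ a, T a = 0 → T' a = 0) ∧ (∃ a, T a ≠ 0 ∧ T' a = 0) ∧
      ∀ (ν : κ → ℤ) (z : K), Wt T ν z → z ∈ Hs G T' := by
  classical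
  have hcK : CharZero K := charZero_of_injective_algebraMap (algebraMap k K).injective
  obtain ⟨T', hT'd⟩ : ∃ T' : κ → Derivation k K K, ∀ a, T' a = (μ a1 : K) • T a -
    (μ a : K) • T a1 := ⟨_, fun _ => rfl⟩
  have hT' : ∀ a x, T' a x = (μ a1 : K) * T a x - (μ a : K) * T a1 x := by
    intro a x
    rw [hT'd, Derivation.sub_apply, Derivation.smul_apply, Derivation.smul_apply, smul_eq_mul,
      smul_eq_mul]
  have hcs : ∀ (E : Derivation k K K) (m : ℤ) (x : K), E ((m : K) * x) = (m : K) * E x := by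
    intro E m x
    rw [E.leibniz, Derivation.map_intCast, smul_zero, add_zero, smul_eq_mul]
  obtain ⟨G, hG⟩ : ∃ G : IntermediateField k K, ∀ x, x ∈ G ↔ x ∈ Cst D ∧ ∀ a, T' a x = 0 := by
    refine ⟨{
      carrier := {x | x ∈ Cst D ∧ ∀ a, T' a x = 0}
      mul_mem' := fun hx hy => ⟨(Cst D).mul_mem hx.1 hy.1, fun a =>
        (consts (T' a)).mul_mem (hx.2 a) (hy.2 a)⟩
      one_mem' := ⟨(Cst D).one_mem, fun a => (consts (T' a)).one_mem⟩
      add_mem' := fun hx hy => ⟨(Cst D).add_mem hx.1 hy.1, fun a =>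
        (consts (T' a)).add_mem (hx.2 a) (hy.2 a)⟩
      zero_mem' := ⟨(Cst D).zero_mem, fun a => (consts (T' a)).zero_mem⟩
      algebraMap_mem' := fun r => ⟨(Cst D).algebraMap_mem r, fun a =>
        (consts (T' a)).algebraMap_mem r⟩
      inv_mem' := fun _ hx => ⟨(Cst D).inv_mem hx.1, fun a =>
        (consts (T' a)).inv_mem (hx.2 a)⟩ }, fun x => Iff.rfl⟩
  have hFG : F ≤ G := fun f hf => (hG f).2 ⟨hs.le hf, fun a => by
    rw [hT', hs.kT a f hf, hs.kT a1 f hf, mul_zero, mul_zero, sub_zero]⟩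
  have hφ : ∀ {ν : κ → ℤ} {z : K}, Wt T ν z → Wt T' (fun a => μ a1 * ν a - μ a * ν a1) z := by
    intro ν z hz a
    rw [hT', hz a, hz a1]
    push_cast
    ring
  refine ⟨T', G, ⟨fun i f hf => mem_cst.1 ((hG f).1 hf).1 i, fun a f hf => ((hG f).1 hf).2 a,
    fun i j => lw_le hFG (hs.comm i j), fun a b x => ?_, fun a i => ?_,
    fun x hx hx' => (hG x).2 ⟨mem_cst.2 hx, hx'⟩, ?_⟩, hFG, hT', hG, fun a ha => ?_,
    ⟨a1, ?_, ?_⟩, fun ν z hz => (hφ hz).mem⟩
  · rw [hT', hT', hT', hT']
    rw [map_sub, map_sub, map_sub, map_sub]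
    simp only [hcs]
    rw [hs.tt a b x, hs.tt a a1 x, hs.tt a1 b x]
    ring
  · obtain ⟨c, h1, h2, h3⟩ := mem_lw.1 (hs.tD a i)
    obtain ⟨c', h1', h2', h3'⟩ := mem_lw.1 (hs.tD a1 i)
    refine mem_lw.2 ⟨fun l => (μ a1 : K) * c l - (μ a : K) * c' l, fun l => G.sub_mem
      (G.mul_mem (G.intCast_mem _) (hFG (h1 l))) (G.mul_mem (G.intCast_mem _) (hFG (h1' l))),
      fun l hl => by
        beta_reduce
        rw [h2 l hl, h2' l hl, mul_zero, mul_zero, sub_zero], fun x => ?_⟩
    have h4 := h3 x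
    have h5 := h3' x
    rw [brk_apply] at h4 h5 ⊢
    rw [hT', hT', map_sub, hcs, hcs]
    have h6 : ∑ l, ((μ a1 : K) * c l - (μ a : K) * c' l) * D l x =
        (μ a1 : K) * ∑ l, c l * D l x - (μ a : K) * ∑ l, c' l * D l x := by
      rw [Finset.mul_sum, Finset.mul_sum, ← Finset.sum_sub_distrib]
      exact Finset.sum_congr rfl fun l _ => by ring
    rw [h6, ← h4, ← h5]
    ring
  · obtain ⟨X, hX, htop⟩ := hs.gen
    refine ⟨X, fun x hx => ⟨(hX x hx).1, ?_⟩, ?_⟩
    · obtain ⟨ν, hν⟩ := (hX x hx).2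
      exact ⟨_, hφ hν⟩
    · rw [eq_top_iff, ← htop]
      refine IntermediateField.adjoin.mono k _ _ ?_
      exact Set.union_subset_union_left _ fun z hz => hFG hz
  · have h1 : μ a = 0 := by
      have h2 := hμ a
      rw [ha, Derivation.zero_apply] at h2
      have h3 := (mul_eq_zero.1 h2.symm).resolve_right hl0
      exact_mod_cast h3
    rw [hT'd, ha, h1, Int.cast_zero, zero_smul, smul_zero, sub_zero]
  · intro h
    have h2 := hμ a1
    rw [h, Derivation.zero_apply] at h2
    have h3 := (mul_eq_zero.1 h2.symm).resolve_right hl0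
    exact ha1 (by exact_mod_cast h3)
  · rw [hT'd, sub_self]

/-- **Step B of the chain.** -/
theorem SolSys.nextB (hs : SolSys F D w T) {l : K} {μ : κ → ℤ} (hμ : Wt T μ l)
    (hlC : l ∉ Cst D) (hl : ∀ i, D i l ∈ F) {E : Derivation k K K} (hEl : E l = 1)
    (hE : E ∈ Submodule.span F (Set.range D)) (hEw : Wd T (-μ) E) :
    ∃ (D' : ι → Derivation k K K) (T' : κ → Derivation k K K) (G : IntermediateField k K),
      G = IntermediateField.adjoin k ((F : Set K) ∪ {l}) ∧ SolSys G D' w T' ∧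
      (∀ i, ∃ c : ι → K, (∀ l, c l ∈ F) ∧ ∀ x, D' i x = ∑ l, c l * D l x) ∧
      (∀ a x, T' a x = T a x - (μ a : K) * l * E x) ∧
      (∀ i, D i = 0 → D' i = 0) ∧ (∃ i, D i ≠ 0 ∧ D' i = 0) ∧ (∀ a, T a = 0 → T' a = 0) ∧
      ∀ (ν : κ → ℤ) (z : K), Nilp D z → Wt T ν z → z ∈ Hs G T' := by
  classical
  have hcK : CharZero K := charZero_of_injective_algebraMap (algebraMap k K).injective
  obtain ⟨D', hs', hcomb, hz, hdec, i0, b, hbF, hb0, hD'x, hre⟩ := next2x hs.nil hlC hl
  obtain ⟨G, hG⟩ : ∃ G, G = IntermediateField.adjoin k ((F : Set K) ∪ {l}) := ⟨_, rfl⟩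
  obtain ⟨G', hG'⟩ : ∃ G', G' = IntermediateField.adjoin k ((Cst D : Set K) ∪ {l}) := ⟨_, rfl⟩
  rw [← hG, ← hG'] at hs'
  have hFG : F ≤ G := by
    rw [hG]
    exact fun x hx => IntermediateField.subset_adjoin k _ (Or.inl hx)
  have hlG : l ∈ G := by
    rw [hG]
    exact IntermediateField.subset_adjoin k _ (Or.inr rfl)
  have hl0 : l ≠ 0 := by
    rintro rfl
    exact hlC (Cst D).zero_mem
  have hEF : ∀ f ∈ F, E f = 0 := kill_span (by
    rintro _ ⟨i, rfl⟩
    exact hs.kD i) hE
  have hEC : ∀ f ∈ Cst D, E f = 0 := by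
    intro f hf
    clear hEw hEF hEl
    induction hE using Submodule.span_induction with
    | mem E hE =>
      obtain ⟨i, rfl⟩ := hE
      exact mem_cst.1 hf i
    | zero => rfl
    | add E E' _ _ h h' => rw [Derivation.add_apply, h, h', add_zero]
    | smul c E _ h => rw [fsmul_apply, h, mul_zero]
  have hEnilp : ∀ z, Nilp D z → Nilp D (E z) := by
    intro z hz
    clear hEw hEF hEl hEC
    induction hE using Submodule.span_induction with
    | mem E hE =>
      obtain ⟨i, rfl⟩ := hE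
      exact hz.der i
    | zero => exact nilp_zero
    | add E E' _ _ h h' => exact h.add h'
    | smul c E _ h => exact hs.nilpF c.2 h
  have hEkil : ∀ (n : ℕ) (z : K), Kil D n z → Kil D (n - 1) (E z) := by
    intro n z hz
    clear hEw hEF hEl hEC hEnilp
    induction hE using Submodule.span_induction with
    | mem E hE =>
      obtain ⟨i, rfl⟩ := hE
      rcases n with - | n
      · rw [show z = 0 from hz, map_zero]
        exact Kil.zero _
      · exact hz i
    | zero => exact Kil.zero _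
    | add E E' _ _ h h' => exact h.add h'
    | smul c E _ h => exact kil_smul hs.kD c.2 _ _ h
  have hEit : ∀ (n : ℕ) (z : K), Kil D n z → E^[n] z = 0 := by
    intro n
    induction n with
    | zero => exact fun z hz => hz
    | succ n ih =>
      intro z hz
      rw [Function.iterate_succ_apply]
      exact ih _ (hEkil _ z hz)
  obtain ⟨T', hT'd⟩ : ∃ T' : κ → Derivation k K K, ∀ a, T' a = T a - ((μ a : K) * l) • E :=
    ⟨_, fun _ => rfl⟩
  have hT' : ∀ a x, T' a x = T a x - (μ a : K) * l * E x := by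
    intro a x
    rw [hT'd, Derivation.sub_apply, Derivation.smul_apply, smul_eq_mul]
  have hT'l : ∀ a, T' a l = 0 := fun a => by
    rw [hT', hμ a, hEl, mul_one, sub_self]
  have hcs : ∀ (E : Derivation k K K) (m : ℤ) (x : K), E ((m : K) * x) = (m : K) * E x := by
    intro E m x
    rw [E.leibniz, Derivation.map_intCast, smul_zero, add_zero, smul_eq_mul]
  have hTlE : ∀ a x, T a (l * E x) = l * E (T a x) := by
    intro a x
    rw [(T a).leibniz, hμ a, smul_eq_mul, smul_eq_mul, hEw.app, Pi.neg_apply]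
    push_cast
    ring
  have hkT' : ∀ a, ∀ f ∈ G, T' a f = 0 := by
    intro a
    have h1 : G ≤ consts (T' a) := by
      rw [hG, IntermediateField.adjoin_le_iff]
      rintro f (hf | hf)
      · change T' a f = 0
        rw [hT', hs.kT a f hf, hEF f hf, mul_zero, sub_zero]
      · rw [Set.mem_singleton_iff] at hf
        rw [hf]
        exact hT'l a
    exact fun f hf => h1 hf
  have hkD' : ∀ i, ∀ f ∈ G, D' i f = 0 := fun i f hf => hs'.kills i f (hs'.le hf)
  -- the projections
  have hEw' : ∀ (m : ℕ) (ν : κ → ℤ) (z : K), Wt T ν z → Wt T (ν - (m : ℤ) • μ) (E^[m] z) := by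
    intro m
    induction m with
    | zero =>
      intro ν z hz
      rw [Nat.cast_zero, zero_smul, sub_zero]
      exact hz
    | succ m ih =>
      intro ν z hz
      rw [Function.iterate_succ_apply]
      have h1 := ih _ _ (hEw.wt hz)
      have h2 : -μ + ν - (m : ℤ) • μ = ν - ((m + 1 : ℕ) : ℤ) • μ := by
        push_cast
        rw [add_smul, one_smul]
        abel
      rwa [h2] at h1
  have hpjw : ∀ (N : ℕ) (ν : κ → ℤ) (z : K), Wt T ν z → E^[N] z = 0 → Wt T' ν (pj E l N z) := by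
    intro N ν z hz hN a
    have h1 : Wt T ν (pj E l N z) := by
      unfold pj
      refine wt_sum _ fun p _ => ?_
      have h2 := (hμ.pow p).mul (hEw' p ν z hz)
      have h3 : p • μ + (ν - (p : ℤ) • μ) = ν := by
        rw [natCast_zsmul]
        abel
      rw [h3] at h2
      refine h2.cmul hs.kT ?_
      exact F.div_mem (pow_mem (F.neg_mem F.one_mem) _) (F.natCast_mem _)
    rw [hT', pj_kill hEl N z hN, mul_zero, sub_zero]
    exact h1 a
  have hEz : ∀ q : ℕ, E^[q] (0 : K) = 0 := by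
    intro q
    induction q with
    | zero => rfl
    | succ q ihq => rw [Function.iterate_succ_apply', ihq, map_zero]
  have hEitm : ∀ (N m : ℕ) (z : K), E^[N] z = 0 → E^[N] (E^[m] z) = 0 := by
    intro N m z hz
    rw [← Function.iterate_add_apply, add_comm, Function.iterate_add_apply, hz, hEz]
  refine ⟨D', T', G, hG, ⟨hkD', hkT', fun i j => ?_, fun a b x => ?_, fun a i => ?_,
    fun x hx hx' => ?_, ?_⟩, hcomb, hT', hz, hdec, fun a ha => ?_, fun ν z hz hzw => ?_⟩
  · obtain ⟨c, h1, h2, h3⟩ := hs'.comm i j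
    exact mem_lw.2 ⟨c, h1, h2, fun x => by rw [brk_apply]; exact h3 x⟩
  · have h1 : ∀ a b x, T' a (T' b x) = T a (T b x) - (μ b : K) * (l * E (T a x)) -
        (μ a : K) * (l * E (T b x)) + (μ a : K) * (μ b : K) * (l * E (l * E x)) := by
      intro a b x
      rw [hT', hT', map_sub, map_sub, mul_assoc, hcs, hcs, hTlE]
      ring
    rw [h1, h1, hs.tt a b x]
    ring
  · -- the brackets with `T'`
    obtain ⟨P1, hP1, hP1x⟩ : ∃ P1 ∈ Lw F D w (w i + 1), ∀ x, P1 x = T a (D' i x) - D' i (T a x) := by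
      by_cases hbi : b i = 0
      · refine ⟨⁅T a, D i⁆, hs.tD a i, fun x => ?_⟩
        rw [brk_apply, hD'x, hD'x, hbi, zero_mul, zero_mul, sub_zero, sub_zero]
      · refine ⟨⁅T a, D i⁆ - (⟨b i, hbF i⟩ : F) • ⁅T a, D i0⁆, Submodule.sub_mem _ (hs.tD a i)
          (Submodule.smul_mem _ _ (lw_mono (Nat.succ_le_succ (hb0 i hbi)) (hs.tD a i0))),
          fun x => ?_⟩
        rw [Derivation.sub_apply, fsmul_apply, brk_apply, brk_apply, hD'x, hD'x, map_sub,
          der_smul (hs.kT a) (hbF i)]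
        change _ - b i * _ = _
        ring
    obtain ⟨P2, hP2, hP2x⟩ : ∃ P2 ∈ Lw F D w (w i), ∀ x, P2 x = E (D' i x) - D' i (E x) := by
      have h1 : ∀ m, ⁅E, D m⁆ ∈ Lw F D w (w m) := fun m =>
        brk_mem (s := Set.range D) (t := {D m}) (F := F) (by
          rintro _ ⟨i, rfl⟩
          exact hs.kD i) (by
          rintro _ rfl
          exact hs.kD m) (by
          rintro _ ⟨i, rfl⟩ _ rfl
          exact hs.comm i m) hE (Submodule.subset_span rfl)
      by_cases hbi : b i = 0
      · refine ⟨⁅E, D i⁆, h1 i, fun x => ?_⟩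
        rw [brk_apply, hD'x, hD'x, hbi, zero_mul, zero_mul, sub_zero, sub_zero]
      · refine ⟨⁅E, D i⁆ - (⟨b i, hbF i⟩ : F) • ⁅E, D i0⁆, Submodule.sub_mem _ (h1 i)
          (Submodule.smul_mem _ _ (lw_mono (hb0 i hbi) (h1 i0))), fun x => ?_⟩
        rw [Derivation.sub_apply, fsmul_apply, brk_apply, brk_apply, hD'x, hD'x, map_sub,
          der_smul hEF (hbF i)]
        change _ - b i * _ = _
        ring
    obtain ⟨c, h1, h2, h3⟩ := mem_lw.1 hP1
    obtain ⟨c', h1', h2', h3'⟩ := mem_lw.1 hP2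
    have hD'l : ∀ i, D' i l = 0 := fun i => hkD' i l hlG
    have hbr : ∀ x, ⁅T' a, D' i⁆ x = ∑ m, (c m - (μ a : K) * l * c' m) * D m x := by
      intro x
      have h4 : ∑ m, (c m - (μ a : K) * l * c' m) * D m x = ∑ m, c m * D m x -
          (μ a : K) * l * ∑ m, c' m * D m x := by
        rw [Finset.mul_sum, ← Finset.sum_sub_distrib]
        exact Finset.sum_congr rfl fun m _ => by ring
      rw [h4, ← h3, ← h3', hP1x, hP2x, brk_apply, hT', hT', map_sub]
      have h5 : D' i ((μ a : K) * l * E x) = (μ a : K) * l * D' i (E x) := by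
        rw [mul_assoc, hcs, (D' i).leibniz, hD'l, smul_zero, add_zero, smul_eq_mul, mul_assoc]
      rw [h5]
      ring
    refine mem_lw.2 ⟨fun m => c m - (μ a : K) * l * c' m, fun m => G.sub_mem (hFG (h1 m))
      (G.mul_mem (G.mul_mem (G.intCast_mem _) hlG) (hFG (h1' m))), fun m hm => ?_, fun x => ?_⟩
    · beta_reduce
      rw [h2 m hm, h2' m (by omega), mul_zero, sub_zero]
    · rw [hbr, hre]
      rw [← hbr, brk_apply, hD'l, hT'l, map_zero, map_zero, sub_zero]
  · -- the constants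
    have h1 : x ∈ G' := hs'.const x hx
    rw [hG'] at h1
    rw [hG]
    refine constB (T' := T') hs.le ?_ (fun a c hc => ?_) (fun c hc hcT => ?_) hT'l h1 hx'
    · intro halg
      apply hlC
      exact mem_cst.2 fun i => kills_alg (M := Cst D) (fun f hf => mem_cst.1 hf i) halg
    · rw [hT', hEC c hc, mul_zero, sub_zero]
      exact hs.cstT a hc
    · refine hs.const c (mem_cst.1 hc) fun a => ?_
      have := hcT a
      rwa [hT', hEC c hc, mul_zero, sub_zero] at this
  · -- the generators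
    obtain ⟨X, hX, htop⟩ := hs.gen
    choose! nx hnx using fun x (hx : x ∈ X) => (hX x hx).1
    choose! νx hνx using fun x (hx : x ∈ X) => (hX x hx).2
    obtain ⟨N, hN, hN0⟩ : ∃ N : ℕ, (∀ x ∈ X, E^[N] x = 0) ∧ N ≠ 0 := by
      refine ⟨X.sup nx + 1, fun x hx => ?_, by omega⟩
      exact hEit _ _ ((hnx x hx).mono ((Finset.le_sup hx).trans (Nat.le_succ _)))
    refine ⟨(X ×ˢ Finset.range N).image fun p => pj E l N (E^[p.2] p.1), fun z hz => ?_, ?_⟩
    · obtain ⟨⟨x, m⟩, hxm, rfl⟩ := Finset.mem_image.1 hz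
      have hx := (Finset.mem_product.1 hxm).1
      beta_reduce
      refine ⟨?_, _, hpjw N _ _ (hEw' m _ _ (hνx x hx)) (hEitm N m x (hN x hx))⟩
      unfold pj
      have hn : ∀ m : ℕ, Nilp D (E^[m] x) := by
        intro m
        induction m with
        | zero => exact (hX x hx).1
        | succ m ih =>
          rw [Function.iterate_succ_apply']
          exact hEnilp _ ih
      refine (nilRing D').sum_mem fun p _ => ?_
      have h1 : Nilp D' (l ^ p) := nilp_const fun i => hkD' i _ (pow_mem hlG p)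
      have h2 : Nilp D' (E^[p] (E^[m] x)) := by
        rw [← Function.iterate_add_apply]
        obtain ⟨q, hq⟩ := hn (p + m)
        exact ⟨q, kil_of_comb hs.kD hcomb q _ hq⟩
      have h3 : Nilp D' ((-1 : K) ^ p / (p.factorial : K)) := nilp_const fun i => hkD' i _
        (G.div_mem (pow_mem (G.neg_mem G.one_mem) _) (G.natCast_mem _))
      exact h3.mul (h1.mul h2)
    · obtain ⟨M, hM⟩ : ∃ M : IntermediateField k K, M = IntermediateField.adjoin k ((G : Set K) ∪
          (((X ×ˢ Finset.range N).image fun p => pj E l N (E^[p.2] p.1) : Finset K) : Set K)) :=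
        ⟨_, rfl⟩
      rw [← hM]
      have hGM : G ≤ M := by
        rw [hM]
        exact fun x hx => IntermediateField.subset_adjoin k _ (Or.inl hx)
      have hpM : ∀ x ∈ X, ∀ m, pj E l N (E^[m] x) ∈ M := by
        intro x hx m
        by_cases hm : m < N
        · rw [hM]
          refine IntermediateField.subset_adjoin k _ (Or.inr ?_)
          rw [Finset.mem_coe]
          exact Finset.mem_image.2 ⟨(x, m), Finset.mem_product.2 ⟨hx, Finset.mem_range.2 hm⟩, rfl⟩
        · have h1 : E^[m] x = 0 := by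
            obtain ⟨e, rfl⟩ : ∃ e, m = e + N := ⟨m - N, by omega⟩
            rw [Function.iterate_add_apply, hN x hx, hEz]
          rw [h1]
          unfold pj
          refine M.sum_mem fun p _ => ?_
          rw [hEz, mul_zero, mul_zero]
          exact M.zero_mem
      obtain ⟨M', hM'⟩ : ∃ M' : Submodule G K, ∀ x, x ∈ M' ↔ x ∈ M := by
        refine ⟨{
          carrier := {x | x ∈ M}
          add_mem' := fun ha hb => M.add_mem ha hb
          zero_mem' := M.zero_mem
          smul_mem' := fun a s hs' => by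
            rw [Algebra.smul_def]
            exact M.mul_mem (hGM a.2) hs' }, fun s => Iff.rfl⟩
      rw [eq_top_iff, ← htop, IntermediateField.adjoin_le_iff]
      rintro x (hx | hx)
      · exact hGM (hFG hx)
      · exact (hM' x).1 (pj_mem (M := M') hlG (fun m => (hM' _).2 (hpM x hx m)) hN0 (hN x hx))
  · have h1 : μ a = 0 := by
      have h2 := hμ a
      rw [ha, Derivation.zero_apply] at h2
      have h3 := (mul_eq_zero.1 h2.symm).resolve_right hl0
      exact_mod_cast h3
    rw [hT'd, ha, h1, Int.cast_zero, zero_mul, zero_smul, sub_zero]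
  · obtain ⟨n, hn⟩ := hz
    have h1 : E^[n + 1] z = 0 := hEit _ _ (hn.mono (Nat.le_succ n))
    exact pj_mem (M := Hs G T') (N := n + 1) hlG
      (fun m => (hpjw _ _ _ (hEw' m _ _ hzw) (hEitm _ m z h1)).mem) (Nat.succ_ne_zero n) h1

end

end Pool.Agent.H892
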