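import Pool.Agent.H892.S7

/-!
The chain of fields of a system of solvable type.
-/

set_option autoImplicit false
set_option linter.unusedSectionVars false

open FF Pool.Agent.W602.GT Pool.Agent.W603.LV Pool.Agent.Y172 Pool.Agent.TH122.AB

namespace Pool.Agent.H892

section

variable {k K ι κ : Type} [Field k] [CharZero k] [Field K] [Algebra k K] [Fintype ι]
  {F G : IntermediateField k K} {D : ι → Derivation k K K} {w : ι → ℕ}
  {T : κ → Derivation k K K}

theorem span_stable {E : Derivation k K K} (hE : ∀ f ∈ F, E f = 0) {W : Set K}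
    (h : ∀ x ∈ W, E x ∈ Submodule.span F W) : ∀ x ∈ Submodule.span F W,
      E x ∈ Submodule.span F W := by
  intro x hx
  induction hx using Submodule.span_induction with
  | mem x hx => exact h x hx
  | zero => rw [map_zero]; exact Submodule.zero_mem _
  | add x y _ _ h h' => rw [map_add]; exact Submodule.add_mem _ h h'
  | smul a x _ h =>
    rw [Algebra.smul_def]
    change E ((a : K) * x) ∈ _
    rw [der_smul hE a.2]
    exact Submodule.smul_mem _ a h

theorem log_span {v : Place k K} (hv : Triv F v) {s : Set (Derivation k K K)}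
    (hs : ∀ E ∈ s, DerLog v E) {E : Derivation k K K} (hE : E ∈ Submodule.span F s) :
    DerLog v E := by
  induction hE using Submodule.span_induction with
  | mem E hE => exact hs E hE
  | zero =>
    intro f
    rw [Derivation.zero_apply, zero_div]
    exact v.reg_zero
  | add E E' _ _ h h' =>
    intro f
    rw [Derivation.add_apply, add_div]
    exact Og.add (h f) (h' f)
  | smul c E _ h =>
    intro f
    rw [fsmul_apply, mul_div_assoc]
    have h1 : Og v 0 (E f / f) := h f
    have h2 := (hv.og c).mul h1
    rwa [zero_add] at h2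

theorem reg_span {v : Place k K} (hv : Triv F v) {s : Set (Derivation k K K)}
    (hs : ∀ E ∈ s, DerReg v E) {E : Derivation k K K} (hE : E ∈ Submodule.span F s) :
    DerReg v E := by
  induction hE using Submodule.span_induction with
  | mem E hE => exact hs E hE
  | zero => exact fun f _ => v.reg_zero
  | add E E' _ _ h h' =>
    intro f hf
    rw [Derivation.add_apply]
    exact Og.add (h f hf) (h' f hf)
  | smul c E _ h =>
    intro f hf
    rw [fsmul_apply]
    have h1 : Og v 0 (E f) := h f hf
    have h2 := (hv.og c).mul h1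
    rwa [zero_add] at h2

theorem span_app {s : Set (Derivation k K K)} {N : Submodule F K} {x : K}
    (h : ∀ E ∈ s, E x ∈ N) {E : Derivation k K K} (hE : E ∈ Submodule.span F s) : E x ∈ N := by
  induction hE using Submodule.span_induction with
  | mem E hE => exact h E hE
  | zero => exact N.zero_mem
  | add E E' _ _ h h' => exact N.add_mem h h'
  | smul c E _ h => exact N.smul_mem c h

theorem span_memF {s : Set (Derivation k K K)} {x : K}
    (h : ∀ E ∈ s, E x ∈ F) {E : Derivation k K K} (hE : E ∈ Submodule.span F s) : E x ∈ F := by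
  induction hE using Submodule.span_induction with
  | mem E hE => exact h E hE
  | zero => exact F.zero_mem
  | add E E' _ _ h h' => exact F.add_mem h h'
  | smul c E _ h => exact F.mul_mem c.2 h

/-- **The chain.** -/
theorem chain3 [Finite κ] {𝔸 : IntermediateField k K} (h𝔸 : Closed 𝔸) {Pl : Set (Place k K)}
    (hPlf : ∀ x : K, x ≠ 0 → {v | v ∈ Pl ∧ v.ord x ≠ 0}.Finite) (𝒲 : Set (Set K)) :
    ∀ (n : ℕ) (F : IntermediateField k K) (D : ι → Derivation k K K)
      (T : κ → Derivation k K K),
      SolSys F D w T → F ≤ 𝔸 →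
      (∀ W ∈ 𝒲, ∀ i, ∀ x ∈ W, D i x ∈ Submodule.span F W) →
      (∀ W ∈ 𝒲, ∀ a, ∀ x ∈ W, T a x ∈ Submodule.span F W) →
      (∀ W ∈ 𝒲, ∀ x ∈ W, x ∈ Hs F T) →
      (∀ W ∈ 𝒲, ∀ x ∈ W, Nilp D x) →
      (∀ v ∈ Pl, Triv F v → ∀ i, DerReg v (D i)) →
      (∀ v ∈ Pl, Triv F v → ∀ a, DerReg v (T a)) →
      (∀ W ∈ 𝒲, ∃ c : Place k K → ℤ, ∀ v ∈ Pl, Triv F v → ∀ x ∈ W, Og v (c v) x) →
      (∀ F₁ : IntermediateField k K, F ≤ F₁ → F₁ ≤ 𝔸 → ∀ t : K,
        (∀ v ∈ Pl, Triv F₁ v → v.Reg t) → t ∈ 𝔸) →
      {i | D i ≠ 0}.ncard + {a | T a ≠ 0}.ncard = n →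
      ∃ F₁ : IntermediateField k K, F ≤ F₁ ∧ F₁ ≤ 𝔸 ∧
        ∀ W ∈ 𝒲, FiniteDimensional F₁ (Submodule.span F₁ W) := by
  classical
  intro n
  induction n using Nat.strong_induction_on with
  | _ n ih =>
    intro F D T hs hF hst hstT hH hnil hreg hregT hbd hcl hn
    by_cases hall : ∀ W ∈ 𝒲, FiniteDimensional F (Submodule.span F W)
    · exact ⟨F, le_rfl, hF, hall⟩
    push Not at hall
    obtain ⟨W, hW, hinf⟩ := hall
    obtain ⟨ι', _, D2, w2, al, hs2, hal, hD2, hD2'⟩ := hs.hom
    have hcomb2 : ∀ i, ∃ c : ι → K, (∀ l, c l ∈ F) ∧ ∀ x, D2 i x = ∑ l, c l * D l x := by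
      intro i
      obtain ⟨N, hN⟩ : ∃ N, ∀ l, w l < N := ⟨Finset.univ.sup w + 1, fun l =>
        Nat.lt_succ_of_le (Finset.le_sup (Finset.mem_univ l))⟩
      have h1 : D2 i ∈ Lw F D w N := by
        refine Submodule.span_mono ?_ (hD2 i)
        rintro _ ⟨l, rfl⟩
        exact ⟨l, hN l, rfl⟩
      obtain ⟨c, h1, -, h3⟩ := mem_lw.1 h1
      exact ⟨c, h1, h3⟩
    have hstW := fun i => span_stable (hs.kD i) (hst W hW i)
    have hstTW := fun a => span_stable (hs.kT a) (hstT W hW a)
    obtain ⟨c, hc⟩ := hbd W hW
    have hnilW : ∀ x ∈ Submodule.span F W, Nilp D x := by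
      intro x hx
      induction hx using Submodule.span_induction with
      | mem x hx => exact hnil W hW x hx
      | zero => exact nilp_zero
      | add x y _ _ h h' => exact h.add h'
      | smul a x _ h =>
        rw [Algebra.smul_def]
        exact hs.nilpF a.2 h
    have hWle : Submodule.span F W ≤ Hs F T := Submodule.span_le.2 fun x hx => hH W hW x hx
    obtain ⟨l, hlF, ⟨μ, hμ⟩, hlD2, hlv⟩ := thmE3 hs2 hal
      (V := {v | v ∈ Pl ∧ Triv F v ∧ (∀ i, DerLog v (D i)) ∧ ∀ a, DerLog v (T a)})
      (fun v hv => hv.2.1)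
      (fun v hv i => log_span hv.2.1 (by
        rintro _ ⟨i, rfl⟩
        exact hv.2.2.1 i) (hD2 i))
      (fun v hv => hv.2.2.2) (fun x hx => (hPlf x hx).subset (by
        rintro v ⟨hv, hvx⟩
        exact ⟨hv.1, hvx⟩)) (Submodule.span F W)
      (fun i x hx => span_app (by
        rintro _ ⟨i, rfl⟩
        exact hstW i x hx) (hD2 i)) hstTW hWle
      (fun x hx => by
        obtain ⟨m, hm⟩ := hnilW x hx
        exact ⟨m, kil_of_comb' hs.kD hcomb2 m x hm⟩) hinf
      ⟨c, fun v hv x hx => og_span hv.2.1 (hc v hv.1 hv.2.1) x hx⟩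
    have hlD : ∀ i, D i l ∈ F := fun i => span_memF (by
      rintro _ ⟨i, rfl⟩
      exact hlD2 i) (hD2' i)
    have hlall : ∀ v ∈ Pl, Triv F v → v.Reg l := by
      intro v hv hvF
      by_cases hlog : ∀ i, DerLog v (D i)
      · by_cases hlogT : ∀ a, DerLog v (T a)
        · exact hlv v ⟨hv, hvF, hlog, hlogT⟩
        · push Not at hlogT
          obtain ⟨a, ha⟩ := hlogT
          exact Or.inr (nonlog_wt (hregT v hv hvF a) ha (hμ a)).ge
      · push Not at hlog
        obtain ⟨i, hi⟩ := hlog
        refine nonlog_reg (hreg v hv hvF i) hi (n := 2) ?_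
        change D i (D i l) = 0
        exact hs.kD i _ (hlD i)
    have hlA : l ∈ 𝔸 := hcl F le_rfl hF l hlall
    have hl0 : l ≠ 0 := fun h => hlF (h ▸ F.zero_mem)
    by_cases hlC : l ∈ Cst D
    · -- step A
      obtain ⟨a1, ha1⟩ : ∃ a1, μ a1 ≠ 0 := by
        by_contra hcon
        push Not at hcon
        refine hlF (hs.const l (mem_cst.1 hlC) fun a => ?_)
        rw [hμ a, hcon a, Int.cast_zero, zero_mul]
      obtain ⟨T', G, hs', hFG, hT', hG, hz, ⟨a2, ha2, ha2'⟩, hHs⟩ := hs.nextA hμ hl0 ha1
      have hGA : G ≤ 𝔸 := by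
        intro x hx
        obtain ⟨hxC, hxT⟩ := (hG x).1 hx
        refine hs2.algA hal h𝔸 hF (l := l) (mem_cst.2 fun i => ?_) hl0 hlA hμ ha1 hT'
          (mem_cst.2 fun i => ?_) hxT
        · obtain ⟨c, -, hc⟩ := hcomb2 i
          rw [hc]
          exact Finset.sum_eq_zero fun l' _ => by rw [mem_cst.1 hlC, mul_zero]
        · obtain ⟨c, -, hc⟩ := hcomb2 i
          rw [hc]
          exact Finset.sum_eq_zero fun l' _ => by rw [mem_cst.1 hxC, mul_zero]
      have hlt : {a | T' a ≠ 0}.ncard < {a | T a ≠ 0}.ncard := by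
        refine Set.ncard_lt_ncard ⟨fun a ha h => ha (hz a h), fun h => ?_⟩ (Set.toFinite _)
        exact h ha2 ha2'
      have htr : ∀ v : Place k K, Triv G v → Triv F v := fun v hv f hf => hv f (hFG hf)
      have hism : ∀ (m : ℤ) (N : Submodule G K) (z : K), z ∈ N → (m : K) * z ∈ N := by
        intro m N z hz
        have h4 : (m : K) * z = ((m : ℤ) : G) • z := by
          rw [Algebra.smul_def]
          congr 1
        rw [h4]
        exact Submodule.smul_mem _ _ hz
      obtain ⟨F₁, h1, h2, h3⟩ := ih _ (by omega) G D T' hs' hGA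
        (fun W hW i x hx => span_le_span hFG _ (hst W hW i x hx))
        (fun W hW a x hx => by
          rw [hT']
          exact Submodule.sub_mem _ (hism _ _ _ (span_le_span hFG _ (hstT W hW a x hx)))
            (hism _ _ _ (span_le_span hFG _ (hstT W hW a1 x hx))))
        (fun W hW x hx => by
          have h1 := hH W hW x hx
          unfold Hs at h1
          clear hx
          induction h1 using Submodule.span_induction with
          | mem x hx =>
            obtain ⟨ν, hν⟩ := hx
            exact hHs ν x hν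
          | zero => exact Submodule.zero_mem _
          | add x y _ _ h h' => exact Submodule.add_mem _ h h'
          | smul a x _ h =>
            have h4 : a • x = (⟨a, hFG a.2⟩ : G) • x := rfl
            rw [h4]
            exact Submodule.smul_mem _ _ h) hnil
        (fun v hv hvG => hreg v hv (htr v hvG))
        (fun v hv hvG a f hf => by
          rw [hT']
          change Og v 0 _
          have hi : ∀ m : ℤ, Og v 0 (m : K) := fun m => (htr v hvG).og (m : F)
          have h5 : Og v 0 (T a f) := hregT v hv (htr v hvG) a f hf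
          have h6 : Og v 0 (T a1 f) := hregT v hv (htr v hvG) a1 f hf
          have h7 := (hi (μ a1)).mul h5
          have h8 := (hi (μ a)).mul h6
          rw [zero_add] at h7 h8
          rw [sub_eq_add_neg]
          exact h7.add h8.neg)
        (fun W hW => by
          obtain ⟨c, hc⟩ := hbd W hW
          exact ⟨c, fun v hv hvF => hc v hv (htr v hvF)⟩)
        (fun F₁ h4 => hcl F₁ (hFG.trans h4)) rfl
      exact ⟨F₁, hFG.trans h1, h2, h3⟩
    · -- step B
      obtain ⟨j, hj⟩ : ∃ j, D2 j l ≠ 0 := by
        by_contra hcon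
        push Not at hcon
        refine hlC (mem_cst.2 fun i => ?_)
        have := span_app (N := (⊥ : Submodule F K)) (x := l) (by
          rintro _ ⟨i, rfl⟩
          rw [hcon i]
          exact Submodule.zero_mem _) (hD2' i)
        exact (Submodule.mem_bot F).1 this
      obtain ⟨E, hEd⟩ : ∃ E : Derivation k K K, E = (⟨(D2 j l)⁻¹, F.inv_mem (hlD2 j)⟩ : F) •
        D2 j := ⟨_, rfl⟩
      have hEx : ∀ x, E x = (D2 j l)⁻¹ * D2 j x := fun x => by
        rw [hEd, fsmul_apply]
      have hμj : -μ = al j := by
        have h1 := ((hal j).wt hμ).uniq (wt_const hs.kT (hlD2 j)) hj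
        exact (eq_neg_of_add_eq_zero_left h1).symm
      have hEl : E l = 1 := by rw [hEx, inv_mul_cancel₀ hj]
      have hEs : E ∈ Submodule.span F (Set.range D) := by
        rw [hEd]
        exact Submodule.smul_mem _ _ (hD2 j)
      obtain ⟨D', T', G, hG, hs', hcomb, hT', hz, ⟨i1, hi1, hi1'⟩, hzT, hHs⟩ := hs.nextB hμ hlC hlD
        hEl hEs (by
          intro a x
          rw [hμj, hEx, hEx, der_smul (hs.kT a) (F.inv_mem (hlD2 j))]
          have := hal j a x
          linear_combination (D2 j l)⁻¹ * this)
      have hFG : F ≤ G := by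
        rw [hG]
        exact fun x hx => IntermediateField.subset_adjoin k _ (Or.inl hx)
      have hlG : l ∈ G := by
        rw [hG]
        exact IntermediateField.subset_adjoin k _ (Or.inr rfl)
      have hGA : G ≤ 𝔸 := by
        rw [hG, IntermediateField.adjoin_le_iff]
        rintro x (hx | hx)
        · exact hF hx
        · rw [Set.mem_singleton_iff] at hx
          rw [hx]
          exact hlA
      have hlt : {i | D' i ≠ 0}.ncard < {i | D i ≠ 0}.ncard := by
        refine Set.ncard_lt_ncard ⟨fun i hi h => hi (hz i h), fun h => ?_⟩ (Set.toFinite _)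
        exact h hi1 hi1'
      have hle : {a | T' a ≠ 0}.ncard ≤ {a | T a ≠ 0}.ncard :=
        Set.ncard_le_ncard (fun a ha h => ha (hzT a h)) (Set.toFinite _)
      have htr : ∀ v : Place k K, Triv G v → Triv F v := fun v hv f hf => hv f (hFG hf)
      obtain ⟨F₁, h1, h2, h3⟩ := ih _ (by omega) G D' T' hs' hGA (by
        intro W hW i x hx
        obtain ⟨c, hc, hcx⟩ := hcomb i
        rw [hcx]
        refine Submodule.sum_mem _ fun l _ => ?_
        have h4 : c l * D l x = (⟨c l, hFG (hc l)⟩ : G) • D l x := rfl
        rw [h4]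
        exact Submodule.smul_mem _ _ (span_le_span hFG _ (hst W hW l x hx)))
        (by
          intro W hW a x hx
          rw [hT']
          refine Submodule.sub_mem _ (span_le_span hFG _ (hstT W hW a x hx)) ?_
          have h4 : E x ∈ Submodule.span F W := span_app (by
            rintro _ ⟨i, rfl⟩
            exact hst W hW i x hx) hEs
          exact Submodule.smul_mem _ (⟨_, G.mul_mem (G.intCast_mem (μ a)) hlG⟩ : G)
            (span_le_span hFG _ h4))
        (by
          intro W hW x hx
          have hstW' := fun a => span_stable (hs.kT a) (hstT W hW a)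
          obtain ⟨s, e, he, rfl⟩ := hs_comp hs.kT (Submodule.span F W) hstW'
            (Submodule.subset_span hx) (hH W hW x hx)
          refine Submodule.sum_mem _ fun ν _ => hHs ν _ ?_ (he ν).1
          have h4 := (he ν).2
          generalize e ν = z at h4
          clear he
          induction h4 using Submodule.span_induction with
          | mem x hx => exact hnil W hW x hx
          | zero => exact nilp_zero
          | add x y _ _ h h' => exact h.add h'
          | smul a x _ h =>
            rw [Algebra.smul_def]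
            exact hs.nilpF a.2 h)
        (by
          intro W hW x hx
          obtain ⟨m, hm⟩ := hnil W hW x hx
          exact ⟨m, kil_of_comb hs.kD hcomb m x hm⟩)
        (by
          intro v hv hvG i f hf
          obtain ⟨c, hc, hcx⟩ := hcomb i
          rw [hcx]
          change Og v 0 _
          refine og_sum _ fun l _ => ?_
          have h4 : Og v 0 (c l) := (htr v hvG).og ⟨c l, hc l⟩
          have h5 : Og v 0 (D l f) := hreg v hv (htr v hvG) l f hf
          have h6 := h4.mul h5
          rwa [zero_add] at h6)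
        (by
          intro v hv hvG a f hf
          rw [hT']
          change Og v 0 _
          have hi : Og v 0 ((μ a : K) * l) := hvG.og ⟨_, G.mul_mem (G.intCast_mem (μ a)) hlG⟩
          have h5 : Og v 0 (T a f) := hregT v hv (htr v hvG) a f hf
          have h6 : Og v 0 (E f) := reg_span (htr v hvG) (by
            rintro _ ⟨i, rfl⟩
            exact hreg v hv (htr v hvG) i) hEs f hf
          have h8 := hi.mul h6
          rw [zero_add] at h8
          rw [sub_eq_add_neg]
          exact h5.add h8.neg)
        (fun W hW => by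
          obtain ⟨c, hc⟩ := hbd W hW
          exact ⟨c, fun v hv hvF => hc v hv (htr v hvF)⟩)
        (fun F₁ h4 => hcl F₁ (hFG.trans h4)) rfl
      exact ⟨F₁, hFG.trans h1, h2, h3⟩

end

end Pool.Agent.H892
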